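import Pool.Agent.N804.Thm1

set_option autoImplicit false

/-! # The counting functions of the statements -/

namespace Pool.Agent.N804

open Filter Topology Set MeasureTheory
open H370 (Zf mult zset zeta_zeros_finite)

/-- the nontrivial zeros -/
def ZZ : Set ℂ := {s : ℂ | riemannZeta s = 0 ∧ 0 < s.re ∧ s.re < 1}

lemma low_zero : ∃ h0 : ℝ, 0 < h0 ∧ ∀ s ∈ ZZ, 0 < s.im → h0 < s.im := by
  set F := (zeta_zeros_finite 1).toFinset with hF
  rcases F.eq_empty_or_nonempty with h | h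
  · refine ⟨1, one_pos, fun s hs h0 => ?_⟩
    by_contra hcon
    push Not at hcon
    have : s ∈ F := by
      rw [hF, Set.Finite.mem_toFinset]
      exact ⟨hs.2.1, hs.2.2, h0, hcon, hs.1⟩
    rw [h] at this
    simp at this
  · obtain ⟨s0, hs0, hmin⟩ := Finset.exists_min_image F (fun s => s.im) h
    rw [hF, Set.Finite.mem_toFinset] at hs0
    have hp : 0 < s0.im := hs0.2.2.1
    refine ⟨s0.im / 2, by positivity, fun s hs h0 => ?_⟩
    by_contra hcon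
    push Not at hcon
    have hle : s0.im ≤ 1 := hs0.2.2.2.1
    have hsF : s ∈ F := by
      rw [hF, Set.Finite.mem_toFinset]
      exact ⟨hs.2.1, hs.2.2, h0, by linarith, hs.1⟩
    have := hmin s hsF
    linarith

lemma mem_ZT {T : ℝ} {s : ℂ} : s ∈ Zf riemannZeta 0 T ↔ s ∈ ZZ ∧ 0 < s.im ∧ s.im ≤ T := by
  rw [mem_Z le_rfl]
  constructor
  · rintro ⟨a1, a2, a3, a4, a5⟩
    exact ⟨⟨a5, a1, a2⟩, a3, a4⟩
  · rintro ⟨⟨a5, a1, a2⟩, a3, a4⟩
    exact ⟨a1, a2, a3, a4, a5⟩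

/-- the count with no restriction on the second ordinate -/
theorem nstar_eq (a : ℝ) : ∃ T0 : ℝ, 10 ≤ T0 ∧ ∀ T : ℝ, T0 ≤ T →
    ((∑ᶠ p ∈ {p : ℂ × ℂ | p.1 ∈ ZZ ∧ p.2 ∈ ZZ ∧ 0 < p.1.im ∧ p.1.im ≤ T ∧
      0 < p.1.im - p.2.im ∧ p.1.im - p.2.im ≤ 2 * Real.pi * a / Real.log T},
      analyticOrderNatAt riemannZeta p.1 * analyticOrderNatAt riemannZeta p.2 : ℕ) : ℝ) =
    CF T a * XX T := by
  classical
  obtain ⟨h0, hh0, hlow⟩ := low_zero
  obtain ⟨T3, hT3⟩ := eventually_atTop.1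
    (Real.tendsto_log_atTop.eventually_ge_atTop (2 * Real.pi * a / h0))
  refine ⟨max 10 T3, le_max_left _ _, fun T hT => ?_⟩
  have hT10 : 10 ≤ T := (le_max_left _ _).trans hT
  have hL : 0 < Real.log T := Real.log_pos (by linarith)
  have hX := XX_pos (show 1 < T by linarith)
  have hh : 2 * Real.pi * a / Real.log T ≤ h0 := by
    have := hT3 T ((le_max_right _ _).trans hT)
    rw [div_le_iff₀ hh0] at this
    rw [div_le_iff₀ hL]
    linarith
  set h := 2 * Real.pi * a / Real.log T with hhd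
  set S := Zf riemannZeta 0 T with hS
  have hset : {p : ℂ × ℂ | p.1 ∈ ZZ ∧ p.2 ∈ ZZ ∧ 0 < p.1.im ∧ p.1.im ≤ T ∧
      0 < p.1.im - p.2.im ∧ p.1.im - p.2.im ≤ h} =
      ↑((S ×ˢ S).filter (fun p : ℂ × ℂ => 0 < p.1.im - p.2.im ∧ p.1.im - p.2.im ≤ h)) := by
    ext p
    simp only [Set.mem_ofPred_eq, Finset.coe_filter, Finset.mem_product]
    rw [hS, mem_ZT, mem_ZT]
    constructor
    · rintro ⟨a1, a2, a3, a4, a5, a6⟩
      refine ⟨⟨⟨a1, a3, a4⟩, a2, ?_, by linarith⟩, a5, a6⟩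
      have := hlow p.1 a1 a3
      linarith
    · rintro ⟨⟨⟨a1, a3, a4⟩, a2, -, -⟩, a5, a6⟩
      exact ⟨a1, a2, a3, a4, a5, a6⟩
  rw [hset, finsum_mem_coe_finset, Finset.sum_filter, Finset.sum_product]
  unfold CF
  rw [div_mul_cancel₀ _ hX.ne']
  unfold Pc
  push_cast
  refine Finset.sum_congr rfl fun s _ => Finset.sum_congr rfl fun s' _ => ?_
  split_ifs <;> simp [mult]

theorem nbad_eq {T : ℝ} (hT : 1 < T) :
    ((∑ᶠ s ∈ {s : ℂ | s ∈ ZZ ∧ 0 < s.im ∧ s.im ≤ T ∧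
      (s.re ≠ 1 / 2 ∨ analyticOrderNatAt riemannZeta s ≠ 1)},
      analyticOrderNatAt riemannZeta s : ℕ) : ℝ) = BF T * XX T := by
  classical
  have hX := XX_pos hT
  set S := Zf riemannZeta 0 T with hS
  have hset : {s : ℂ | s ∈ ZZ ∧ 0 < s.im ∧ s.im ≤ T ∧
      (s.re ≠ 1 / 2 ∨ analyticOrderNatAt riemannZeta s ≠ 1)} = ↑(S.filter Bad) := by
    ext s
    simp only [Set.mem_ofPred_eq, Finset.coe_filter]
    rw [hS, mem_ZT]
    constructor
    · rintro ⟨a1, a2, a3, a4⟩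
      exact ⟨⟨a1, a2, a3⟩, a4⟩
    · rintro ⟨⟨a1, a2, a3⟩, a4⟩
      exact ⟨a1, a2, a3, a4⟩
  rw [hset, finsum_mem_coe_finset]
  unfold BF
  rw [div_mul_cancel₀ _ hX.ne']
  unfold Nbad
  push_cast
  rfl

/-- the value in the conjecture -/
theorem val_eq (a : ℝ) : (1 / (2 * Real.pi)) * ∫ u in (0 : ℝ)..a,
    (1 - (Real.sin (Real.pi * u) / (Real.pi * u)) ^ 2) = PP a / (2 * Real.pi) := by
  have : ∫ u in (0 : ℝ)..a, (1 - (Real.sin (Real.pi * u) / (Real.pi * u)) ^ 2) = PP a := by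
    unfold PP
    refine intervalIntegral.integral_congr_ae ?_
    have h0 : ∀ᵐ u : ℝ, u ≠ 0 := by
      rw [ae_iff]
      simp
    filter_upwards [h0] with u hu _
    rw [Real.sinc_of_ne_zero (by have := Real.pi_pos; positivity)]
  rw [this]
  ring

end Pool.Agent.N804
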