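import Pool.Agent.N804.Mom

set_option autoImplicit false

/-! # A one-sided function with vanishing odd moments against a rapidly decreasing weight -/

namespace Pool.Agent.N804

open Filter Topology Set MeasureTheory
open scoped ENNReal

lemma lin_eq {f : ℝ → ℝ} (hf : Integrable f) (h0 : ∫ x, f x = 0) :
    ∫⁻ x, ENNReal.ofReal (f x) = ∫⁻ x, ENNReal.ofReal (-f x) := by
  have h := integral_eq_lintegral_pos_part_sub_lintegral_neg_part hf
  rw [h0] at h
  have f1 : ∫⁻ x, ENNReal.ofReal (f x) ≠ ∞ := hf.lintegral_lt_top.ne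
  have f2 : ∫⁻ x, ENNReal.ofReal (-f x) ≠ ∞ := hf.neg.lintegral_lt_top.ne
  rw [← ENNReal.toReal_eq_toReal_iff' f1 f2]
  linarith

lemma cosh_sum (t x : ℝ) : ENNReal.ofReal (Real.cosh (t * x)) =
    ∑' n : ℕ, ENNReal.ofReal (t ^ (2 * n) / (2 * n).factorial) * ENNReal.ofReal (x ^ (2 * n)) := by
  have h := Real.hasSum_cosh (t * x)
  have h1 : ∀ n : ℕ, ENNReal.ofReal (t ^ (2 * n) / (2 * n).factorial) *
      ENNReal.ofReal (x ^ (2 * n)) = ENNReal.ofReal ((t * x) ^ (2 * n) / (2 * n).factorial) := by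
    intro n
    rw [← ENNReal.ofReal_mul (div_nonneg ((even_two_mul n).pow_nonneg t) (Nat.cast_nonneg _))]
    congr 1
    rw [mul_pow]
    ring
  simp_rw [h1]
  rw [← ENNReal.ofReal_tsum_of_nonneg _ h.summable, h.tsum_eq]
  intro n
  exact div_nonneg ((even_two_mul n).pow_nonneg _) (Nat.cast_nonneg _)

lemma int_exp_abs {c : ℝ} (hc : 0 < c) : Integrable fun x : ℝ => Real.exp (-c * |x|) := by
  set m : ℝ := min 1 (c ^ 2 / 2) with hm
  have hm0 : 0 < m := lt_min one_pos (by positivity)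
  refine Integrable.mono' (integrable_inv_one_add_sq.const_mul m⁻¹) (by fun_prop)
    (ae_of_all _ fun x => ?_)
  have h1 := Real.quadratic_le_exp_of_nonneg (mul_nonneg hc.le (abs_nonneg x))
  have h2 : m * (1 + x ^ 2) ≤ Real.exp (c * |x|) := by
    have h3 : m * 1 ≤ 1 * 1 := mul_le_mul_of_nonneg_right (min_le_left _ _) zero_le_one
    have h4 : m * x ^ 2 ≤ c ^ 2 / 2 * x ^ 2 :=
      mul_le_mul_of_nonneg_right (min_le_right _ _) (sq_nonneg x)
    have h5 : (c * |x|) ^ 2 = c ^ 2 * x ^ 2 := by rw [mul_pow, sq_abs]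
    have h6 := mul_nonneg hc.le (abs_nonneg x)
    nlinarith
  rw [Real.norm_eq_abs, Real.abs_exp, ← mul_inv, neg_mul, Real.exp_neg]
  exact inv_anti₀ (by positivity) h2

theorem uniq {D g : ℝ → ℝ} (hD : Measurable D) (hg : Continuous g) (hg0 : ∀ x, 0 ≤ g x)
    {B K ε : ℝ} (hε : 0 < ε) (hB : ∀ x, 0 ≤ x → |D x| ≤ B * (1 + x ^ 2))
    (hK : ∀ x, 0 ≤ x → -(K * Real.exp (-(ε * x))) ≤ D x)
    (hdec : ∀ n : ℕ, ∃ A : ℝ, ∀ x, 0 ≤ x → x ^ n * g x ≤ A)
    (hm : ∀ n : ℕ, ∫ x in Ioi (0 : ℝ), x ^ (2 * n + 1) * g x * D x = 0) :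
    ∀ᵐ x, 0 < x → g x * D x = 0 := by
  have hB0 : 0 ≤ B := by
    have := (abs_nonneg _).trans (hB 0 le_rfl)
    simpa using this
  have hK0 : ∃ K' : ℝ, 0 ≤ K' ∧ ∀ x, 0 ≤ x → -(K' * Real.exp (-(ε * x))) ≤ D x := by
    refine ⟨|K|, abs_nonneg _, fun x hx => (neg_le_neg ?_).trans (hK x hx)⟩
    exact mul_le_mul_of_nonneg_right (le_abs_self K) (Real.exp_pos _).le
  obtain ⟨K', hK'0, hK'⟩ := hK0
  set U : ℝ → ℝ := fun x => |x| * g |x| * D |x| with hU
  have hUm : Measurable U := by
    have h1 : Measurable fun x : ℝ => D |x| := hD.comp (by fun_prop)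
    have h2 : Measurable fun x : ℝ => g |x| := hg.measurable.comp (by fun_prop)
    exact ((by fun_prop : Measurable fun x : ℝ => |x|).mul h2).mul h1
  have hUe : ∀ x, U (-x) = U x := fun x => by simp [hU]
  -- integrability of `x ^ n * U`
  have hint : ∀ n : ℕ, Integrable fun x : ℝ => x ^ n * U x := by
    intro n
    obtain ⟨A1, hA1⟩ := hdec (n + 1)
    obtain ⟨A2, hA2⟩ := hdec (n + 5)
    have hb : ∀ x : ℝ, |x ^ n * U x| ≤ (2 * B * (A1 + A2)) * (1 + x ^ 2)⁻¹ := by
      intro x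
      have hx0 : 0 ≤ |x| := abs_nonneg x
      set y := |x| with hy
      have hx2 : x ^ 2 = y ^ 2 := (sq_abs x).symm
      have e1 : |x ^ n * U x| = y ^ (n + 1) * g y * |D y| := by
        simp only [hU]
        rw [abs_mul, abs_mul, abs_mul, abs_pow, abs_abs, abs_of_nonneg (hg0 _)]
        ring
      rw [e1, hx2, ← div_eq_mul_inv, le_div_iff₀ (by positivity)]
      have h1 := hA1 y hx0
      have h2 := hA2 y hx0
      have h3 := hB y hx0
      have hg' := hg0 y
      calc y ^ (n + 1) * g y * |D y| * (1 + y ^ 2) ≤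
          y ^ (n + 1) * g y * (B * (1 + y ^ 2)) * (1 + y ^ 2) := by gcongr
        _ = B * (y ^ (n + 1) * g y) * (1 + y ^ 2) ^ 2 := by ring
        _ ≤ B * (y ^ (n + 1) * g y) * (2 * (1 + y ^ 4)) := by
            gcongr
            nlinarith [sq_nonneg (y ^ 2 - 1)]
        _ = 2 * B * (y ^ (n + 1) * g y + y ^ (n + 5) * g y) := by ring
        _ ≤ _ := by gcongr
    refine Integrable.mono' (integrable_inv_one_add_sq.const_mul (2 * B * (A1 + A2)))
      ((measurable_id.pow_const n).mul hUm).aestronglyMeasurable (ae_of_all _ fun x => ?_)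
    rw [Real.norm_eq_abs]
    exact hb x
  have hz : ∀ n : ℕ, ∫ x : ℝ, x ^ (2 * n) * U x = 0 := by
    intro n
    have e : ∀ x : ℝ, x ^ (2 * n) * U x = (fun y : ℝ => y ^ (2 * n + 1) * g y * D y) |x| := by
      intro x
      simp only [hU]
      have : x ^ (2 * n) = |x| ^ (2 * n) := by rw [pow_mul, pow_mul, sq_abs]
      rw [this]
      ring
    rw [integral_congr_ae (ae_of_all _ e),
      integral_comp_abs (f := fun y : ℝ => y ^ (2 * n + 1) * g y * D y), hm n, mul_zero]
  set μ : Measure ℝ := volume.withDensity (fun x => ENNReal.ofReal (U x)) with hμ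
  set ν : Measure ℝ := volume.withDensity (fun x => ENNReal.ofReal (-U x)) with hν
  have m1 : Measurable fun x => ENNReal.ofReal (U x) := hUm.ennreal_ofReal
  have m2 : Measurable fun x => ENNReal.ofReal (-U x) := hUm.neg.ennreal_ofReal
  have hlin : ∀ n : ℕ, ∫⁻ x, ENNReal.ofReal (x ^ (2 * n)) ∂μ =
      ∫⁻ x, ENNReal.ofReal (x ^ (2 * n)) ∂ν := by
    intro n
    have mm : Measurable fun x : ℝ => ENNReal.ofReal (x ^ (2 * n)) := by fun_prop
    rw [hμ, hν, lintegral_withDensity_eq_lintegral_mul _ m1 mm,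
      lintegral_withDensity_eq_lintegral_mul _ m2 mm]
    have h := lin_eq (hint (2 * n)) (hz n)
    have hnn : ∀ x : ℝ, 0 ≤ x ^ (2 * n) := fun x => (even_two_mul n).pow_nonneg x
    have e1 : ∀ x : ℝ, ((fun x => ENNReal.ofReal (U x)) * fun x => ENNReal.ofReal (x ^ (2 * n))) x =
        ENNReal.ofReal (x ^ (2 * n) * U x) := by
      intro x
      simp only [Pi.mul_apply]
      rw [mul_comm, ← ENNReal.ofReal_mul (hnn x)]
    have e2 : ∀ x : ℝ, ((fun x => ENNReal.ofReal (-U x)) *
        fun x => ENNReal.ofReal (x ^ (2 * n))) x = ENNReal.ofReal (-(x ^ (2 * n) * U x)) := by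
      intro x
      simp only [Pi.mul_apply]
      rw [mul_comm, ← ENNReal.ofReal_mul (hnn x), mul_neg]
    rw [lintegral_congr e1, lintegral_congr e2, h]
  have hcosh : ∀ t : ℝ, ∫⁻ x, ENNReal.ofReal (Real.cosh (t * x)) ∂μ =
      ∫⁻ x, ENNReal.ofReal (Real.cosh (t * x)) ∂ν := by
    intro t
    simp_rw [cosh_sum]
    rw [lintegral_tsum (fun n => by fun_prop), lintegral_tsum (fun n => by fun_prop)]
    congr 1
    funext n
    rw [lintegral_const_mul _ (by fun_prop), lintegral_const_mul _ (by fun_prop), hlin]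
  obtain ⟨A1, hA1⟩ := hdec 1
  have hUneg : ∀ x, -U x ≤ A1 * K' * Real.exp (-(ε * |x|)) := by
    intro x
    have h1 := hK' |x| (abs_nonneg x)
    have h2 := hA1 |x| (abs_nonneg x)
    have h3 : 0 ≤ |x| * g |x| := mul_nonneg (abs_nonneg _) (hg0 _)
    rw [pow_one] at h2
    have hE := (Real.exp_pos (-(ε * |x|))).le
    calc -U x = |x| * g |x| * (-D |x|) := by simp only [hU]; ring
      _ ≤ |x| * g |x| * (K' * Real.exp (-(ε * |x|))) := by gcongr; linarith
      _ ≤ A1 * (K' * Real.exp (-(ε * |x|))) := by gcongr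
      _ = _ := by ring
  have hfin : ∀ t : ℝ, |t| < ε → ∫⁻ x, ENNReal.ofReal (Real.cosh (t * x)) ∂ν < ∞ := by
    intro t ht
    rw [hν, lintegral_withDensity_eq_lintegral_mul _ m2 (by fun_prop)]
    have hc : 0 < ε - |t| := by linarith
    have hI : Integrable fun x : ℝ => A1 * K' * Real.exp (-(ε - |t|) * |x|) := by
      refine Integrable.const_mul ?_ _
      exact int_exp_abs hc
    refine lt_of_le_of_lt (lintegral_mono fun x => ?_) hI.lintegral_lt_top
    simp only [Pi.mul_apply]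
    rw [mul_comm, ← ENNReal.ofReal_mul (Real.cosh_pos _).le]
    refine ENNReal.ofReal_le_ofReal ?_
    have h1 : Real.cosh (t * x) ≤ Real.exp (|t| * |x|) := by
      rw [← Real.cosh_abs, abs_mul]
      have := Real.exp_pos (-(|t| * |x|))
      have h5 : Real.exp (-(|t| * |x|)) ≤ Real.exp (|t| * |x|) :=
        Real.exp_le_exp.2 (by have := mul_nonneg (abs_nonneg t) (abs_nonneg x); linarith)
      rw [Real.cosh_eq]
      linarith
    have h2 := hUneg x
    have hA0 : 0 ≤ A1 * K' := by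
      refine mul_nonneg ?_ hK'0
      have := hA1 0 le_rfl
      simpa using this
    calc Real.cosh (t * x) * (-U x) ≤ Real.cosh (t * x) * (A1 * K' * Real.exp (-(ε * |x|))) :=
          mul_le_mul_of_nonneg_left h2 (Real.cosh_pos _).le
      _ ≤ Real.exp (|t| * |x|) * (A1 * K' * Real.exp (-(ε * |x|))) :=
          mul_le_mul_of_nonneg_right h1 (mul_nonneg hA0 (Real.exp_pos _).le)
      _ = A1 * K' * Real.exp (-(ε - |t|) * |x|) := by
          have : -(ε - |t|) * |x| = |t| * |x| + -(ε * |x|) := by ring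
          rw [this, Real.exp_add]
          ring
  have hexp : ∀ {ρ : Measure ℝ}, (∀ t : ℝ, |t| < ε →
      ∫⁻ x, ENNReal.ofReal (Real.cosh (t * x)) ∂ρ < ∞) →
      ∀ t : ℝ, |t| < ε → Integrable (fun x : ℝ => Real.exp (t * x)) ρ := by
    intro ρ h t ht
    have h1 : Integrable (fun x : ℝ => Real.cosh (t * x)) ρ := by
      refine ⟨by fun_prop, ?_⟩
      rw [hasFiniteIntegral_iff_ofReal (ae_of_all _ fun x => (Real.cosh_pos _).le)]
      exact h t ht
    refine Integrable.mono' (h1.const_mul 2) (by fun_prop) (ae_of_all _ fun x => ?_)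
    rw [Real.norm_eq_abs, Real.abs_exp, Real.cosh_eq]
    have := Real.exp_pos (-(t * x))
    linarith
  have hμe := hexp (ρ := μ) (fun t ht => by rw [hcosh t]; exact hfin t ht)
  have hνe := hexp (ρ := ν) hfin
  have fin_of : ∀ {ρ : Measure ℝ}, (∀ t : ℝ, |t| < ε →
      Integrable (fun x : ℝ => Real.exp (t * x)) ρ) → IsFiniteMeasure ρ := by
    intro ρ h
    have h1 := h 0 (by simpa using hε)
    simp only [zero_mul, Real.exp_zero] at h1
    have := integrable_const_iff.1 h1
    rcases this with h | h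
    · norm_num at h
    · exact h
  have := fin_of hμe
  have := fin_of hνe
  have hmom : ∀ n : ℕ, ∫ x : ℝ, x ^ n ∂μ = ∫ x : ℝ, x ^ n ∂ν := by
    intro n
    rcases Nat.even_or_odd n with he | ho
    · obtain ⟨k, hk⟩ := he
      have hk2 : n = 2 * k := by omega
      subst hk2
      have hnn : ∀ x : ℝ, 0 ≤ x ^ (2 * k) := fun x => (even_two_mul k).pow_nonneg x
      rw [integral_eq_lintegral_of_nonneg_ae (ae_of_all _ hnn) (by fun_prop),
        integral_eq_lintegral_of_nonneg_ae (ae_of_all _ hnn) (by fun_prop), hlin]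
    · have hodd : ∀ {h : ℝ → ℝ≥0∞}, Measurable h → (∀ x, h x < ∞) → (∀ x, h (-x) = h x) →
          ∫ x : ℝ, x ^ n ∂(volume.withDensity h) = 0 := by
        intro h hm' hfin' hev
        rw [integral_withDensity_eq_integral_toReal_smul hm' (ae_of_all _ hfin')]
        have e := integral_neg_eq_self (fun x : ℝ => (h x).toReal • x ^ n) volume
        have e2 : ∀ x : ℝ, (h (-x)).toReal • (-x) ^ n = -((h x).toReal • x ^ n) := by
          intro x
          rw [hev, ho.neg_pow]
          simp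
        simp only [e2, integral_neg] at e
        linarith
      rw [hμ, hν, hodd m1 (fun x => ENNReal.ofReal_lt_top) (fun x => by rw [hUe]),
        hodd m2 (fun x => ENNReal.ofReal_lt_top) (fun x => by rw [hUe])]
  have heq : μ = ν := meas_eq hε hμe hνe hmom
  have hae : (fun x => ENNReal.ofReal (U x)) =ᵐ[volume] fun x => ENNReal.ofReal (-U x) := by
    refine (withDensity_eq_iff m1.aemeasurable m2.aemeasurable ?_).1 heq
    have h1 : IsFiniteMeasure μ := inferInstance
    have h2 := h1.measure_univ_lt_top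
    rw [hμ, withDensity_apply _ MeasurableSet.univ, Measure.restrict_univ] at h2
    exact h2.ne
  filter_upwards [hae] with x hx hx0
  have hUx : U x = 0 := by
    rcases lt_trichotomy (U x) 0 with h | h | h
    · rw [ENNReal.ofReal_of_nonpos h.le, eq_comm, ENNReal.ofReal_eq_zero] at hx
      linarith
    · exact h
    · rw [ENNReal.ofReal_of_nonpos (by linarith : -U x ≤ 0), ENNReal.ofReal_eq_zero] at hx
      linarith
  simp only [hU, abs_of_pos hx0] at hUx
  rw [mul_assoc] at hUx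
  exact (mul_eq_zero.1 hUx).resolve_left hx0.ne'

end Pool.Agent.N804
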