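import Pool.Agent.N804.Lim
import Pool.Agent.N804.Uniq

set_option autoImplicit false

/-! # One-sided conditions at large distances determine the limit object -/

namespace Pool.Agent.N804

open Filter Topology Set MeasureTheory

/-- the discrepancy with the constant for the equal ordinates -/
noncomputable def Gd (Φ : ℝ → ℝ) (μ x : ℝ) : ℝ := Φ x - PP x + (μ - 1) / 2

/-- the basic weight -/
noncomputable def w0 (x : ℝ) : ℝ := x ^ (2 * 0 + 1) * gw (1 / 2) (by norm_num) x

lemma w0_test : ∃ r, Test w0 r (1 / 2) := tests (by norm_num) 0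

lemma w0_nonneg {x : ℝ} (hx : 0 ≤ x) : 0 ≤ w0 x := mul_nonneg (pow_nonneg hx _) (gw_nonneg _ x)

lemma w0_cont : Continuous w0 := by
  unfold w0
  have := gw_cont (show (0 : ℝ) < 1 / 2 by norm_num)
  fun_prop

lemma w0_bd : ∃ A : ℝ, 0 < A ∧ ∀ x, 0 ≤ x → w0 x ≤ A := by
  obtain ⟨A, hA⟩ := gw_dec (show (0 : ℝ) < 1 / 2 by norm_num) 1
  refine ⟨|A| + 1, by positivity, fun x hx => ?_⟩
  have h := hA x hx
  have : w0 x = x ^ 1 * gw (1 / 2) (by norm_num) x := by simp [w0]
  rw [this]
  exact h.trans ((le_abs_self A).trans (by linarith))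

/-- its mass -/
noncomputable def I0 : ℝ := ∫ x in Ioi (0 : ℝ), w0 x

lemma I0_pos : 0 < I0 := by
  obtain ⟨r, H⟩ := w0_test
  unfold I0
  rw [setIntegral_pos_iff_support_of_nonneg_ae]
  · obtain ⟨y, hy, hne⟩ := gw_ne (show (0 : ℝ) < 1 / 2 by norm_num) (show (1 : ℝ) < 2 by norm_num)
    have hopen : IsOpen (Function.support w0 ∩ Ioi (0 : ℝ)) :=
      (w0_cont.isOpen_support).inter isOpen_Ioi
    refine hopen.measure_pos _ ⟨y, ?_, ?_⟩
    · rw [Function.mem_support]
      exact mul_ne_zero (pow_ne_zero _ (by linarith [hy.1] : y ≠ 0)) hne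
    · exact mem_Ioi.2 (by linarith [hy.1])
  · exact (ae_restrict_iff' measurableSet_Ioi).2 (ae_of_all _ fun x hx => w0_nonneg (le_of_lt hx))
  · exact w_int H

lemma wL_int {L : ℝ} (hL : 0 < L) : IntegrableOn (fun x => w0 (x / L) / L) (Ioi 0) ∧
    ∫ x in Ioi (0 : ℝ), w0 (x / L) / L = I0 := by
  obtain ⟨r, H⟩ := w0_test
  have HL := H.scale hL
  refine ⟨w_int HL, ?_⟩
  have e := HL.eq 0
  have e2 := H.eq 0
  rw [abs_zero] at e e2
  unfold I0
  rw [← e, ← e2]
  -- both equal the value at `0` of the transform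
  unfold CT
  have e3 := Measure.integral_comp_mul_left (fun β : ℝ => r β * Real.cos (2 * Real.pi * β * 0)) L
  have e4 : ∀ α : ℝ, L * r (L * α) * Real.cos (2 * Real.pi * α * 0) =
      L * (r (L * α) * Real.cos (2 * Real.pi * (L * α) * 0)) := by
    intro α
    simp
  simp_rw [e4]
  rw [integral_const_mul, e3, abs_of_pos (inv_pos.2 hL), smul_eq_mul, ← mul_assoc,
    mul_inv_cancel₀ hL.ne', one_mul]

lemma G_int {Φ : ℝ → ℝ} {μ ν e : ℝ} (H : LO Φ μ ν e) {w r : ℝ → ℝ} {δ : ℝ} (W : Test w r δ) :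
    IntegrableOn (fun x => w x * Gd Φ μ x) (Ioi 0) := by
  obtain ⟨B, hB, hbd⟩ := H.bd
  have i1 := W.inta 1 le_rfl
  have i0 := W.inta 0 le_rfl
  refine Integrable.mono' ((i1.const_mul (B + 1)).add (i0.const_mul (B + |μ - 1|))) ?_ ?_
  · have h1 := H.mono.measurable
    have h2 := W.cont.measurable
    have h3 := PP_cont.measurable
    exact (h2.mul ((h1.sub h3).add_const _)).aestronglyMeasurable
  · refine (ae_restrict_iff' measurableSet_Ioi).2 (ae_of_all _ fun x hx => ?_)
    have hx0 : 0 ≤ x := le_of_lt hx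
    have hw := abs_nonneg (w x)
    obtain ⟨c1, c2⟩ := hbd x hx0
    have c3 := PP_nonneg hx0
    have c4 := PP_le hx0
    have c5 := neg_abs_le (μ - 1)
    have c6 := le_abs_self (μ - 1)
    rw [Real.norm_eq_abs, abs_mul]
    have h7 : |Gd Φ μ x| ≤ (B + 1) * x + (B + |μ - 1|) := by
      unfold Gd
      rw [abs_le]
      have : 0 ≤ |μ - 1| := abs_nonneg _
      constructor <;> nlinarith
    simp only [Pi.add_apply, pow_one, pow_zero, one_mul]
    calc |w x| * |Gd Φ μ x| ≤ |w x| * ((B + 1) * x + (B + |μ - 1|)) := by gcongr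
      _ = _ := by ring

/-- averages of the discrepancy over long ranges are small -/
lemma scaled {Φ : ℝ → ℝ} {μ ν e : ℝ} (H : LO Φ μ ν e) : ∃ C : ℝ, 0 < C ∧ ∀ L : ℝ, 1 ≤ L →
    |∫ x in Ioi (0 : ℝ), w0 (x / L) / L * Gd Φ μ x| ≤ C / L := by
  obtain ⟨C, hC, hid⟩ := H.id1
  obtain ⟨r, W⟩ := w0_test
  obtain ⟨R, hR⟩ := W.bdd
  have hR0 : 0 ≤ R := (abs_nonneg _).trans (hR 0)
  refine ⟨C * R * (1 / 2) ^ 3 + 1, by positivity, fun L hL => ?_⟩
  have hL0 : 0 < L := by linarith
  have h := hid (1 / 2 / L) (by positivity) (by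
    rw [div_le_iff₀ hL0]; linarith) _ _ (W.scale hL0) (L * R) (fun α => by
      rw [abs_mul, abs_of_pos hL0]
      exact mul_le_mul_of_nonneg_left (hR _) hL0.le)
  refine (le_trans (le_of_eq rfl) h).trans ?_
  rw [div_pow, le_div_iff₀ hL0]
  have e1 : C * (L * R) * ((1 / 2) ^ 3 / L ^ 3) * L = C * R * (1 / 2) ^ 3 / L := by
    field_simp
  rw [e1]
  have h2 : C * R * (1 / 2) ^ 3 / L ≤ C * R * (1 / 2) ^ 3 := div_le_self (by positivity) hL
  linarith

lemma arch {a D : ℝ} (h : ∀ L : ℝ, 1 ≤ L → a ≤ D / L) : a ≤ 0 := by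
  by_contra hcon
  push Not at hcon
  have hL : 1 ≤ max 1 (|D| / a + 1) := le_max_left _ _
  have h1 := h _ hL
  rw [le_div_iff₀ (by linarith)] at h1
  have h2 : |D| / a + 1 ≤ max 1 (|D| / a + 1) := le_max_right _ _
  have h3 : a * (|D| / a + 1) ≤ a * max 1 (|D| / a + 1) := by gcongr
  have h4 : a * (|D| / a + 1) = |D| + a := by field_simp
  have h5 := le_abs_self D
  linarith

/-- if `G ≤ m` beyond `x` then `m ≥ 0` -/
lemma avg_upper {Φ : ℝ → ℝ} {μ ν e : ℝ} (H : LO Φ μ ν e) {x m : ℝ} (hx : 0 ≤ x)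
    (h : ∀ᵐ y, x < y → Gd Φ μ y ≤ m) : 0 ≤ m := by
  obtain ⟨C, hC, hsc⟩ := scaled H
  obtain ⟨A, hA, hwA⟩ := w0_bd
  obtain ⟨r, W⟩ := w0_test
  set M1 : ℝ := Φ x + (μ - 1) / 2 with hM1
  have hI := I0_pos
  have key : ∀ L : ℝ, 1 ≤ L → -(m * I0) ≤ (C + |M1 - m| * x * A) / L := by
    intro L hL
    have hL0 : 0 < L := by linarith
    have h1 := (abs_le.1 (hsc L hL)).1
    have hGi := G_int H (W.scale hL0)
    obtain ⟨hwi, hwI⟩ := wL_int hL0
    have hind : IntegrableOn (fun y => (Ioc (0 : ℝ) x).indicator (fun _ => |M1 - m| * (A / L)) y)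
        (Ioi 0) := by
      refine (integrable_indicator_iff measurableSet_Ioc).2 ?_ |>.integrableOn
      exact integrableOn_const (by simp)
    have h2 : ∫ y in Ioi (0 : ℝ), w0 (y / L) / L * Gd Φ μ y ≤
        ∫ y in Ioi (0 : ℝ), (m * (w0 (y / L) / L) +
          (Ioc (0 : ℝ) x).indicator (fun _ => |M1 - m| * (A / L)) y) := by
      refine setIntegral_mono_ae_restrict hGi ((hwi.const_mul m).add hind) ?_
      filter_upwards [ae_restrict_mem measurableSet_Ioi, ae_restrict_of_ae h] with y hy hym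
      have hy0 : 0 ≤ y := le_of_lt hy
      have hw0 : 0 ≤ w0 (y / L) / L := div_nonneg (w0_nonneg (by positivity)) hL0.le
      by_cases hyx : y ≤ x
      · rw [indicator_of_mem (show y ∈ Ioc (0 : ℝ) x from ⟨hy, hyx⟩)]
        have h3 : Gd Φ μ y ≤ M1 := by
          unfold Gd
          have := H.mono hyx
          have := PP_nonneg hy0
          linarith
        have h4 : w0 (y / L) / L ≤ A / L := by
          have := hwA (y / L) (by positivity)
          gcongr
        have h5 : w0 (y / L) / L * (M1 - m) ≤ A / L * |M1 - m| := by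
          calc w0 (y / L) / L * (M1 - m) ≤ w0 (y / L) / L * |M1 - m| :=
                mul_le_mul_of_nonneg_left (le_abs_self _) hw0
            _ ≤ A / L * |M1 - m| := mul_le_mul_of_nonneg_right h4 (abs_nonneg _)
        calc w0 (y / L) / L * Gd Φ μ y ≤ w0 (y / L) / L * M1 :=
              mul_le_mul_of_nonneg_left h3 hw0
          _ = m * (w0 (y / L) / L) + w0 (y / L) / L * (M1 - m) := by ring
          _ ≤ _ := by linarith
      · rw [indicator_of_notMem (fun hh => hyx hh.2), add_zero, mul_comm m]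
        push Not at hyx
        exact mul_le_mul_of_nonneg_left (hym hyx) hw0
    rw [integral_add (hwi.const_mul m) hind, integral_const_mul, hwI,
      setIntegral_indicator measurableSet_Ioc] at h2
    have h6 : Ioi (0 : ℝ) ∩ Ioc 0 x = Ioc 0 x := by
      ext y
      simp only [mem_inter_iff, mem_Ioi, mem_Ioc]
      tauto
    rw [h6, setIntegral_const] at h2
    have h7 : volume.real (Ioc (0 : ℝ) x) = x := by simp [Measure.real, hx]
    rw [h7, smul_eq_mul] at h2
    have h8 : (C + |M1 - m| * x * A) / L = C / L + x * (|M1 - m| * (A / L)) := by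
      field_simp
    rw [h8]
    linarith
  have h9 := arch key
  by_contra hcon
  push Not at hcon
  nlinarith

/-- if `G ≥ m` beyond `x` then `m ≤ 0` -/
lemma avg_lower {Φ : ℝ → ℝ} {μ ν e : ℝ} (H : LO Φ μ ν e) {x m : ℝ} (hx : 0 ≤ x)
    (h : ∀ᵐ y, x < y → m ≤ Gd Φ μ y) : m ≤ 0 := by
  obtain ⟨C, hC, hsc⟩ := scaled H
  obtain ⟨A, hA, hwA⟩ := w0_bd
  obtain ⟨r, W⟩ := w0_test
  obtain ⟨B, hB, hbd⟩ := H.bd
  set M1 : ℝ := -x + (μ - 1) / 2 with hM1
  have hI := I0_pos
  have key : ∀ L : ℝ, 1 ≤ L → m * I0 ≤ (C + |m - M1| * x * A) / L := by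
    intro L hL
    have hL0 : 0 < L := by linarith
    have h1 := (abs_le.1 (hsc L hL)).2
    have hGi := G_int H (W.scale hL0)
    obtain ⟨hwi, hwI⟩ := wL_int hL0
    have hind : IntegrableOn (fun y => (Ioc (0 : ℝ) x).indicator (fun _ => |m - M1| * (A / L)) y)
        (Ioi 0) := by
      refine (integrable_indicator_iff measurableSet_Ioc).2 ?_ |>.integrableOn
      exact integrableOn_const (by simp)
    have h2 : ∫ y in Ioi (0 : ℝ), (m * (w0 (y / L) / L) -
          (Ioc (0 : ℝ) x).indicator (fun _ => |m - M1| * (A / L)) y) ≤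
        ∫ y in Ioi (0 : ℝ), w0 (y / L) / L * Gd Φ μ y := by
      refine setIntegral_mono_ae_restrict ((hwi.const_mul m).sub hind) hGi ?_
      filter_upwards [ae_restrict_mem measurableSet_Ioi, ae_restrict_of_ae h] with y hy hym
      have hy0 : 0 ≤ y := le_of_lt hy
      have hw0 : 0 ≤ w0 (y / L) / L := div_nonneg (w0_nonneg (by positivity)) hL0.le
      by_cases hyx : y ≤ x
      · rw [indicator_of_mem (show y ∈ Ioc (0 : ℝ) x from ⟨hy, hyx⟩)]
        have h3 : M1 ≤ Gd Φ μ y := by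
          unfold Gd
          have := (hbd y hy0).1
          have := PP_le hy0
          linarith
        have h4 : w0 (y / L) / L ≤ A / L := by
          have := hwA (y / L) (by positivity)
          gcongr
        have h5 : w0 (y / L) / L * (m - M1) ≤ A / L * |m - M1| := by
          calc w0 (y / L) / L * (m - M1) ≤ w0 (y / L) / L * |m - M1| :=
                mul_le_mul_of_nonneg_left (le_abs_self _) hw0
            _ ≤ A / L * |m - M1| := mul_le_mul_of_nonneg_right h4 (abs_nonneg _)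
        calc m * (w0 (y / L) / L) - |m - M1| * (A / L) ≤
            m * (w0 (y / L) / L) - w0 (y / L) / L * (m - M1) := by linarith
          _ = w0 (y / L) / L * M1 := by ring
          _ ≤ _ := mul_le_mul_of_nonneg_left h3 hw0
      · rw [indicator_of_notMem (fun hh => hyx hh.2), sub_zero, mul_comm m]
        push Not at hyx
        exact mul_le_mul_of_nonneg_left (hym hyx) hw0
    rw [integral_sub (hwi.const_mul m) hind, integral_const_mul, hwI,
      setIntegral_indicator measurableSet_Ioc] at h2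
    have h6 : Ioi (0 : ℝ) ∩ Ioc 0 x = Ioc 0 x := by
      ext y
      simp only [mem_inter_iff, mem_Ioi, mem_Ioc]
      tauto
    rw [h6, setIntegral_const] at h2
    have h7 : volume.real (Ioc (0 : ℝ) x) = x := by simp [Measure.real, hx]
    rw [h7, smul_eq_mul] at h2
    have h8 : (C + |m - M1| * x * A) / L = C / L + x * (|m - M1| * (A / L)) := by
      field_simp
    rw [h8]
    linarith
  have h9 := arch key
  by_contra hcon
  push Not at hcon
  nlinarith

end Pool.Agent.N804
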