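import Pool.Agent.N804.Wn
import Pool.Agent.N804.LimThm

set_option autoImplicit false

/-! # One-sided functionals on windows of one length -/

namespace Pool.Agent.N804

open Filter Topology Set MeasureTheory

/-- a smooth step from `0` (left of `a`) to `1` (right of `b`) -/
noncomputable def sst (a b x : ℝ) : ℝ := Real.smoothTransition ((x - a) / (b - a))

lemma sst_sm (a b : ℝ) : ContDiff ℝ (⊤ : ℕ∞) (sst a b) := by
  unfold sst
  exact Real.smoothTransition.contDiff.comp ((contDiff_id.sub contDiff_const).div_const _)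

lemma sst_zero {a b x : ℝ} (hab : a < b) (hx : x ≤ a) : sst a b x = 0 :=
  Real.smoothTransition.zero_of_nonpos (div_nonpos_of_nonpos_of_nonneg (by linarith) (by linarith))

lemma sst_one {a b x : ℝ} (hab : a < b) (hx : b ≤ x) : sst a b x = 1 := by
  refine Real.smoothTransition.one_of_one_le ?_
  rw [le_div_iff₀ (by linarith)]
  linarith

lemma sst_nonneg (a b x : ℝ) : 0 ≤ sst a b x := Real.smoothTransition.nonneg _

lemma sst_le (a b x : ℝ) : sst a b x ≤ 1 := Real.smoothTransition.le_one _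

/-- the averages of `g (· / L)` over the windows of length `δ` -/
noncomputable def RL (g : ℝ → ℝ) (δ L α : ℝ) : ℝ :=
  (1 / δ) * Wn (-(δ / 2)) (δ / 2) (fun s => g (s / L)) α

/-- one-sidedness on windows of length `δ` -/
structure CH (G : ℝ → ℝ) (δ κ₀ : ℝ) (g : ℝ → ℝ) : Prop where
  lg : LG G
  a : ∀ κ₁ : ℝ, κ₁ < 1 → ∀ r : ℝ → ℝ, SC r → (∀ α, κ₁ < |α| → r α = 0) →
    (∀ α, κ₀ < |α| → 0 ≤ r α) → DD G r ≤ 0
  b : ∀ ρ : ℝ → ℝ, SC ρ → (∀ s, 0 ≤ ρ s) → (∃ a : ℝ, κ₀ < a ∧ ∀ s, s < a → ρ s = 0) →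
    DD G (Wn (-δ) 0 ρ) ≤ 0
  c : ∃ C : ℝ, ∀ L : ℝ, 1 ≤ L → -(C / L) ≤ DD G (RL g δ L)
  d : ∀ κ : ℝ, κ < 2 / 3 → ∀ r : ℝ → ℝ, SC r → (∀ α, κ < |α| → r α = 0) → DD G r = 0

/-- a bump -/
structure GB (g : ℝ → ℝ) : Prop where
  sc : SC g
  ev : ∀ x, g (-x) = g x
  nn : ∀ x, 0 ≤ g x
  pos : 0 < g 0

lemma scale_SC {g : ℝ → ℝ} (H : SC g) {L : ℝ} (hL : 0 < L) : SC (fun s => g (s / L)) := by
  refine ⟨H.sm.comp (contDiff_id.div_const L), ?_⟩
  have := H.cs.comp_homeomorph (Homeomorph.mulRight₀ L⁻¹ (inv_ne_zero hL.ne'))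
  exact this

lemma RL_SC {g : ℝ → ℝ} (H : SC g) (δ : ℝ) {L : ℝ} (hL : 0 < L) : SC (RL g δ L) :=
  (Wn_SC (scale_SC H hL) _ _).cmul _

/-- the weights of the windows -/
noncomputable def wgt (g : ℝ → ℝ) (δ L a' a s : ℝ) : ℝ :=
  (1 / δ) * (sst a' a s * g ((s + δ / 2) / L))

lemma wgt_SC {g : ℝ → ℝ} (H : SC g) (δ : ℝ) {L : ℝ} (hL : 0 < L) (a' a : ℝ) :
    SC (wgt g δ L a' a) := by
  have h1 : SC fun s => g ((s + δ / 2) / L) := by
    have := (scale_SC H hL).transl (-(δ / 2))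
    simpa only [sub_neg_eq_add] using this
  have h2 : SC fun s => g ((s + δ / 2) / L) * sst a' a s := h1.mulS (sst_sm a' a)
  have h3 := h2.cmul (1 / δ)
  have e : wgt g δ L a' a = fun s => 1 / δ * (g ((s + δ / 2) / L) * sst a' a s) := by
    funext s
    unfold wgt
    ring
  rw [e]
  exact h3

lemma decomp0 {G : ℝ → ℝ} (hG : LG G) {δ : ℝ} {g : ℝ → ℝ} (hg : GB g) (hδ : 0 < δ)
    {a' a : ℝ} (h1 : 0 < a') (h2 : a' < a) {L : ℝ} (hL : 0 < L) :
    ∃ r₁ : ℝ → ℝ, SC r₁ ∧ (∀ α, 0 ≤ r₁ α) ∧ (∀ α, r₁ α ≤ RL g δ L α) ∧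
      (∀ α, a + δ < |α| → r₁ α = 0) ∧
      DD G (RL g δ L) = DD G r₁ + 2 * DD G (Wn (-δ) 0 (wgt g δ L a' a)) := by
  set ρ := wgt g δ L a' a with hρ
  have Hρ : SC ρ := wgt_SC hg.sc δ hL a' a
  set W : ℝ → ℝ := Wn (-δ) 0 ρ with hW
  have HW : SC W := Wn_SC Hρ _ _
  have HR := RL_SC hg.sc δ hL
  have hgc := hg.sc.cont
  have hsc : Continuous (sst a' a) := (sst_sm a' a).continuous
  have hρ0 : ∀ s, 0 ≤ ρ s := by
    intro s
    simp only [hρ, wgt]
    have := hg.nn ((s + δ / 2) / L)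
    have := sst_nonneg a' a s
    positivity
  have hW0 : ∀ α, 0 ≤ W α := fun α => Wn_nonneg hρ0 (by linarith) α
  set r₁ : ℝ → ℝ := fun α => RL g δ L α - (W α + W (-α)) with hr₁
  have Hr₁ : SC r₁ := HR.sub (HW.add HW.refl)
  -- formula
  set k : ℝ → ℝ := fun t => (1 / δ) * ((1 - sst a' a (t - δ / 2) - sst a' a (-t - δ / 2)) *
    g (t / L)) with hk
  have hkc : Continuous k := by fun_prop
  have hform : ∀ α, r₁ α = ∫ t in (α - δ / 2)..(α + δ / 2), k t := by
    intro α
    have e1 : RL g δ L α = ∫ t in (α - δ / 2)..(α + δ / 2), (1 / δ) * g (t / L) := by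
      unfold RL Wn
      rw [intervalIntegral.integral_const_mul]
      congr 2
    have e2 : ∀ β, W β = ∫ t in (β - δ / 2)..(β + δ / 2),
        (1 / δ) * (sst a' a (t - δ / 2) * g (t / L)) := by
      intro β
      have h4 := intervalIntegral.integral_comp_sub_right (a := β - δ / 2) (b := β + δ / 2) ρ (δ / 2)
      have e3 : ∀ t : ℝ, ρ (t - δ / 2) = (1 / δ) * (sst a' a (t - δ / 2) * g (t / L)) := by
        intro t
        simp only [hρ, wgt]
        rw [sub_add_cancel]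
      simp_rw [e3] at h4
      rw [h4]
      simp only [hW, Wn]
      congr 1 <;> ring
    have e4 : W (-α) = ∫ t in (α - δ / 2)..(α + δ / 2),
        (1 / δ) * (sst a' a (-t - δ / 2) * g (t / L)) := by
      rw [e2]
      have h4 := intervalIntegral.integral_comp_neg (a := α - δ / 2) (b := α + δ / 2)
        (fun t => (1 / δ) * (sst a' a (t - δ / 2) * g (t / L)))
      have e5 : ∀ t : ℝ, (1 / δ) * (sst a' a (-t - δ / 2) * g (-t / L)) =
          (1 / δ) * (sst a' a (-t - δ / 2) * g (t / L)) := by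
        intro t
        rw [neg_div, hg.ev]
      simp_rw [e5] at h4
      rw [h4]
      congr 1 <;> ring
    simp only [hr₁]
    rw [e1, e2 α, e4, ← intervalIntegral.integral_add
      ((by fun_prop : Continuous fun t => (1 / δ) * (sst a' a (t - δ / 2) * g (t / L))).intervalIntegrable _ _)
      ((by fun_prop : Continuous fun t => (1 / δ) * (sst a' a (-t - δ / 2) * g (t / L))).intervalIntegrable _ _),
      ← intervalIntegral.integral_sub
      ((by fun_prop : Continuous fun t => (1 / δ) * g (t / L)).intervalIntegrable _ _)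
      ((by fun_prop : Continuous fun t => (1 / δ) * (sst a' a (t - δ / 2) * g (t / L)) +
        (1 / δ) * (sst a' a (-t - δ / 2) * g (t / L))).intervalIntegrable _ _)]
    refine intervalIntegral.integral_congr fun t _ => ?_
    simp only [hk]
    ring
  have hk0 : ∀ t, 0 ≤ k t := by
    intro t
    have hgn := hg.nn (t / L)
    have : 0 ≤ 1 - sst a' a (t - δ / 2) - sst a' a (-t - δ / 2) := by
      rcases le_total 0 t with h | h
      · rw [sst_zero (x := -t - δ / 2) h2 (by linarith)]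
        linarith [sst_le a' a (t - δ / 2)]
      · rw [sst_zero (x := t - δ / 2) h2 (by linarith)]
        linarith [sst_le a' a (-t - δ / 2)]
    simp only [hk]
    positivity
  refine ⟨r₁, Hr₁, ?_, ?_, ?_, ?_⟩
  · intro α
    rw [hform]
    exact intervalIntegral.integral_nonneg (by linarith) fun t _ => hk0 t
  · intro α
    have h5 := hW0 α
    have h6 := hW0 (-α)
    simp only [hr₁]
    linarith
  · intro α hα
    rw [hform, intervalIntegral.integral_congr (g := fun _ => 0)]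
    · simp
    · intro t ht
      rw [uIcc_of_le (by linarith)] at ht
      simp only [hk]
      have : 1 - sst a' a (t - δ / 2) - sst a' a (-t - δ / 2) = 0 := by
        rcases lt_abs.1 hα with h | h
        · rw [sst_zero (x := -t - δ / 2) h2 (by linarith [ht.1]),
            sst_one (x := t - δ / 2) h2 (by linarith [ht.1])]
          ring
        · rw [sst_zero (x := t - δ / 2) h2 (by linarith [ht.2]),
            sst_one (x := -t - δ / 2) h2 (by linarith [ht.2])]
          ring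
      rw [this]
      ring
  · have e6 : DD G r₁ = DD G (RL g δ L) - (DD G W + DD G W) := by
      rw [hr₁, DD_sub hG HR (HW.add HW.refl), DD_add hG HW HW.refl, DD_neg]
    linarith

lemma decomp {G : ℝ → ℝ} {δ κ₀ : ℝ} {g : ℝ → ℝ} (H : CH G δ κ₀ g) (hg : GB g) (hδ : 0 < δ)
    (hκ₀ : 0 < κ₀) {a' a : ℝ} (h1 : κ₀ < a') (h2 : a' < a) (h3 : a + δ < 1) {L : ℝ} (hL : 0 < L) :
    DD G (RL g δ L) ≤ 2 * DD G (Wn (-δ) 0 (wgt g δ L a' a)) := by
  obtain ⟨r₁, Hr₁, hpos, -, hzero, e⟩ := decomp0 H.lg hg hδ (hκ₀.trans h1) h2 hL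
  have hD1 := H.a (a + δ) h3 r₁ Hr₁ hzero fun α _ => hpos α
  linarith

/-- the windows are exact -/
theorem win_zero {G : ℝ → ℝ} {δ κ₀ : ℝ} {g : ℝ → ℝ} (H : CH G δ κ₀ g) (hg : GB g) (hδ : 0 < δ)
    (hκ₀ : 0 < κ₀) {ρ : ℝ → ℝ} (Hρ : SC ρ) (hρ0 : ∀ s, 0 ≤ ρ s) {a : ℝ} (h1 : κ₀ < a)
    (h3 : a + δ < 1) (hs : ∀ s, s < a → ρ s = 0) : DD G (Wn (-δ) 0 ρ) = 0 := by
  refine le_antisymm (H.b ρ Hρ hρ0 ⟨a, h1, hs⟩) ?_
  obtain ⟨C, hC⟩ := H.c
  obtain ⟨m, hm⟩ := Hρ.cont.bounded_above_of_compact_support Hρ.cs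
  have hm0 : 0 ≤ m := (norm_nonneg _).trans (hm 0)
  obtain ⟨A, hA, hAs⟩ := Hρ.supp
  obtain ⟨τ, hτ, hτg⟩ : ∃ τ : ℝ, 0 < τ ∧ ∀ x, |x| < τ → g 0 / 2 < g x := by
    have hgc := hg.sc.cont.continuousAt (x := 0)
    have h4 := hgc.eventually (lt_mem_nhds (show g 0 / 2 < g 0 by linarith [hg.pos]))
    obtain ⟨τ, hτ, h5⟩ := Metric.eventually_nhds_iff.1 h4
    exact ⟨τ, hτ, fun x hx => h5 (by simpa [Real.dist_eq] using hx)⟩
  set a' : ℝ := (κ₀ + a) / 2 with ha'
  have b1 : κ₀ < a' := by rw [ha']; linarith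
  have b2 : a' < a := by rw [ha']; linarith
  set M : ℝ := m * δ * (2 / g 0) with hM
  have hg0 := hg.pos
  have hM0 : 0 ≤ M := by positivity
  have hdom : ∀ L : ℝ, 1 ≤ L → (A + δ) / τ < L → ∀ s, 0 ≤ M * wgt g δ L a' a s - ρ s := by
    intro L hL1 hL s
    have hL0 : 0 < L := by linarith
    have hrn : 0 ≤ wgt g δ L a' a s := by
      unfold wgt
      have := hg.nn ((s + δ / 2) / L)
      have := sst_nonneg a' a s
      positivity
    by_cases h5 : s < a
    · rw [hs s h5]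
      have : 0 ≤ M * wgt g δ L a' a s := by positivity
      linarith
    · push Not at h5
      by_cases h6 : A < |s|
      · rw [hAs s h6]
        have : 0 ≤ M * wgt g δ L a' a s := by positivity
        linarith
      · push Not at h6
        have h7 : |(s + δ / 2) / L| < τ := by
          rw [abs_div, abs_of_pos hL0, div_lt_iff₀ hL0]
          rw [div_lt_iff₀ hτ] at hL
          have h8 : |s + δ / 2| ≤ |s| + δ / 2 := by
            have := abs_add_le s (δ / 2)
            rwa [abs_of_pos (show 0 < δ / 2 by positivity)] at this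
          linarith
        have h8 := hτg _ h7
        have h9 : wgt g δ L a' a s = (1 / δ) * g ((s + δ / 2) / L) := by
          unfold wgt
          rw [sst_one b2 h5, one_mul]
        have h10 : ρ s ≤ m := (le_abs_self _).trans (hm s)
        have h11 : m ≤ M * wgt g δ L a' a s := by
          rw [h9, hM]
          have h12 : m * δ * (2 / g 0) * (1 / δ * g ((s + δ / 2) / L)) =
              m * (g ((s + δ / 2) / L) / (g 0 / 2)) := by
            field_simp
          rw [h12]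
          have h13 : 1 ≤ g ((s + δ / 2) / L) / (g 0 / 2) := by
            rw [le_div_iff₀ (by positivity)]
            linarith
          nlinarith
        linarith
  have hkey : ∀ L : ℝ, 1 ≤ L → (A + δ) / τ < L → -(M * C / L) ≤ 2 * DD G (Wn (-δ) 0 ρ) := by
    intro L hL1 hL
    have hL0 : 0 < L := by linarith
    have hrSC := wgt_SC hg.sc δ hL0 a' a
    have hSC : SC fun s => M * wgt g δ L a' a s - ρ s := (hrSC.cmul M).sub Hρ
    have h4 := H.b _ hSC (hdom L hL1 hL) ⟨a', b1, fun s hs' => by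
      have e1 : wgt g δ L a' a s = 0 := by
        unfold wgt
        rw [sst_zero b2 hs'.le]
        ring
      rw [e1, hs s (by linarith)]
      ring⟩
    have e2 : Wn (-δ) 0 (fun s => M * wgt g δ L a' a s - ρ s) =
        fun x => M * Wn (-δ) 0 (wgt g δ L a' a) x - Wn (-δ) 0 ρ x := by
      funext x
      rw [Wn_sub (hrSC.cmul M).cont Hρ.cont, Wn_cmul]
    rw [e2, DD_sub H.lg ((Wn_SC hrSC _ _).cmul M) (Wn_SC Hρ _ _), DD_mul] at h4
    have h5 := decomp H hg hδ hκ₀ b1 b2 h3 hL0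
    have h6 := hC L hL1
    have h7 : M * (-(C / L)) ≤ M * (2 * DD G (Wn (-δ) 0 (wgt g δ L a' a))) := by
      gcongr
      linarith
    have e3 : M * C / L = M * (C / L) := by ring
    rw [e3]
    linarith
  -- the limit
  have hlim : Tendsto (fun L : ℝ => -(M * C / L)) atTop (𝓝 0) := by
    have := (tendsto_const_nhds (x := M * C)).div_atTop (tendsto_id (α := ℝ) (x := atTop))
    simpa using this.neg
  have h5 : 0 ≤ 2 * DD G (Wn (-δ) 0 ρ) := by
    refine le_of_tendsto hlim ?_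
    filter_upwards [eventually_ge_atTop 1, eventually_gt_atTop ((A + δ) / τ)] with L h6 h7
    exact hkey L h6 h7
  linarith

end Pool.Agent.N804
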