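import Pool.Agent.N804.Abs

set_option autoImplicit false

/-! # One-sided functionals on windows of one length: the functional vanishes -/

namespace Pool.Agent.N804

open Filter Topology Set MeasureTheory

/-- a bump around `0`, equal to `1` on `[-A, A]` -/
noncomputable def big (A : ℝ) (hA : 0 < A) : ContDiffBump (0 : ℝ) := ⟨A, A + 1, hA, by linarith⟩

lemma big_SC {A : ℝ} (hA : 0 < A) : SC (big A hA) :=
  ⟨(big A hA).contDiff, (big A hA).hasCompactSupport⟩

lemma big_one {A : ℝ} (hA : 0 < A) {x : ℝ} (hx : |x| ≤ A) : big A hA x = 1 := by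
  refine (big A hA).one_of_mem_closedBall ?_
  rw [mem_closedBall_zero_iff, Real.norm_eq_abs]
  exact hx

/-- functions supported inside one period -/
theorem loc_zero {G : ℝ → ℝ} {δ κ₀ : ℝ} {g : ℝ → ℝ} (H : CH G δ κ₀ g) (hg : GB g) (hδ : 0 < δ)
    (hκ₀ : 0 < κ₀) {lam κ₁ : ℝ} (h1 : κ₀ < lam) (h2 : lam + δ < κ₁) (h3 : κ₁ < 1) {f : ℝ → ℝ}
    (Hf : SC f) (hl : ∀ x, x < lam → f x = 0) (hr : ∀ x, κ₁ < x → f x = 0) : DD G f = 0 := by
  set a : ℝ := (κ₀ + lam) / 2 with ha
  set b : ℝ := (κ₁ + 1) / 2 - δ with hb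
  have hκa : κ₀ < a := by rw [ha]; linarith
  have hal : a < lam := by rw [ha]; linarith
  have hab : a < b := by rw [hb]; linarith
  have hb1 : b + δ < 1 := by rw [hb]; linarith
  have hbκ : κ₁ < b + δ := by rw [hb]; linarith
  set B : ContDiffBump ((a + b) / 2) := ⟨(b - a) / 4, (b - a) / 2, by linarith, by linarith⟩ with hB
  have HB : SC B := ⟨B.contDiff, B.hasCompactSupport⟩
  have hBpos : ∀ x, a < x → x < b → 0 < B x := by
    intro x hx1 hx2
    refine B.pos_of_mem_ball ?_
    rw [Metric.mem_ball, Real.dist_eq, abs_lt]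
    simp only [hB]
    constructor <;> linarith
  have hBz1 : ∀ x, x ≤ a → B x = 0 := by
    intro x hx
    refine B.zero_of_le_dist ?_
    rw [Real.dist_eq]
    simp only [hB]
    refine le_trans ?_ (neg_le_abs _)
    linarith
  have hBz2 : ∀ x, b ≤ x → B x = 0 := by
    intro x hx
    refine B.zero_of_le_dist ?_
    rw [Real.dist_eq]
    simp only [hB]
    refine le_trans ?_ (le_abs_self _)
    linarith
  have hB0 : ∀ x, 0 ≤ B x := fun x => B.nonneg
  have hDB : DD G (Wn (-δ) 0 B) = 0 :=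
    win_zero H hg hδ hκ₀ HB hB0 hκa (by linarith) fun s hs => hBz1 s hs.le
  set W : ℝ → ℝ := Wn (-δ) 0 B with hW
  have HW : SC W := Wn_SC HB _ _
  have hW0 : ∀ x, 0 ≤ W x := fun x => Wn_nonneg hB0 (by linarith) x
  have hWpos : ∀ x ∈ Icc lam κ₁, 0 < W x := by
    intro x hx
    have c1 : max (x - δ) a < min x b := by
      refine max_lt (lt_min (by linarith) ?_) (lt_min ?_ hab)
      · linarith [hx.2]
      · linarith [hx.1]
    have c2 : 0 < ∫ s in (max (x - δ) a)..(min x b), B s := by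
      refine intervalIntegral.intervalIntegral_pos_of_pos_on
        (HB.cont.intervalIntegrable _ _) (fun s hs => ?_) c1
      exact hBpos s (lt_of_le_of_lt (le_max_right _ _) hs.1) (lt_of_lt_of_le hs.2 (min_le_right _ _))
    refine lt_of_lt_of_le c2 ?_
    simp only [hW, Wn]
    rw [add_zero, ← sub_eq_add_neg]
    exact intervalIntegral.integral_mono_interval (le_max_left _ _) c1.le (min_le_left _ _)
      (ae_of_all _ hB0) (HB.cont.intervalIntegrable _ _)
  obtain ⟨x₀, hx₀, hmin⟩ := isCompact_Icc.exists_isMinOn (nonempty_Icc.2 (by linarith : lam ≤ κ₁))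
    HW.cont.continuousOn
  have hm0 := hWpos x₀ hx₀
  obtain ⟨M, hM⟩ := Hf.cont.bounded_above_of_compact_support Hf.cs
  have hM0 : 0 ≤ M := (norm_nonneg _).trans (hM 0)
  set K : ℝ := M / W x₀ with hK
  have hK0 : 0 ≤ K := by positivity
  have hdom : ∀ x, |f x| ≤ K * W x := by
    intro x
    by_cases hx : x ∈ Icc lam κ₁
    · have h4 : W x₀ ≤ W x := hmin hx
      calc |f x| ≤ M := hM x
        _ = K * W x₀ := by rw [hK]; field_simp
        _ ≤ K * W x := by gcongr
    · have : f x = 0 := by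
        rw [mem_Icc, not_and_or] at hx
        rcases hx with h | h
        · exact hl x (not_le.1 h)
        · exact hr x (not_le.1 h)
      rw [this, abs_zero]
      have := hW0 x
      positivity
  have hWz : ∀ x, b + δ < |x| → W x = 0 := by
    intro x hx
    simp only [hW, Wn]
    rw [intervalIntegral.integral_congr (g := fun _ => 0)]
    · simp
    · intro s hs
      rw [uIcc_of_le (by linarith)] at hs
      rcases lt_abs.1 hx with h | h
      · exact hBz2 s (by linarith [hs.1])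
      · exact hBz1 s (by linarith [hs.2])
  have hfz : ∀ x, b + δ < |x| → f x = 0 := by
    intro x hx
    rcases lt_abs.1 hx with h | h
    · exact hr x (by linarith)
    · exact hl x (by linarith)
  have hc : ∀ c : ℝ, |c| = 1 → c * DD G f ≤ 0 := by
    intro c hc
    have h4 := H.a (b + δ) hb1 (fun x => K * W x + c * f x) ((HW.cmul K).add (Hf.cmul c))
      (fun x hx => by rw [hWz x hx, hfz x hx]; ring) (fun x _ => by
        have h5 := hdom x
        have h6 := neg_abs_le (c * f x)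
        rw [abs_mul, hc, one_mul] at h6
        linarith)
    rw [DD_add H.lg (HW.cmul K) (Hf.cmul c), DD_mul, DD_mul, hDB] at h4
    linarith
  have d1 := hc 1 (by norm_num)
  have d2 := hc (-1) (by norm_num)
  linarith

/-- invariance under translations by `δ` -/
theorem shift_eq {G : ℝ → ℝ} {δ κ₀ : ℝ} {g : ℝ → ℝ} (H : CH G δ κ₀ g) (hg : GB g) (hδ : 0 < δ)
    (hκ₀ : 0 < κ₀) {a : ℝ} (h1 : κ₀ < a) (h2 : a + δ < 1) {f : ℝ → ℝ}
    (Hf : SC f) (hl : ∀ x, x < a → f x = 0) : DD G f = DD G (fun x => f (x - δ)) := by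
  set a' : ℝ := (κ₀ + a) / 2 with ha'
  have b1 : κ₀ < a' := by rw [ha']; linarith
  have b2 : a' < a := by rw [ha']; linarith
  obtain ⟨A, hA, hAs⟩ := Hf.supp
  have Hd := Hf.deriv
  obtain ⟨M, hM⟩ := Hd.cont.bounded_above_of_compact_support Hd.cs
  have hM0 : 0 ≤ M := (norm_nonneg _).trans (hM 0)
  have hdz1 : ∀ x, x < a → deriv f x = 0 := by
    intro x hx
    have : f =ᶠ[𝓝 x] fun _ => 0 := by
      filter_upwards [gt_mem_nhds hx] with y hy
      exact hl y hy
    rw [this.deriv_eq, deriv_const]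
  have hdz2 : ∀ x, A < |x| → deriv f x = 0 := fun x hx => deriv_supp hAs x hx
  set β : ℝ → ℝ := fun x => big A hA x * sst a' a x with hβ
  have Hβ : SC β := (big_SC hA).mulS (sst_sm a' a)
  have hβ0 : ∀ x, 0 ≤ β x := fun x => mul_nonneg (big A hA).nonneg (sst_nonneg _ _ _)
  have hβz : ∀ x, x < a' → β x = 0 := fun x hx => by
    simp only [hβ]
    rw [sst_zero b2 hx.le, mul_zero]
  have hβ1 : ∀ x, a ≤ x → |x| ≤ A → β x = 1 := fun x hx hx2 => by
    simp only [hβ]
    rw [sst_one b2 hx, big_one hA hx2, mul_one]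
  have z1 : DD G (Wn (-δ) 0 β) = 0 := win_zero H hg hδ hκ₀ Hβ hβ0 b1 (by linarith) hβz
  have z2 : DD G (Wn (-δ) 0 (fun s => deriv f s + M * β s)) = 0 := by
    refine win_zero H hg hδ hκ₀ (Hd.add (Hβ.cmul M)) (fun s => ?_) b1 (by linarith) fun s hs => ?_
    · by_cases h4 : s < a
      · rw [hdz1 s h4]
        have := hβ0 s
        positivity
      · by_cases h5 : A < |s|
        · rw [hdz2 s h5]
          have := hβ0 s
          positivity
        · push Not at h4 h5
          rw [hβ1 s h4 h5]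
          have h6 := hM s
          rw [Real.norm_eq_abs] at h6
          linarith [neg_abs_le (deriv f s)]
    · rw [hdz1 s (by linarith), hβz s hs]
      ring
  have e1 : Wn (-δ) 0 (fun s => deriv f s + M * β s) =
      fun x => (f x - f (x - δ)) + M * Wn (-δ) 0 β x := by
    funext x
    rw [Wn_add Hd.cont (Hβ.cmul M).cont, Wn_cmul]
    congr 1
    unfold Wn
    rw [intervalIntegral.integral_deriv_eq_sub' _ rfl (fun y _ => Hf.diff y) Hd.cont.continuousOn,
      add_zero, ← sub_eq_add_neg]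
  rw [e1, DD_add H.lg (Hf.sub (Hf.transl δ)) ((Wn_SC Hβ _ _).cmul M), DD_mul, z1, mul_zero, add_zero,
    DD_sub H.lg Hf (Hf.transl δ)] at z2
  linarith

/-- functions supported to the right -/
theorem right_zero {G : ℝ → ℝ} {δ κ₀ : ℝ} {g : ℝ → ℝ} (H : CH G δ κ₀ g) (hg : GB g) (hδ : 0 < δ)
    (hκ₀ : 0 < κ₀) {lam κ₁ : ℝ} (h1 : κ₀ < lam) (h2 : lam + δ < κ₁) (h3 : κ₁ < 1) (n : ℕ) :
    ∀ f : ℝ → ℝ, SC f → (∀ x, x < lam → f x = 0) → (∀ x, κ₁ + n * δ < x → f x = 0) →
      DD G f = 0 := by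
  induction n with
  | zero =>
    intro f Hf hl hr
    simp only [Nat.cast_zero, zero_mul, add_zero] at hr
    exact loc_zero H hg hδ hκ₀ h1 h2 h3 Hf hl hr
  | succ n ih =>
    intro f Hf hl hr
    -- the cut off
    set χ : ℝ → ℝ := sst (lam + δ) κ₁ with hχ
    have hχs := sst_sm (lam + δ) κ₁
    have H1 : SC fun x => f x * χ x := Hf.mulS hχs
    have H2 : SC fun x => f x * (1 - χ x) := Hf.mulS (contDiff_const.sub hχs)
    have z2 : DD G (fun x => f x * (1 - χ x)) = 0 := by
      refine loc_zero H hg hδ hκ₀ h1 h2 h3 H2 (fun x hx => by rw [hl x hx, zero_mul])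
        fun x hx => ?_
      simp only [hχ]
      rw [sst_one h2 hx.le]
      ring
    have H3 : SC fun x => f (x + δ) * χ (x + δ) := by
      have := H1.transl (-δ)
      simpa only [sub_neg_eq_add] using this
    have z1 : DD G (fun x => f (x + δ) * χ (x + δ)) = 0 := by
      refine ih _ H3 (fun x hx => ?_) fun x hx => ?_
      · simp only [hχ]
        rw [sst_zero h2 (by linarith), mul_zero]
      · rw [hr (x + δ) (by push_cast; linarith), zero_mul]
    have z3 := shift_eq H hg hδ hκ₀ h1 (by linarith) H3 (fun x hx => by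
      simp only [hχ]
      rw [sst_zero h2 (by linarith), mul_zero])
    simp only [sub_add_cancel] at z3
    have e : f = fun x => f x * χ x + f x * (1 - χ x) := by
      funext x
      ring
    rw [e, DD_add H.lg H1 H2, z2, ← z3, z1, add_zero]

/-- the functional vanishes -/
theorem all_zero {G : ℝ → ℝ} {δ κ₀ : ℝ} {g : ℝ → ℝ} (H : CH G δ κ₀ g) (hg : GB g) (hδ : 0 < δ)
    (hκ₀ : 0 < κ₀) {lam κ₁ : ℝ} (h1 : κ₀ < lam) (h2 : lam + δ < κ₁) (h3 : κ₁ < 1)
    (h4 : lam < 1 / 2) {r : ℝ → ℝ} (Hr : SC r) : DD G r = 0 := by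
  have hlam : 0 < lam := by linarith
  have hright : ∀ f : ℝ → ℝ, SC f → (∀ x, x < lam → f x = 0) → DD G f = 0 := by
    intro f Hf hl
    obtain ⟨A, hA, hAs⟩ := Hf.supp
    obtain ⟨n, hn⟩ := exists_nat_gt (A / δ)
    rw [div_lt_iff₀ hδ] at hn
    refine right_zero H hg hδ hκ₀ h1 h2 h3 n f Hf hl fun x hx => hAs x ?_
    exact lt_of_lt_of_le (by linarith) (le_abs_self x)
  -- the cut off near `0`
  set χ : ℝ → ℝ := fun x => sst lam (1 / 2) x with hχ
  have hχs : ContDiff ℝ (⊤ : ℕ∞) χ := sst_sm _ _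
  have H1 : SC fun x => r x * χ x := Hr.mulS hχs
  have H2 : SC fun x => r (-x) * χ x := Hr.refl.mulS hχs
  have z1 : DD G (fun x => r x * χ x) = 0 := hright _ H1 fun x hx => by
    simp only [hχ]
    rw [sst_zero h4 hx.le, mul_zero]
  have z2 : DD G (fun x => r (-x) * χ x) = 0 := hright _ H2 fun x hx => by
    simp only [hχ]
    rw [sst_zero h4 hx.le, mul_zero]
  have z2' : DD G (fun x => r x * χ (-x)) = 0 := by
    have := DD_neg G (fun x => r (-x) * χ x)
    simp only [neg_neg] at this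
    rw [this, z2]
  have H2' : SC fun x => r x * χ (-x) := Hr.mulS (hχs.comp contDiff_neg)
  have H3 : SC fun x => r x * (1 - χ x - χ (-x)) :=
    Hr.mulS ((contDiff_const.sub hχs).sub (hχs.comp contDiff_neg))
  have z3 : DD G (fun x => r x * (1 - χ x - χ (-x))) = 0 := by
    refine H.d (1 / 2) (by norm_num) _ H3 fun x hx => ?_
    rcases lt_abs.1 hx with h | h
    · simp only [hχ]
      rw [sst_one h4 h.le, sst_zero h4 (by linarith)]
      ring
    · simp only [hχ]
      rw [sst_zero (x := x) h4 (by linarith), sst_one h4 h.le]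
      ring
  have e : r = fun x => (r x * χ x + r x * χ (-x)) + r x * (1 - χ x - χ (-x)) := by
    funext x
    ring
  rw [e, DD_add H.lg (H1.add H2') H3, DD_add H.lg H1 H2', z1, z2', z3]
  ring

end Pool.Agent.N804
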