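import Pool.Agent.N804.Full

set_option autoImplicit false

/-! # The counting functions up to `T` and the averaged counting functions of the blocks -/

namespace Pool.Agent.N804

open Filter Topology Set
open H370 (Zf mult mem_Zf good_zeta zset NN NN_eq)

/-- averaged counting function -/
noncomputable def ct (T x : ℝ) : ℝ := avg (fun V => cb V x) T

/-- averaged number of pairs of equal ordinates -/
noncomputable def mt (T : ℝ) : ℝ := avg mb T

/-- averaged proportion of bad zeros -/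
noncomputable def vt (T : ℝ) : ℝ := avg vb T

/-- normalised number of pairs up to `T` -/
noncomputable def CF (T a : ℝ) : ℝ :=
  Pc (Zf riemannZeta 0 T) (2 * Real.pi * a / Real.log T) / XX T

lemma Jn_le {T : ℝ} (hT : 1 ≤ T) : (Jn T : ℝ) ≤ Real.log T := by
  have hlog : 0 ≤ Real.log T := Real.log_nonneg hT
  have h0 : 0 ≤ Real.logb 2 T * (2 / 3) :=
    mul_nonneg (Real.logb_nonneg (by norm_num) hT) (by norm_num)
  refine (Nat.floor_le h0).trans ?_
  have h2 := Real.log_two_gt_d9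
  have h3 : 0 < Real.log 2 := by linarith
  rw [Real.logb, div_mul_eq_mul_div, div_le_iff₀ h3]
  nlinarith

lemma cross_small (K : ℝ) {ε : ℝ} (hε : 0 < ε) : ∃ T0 : ℝ, 10 ≤ T0 ∧ ∀ T : ℝ, T0 ≤ T →
    (Jn T : ℝ) * (K * Real.log T) ^ 2 ≤ ε * XX T := by
  have hpi := Real.pi_gt_three
  have h2 : Tendsto (fun T : ℝ => Real.log T ^ 2 / T) atTop (𝓝 0) := by
    have := (Real.isLittleO_pow_log_id_atTop (n := 2)).tendsto_div_nhds_zero
    simpa using this
  have hc : 0 < ε / (2 * Real.pi * (K ^ 2 + 1)) := by positivity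
  obtain ⟨T3, hT3⟩ := eventually_atTop.1 (h2.eventually (ge_mem_nhds hc))
  refine ⟨max 10 T3, le_max_left _ _, fun T hT => ?_⟩
  have hT10 : 10 ≤ T := (le_max_left _ _).trans hT
  have hT0 : 0 < T := by linarith
  have h := hT3 T ((le_max_right _ _).trans hT)
  rw [div_le_div_iff₀ hT0 (by positivity)] at h
  have hL : 0 < Real.log T := Real.log_pos (by linarith)
  have hJ := Jn_le (show 1 ≤ T by linarith)
  unfold XX
  calc (Jn T : ℝ) * (K * Real.log T) ^ 2 ≤ Real.log T * (K * Real.log T) ^ 2 := by gcongr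
    _ = Real.log T * (Real.log T ^ 2 * K ^ 2) := by ring
    _ ≤ Real.log T * (Real.log T ^ 2 * (K ^ 2 + 1)) := by gcongr; linarith
    _ = Real.log T * (Real.log T ^ 2 * (2 * Real.pi * (K ^ 2 + 1))) / (2 * Real.pi) := by
        field_simp
    _ ≤ Real.log T * (ε * T) / (2 * Real.pi) := by gcongr
    _ = _ := by ring

lemma h_small (a : ℝ) : ∃ T0 : ℝ, 10 ≤ T0 ∧ ∀ T : ℝ, T0 ≤ T →
    2 * Real.pi * a / Real.log T ≤ 1 := by
  obtain ⟨T3, hT3⟩ := eventually_atTop.1
    (Real.tendsto_log_atTop.eventually_ge_atTop (2 * Real.pi * a))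
  refine ⟨max 10 T3, le_max_left _ _, fun T hT => ?_⟩
  have hT10 : 10 ≤ T := (le_max_left _ _).trans hT
  have hL : 0 < Real.log T := Real.log_pos (by linarith)
  rw [div_le_one hL]
  exact hT3 T ((le_max_right _ _).trans hT)

lemma cb_nonneg {T : ℝ} (h : 0 ≤ nb T) (x : ℝ) : 0 ≤ cb T x := div_nonneg (Pc_nonneg _ _) h

lemma nb_nonneg (T : ℝ) : 0 ≤ nb T := Nat.cast_nonneg _

lemma cb_mono {T : ℝ} (hT : 1 < T) {x y : ℝ} (h : x ≤ y) : cb T x ≤ cb T y := by
  unfold cb
  have hL : 0 < Real.log T := Real.log_pos hT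
  have hpi := Real.pi_pos
  refine div_le_div_of_nonneg_right (Pc_mono _ ?_) (nb_nonneg T)
  gcongr

lemma cb_neg {T : ℝ} (hT : 1 < T) {x : ℝ} (h : x ≤ 0) : cb T x = 0 := by
  unfold cb
  have hL : 0 < Real.log T := Real.log_pos hT
  have hpi := Real.pi_pos
  rw [Pc_neg, zero_div]
  exact div_nonpos_of_nonpos_of_nonneg (by nlinarith) hL.le

/-- upper comparison -/
theorem CF_le {a : ℝ} (ha : 0 ≤ a) {ε : ℝ} (hε : 0 < ε) : ∃ T0 : ℝ, 10 ≤ T0 ∧ ∀ T : ℝ, T0 ≤ T →
    CF T a ≤ ct T a + ε := by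
  obtain ⟨K, hK, hcross⟩ := Pc_cross
  obtain ⟨B, T1, hB, hT1, hbd⟩ := cb_mb_bd
  obtain ⟨T2, hT2, hcs⟩ := cross_small K (show 0 < ε / 3 by positivity)
  obtain ⟨T3, hT3, hbase⟩ := base_small (ε / 3) (by positivity)
  obtain ⟨T4, hT4, hh⟩ := h_small a
  have hBa : 0 < B * (1 + a) := by positivity
  obtain ⟨T5, hT5, hav⟩ := nb_avg (ε / 3 / (B * (1 + a))) (by positivity)
  obtain ⟨T6, hT6, hV⟩ := Vj_large T1
  refine ⟨max (max (max T2 T3) (max T4 T5)) T6,
    le_max_of_le_left (le_max_of_le_left (le_max_of_le_left hT2)), fun T hT => ?_⟩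
  have g1 : T2 ≤ T := (le_max_left _ _).trans ((le_max_left _ _).trans ((le_max_left _ _).trans hT))
  have g2 : T3 ≤ T :=
    (le_max_right _ _).trans ((le_max_left _ _).trans ((le_max_left _ _).trans hT))
  have g3 : T4 ≤ T :=
    (le_max_left _ _).trans ((le_max_right _ _).trans ((le_max_left _ _).trans hT))
  have g4 : T5 ≤ T :=
    (le_max_right _ _).trans ((le_max_right _ _).trans ((le_max_left _ _).trans hT))
  have g5 : T6 ≤ T := (le_max_right _ _).trans hT
  have hT10 : 10 ≤ T := hT2.trans g1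
  have hX := XX_pos (show 1 < T by linarith)
  have hpi := Real.pi_pos
  have hLT : 0 < Real.log T := Real.log_pos (by linarith)
  set h := 2 * Real.pi * a / Real.log T with hhd
  obtain ⟨b1, b2, -⟩ := hbase T g2
  have hup := dy_up (fun A C => Pc (Zf riemannZeta A C) h) ((K * Real.log T) ^ 2) T (Jn T) b1 (by
    intro C hC hCT
    refine (hcross C (2 * C) hC (by linarith) h (hh T g3)).trans ?_
    have h1 : K * Real.log C ≤ K * Real.log T := by
      have := Real.log_le_log (show 0 < C by linarith) (show C ≤ T by linarith)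
      gcongr
    have h2 : 0 ≤ K * Real.log C := mul_nonneg hK.le (Real.log_nonneg (by linarith))
    have h3 : (K * Real.log C) ^ 2 ≤ (K * Real.log T) ^ 2 := pow_le_pow_left₀ h2 h1 2
    linarith)
  rw [Finset.sum_add_distrib, Finset.sum_const, Finset.card_range, nsmul_eq_mul] at hup
  have hblock : ∑ j ∈ Finset.range (Jn T), Pc (Zf riemannZeta (Vj T j) (2 * Vj T j)) h ≤
      XX T * ∑ j ∈ Finset.range (Jn T), nb (Vj T j) / XX T * cb (Vj T j) a := by
    rw [Finset.mul_sum]
    refine Finset.sum_le_sum fun j hj => ?_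
    have hj' := Finset.mem_range.1 hj
    have hVj := hV T g5 j hj'
    have hV10 : 10 ≤ Vj T j := hT1.trans hVj
    have hLV : 0 < Real.log (Vj T j) := Real.log_pos (by linarith)
    have hVT : Vj T j ≤ T := div_le_self (by linarith) (one_le_pow₀ (by norm_num))
    have hlog : Real.log (Vj T j) ≤ Real.log T := Real.log_le_log (by linarith) hVT
    have h1 : h ≤ 2 * Real.pi * a / Real.log (Vj T j) := by
      rw [hhd]
      gcongr
    have h2 := Pc_mono (Zf riemannZeta (Vj T j) (2 * Vj T j)) h1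
    refine h2.trans (le_of_eq ?_)
    have hn : nb (Vj T j) * cb (Vj T j) a =
        Pc (Zf riemannZeta (Vj T j) (2 * Vj T j)) (2 * Real.pi * a / Real.log (Vj T j)) := by
      unfold cb
      rcases (nb_nonneg (Vj T j)).eq_or_lt with h0 | h0
      · -- no zeros
        have h3 := Pc_le_sq (Zf riemannZeta (Vj T j) (2 * Vj T j))
          (2 * Real.pi * a / Real.log (Vj T j))
        have h4 : ms (Zf riemannZeta (Vj T j) (2 * Vj T j)) = 0 := by
          rw [ms_eq (by linarith)]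
          exact h0.symm
        rw [h4] at h3
        have h5 := Pc_nonneg (Zf riemannZeta (Vj T j) (2 * Vj T j))
          (2 * Real.pi * a / Real.log (Vj T j))
        rw [← h0]
        simp only [zero_mul]
        nlinarith
      · field_simp
    rw [← hn]
    field_simp
  have havg := hav T g4 (fun V => cb V a) (B * (1 + a)) (by
    intro j hj
    have hVj := hV T g5 j hj
    rw [abs_of_nonneg (cb_nonneg (nb_nonneg _) _)]
    exact (hbd (Vj T j) hVj).1 a ha)
  have e1 : ε / 3 / (B * (1 + a)) * (B * (1 + a)) = ε / 3 := by field_simp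
  rw [e1] at havg
  have havg2 := (abs_le.1 havg).2
  have hcs' := hcs T g1
  have hbase2 := (Pc_le_sq (Zf riemannZeta 0 (T / 2 ^ Jn T)) h).trans b2
  unfold CF
  rw [div_le_iff₀ hX]
  have hct : ct T a = avg (fun V => cb V a) T := rfl
  rw [hct]
  set S := ∑ j ∈ Finset.range (Jn T), nb (Vj T j) / XX T * cb (Vj T j) a
  have h6 : XX T * S ≤ XX T * (avg (fun V => cb V a) T + ε / 3) := by
    apply mul_le_mul_of_nonneg_left _ hX.le
    linarith
  nlinarith

/-- lower comparison -/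
theorem CF_ge {a : ℝ} (ha : 0 ≤ a) {η : ℝ} (hη : 0 < η) (hη1 : η < 1) {ε : ℝ} (hε : 0 < ε) :
    ∃ T0 : ℝ, 10 ≤ T0 ∧ ∀ T : ℝ, T0 ≤ T → ct T ((1 - η) * a) - ε ≤ CF T a := by
  obtain ⟨B, T1, hB, hT1, hbd⟩ := cb_mb_bd
  have hBa : 0 < B * (1 + a) := by positivity
  obtain ⟨T5, hT5, hav⟩ := nb_avg (ε / 3 / (B * (1 + a))) (by positivity)
  obtain ⟨T6, hT6, hV⟩ := Vj_large T1
  obtain ⟨J1, hJ1⟩ := exists_pow_lt_of_lt_one (show 0 < ε / 3 / (B * (1 + a)) by positivity)
    (by norm_num : (1 / 2 : ℝ) < 1)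
  obtain ⟨T7, hT7⟩ := eventually_atTop.1
    (Real.tendsto_log_atTop.eventually_ge_atTop ((J1 + 1) / η))
  refine ⟨max (max T5 T6) T7, le_max_of_le_left (le_max_of_le_left hT5), fun T hT => ?_⟩
  have g4 : T5 ≤ T := (le_max_left _ _).trans ((le_max_left _ _).trans hT)
  have g5 : T6 ≤ T := (le_max_right _ _).trans ((le_max_left _ _).trans hT)
  have g6 := hT7 T ((le_max_right _ _).trans hT)
  have hT10 : 10 ≤ T := hT5.trans g4
  have hX := XX_pos (show 1 < T by linarith)
  have hpi := Real.pi_pos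
  have hLT : 0 < Real.log T := Real.log_pos (by linarith)
  rw [div_le_iff₀ hη] at g6
  set h := 2 * Real.pi * a / Real.log T with hhd
  have hlow := dy_low (fun A C => Pc (Zf riemannZeta A C) h) T (Jn T) (by linarith) (by
    intro C hC hCT
    exact Pc_super le_rfl hC (by linarith) h)
  have hb0 := Pc_nonneg (Zf riemannZeta 0 (T / 2 ^ Jn T)) h
  set y := (1 - η) * a with hy
  have hy0 : 0 ≤ y := mul_nonneg (by linarith) ha
  have hya : y ≤ a := by rw [hy]; nlinarith
  -- the truncated function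
  set F : ℝ → ℝ := fun V => if Real.log V ≥ (1 - η) * Real.log T then cb V y else 0 with hF
  have hblock : XX T * ∑ j ∈ Finset.range (Jn T), nb (Vj T j) / XX T * F (Vj T j) ≤
      ∑ j ∈ Finset.range (Jn T), Pc (Zf riemannZeta (Vj T j) (2 * Vj T j)) h := by
    rw [Finset.mul_sum]
    refine Finset.sum_le_sum fun j hj => ?_
    have hj' := Finset.mem_range.1 hj
    have hVj := hV T g5 j hj'
    have hV10 : 10 ≤ Vj T j := hT1.trans hVj
    have hLV : 0 < Real.log (Vj T j) := Real.log_pos (by linarith)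
    have hPn := Pc_nonneg (Zf riemannZeta (Vj T j) (2 * Vj T j)) h
    have e0 : XX T * (nb (Vj T j) / XX T * F (Vj T j)) = nb (Vj T j) * F (Vj T j) := by
      field_simp
    rw [e0]
    simp only [hF]
    split_ifs with hc
    · have h1 : 2 * Real.pi * y / Real.log (Vj T j) ≤ h := by
        rw [hhd, div_le_div_iff₀ hLV hLT, hy]
        have : (1 - η) * Real.log T * (2 * Real.pi * a) ≤
            Real.log (Vj T j) * (2 * Real.pi * a) := by gcongr
        nlinarith
      have h2 := Pc_mono (Zf riemannZeta (Vj T j) (2 * Vj T j)) h1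
      unfold cb
      rcases (nb_nonneg (Vj T j)).eq_or_lt with h0 | h0
      · rw [← h0]
        simpa using hPn
      · rw [mul_div_cancel₀ _ h0.ne']
        exact h2
    · simpa using hPn
  have hFb : ∀ j < Jn T, |F (Vj T j)| ≤ B * (1 + a) := by
    intro j hj
    have hVj := hV T g5 j hj
    simp only [hF]
    split_ifs with hc
    · rw [abs_of_nonneg (cb_nonneg (nb_nonneg _) _)]
      refine ((hbd (Vj T j) hVj).1 y hy0).trans ?_
      gcongr
    · rw [abs_zero]
      exact hBa.le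
  have havg := hav T g4 F (B * (1 + a)) hFb
  have e1 : ε / 3 / (B * (1 + a)) * (B * (1 + a)) = ε / 3 := by field_simp
  rw [e1] at havg
  have havg2 := (abs_le.1 havg).1
  -- the tail
  have htail : ct T y ≤ avg F T + ε / 3 := by
    unfold ct avg
    have hsplit : ∀ j ∈ Finset.range (Jn T), (1 / 2 : ℝ) ^ (j + 1) * cb (Vj T j) y ≤
        (1 / 2) ^ (j + 1) * F (Vj T j) +
          (if J1 ≤ j then (1 / 2) ^ (j + 1) * (B * (1 + a)) else 0) := by
      intro j hj
      have hj' := Finset.mem_range.1 hj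
      have hVj := hV T g5 j hj'
      have hV10 : 10 ≤ Vj T j := hT1.trans hVj
      by_cases hJ : J1 ≤ j
      · rw [if_pos hJ]
        have h1 : cb (Vj T j) y ≤ B * (1 + a) := by
          refine ((hbd (Vj T j) hVj).1 y hy0).trans ?_
          gcongr
        have h2 : 0 ≤ F (Vj T j) := by
          simp only [hF]
          split_ifs
          · exact cb_nonneg (nb_nonneg _) _
          · exact le_rfl
        have h3 : (1 / 2 : ℝ) ^ (j + 1) * cb (Vj T j) y ≤ (1 / 2) ^ (j + 1) * (B * (1 + a)) := by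
          gcongr
        have h4 : 0 ≤ (1 / 2 : ℝ) ^ (j + 1) * F (Vj T j) := by positivity
        linarith
      · rw [if_neg hJ, add_zero]
        push Not at hJ
        have hlogV : Real.log (Vj T j) = Real.log T - (j + 1) * Real.log 2 := by
          unfold Vj
          rw [Real.log_div (by linarith) (by positivity), Real.log_pow]
          push_cast
          ring
        have hlog2 : Real.log 2 ≤ 1 := by
          have := Real.log_two_lt_d9
          linarith
        have hjJ : (j : ℝ) + 1 ≤ J1 := by exact_mod_cast hJ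
        have hcond : Real.log (Vj T j) ≥ (1 - η) * Real.log T := by
          rw [hlogV]
          have : ((j : ℝ) + 1) * Real.log 2 ≤ J1 * 1 := by gcongr
          linarith
        simp only [hF]
        rw [if_pos hcond]
    refine (Finset.sum_le_sum hsplit).trans ?_
    rw [Finset.sum_add_distrib]
    have h5 : ∑ j ∈ Finset.range (Jn T),
        (if J1 ≤ j then (1 / 2 : ℝ) ^ (j + 1) * (B * (1 + a)) else 0) ≤ ε / 3 := by
      rw [← Finset.sum_filter, ← Finset.sum_mul]
      have h6 : ∑ j ∈ (Finset.range (Jn T)).filter (fun j => J1 ≤ j), (1 / 2 : ℝ) ^ (j + 1) ≤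
          (1 / 2) ^ J1 := by
        rcases le_total (Jn T) J1 with h | h
        · rw [Finset.filter_false_of_mem]
          · simp
          · intro j hj
            have := Finset.mem_range.1 hj
            omega
        · have e : (Finset.range (Jn T)).filter (fun j => J1 ≤ j) = Finset.Ico J1 (Jn T) := by
            ext j
            simp [and_comm]
          rw [e, Finset.sum_Ico_eq_sub _ h, wt_sum, wt_sum]
          have := half_pow_le (Jn T)
          linarith [this.1]
      calc _ ≤ (1 / 2 : ℝ) ^ J1 * (B * (1 + a)) := by gcongr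
        _ ≤ ε / 3 / (B * (1 + a)) * (B * (1 + a)) := by gcongr
        _ = ε / 3 := e1
    linarith
  unfold CF
  rw [le_div_iff₀ hX]
  set S := ∑ j ∈ Finset.range (Jn T), nb (Vj T j) / XX T * F (Vj T j)
  have h6 : XX T * (avg F T - ε / 3) ≤ XX T * S := by
    apply mul_le_mul_of_nonneg_left _ hX.le
    linarith
  nlinarith

/-- comparison for additive quantities -/
theorem add_cmp (Φ : Finset ℂ → ℝ) (F : ℝ → ℝ) (B T1 : ℝ) (hB : 0 < B)
    (hsplit : ∀ C : ℝ, 0 ≤ C → Φ (Zf riemannZeta 0 (2 * C)) =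
      Φ (Zf riemannZeta 0 C) + Φ (Zf riemannZeta C (2 * C)))
    (hF : ∀ V : ℝ, T1 ≤ V → Φ (Zf riemannZeta V (2 * V)) = nb V * F V ∧ |F V| ≤ B)
    (hbase : ∀ ε : ℝ, 0 < ε → ∃ T0 : ℝ, 10 ≤ T0 ∧ ∀ T : ℝ, T0 ≤ T →
      |Φ (Zf riemannZeta 0 (T / 2 ^ Jn T))| ≤ ε * XX T) {ε : ℝ} (hε : 0 < ε) :
    ∃ T0 : ℝ, 10 ≤ T0 ∧ ∀ T : ℝ, T0 ≤ T →
      |Φ (Zf riemannZeta 0 T) / XX T - avg F T| ≤ ε := by
  obtain ⟨T3, hT3, hb⟩ := hbase (ε / 2) (by positivity)
  obtain ⟨T5, hT5, hav⟩ := nb_avg (ε / 2 / B) (by positivity)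
  obtain ⟨T6, hT6, hV⟩ := Vj_large T1
  obtain ⟨T7, hT7, hbs⟩ := base_small 1 one_pos
  refine ⟨max (max T3 T5) (max T6 T7), le_max_of_le_left (le_max_of_le_left hT3),
    fun T hT => ?_⟩
  have g1 : T3 ≤ T := (le_max_left _ _).trans ((le_max_left _ _).trans hT)
  have g2 : T5 ≤ T := (le_max_right _ _).trans ((le_max_left _ _).trans hT)
  have g3 : T6 ≤ T := (le_max_left _ _).trans ((le_max_right _ _).trans hT)
  have g4 : T7 ≤ T := (le_max_right _ _).trans ((le_max_right _ _).trans hT)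
  have hT10 : 10 ≤ T := hT3.trans g1
  have hX := XX_pos (show 1 < T by linarith)
  have hup := dy_up (fun A C => Φ (Zf riemannZeta A C)) 0 T (Jn T) (hbs T g4).1 (by
    intro C hC _
    simp only [hsplit C (by linarith), add_zero, le_refl])
  have hlow := dy_low (fun A C => Φ (Zf riemannZeta A C)) T (Jn T) (by linarith) (by
    intro C hC _
    simp only [hsplit C hC, le_refl])
  simp only [add_zero] at hup hlow
  have heq : ∑ j ∈ Finset.range (Jn T), Φ (Zf riemannZeta (Vj T j) (2 * Vj T j)) =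
      XX T * ∑ j ∈ Finset.range (Jn T), nb (Vj T j) / XX T * F (Vj T j) := by
    rw [Finset.mul_sum]
    refine Finset.sum_congr rfl fun j hj => ?_
    rw [(hF (Vj T j) (hV T g3 j (Finset.mem_range.1 hj))).1]
    field_simp
  have havg := hav T g2 F B fun j hj => (hF (Vj T j) (hV T g3 j hj)).2
  have e1 : ε / 2 / B * B = ε / 2 := by field_simp
  rw [e1] at havg
  have hb1 := hb T g1
  rw [heq] at hup hlow
  have h1 := abs_le.1 havg
  have h2 := abs_le.1 hb1
  set S := ∑ j ∈ Finset.range (Jn T), nb (Vj T j) / XX T * F (Vj T j)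
  have e2 : Φ (Zf riemannZeta 0 T) = Φ (Zf riemannZeta 0 (T / 2 ^ Jn T)) + XX T * S :=
    le_antisymm hup hlow
  have e3 : Φ (Zf riemannZeta 0 T) / XX T - avg F T =
      Φ (Zf riemannZeta 0 (T / 2 ^ Jn T)) / XX T + (S - avg F T) := by
    rw [e2]
    field_simp
    ring
  rw [e3]
  have h3 : |Φ (Zf riemannZeta 0 (T / 2 ^ Jn T)) / XX T| ≤ ε / 2 := by
    rw [abs_div, abs_of_pos hX, div_le_iff₀ hX]
    exact hb1
  calc _ ≤ |Φ (Zf riemannZeta 0 (T / 2 ^ Jn T)) / XX T| + |S - avg F T| := abs_add_le _ _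
    _ ≤ ε / 2 + ε / 2 := add_le_add h3 havg
    _ = ε := by ring

theorem bad_cmp {ε : ℝ} (hε : 0 < ε) : ∃ T0 : ℝ, 10 ≤ T0 ∧ ∀ T : ℝ, T0 ≤ T →
    |Nbad (Zf riemannZeta 0 T) / XX T - vt T| ≤ ε := by
  obtain ⟨T1, hT1, h1⟩ := mb_ge
  refine add_cmp Nbad vb 1 T1 one_pos (fun C hC => Nbad_split le_rfl hC (by linarith)) ?_ ?_ hε
  · intro V hV
    obtain ⟨-, -, -, -, h5⟩ := h1 V hV
    constructor
    · unfold vb
      field_simp
    · unfold vb
      rw [abs_of_nonneg (div_nonneg (Nbad_nonneg _) h5.le), div_le_one h5]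
      refine (Nbad_le_ms _).trans ?_
      rw [ms_eq (by linarith)]
      exact le_rfl
  · intro ε hε
    obtain ⟨T0, hT0, h⟩ := base_small ε hε
    refine ⟨T0, hT0, fun T hT => ?_⟩
    rw [abs_of_nonneg (Nbad_nonneg _)]
    exact (Nbad_le_ms _).trans (h T hT).2.2

theorem m_cmp {ε : ℝ} (hε : 0 < ε) : ∃ T0 : ℝ, 10 ≤ T0 ∧ ∀ T : ℝ, T0 ≤ T →
    |Pe (Zf riemannZeta 0 T) / XX T - mt T| ≤ ε := by
  obtain ⟨T1, hT1, h1⟩ := mb_ge
  obtain ⟨B, T2, hB, hT2, hbd⟩ := cb_mb_bd
  refine add_cmp Pe mb B (max T1 T2) hB (fun C hC => Pe_split le_rfl hC (by linarith)) ?_ ?_ hε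
  · intro V hV
    obtain ⟨-, -, -, -, h5⟩ := h1 V ((le_max_left _ _).trans hV)
    constructor
    · unfold mb
      field_simp
    · rw [abs_of_nonneg (by unfold mb; exact div_nonneg (Pe_nonneg _) h5.le)]
      exact (hbd V ((le_max_right _ _).trans hV)).2
  · intro ε hε
    obtain ⟨T0, hT0, h⟩ := base_small ε hε
    refine ⟨T0, hT0, fun T hT => ?_⟩
    rw [abs_of_nonneg (Pe_nonneg _)]
    exact (Pe_le_sq _).trans (h T hT).2.1

end Pool.Agent.N804
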