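import Pool.Agent.N804.Agg

set_option autoImplicit false

/-! # Montgomery's theorem for the averaged counting functions -/

namespace Pool.Agent.N804

open Filter Topology Set MeasureTheory
open H370 (Zf mult mem_Zf good_zeta zset NN NN_eq)

/-- averaged proportion of zeros off the line -/
noncomputable def et (T : ℝ) : ℝ := avg eb T

lemma cb_int {w r : ℝ → ℝ} {δ : ℝ} (H : Test w r δ) {T : ℝ} (hT : 1 < T) :
    IntegrableOn (fun x => w x * cb T x) (Ioi 0) := by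
  have hpI := (pair_int H (Real.log_pos hT) (Zf riemannZeta T (2 * T))).1
  have := hpI.div_const (nb T)
  refine this.congr (ae_of_all _ fun x => ?_)
  simp only [cb]
  ring

lemma w_int {w r : ℝ → ℝ} {δ : ℝ} (H : Test w r δ) : IntegrableOn w (Ioi 0) := by
  have i0 := H.int 0 le_rfl
  simpa using i0

lemma wP_int {w r : ℝ → ℝ} {δ : ℝ} (H : Test w r δ) :
    IntegrableOn (fun x => w x * PP x) (Ioi 0) := by
  have i1 := H.inta 1 le_rfl
  simp only [pow_one] at i1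
  refine Integrable.mono' i1 ((H.cont.mul PP_cont).aestronglyMeasurable) ?_
  refine (ae_restrict_iff' measurableSet_Ioi).2 (ae_of_all _ fun x hx => ?_)
  have hx0 : 0 ≤ x := le_of_lt hx
  rw [Real.norm_eq_abs, abs_mul, abs_of_nonneg (PP_nonneg hx0), mul_comm]
  exact mul_le_mul_of_nonneg_right (PP_le hx0) (abs_nonneg _)

lemma ct_props : ∃ B T0 : ℝ, 0 < B ∧ 10 ≤ T0 ∧ ∀ T : ℝ, T0 ≤ T →
    Monotone (ct T) ∧ (∀ x, 0 ≤ x → 0 ≤ ct T x ∧ ct T x ≤ B * (1 + x)) ∧ 0 ≤ mt T ∧ mt T ≤ B ∧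
    0 ≤ et T ∧ et T ≤ vt T ∧ vt T ≤ B ∧ 1 - (1 / 2) ^ Jn T + vt T ≤ mt T ∧ et T ≤ 1 := by
  obtain ⟨B, T1, hB, hT1, hbd⟩ := cb_mb_bd
  obtain ⟨T2, hT2, hge⟩ := mb_ge
  obtain ⟨T3, hT3, hV⟩ := Vj_large (max T1 T2)
  refine ⟨B, max 10 T3, hB, le_max_left _ _, fun T hT => ?_⟩
  have g1 : T3 ≤ T := (le_max_right _ _).trans hT
  have h1 : ∀ j < Jn T, T1 ≤ Vj T j ∧ T2 ≤ Vj T j := fun j hj =>
    ⟨(le_max_left _ _).trans (hV T g1 j hj), (le_max_right _ _).trans (hV T g1 j hj)⟩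
  have h10 : ∀ j < Jn T, 10 ≤ Vj T j := fun j hj => hT1.trans (h1 j hj).1
  have hmt : 1 - (1 / 2) ^ Jn T + vt T ≤ mt T := by
    have h2 : avg (fun V => 1 + vb V) T ≤ avg mb T := avg_le fun j hj =>
      (hge _ (h1 j hj).2).1
    rw [avg_add, avg_const, mul_one] at h2
    exact h2
  have h0et : 0 ≤ et T := by
    have h2 : avg (fun _ => (0 : ℝ)) T ≤ avg eb T := avg_le fun j hj =>
      (hge _ (h1 j hj).2).2.1
    rwa [avg_const, mul_zero] at h2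
  have hev : et T ≤ vt T := avg_le fun j hj => (hge _ (h1 j hj).2).2.2.1
  have he1 : et T ≤ 1 := avg_le_const zero_le_one fun j hj => (hge _ (h1 j hj).2).2.2.2.1
  have hmB : mt T ≤ B := avg_le_const hB.le fun j hj => (hbd _ (h1 j hj).1).2
  refine ⟨?_, ?_, ?_, hmB, h0et, hev, ?_, hmt, he1⟩
  · intro x y hxy
    exact avg_le fun j hj => cb_mono (by linarith [h10 j hj]) hxy
  · intro x hx
    constructor
    · have h2 : avg (fun _ => (0 : ℝ)) T ≤ avg (fun V => cb V x) T := avg_le fun j hj =>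
        cb_nonneg (nb_nonneg _) x
      rwa [avg_const, mul_zero] at h2
    · exact avg_le_const (by positivity) fun j hj => (hbd _ (h1 j hj).1).1 x hx
  · have := half_pow_le (Jn T)
    linarith
  · have := half_pow_le (Jn T)
    linarith

lemma ct_int {w r : ℝ → ℝ} {δ : ℝ} (H : Test w r δ) : ∃ T0 : ℝ, ∀ T : ℝ, T0 ≤ T →
    IntegrableOn (fun x => w x * ct T x) (Ioi 0) ∧
    ∫ x in Ioi (0 : ℝ), w x * ct T x = avg (fun V => ∫ x in Ioi (0 : ℝ), w x * cb V x) T := by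
  obtain ⟨T3, hT3, hV⟩ := Vj_large 10
  refine ⟨T3, fun T hT => ?_⟩
  have e : ∀ x, w x * ct T x = ∑ j ∈ Finset.range (Jn T),
      (1 / 2) ^ (j + 1) * (w x * cb (Vj T j) x) := by
    intro x
    unfold ct avg
    rw [Finset.mul_sum]
    exact Finset.sum_congr rfl fun j _ => by ring
  have hi : ∀ j ∈ Finset.range (Jn T), IntegrableOn
      (fun x => (1 / 2 : ℝ) ^ (j + 1) * (w x * cb (Vj T j) x)) (Ioi 0) := fun j hj =>
    (cb_int H (by linarith [hV T hT j (Finset.mem_range.1 hj)])).const_mul _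
  simp_rw [e]
  refine ⟨integrable_finsetSum _ hi, ?_⟩
  rw [integral_finsetSum _ hi]
  unfold avg
  exact Finset.sum_congr rfl fun j _ => by rw [integral_const_mul]

/-- the averaged identity -/
theorem agg {κ0 : ℝ} (h0 : 0 < κ0) (h1 : κ0 < 2 / 3) : ∃ C θ : ℝ, 0 < C ∧ 0 < θ ∧
    ∀ δ : ℝ, 0 < δ → δ ≤ κ0 → ∀ w r : ℝ → ℝ, Test w r δ → ∀ R : ℝ, (∀ α, |r α| ≤ R) →
    ∀ ε : ℝ, 0 < ε → ∃ T0 : ℝ, ∀ T : ℝ, T0 ≤ T →
      |∫ x in Ioi (0 : ℝ), w x * (ct T x - PP x + (mt T - 1) / 2)| ≤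
        C * R * δ ^ 3 * avg (fun V => (eb V) ^ θ) T + ε := by
  obtain ⟨C, θ, hC, hθ, h⟩ := block h0 h1
  refine ⟨C, θ, hC, hθ, fun δ hδ hδκ w r H R hR ε hε => ?_⟩
  obtain ⟨T1, hT1, hb⟩ := h δ hδ hδκ w r H R hR (ε / 2) (by positivity)
  obtain ⟨T2, hV2⟩ := ct_int H
  obtain ⟨T3, hT3, hV⟩ := Vj_large T1
  set Cw : ℝ := ∫ x in Ioi (0 : ℝ), w x * (PP x + 1 / 2) with hCw
  have iw := w_int H
  have iwP := wP_int H
  obtain ⟨T4, hT4⟩ := half_small (show 0 < ε / 2 / (|Cw| + 1) by positivity)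
  refine ⟨max (max T2 T3) T4, fun T hT => ?_⟩
  have g1 : T2 ≤ T := (le_max_left _ _).trans ((le_max_left _ _).trans hT)
  have g2 : T3 ≤ T := (le_max_right _ _).trans ((le_max_left _ _).trans hT)
  have g3 := hT4 T ((le_max_right _ _).trans hT)
  obtain ⟨ict, ect⟩ := hV2 T g1
  have hterm : ∀ j < Jn T, |∫ x in Ioi (0 : ℝ), w x * (cb (Vj T j) x - PP x +
      (mb (Vj T j) - 1) / 2)| ≤ C * R * δ ^ 3 * (eb (Vj T j)) ^ θ + ε / 2 := fun j hj =>
    hb _ (hV T g2 j hj)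
  have hblk : ∀ j < Jn T, ∫ x in Ioi (0 : ℝ), w x * (cb (Vj T j) x - PP x +
      (mb (Vj T j) - 1) / 2) = (∫ x in Ioi (0 : ℝ), w x * cb (Vj T j) x) -
        (∫ x in Ioi (0 : ℝ), w x * PP x) + (mb (Vj T j) - 1) / 2 * ∫ x in Ioi (0 : ℝ), w x := by
    intro j hj
    have hcI := cb_int H (T := Vj T j) (by linarith [hV T g2 j hj])
    have i2 : IntegrableOn (fun x => w x * cb (Vj T j) x - w x * PP x) (Ioi 0) := hcI.sub iwP
    rw [← integral_const_mul, ← integral_sub hcI iwP, ← integral_add i2 (iw.const_mul _)]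
    congr 1
    funext x
    ring
  have havg : |avg (fun V => ∫ x in Ioi (0 : ℝ), w x * (cb V x - PP x + (mb V - 1) / 2)) T| ≤
      C * R * δ ^ 3 * avg (fun V => (eb V) ^ θ) T + ε / 2 := by
    refine (avg_abs _ T).trans ?_
    refine (avg_le (G := fun V => C * R * δ ^ 3 * (eb V) ^ θ + ε / 2) hterm).trans ?_
    rw [avg_add, avg_mul, avg_const]
    have := half_pow_le (Jn T)
    nlinarith
  have e1 : avg (fun V => ∫ x in Ioi (0 : ℝ), w x * (cb V x - PP x + (mb V - 1) / 2)) T =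
      (∫ x in Ioi (0 : ℝ), w x * ct T x) -
        (1 - (1 / 2) ^ Jn T) * (∫ x in Ioi (0 : ℝ), w x * PP x) +
        (mt T - (1 - (1 / 2) ^ Jn T)) / 2 * ∫ x in Ioi (0 : ℝ), w x := by
    have e2 : avg (fun V => ∫ x in Ioi (0 : ℝ), w x * (cb V x - PP x + (mb V - 1) / 2)) T =
        avg (fun V => ((∫ x in Ioi (0 : ℝ), w x * cb V x) -
        (∫ x in Ioi (0 : ℝ), w x * PP x)) + (mb V - 1) / 2 * ∫ x in Ioi (0 : ℝ), w x) T := by
      unfold avg
      refine Finset.sum_congr rfl fun j hj => ?_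
      have e := hblk j (Finset.mem_range.1 hj)
      exact congrArg (fun z => (1 / 2 : ℝ) ^ (j + 1) * z) e
    rw [e2, avg_add, avg_sub, avg_const, ← ect]
    have e3 : avg (fun V => (mb V - 1) / 2 * ∫ x in Ioi (0 : ℝ), w x) T =
        (mt T - (1 - (1 / 2) ^ Jn T)) / 2 * ∫ x in Ioi (0 : ℝ), w x := by
      have : (fun V => (mb V - 1) / 2 * ∫ x in Ioi (0 : ℝ), w x) =
          fun V => ((∫ x in Ioi (0 : ℝ), w x) / 2) * (mb V - 1) := by
        funext V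
        ring
      rw [this, avg_mul, avg_sub, avg_const]
      unfold mt
      ring
    rw [e3]
  have e4 : ∫ x in Ioi (0 : ℝ), w x * (ct T x - PP x + (mt T - 1) / 2) =
      (∫ x in Ioi (0 : ℝ), w x * ct T x) - (∫ x in Ioi (0 : ℝ), w x * PP x) +
        (mt T - 1) / 2 * ∫ x in Ioi (0 : ℝ), w x := by
    have i2 : IntegrableOn (fun x => w x * ct T x - w x * PP x) (Ioi 0) := ict.sub iwP
    rw [← integral_const_mul, ← integral_sub ict iwP, ← integral_add i2 (iw.const_mul _)]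
    congr 1
    funext x
    ring
  have e5 : Cw = (∫ x in Ioi (0 : ℝ), w x * PP x) + (1 / 2) * ∫ x in Ioi (0 : ℝ), w x := by
    rw [hCw, ← integral_const_mul, ← integral_add iwP (iw.const_mul _)]
    congr 1
    funext x
    ring
  rw [e4]
  rw [e1] at havg
  set X := ∫ x in Ioi (0 : ℝ), w x * ct T x
  set Y := ∫ x in Ioi (0 : ℝ), w x * PP x
  set W := ∫ x in Ioi (0 : ℝ), w x
  have e6 : X - Y + (mt T - 1) / 2 * W = (X - (1 - (1 / 2) ^ Jn T) * Y +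
      (mt T - (1 - (1 / 2) ^ Jn T)) / 2 * W) - (1 / 2) ^ Jn T * Cw := by
    rw [e5]
    ring
  rw [e6]
  refine (abs_sub _ _).trans ?_
  have h5 : |(1 / 2 : ℝ) ^ Jn T * Cw| ≤ ε / 2 := by
    rw [abs_mul, abs_of_nonneg (half_pow_le _).1]
    calc (1 / 2 : ℝ) ^ Jn T * |Cw| ≤ ε / 2 / (|Cw| + 1) * |Cw| := by gcongr
      _ ≤ ε / 2 / (|Cw| + 1) * (|Cw| + 1) := by gcongr; linarith
      _ = ε / 2 := by field_simp
  linarith

/-- bound independent of the zeros off the line -/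
theorem agg1 : ∃ C : ℝ, 0 < C ∧
    ∀ δ : ℝ, 0 < δ → δ ≤ 1 / 2 → ∀ w r : ℝ → ℝ, Test w r δ → ∀ R : ℝ, (∀ α, |r α| ≤ R) →
    ∀ ε : ℝ, 0 < ε → ∃ T0 : ℝ, ∀ T : ℝ, T0 ≤ T →
      |∫ x in Ioi (0 : ℝ), w x * (ct T x - PP x + (mt T - 1) / 2)| ≤ C * R * δ ^ 3 + ε := by
  obtain ⟨C, θ, hC, hθ, h⟩ := agg (κ0 := 1 / 2) (by norm_num) (by norm_num)
  obtain ⟨T2, hT2, hge⟩ := mb_ge
  obtain ⟨T3, hT3, hV⟩ := Vj_large T2
  refine ⟨C, hC, fun δ hδ hδκ w r H R hR ε hε => ?_⟩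
  obtain ⟨T0, hT0⟩ := h δ hδ hδκ w r H R hR ε hε
  refine ⟨max T0 T3, fun T hT => ?_⟩
  have hR0 : 0 ≤ R := (abs_nonneg _).trans (hR 0)
  refine (hT0 T ((le_max_left _ _).trans hT)).trans ?_
  have h1 : avg (fun V => (eb V) ^ θ) T ≤ 1 := avg_le_const zero_le_one fun j hj => by
    obtain ⟨-, h2, -, h3, -⟩ := hge _ (hV T ((le_max_right _ _).trans hT) j hj)
    exact Real.rpow_le_one h2 h3 hθ.le
  have h2 : C * R * δ ^ 3 * avg (fun V => (eb V) ^ θ) T ≤ C * R * δ ^ 3 * 1 := by gcongr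
  linarith

/-- bound in terms of the zeros off the line -/
theorem agg2 {δ : ℝ} (hδ : 0 < δ) (hδκ : δ < 2 / 3) {w r : ℝ → ℝ} (H : Test w r δ) {ε : ℝ}
    (hε : 0 < ε) : ∃ K T0 : ℝ, 0 ≤ K ∧ ∀ T : ℝ, T0 ≤ T →
      |∫ x in Ioi (0 : ℝ), w x * (ct T x - PP x + (mt T - 1) / 2)| ≤ K * et T + ε := by
  obtain ⟨C, θ, hC, hθ, h⟩ := agg (κ0 := δ) hδ hδκ
  obtain ⟨R, hR⟩ := H.bdd
  have hR0 : 0 ≤ R := (abs_nonneg _).trans (hR 0)
  obtain ⟨T0, hT0⟩ := h δ hδ le_rfl w r H R hR (ε / 2) (by positivity)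
  obtain ⟨T2, hT2, hge⟩ := mb_ge
  obtain ⟨T3, hT3, hV⟩ := Vj_large T2
  set A : ℝ := C * R * δ ^ 3 with hA
  have hA0 : 0 ≤ A := by positivity
  obtain ⟨K, hK, hsp⟩ := rpow_split hθ (show 0 < ε / 2 / (A + 1) by positivity)
  refine ⟨A * K, max T0 T3, by positivity, fun T hT => ?_⟩
  refine (hT0 T ((le_max_left _ _).trans hT)).trans ?_
  have h1 : avg (fun V => (eb V) ^ θ) T ≤ ε / 2 / (A + 1) + K * et T := by
    have h2 : avg (fun V => (eb V) ^ θ) T ≤ avg (fun V => ε / 2 / (A + 1) + K * eb V) T :=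
      avg_le fun j hj => by
        obtain ⟨-, h2, -, h3, -⟩ := hge _ (hV T ((le_max_right _ _).trans hT) j hj)
        exact hsp _ h2 h3
    rw [avg_add, avg_const, avg_mul] at h2
    have h3 := half_pow_le (Jn T)
    have h4 : 0 < ε / 2 / (A + 1) := by positivity
    have h5 : (1 - (1 / 2) ^ Jn T) * (ε / 2 / (A + 1)) ≤ 1 * (ε / 2 / (A + 1)) := by
      gcongr
      linarith [h3.1]
    unfold et
    linarith
  have h2 : A * avg (fun V => (eb V) ^ θ) T ≤ A * (ε / 2 / (A + 1) + K * et T) := by gcongr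
  have h3 : A * (ε / 2 / (A + 1)) ≤ ε / 2 := by
    calc A * (ε / 2 / (A + 1)) ≤ (A + 1) * (ε / 2 / (A + 1)) := by gcongr; linarith
      _ = ε / 2 := by field_simp
  nlinarith

end Pool.Agent.N804
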