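import Pool.Agent.N804.LimEnd

set_option autoImplicit false

/-! # Functions orthogonal to the discrepancy with all modulations up to some frequency -/

namespace Pool.Agent.N804

open Filter Topology Set MeasureTheory

/-- rapidly decreasing functions orthogonal to `G`, together with their modulations -/
structure Ann (G : ℝ → ℝ) (β : ℝ) (u : ℝ → ℝ) : Prop where
  cont : Continuous u
  dec : ∀ n : ℕ, ∃ A : ℝ, ∀ x, 0 ≤ x → x ^ n * |u x| ≤ A
  ann : ∀ ξ : ℝ, |ξ| ≤ β → ∫ x in Ioi (0 : ℝ), u x * Real.cos (2 * Real.pi * ξ * x) * G x = 0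

/-- a function of exponential type `π / ℓ` -/
noncomputable def EX (k : ℝ → ℝ) (ℓ x : ℝ) : ℝ :=
  ∫ ξ in (-1 / 2 : ℝ)..(1 / 2), k ξ * Real.cos (2 * Real.pi * ξ * (x / ℓ))

lemma EX_cont {k : ℝ → ℝ} (hk : Continuous k) (ℓ : ℝ) : Continuous (EX k ℓ) := by
  unfold EX
  refine intervalIntegral.continuous_parametric_intervalIntegral_of_continuous' ?_ _ _
  fun_prop

lemma EX_bd {k : ℝ → ℝ} (hk : Continuous k) (ℓ : ℝ) : ∃ A : ℝ, ∀ x, |EX k ℓ x| ≤ A := by
  obtain ⟨A, hA⟩ := (isCompact_Icc (a := (-1 / 2 : ℝ)) (b := 1 / 2)).exists_bound_of_continuousOn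
    hk.continuousOn
  refine ⟨A, fun x => ?_⟩
  have h := intervalIntegral.norm_integral_le_of_norm_le_const (a := (-1 / 2 : ℝ)) (b := 1 / 2)
    (f := fun ξ => k ξ * Real.cos (2 * Real.pi * ξ * (x / ℓ))) (C := A) ?_
  · rw [Real.norm_eq_abs] at h
    refine h.trans (le_of_eq ?_)
    rw [show (1 / 2 - -1 / 2 : ℝ) = 1 by norm_num, abs_one, mul_one]
  · intro ξ hξ
    rw [uIoc_of_le (by norm_num)] at hξ
    rw [norm_mul, Real.norm_eq_abs, Real.norm_eq_abs]
    have h1 := hA ξ ⟨hξ.1.le, hξ.2⟩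
    rw [Real.norm_eq_abs] at h1
    have h2 := Real.abs_cos_le_one (2 * Real.pi * ξ * (x / ℓ))
    calc |k ξ| * |Real.cos (2 * Real.pi * ξ * (x / ℓ))| ≤ |k ξ| * 1 :=
          mul_le_mul_of_nonneg_left h2 (abs_nonneg _)
      _ ≤ A := by rw [mul_one]; exact h1

/-- integrability against functions of linear growth -/
lemma lin_int {G u : ℝ → ℝ} (hG : Measurable G) {B : ℝ} (hB : ∀ x, 0 ≤ x → |G x| ≤ B * (1 + x))
    (hu : Continuous u) (hd : ∀ n : ℕ, ∃ A : ℝ, ∀ x, 0 ≤ x → x ^ n * |u x| ≤ A) :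
    IntegrableOn (fun x => u x * G x) (Ioi 0) := by
  have hda : ∀ n : ℕ, ∃ A : ℝ, ∀ x, 0 ≤ x → x ^ n * |(fun x => |u x|) x| ≤ A := by
    intro n
    obtain ⟨A, hA⟩ := hd n
    exact ⟨A, fun x hx => by simp only [abs_abs]; exact hA x hx⟩
  have i1 := dec_int hu.abs hda 1 le_rfl
  have i0 := dec_int hu.abs hda 0 le_rfl
  simp only [pow_one] at i1
  simp only [pow_zero, one_mul] at i0
  refine Integrable.mono' ((i0.const_mul B).add (i1.const_mul B)) ?_ ?_
  · exact (hu.measurable.mul hG).aestronglyMeasurable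
  · refine (ae_restrict_iff' measurableSet_Ioi).2 (ae_of_all _ fun x hx => ?_)
    have hx0 : 0 ≤ x := le_of_lt hx
    rw [Real.norm_eq_abs, abs_mul, Pi.add_apply]
    have h1 := hB x hx0
    have h2 := abs_nonneg (u x)
    calc |u x| * |G x| ≤ |u x| * (B * (1 + x)) := by gcongr
      _ = _ := by ring

theorem Ann.mul {G u k : ℝ → ℝ} {β ℓ B : ℝ} (H : Ann G β u) (hG : Measurable G)
    (hB : ∀ x, 0 ≤ x → |G x| ≤ B * (1 + x)) (hk : Continuous k) (hℓ : 0 < ℓ) :
    Ann G (β - 1 / (2 * ℓ)) (fun x => u x * EX k ℓ x) := by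
  obtain ⟨A, hA⟩ := EX_bd hk ℓ
  have hA0 : 0 ≤ A := (abs_nonneg _).trans (hA 0)
  refine ⟨H.cont.mul (EX_cont hk ℓ), fun n => ?_, fun η hη => ?_⟩
  · obtain ⟨A1, hA1⟩ := H.dec n
    refine ⟨A1 * A, fun x hx => ?_⟩
    rw [abs_mul, ← mul_assoc]
    exact mul_le_mul (hA1 x hx) (hA x) (abs_nonneg _)
      (le_trans (by positivity) (hA1 x hx))
  · -- Fubini
    have hH := lin_int hG hB H.cont H.dec
    set f : ℝ → ℝ → ℝ := fun x ξ => (u x * G x) *
      (Real.cos (2 * Real.pi * η * x) * (k ξ * Real.cos (2 * Real.pi * ξ * (x / ℓ)))) with hf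
    have e1 : ∀ x : ℝ, u x * EX k ℓ x * Real.cos (2 * Real.pi * η * x) * G x =
        ∫ ξ in Ioc (-1 / 2 : ℝ) (1 / 2), f x ξ := by
      intro x
      unfold EX
      rw [intervalIntegral.integral_of_le (by norm_num)]
      simp only [hf]
      rw [integral_const_mul, integral_const_mul]
      ring
    simp_rw [e1]
    obtain ⟨Ak, hAk⟩ := (isCompact_Icc (a := (-1 / 2 : ℝ)) (b := 1 / 2)).exists_bound_of_continuousOn
      hk.continuousOn
    have hAk0 : 0 ≤ Ak := (norm_nonneg _).trans (hAk 0 ⟨by norm_num, by norm_num⟩)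
    have hint : Integrable (Function.uncurry f)
        ((volume.restrict (Ioi 0)).prod (volume.restrict (Ioc (-1 / 2 : ℝ) (1 / 2)))) := by
      have h1 : Integrable (fun p : ℝ × ℝ => (u p.1 * G p.1) * (fun _ : ℝ => (1 : ℝ)) p.2)
          ((volume.restrict (Ioi 0)).prod (volume.restrict (Ioc (-1 / 2 : ℝ) (1 / 2)))) :=
        Integrable.mul_prod hH (integrable_const 1)
      refine Integrable.mono' (h1.norm.const_mul Ak) ?_ ?_
      · have hu := H.cont.measurable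
        have hkm := hk.measurable
        refine Measurable.aestronglyMeasurable ?_
        simp only [hf]
        unfold Function.uncurry
        fun_prop
      · have hae : ∀ᵐ p ∂((volume.restrict (Ioi (0 : ℝ))).prod
            (volume.restrict (Ioc (-1 / 2 : ℝ) (1 / 2)))), p.2 ∈ Ioc (-1 / 2 : ℝ) (1 / 2) := by
          have h2 := Measure.quasiMeasurePreserving_snd (μ := volume.restrict (Ioi (0 : ℝ)))
            (ν := volume.restrict (Ioc (-1 / 2 : ℝ) (1 / 2)))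
          exact h2.ae (ae_restrict_mem measurableSet_Ioc)
        filter_upwards [hae] with p hp
        simp only [hf, Function.uncurry, mul_one]
        rw [norm_mul, mul_comm Ak]
        refine mul_le_mul_of_nonneg_left ?_ (norm_nonneg _)
        rw [norm_mul, norm_mul]
        have h3 := hAk p.2 ⟨hp.1.le, hp.2⟩
        have h4 : ‖Real.cos (2 * Real.pi * η * p.1)‖ ≤ 1 := Real.abs_cos_le_one _
        have h5 : ‖Real.cos (2 * Real.pi * p.2 * (p.1 / ℓ))‖ ≤ 1 := Real.abs_cos_le_one _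
        calc ‖Real.cos (2 * Real.pi * η * p.1)‖ *
            (‖k p.2‖ * ‖Real.cos (2 * Real.pi * p.2 * (p.1 / ℓ))‖) ≤ 1 * (Ak * 1) := by gcongr
          _ = Ak := by ring
    rw [integral_integral_swap hint]
    refine integral_eq_zero_of_ae ?_
    filter_upwards [ae_restrict_mem measurableSet_Ioc] with ξ hξ
    simp only [hf, Pi.zero_apply]
    have hz : ∀ ζ : ℝ, |ζ| ≤ β →
        IntegrableOn (fun x => u x * Real.cos (2 * Real.pi * ζ * x) * G x) (Ioi 0) ∧
        ∫ x in Ioi (0 : ℝ), u x * Real.cos (2 * Real.pi * ζ * x) * G x = 0 := by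
      intro ζ hζ
      refine ⟨?_, H.ann ζ hζ⟩
      refine lin_int hG hB (H.cont.mul (by fun_prop)) fun n => ?_
      obtain ⟨A1, hA1⟩ := H.dec n
      refine ⟨A1, fun x hx => le_trans ?_ (hA1 x hx)⟩
      rw [abs_mul]
      have h4 := Real.abs_cos_le_one (2 * Real.pi * ζ * x)
      have h5 := abs_nonneg (u x)
      have h6 := pow_nonneg hx n
      have : |u x| * |Real.cos (2 * Real.pi * ζ * x)| ≤ |u x| * 1 := by gcongr
      rw [mul_one] at this
      gcongr
    have hξ2 : |ξ / ℓ| ≤ 1 / (2 * ℓ) := by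
      rw [abs_div, abs_of_pos hℓ, div_le_div_iff₀ hℓ (by positivity)]
      have : |ξ| ≤ 1 / 2 := abs_le.2 ⟨by linarith [hξ.1], hξ.2⟩
      nlinarith
    obtain ⟨i1, z1⟩ := hz (ξ / ℓ + η) (by
      refine (abs_add_le _ _).trans ?_
      linarith)
    obtain ⟨i2, z2⟩ := hz (ξ / ℓ - η) (by
      refine (abs_sub _ _).trans ?_
      linarith)
    have e2 : ∀ x : ℝ, u x * G x * (Real.cos (2 * Real.pi * η * x) *
        (k ξ * Real.cos (2 * Real.pi * ξ * (x / ℓ)))) =
        k ξ / 2 * (u x * Real.cos (2 * Real.pi * (ξ / ℓ + η) * x) * G x +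
          u x * Real.cos (2 * Real.pi * (ξ / ℓ - η) * x) * G x) := by
      intro x
      have s1 : Real.cos (2 * Real.pi * (ξ / ℓ + η) * x) =
          Real.cos (2 * Real.pi * ξ * (x / ℓ)) * Real.cos (2 * Real.pi * η * x) -
          Real.sin (2 * Real.pi * ξ * (x / ℓ)) * Real.sin (2 * Real.pi * η * x) := by
        rw [← Real.cos_add]
        congr 1
        ring
      have s2 : Real.cos (2 * Real.pi * (ξ / ℓ - η) * x) =
          Real.cos (2 * Real.pi * ξ * (x / ℓ)) * Real.cos (2 * Real.pi * η * x) +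
          Real.sin (2 * Real.pi * ξ * (x / ℓ)) * Real.sin (2 * Real.pi * η * x) := by
        rw [← Real.cos_sub]
        congr 1
        ring
      rw [s1, s2]
      ring
    simp_rw [e2]
    rw [integral_const_mul, integral_add i1 i2, z1, z2, add_zero, mul_zero]

/-- the product of several factors -/
theorem Ann.prod {G u : ℝ → ℝ} {β ℓ B : ℝ} (H : Ann G β u) (hG : Measurable G)
    (hB : ∀ x, 0 ≤ x → |G x| ≤ B * (1 + x)) (hℓ : 0 < ℓ) {k : ℕ → ℝ → ℝ}
    (hk : ∀ i, Continuous (k i)) (m : ℕ) :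
    Ann G (β - m / (2 * ℓ)) (fun x => u x * ∏ i ∈ Finset.range m, EX (k i) ℓ x) := by
  induction m with
  | zero => simpa using H
  | succ m ih =>
    have h := ih.mul hG hB (hk m) hℓ
    have e : β - ((m + 1 : ℕ) : ℝ) / (2 * ℓ) = β - m / (2 * ℓ) - 1 / (2 * ℓ) := by
      push_cast
      ring
    rw [e]
    simp_rw [Finset.prod_range_succ, ← mul_assoc]
    exact h

/-- the discrepancy of a limit object -/
lemma Gd_meas {Φ : ℝ → ℝ} {μ ν e : ℝ} (H : LO Φ μ ν e) : Measurable (Gd Φ μ) := by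
  have h1 := H.mono.measurable
  have h3 := PP_cont.measurable
  exact (h1.sub h3).add_const _

lemma Gd_bd {Φ : ℝ → ℝ} {μ ν e : ℝ} (H : LO Φ μ ν e) :
    ∃ B : ℝ, 0 < B ∧ ∀ x, 0 ≤ x → |Gd Φ μ x| ≤ B * (1 + x) := by
  obtain ⟨B, hB, hbd⟩ := H.bd
  refine ⟨B + 1 + |μ - 1|, by positivity, fun x hx => ?_⟩
  obtain ⟨c1, c2⟩ := hbd x hx
  have c3 := PP_nonneg hx
  have c4 := PP_le hx
  have c5 := neg_abs_le (μ - 1)
  have c6 := le_abs_self (μ - 1)
  have c7 := abs_nonneg (μ - 1)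
  unfold Gd
  rw [abs_le]
  constructor <;> nlinarith [mul_nonneg c7 hx]

/-- the basic weights -/
theorem Gd_ann {Φ : ℝ → ℝ} {μ ν e : ℝ} (H : LO Φ μ ν e) (he : e = 0) {κ β : ℝ} (hκ : 0 < κ)
    (hβ : κ + β < 2 / 3) (n : ℕ) :
    Ann (Gd Φ μ) β (fun x => x ^ (2 * n + 1) * gw κ hκ x) := by
  refine ⟨?_, fun m => ?_, fun ξ hξ => ?_⟩
  · have := gw_cont hκ
    fun_prop
  · obtain ⟨A, hA⟩ := gw_dec hκ (m + (2 * n + 1))
    refine ⟨A, fun x hx => le_trans (le_of_eq ?_) (hA x hx)⟩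
    rw [abs_of_nonneg (mul_nonneg (pow_nonneg hx _) (gw_nonneg hκ x)), pow_add]
    ring
  · obtain ⟨r, W⟩ := testc hκ n ξ
    exact H.id2 he (κ + |ξ|) (by positivity) (by linarith) _ r W

end Pool.Agent.N804
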