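import Mathlib

set_option autoImplicit false

/-! # Averages over dyadic blocks -/

namespace Pool.Agent.N804

open Filter Topology Set

/-- number of blocks -/
noncomputable def Jn (T : ℝ) : ℕ := ⌊Real.logb 2 T * (2 / 3)⌋₊

/-- start of the `j`-th block -/
noncomputable def Vj (T : ℝ) (j : ℕ) : ℝ := T / 2 ^ (j + 1)

/-- average over the blocks -/
noncomputable def avg (F : ℝ → ℝ) (T : ℝ) : ℝ :=
  ∑ j ∈ Finset.range (Jn T), (1 / 2) ^ (j + 1) * F (Vj T j)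

lemma Jn_pow {T : ℝ} (hT : 1 ≤ T) : (2 : ℝ) ^ Jn T ≤ T ^ (2 / 3 : ℝ) ∧
    T ^ (2 / 3 : ℝ) < 2 ^ (Jn T + 1) := by
  have hT0 : 0 < T := by linarith
  have hlog : 0 ≤ Real.logb 2 T * (2 / 3) :=
    mul_nonneg (Real.logb_nonneg (by norm_num) hT) (by norm_num)
  have e : (2 : ℝ) ^ (Real.logb 2 T * (2 / 3)) = T ^ (2 / 3 : ℝ) := by
    rw [Real.rpow_mul (by norm_num), Real.rpow_logb (by norm_num) (by norm_num) hT0]
  rw [← e]
  constructor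
  · rw [← Real.rpow_natCast]
    exact Real.rpow_le_rpow_of_exponent_le (by norm_num) (Nat.floor_le hlog)
  · rw [← Real.rpow_natCast]
    refine Real.rpow_lt_rpow_of_exponent_lt (by norm_num) ?_
    push_cast
    exact Nat.lt_floor_add_one _

lemma base_ge {T : ℝ} (hT : 1 ≤ T) : T ^ (1 / 3 : ℝ) ≤ T / 2 ^ Jn T ∧
    T / 2 ^ Jn T ≤ 2 * T ^ (1 / 3 : ℝ) := by
  obtain ⟨h1, h2⟩ := Jn_pow hT
  have hT0 : 0 < T := by linarith
  have e : T ^ (1 / 3 : ℝ) * T ^ (2 / 3 : ℝ) = T := by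
    rw [← Real.rpow_add hT0]
    norm_num
  have h3 : 0 < T ^ (1 / 3 : ℝ) := Real.rpow_pos_of_pos hT0 _
  constructor
  · rw [le_div_iff₀ (by positivity)]
    calc T ^ (1 / 3 : ℝ) * 2 ^ Jn T ≤ T ^ (1 / 3 : ℝ) * T ^ (2 / 3 : ℝ) := by gcongr
      _ = T := e
  · rw [div_le_iff₀ (by positivity)]
    calc T = T ^ (1 / 3 : ℝ) * T ^ (2 / 3 : ℝ) := e.symm
      _ ≤ T ^ (1 / 3 : ℝ) * 2 ^ (Jn T + 1) := by gcongr
      _ = _ := by rw [pow_succ]; ring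

lemma Vj_ge {T : ℝ} (hT : 1 ≤ T) {j : ℕ} (hj : j < Jn T) : T ^ (1 / 3 : ℝ) ≤ Vj T j := by
  refine (base_ge hT).1.trans ?_
  unfold Vj
  have : (2 : ℝ) ^ (j + 1) ≤ 2 ^ Jn T := pow_le_pow_right₀ (by norm_num) hj
  gcongr

lemma Vj_large (T1 : ℝ) : ∃ T0 : ℝ, 1 ≤ T0 ∧ ∀ T : ℝ, T0 ≤ T → ∀ j < Jn T, T1 ≤ Vj T j := by
  have h : Tendsto (fun T : ℝ => T ^ (1 / 3 : ℝ)) atTop atTop :=
    tendsto_rpow_atTop (by norm_num)
  obtain ⟨T0, hT0⟩ := eventually_atTop.1 (h.eventually_ge_atTop T1)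
  refine ⟨max 1 T0, le_max_left _ _, fun T hT j hj => ?_⟩
  exact (hT0 T ((le_max_right _ _).trans hT)).trans (Vj_ge ((le_max_left _ _).trans hT) hj)

lemma Jn_tendsto : Tendsto Jn atTop atTop := by
  have h : Tendsto (fun T : ℝ => Real.logb 2 T * (2 / 3)) atTop atTop :=
    (Real.tendsto_logb_atTop (by norm_num)).atTop_mul_const (by norm_num)
  exact tendsto_nat_floor_atTop.comp h

lemma Jn_large (n : ℕ) : ∃ T0 : ℝ, ∀ T : ℝ, T0 ≤ T → n ≤ Jn T := by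
  obtain ⟨T0, hT0⟩ := eventually_atTop.1 (Jn_tendsto.eventually_ge_atTop n)
  exact ⟨T0, hT0⟩

lemma wt_sum (n : ℕ) : ∑ j ∈ Finset.range n, (1 / 2 : ℝ) ^ (j + 1) = 1 - (1 / 2) ^ n := by
  induction n with
  | zero => simp
  | succ n ih =>
    rw [Finset.sum_range_succ, ih]
    ring

lemma wt_sum2 (n : ℕ) : ∑ j ∈ Finset.range n, (1 / 2 : ℝ) ^ (j + 1) * (j + 1) ≤ 2 := by
  have h : ∑ j ∈ Finset.range n, (1 / 2 : ℝ) ^ (j + 1) * (j + 1) = 2 - (n + 2) * (1 / 2) ^ n := by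
    induction n with
    | zero => simp
    | succ n ih =>
      rw [Finset.sum_range_succ, ih]
      push_cast
      ring
  rw [h]
  have : 0 ≤ ((n : ℝ) + 2) * (1 / 2) ^ n := by positivity
  linarith

lemma avg_const (c T : ℝ) : avg (fun _ => c) T = (1 - (1 / 2) ^ Jn T) * c := by
  unfold avg
  rw [← Finset.sum_mul, wt_sum]

lemma avg_add (F G : ℝ → ℝ) (T : ℝ) : avg (fun V => F V + G V) T = avg F T + avg G T := by
  unfold avg
  rw [← Finset.sum_add_distrib]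
  exact Finset.sum_congr rfl fun j _ => by ring

lemma avg_mul (c : ℝ) (F : ℝ → ℝ) (T : ℝ) : avg (fun V => c * F V) T = c * avg F T := by
  unfold avg
  rw [Finset.mul_sum]
  exact Finset.sum_congr rfl fun j _ => by ring

lemma avg_sub (F G : ℝ → ℝ) (T : ℝ) : avg (fun V => F V - G V) T = avg F T - avg G T := by
  unfold avg
  rw [← Finset.sum_sub_distrib]
  exact Finset.sum_congr rfl fun j _ => by ring

lemma avg_le {F G : ℝ → ℝ} {T : ℝ} (h : ∀ j < Jn T, F (Vj T j) ≤ G (Vj T j)) :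
    avg F T ≤ avg G T := by
  unfold avg
  exact Finset.sum_le_sum fun j hj =>
    mul_le_mul_of_nonneg_left (h j (Finset.mem_range.1 hj)) (by positivity)

lemma avg_abs (F : ℝ → ℝ) (T : ℝ) : |avg F T| ≤ avg (fun V => |F V|) T := by
  unfold avg
  refine (Finset.abs_sum_le_sum_abs _ _).trans (Finset.sum_le_sum fun j _ => ?_)
  rw [abs_mul, abs_of_nonneg (by positivity : (0 : ℝ) ≤ (1 / 2) ^ (j + 1))]

lemma half_pow_le (n : ℕ) : (0 : ℝ) ≤ (1 / 2) ^ n ∧ (1 / 2 : ℝ) ^ n ≤ 1 :=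
  ⟨by positivity, pow_le_one₀ (by norm_num) (by norm_num)⟩

lemma avg_le_const {F : ℝ → ℝ} {T c : ℝ} (hc : 0 ≤ c) (h : ∀ j < Jn T, F (Vj T j) ≤ c) :
    avg F T ≤ c := by
  refine (avg_le (G := fun _ => c) h).trans ?_
  rw [avg_const]
  have := half_pow_le (Jn T)
  nlinarith

lemma half_small {ε : ℝ} (hε : 0 < ε) : ∃ T0 : ℝ, ∀ T : ℝ, T0 ≤ T → (1 / 2 : ℝ) ^ Jn T ≤ ε := by
  obtain ⟨n, hn⟩ := exists_pow_lt_of_lt_one hε (by norm_num : (1 / 2 : ℝ) < 1)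
  obtain ⟨T0, hT0⟩ := Jn_large n
  refine ⟨T0, fun T hT => le_trans ?_ hn.le⟩
  exact pow_le_pow_of_le_one (by norm_num) (by norm_num) (hT0 T hT)

lemma rpow_split {θ : ℝ} (hθ : 0 < θ) {ρ : ℝ} (hρ : 0 < ρ) : ∃ K : ℝ, 0 ≤ K ∧
    ∀ e : ℝ, 0 ≤ e → e ≤ 1 → e ^ θ ≤ ρ + K * e := by
  refine ⟨(ρ ^ (1 / θ))⁻¹, by positivity, fun e he he1 => ?_⟩
  have hr : 0 < ρ ^ (1 / θ) := Real.rpow_pos_of_pos hρ _
  rcases le_total e (ρ ^ (1 / θ)) with h | h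
  · have h1 : e ^ θ ≤ (ρ ^ (1 / θ)) ^ θ := Real.rpow_le_rpow he h hθ.le
    rw [← Real.rpow_mul hρ.le, one_div_mul_cancel hθ.ne', Real.rpow_one] at h1
    have : 0 ≤ (ρ ^ (1 / θ))⁻¹ * e := by positivity
    linarith
  · have h1 : e ^ θ ≤ 1 := Real.rpow_le_one he he1 hθ.le
    have h2 : 1 ≤ (ρ ^ (1 / θ))⁻¹ * e := by
      rw [inv_mul_eq_div, one_le_div₀ hr]
      exact h
    linarith

end Pool.Agent.N804
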