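import Pool.Agent.N804.MeanT

set_option autoImplicit false

/-! # Averages of the discrepancy and simple critical zeros -/

namespace Pool.Agent.N804

open Filter Topology Set MeasureTheory
open H370 (Zf mult)

lemma MF_of_BF {l : Filter ℝ} (hl : l ≤ atTop) (h : Tendsto BF l (𝓝 0)) :
    Tendsto MF l (𝓝 1) := by
  have hv := vt_of_BF' hl h
  obtain ⟨B1, T1, hB1, hT1, hp⟩ := ct_props
  have hJ : Tendsto (fun T => (1 / 2 : ℝ) ^ Jn T) atTop (𝓝 0) :=
    (tendsto_pow_atTop_nhds_zero_of_lt_one (by norm_num) (by norm_num)).comp Jn_tendsto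
  have hm : Tendsto mt l (𝓝 1) := by
    rw [Metric.tendsto_nhds]
    intro ε hε
    obtain ⟨K, T2, hK, hT2⟩ := mt_le (show 0 < ε / 3 by positivity)
    have h1 : Tendsto (fun T => K * vt T) l (𝓝 0) := by
      have := hv.const_mul K
      rwa [mul_zero] at this
    filter_upwards [hl (eventually_ge_atTop (max T1 T2)),
      h1.eventually (gt_mem_nhds (show 0 < ε / 3 by positivity)),
      hl (hJ.eventually (gt_mem_nhds (show 0 < ε / 3 by positivity))),
      hv.eventually (lt_mem_nhds (show -(ε / 3) < 0 by linarith))] with T g1 g2 g3 g4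
    have a1 := hT2 T ((le_max_right _ _).trans g1)
    obtain ⟨-, -, -, -, -, -, -, a2, -⟩ := hp T ((le_max_left _ _).trans g1)
    rw [Real.dist_eq, abs_lt]
    constructor <;> linarith
  have h2 := (mf_lim.mono_left hl).add hm
  rw [zero_add] at h2
  exact h2.congr fun T => by ring

lemma MF_ge {ε : ℝ} (hε : 0 < ε) : ∀ᶠ T in atTop, 1 - ε ≤ MF T - vt T := by
  obtain ⟨B1, T1, hB1, hT1, hp⟩ := ct_props
  have hJ : Tendsto (fun T => (1 / 2 : ℝ) ^ Jn T) atTop (𝓝 0) :=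
    (tendsto_pow_atTop_nhds_zero_of_lt_one (by norm_num) (by norm_num)).comp Jn_tendsto
  filter_upwards [eventually_ge_atTop T1,
    hJ.eventually (gt_mem_nhds (show 0 < ε / 3 by positivity)),
    mf_lim.eventually (lt_mem_nhds (show -(ε / 3) < 0 by linarith))] with T g1 g2 g3
  obtain ⟨-, -, -, -, -, -, -, a2, -⟩ := hp T g1
  linarith

lemma vt_nonneg : ∀ᶠ T in atTop, 0 ≤ vt T := by
  obtain ⟨B1, T1, hB1, hT1, hp⟩ := ct_props
  filter_upwards [eventually_ge_atTop T1] with T g1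
  obtain ⟨-, -, -, -, a1, a2, -, -, -⟩ := hp T g1
  linarith

lemma BF_of_MF {l : Filter ℝ} (hl : l ≤ atTop) (h : Tendsto MF l (𝓝 1)) :
    Tendsto BF l (𝓝 0) := by
  refine BF_of_vt' hl ?_
  rw [Metric.tendsto_nhds]
  intro ε hε
  filter_upwards [h.eventually (gt_mem_nhds (show 1 < 1 + ε / 3 by linarith)),
    hl (MF_ge (show 0 < ε / 3 by positivity)), hl vt_nonneg] with T g1 g2 g3
  rw [Real.dist_eq, sub_zero, abs_of_nonneg g3]
  linarith

/-- averages of the discrepancy -/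
theorem avg_tfae {l : Filter ℝ} (hl : l ≤ atTop) : List.TFAE [
    Tendsto BF l (𝓝 0),
    Tendsto MF l (𝓝 1),
    ∀ ε : ℝ, 0 < ε → ∀ A₀ : ℝ, ∃ A : ℝ, A₀ ≤ A ∧ 0 < A ∧
      ∀ᶠ T in l, -(ε * A) ≤ ∫ x in (0 : ℝ)..A, (CF T x - PP x),
    ∃ K : ℝ, ∀ a : ℝ, 0 < a → ∀ᶠ T in l, |∫ x in (0 : ℝ)..a, (CF T x - PP x)| ≤ K] := by
  obtain ⟨K, hK, hmean⟩ := mean_T
  tfae_have 1 → 2 := MF_of_BF hl
  tfae_have 2 → 1 := BF_of_MF hl
  tfae_have 2 → 4 := by
    intro h
    refine ⟨K + 1, fun a ha => ?_⟩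
    have h1 : Tendsto (fun T => (MF T - 1) * a / 2) l (𝓝 0) := by
      have := ((h.sub_const 1).mul_const a).div_const 2
      simpa using this
    filter_upwards [hl (hmean a ha), h1.eventually (gt_mem_nhds one_pos),
      h1.eventually (lt_mem_nhds (show (-1 : ℝ) < 0 by norm_num))] with T g1 g2 g3
    have g4 := abs_le.1 g1
    rw [abs_le]
    constructor <;> linarith [g4.1, g4.2]
  tfae_have 4 → 3 := by
    rintro ⟨K', h⟩ ε hε A₀
    refine ⟨max A₀ (|K'| / ε + 1), le_max_left _ _,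
      lt_of_lt_of_le (by positivity) (le_max_right _ _), ?_⟩
    set A := max A₀ (|K'| / ε + 1) with hA
    have hA1 : |K'| / ε + 1 ≤ A := le_max_right _ _
    have hA0 : 0 < A := lt_of_lt_of_le (by positivity) hA1
    filter_upwards [h A hA0] with T g1
    have g2 := (abs_le.1 g1).1
    have g3 : |K'| ≤ ε * A := by
      calc |K'| = ε * (|K'| / ε) := by field_simp
        _ ≤ ε * A := by
          gcongr
          linarith
    have := le_abs_self K'
    linarith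
  tfae_have 3 → 2 := by
    intro h
    rw [Metric.tendsto_nhds]
    intro ε hε
    obtain ⟨A, hA, hA0, hT⟩ := h (ε / 8) (by positivity) (16 * K / ε)
    filter_upwards [hT, hl (hmean A hA0), hl (MF_ge (show 0 < ε / 2 by positivity)),
      hl vt_nonneg] with T g1 g2 g3 g4
    have g5 := (abs_le.1 g2).2
    have g6 : 16 * K ≤ ε * A := by
      rw [div_le_iff₀ hε] at hA
      linarith
    have g7 : (MF T - 1) * A ≤ (ε / 2) * A := by
      nlinarith
    have g8 := le_of_mul_le_mul_right g7 hA0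
    rw [Real.dist_eq, abs_lt]
    constructor <;> linarith
  tfae_finish

/-- the count with no restriction on the second ordinate, for all distances up to `a` -/
theorem nstar_eq' (a : ℝ) : ∃ T0 : ℝ, 10 ≤ T0 ∧ ∀ T : ℝ, T0 ≤ T → ∀ x : ℝ, x ≤ a →
    ((∑ᶠ p ∈ {p : ℂ × ℂ | p.1 ∈ ZZ ∧ p.2 ∈ ZZ ∧ 0 < p.1.im ∧ p.1.im ≤ T ∧
      0 < p.1.im - p.2.im ∧ p.1.im - p.2.im ≤ 2 * Real.pi * x / Real.log T},
      analyticOrderNatAt riemannZeta p.1 * analyticOrderNatAt riemannZeta p.2 : ℕ) : ℝ) =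
    CF T x * XX T := by
  classical
  obtain ⟨h0, hh0, hlow⟩ := low_zero
  obtain ⟨T3, hT3⟩ := eventually_atTop.1
    (Real.tendsto_log_atTop.eventually_ge_atTop (2 * Real.pi * a / h0))
  refine ⟨max 10 T3, le_max_left _ _, fun T hT x hxa => ?_⟩
  have hT10 : 10 ≤ T := (le_max_left _ _).trans hT
  have hL : 0 < Real.log T := Real.log_pos (by linarith)
  have hpi := Real.pi_pos
  have hX := XX_pos (show 1 < T by linarith)
  have hh : 2 * Real.pi * x / Real.log T ≤ h0 := by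
    have := hT3 T ((le_max_right _ _).trans hT)
    rw [div_le_iff₀ hh0] at this
    rw [div_le_iff₀ hL]
    have h2 : 2 * Real.pi * x ≤ 2 * Real.pi * a := by gcongr
    linarith
  set h := 2 * Real.pi * x / Real.log T with hhd
  set S := Zf riemannZeta 0 T with hS
  have hset : {p : ℂ × ℂ | p.1 ∈ ZZ ∧ p.2 ∈ ZZ ∧ 0 < p.1.im ∧ p.1.im ≤ T ∧
      0 < p.1.im - p.2.im ∧ p.1.im - p.2.im ≤ h} =
      ↑((S ×ˢ S).filter (fun p : ℂ × ℂ => 0 < p.1.im - p.2.im ∧ p.1.im - p.2.im ≤ h)) := by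
    ext p
    simp only [Set.mem_ofPred_eq, Finset.coe_filter, Finset.mem_product]
    rw [hS, mem_ZT, mem_ZT]
    constructor
    · rintro ⟨a1, a2, a3, a4, a5, a6⟩
      refine ⟨⟨⟨a1, a3, a4⟩, a2, ?_, by linarith⟩, a5, a6⟩
      have := hlow p.1 a1 a3
      linarith
    · rintro ⟨⟨⟨a1, a3, a4⟩, a2, -, -⟩, a5, a6⟩
      exact ⟨a1, a2, a3, a4, a5, a6⟩
  rw [hset, finsum_mem_coe_finset, Finset.sum_filter, Finset.sum_product]
  unfold CF
  rw [div_mul_cancel₀ _ hX.ne']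
  unfold Pc
  push_cast
  refine Finset.sum_congr rfl fun s _ => Finset.sum_congr rfl fun s' _ => ?_
  split_ifs <;> simp [mult]

/-- the number of pairs with equal ordinates -/
theorem pe_eq (T : ℝ) :
    ((∑ᶠ p ∈ {p : ℂ × ℂ | p.1 ∈ ZZ ∧ p.2 ∈ ZZ ∧ 0 < p.1.im ∧ p.1.im ≤ T ∧ p.1.im = p.2.im},
      analyticOrderNatAt riemannZeta p.1 * analyticOrderNatAt riemannZeta p.2 : ℕ) : ℝ) =
    Pe (Zf riemannZeta 0 T) := by
  classical
  set S := Zf riemannZeta 0 T with hS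
  have hset : {p : ℂ × ℂ | p.1 ∈ ZZ ∧ p.2 ∈ ZZ ∧ 0 < p.1.im ∧ p.1.im ≤ T ∧ p.1.im = p.2.im} =
      ↑((S ×ˢ S).filter (fun p : ℂ × ℂ => p.1.im = p.2.im)) := by
    ext p
    simp only [Set.mem_ofPred_eq, Finset.coe_filter, Finset.mem_product]
    rw [hS, mem_ZT, mem_ZT]
    constructor
    · rintro ⟨a1, a2, a3, a4, a5⟩
      exact ⟨⟨⟨a1, a3, a4⟩, a2, by rw [← a5]; exact a3, by rw [← a5]; exact a4⟩, a5⟩
    · rintro ⟨⟨⟨a1, a3, a4⟩, a2, -, -⟩, a5⟩
      exact ⟨a1, a2, a3, a4, a5⟩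
  rw [hset, finsum_mem_coe_finset, Finset.sum_filter, Finset.sum_product]
  unfold Pe
  push_cast
  refine Finset.sum_congr rfl fun s _ => Finset.sum_congr rfl fun s' _ => ?_
  split_ifs <;> simp [mult]

end Pool.Agent.N804
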