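import Pool.Agent.N804.Block
import Pool.Agent.Y750.OM.Cells
import Pool.Agent.Y750.OM.Cnt

set_option autoImplicit false

/-! # Bounds for the counting functions of a block -/

namespace Pool.Agent.N804

open Filter Topology Set MeasureTheory
open H370 (Zf mult mem_Zf good_zeta zset NN NN_eq)
open Pool.Agent.Y750.OM (NO NO_nonneg cell_moment cntmom)

lemma nb_asymp : ∃ C T0 : ℝ, 0 < C ∧ 10 ≤ T0 ∧ ∀ T : ℝ, T0 ≤ T →
    |nb T - T * Real.log T / (2 * Real.pi)| ≤ C * T := by
  obtain ⟨C, T0, hC, hT0, h⟩ := H370.nn_asymp good_zeta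
  exact ⟨C, T0, hC, hT0, fun T hT => h T hT T (2 * T) le_rfl (by linarith) (by linarith) le_rfl⟩

lemma nb_lower : ∃ T0 : ℝ, 10 ≤ T0 ∧ ∀ T : ℝ, T0 ≤ T →
    T * Real.log T ≤ 4 * Real.pi * nb T ∧ nb T ≤ T * Real.log T := by
  obtain ⟨C, T0, hC, hT0, h⟩ := nb_asymp
  have hpi := Real.pi_gt_three
  refine ⟨max T0 (Real.exp (4 * Real.pi * C)), le_max_of_le_left hT0, fun T hT => ?_⟩
  have hT0' : T0 ≤ T := (le_max_left _ _).trans hT
  have hT10 : 10 ≤ T := hT0.trans hT0'
  have hTp : 0 < T := by linarith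
  have hL : 4 * Real.pi * C ≤ Real.log T := by
    rw [Real.le_log_iff_exp_le hTp]
    exact (le_max_right _ _).trans hT
  have h1 := abs_le.1 (h T hT0')
  have h2 : C * T ≤ T * Real.log T / (4 * Real.pi) := by
    rw [le_div_iff₀ (by positivity)]
    calc C * T * (4 * Real.pi) = T * (4 * Real.pi * C) := by ring
      _ ≤ _ := by gcongr
  have hTL : 0 ≤ T * Real.log T := mul_nonneg hTp.le (Real.log_nonneg (by linarith))
  have e : T * Real.log T / (2 * Real.pi) = 2 * (T * Real.log T / (4 * Real.pi)) := by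
    field_simp
    ring
  constructor
  · have h3 : T * Real.log T / (4 * Real.pi) ≤ nb T := by linarith [h1.1]
    rw [div_le_iff₀ (by positivity)] at h3
    linarith
  · have h4 : T * Real.log T / (4 * Real.pi) ≤ T * Real.log T / 12 := by
      gcongr
      linarith
    linarith [h1.2]

/-- the number of pairs at distance `≤ 2πx / log T`, equal ordinates included -/
lemma cb_mb_bd : ∃ B T0 : ℝ, 0 < B ∧ 10 ≤ T0 ∧ ∀ T : ℝ, T0 ≤ T →
    (∀ x : ℝ, 0 ≤ x → cb T x ≤ B * (1 + x)) ∧ mb T ≤ B := by
  classical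
  obtain ⟨C, T1, hC, hT1, h⟩ := cntmom 2 (by norm_num)
  obtain ⟨T2, hT2, hnb⟩ := nb_lower
  have hpi := Real.pi_gt_three
  have hpi0 := Real.pi_pos
  set K : ℝ := 2 * (9 * Real.pi) ^ 1 * C with hK
  have hK0 : 0 < K := by positivity
  set B : ℝ := (1 + (2 * Real.pi) ^ 2) * K * (4 * Real.pi) with hB
  refine ⟨B, max T1 T2, by positivity, le_max_of_le_left hT1, fun T hT => ?_⟩
  have hT1' : T1 ≤ T := (le_max_left _ _).trans hT
  have hT10 : 10 ≤ T := hT1.trans hT1'
  have hL : 0 < Real.log T := Real.log_pos (by linarith)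
  obtain ⟨hn1, hn2⟩ := hnb T ((le_max_right _ _).trans hT)
  have hn0 : 0 < nb T := by
    have : 0 < T * Real.log T := by positivity
    by_contra hcon
    push Not at hcon
    nlinarith
  set S := Zf riemannZeta T (2 * T) with hS
  set m : ℂ → ℝ := fun s => (mult riemannZeta s : ℝ) with hm
  have hm0 : ∀ s, 0 ≤ m s := fun s => Nat.cast_nonneg _
  have key : ∀ δ : ℝ, 0 < δ → δ ≤ 1 →
      ∑ s ∈ S, m s * (δ * ∑ s' ∈ S, m s' * (1 / (1 + (δ * (Real.log T * (s.im - s'.im))) ^ 2))) ≤
      K * (T * Real.log T) := by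
    intro δ hδ hδ1
    have h1 := cell_moment 0 (Real.log T) δ hL hδ hδ1 S m hm0 (C * T) (by positivity) (h T hT1')
    simp only [zero_add, pow_one] at h1
    refine h1.trans (le_of_eq ?_)
    rw [hK]
    ring
  have hpair : ∀ δ : ℝ, 0 < δ → δ ≤ 1 → ∀ (Q : ℂ → ℂ → Prop) [∀ s s', Decidable (Q s s')],
      (∀ s s', Q s s' → |δ * (Real.log T * (s.im - s'.im))| ≤ 2 * Real.pi) →
      ∑ s ∈ S, ∑ s' ∈ S, (if Q s s' then m s * m s' else 0) ≤
        (1 + (2 * Real.pi) ^ 2) * (K * (T * Real.log T)) / δ := by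
    intro δ hδ hδ1 Q _ hQ
    rw [le_div_iff₀ hδ, ← div_le_iff₀' (by positivity)]
    have e1 : (∑ s ∈ S, ∑ s' ∈ S, (if Q s s' then m s * m s' else 0)) * δ /
        (1 + (2 * Real.pi) ^ 2) = ∑ s ∈ S, m s * (δ * ∑ s' ∈ S, m s' *
          (if Q s s' then (1 + (2 * Real.pi) ^ 2)⁻¹ else 0)) := by
      rw [Finset.sum_mul, Finset.sum_div]
      refine Finset.sum_congr rfl fun s _ => ?_
      rw [Finset.sum_mul, Finset.sum_div, Finset.mul_sum, Finset.mul_sum]
      refine Finset.sum_congr rfl fun s' _ => ?_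
      split_ifs
      · field_simp
      · simp
    rw [e1]
    refine (Finset.sum_le_sum fun s _ => ?_).trans (key δ hδ hδ1)
    · refine mul_le_mul_of_nonneg_left (mul_le_mul_of_nonneg_left
        (Finset.sum_le_sum fun s' _ => ?_) hδ.le) (hm0 s)
      refine mul_le_mul_of_nonneg_left ?_ (hm0 s')
      split_ifs with hq
      · rw [one_div]
        refine inv_anti₀ (by positivity) ?_
        have h2 := hQ s s' hq
        have h3 : (δ * (Real.log T * (s.im - s'.im))) ^ 2 ≤ (2 * Real.pi) ^ 2 := by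
          rw [← sq_abs]
          exact pow_le_pow_left₀ (abs_nonneg _) h2 2
        linarith
      · positivity
  have hfin : ∀ δ : ℝ, 0 < δ → ∀ P : ℝ,
      P ≤ (1 + (2 * Real.pi) ^ 2) * (K * (T * Real.log T)) / δ → P / nb T ≤ B * (1 / δ) := by
    intro δ hδ P hP
    rw [div_le_iff₀ hn0]
    refine hP.trans ?_
    rw [div_le_iff₀ hδ]
    have : B * (1 / δ) * nb T * δ = (1 + (2 * Real.pi) ^ 2) * (K * (4 * Real.pi * nb T)) := by
      rw [hB]
      field_simp
    rw [this]
    gcongr
  constructor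
  · intro x hx
    have h1 := hpair (1 / (1 + x)) (by positivity) (by rw [div_le_one (by positivity)]; linarith)
      (fun s s' => 0 < s.im - s'.im ∧ s.im - s'.im ≤ 2 * Real.pi * x / Real.log T) ?_
    · have h2 := hfin (1 / (1 + x)) (by positivity) _ h1
      rw [one_div_one_div] at h2
      unfold cb Pc
      exact h2
    · rintro s s' ⟨h3, h4⟩
      rw [le_div_iff₀ hL] at h4
      rw [abs_of_nonneg (by positivity)]
      rw [div_mul_eq_mul_div, div_le_iff₀ (by positivity)]
      nlinarith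
  · have h1 := hpair 1 one_pos le_rfl (fun s s' => s.im = s'.im) ?_
    · have h2 := hfin 1 one_pos _ h1
      rw [div_one, mul_one] at h2
      unfold mb Pe
      exact h2
    · intro s s' h3
      rw [h3]
      simp [hpi0.le]

/-- a zero is bad if it is off the line or multiple -/
def Bad (s : ℂ) : Prop := s.re ≠ 1 / 2 ∨ mult riemannZeta s ≠ 1

/-- number of bad zeros of a finite set -/
noncomputable def Nbad (S : Finset ℂ) : ℝ := by
  classical
  exact ∑ s ∈ S.filter Bad, (mult riemannZeta s : ℝ)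

lemma Nbad_nonneg (S : Finset ℂ) : 0 ≤ Nbad S := by
  classical
  exact Finset.sum_nonneg fun _ _ => Nat.cast_nonneg _

/-- the proportion of bad zeros -/
noncomputable def vb (T : ℝ) : ℝ := Nbad (Zf riemannZeta T (2 * T)) / nb T

lemma Pe_ge {A B : ℝ} (hA : 1 ≤ A) :
    (NN riemannZeta A B : ℝ) + Nbad (Zf riemannZeta A B) ≤ Pe (Zf riemannZeta A B) := by
  classical
  set S := Zf riemannZeta A B with hS
  have hmem : ∀ s ∈ S, s ∈ zset riemannZeta A B := fun s hs => (mem_Zf good_zeta hA).1 hs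
  have h1m : ∀ s ∈ S, 1 ≤ (mult riemannZeta s : ℝ) := by
    intro s hs
    have h := hmem s hs
    have := H370.Loc.mult_pos' good_zeta (s := s) (by linarith [h.2.2.1]) h.2.2.2.2
    exact_mod_cast this
  have e1 : (NN riemannZeta A B : ℝ) = ∑ s ∈ S, (mult riemannZeta s : ℝ) := by
    rw [NN_eq good_zeta hA]
    push_cast
    rfl
  have e2 : Nbad S = ∑ s ∈ S, if Bad s then (mult riemannZeta s : ℝ) else 0 := by
    unfold Nbad
    rw [Finset.sum_filter]
  rw [e1, e2, ← Finset.sum_add_distrib]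
  unfold Pe
  refine Finset.sum_le_sum fun s hs => ?_
  have hms := h1m s hs
  have hself : (mult riemannZeta s : ℝ) * (mult riemannZeta s : ℝ) ≤ ∑ s' ∈ S,
      if s.im = s'.im then (mult riemannZeta s : ℝ) * (mult riemannZeta s' : ℝ) else 0 := by
    have := Finset.single_le_sum (f := fun s' => if s.im = s'.im then
      (mult riemannZeta s : ℝ) * (mult riemannZeta s' : ℝ) else 0)
      (fun i _ => by split_ifs <;> positivity) hs
    simpa using this
  by_cases hb : Bad s
  · rw [if_pos hb]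
    by_cases hre : s.re = 1 / 2
    · have h2 : mult riemannZeta s ≠ 1 := hb.resolve_left (fun h => h hre)
      have h3 : 1 ≤ mult riemannZeta s := by exact_mod_cast hms
      have h4 : 2 ≤ mult riemannZeta s := by omega
      have h5 : (2 : ℝ) ≤ (mult riemannZeta s : ℝ) := by exact_mod_cast h4
      nlinarith
    · set s2 : ℂ := 1 - (starRingEnd ℂ) s with hs2
      obtain ⟨a1, a2, a3, a4, a5⟩ := hmem s hs
      have him : s2.im = s.im := by simp [hs2]
      have hre2 : s2.re = 1 - s.re := by simp [hs2]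
      have hord := good_zeta.symm s a1 a2 (by linarith)
      have hm2 : mult riemannZeta s2 = mult riemannZeta s := by
        unfold mult analyticOrderNatAt
        rw [hs2, hord]
      have hs2z : riemannZeta s2 = 0 := by
        by_contra hne
        have h6 : analyticOrderAt riemannZeta s2 = 0 :=
          analyticOrderAt_eq_zero.2 (Or.inr hne)
        have h7 : mult riemannZeta s2 = 0 := by
          unfold mult analyticOrderNatAt
          rw [h6]
          rfl
        rw [hm2] at h7
        rw [h7] at hms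
        norm_num at hms
      have hs2S : s2 ∈ S := (mem_Zf good_zeta hA).2
        ⟨by rw [hre2]; linarith, by rw [hre2]; linarith, by rw [him]; exact a3,
          by rw [him]; exact a4, hs2z⟩
      have hne : s ≠ s2 := by
        intro h
        have h8 : s.re = s2.re := by rw [← h]
        rw [hre2] at h8
        exact hre (by linarith)
      have hpair : (mult riemannZeta s : ℝ) * (mult riemannZeta s : ℝ) +
          (mult riemannZeta s : ℝ) * (mult riemannZeta s : ℝ) ≤ ∑ s' ∈ S,
          if s.im = s'.im then (mult riemannZeta s : ℝ) * (mult riemannZeta s' : ℝ) else 0 := by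
        have hsub : ({s, s2} : Finset ℂ) ⊆ S := by
          intro z hz
          rcases Finset.mem_insert.1 hz with h | h
          · rw [h]; exact hs
          · rw [Finset.mem_singleton.1 h]; exact hs2S
        have := Finset.sum_le_sum_of_subset_of_nonneg (f := fun s' => if s.im = s'.im then
          (mult riemannZeta s : ℝ) * (mult riemannZeta s' : ℝ) else 0) hsub
          (fun i _ _ => by split_ifs <;> positivity)
        rw [Finset.sum_pair hne] at this
        simpa [him, hm2] using this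
      nlinarith
  · rw [if_neg hb]
    nlinarith

lemma NO_le_bad (A B : ℝ) : NO A B ≤ Nbad (Zf riemannZeta A B) := by
  classical
  unfold NO Nbad
  refine Finset.sum_le_sum_of_subset_of_nonneg ?_ (fun _ _ _ => Nat.cast_nonneg _)
  intro s hs
  rw [Finset.mem_filter] at hs ⊢
  exact ⟨hs.1, Or.inl hs.2⟩

lemma mb_ge : ∃ T0 : ℝ, 10 ≤ T0 ∧ ∀ T : ℝ, T0 ≤ T → 1 + vb T ≤ mb T ∧ 0 ≤ eb T ∧ eb T ≤ vb T ∧
    eb T ≤ 1 ∧ 0 < nb T := by
  obtain ⟨T0, hT0, h⟩ := nb_large
  refine ⟨T0, hT0, fun T hT => ?_⟩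
  have h1 := h T hT
  have hn : 0 < nb T := by linarith
  have h2 := Pe_ge (A := T) (B := 2 * T) (by linarith)
  refine ⟨?_, div_nonneg (NO_nonneg _ _) hn.le, ?_, ?_, hn⟩
  · unfold vb mb
    rw [← div_self hn.ne', ← add_div]
    exact div_le_div_of_nonneg_right h2 hn.le
  · unfold eb vb
    exact div_le_div_of_nonneg_right (NO_le_bad _ _) hn.le
  · unfold eb
    rw [div_le_one hn]
    have hT1 : 1 ≤ T := by linarith
    unfold NO nb
    rw [NN_eq good_zeta hT1]
    push_cast
    exact Finset.sum_le_sum_of_subset_of_nonneg (Finset.filter_subset _ _)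
      (fun _ _ _ => Nat.cast_nonneg _)

end Pool.Agent.N804
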