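import Pool.Agent.N804.PP
import Pool.Agent.Y750.OM.Conv1

set_option autoImplicit false

/-! # Montgomery's theorem for a dyadic block, in terms of the counting function of the pairs -/

namespace Pool.Agent.N804

open Filter Topology Set MeasureTheory
open H370 (Zf mult mem_Zf good_zeta zset NN NN_eq)
open Pool.Agent.Y750.OM (NO PO rh bl bl_eq pair_ord main_eq lip_cont NO_nonneg rh_of_bl)

/-- pairs of zeros from `S` with difference of the ordinates in `(0, h]` -/
noncomputable def Pc (S : Finset ℂ) (h : ℝ) : ℝ := by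
  classical
  exact ∑ s ∈ S, ∑ s' ∈ S, if 0 < s.im - s'.im ∧ s.im - s'.im ≤ h then
    (mult riemannZeta s : ℝ) * (mult riemannZeta s' : ℝ) else 0

/-- pairs of zeros from `S` with equal ordinates -/
noncomputable def Pe (S : Finset ℂ) : ℝ := by
  classical
  exact ∑ s ∈ S, ∑ s' ∈ S, if s.im = s'.im then
    (mult riemannZeta s : ℝ) * (mult riemannZeta s' : ℝ) else 0

lemma Pc_nonneg (S : Finset ℂ) (h : ℝ) : 0 ≤ Pc S h := by
  classical
  unfold Pc
  refine Finset.sum_nonneg fun s _ => Finset.sum_nonneg fun s' _ => ?_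
  split_ifs
  · positivity
  · exact le_rfl

lemma Pe_nonneg (S : Finset ℂ) : 0 ≤ Pe S := by
  classical
  unfold Pe
  refine Finset.sum_nonneg fun s _ => Finset.sum_nonneg fun s' _ => ?_
  split_ifs
  · positivity
  · exact le_rfl

lemma Pc_mono (S : Finset ℂ) {h h' : ℝ} (hh : h ≤ h') : Pc S h ≤ Pc S h' := by
  classical
  unfold Pc
  refine Finset.sum_le_sum fun s _ => Finset.sum_le_sum fun s' _ => ?_
  by_cases h1 : 0 < s.im - s'.im ∧ s.im - s'.im ≤ h
  · rw [if_pos h1, if_pos ⟨h1.1, h1.2.trans hh⟩]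
  · rw [if_neg h1]
    split_ifs
    · positivity
    · exact le_rfl

lemma Pc_neg (S : Finset ℂ) {h : ℝ} (hh : h ≤ 0) : Pc S h = 0 := by
  classical
  unfold Pc
  refine Finset.sum_eq_zero fun s _ => Finset.sum_eq_zero fun s' _ => ?_
  rw [if_neg]
  rintro ⟨h1, h2⟩
  linarith

lemma one_pair {w r : ℝ → ℝ} {δ : ℝ} (H : Test w r δ) {L : ℝ} (hL : 0 < L) (d m : ℝ) :
    IntegrableOn (fun x => w x * (if 0 < d ∧ d ≤ 2 * Real.pi * x / L then m else 0)) (Ioi 0) ∧
    ∫ x in Ioi (0 : ℝ), w x * (if 0 < d ∧ d ≤ 2 * Real.pi * x / L then m else 0) =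
      if 0 < d then m * CT r (d * L / (2 * Real.pi)) else 0 := by
  have hpi := Real.pi_pos
  have i0 := H.int 0 le_rfl
  simp only [pow_zero, one_mul] at i0
  by_cases hd : 0 < d
  · set y : ℝ := d * L / (2 * Real.pi) with hy
    have hy0 : 0 < y := by positivity
    have e : ∀ x ∈ Ioi (0 : ℝ), w x * (if 0 < d ∧ d ≤ 2 * Real.pi * x / L then m else 0) =
        (Ici y).indicator (fun x => m * w x) x := by
      intro x _
      by_cases h : y ≤ x
      · rw [indicator_of_mem (mem_Ici.2 h), if_pos]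
        · ring
        · refine ⟨hd, ?_⟩
          rw [le_div_iff₀ hL]
          rw [hy, div_le_iff₀ (by positivity)] at h
          linarith
      · rw [indicator_of_notMem (by simpa using h), if_neg]
        · ring
        · rintro ⟨_, h2⟩
          apply h
          rw [le_div_iff₀ hL] at h2
          rw [hy, div_le_iff₀ (by positivity)]
          linarith
    have hsub : Ici y ⊆ Ioi (0 : ℝ) := fun x hx => lt_of_lt_of_le hy0 hx
    have i1 : IntegrableOn (fun x => m * w x) (Ici y) := (i0.mono_set hsub).const_mul m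
    constructor
    · refine IntegrableOn.congr_fun (f := (Ici y).indicator (fun x => m * w x)) ?_
        (fun x hx => (e x hx).symm) measurableSet_Ioi
      exact ((integrable_indicator_iff measurableSet_Ici).2 i1).integrableOn
    · rw [setIntegral_congr_fun measurableSet_Ioi e, setIntegral_indicator measurableSet_Ici,
        inter_eq_self_of_subset_right hsub, integral_Ici_eq_integral_Ioi, if_pos hd,
        integral_const_mul, H.eq, abs_of_pos hy0]
  · have e : ∀ x, w x * (if 0 < d ∧ d ≤ 2 * Real.pi * x / L then m else 0) = 0 := by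
      intro x
      rw [if_neg (fun h => hd h.1), mul_zero]
    simp only [e, if_neg hd]
    simp

theorem pair_int {w r : ℝ → ℝ} {δ : ℝ} (H : Test w r δ) {L : ℝ} (hL : 0 < L) (S : Finset ℂ) :
    IntegrableOn (fun x => w x * Pc S (2 * Real.pi * x / L)) (Ioi 0) ∧
    ∑ s ∈ S, ∑ s' ∈ S, (mult riemannZeta s : ℝ) * (mult riemannZeta s' : ℝ) *
      CT r ((s.im - s'.im) * L / (2 * Real.pi)) =
    Pe S * CT r 0 + 2 * ∫ x in Ioi (0 : ℝ), w x * Pc S (2 * Real.pi * x / L) := by
  classical
  set m : ℂ → ℝ := fun s => (mult riemannZeta s : ℝ) with hm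
  have hexp : ∀ x : ℝ, w x * Pc S (2 * Real.pi * x / L) = ∑ s ∈ S, ∑ s' ∈ S,
      w x * (if 0 < s.im - s'.im ∧ s.im - s'.im ≤ 2 * Real.pi * x / L then m s * m s' else 0) := by
    intro x
    unfold Pc
    rw [Finset.mul_sum]
    refine Finset.sum_congr rfl fun s _ => ?_
    rw [Finset.mul_sum]
  have hI : ∫ x in Ioi (0 : ℝ), w x * Pc S (2 * Real.pi * x / L) = ∑ s ∈ S, ∑ s' ∈ S,
      (if 0 < s.im - s'.im then m s * m s' * CT r ((s.im - s'.im) * L / (2 * Real.pi)) else 0) := by
    simp_rw [hexp]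
    rw [integral_finsetSum _ fun s _ => integrable_finsetSum _ fun s' _ =>
      (one_pair H hL (s.im - s'.im) (m s * m s')).1]
    refine Finset.sum_congr rfl fun s _ => ?_
    rw [integral_finsetSum _ fun s' _ => (one_pair H hL (s.im - s'.im) (m s * m s')).1]
    exact Finset.sum_congr rfl fun s' _ => (one_pair H hL (s.im - s'.im) (m s * m s')).2
  refine ⟨?_, ?_⟩
  · simp_rw [hexp]
    exact integrable_finsetSum _ fun s _ => integrable_finsetSum _ fun s' _ =>
      (one_pair H hL (s.im - s'.im) (m s * m s')).1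
  · have hsymm : ∑ s ∈ S, ∑ s' ∈ S,
        (if s.im - s'.im < 0 then m s * m s' * CT r ((s.im - s'.im) * L / (2 * Real.pi)) else 0) =
        ∑ s ∈ S, ∑ s' ∈ S,
        (if 0 < s.im - s'.im then m s * m s' * CT r ((s.im - s'.im) * L / (2 * Real.pi))
          else 0) := by
      rw [Finset.sum_comm]
      refine Finset.sum_congr rfl fun s _ => Finset.sum_congr rfl fun s' _ => ?_
      have e1 : CT r ((s'.im - s.im) * L / (2 * Real.pi)) =
          CT r ((s.im - s'.im) * L / (2 * Real.pi)) := by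
        rw [← CT_even, ← CT_even r ((s.im - s'.im) * L / (2 * Real.pi))]
        congr 1
        rw [← abs_neg]
        congr 1
        ring
      rw [e1, mul_comm (m s') (m s)]
      by_cases h : 0 < s.im - s'.im
      · rw [if_pos h, if_pos (by linarith)]
      · rw [if_neg h, if_neg (by linarith)]
    have hall : ∀ s s' : ℂ, m s * m s' * CT r ((s.im - s'.im) * L / (2 * Real.pi)) =
        (if s.im = s'.im then m s * m s' else 0) * CT r 0 +
        ((if 0 < s.im - s'.im then m s * m s' * CT r ((s.im - s'.im) * L / (2 * Real.pi)) else 0) +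
        (if s.im - s'.im < 0 then m s * m s' * CT r ((s.im - s'.im) * L / (2 * Real.pi))
          else 0)) := by
      intro s s'
      rcases lt_trichotomy (s.im - s'.im) 0 with h | h | h
      · have hne : s.im ≠ s'.im := fun h2 => by linarith
        rw [if_neg hne, if_neg (by linarith), if_pos h]
        ring
      · have h2 : s.im = s'.im := by linarith
        rw [if_pos h2, if_neg (by linarith), if_neg (by linarith), h, zero_mul, zero_div]
        ring
      · have hne : s.im ≠ s'.im := fun h2 => by linarith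
        rw [if_neg hne, if_pos h, if_neg (by linarith)]
        ring
    rw [Finset.sum_congr rfl fun s _ => Finset.sum_congr rfl fun s' _ => hall s s']
    simp_rw [Finset.sum_add_distrib]
    rw [hsymm, ← hI]
    have e2 : Pe S * CT r 0 = ∑ s ∈ S, ∑ s' ∈ S,
        (if s.im = s'.im then m s * m s' else 0) * CT r 0 := by
      unfold Pe
      rw [Finset.sum_mul]
      refine Finset.sum_congr rfl fun s _ => ?_
      rw [Finset.sum_mul]
    rw [e2]
    ring

/-- number of zeros in the block -/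
noncomputable def nb (T : ℝ) : ℝ := (NN riemannZeta T (2 * T) : ℝ)

/-- the normalised number of pairs at normalised distance `≤ x` -/
noncomputable def cb (T x : ℝ) : ℝ :=
  Pc (Zf riemannZeta T (2 * T)) (2 * Real.pi * x / Real.log T) / nb T

/-- the normalised number of pairs with equal ordinates -/
noncomputable def mb (T : ℝ) : ℝ := Pe (Zf riemannZeta T (2 * T)) / nb T

/-- the proportion of zeros off the line -/
noncomputable def eb (T : ℝ) : ℝ := NO T (2 * T) / nb T

lemma nb_large : ∃ T0 : ℝ, 10 ≤ T0 ∧ ∀ T : ℝ, T0 ≤ T → 1 ≤ nb T := by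
  have h := (H370.NN_tendsto good_zeta).eventually_ge_atTop 1
  obtain ⟨T0, hT0⟩ := eventually_atTop.1 h
  exact ⟨max 10 T0, le_max_left _ _, fun T hT => hT0 T ((le_max_right _ _).trans hT)⟩

/-- Montgomery's theorem in a block -/
theorem block {κ0 : ℝ} (h0 : 0 < κ0) (h1 : κ0 < 2 / 3) : ∃ C θ : ℝ, 0 < C ∧ 0 < θ ∧
    ∀ δ : ℝ, 0 < δ → δ ≤ κ0 → ∀ w r : ℝ → ℝ, Test w r δ → ∀ R : ℝ, (∀ α, |r α| ≤ R) →
    ∀ ε : ℝ, 0 < ε → ∃ T0 : ℝ, 10 ≤ T0 ∧ ∀ T : ℝ, T0 ≤ T →
      |∫ x in Ioi (0 : ℝ), w x * (cb T x - PP x + (mb T - 1) / 2)| ≤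
        C * R * δ ^ 3 * (eb T) ^ θ + ε := by
  obtain ⟨C, θ, hC, hθ, h⟩ := pair_ord h0 h1
  obtain ⟨T1, hT1, hnb⟩ := nb_large
  refine ⟨C, θ, hC, hθ, fun δ hδ hδκ w r H R hR ε hε => ?_⟩
  obtain ⟨K, hK⟩ := H.lip
  obtain ⟨A, hA⟩ := H.decay
  have hA' : ∀ u, |bl r u| * (1 + u ^ 2) ≤ A := hA
  obtain ⟨T0, hT0, h⟩ := h δ hδ hδκ r K hK H.supp _ (rh_of_bl hA') R hR ε hε
  refine ⟨max T0 T1, le_max_of_le_left hT0, fun T hT => ?_⟩
  have hT0' : T0 ≤ T := (le_max_left _ _).trans hT
  have hn1 := hnb T ((le_max_right _ _).trans hT)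
  have hn0 : 0 < nb T := by linarith
  have hT10 : 10 ≤ T := hT0.trans hT0'
  have hL : 0 < Real.log T := Real.log_pos (by linarith)
  have hh := h T hT0'
  have hmain := main_int H
  have hme := main_eq (lip_cont hK) hA' (fun x hx => H.supp x (by linarith))
  have hbl : ∀ u, bl r u = CT r u := fun _ => rfl
  simp_rw [hbl] at hme
  rw [← hme, hmain] at hh
  obtain ⟨hpI, hpS⟩ := pair_int H hL (Zf riemannZeta T (2 * T))
  have hPO : PO (rh r) T (2 * T) (Real.log T) =
      Pe (Zf riemannZeta T (2 * T)) * CT r 0 + 2 * ∫ x in Ioi (0 : ℝ),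
        w x * Pc (Zf riemannZeta T (2 * T)) (2 * Real.pi * x / Real.log T) := by
    rw [← hpS]
    unfold PO
    refine Finset.sum_congr rfl fun s _ => Finset.sum_congr rfl fun s' _ => ?_
    rw [← bl_eq]
    rfl
  rw [hPO] at hh
  have i0 := H.int 0 le_rfl
  simp only [pow_zero, one_mul] at i0
  have hc0 : CT r 0 = ∫ x in Ioi (0 : ℝ), w x := by
    have := H.eq 0
    rwa [abs_zero] at this
  have hwP : IntegrableOn (fun x => w x * PP x) (Ioi 0) := by
    have i1 := H.inta 1 le_rfl
    simp only [pow_one] at i1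
    refine Integrable.mono' i1 ((H.cont.mul PP_cont).aestronglyMeasurable) ?_
    refine (ae_restrict_iff' measurableSet_Ioi).2 (ae_of_all _ fun x hx => ?_)
    have hx0 : 0 ≤ x := le_of_lt hx
    rw [Real.norm_eq_abs, abs_mul, abs_of_nonneg (PP_nonneg hx0), mul_comm]
    exact mul_le_mul_of_nonneg_right (PP_le hx0) (abs_nonneg _)
  have hcI : IntegrableOn (fun x => w x * cb T x) (Ioi 0) := by
    have := hpI.div_const (nb T)
    refine this.congr (ae_of_all _ fun x => ?_)
    simp only [cb]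
    ring
  have hcc : ∫ x in Ioi (0 : ℝ), w x * Pc (Zf riemannZeta T (2 * T))
      (2 * Real.pi * x / Real.log T) = nb T * ∫ x in Ioi (0 : ℝ), w x * cb T x := by
    rw [← integral_const_mul]
    congr 1
    funext x
    simp only [cb]
    field_simp
  have e1 : ∫ x in Ioi (0 : ℝ), w x * (1 + 2 * PP x) =
      (∫ x in Ioi (0 : ℝ), w x) + 2 * ∫ x in Ioi (0 : ℝ), w x * PP x := by
    rw [← integral_const_mul, ← integral_add i0 (hwP.const_mul 2)]
    congr 1
    funext x
    ring
  have e2 : ∫ x in Ioi (0 : ℝ), w x * (cb T x - PP x + (mb T - 1) / 2) =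
      (∫ x in Ioi (0 : ℝ), w x * cb T x) - (∫ x in Ioi (0 : ℝ), w x * PP x) +
        (mb T - 1) / 2 * ∫ x in Ioi (0 : ℝ), w x := by
    have i2 : IntegrableOn (fun x => w x * cb T x - w x * PP x) (Ioi 0) := hcI.sub hwP
    rw [← integral_const_mul, ← integral_sub hcI hwP, ← integral_add i2 (i0.const_mul _)]
    congr 1
    funext x
    ring
  have hmb : Pe (Zf riemannZeta T (2 * T)) = nb T * mb T := by
    unfold mb
    field_simp
  rw [hcc, hc0, hmb, e1] at hh
  have hnb' : (NN riemannZeta T (2 * T) : ℝ) = nb T := rfl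
  rw [hnb'] at hh
  have heb : NO T (2 * T) / nb T = eb T := rfl
  rw [heb] at hh
  rw [e2]
  set X := ∫ x in Ioi (0 : ℝ), w x * cb T x
  set Y := ∫ x in Ioi (0 : ℝ), w x * PP x
  set W := ∫ x in Ioi (0 : ℝ), w x
  have e3 : nb T * mb T * W + 2 * (nb T * X) - nb T * (W + 2 * Y) =
      (2 * nb T) * (X - Y + (mb T - 1) / 2 * W) := by ring
  rw [e3, abs_mul, abs_of_pos (by positivity : 0 < 2 * nb T)] at hh
  have h5 : 2 * |X - Y + (mb T - 1) / 2 * W| ≤ C * R * δ ^ 3 * (eb T) ^ θ + ε := by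
    refine le_of_mul_le_mul_right ?_ hn0
    linarith
  have h6 := abs_nonneg (X - Y + (mb T - 1) / 2 * W)
  linarith

end Pool.Agent.N804
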