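import Pool.Agent.N804.CS

set_option autoImplicit false

/-! # A nonnegative bandlimited weight -/

namespace Pool.Agent.N804

open Filter Topology Set MeasureTheory ProbabilityTheory
open scoped Convolution

/-- an even bump function supported in `[-κ/2, κ/2]` -/
noncomputable def bp (κ : ℝ) (hκ : 0 < κ) : ContDiffBump (0 : ℝ) :=
  ⟨κ / 4, κ / 2, by linarith, by linarith⟩

lemma bp_SC {κ : ℝ} (hκ : 0 < κ) : SC (bp κ hκ) :=
  ⟨(bp κ hκ).contDiff, (bp κ hκ).hasCompactSupport⟩

lemma bp_even {κ : ℝ} (hκ : 0 < κ) (x : ℝ) : bp κ hκ (-x) = bp κ hκ x := (bp κ hκ).neg x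

lemma bp_zero {κ : ℝ} (hκ : 0 < κ) {x : ℝ} (hx : κ / 2 ≤ |x|) : bp κ hκ x = 0 := by
  refine (bp κ hκ).zero_of_le_dist ?_
  simpa [Real.dist_eq, bp] using hx

/-- the convolution square -/
noncomputable def B2 (κ : ℝ) (hκ : 0 < κ) (x : ℝ) : ℝ := ∫ t : ℝ, bp κ hκ t * bp κ hκ (x - t)

lemma B2_eq {κ : ℝ} (hκ : 0 < κ) :
    B2 κ hκ = ((bp κ hκ : ℝ → ℝ) ⋆[ContinuousLinearMap.mul ℝ ℝ, volume] (bp κ hκ : ℝ → ℝ)) := by
  funext x
  rw [convolution_mul]
  rfl

lemma B2_SC {κ : ℝ} (hκ : 0 < κ) : SC (B2 κ hκ) := by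
  have H := bp_SC hκ
  refine ⟨?_, ?_⟩
  · rw [B2_eq]
    exact H.cs.contDiff_convolution_left _ H.sm (H.cont.locallyIntegrable)
  · rw [B2_eq]
    exact H.cs.convolution _ H.cs

lemma B2_even {κ : ℝ} (hκ : 0 < κ) (x : ℝ) : B2 κ hκ (-x) = B2 κ hκ x := by
  unfold B2
  rw [← integral_neg_eq_self (fun t : ℝ => bp κ hκ t * bp κ hκ (x - t))]
  congr 1
  funext t
  rw [bp_even]
  congr 1
  rw [← bp_even hκ (x - -t)]
  congr 1
  ring

lemma B2_zero {κ : ℝ} (hκ : 0 < κ) {x : ℝ} (hx : κ < |x|) : B2 κ hκ x = 0 := by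
  unfold B2
  have : ∀ t : ℝ, bp κ hκ t * bp κ hκ (x - t) = 0 := by
    intro t
    by_cases h : κ / 2 ≤ |t|
    · rw [bp_zero hκ h, zero_mul]
    · have h2 : κ / 2 ≤ |x - t| := by
        have := abs_sub_abs_le_abs_sub x t
        push Not at h
        linarith
      rw [bp_zero hκ h2, mul_zero]
  simp [this]

lemma CT_B2 {κ : ℝ} (hκ : 0 < κ) (x : ℝ) : CT (B2 κ hκ) x = CT (bp κ hκ) x ^ 2 := by
  have H := bp_SC hκ
  set u : ℝ → ℝ := fun t => bp κ hκ t * Real.cos (2 * Real.pi * t * x) with hu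
  set v : ℝ → ℝ := fun t => bp κ hκ t * Real.sin (2 * Real.pi * t * x) with hv
  have uc : Continuous u := H.cont.mul (by fun_prop)
  have vc : Continuous v := H.cont.mul (by fun_prop)
  have us : HasCompactSupport u := H.cs.mul_right
  have vs : HasCompactSupport v := H.cs.mul_right
  have ui : Integrable u := uc.integrable_of_hasCompactSupport us
  have vi : Integrable v := vc.integrable_of_hasCompactSupport vs
  have hvz : ∫ t, v t = 0 := by
    have e := integral_neg_eq_self v volume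
    have e2 : ∀ t, v (-t) = -v t := by
      intro t
      simp only [hv]
      rw [bp_even, show 2 * Real.pi * -t * x = -(2 * Real.pi * t * x) by ring, Real.sin_neg]
      ring
    simp only [e2, integral_neg] at e
    linarith
  have c1 := integral_convolution (ContinuousLinearMap.mul ℝ ℝ) ui ui (μ := volume) (ν := volume)
  have c2 := integral_convolution (ContinuousLinearMap.mul ℝ ℝ) vi vi (μ := volume) (ν := volume)
  have k1 : Integrable (u ⋆[ContinuousLinearMap.mul ℝ ℝ, volume] u) :=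
    ui.integrable_convolution _ ui
  have k2 : Integrable (v ⋆[ContinuousLinearMap.mul ℝ ℝ, volume] v) :=
    vi.integrable_convolution _ vi
  simp only [ContinuousLinearMap.mul_apply'] at c1 c2
  rw [hvz, mul_zero] at c2
  have key : ∀ α : ℝ, B2 κ hκ α * Real.cos (2 * Real.pi * α * x) =
      (u ⋆[ContinuousLinearMap.mul ℝ ℝ, volume] u) α -
        (v ⋆[ContinuousLinearMap.mul ℝ ℝ, volume] v) α := by
    intro α
    rw [convolution_mul, convolution_mul, ← integral_sub]
    · unfold B2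
      rw [← integral_mul_const]
      congr 1
      funext t
      simp only [hu, hv]
      have : Real.cos (2 * Real.pi * α * x) =
          Real.cos (2 * Real.pi * t * x) * Real.cos (2 * Real.pi * (α - t) * x) -
          Real.sin (2 * Real.pi * t * x) * Real.sin (2 * Real.pi * (α - t) * x) := by
        rw [← Real.cos_add]
        congr 1
        ring
      rw [this]
      ring
    · exact (uc.mul (uc.comp (by fun_prop))).integrable_of_hasCompactSupport us.mul_right
    · exact (vc.mul (vc.comp (by fun_prop))).integrable_of_hasCompactSupport vs.mul_right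
  unfold CT
  simp_rw [key]
  rw [integral_sub k1 k2, c1, c2, sub_zero, sq]

/-- the weight -/
noncomputable def gw (κ : ℝ) (hκ : 0 < κ) (x : ℝ) : ℝ := CT (B2 κ hκ) x

lemma gw_nonneg {κ : ℝ} (hκ : 0 < κ) (x : ℝ) : 0 ≤ gw κ hκ x := by
  unfold gw
  rw [CT_B2]
  exact sq_nonneg _

lemma gw_even {κ : ℝ} (hκ : 0 < κ) (x : ℝ) : gw κ hκ (-x) = gw κ hκ x := by
  unfold gw CT
  congr 1
  funext α
  rw [show 2 * Real.pi * α * -x = -(2 * Real.pi * α * x) by ring, Real.cos_neg]

lemma gw_dec {κ : ℝ} (hκ : 0 < κ) (n : ℕ) : ∃ A : ℝ, ∀ x, 0 ≤ x → x ^ n * gw κ hκ x ≤ A := by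
  obtain ⟨A0, h0⟩ := CT_dec (B2_SC hκ) 0
  obtain ⟨A1, h1⟩ := CT_dec (B2_SC hκ) n
  refine ⟨A0 + A1, fun x hx => ?_⟩
  have e0 := h0 x
  have e1 := h1 x
  have hgn : 0 ≤ CT (B2 κ hκ) x := gw_nonneg hκ x
  rw [abs_of_nonneg hgn] at e0 e1
  have hg := gw_nonneg hκ x
  have hp : x ^ n ≤ 1 + x ^ (2 * n) := by
    have : x ^ (2 * n) = (x ^ n) ^ 2 := by rw [← pow_mul, mul_comm]
    rw [this]
    nlinarith [sq_nonneg (x ^ n - 1), pow_nonneg hx n]
  calc x ^ n * gw κ hκ x ≤ (1 + x ^ (2 * n)) * gw κ hκ x := by gcongr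
    _ = x ^ (2 * 0) * CT (B2 κ hκ) x + x ^ (2 * n) * CT (B2 κ hκ) x := by
      unfold gw
      ring
    _ ≤ _ := add_le_add e0 e1

lemma CT_cont {h : ℝ → ℝ} (H : SC h) : Continuous (CT h) := by
  unfold CT
  refine continuous_of_dominated (bound := fun α => |h α|) (fun x => ?_) (fun x => ?_) ?_ ?_
  · exact (H.int_cos x).aestronglyMeasurable
  · refine ae_of_all _ fun α => ?_
    rw [Real.norm_eq_abs, abs_mul]
    exact mul_le_of_le_one_right (abs_nonneg _) (Real.abs_cos_le_one _)
  · exact (H.cont.integrable_of_hasCompactSupport H.cs).abs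
  · exact ae_of_all _ fun α => by fun_prop

lemma gw_cont {κ : ℝ} (hκ : 0 < κ) : Continuous (gw κ hκ) := CT_cont (B2_SC hκ)

/-- the weight does not vanish identically on an interval -/
lemma gw_ne {κ : ℝ} (hκ : 0 < κ) {a c : ℝ} (hac : a < c) : ∃ y ∈ Ioo a c, gw κ hκ y ≠ 0 := by
  by_contra hcon
  push Not at hcon
  have H := bp_SC hκ
  have hb0 : ∀ x, 0 ≤ bp κ hκ x := fun x => (bp κ hκ).nonneg
  set μ : Measure ℝ := volume.withDensity (fun x => ENNReal.ofReal (bp κ hκ x)) with hμ
  have hm : Measurable fun x => ENNReal.ofReal (bp κ hκ x) := H.cont.measurable.ennreal_ofReal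
  have hint : ∀ F : ℝ → ℂ, ∫ x, F x ∂μ = ∫ x, (bp κ hκ x : ℂ) * F x := by
    intro F
    rw [hμ, integral_withDensity_eq_integral_toReal_smul hm
      (ae_of_all _ fun x => ENNReal.ofReal_lt_top)]
    congr 1
    funext x
    rw [ENNReal.toReal_ofReal (hb0 x)]
    exact Complex.real_smul
  have hexp : ∀ t : ℝ, Integrable (fun x : ℝ => Real.exp (t * x)) μ := by
    intro t
    rw [hμ, integrable_withDensity_iff_integrable_smul' hm
      (ae_of_all _ fun x => ENNReal.ofReal_lt_top)]
    have : Integrable (fun x : ℝ => bp κ hκ x * Real.exp (t * x)) :=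
      (H.cont.mul (by fun_prop)).integrable_of_hasCompactSupport H.cs.mul_right
    refine this.congr (ae_of_all _ fun x => ?_)
    simp only [ENNReal.toReal_ofReal (hb0 x), smul_eq_mul]
  have huniv : integrableExpSet id μ = univ := by
    ext t
    simp only [integrableExpSet, mem_univ, iff_true]
    exact hexp t
  have han : AnalyticOnNhd ℂ (complexMGF id μ) univ := by
    intro z _
    refine analyticAt_complexMGF ?_
    rw [huniv]
    simp
  -- on the imaginary axis
  have him : ∀ x : ℝ, complexMGF id μ ((2 * Real.pi * x : ℝ) * Complex.I) =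
      (CT (bp κ hκ) x : ℂ) := by
    intro x
    rw [complexMGF, hint]
    have e1 : ∀ α : ℝ, (bp κ hκ α : ℂ) * Complex.exp ((2 * Real.pi * x : ℝ) * Complex.I *
        (id α : ℝ)) = ((bp κ hκ α * Real.cos (2 * Real.pi * α * x) : ℝ) : ℂ) +
        ((bp κ hκ α * Real.sin (2 * Real.pi * α * x) : ℝ) : ℂ) * Complex.I := by
      intro α
      have : ((2 * Real.pi * x : ℝ) : ℂ) * Complex.I * ((id α : ℝ) : ℂ) =
          ((2 * Real.pi * α * x : ℝ) : ℂ) * Complex.I := by
        simp only [id]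
        push_cast
        ring
      rw [this, Complex.exp_mul_I]
      push_cast
      ring
    simp_rw [e1]
    have i1 : Integrable fun α : ℝ =>
        ((bp κ hκ α * Real.cos (2 * Real.pi * α * x) : ℝ) : ℂ) := (H.int_cos x).ofReal
    have i2 : Integrable fun α : ℝ =>
        ((bp κ hκ α * Real.sin (2 * Real.pi * α * x) : ℝ) : ℂ) * Complex.I :=
      (H.int_sin x).ofReal.mul_const _
    rw [integral_add i1 i2, integral_mul_const, integral_complex_ofReal, integral_complex_ofReal]
    have hs : ∫ α : ℝ, bp κ hκ α * Real.sin (2 * Real.pi * α * x) = 0 := by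
      have e := integral_neg_eq_self (fun α : ℝ => bp κ hκ α * Real.sin (2 * Real.pi * α * x))
        volume
      have e2 : ∀ t : ℝ, bp κ hκ (-t) * Real.sin (2 * Real.pi * -t * x) =
          -(bp κ hκ t * Real.sin (2 * Real.pi * t * x)) := by
        intro t
        rw [bp_even, show 2 * Real.pi * -t * x = -(2 * Real.pi * t * x) by ring, Real.sin_neg]
        ring
      simp only [e2, integral_neg] at e
      linarith
    rw [hs]
    simp [CT]
  have hz : ∀ x ∈ Ioo a c, complexMGF id μ ((2 * Real.pi * x : ℝ) * Complex.I) = 0 := by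
    intro x hx
    have h1 := hcon x hx
    unfold gw at h1
    rw [CT_B2] at h1
    rw [him, pow_eq_zero_iff (by norm_num : (2 : ℕ) ≠ 0) |>.1 h1]
    simp
  set x0 : ℝ := (a + c) / 2 with hx0
  have hx0m : x0 ∈ Ioo a c := ⟨by rw [hx0]; linarith, by rw [hx0]; linarith⟩
  have hfreq : ∃ᶠ z in 𝓝[≠] ((2 * Real.pi * x0 : ℝ) * Complex.I : ℂ), complexMGF id μ z = 0 := by
    have hpi := Real.pi_pos
    have ht : Tendsto (fun x : ℝ => ((2 * Real.pi * x : ℝ) * Complex.I : ℂ)) (𝓝[≠] x0)
        (𝓝[≠] ((2 * Real.pi * x0 : ℝ) * Complex.I : ℂ)) := by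
      refine tendsto_nhdsWithin_iff.2 ⟨?_, ?_⟩
      · refine Tendsto.mono_left ?_ nhdsWithin_le_nhds
        exact (by fun_prop : Continuous fun x : ℝ =>
          ((2 * Real.pi * x : ℝ) * Complex.I : ℂ)).tendsto x0
      · filter_upwards [self_mem_nhdsWithin] with x hx
        intro h
        apply hx
        have h2 := mul_right_cancel₀ Complex.I_ne_zero h
        have h3 : 2 * Real.pi * x = 2 * Real.pi * x0 := by exact_mod_cast h2
        exact mul_left_cancel₀ (by positivity) h3
    refine ht.frequently ?_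
    refine Eventually.frequently ?_
    have : Ioo a c ∈ 𝓝[≠] x0 := mem_nhdsWithin_of_mem_nhds (isOpen_Ioo.mem_nhds hx0m)
    filter_upwards [this] with x hx using hz x hx
  have hall := han.eqOn_zero_of_preconnected_of_frequently_eq_zero isPreconnected_univ
    (mem_univ _) hfreq
  have h0 := hall (mem_univ (0 : ℂ))
  have h00 : complexMGF id μ 0 = ((∫ x, bp κ hκ x : ℝ) : ℂ) := by
    have := him 0
    simp only [mul_zero, Complex.ofReal_zero, zero_mul] at this
    rw [this]
    simp [CT]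
  rw [h00, Pi.zero_apply] at h0
  have hpos := (bp κ hκ).integral_pos (μ := volume)
  have : (∫ x, bp κ hκ x) = 0 := by exact_mod_cast h0
  linarith

end Pool.Agent.N804
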