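import Mathlib

set_option autoImplicit false

/-! # Cosine and sine transforms of smooth functions of compact support -/

namespace Pool.Agent.N804

open Filter Topology Set MeasureTheory

/-- cosine transform -/
noncomputable def CT (h : ℝ → ℝ) (x : ℝ) : ℝ := ∫ α : ℝ, h α * Real.cos (2 * Real.pi * α * x)

/-- sine transform -/
noncomputable def ST (h : ℝ → ℝ) (x : ℝ) : ℝ := ∫ α : ℝ, h α * Real.sin (2 * Real.pi * α * x)

/-- smooth with compact support -/
structure SC (h : ℝ → ℝ) : Prop where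
  sm : ContDiff ℝ (⊤ : ℕ∞) h
  cs : HasCompactSupport h

lemma SC.deriv {h : ℝ → ℝ} (H : SC h) : SC (deriv h) := by
  refine ⟨?_, H.cs.deriv⟩
  exact (contDiff_infty_iff_deriv.1 H.sm).2

lemma SC.cont {h : ℝ → ℝ} (H : SC h) : Continuous h := H.sm.continuous

lemma SC.diff {h : ℝ → ℝ} (H : SC h) : Differentiable ℝ h := H.sm.differentiable (by simp)

lemma SC.int_cos {h : ℝ → ℝ} (H : SC h) (x : ℝ) :
    Integrable fun α : ℝ => h α * Real.cos (2 * Real.pi * α * x) :=
  (H.cont.mul (by fun_prop)).integrable_of_hasCompactSupport H.cs.mul_right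

lemma SC.int_sin {h : ℝ → ℝ} (H : SC h) (x : ℝ) :
    Integrable fun α : ℝ => h α * Real.sin (2 * Real.pi * α * x) :=
  (H.cont.mul (by fun_prop)).integrable_of_hasCompactSupport H.cs.mul_right

lemma CT_deriv {h : ℝ → ℝ} (H : SC h) (x : ℝ) :
    CT (deriv h) x = 2 * Real.pi * x * ST h x := by
  have hv : ∀ α : ℝ, HasDerivAt (fun α : ℝ => Real.cos (2 * Real.pi * α * x))
      (-(2 * Real.pi * x) * Real.sin (2 * Real.pi * α * x)) α := by
    intro α
    have h1 : HasDerivAt (fun α : ℝ => 2 * Real.pi * α * x) (2 * Real.pi * x) α := by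
      have := ((hasDerivAt_id α).const_mul (2 * Real.pi)).mul_const x
      simpa using this
    convert h1.cos using 1
    ring
  have i1 : Integrable (fun α : ℝ => h α * (-(2 * Real.pi * x) *
      Real.sin (2 * Real.pi * α * x))) := by
    have := (H.int_sin x).const_mul (-(2 * Real.pi * x))
    refine this.congr (ae_of_all _ fun α => ?_)
    ring
  have e := integral_mul_deriv_eq_deriv_mul_of_integrable
    (u := h) (u' := deriv h) (v := fun α : ℝ => Real.cos (2 * Real.pi * α * x))
    (v' := fun α : ℝ => -(2 * Real.pi * x) * Real.sin (2 * Real.pi * α * x))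
    (fun α _ => (H.diff α).hasDerivAt) (fun α _ => hv α) i1 (H.deriv.int_cos x) (H.int_cos x)
  unfold CT ST
  have e2 : ∫ α : ℝ, h α * (-(2 * Real.pi * x) * Real.sin (2 * Real.pi * α * x)) =
      -(2 * Real.pi * x) * ∫ α : ℝ, h α * Real.sin (2 * Real.pi * α * x) := by
    rw [← integral_const_mul]
    congr 1
    funext α
    ring
  rw [e2] at e
  linarith

lemma ST_deriv {h : ℝ → ℝ} (H : SC h) (x : ℝ) :
    ST (deriv h) x = -(2 * Real.pi * x * CT h x) := by
  have hv : ∀ α : ℝ, HasDerivAt (fun α : ℝ => Real.sin (2 * Real.pi * α * x))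
      ((2 * Real.pi * x) * Real.cos (2 * Real.pi * α * x)) α := by
    intro α
    have h1 : HasDerivAt (fun α : ℝ => 2 * Real.pi * α * x) (2 * Real.pi * x) α := by
      have := ((hasDerivAt_id α).const_mul (2 * Real.pi)).mul_const x
      simpa using this
    convert h1.sin using 1
    ring
  have i1 : Integrable (fun α : ℝ => h α * ((2 * Real.pi * x) *
      Real.cos (2 * Real.pi * α * x))) := by
    have := (H.int_cos x).const_mul (2 * Real.pi * x)
    refine this.congr (ae_of_all _ fun α => ?_)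
    ring
  have e := integral_mul_deriv_eq_deriv_mul_of_integrable
    (u := h) (u' := deriv h) (v := fun α : ℝ => Real.sin (2 * Real.pi * α * x))
    (v' := fun α : ℝ => (2 * Real.pi * x) * Real.cos (2 * Real.pi * α * x))
    (fun α _ => (H.diff α).hasDerivAt) (fun α _ => hv α) i1 (H.deriv.int_sin x) (H.int_sin x)
  unfold CT ST
  have e2 : ∫ α : ℝ, h α * ((2 * Real.pi * x) * Real.cos (2 * Real.pi * α * x)) =
      (2 * Real.pi * x) * ∫ α : ℝ, h α * Real.cos (2 * Real.pi * α * x) := by
    rw [← integral_const_mul]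
    congr 1
    funext α
    ring
  rw [e2] at e
  linarith

lemma CT_bd {h : ℝ → ℝ} (H : SC h) : ∃ A : ℝ, ∀ x : ℝ, |CT h x| ≤ A := by
  refine ⟨∫ α : ℝ, |h α|, fun x => ?_⟩
  unfold CT
  refine (abs_integral_le_integral_abs).trans (integral_mono_of_nonneg
    (ae_of_all _ fun α => abs_nonneg _)
    (H.cont.integrable_of_hasCompactSupport H.cs).abs (ae_of_all _ fun α => ?_))
  simp only []
  rw [abs_mul]
  exact mul_le_of_le_one_right (abs_nonneg _) (Real.abs_cos_le_one _)

lemma CT_dec {h : ℝ → ℝ} (H : SC h) (n : ℕ) : ∃ A : ℝ, ∀ x : ℝ, x ^ (2 * n) * |CT h x| ≤ A := by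
  induction n generalizing h with
  | zero => simpa using CT_bd H
  | succ n ih =>
    obtain ⟨A, hA⟩ := ih H.deriv.deriv
    have hpi := Real.pi_gt_three
    refine ⟨A, fun x => le_trans ?_ (hA x)⟩
    have e : CT (deriv (deriv h)) x = -((2 * Real.pi * x) ^ 2 * CT h x) := by
      rw [CT_deriv H.deriv, ST_deriv H]
      ring
    rw [e, abs_neg, abs_mul, abs_of_nonneg (sq_nonneg (2 * Real.pi * x))]
    have h1 : x ^ 2 ≤ (2 * Real.pi * x) ^ 2 := by
      rw [mul_pow]
      have : 1 ≤ (2 * Real.pi) ^ 2 := one_le_pow₀ (by linarith)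
      nlinarith [sq_nonneg x]
    calc x ^ (2 * (n + 1)) * |CT h x| = x ^ (2 * n) * (x ^ 2 * |CT h x|) := by ring
      _ ≤ x ^ (2 * n) * ((2 * Real.pi * x) ^ 2 * |CT h x|) := by
        have := (even_two_mul n).pow_nonneg x
        gcongr

lemma ST_iter {h : ℝ → ℝ} (H : SC h) (n : ℕ) :
    SC (deriv^[2 * n + 1] h) ∧ ∀ x : ℝ, ST (deriv^[2 * n + 1] h) x =
      (-1) ^ (n + 1) * (2 * Real.pi * x) ^ (2 * n + 1) * CT h x := by
  induction n generalizing h with
  | zero =>
    refine ⟨by simpa using H.deriv, fun x => ?_⟩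
    simp only [mul_zero, zero_add, Function.iterate_one, pow_one, ST_deriv H]
    ring
  | succ n ih =>
    obtain ⟨h1, h2⟩ := ih H.deriv.deriv
    have e : deriv^[2 * (n + 1) + 1] h = deriv^[2 * n + 1] (deriv (deriv h)) := by
      rw [show 2 * (n + 1) + 1 = 2 * n + 1 + 1 + 1 by ring, Function.iterate_succ_apply,
        Function.iterate_succ_apply]
    rw [e]
    refine ⟨h1, fun x => ?_⟩
    rw [h2 x, CT_deriv H.deriv, ST_deriv H]
    ring

end Pool.Agent.N804
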