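import Pool.Agent.N804.WinF

set_option autoImplicit false

/-! # Local bounds for the counting functions of the pairs -/

namespace Pool.Agent.N804

open Filter Topology Set MeasureTheory
open H370 (Zf mult)

/-- the diagonal dominates the other diagonals -/
lemma cells (S : Finset ℂ) (m : ℂ → ℝ) (g : ℂ → ℤ) (d : ℤ) :
    ∑ s ∈ S, ∑ s' ∈ S, (if g s = g s' + d then m s * m s' else 0) ≤
      ∑ s ∈ S, ∑ s' ∈ S, (if g s = g s' then m s * m s' else 0) := by
  classical
  set n : ℤ → ℝ := fun j => ∑ s ∈ S, if g s = j then m s else 0 with hn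
  set J : Finset ℤ := S.image g with hJ
  have hfib : ∀ f : ℤ → ℝ, ∑ s' ∈ S, m s' * f (g s') = ∑ j ∈ J, n j * f j := by
    intro f
    have e : ∀ j ∈ J, n j * f j = ∑ s' ∈ S, if g s' = j then m s' * f (g s') else 0 := by
      intro j _
      simp only [hn]
      rw [Finset.sum_mul]
      refine Finset.sum_congr rfl fun s _ => ?_
      split_ifs with h
      · rw [h]
      · rw [zero_mul]
    rw [Finset.sum_congr rfl e, Finset.sum_comm]
    refine Finset.sum_congr rfl fun s hs => ?_
    rw [Finset.sum_ite_eq, if_pos (Finset.mem_image_of_mem g hs)]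
  have e1 : ∀ d : ℤ, ∑ s ∈ S, ∑ s' ∈ S, (if g s = g s' + d then m s * m s' else 0) =
      ∑ j ∈ J, n j * n (j + d) := by
    intro d
    rw [Finset.sum_comm, ← hfib fun j => n (j + d)]
    refine Finset.sum_congr rfl fun s' _ => ?_
    simp only [hn]
    rw [Finset.mul_sum]
    refine Finset.sum_congr rfl fun s _ => ?_
    split_ifs
    · ring
    · ring
  have e2 : ∑ s ∈ S, ∑ s' ∈ S, (if g s = g s' then m s * m s' else 0) = ∑ j ∈ J, n j ^ 2 := by
    have := e1 0
    simp only [add_zero] at this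
    rw [this]
    exact Finset.sum_congr rfl fun j _ => by ring
  rw [e1, e2]
  have h1 : ∀ j ∈ J, n j * n (j + d) ≤ n j ^ 2 / 2 + n (j + d) ^ 2 / 2 := by
    intro j _
    nlinarith [sq_nonneg (n j - n (j + d))]
  have h0 : ∀ j, j ∉ J → n j = 0 := by
    intro j hj
    simp only [hn]
    refine Finset.sum_eq_zero fun s hs => ?_
    rw [if_neg]
    intro h
    exact hj (h ▸ Finset.mem_image_of_mem g hs)
  have h2 : ∑ j ∈ J, n (j + d) ^ 2 ≤ ∑ j ∈ J, n j ^ 2 := by
    have h3 : ∑ j ∈ J, n (j + d) ^ 2 = ∑ i ∈ J.map (addRightEmbedding d), n i ^ 2 := by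
      rw [Finset.sum_map]
      rfl
    rw [h3]
    have h4 : ∑ i ∈ J.map (addRightEmbedding d), n i ^ 2 =
        ∑ i ∈ (J.map (addRightEmbedding d)).filter (fun i => i ∈ J), n i ^ 2 := by
      rw [Finset.sum_filter]
      refine Finset.sum_congr rfl fun i _ => ?_
      split_ifs with h
      · rfl
      · rw [h0 i h]
        norm_num
    rw [h4]
    refine Finset.sum_le_sum_of_subset_of_nonneg ?_ fun _ _ _ => sq_nonneg _
    intro i hi
    exact (Finset.mem_filter.1 hi).2
  refine (Finset.sum_le_sum h1).trans ?_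
  rw [Finset.sum_add_distrib, ← Finset.sum_div, ← Finset.sum_div]
  linarith

/-- local bound -/
lemma Pc_loc (S : Finset ℂ) {h : ℝ} (hh : 0 < h) (x : ℝ) :
    Pc S (x + h) - Pc S x ≤ 3 * (Pe S + 2 * Pc S h) := by
  classical
  set m : ℂ → ℝ := fun s => (mult riemannZeta s : ℝ) with hm
  have hm0 : ∀ s s', 0 ≤ m s * m s' := fun s s' => by positivity
  set g : ℂ → ℤ := fun s => ⌊s.im / h⌋ with hg
  set k : ℤ := ⌊x / h⌋ with hk
  have hdiag : ∑ s ∈ S, ∑ s' ∈ S, (if g s = g s' then m s * m s' else 0) ≤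
      Pe S + 2 * Pc S h := by
    have hsw : Pc S h = ∑ s ∈ S, ∑ s' ∈ S,
        (if 0 < s'.im - s.im ∧ s'.im - s.im ≤ h then m s * m s' else 0) := by
      unfold Pc
      rw [Finset.sum_comm]
      refine Finset.sum_congr rfl fun s _ => Finset.sum_congr rfl fun s' _ => ?_
      simp only [hm, mul_comm]
    have e : Pe S + 2 * Pc S h = Pe S + Pc S h + Pc S h := by ring
    rw [e]
    nth_rewrite 2 [hsw]
    unfold Pe Pc
    rw [← Finset.sum_add_distrib, ← Finset.sum_add_distrib]
    refine Finset.sum_le_sum fun s _ => ?_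
    rw [← Finset.sum_add_distrib, ← Finset.sum_add_distrib]
    refine Finset.sum_le_sum fun s' _ => ?_
    have hp := hm0 s s'
    by_cases hc : g s = g s'
    · rw [if_pos hc]
      have h1 : |s.im / h - s'.im / h| < 1 := Int.abs_sub_lt_one_of_floor_eq_floor hc
      rw [← sub_div, abs_div, abs_of_pos hh, div_lt_one hh] at h1
      have h2 := abs_lt.1 h1
      have hmm : m s * m s' = (mult riemannZeta s : ℝ) * (mult riemannZeta s' : ℝ) := rfl
      rw [hmm] at hp ⊢
      rcases lt_trichotomy s.im s'.im with h3 | h3 | h3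
      · have h4 : 0 < s'.im - s.im ∧ s'.im - s.im ≤ h := ⟨by linarith, by linarith⟩
        rw [if_pos h4]
        split_ifs <;> linarith
      · rw [if_pos h3]
        split_ifs <;> linarith
      · have h4 : 0 < s.im - s'.im ∧ s.im - s'.im ≤ h := ⟨by linarith, by linarith⟩
        rw [if_pos h4]
        split_ifs <;> linarith
    · rw [if_neg hc]
      simp only [hm] at hp ⊢
      split_ifs <;> linarith
  have hpt : Pc S (x + h) - Pc S x ≤
      ∑ s ∈ S, ∑ s' ∈ S, (if g s = g s' + k then m s * m s' else 0) +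
      ∑ s ∈ S, ∑ s' ∈ S, (if g s = g s' + (k + 1) then m s * m s' else 0) +
      ∑ s ∈ S, ∑ s' ∈ S, (if g s = g s' + (k + 2) then m s * m s' else 0) := by
    unfold Pc
    rw [← Finset.sum_sub_distrib, ← Finset.sum_add_distrib, ← Finset.sum_add_distrib]
    refine Finset.sum_le_sum fun s _ => ?_
    rw [← Finset.sum_sub_distrib, ← Finset.sum_add_distrib, ← Finset.sum_add_distrib]
    refine Finset.sum_le_sum fun s' _ => ?_
    have hp := hm0 s s'
    have hmm : m s * m s' = (mult riemannZeta s : ℝ) * (mult riemannZeta s' : ℝ) := rfl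
    rw [hmm] at hp ⊢
    by_cases hc : x < s.im - s'.im ∧ s.im - s'.im ≤ x + h
    · obtain ⟨h1, h2⟩ := hc
      have a1 := Int.floor_le (s.im / h)
      have a2 := Int.lt_floor_add_one (s.im / h)
      have b1 := Int.floor_le (s'.im / h)
      have b2 := Int.lt_floor_add_one (s'.im / h)
      have c1 := Int.floor_le (x / h)
      have c2 := Int.lt_floor_add_one (x / h)
      have d1 : x / h < s.im / h - s'.im / h := by
        rw [← sub_div]
        exact div_lt_div_of_pos_right h1 hh
      have d2 : s.im / h - s'.im / h ≤ x / h + 1 := by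
        rw [← sub_div, div_add_one hh.ne']
        exact div_le_div_of_nonneg_right h2 hh.le
      have e1 : ((k : ℝ) - 1) < (g s : ℝ) - g s' := by
        simp only [hg, hk]
        linarith
      have e2 : (g s : ℝ) - g s' < k + 3 := by
        simp only [hg, hk]
        linarith
      have e3 : k - 1 < g s - g s' := by exact_mod_cast e1
      have e4 : g s - g s' < k + 3 := by exact_mod_cast e2
      have e5 : g s = g s' + k ∨ g s = g s' + (k + 1) ∨ g s = g s' + (k + 2) := by omega
      rcases e5 with h5 | h5 | h5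
      · rw [if_pos h5]
        split_ifs <;> linarith
      · rw [if_pos h5]
        split_ifs <;> linarith
      · rw [if_pos h5]
        split_ifs <;> linarith
    · have h6 : (if 0 < s.im - s'.im ∧ s.im - s'.im ≤ x + h then
          (mult riemannZeta s : ℝ) * (mult riemannZeta s' : ℝ) else 0) -
          (if 0 < s.im - s'.im ∧ s.im - s'.im ≤ x then
          (mult riemannZeta s : ℝ) * (mult riemannZeta s' : ℝ) else 0) ≤ 0 := by
        by_cases h7 : 0 < s.im - s'.im ∧ s.im - s'.im ≤ x + h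
        · have h8 : s.im - s'.im ≤ x := by
            by_contra hcon
            push Not at hcon
            exact hc ⟨hcon, h7.2⟩
          rw [if_pos h7, if_pos ⟨h7.1, h8⟩, sub_self]
        · rw [if_neg h7]
          split_ifs <;> linarith
      refine h6.trans ?_
      split_ifs <;> linarith
  have c0 := cells S m g k
  have c1 := cells S m g (k + 1)
  have c2 := cells S m g (k + 2)
  linarith

/-- local bound for the averaged counting functions -/
lemma ct_loc : ∃ B T0 : ℝ, 0 < B ∧ ∀ T : ℝ, T0 ≤ T → ∀ x : ℝ, ct T (x + 1) - ct T x ≤ B := by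
  obtain ⟨B, T1, hB, hT1, hbd⟩ := cb_mb_bd
  obtain ⟨T3, hT3, hV⟩ := Vj_large (max T1 10)
  refine ⟨15 * B, T3, by positivity, fun T hT x => ?_⟩
  have e : ct T (x + 1) - ct T x = avg (fun V => cb V (x + 1) - cb V x) T := by
    unfold ct
    rw [avg_sub]
  rw [e]
  refine avg_le_const (by positivity) fun j hj => ?_
  have hVj := hV T hT j hj
  have hT1' : T1 ≤ Vj T j := (le_max_left _ _).trans hVj
  have h10 : 10 ≤ Vj T j := (le_max_right _ _).trans hVj
  set V := Vj T j with hVd
  obtain ⟨h1, h2⟩ := hbd V hT1'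
  have h3 := h1 1 zero_le_one
  have hL : 0 < Real.log V := Real.log_pos (by linarith)
  have hpi := Real.pi_pos
  have h4 := Pc_loc (Zf riemannZeta V (2 * V)) (h := 2 * Real.pi * 1 / Real.log V) (by positivity)
    (2 * Real.pi * x / Real.log V)
  have e2 : 2 * Real.pi * x / Real.log V + 2 * Real.pi * 1 / Real.log V =
      2 * Real.pi * (x + 1) / Real.log V := by ring
  rw [e2] at h4
  have h5 : (Pc (Zf riemannZeta V (2 * V)) (2 * Real.pi * (x + 1) / Real.log V) -
      Pc (Zf riemannZeta V (2 * V)) (2 * Real.pi * x / Real.log V)) / nb V ≤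
      3 * (Pe (Zf riemannZeta V (2 * V)) +
        2 * Pc (Zf riemannZeta V (2 * V)) (2 * Real.pi * 1 / Real.log V)) / nb V :=
    div_le_div_of_nonneg_right h4 (nb_nonneg V)
  have e3 : cb V (x + 1) - cb V x =
      (Pc (Zf riemannZeta V (2 * V)) (2 * Real.pi * (x + 1) / Real.log V) -
      Pc (Zf riemannZeta V (2 * V)) (2 * Real.pi * x / Real.log V)) / nb V := by
    unfold cb
    rw [sub_div]
  have e4 : 3 * (Pe (Zf riemannZeta V (2 * V)) +
        2 * Pc (Zf riemannZeta V (2 * V)) (2 * Real.pi * 1 / Real.log V)) / nb V =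
      3 * (mb V + 2 * cb V 1) := by
    unfold cb mb
    ring
  show cb V (x + 1) - cb V x ≤ 15 * B
  rw [e3]
  rw [e4] at h5
  linarith

/-- local bound for the limit -/
lemma loc_lim : ∃ B : ℝ, 0 < B ∧ ∀ T : ℕ → ℝ, Tendsto T atTop atTop → ∀ Φ : ℝ → ℝ,
    Monotone Φ → (∀ᵐ x, Tendsto (fun k => ct (T k) x) atTop (𝓝 (Φ x))) →
    ∀ x y : ℝ, x ≤ y → Φ y - Φ x ≤ B * (1 + (y - x)) := by
  obtain ⟨B, T0, hB, hloc⟩ := ct_loc
  obtain ⟨B1, T1, hB1, hT1, hp⟩ := ct_props
  refine ⟨2 * B, by positivity, fun T hT Φ hΦ hc x y hxy => ?_⟩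
  -- steps of length one for the averaged functions
  have hn : ∀ k : ℕ, T0 ≤ T k → ∀ (n : ℕ) (x : ℝ), ct (T k) (x + n) - ct (T k) x ≤ n * B := by
    intro k hk n
    induction n with
    | zero => intro x; simp
    | succ n ih =>
      intro x
      have h1 := ih x
      have h2 := hloc (T k) hk (x + n)
      have e : x + n + 1 = x + ((n + 1 : ℕ) : ℝ) := by
        push_cast
        ring
      rw [e] at h2
      push_cast
      push_cast at h2
      linarith
  have hx2 : ∀ᵐ z, Tendsto (fun k => ct (T k) z) atTop (𝓝 (Φ z)) := hc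
  obtain ⟨z, hz, hz2⟩ := ae_Ioo hc (show x - 1 / 4 < x by linarith)
  obtain ⟨z', hz', hz2'⟩ := ae_Ioo hc (show y < y + 1 / 4 by linarith)
  have hzz : 0 ≤ z' - z := by linarith [hz.2, hz'.1]
  have hbound : Φ z' - Φ z ≤ ⌈z' - z⌉₊ * B := by
    refine le_of_tendsto (hz2'.sub hz2) ?_
    filter_upwards [hT.eventually_ge_atTop (max T0 T1)] with k hk
    have h1 := hn k ((le_max_left _ _).trans hk) ⌈z' - z⌉₊ z
    have h2 := (hp (T k) ((le_max_right _ _).trans hk)).1
      (show z' ≤ z + ⌈z' - z⌉₊ by linarith [Nat.le_ceil (z' - z)])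
    linarith
  have h3 := hΦ hz.2.le
  have h4 := hΦ hz'.1.le
  have h5 : (⌈z' - z⌉₊ : ℝ) < z' - z + 1 := Nat.ceil_lt_add_one hzz
  have h6 : (⌈z' - z⌉₊ : ℝ) * B ≤ (y - x + 3 / 2) * B := by
    have : (⌈z' - z⌉₊ : ℝ) ≤ y - x + 3 / 2 := by linarith [hz.1, hz'.2]
    gcongr
  have h7 : 0 ≤ (y - x) * B := mul_nonneg (by linarith) hB.le
  nlinarith

end Pool.Agent.N804
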