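import Pool.Agent.N804.Frac

set_option autoImplicit false

/-! # The sine product with displaced zeros: bounds, limit, sign -/

namespace Pool.Agent.N804

open Filter Topology Set MeasureTheory

/-- the zeros are in consecutive unit intervals -/
def Dis (lam : ℕ → ℝ) : Prop := ∀ j : ℕ, (j : ℝ) + 1 ≤ lam j ∧ lam j ≤ (j : ℝ) + 2

lemma Dis.pos {lam : ℕ → ℝ} (h : Dis lam) (j : ℕ) : 0 < lam j := by
  have := (h j).1
  have : (0 : ℝ) ≤ j := Nat.cast_nonneg j
  linarith

/-- factors beyond `x` -/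
lemma fac_far {lam : ℕ → ℝ} (h : Dis lam) {x : ℝ} (hx : 0 < x) {j : ℕ} (hj : x ≤ (j : ℝ) + 1) :
    0 ≤ 1 - x ^ 2 / lam j ^ 2 ∧ 1 - x ^ 2 / lam j ^ 2 ≤ 1 - x ^ 2 / ((j : ℝ) + 2) ^ 2 ∧
      1 - x ^ 2 / ((j : ℝ) + 1) ^ 2 ≤ 1 - x ^ 2 / lam j ^ 2 := by
  obtain ⟨h1, h2⟩ := h j
  have h0 := h.pos j
  have hj0 : (0 : ℝ) ≤ j := Nat.cast_nonneg j
  refine ⟨?_, ?_, ?_⟩
  · rw [sub_nonneg, div_le_one (by positivity)]
    exact pow_le_pow_left₀ hx.le (hj.trans h1) 2
  · have : x ^ 2 / ((j : ℝ) + 2) ^ 2 ≤ x ^ 2 / lam j ^ 2 := by gcongr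
    linarith
  · have : x ^ 2 / lam j ^ 2 ≤ x ^ 2 / ((j : ℝ) + 1) ^ 2 := by gcongr
    linarith

/-- factors before `x` -/
lemma fac_near {lam : ℕ → ℝ} (h : Dis lam) {x : ℝ} {j : ℕ} (hj : (j : ℝ) + 2 ≤ x) :
    |1 - x ^ 2 / lam j ^ 2| ≤ |1 - x ^ 2 / ((j : ℝ) + 1) ^ 2| := by
  obtain ⟨h1, h2⟩ := h j
  have h0 := h.pos j
  have hj0 : (0 : ℝ) ≤ j := Nat.cast_nonneg j
  have hx : 0 < x := by linarith
  have e1 : 1 ≤ x ^ 2 / lam j ^ 2 := by
    rw [le_div_iff₀ (by positivity), one_mul]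
    exact pow_le_pow_left₀ h0.le (h2.trans hj) 2
  have e2 : x ^ 2 / lam j ^ 2 ≤ x ^ 2 / ((j : ℝ) + 1) ^ 2 := by gcongr
  rw [abs_of_nonpos (by linarith), abs_of_nonpos (by linarith)]
  linarith

lemma Qn_first {lam : ℕ → ℝ} (h : Dis lam) {x : ℝ} {N : ℕ} (hN : (N : ℝ) + 1 ≤ x) :
    ∀ M ≤ N, |Qn lam M x| ≤ |Pn M x| := by
  intro M
  induction M with
  | zero => intro _; simp [Qn, Pn]
  | succ M ih =>
    intro hM
    have e1 : Pn (M + 1) x = Pn M x * (1 - x ^ 2 / ((M : ℝ) + 1) ^ 2) := Qn_succ _ _ _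
    rw [Qn_succ, e1, abs_mul, abs_mul]
    have h2 : ((M : ℝ) + 1) ≤ N := by exact_mod_cast hM
    exact mul_le_mul (ih (by omega)) (fac_near h (by linarith)) (abs_nonneg _) (abs_nonneg _)

lemma Qn_mid {lam : ℕ → ℝ} (h : Dis lam) {x : ℝ} {N : ℕ} (hN : (N : ℝ) + 1 ≤ x)
    (hN2 : x ≤ (N : ℝ) + 2) : |Qn lam (N + 1) x| ≤ 3 * |Pn N x| := by
  obtain ⟨h1, h2⟩ := h N
  have h0 := h.pos N
  have hj0 : (0 : ℝ) ≤ N := Nat.cast_nonneg N
  rw [Qn_succ, abs_mul, mul_comm]
  refine mul_le_mul ?_ (Qn_first h hN N le_rfl) (abs_nonneg _) (by norm_num)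
  have e1 : 0 ≤ x ^ 2 / lam N ^ 2 := by positivity
  have e2 : x ^ 2 / lam N ^ 2 ≤ 4 := by
    rw [div_le_iff₀ (by positivity)]
    nlinarith
  rw [abs_le]
  constructor <;> linarith

lemma Qn_far {lam : ℕ → ℝ} (h : Dis lam) {x : ℝ} {N : ℕ} (hN : (N : ℝ) + 1 ≤ x)
    (hN2 : x ≤ (N : ℝ) + 2) : ∀ M : ℕ, |Qn lam (N + 1 + M) x| * |Pn (N + 2) x| ≤
      3 * |Pn N x| * |Pn (N + 2 + M) x| := by
  have hx : 0 < x := by
    have hj0 : (0 : ℝ) ≤ N := Nat.cast_nonneg N
    linarith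
  intro M
  induction M with
  | zero =>
    simp only [add_zero]
    exact mul_le_mul_of_nonneg_right (Qn_mid h hN hN2) (abs_nonneg _)
  | succ M ih =>
    have e1 : Pn (N + 2 + (M + 1)) x = Pn (N + 2 + M) x *
        (1 - x ^ 2 / (((N + 2 + M : ℕ) : ℝ) + 1) ^ 2) := Qn_succ _ _ _
    have e2 : Qn lam (N + 1 + (M + 1)) x = Qn lam (N + 1 + M) x *
        (1 - x ^ 2 / lam (N + 1 + M) ^ 2) := Qn_succ _ _ _
    obtain ⟨f1, f2, f3⟩ := fac_far h hx (j := N + 1 + M) (by
      push_cast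
      have : (0 : ℝ) ≤ M := Nat.cast_nonneg M
      linarith)
    have f4 : (((N + 2 + M : ℕ) : ℝ) + 1) = ((N + 1 + M : ℕ) : ℝ) + 2 := by
      push_cast
      ring
    rw [e1, e2, abs_mul, abs_mul, f4, abs_of_nonneg f1, abs_of_nonneg (f1.trans f2)]
    calc |Qn lam (N + 1 + M) x| * (1 - x ^ 2 / lam (N + 1 + M) ^ 2) * |Pn (N + 2) x| =
        (|Qn lam (N + 1 + M) x| * |Pn (N + 2) x|) * (1 - x ^ 2 / lam (N + 1 + M) ^ 2) := by ring
      _ ≤ (3 * |Pn N x| * |Pn (N + 2 + M) x|) *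
          (1 - x ^ 2 / (((N + 1 + M : ℕ) : ℝ) + 2) ^ 2) :=
          mul_le_mul ih f2 f1 (by positivity)
      _ = _ := by ring

lemma Qn_unit {lam : ℕ → ℝ} (h : Dis lam) {x : ℝ} (hx : 0 < x) (hx1 : x ≤ 1) (M : ℕ) :
    |Qn lam M x| ≤ 1 := by
  induction M with
  | zero => simp [Qn]
  | succ M ih =>
    obtain ⟨f1, f2, f3⟩ := fac_far h hx (j := M) (by
      have : (0 : ℝ) ≤ M := Nat.cast_nonneg M
      linarith)
    have h2 : 0 ≤ x ^ 2 / ((M : ℝ) + 2) ^ 2 := by positivity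
    rw [Qn_succ, abs_mul, abs_of_nonneg f1]
    calc |Qn lam M x| * (1 - x ^ 2 / lam M ^ 2) ≤ 1 * 1 :=
          mul_le_mul ih (by linarith) f1 zero_le_one
      _ = 1 := one_mul 1

lemma Pn_tendsto {x : ℝ} (hx : 0 < x) :
    Tendsto (fun n => Pn n x) atTop (𝓝 (Real.sin (Real.pi * x) / (Real.pi * x))) := by
  have hpi := Real.pi_pos
  have h := (Real.tendsto_euler_sin_prod x).div_const (Real.pi * x)
  refine h.congr fun n => ?_
  unfold Pn Qn
  field_simp

lemma sin_ne {x : ℝ} (hx : 0 < x) (hx2 : ∀ j : ℕ, x ≠ (j : ℝ) + 1) : Real.sin (Real.pi * x) ≠ 0 := by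
  intro h
  rw [Real.sin_eq_zero_iff] at h
  obtain ⟨n, hn⟩ := h
  have hpi := Real.pi_pos
  have h1 : (n : ℝ) = x := by
    have : (n : ℝ) * Real.pi = x * Real.pi := by linarith
    exact mul_right_cancel₀ hpi.ne' this
  have h2 : 0 < n := by
    have : (0 : ℝ) < n := by rw [h1]; exact hx
    exact_mod_cast this
  obtain ⟨m, hm⟩ := Int.eq_ofNat_of_zero_le (show 0 ≤ n - 1 by omega)
  apply hx2 m
  rw [← h1]
  have : n = (m : ℤ) + 1 := by omega
  rw [this]
  push_cast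
  ring

lemma sin_le' {t : ℝ} (h0 : 0 ≤ t) (h1 : t ≤ 1) :
    |Real.sin (Real.pi * t)| ≤ 2 * Real.pi * (t * (1 - t)) := by
  have hpi := Real.pi_pos
  have a1 : |Real.sin (Real.pi * t)| ≤ Real.pi * t := by
    have := Real.abs_sin_le_abs (x := Real.pi * t)
    rwa [abs_of_nonneg (by positivity : 0 ≤ Real.pi * t)] at this
  have a2 : |Real.sin (Real.pi * t)| ≤ Real.pi * (1 - t) := by
    have e : Real.sin (Real.pi * t) = Real.sin (Real.pi * (1 - t)) := by
      rw [← Real.sin_pi_sub]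
      congr 1
      ring
    rw [e]
    have := Real.abs_sin_le_abs (x := Real.pi * (1 - t))
    rwa [abs_of_nonneg (mul_nonneg hpi.le (by linarith) : 0 ≤ Real.pi * (1 - t))] at this
  rcases le_or_gt t (1 / 2) with h | h
  · refine a1.trans ?_
    have : t ≤ 2 * (t * (1 - t)) := by nlinarith
    nlinarith
  · refine a2.trans ?_
    have : 1 - t ≤ 2 * (t * (1 - t)) := by nlinarith
    nlinarith

/-- bound for the limits -/
lemma lim_bd {lam : ℕ → ℝ} (h : Dis lam) {x h0 : ℝ} (hx : 0 < x)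
    (hx2 : ∀ j : ℕ, x ≠ (j : ℝ) + 1) (ht : Tendsto (fun n => Qn lam n x) atTop (𝓝 h0)) :
    |h0| ≤ 6 * (1 + x) := by
  have hpi := Real.pi_pos
  rcases le_or_gt x 1 with hx1 | hx1
  · have : |h0| ≤ 1 := le_of_tendsto' ht.abs fun n => Qn_unit h hx hx1 n
    linarith
  · -- `N + 1 < x < N + 2`
    obtain ⟨N, hN⟩ : ∃ N : ℕ, ⌊x⌋₊ = N + 1 := by
      have : 1 ≤ ⌊x⌋₊ := Nat.le_floor (by simpa using hx1.le)
      exact ⟨⌊x⌋₊ - 1, by omega⟩
    have hN1 : (N : ℝ) + 1 ≤ x := by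
      have := Nat.floor_le hx.le
      rw [hN] at this
      push_cast at this
      exact this
    have hN2 : x < (N : ℝ) + 2 := by
      have := Nat.lt_floor_add_one x
      rw [hN] at this
      push_cast at this
      linarith
    have hN1' : (N : ℝ) + 1 < x := lt_of_le_of_ne hN1 (hx2 N).symm
    have hNn : (0 : ℝ) ≤ N := Nat.cast_nonneg N
    have ht1 : Tendsto (fun M => Qn lam (N + 1 + M) x) atTop (𝓝 h0) := by
      have := ht.comp (tendsto_add_atTop_nat (N + 1))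
      refine this.congr fun M => ?_
      simp only [Function.comp]
      rw [add_comm]
    have ht2 : Tendsto (fun M => Pn (N + 2 + M) x) atTop
        (𝓝 (Real.sin (Real.pi * x) / (Real.pi * x))) := by
      have := (Pn_tendsto hx).comp (tendsto_add_atTop_nat (N + 2))
      refine this.congr fun M => ?_
      simp only [Function.comp]
      rw [add_comm]
    have h3 : |h0| * |Pn (N + 2) x| ≤
        3 * |Pn N x| * |Real.sin (Real.pi * x) / (Real.pi * x)| :=
      le_of_tendsto_of_tendsto' (ht1.abs.mul_const _) (ht2.abs.const_mul _)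
        (Qn_far h hN1 hN2.le)
    have hP := abs_pos.2 (Pn_ne hx hx2 N)
    have e1 : Pn (N + 2) x = Pn N x * (1 - x ^ 2 / ((N : ℝ) + 1) ^ 2) *
        (1 - x ^ 2 / ((N : ℝ) + 2) ^ 2) := by
      have a1 : Pn (N + 2) x = Pn (N + 1) x * (1 - x ^ 2 / (((N + 1 : ℕ) : ℝ) + 1) ^ 2) :=
        Qn_succ _ _ _
      have a2 : Pn (N + 1) x = Pn N x * (1 - x ^ 2 / ((N : ℝ) + 1) ^ 2) := Qn_succ _ _ _
      rw [a1, a2]
      congr 3
      push_cast
      ring
    rw [e1, abs_mul, abs_mul] at h3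
    have h4 : |h0| * (|1 - x ^ 2 / ((N : ℝ) + 1) ^ 2| * |1 - x ^ 2 / ((N : ℝ) + 2) ^ 2|) ≤
        3 * |Real.sin (Real.pi * x) / (Real.pi * x)| := by
      refine le_of_mul_le_mul_right ?_ hP
      linarith
    have e2 : |1 - x ^ 2 / ((N : ℝ) + 1) ^ 2| =
        (x - (N + 1)) * (x + (N + 1)) / ((N : ℝ) + 1) ^ 2 := by
      rw [abs_of_nonpos]
      · field_simp
        ring
      · rw [sub_nonpos, le_div_iff₀ (by positivity)]
        nlinarith
    have e3 : |1 - x ^ 2 / ((N : ℝ) + 2) ^ 2| =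
        ((N + 2) - x) * (x + (N + 2)) / ((N : ℝ) + 2) ^ 2 := by
      rw [abs_of_nonneg]
      · field_simp
        ring
      · rw [sub_nonneg, div_le_one (by positivity)]
        nlinarith
    have e4 : |Real.sin (Real.pi * x) / (Real.pi * x)| ≤
        2 * ((x - (N + 1)) * ((N + 2) - x)) / x := by
      have s1 : |Real.sin (Real.pi * x)| = |Real.sin (Real.pi * (x - (N + 1)))| := by
        have := Real.sin_sub_nat_mul_pi (Real.pi * x) (N + 1)
        have e5 : Real.pi * (x - (N + 1)) = Real.pi * x - ((N + 1 : ℕ) : ℝ) * Real.pi := by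
          push_cast
          ring
        rw [e5, this, abs_mul, abs_pow, abs_neg, abs_one, one_pow, one_mul]
      have s2 := sin_le' (t := x - (N + 1)) (by linarith) (by linarith)
      rw [abs_div, abs_of_pos (by positivity : 0 < Real.pi * x), s1, div_le_div_iff₀
        (by positivity) hx]
      have s3 : 1 - (x - ((N : ℝ) + 1)) = N + 2 - x := by ring
      rw [s3] at s2
      nlinarith
    set A : ℝ := (x - (N + 1)) * ((N + 2) - x) with hA
    have hA0 : 0 < A := mul_pos (by linarith) (by linarith)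
    have h5 : |h0| * ((x + (N + 1)) * (x + (N + 2)) * x) ≤
        6 * (((N : ℝ) + 1) ^ 2 * ((N : ℝ) + 2) ^ 2) := by
      rw [e2, e3] at h4
      have h6 : |h0| * ((x - (N + 1)) * (x + (N + 1)) / ((N : ℝ) + 1) ^ 2 *
          (((N + 2) - x) * (x + (N + 2)) / ((N : ℝ) + 2) ^ 2)) ≤ 3 * (2 * A / x) :=
        h4.trans (by gcongr)
      have h7 : |h0| * ((x - (N + 1)) * (x + (N + 1)) / ((N : ℝ) + 1) ^ 2 *
          (((N + 2) - x) * (x + (N + 2)) / ((N : ℝ) + 2) ^ 2)) =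
          A * (|h0| * ((x + (N + 1)) * (x + (N + 2)))) /
            (((N : ℝ) + 1) ^ 2 * ((N : ℝ) + 2) ^ 2) := by
        rw [hA]
        field_simp
      have h8 : 3 * (2 * A / x) = A * 6 / x := by ring
      rw [h7, h8, div_le_div_iff₀ (by positivity) hx] at h6
      refine le_of_mul_le_mul_left ?_ hA0
      calc A * (|h0| * ((x + (N + 1)) * (x + (N + 2)) * x)) =
          A * (|h0| * ((x + (N + 1)) * (x + (N + 2)))) * x := by ring
        _ ≤ A * 6 * (((N : ℝ) + 1) ^ 2 * ((N : ℝ) + 2) ^ 2) := h6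
        _ = _ := by ring
    have h9 : ((N : ℝ) + 1) ^ 2 * ((N : ℝ) + 2) ^ 2 ≤
        ((x + (N + 1)) * (x + (N + 2)) * x) * (1 + x) := by
      have b1 : ((N : ℝ) + 1) ^ 2 ≤ x * (x + (N + 1)) := by nlinarith
      have b2 : ((N : ℝ) + 2) ^ 2 ≤ (x + (N + 2)) * (1 + x) := by nlinarith
      calc ((N : ℝ) + 1) ^ 2 * ((N : ℝ) + 2) ^ 2 ≤ (x * (x + (N + 1))) *
            ((x + (N + 2)) * (1 + x)) := by gcongr
        _ = _ := by ring
    have hpos : 0 < (x + (N + 1)) * (x + (N + 2)) * x := by positivity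
    refine le_of_mul_le_mul_right ?_ hpos
    calc |h0| * ((x + (N + 1)) * (x + (N + 2)) * x) ≤
        6 * (((N : ℝ) + 1) ^ 2 * ((N : ℝ) + 2) ^ 2) := h5
      _ ≤ 6 * (((x + (N + 1)) * (x + (N + 2)) * x) * (1 + x)) := by gcongr
      _ = _ := by ring

/-- the limit -/
noncomputable def Ql (lam : ℕ → ℝ) (x : ℝ) : ℝ := ∏' j : ℕ, (1 - x ^ 2 / lam j ^ 2)

lemma Ql_tendsto {lam : ℕ → ℝ} (h : Dis lam) (x : ℝ) :
    Tendsto (fun n => Qn lam n x) atTop (𝓝 (Ql lam x)) := by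
  have hs : Summable fun j : ℕ => -(x ^ 2 / lam j ^ 2) := by
    refine Summable.neg ?_
    have h2 : Summable fun j : ℕ => x ^ 2 * (1 / ((j : ℝ) + 1) ^ 2) := by
      refine Summable.mul_left _ ?_
      have := (summable_nat_add_iff 1).2 (Real.summable_one_div_nat_pow.2 (by norm_num : 1 < 2))
      refine this.congr fun j => ?_
      push_cast
      ring
    refine Summable.of_nonneg_of_le (fun j => ?_) (fun j => ?_) h2
    · have := h.pos j
      positivity
    · have h1 := (h j).1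
      have h3 := h.pos j
      rw [mul_one_div]
      gcongr
  have hm : Multipliable fun j : ℕ => 1 - x ^ 2 / lam j ^ 2 := by
    have := Real.multipliable_one_add_of_summable hs
    refine this.congr fun j => ?_
    ring
  exact hm.hasProd.tendsto_prod_nat

lemma Ql_meas {lam : ℕ → ℝ} (h : Dis lam) : Measurable (Ql lam) := by
  refine measurable_of_tendsto_metrizable (f := fun n => Qn lam n) (fun n => ?_)
    (tendsto_pi_nhds.2 fun x => Ql_tendsto h x)
  unfold Qn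
  fun_prop

/-- the truncated functions -/
lemma trunc {lam : ℕ → ℝ} (h : Dis lam) (n : ℕ) : ∃ k : ℝ → ℝ, Continuous k ∧
    ∀ x : ℝ, 0 < x → (∀ j : ℕ, x ≠ (j : ℝ) + 1) →
      EX k 1 x = Real.sin (Real.pi * x) / (Real.pi * x) * (Qn lam n x / Pn n x) ∧
      |EX k 1 x| ≤ 6 * (1 + x) := by
  obtain ⟨b0, b, hb⟩ := frac lam (fun j => (h.pos j).ne') n
  refine ⟨kk b0 b n, kk_cont b0 b n, fun x hx hx2 => ?_⟩
  have e := EX_kk b0 b n hx hx2
  rw [← hb x hx hx2] at e
  refine ⟨e, ?_⟩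
  rw [e]
  -- the function is a limit of products
  set lam' : ℕ → ℝ := fun j => if j < n then lam j else (j : ℝ) + 1 with hlam'
  have hd : Dis lam' := by
    intro j
    simp only [hlam']
    split_ifs
    · exact h j
    · constructor <;> linarith
  refine lim_bd hd hx hx2 ?_
  have hP := Pn_ne hx hx2
  have hq : ∀ M : ℕ, Qn lam' (n + M) x = Pn (n + M) x * (Qn lam n x / Pn n x) := by
    intro M
    induction M with
    | zero =>
      simp only [add_zero]
      rw [mul_div_cancel₀ _ (hP n)]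
      unfold Qn
      refine Finset.prod_congr rfl fun j hj => ?_
      simp only [hlam', if_pos (Finset.mem_range.1 hj)]
    | succ M ih =>
      have e1 : Pn (n + (M + 1)) x = Pn (n + M) x * (1 - x ^ 2 / (((n + M : ℕ) : ℝ) + 1) ^ 2) :=
        Qn_succ _ _ _
      have e2 : Qn lam' (n + (M + 1)) x = Qn lam' (n + M) x * (1 - x ^ 2 / lam' (n + M) ^ 2) :=
        Qn_succ _ _ _
      have e3 : lam' (n + M) = ((n + M : ℕ) : ℝ) + 1 := by
        simp only [hlam']
        rw [if_neg (by omega)]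
      rw [e1, e2, ih, e3]
      ring
  have h1 : Tendsto (fun M => Qn lam' (n + M) x) atTop
      (𝓝 (Real.sin (Real.pi * x) / (Real.pi * x) * (Qn lam n x / Pn n x))) := by
    simp_rw [hq]
    refine Tendsto.mul_const _ ?_
    have := (Pn_tendsto hx).comp (tendsto_add_atTop_nat n)
    refine this.congr fun M => ?_
    simp only [Function.comp]
    rw [add_comm]
  refine (tendsto_add_atTop_iff_nat n).1 ?_
  refine h1.congr fun M => ?_
  rw [add_comm]

/-- convergence of the truncated functions -/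
lemma trunc_tendsto {lam : ℕ → ℝ} (h : Dis lam) {x : ℝ} (hx : 0 < x)
    (hx2 : ∀ j : ℕ, x ≠ (j : ℝ) + 1) :
    Tendsto (fun n => Real.sin (Real.pi * x) / (Real.pi * x) * (Qn lam n x / Pn n x)) atTop
      (𝓝 (Ql lam x)) := by
  have hpi := Real.pi_pos
  have hs : Real.sin (Real.pi * x) / (Real.pi * x) ≠ 0 :=
    div_ne_zero (sin_ne hx hx2) (by positivity)
  have h1 := ((Ql_tendsto h x).div (Pn_tendsto hx) hs).const_mul
    (Real.sin (Real.pi * x) / (Real.pi * x))
  rw [mul_div_cancel₀ _ hs] at h1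
  exact h1

/-- the limit does not vanish outside of a countable set -/
lemma Ql_ne {lam : ℕ → ℝ} (h : Dis lam) {x : ℝ} (hx : 0 < x)
    (hx2 : ∀ j : ℕ, x ≠ (j : ℝ) + 1) (hx3 : ∀ j : ℕ, x ≠ lam j) : Ql lam x ≠ 0 := by
  have hpi := Real.pi_pos
  have hs : Real.sin (Real.pi * x) / (Real.pi * x) ≠ 0 :=
    div_ne_zero (sin_ne hx hx2) (by positivity)
  obtain ⟨N, hN⟩ := exists_nat_ge x
  have hQ : Qn lam N x ≠ 0 := by
    unfold Qn
    rw [Finset.prod_ne_zero_iff]
    intro j _ hj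
    have h1 := h.pos j
    have h2 : x ^ 2 = lam j ^ 2 := by
      field_simp at hj
      linarith
    exact hx3 j ((pow_left_inj₀ hx.le h1.le (by norm_num)).1 h2)
  have key : ∀ M : ℕ, |Qn lam N x| * |Pn (N + M) x| ≤ |Qn lam (N + M) x| * |Pn N x| := by
    intro M
    induction M with
    | zero => simp
    | succ M ih =>
      have e1 : Pn (N + (M + 1)) x = Pn (N + M) x * (1 - x ^ 2 / (((N + M : ℕ) : ℝ) + 1) ^ 2) :=
        Qn_succ _ _ _
      have e2 : Qn lam (N + (M + 1)) x = Qn lam (N + M) x * (1 - x ^ 2 / lam (N + M) ^ 2) :=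
        Qn_succ _ _ _
      have hxx : x ≤ ((N + M : ℕ) : ℝ) + 1 := by
        push_cast
        have : (0 : ℝ) ≤ M := Nat.cast_nonneg M
        linarith
      obtain ⟨f1, f2, f3⟩ := fac_far h hx hxx
      have f0 : 0 ≤ 1 - x ^ 2 / (((N + M : ℕ) : ℝ) + 1) ^ 2 := by
        rw [sub_nonneg, div_le_one (by positivity)]
        exact pow_le_pow_left₀ hx.le hxx 2
      rw [e1, e2, abs_mul, abs_mul, abs_of_nonneg f1, abs_of_nonneg f0]
      calc |Qn lam N x| * (|Pn (N + M) x| * (1 - x ^ 2 / (((N + M : ℕ) : ℝ) + 1) ^ 2)) =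
          (|Qn lam N x| * |Pn (N + M) x|) * (1 - x ^ 2 / (((N + M : ℕ) : ℝ) + 1) ^ 2) := by ring
        _ ≤ (|Qn lam (N + M) x| * |Pn N x|) * (1 - x ^ 2 / lam (N + M) ^ 2) :=
            mul_le_mul ih f3 f0 (by positivity)
        _ = _ := by ring
  have ht1 : Tendsto (fun M => Pn (N + M) x) atTop
      (𝓝 (Real.sin (Real.pi * x) / (Real.pi * x))) := by
    have := (Pn_tendsto hx).comp (tendsto_add_atTop_nat N)
    refine this.congr fun M => ?_
    simp only [Function.comp]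
    rw [add_comm]
  have ht2 : Tendsto (fun M => Qn lam (N + M) x) atTop (𝓝 (Ql lam x)) := by
    have := (Ql_tendsto h x).comp (tendsto_add_atTop_nat N)
    refine this.congr fun M => ?_
    simp only [Function.comp]
    rw [add_comm]
  have h3 : |Qn lam N x| * |Real.sin (Real.pi * x) / (Real.pi * x)| ≤ |Ql lam x| * |Pn N x| :=
    le_of_tendsto_of_tendsto' (ht1.abs.const_mul _) (ht2.abs.mul_const _) key
  have h4 : 0 < |Qn lam N x| * |Real.sin (Real.pi * x) / (Real.pi * x)| :=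
    mul_pos (abs_pos.2 hQ) (abs_pos.2 hs)
  intro h5
  rw [h5, abs_zero, zero_mul] at h3
  linarith

/-- the sign of the limit -/
lemma Ql_sign {lam : ℕ → ℝ} (h : Dis lam) {x : ℝ} (hx : 0 < x) {N : ℕ} (hN : x ≤ (N : ℝ) + 1) :
    0 ≤ (-1) ^ ((Finset.range N).filter (fun j => lam j < x)).card * Ql lam x := by
  classical
  set c : ℕ := ((Finset.range N).filter (fun j => lam j < x)).card with hc
  have hfac : ∀ j, 0 ≤ (-1 : ℝ) ^ (if lam j < x then 1 else 0) * (1 - x ^ 2 / lam j ^ 2) := by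
    intro j
    have h1 := h.pos j
    split_ifs with hj
    · have : 1 ≤ x ^ 2 / lam j ^ 2 := by
        rw [le_div_iff₀ (by positivity), one_mul]
        exact pow_le_pow_left₀ h1.le hj.le 2
      rw [pow_one]
      linarith
    · push Not at hj
      have : x ^ 2 / lam j ^ 2 ≤ 1 := by
        rw [div_le_one (by positivity)]
        exact pow_le_pow_left₀ hx.le hj 2
      rw [pow_zero]
      linarith
  have hM : ∀ M : ℕ, 0 ≤ (-1) ^ c * Qn lam (N + M) x := by
    intro M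
    have e1 : (-1 : ℝ) ^ c * Qn lam (N + M) x = ∏ j ∈ Finset.range (N + M),
        ((-1 : ℝ) ^ (if lam j < x then 1 else 0) * (1 - x ^ 2 / lam j ^ 2)) := by
      rw [Finset.prod_mul_distrib, Finset.prod_pow_eq_pow_sum]
      congr 2
      rw [hc, Finset.card_filter]
      rw [Finset.sum_range_add]
      have : ∑ j ∈ Finset.range M, (if lam (N + j) < x then 1 else 0) = 0 := by
        refine Finset.sum_eq_zero fun j _ => if_neg ?_
        have h2 := (h (N + j)).1
        push_cast at h2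
        have : (0 : ℝ) ≤ j := Nat.cast_nonneg j
        linarith
      rw [this, add_zero]
    rw [e1]
    exact Finset.prod_nonneg fun j _ => hfac j
  have ht2 : Tendsto (fun M => Qn lam (N + M) x) atTop (𝓝 (Ql lam x)) := by
    have := (Ql_tendsto h x).comp (tendsto_add_atTop_nat N)
    refine this.congr fun M => ?_
    simp only [Function.comp]
    rw [add_comm]
  exact ge_of_tendsto' (ht2.const_mul _) hM

end Pool.Agent.N804
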