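import Pool.Agent.N804.Fil

set_option autoImplicit false

/-! # Windows of a fixed length -/

namespace Pool.Agent.N804

open Filter Topology Set MeasureTheory

/-- odd extension -/
noncomputable def od (G : ℝ → ℝ) (x : ℝ) : ℝ := if 0 < x then G x else if x < 0 then -G (-x) else 0

lemma od_pos {G : ℝ → ℝ} {x : ℝ} (hx : 0 < x) : od G x = G x := by
  unfold od
  rw [if_pos hx]

lemma od_odd (G : ℝ → ℝ) (x : ℝ) : od G (-x) = -od G x := by
  unfold od
  rcases lt_trichotomy x 0 with h | h | h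
  · rw [if_pos (by linarith : 0 < -x), if_neg (by linarith), if_pos h, neg_neg]
  · rw [h]
    simp
  · rw [if_neg (by linarith : ¬ 0 < -x), if_pos (by linarith : -x < 0), if_pos h, neg_neg]

lemma od_meas {G : ℝ → ℝ} (hG : Measurable G) : Measurable (od G) := by
  unfold od
  refine Measurable.ite measurableSet_Ioi hG ?_
  refine Measurable.ite measurableSet_Iio ?_ measurable_const
  exact (hG.comp measurable_neg).neg

lemma od_bd {G : ℝ → ℝ} {B : ℝ} (hB : 0 ≤ B) (hG : ∀ x, 0 ≤ x → |G x| ≤ B * (1 + x)) (x : ℝ) :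
    |od G x| ≤ B * (1 + |x|) := by
  unfold od
  split_ifs with h1 h2
  · rw [abs_of_pos h1]
    exact hG x h1.le
  · rw [abs_neg, abs_of_neg h2]
    exact hG (-x) (by linarith)
  · rw [abs_zero]
    positivity

/-- window of half-length `h` of the odd extension -/
noncomputable def Es (G : ℝ → ℝ) (h y : ℝ) : ℝ := od G (y + h) - od G (y - h)

lemma Es_even (G : ℝ → ℝ) (h y : ℝ) : Es G h (-y) = Es G h y := by
  unfold Es
  have e1 : -y + h = -(y - h) := by ring
  have e2 : -y - h = -(y + h) := by ring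
  rw [e1, e2, od_odd, od_odd]
  ring

lemma Es_meas {G : ℝ → ℝ} (hG : Measurable G) (h : ℝ) : Measurable (Es G h) := by
  have := od_meas hG
  unfold Es
  exact (this.comp (by fun_prop)).sub (this.comp (by fun_prop))

lemma Es_bd {G : ℝ → ℝ} {B : ℝ} (hB : 0 < B) (hG : ∀ x, 0 ≤ x → |G x| ≤ B * (1 + x)) (h : ℝ) :
    ∃ B' : ℝ, 0 < B' ∧ ∀ x, 0 ≤ x → |Es G h x| ≤ B' * (1 + x) := by
  refine ⟨2 * B * (1 + |h|), by positivity, fun x hx => ?_⟩
  have h1 := od_bd hB.le hG (x + h)
  have h2 := od_bd hB.le hG (x - h)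
  have h3 : |x + h| ≤ x + |h| := (abs_add_le x h).trans (by rw [abs_of_nonneg hx])
  have h4 : |x - h| ≤ x + |h| := (abs_sub x h).trans (by rw [abs_of_nonneg hx])
  unfold Es
  have h5 := abs_sub (od G (x + h)) (od G (x - h))
  have h6 := abs_nonneg h
  nlinarith [mul_nonneg hx h6, mul_nonneg hB.le hx, mul_nonneg hB.le h6,
    mul_nonneg hB.le (mul_nonneg hx h6)]

/-- even transforms of the basic weights -/
lemma basicE {κ : ℝ} (hκ : 0 < κ) (n : ℕ) : ∃ b : ℝ → ℝ, SC b ∧
    (∀ α, κ < |α| → b α = 0) ∧ ∀ x, CT b x = x ^ (2 * n) * gw κ hκ x := by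
  have hpi := Real.pi_pos
  have hit : ∀ n : ℕ, ∃ b : ℝ → ℝ, SC b ∧ (∀ α, κ < |α| → b α = 0) ∧
      ∀ x, CT b x = (2 * Real.pi * x) ^ (2 * n) * gw κ hκ x := by
    intro n
    induction n with
    | zero => exact ⟨B2 κ hκ, B2_SC hκ, fun α hα => B2_zero hκ hα, fun x => by simp [gw]⟩
    | succ n ih =>
      obtain ⟨b, hb, hs, hC⟩ := ih
      refine ⟨fun α => -deriv (deriv b) α, ⟨hb.deriv.deriv.sm.neg, ?_⟩, fun α hα => ?_,
        fun x => ?_⟩
      · have := hb.deriv.deriv.cs
        exact this.neg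
      · simp only []
        rw [deriv_supp (fun y hy => deriv_supp hs y hy) α hα, neg_zero]
      · have e : CT (fun α => -deriv (deriv b) α) x = -CT (deriv (deriv b)) x := by
          unfold CT
          rw [← integral_neg]
          congr 1
          funext α
          ring
        rw [e, CT_deriv hb.deriv, ST_deriv hb, hC]
        ring
  obtain ⟨b, hb, hs, hC⟩ := hit n
  refine ⟨fun α => ((2 * Real.pi) ^ (2 * n))⁻¹ * b α, ⟨contDiff_const.mul hb.sm, hb.cs.mul_left⟩,
    fun α hα => by simp only []; rw [hs α hα, mul_zero], fun x => ?_⟩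
  have e : CT (fun α => ((2 * Real.pi) ^ (2 * n))⁻¹ * b α) x =
      ((2 * Real.pi) ^ (2 * n))⁻¹ * CT b x := by
    unfold CT
    rw [← integral_const_mul]
    congr 1
    funext α
    ring
  have h0 : (2 * Real.pi) ^ (2 * n) ≠ 0 := by positivity
  rw [e, hC, mul_pow (2 * Real.pi) x, ← mul_assoc, ← mul_assoc, inv_mul_cancel₀ h0, one_mul]

lemma CT_shift {b : ℝ → ℝ} (H : SC b) (ξ x : ℝ) :
    CT (fun α => (b (α - ξ) + b (α + ξ)) / 2) x = CT b x * Real.cos (2 * Real.pi * ξ * x) := by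
  have i1 : ∀ η : ℝ, Integrable fun α : ℝ => b α * Real.cos (2 * Real.pi * (α + η) * x) := by
    intro η
    exact (H.cont.mul (by fun_prop)).integrable_of_hasCompactSupport H.cs.mul_right
  have e1 : ∀ η : ℝ, ∫ α : ℝ, b (α - η) * Real.cos (2 * Real.pi * α * x) =
      ∫ α : ℝ, b α * Real.cos (2 * Real.pi * (α + η) * x) := by
    intro η
    have := integral_sub_right_eq_self (μ := volume)
      (fun α : ℝ => b α * Real.cos (2 * Real.pi * (α + η) * x)) η
    rw [← this]
    congr 1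
    funext α
    rw [sub_add_cancel]
  have e2 : ∫ α : ℝ, b (α + ξ) * Real.cos (2 * Real.pi * α * x) =
      ∫ α : ℝ, b α * Real.cos (2 * Real.pi * (α + -ξ) * x) := by
    rw [← e1 (-ξ)]
    simp only [sub_neg_eq_add]
  have i3 : ∀ η : ℝ, Integrable fun α : ℝ => b (α - η) * Real.cos (2 * Real.pi * α * x) := by
    intro η
    have := (i1 η).comp_sub_right η
    refine this.congr (ae_of_all _ fun α => ?_)
    simp
  have i4 : Integrable fun α : ℝ => b (α + ξ) * Real.cos (2 * Real.pi * α * x) := by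
    have := i3 (-ξ)
    simpa only [sub_neg_eq_add] using this
  unfold CT
  have e3 : ∀ α : ℝ, (b (α - ξ) + b (α + ξ)) / 2 * Real.cos (2 * Real.pi * α * x) =
      (1 / 2) * (b (α - ξ) * Real.cos (2 * Real.pi * α * x) +
        b (α + ξ) * Real.cos (2 * Real.pi * α * x)) := fun α => by ring
  simp_rw [e3]
  rw [integral_const_mul, integral_add (i3 ξ) i4, e1 ξ, e2, ← integral_add (i1 ξ) (i1 (-ξ)),
    ← integral_mul_const, ← integral_const_mul]
  congr 1
  funext α
  have s1 : Real.cos (2 * Real.pi * (α + ξ) * x) =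
      Real.cos (2 * Real.pi * α * x) * Real.cos (2 * Real.pi * ξ * x) -
      Real.sin (2 * Real.pi * α * x) * Real.sin (2 * Real.pi * ξ * x) := by
    rw [← Real.cos_add]
    congr 1
    ring
  have s2 : Real.cos (2 * Real.pi * (α + -ξ) * x) =
      Real.cos (2 * Real.pi * α * x) * Real.cos (2 * Real.pi * ξ * x) +
      Real.sin (2 * Real.pi * α * x) * Real.sin (2 * Real.pi * ξ * x) := by
    rw [← Real.cos_sub]
    congr 1
    ring
  rw [s1, s2]
  ring

lemma shift_SC {b : ℝ → ℝ} (H : SC b) {κ : ℝ} (hs : ∀ α, κ < |α| → b α = 0) (ξ : ℝ) :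
    SC (fun α => (b (α - ξ) + b (α + ξ)) / 2) ∧
      ∀ α, κ + |ξ| < |α| → (b (α - ξ) + b (α + ξ)) / 2 = 0 := by
  have hz : ∀ x, κ + |ξ| < |x| → (b (x - ξ) + b (x + ξ)) / 2 = 0 := by
    intro x hx2
    have h1 : κ < |x - ξ| := by
      have := abs_sub_abs_le_abs_sub x ξ
      linarith
    have h2 : κ < |x + ξ| := by
      have := abs_sub_abs_le_abs_sub x (-ξ)
      rw [abs_neg, sub_neg_eq_add] at this
      linarith
    rw [hs _ h1, hs _ h2]
    simp
  refine ⟨⟨?_, ?_⟩, hz⟩
  · have h1 : ContDiff ℝ (⊤ : ℕ∞) fun α : ℝ => b (α - ξ) :=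
      H.sm.comp (contDiff_id.sub contDiff_const)
    have h2 : ContDiff ℝ (⊤ : ℕ∞) fun α : ℝ => b (α + ξ) :=
      H.sm.comp (contDiff_id.add contDiff_const)
    exact (h1.add h2).div_const 2
  · refine HasCompactSupport.intro (isCompact_Icc (a := -(κ + |ξ|)) (b := κ + |ξ|)) fun x hx => ?_
    have hx2 : κ + |ξ| < |x| := by
      by_contra hcon
      push Not at hcon
      exact hx (abs_le.1 hcon)
    exact hz x hx2

/-- rapid decay of transforms on the whole line -/
lemma CT_dec' {b : ℝ → ℝ} (H : SC b) (n : ℕ) : ∃ A : ℝ, 0 ≤ A ∧ ∀ x : ℝ, |x| ^ n * |CT b x| ≤ A := by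
  obtain ⟨A0, h0⟩ := CT_dec H 0
  obtain ⟨A1, h1⟩ := CT_dec H n
  have hA0 : 0 ≤ A0 := le_trans (by positivity) (h0 0)
  have hA1 : 0 ≤ A1 := by
    refine le_trans ?_ (h1 1)
    simp
  refine ⟨A0 + A1, by positivity, fun x => ?_⟩
  have e0 := h0 x
  have e1 := h1 x
  have hp : |x| ^ n ≤ 1 + x ^ (2 * n) := by
    have : x ^ (2 * n) = (|x| ^ n) ^ 2 := by rw [← pow_mul, mul_comm n 2, pow_mul, pow_mul, sq_abs]
    rw [this]
    nlinarith [sq_nonneg (|x| ^ n - 1), pow_nonneg (abs_nonneg x) n]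
  calc |x| ^ n * |CT b x| ≤ (1 + x ^ (2 * n)) * |CT b x| := by gcongr
    _ = x ^ (2 * 0) * |CT b x| + x ^ (2 * n) * |CT b x| := by ring
    _ ≤ _ := add_le_add e0 e1

/-- test functions from windows -/
theorem testw {b : ℝ → ℝ} {κ : ℝ} (hκ : 0 < κ) (H : SC b) (hs : ∀ α, κ < |α| → b α = 0) (h : ℝ) :
    ∃ r, Test (fun x => CT b (x - h) - CT b (x + h)) r κ ∧
      ∀ α, α * r α = Real.sin (2 * Real.pi * h * α) / Real.pi * b α := by
  have hpi := Real.pi_pos
  have hC := CT_cont H
  have hsm : ContDiff ℝ (⊤ : ℕ∞) fun α : ℝ => Real.sin (2 * Real.pi * h * α) / Real.pi := by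
    have := Real.contDiff_sin (n := (⊤ : ℕ∞))
    exact (this.comp (contDiff_const.mul contDiff_id)).div_const _
  refine mk_test' (k := fun α => Real.sin (2 * Real.pi * h * α) / Real.pi * b α)
    ⟨hsm.mul H.sm, H.cs.mul_left⟩ (by simp) (fun α hα => by rw [hs α hα, mul_zero])
    hκ (fun x => ?_) (by fun_prop) (fun n => ?_)
  · unfold CT ST
    have ic : ∀ y : ℝ, Integrable fun α : ℝ => b α * Real.cos (2 * Real.pi * α * y) :=
      fun y => H.int_cos y
    rw [← integral_sub (ic _) (ic _), ← integral_const_mul]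
    congr 1
    funext α
    have s1 : Real.cos (2 * Real.pi * α * (x - h)) =
        Real.cos (2 * Real.pi * α * x) * Real.cos (2 * Real.pi * h * α) +
        Real.sin (2 * Real.pi * α * x) * Real.sin (2 * Real.pi * h * α) := by
      rw [← Real.cos_sub]
      congr 1
      ring
    have s2 : Real.cos (2 * Real.pi * α * (x + h)) =
        Real.cos (2 * Real.pi * α * x) * Real.cos (2 * Real.pi * h * α) -
        Real.sin (2 * Real.pi * α * x) * Real.sin (2 * Real.pi * h * α) := by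
      rw [← Real.cos_add]
      congr 1
      ring
    rw [s1, s2]
    field_simp
    ring
  · obtain ⟨A0, hA0, h0⟩ := CT_dec' H 0
    obtain ⟨A1, hA1, h1⟩ := CT_dec' H n
    have key : ∀ x y : ℝ, 0 ≤ x → x ≤ |y| + |h| → x ^ n * |CT b y| ≤
        2 ^ n * (A1 + |h| ^ n * A0) := by
      intro x y hx hxy
      have e0 := h0 y
      have e1 := h1 y
      rw [pow_zero, one_mul] at e0
      have e2 : x ^ n ≤ 2 ^ n * (|y| ^ n + |h| ^ n) := by
        rcases le_total |y| |h| with h2 | h2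
        · calc x ^ n ≤ (2 * |h|) ^ n := pow_le_pow_left₀ hx (by linarith) n
            _ = 2 ^ n * |h| ^ n := by rw [mul_pow]
            _ ≤ 2 ^ n * (|y| ^ n + |h| ^ n) := by
              have : 0 ≤ |y| ^ n := by positivity
              gcongr
              linarith
        · calc x ^ n ≤ (2 * |y|) ^ n := pow_le_pow_left₀ hx (by linarith) n
            _ = 2 ^ n * |y| ^ n := by rw [mul_pow]
            _ ≤ 2 ^ n * (|y| ^ n + |h| ^ n) := by
              have : 0 ≤ |h| ^ n := by positivity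
              gcongr
              linarith
      calc x ^ n * |CT b y| ≤ 2 ^ n * (|y| ^ n + |h| ^ n) * |CT b y| := by gcongr
        _ = 2 ^ n * (|y| ^ n * |CT b y| + |h| ^ n * |CT b y|) := by ring
        _ ≤ _ := by gcongr
    refine ⟨2 ^ n * (A1 + |h| ^ n * A0) + 2 ^ n * (A1 + |h| ^ n * A0), fun x hx => ?_⟩
    have k1 := key x (x - h) hx (by
      have := abs_sub_abs_le_abs_sub x h
      rw [abs_of_nonneg hx] at this
      linarith)
    have k2 := key x (x + h) hx (by
      have := abs_sub_abs_le_abs_sub x (-h)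
      rw [abs_of_nonneg hx, abs_neg, sub_neg_eq_add] at this
      linarith)
    have k3 := abs_sub (CT b (x - h)) (CT b (x + h))
    calc x ^ n * |CT b (x - h) - CT b (x + h)| ≤ x ^ n * (|CT b (x - h)| + |CT b (x + h)|) := by
          gcongr
      _ = x ^ n * |CT b (x - h)| + x ^ n * |CT b (x + h)| := by ring
      _ ≤ _ := add_le_add k1 k2

/-- integrals against windows -/
lemma Es_int {G : ℝ → ℝ} (hGm : Measurable G) {B : ℝ} (hB : 0 < B)
    (hGB : ∀ x, 0 ≤ x → |G x| ≤ B * (1 + x)) {b : ℝ → ℝ} (H : SC b) (h : ℝ) :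
    ∫ y in Ioi (0 : ℝ), CT b y * Es G h y =
      ∫ x in Ioi (0 : ℝ), (CT b (x - h) - CT b (x + h)) * G x := by
  have hC := CT_cont H
  have hom := od_meas hGm
  have hce : ∀ y, CT b (-y) = CT b y := by
    intro y
    rw [← CT_even b (-y), abs_neg, CT_even]
  obtain ⟨A0, hA0, h0⟩ := CT_dec' H 0
  obtain ⟨A1, hA1, h1⟩ := CT_dec' H 1
  obtain ⟨A2, hA2, h2⟩ := CT_dec' H 2
  obtain ⟨A3, hA3, h3⟩ := CT_dec' H 3
  -- integrability of shifted products
  have hI : ∀ c : ℝ, Integrable fun y : ℝ => CT b y * od G (y + c) := by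
    intro c
    refine Integrable.mono' (integrable_inv_one_add_sq.const_mul
      (B * (1 + |c|) * (A0 + A1 + A2 + A3))) (hC.measurable.mul
        (hom.comp (by fun_prop))).aestronglyMeasurable (ae_of_all _ fun y => ?_)
    have k0 := h0 y
    have k1 := h1 y
    have k2 := h2 y
    have k3 := h3 y
    rw [pow_zero, one_mul] at k0
    rw [pow_one] at k1
    have k4 := od_bd hB.le hGB (y + c)
    have k5 : |y + c| ≤ |y| + |c| := abs_add_le y c
    have k6 : |od G (y + c)| ≤ B * (1 + |c|) * (1 + |y|) := by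
      refine k4.trans ?_
      have := abs_nonneg c
      have := abs_nonneg y
      nlinarith [mul_nonneg hB.le (mul_nonneg (abs_nonneg c) (abs_nonneg y))]
    rw [Real.norm_eq_abs, abs_mul, ← div_eq_mul_inv, le_div_iff₀ (by positivity)]
    have hy2 : y ^ 2 = |y| ^ 2 := (sq_abs y).symm
    rw [hy2]
    calc |CT b y| * |od G (y + c)| * (1 + |y| ^ 2) ≤
        |CT b y| * (B * (1 + |c|) * (1 + |y|)) * (1 + |y| ^ 2) := by gcongr
      _ = B * (1 + |c|) * (|CT b y| + |y| * |CT b y| + |y| ^ 2 * |CT b y| +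
          |y| ^ 3 * |CT b y|) := by ring
      _ ≤ _ := by gcongr
  have half : ∀ f : ℝ → ℝ, (∀ y, f (-y) = f y) → ∫ y : ℝ, f y = 2 * ∫ y in Ioi (0 : ℝ), f y := by
    intro f hf
    rw [← integral_comp_abs (f := f)]
    congr 1
    funext y
    rcases abs_choice y with h | h <;> rw [h]
    rw [hf]
  have hsh : ∀ c : ℝ, ∫ y : ℝ, CT b y * od G (y + c) = ∫ x : ℝ, CT b (x - c) * od G x := by
    intro c
    have := integral_add_right_eq_self (μ := volume) (fun x : ℝ => CT b (x - c) * od G x) c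
    rw [← this]
    congr 1
    funext y
    rw [add_sub_cancel_right]
  have hI2 : ∀ c : ℝ, Integrable fun x : ℝ => CT b (x - c) * od G x := by
    intro c
    have := (hI c).comp_sub_right c
    refine this.congr (ae_of_all _ fun x => ?_)
    simp
  have e1 : ∫ y : ℝ, CT b y * Es G h y = ∫ x : ℝ, (CT b (x - h) - CT b (x + h)) * od G x := by
    have a1 : ∫ y : ℝ, CT b y * Es G h y =
        (∫ y : ℝ, CT b y * od G (y + h)) - ∫ y : ℝ, CT b y * od G (y + -h) := by
      rw [← integral_sub (hI h) (hI (-h))]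
      congr 1
      funext y
      unfold Es
      rw [← sub_eq_add_neg]
      ring
    rw [a1, hsh, hsh, ← integral_sub (hI2 h) (hI2 (-h))]
    congr 1
    funext x
    rw [sub_neg_eq_add]
    ring
  have e2 := half (fun y => CT b y * Es G h y) (fun y => by rw [hce, Es_even])
  have e3 := half (fun x => (CT b (x - h) - CT b (x + h)) * od G x) (fun x => by
    have a1 : CT b (-x - h) = CT b (x + h) := by
      rw [← hce (x + h)]
      congr 1
      ring
    have a2 : CT b (-x + h) = CT b (x - h) := by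
      rw [← hce (x - h)]
      congr 1
      ring
    rw [a1, a2, od_odd]
    ring)
  have e4 : ∫ x in Ioi (0 : ℝ), (CT b (x - h) - CT b (x + h)) * od G x =
      ∫ x in Ioi (0 : ℝ), (CT b (x - h) - CT b (x + h)) * G x :=
    setIntegral_congr_fun measurableSet_Ioi fun x hx => by
      rw [od_pos hx]
  rw [e2, e3] at e1
  linarith

/-- the windows are orthogonal to the even weights -/
theorem Es_ann {Φ : ℝ → ℝ} {μ ν e : ℝ} (H : LO Φ μ ν e) (he : e = 0) (h : ℝ) {κ β : ℝ}
    (hκ : 0 < κ) (hβ : κ + β < 2 / 3) (n : ℕ) :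
    Ann (Es (Gd Φ μ) h) β (fun x => x ^ (2 * n + 0) * gw κ hκ x) := by
  obtain ⟨B, hB, hGB⟩ := Gd_bd H
  refine ⟨?_, fun m => ?_, fun ξ hξ => ?_⟩
  · have := gw_cont hκ
    fun_prop
  · obtain ⟨A, hA⟩ := gw_dec hκ (m + (2 * n + 0))
    refine ⟨A, fun x hx => le_trans (le_of_eq ?_) (hA x hx)⟩
    rw [abs_of_nonneg (mul_nonneg (pow_nonneg hx _) (gw_nonneg hκ x)), pow_add]
    ring
  · obtain ⟨b, hb, hs, hC⟩ := basicE hκ n
    obtain ⟨hb2, hs2⟩ := shift_SC hb hs ξ
    obtain ⟨r, W, -⟩ := testw (κ := κ + |ξ|) (by positivity) hb2 hs2 h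
    have h1 := H.id2 he (κ + |ξ|) (by positivity) (by linarith) _ r W
    have h2 := Es_int (Gd_meas H) hB hGB hb2 h
    have h3 : ∀ y, CT (fun α => (b (α - ξ) + b (α + ξ)) / 2) y =
        y ^ (2 * n) * gw κ hκ y * Real.cos (2 * Real.pi * ξ * y) := by
      intro y
      rw [CT_shift hb, hC]
    simp_rw [h3] at h2 h1
    rw [add_zero, h2]
    exact h1

end Pool.Agent.N804
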