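import Pool.Agent.N804.PattL

set_option autoImplicit false

/-! # The theorems along sequences of heights -/

namespace Pool.Agent.N804

open Filter Topology Set MeasureTheory
open H370 (Zf mult)

lemma bv_lim : Tendsto (fun T => BF T - vt T) atTop (𝓝 0) := by
  rw [Metric.tendsto_atTop]
  intro ε hε
  obtain ⟨T1, hT1, hb⟩ := bad_cmp (ε := ε / 3) (by positivity)
  refine ⟨T1, fun T hT => ?_⟩
  have h2 := hb T hT
  rw [Real.dist_eq, sub_zero]
  have : |BF T - vt T| ≤ ε / 3 := h2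
  linarith

lemma ov_lim : Tendsto (fun T => OF T - et T) atTop (𝓝 0) := by
  rw [Metric.tendsto_atTop]
  intro ε hε
  obtain ⟨T1, hT1, hb⟩ := off_cmp (ε := ε / 3) (by positivity)
  refine ⟨T1, fun T hT => ?_⟩
  have h2 := hb T hT
  rw [Real.dist_eq, sub_zero]
  linarith

lemma vt_of_BF' {l : Filter ℝ} (hl : l ≤ atTop) (h : Tendsto BF l (𝓝 0)) :
    Tendsto vt l (𝓝 0) := by
  have h1 := h.sub (bv_lim.mono_left hl)
  rw [sub_zero] at h1
  exact h1.congr fun T => by ring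

lemma BF_of_vt' {l : Filter ℝ} (hl : l ≤ atTop) (h : Tendsto vt l (𝓝 0)) :
    Tendsto BF l (𝓝 0) := by
  have h1 := h.add (bv_lim.mono_left hl)
  rw [zero_add] at h1
  exact h1.congr fun T => by ring

lemma et_of_OF' {l : Filter ℝ} (hl : l ≤ atTop) (h : Tendsto OF l (𝓝 0)) :
    Tendsto et l (𝓝 0) := by
  have h1 := h.sub (ov_lim.mono_left hl)
  rw [sub_zero] at h1
  exact h1.congr fun T => by ring

lemma OF_of_BF' {l : Filter ℝ} (hl : l ≤ atTop) (h : Tendsto BF l (𝓝 0)) :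
    Tendsto OF l (𝓝 0) := by
  refine squeeze_zero' ?_ ?_ h
  · filter_upwards [hl (eventually_gt_atTop 1)] with T hT
    exact div_nonneg (Noff_nonneg _) (XX_pos hT).le
  · filter_upwards [hl (eventually_gt_atTop 1)] with T hT
    unfold OF BF
    refine div_le_div_of_nonneg_right ?_ (XX_pos hT).le
    classical
    unfold Noff Nbad
    refine Finset.sum_le_sum_of_subset_of_nonneg ?_ (fun _ _ _ => Nat.cast_nonneg _)
    intro s hs
    rw [Finset.mem_filter] at hs ⊢
    exact ⟨hs.1, Or.inl hs.2⟩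

/-- the conclusion from a property of all limit objects -/
theorem of_limits' {l : Filter ℝ} [l.IsCountablyGenerated] (hl : l ≤ atTop)
    (h : ∀ T : ℕ → ℝ, Tendsto T atTop l → ∀ (Φ : ℝ → ℝ) (μ ν e : ℝ), LO Φ μ ν e →
      (∀ᵐ x, Tendsto (fun k => ct (T k) x) atTop (𝓝 (Φ x))) →
      Tendsto (fun k => mt (T k)) atTop (𝓝 μ) → Tendsto (fun k => vt (T k)) atTop (𝓝 ν) →
      Tendsto (fun k => et (T k)) atTop (𝓝 e) →
      μ = 1 ∧ ν = 0 ∧ ∀ x, 0 < x → Φ x = PP x) :
    (∀ a, 0 < a → Tendsto (fun T => CF T a) l (𝓝 (PP a))) ∧ Tendsto BF l (𝓝 0) := by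
  constructor
  · intro a ha
    refine tendsto_of_subseq_tendsto fun T hT => ?_
    have hTt : Tendsto T atTop atTop := hT.mono_right hl
    obtain ⟨ψ, hψ, Φ, μ, ν, e, H, h1, h2, h3, h4⟩ := extract hTt
    have hT' : Tendsto (fun k => T (ψ k)) atTop l := hT.comp hψ.tendsto_atTop
    obtain ⟨-, -, h7⟩ := h (fun k => T (ψ k)) hT' Φ μ ν e H h1 h2 h3 h4
    exact ⟨ψ, conv_CF (hT'.mono_right hl) h7 h1 ha⟩
  · refine BF_of_vt' hl (tendsto_of_subseq_tendsto fun T hT => ?_)
    have hTt : Tendsto T atTop atTop := hT.mono_right hl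
    obtain ⟨ψ, hψ, Φ, μ, ν, e, H, h1, h2, h3, h4⟩ := extract hTt
    have hT' : Tendsto (fun k => T (ψ k)) atTop l := hT.comp hψ.tendsto_atTop
    obtain ⟨-, h6, -⟩ := h (fun k => T (ψ k)) hT' Φ μ ν e H h1 h2 h3 h4
    rw [h6] at h3
    exact ⟨ψ, h3⟩

/-- bounds for the limit from lower bounds for the counts -/
lemma low_lim {T : ℕ → ℝ} (hT : Tendsto T atTop atTop) {Φ : ℝ → ℝ} {x m : ℝ} (hx : 0 < x)
    (hc : Tendsto (fun k => ct (T k) x) atTop (𝓝 (Φ x)))
    (h : ∀ ε : ℝ, 0 < ε → ∀ᶠ k in atTop, m - ε ≤ CF (T k) x) : m ≤ Φ x := by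
  refine le_of_forall_pos_le_add fun ε hε => ?_
  obtain ⟨T1, hT1, hle⟩ := CF_le hx.le (ε := ε / 2) (by positivity)
  have h1 : m - ε ≤ Φ x := by
    refine ge_of_tendsto hc ?_
    filter_upwards [hT.eventually_ge_atTop T1, h (ε / 2) (by positivity)] with k hk h2
    have h3 := hle (T k) hk
    linarith
  linarith

/-- bounds for the limit from upper bounds for the counts -/
lemma upp_lim {T : ℕ → ℝ} (hT : Tendsto T atTop atTop) {Φ : ℝ → ℝ} {x : ℝ} (hx : 0 < x)
    (hc : Tendsto (fun k => ct (T k) x) atTop (𝓝 (Φ x))) {F : ℝ → ℝ}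
    (hF : ∀ ε : ℝ, 0 < ε → ∃ δ : ℝ, 0 < δ ∧ ∀ y, x ≤ y → y ≤ x + δ → F y ≤ F x + ε)
    {ρ : ℝ} (hρ : 0 < ρ)
    (h : ∀ y, x ≤ y → y ≤ x + ρ → ∀ ε : ℝ, 0 < ε → ∀ᶠ k in atTop, CF (T k) y ≤ F y + ε) :
    Φ x ≤ F x := by
  refine le_of_forall_pos_le_add fun ε hε => ?_
  obtain ⟨δ', hδ', hFδ⟩ := hF (ε / 3) (by positivity)
  set δ : ℝ := min δ' ρ with hδd
  have hδ : 0 < δ := lt_min hδ' hρ
  have hd1 : δ ≤ δ' := min_le_left _ _
  have hd2 : δ ≤ ρ := min_le_right _ _
  set y : ℝ := x + δ with hy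
  have hy0 : 0 < y := by rw [hy]; linarith
  set η : ℝ := δ / y with hη
  have hη0 : 0 < η := by positivity
  have hη1 : η < 1 := by
    rw [hη, div_lt_one hy0]
    linarith
  have hxy : (1 - η) * y = x := by
    rw [hη, hy]
    field_simp
    ring
  obtain ⟨T1, hT1, hge⟩ := CF_ge hy0.le hη0 hη1 (ε := ε / 3) (by positivity)
  have h4 := hFδ y (by linarith) (by linarith)
  refine le_of_tendsto hc ?_
  filter_upwards [hT.eventually_ge_atTop T1, h y (by linarith) (by linarith) (ε / 3)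
    (by positivity)] with k hk h2
  have h3 := hge (T k) hk
  rw [hxy] at h3
  linarith

/-- lower half at large distances -/
theorem lower_half' {l : Filter ℝ} [l.IsCountablyGenerated] (hl : l ≤ atTop) {K c R : ℝ}
    (hc : 0 < c)
    (h : ∀ a, R ≤ a → ∀ ε : ℝ, 0 < ε → ∀ᶠ T in l,
      PP a - K * Real.exp (-(c * a)) - ε ≤ CF T a) :
    (∀ a, 0 < a → Tendsto (fun T => CF T a) l (𝓝 (PP a))) ∧ Tendsto BF l (𝓝 0) := by
  refine of_limits' hl fun T hT Φ μ ν e H h1 _ _ _ => ?_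
  set K' : ℝ := |K| + |R| * Real.exp (c * |R|) with hK'
  refine limA H (K := K') hc ?_
  obtain ⟨B, hB, hbd⟩ := H.bd
  filter_upwards [h1] with x hx hx0
  have he := (Real.exp_pos (-(c * x))).le
  have hR1 : 0 ≤ |R| * Real.exp (c * |R|) := by positivity
  rcases le_or_gt R x with hRx | hRx
  · have h2 := low_lim (hT.mono_right hl) hx0 hx (m := PP x - K * Real.exp (-(c * x)))
      fun ε hε => hT.eventually (h x hRx ε hε)
    have h3 : K * Real.exp (-(c * x)) ≤ K' * Real.exp (-(c * x)) := by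
      have := le_abs_self K
      gcongr
      linarith
    linarith
  · have h2 := (hbd x hx0.le).1
    have h3 := PP_le hx0.le
    have h4 : |R| ≤ K' * Real.exp (-(c * x)) := by
      have h5 : 1 ≤ Real.exp (c * |R|) * Real.exp (-(c * x)) := by
        rw [← Real.exp_add]
        refine Real.one_le_exp ?_
        have := le_abs_self R
        nlinarith
      have h6 : 0 ≤ |K| * Real.exp (-(c * x)) := by positivity
      calc |R| = |R| * 1 := (mul_one _).symm
        _ ≤ |R| * (Real.exp (c * |R|) * Real.exp (-(c * x))) := by gcongr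
        _ ≤ K' * Real.exp (-(c * x)) := by rw [hK']; nlinarith
    have h7 := le_abs_self R
    linarith

/-- one of the two halves at each large distance, chosen by a sign pattern -/
theorem pattern_half' {l : Filter ℝ} [l.IsCountablyGenerated] (hl : l ≤ atTop) {Λ : Set ℝ}
    {d C : ℝ} (hd : d < 4 / 3) (hΛ : Dens Λ d C) {K c R : ℝ}
    (hc : 0 < c) (hB : Tendsto BF l (𝓝 0))
    (h : ∀ a, R ≤ a → ∀ ε : ℝ, 0 < ε → ∀ᶠ T in l,
      -(K * Real.exp (-(c * a))) - ε ≤ (-1) ^ cn Λ a * (CF T a - PP a)) :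
    (∀ a, 0 < a → Tendsto (fun T => CF T a) l (𝓝 (PP a))) ∧ Tendsto BF l (𝓝 0) := by
  refine of_limits' hl fun T hTl Φ μ ν e H h1 _ h3 _ => ?_
  have hT : Tendsto T atTop atTop := hTl.mono_right hl
  have hν : ν = 0 := tendsto_nhds_unique h3 ((vt_of_BF' hl hB).comp hTl)
  have hμ := H.mu2 hν
  have he : e = 0 := by linarith [H.mu, H.e0, H.e1]
  refine finish H (limP H he hd hΛ (K := |K|) (R := max R 1) hc ?_)
  filter_upwards [h1] with x hx hRx
  have hR1 : R ≤ x := (le_max_left _ _).trans hRx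
  have hx0 : 0 < x := lt_of_lt_of_le one_pos ((le_max_right _ _).trans hRx)
  have hK : ∀ y : ℝ, K * Real.exp (-(c * y)) ≤ |K| * Real.exp (-(c * y)) := fun y =>
    mul_le_mul_of_nonneg_right (le_abs_self K) (Real.exp_pos _).le
  have hG : Gd Φ μ x = Φ x - PP x := by
    unfold Gd
    rw [hμ]
    ring
  rw [hG]
  rcases neg_one_pow_eq_or ℝ (cn Λ x) with hs | hs
  · rw [hs, one_mul]
    have h2 := low_lim hT hx0 hx (m := PP x - K * Real.exp (-(c * x))) (fun ε hε => by
      filter_upwards [hTl.eventually (h x hR1 ε hε)] with k hk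
      rw [hs, one_mul] at hk
      linarith)
    have := hK x
    linarith
  · rw [hs]
    obtain ⟨ρ, hρ, hcn⟩ := cn_right hΛ hx0
    have h2 := upp_lim hT hx0 hx (F := fun y => PP y + |K| * Real.exp (-(c * y))) (by
      intro ε hε
      refine ⟨ε, hε, fun y hy1 hy2 => ?_⟩
      have h4 := PP_lip hy1
      have h5 : Real.exp (-(c * y)) ≤ Real.exp (-(c * x)) := Real.exp_le_exp.2 (by nlinarith)
      have h6 : |K| * Real.exp (-(c * y)) ≤ |K| * Real.exp (-(c * x)) := by gcongr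
      linarith) hρ (by
      intro y hy1 hy2 ε hε
      filter_upwards [hTl.eventually (h y (hR1.trans hy1) ε hε)] with k h6
      rw [hcn y hy1 hy2, hs] at h6
      have := hK y
      linarith)
    linarith

end Pool.Agent.N804
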