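import Pool.Agent.N804.FWin
import Pool.Agent.N804.Fil

set_option autoImplicit false

/-! # The upper half for Montgomery's function -/

namespace Pool.Agent.N804

open Filter Topology Set MeasureTheory

/-- the basic bump -/
lemma gb_B2 : GB (B2 1 one_pos) where
  sc := B2_SC one_pos
  ev := B2_even one_pos
  nn x := by
    unfold B2
    exact integral_nonneg fun t => mul_nonneg (bp 1 one_pos).nonneg (bp 1 one_pos).nonneg
  pos := by
    have H := bp_SC (κ := 1) one_pos
    unfold B2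
    have e : ∀ t : ℝ, bp 1 one_pos t * bp 1 one_pos (0 - t) = bp 1 one_pos t ^ 2 := by
      intro t
      rw [zero_sub, bp_even, sq]
    simp_rw [e]
    refine (H.cont.pow 2).integral_pos_of_hasCompactSupport_nonneg_nonzero (x := 0) ?_ ?_ ?_
    · have : (fun t => bp 1 one_pos t ^ 2) = fun t => bp 1 one_pos t * bp 1 one_pos t := by
        funext t
        ring
      rw [this]
      exact H.cs.mul_left
    · intro t
      positivity
    · have : bp 1 one_pos 0 = 1 := by
        refine (bp 1 one_pos).one_of_mem_closedBall ?_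
        simp [bp]
      rw [this]
      norm_num

lemma CT_B2_nonneg (u : ℝ) : 0 ≤ CT (B2 1 one_pos) u := gw_nonneg one_pos u

lemma CT_B2_pos : 0 < CT (B2 1 one_pos) 0 := by
  have hg := gb_B2
  have e : CT (B2 1 one_pos) 0 = ∫ α : ℝ, B2 1 one_pos α := by
    unfold CT
    simp
  rw [e]
  exact hg.sc.cont.integral_pos_of_hasCompactSupport_nonneg_nonzero hg.sc.cs hg.nn hg.pos.ne'

/-- the far windows force `μ = 1` -/
theorem mu_one {T : ℕ → ℝ} {Φ : ℝ → ℝ} {μ ν e : ℝ} (h : LD T Φ μ ν e) {δ : ℝ} (hδ : 0 < δ)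
    (hδ1 : δ < 1) (hW : ∀ᵐ s, 1 - δ < s → UW T δ s) : μ = 1 ∧ ν = 0 ∧ e = 0 := by
  have hg := gb_B2
  obtain ⟨C, hC, hlow⟩ := RL_lower hg.sc CT_B2_nonneg hδ hδ1
  obtain ⟨m, hm⟩ := hg.sc.cont.bounded_above_of_compact_support hg.sc.cs
  have hm0 : 0 ≤ m := (norm_nonneg _).trans (hm 0)
  set G := Gd Φ μ with hG
  have hLG : LG G := h.lg
  set η : ℝ → ℝ := fun x => big (1 + δ) (by linarith) x with hη
  have Hη : SC η := big_SC _
  have hη0 : ∀ x, 0 ≤ η x := fun x => (big (1 + δ) (by linarith)).nonneg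
  set C₁ : ℝ := m * (mg η + 2 * DD G η) with hC₁
  have hRLm : ∀ L : ℝ, ∀ α, RL (B2 1 one_pos) δ L α ≤ m := by
    intro L α
    unfold RL Wn
    have h1 := intervalIntegral.norm_integral_le_of_norm_le_const (a := α + -(δ / 2))
      (b := α + δ / 2) (f := fun s => B2 1 one_pos (s / L)) (C := m) (fun s _ => hm _)
    have e1 : α + δ / 2 - (α + -(δ / 2)) = δ := by ring
    rw [e1, abs_of_pos hδ] at h1
    calc 1 / δ * ∫ s in (α + -(δ / 2))..(α + δ / 2), B2 1 one_pos (s / L) ≤
        1 / δ * (m * δ) := by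
          gcongr
          exact (le_abs_self _).trans h1
      _ = m := by field_simp
  have key : ∀ L : ℝ, 1 ≤ L → (μ - 1) * CT (B2 1 one_pos) 0 ≤ (|C₁| + C) / L := by
    intro L hL
    have hL0 : 0 < L := by linarith
    obtain ⟨r₁, Hr₁, hpos, hle, hzero, e1⟩ := decomp0 hLG hg hδ (a' := 1 - δ / 2) (a := 1)
      (by linarith) (by linarith) hL0
    have hw : DD G (Wn (-δ) 0 (wgt (B2 1 one_pos) δ L (1 - δ / 2) 1)) ≤ 0 := by
      refine win_cone h hδ (s₀ := 1 - δ) (by linarith) hW (wgt_SC hg.sc δ hL0 _ _) (fun s => ?_)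
        (a := 1 - δ / 2) (by linarith) (fun s hs => ?_)
      · unfold wgt
        have := hg.nn ((s + δ / 2) / L)
        have := sst_nonneg (1 - δ / 2) 1 s
        positivity
      · unfold wgt
        rw [sst_zero (by linarith) hs.le]
        ring
    have h2 := h.nonneg (r := fun x => m * η x - r₁ x) ((Hη.cmul m).sub Hr₁) (fun α => by
      by_cases hα : 1 + δ < |α|
      · show 0 ≤ m * η α - r₁ α
        rw [hzero α hα, sub_zero]
        exact mul_nonneg hm0 (hη0 α)
      · simp only [hη]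
        rw [big_one _ (not_lt.1 hα)]
        linarith [hle α, hRLm L α])
    rw [mg_sub (Hη.cmul m) Hr₁, mg_mul, ← hG, DD_sub hLG (Hη.cmul m) Hr₁, DD_mul] at h2
    have h3 := mg_nonneg hpos
    have h4 := hlow T Φ μ ν e h L hL
    rw [← hG, e1] at h4
    have h5 : (μ - 1) * L * CT (B2 1 one_pos) 0 ≤ |C₁| + C := by
      have h6 : C / L ≤ C := div_le_self hC.le hL
      have h7 := le_abs_self C₁
      linarith
    rw [le_div_iff₀ hL0]
    linarith
  have h1 := arch key
  have h2 := CT_B2_pos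
  have h3 : μ ≤ 1 := by
    by_contra hcon
    push Not at hcon
    have : 0 < (μ - 1) * CT (B2 1 one_pos) 0 := mul_pos (by linarith) h2
    linarith
  have := h.H.mu
  have := h.H.e0
  have := h.H.e1
  exact ⟨by linarith, by linarith, by linarith⟩

/-- the functional vanishes -/
theorem DD_zero {T : ℕ → ℝ} {Φ : ℝ → ℝ} {μ ν e : ℝ} (h : LD T Φ μ ν e) {δ : ℝ} (hδ : 0 < δ)
    (hδ1 : δ < 1) (hW : ∀ᵐ s, 1 - δ < s → UW T δ s) (r : ℝ → ℝ) (Hr : SC r) :
    DD (Gd Φ μ) r = 0 := by
  obtain ⟨hμ, hν, he⟩ := mu_one h hδ hδ1 hW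
  have hg := gb_B2
  obtain ⟨C, hC, hlow⟩ := RL_lower hg.sc CT_B2_nonneg hδ hδ1
  have hCH : CH (Gd Φ μ) δ ((1 - δ) / 8) (B2 1 one_pos) := by
    refine ⟨h.lg, ?_, ?_, ⟨C, fun L hL => ?_⟩, ?_⟩
    · intro κ₁ hκ₁ r Hr hs hpos
      exact h.up he (by linarith) (by linarith) hκ₁ Hr hs hpos
    · rintro ρ Hρ hρ ⟨a, ha, hz⟩
      refine win_cone h hδ (s₀ := (1 - δ) / 8) (by linarith) ?_ Hρ hρ ha hz
      have h0 : ∀ᵐ s : ℝ, s ≠ 1 - δ := by
        rw [ae_iff]
        simp
      filter_upwards [hW, h0] with s hs h0 hs2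
      rcases lt_trichotomy s (1 - δ) with h1 | h1 | h1
      · exact win_in h he hδ (by linarith) (by linarith)
      · exact absurd h1 h0
      · exact hs h1
    · have h1 := hlow T Φ μ ν e h L hL
      rw [hμ] at h1 ⊢
      have hL0 : 0 < L := by linarith
      have h2 : 0 ≤ C / L := by positivity
      have h3 : (1 - 1) * L * CT (B2 1 one_pos) 0 - C / L = -(C / L) := by ring
      rw [h3] at h1
      linarith
    · intro κ hκ r Hr hs
      have W := tw_test Hr (κ := max κ (1 / 2)) (lt_of_lt_of_le (by norm_num) (le_max_right _ _))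
        fun α hα => hs α (lt_of_le_of_lt (le_max_left _ _) hα)
      exact h.H.id2 he _ (lt_of_lt_of_le (by norm_num) (le_max_right _ _))
        (max_lt hκ (by norm_num)) _ r W
  exact all_zero hCH hg hδ (by linarith) (lam := (1 - δ) / 4) (κ₁ := (1 + δ) / 2) (by linarith)
    (by linarith) (by linarith) (by linarith) Hr

/-- from a vanishing functional to a dense set of zeros -/
lemma dz_of_DD {T : ℕ → ℝ} {Φ : ℝ → ℝ} {μ ν e : ℝ} (h : LD T Φ μ ν e)
    (hD : ∀ r : ℝ → ℝ, SC r → DD (Gd Φ μ) r = 0) : DZ (Gd Φ μ) := by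
  intro a b ha hab
  obtain ⟨y, hy, gy⟩ := ae_Ioo h.hg hab
  refine ⟨y, hy, van h.lg hD (lt_of_le_of_lt ha hy.1) ?_⟩
  unfold Gd
  exact (gy.2.sub PP_cont.continuousAt).add continuousAt_const

/-- **from the upper half for the windows of one length to the conjecture** -/
theorem F_to_Q {l : Filter ℝ} [l.IsCountablyGenerated] (hl : l ≤ atTop) {δ : ℝ} (hδ : 0 < δ)
    (hδ1 : δ < 1) (hW : ∀ᵐ s : ℝ, 1 - δ < s → ∀ ε : ℝ, 0 < ε → ∀ᶠ T in l,
      ∫ α in s..(s + δ), FT T α ≤ (∫ α in s..(s + δ), min |α| 1) + ε) :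
    (∀ a, 0 < a → Tendsto (fun T => CF T a) l (𝓝 (PP a))) ∧ Tendsto BF l (𝓝 0) := by
  refine of_limits' hl fun T hT Φ μ ν e H h1 h2 h3 h4 => ?_
  have h : LD T Φ μ ν e := ⟨hT.mono_right hl, H, GP_ae H.mono h1, h2, h4⟩
  have hW' : ∀ᵐ s, 1 - δ < s → UW T δ s := by
    filter_upwards [hW] with s hs hs1 ε hε
    exact hT.eventually (hs hs1 ε hε)
  exact finish H (dz_of_DD h (DD_zero h hδ hδ1 hW'))

/-- upper bumps -/
lemma bump_up {b c : ℝ} (hb : 0 < b) (hbc : b < c) {ε : ℝ} (hε : 0 < ε) : ∃ r : ℝ → ℝ, SC r ∧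
    (∀ x, 0 ≤ r x) ∧ (∀ x ∈ Icc b c, 1 ≤ r x) ∧ mg r ≤ (∫ α in b..c, min |α| 1) + ε := by
  obtain ⟨η, hη0, hη1, hη3⟩ : ∃ η : ℝ, 0 < η ∧ η < b / 2 ∧ 2 * η < ε := by
    refine ⟨min (b / 4) (ε / 4), lt_min (by positivity) (by positivity), ?_, ?_⟩
    · have := min_le_left (b / 4) (ε / 4)
      linarith
    · have := min_le_right (b / 4) (ε / 4)
      linarith
  set B : ContDiffBump ((b + c) / 2) := ⟨(c - b) / 2, (c - b) / 2 + η, by linarith, by linarith⟩ with hB
  have HB : SC B := ⟨B.contDiff, B.hasCompactSupport⟩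
  have hB0 : ∀ x, 0 ≤ B x := fun x => B.nonneg
  have hB1 : ∀ x ∈ Icc b c, B x = 1 := by
    intro x hx
    refine B.one_of_mem_closedBall ?_
    rw [Metric.mem_closedBall, Real.dist_eq, abs_le]
    simp only [hB]
    constructor <;> linarith [hx.1, hx.2]
  have hBz : ∀ x, (x ≤ b - η ∨ c + η ≤ x) → B x = 0 := by
    intro x hx
    refine B.zero_of_le_dist ?_
    rw [Real.dist_eq]
    simp only [hB]
    rcases hx with h | h
    · refine le_trans ?_ (neg_le_abs _)
      linarith
    · refine le_trans ?_ (le_abs_self _)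
      linarith
  refine ⟨B, HB, hB0, fun x hx => (hB1 x hx).ge, ?_⟩
  unfold mg
  rw [hBz 0 (Or.inl (by linarith)), zero_add]
  have hBc := HB.cont
  have hc : Continuous fun α : ℝ => min |α| 1 * B α := by fun_prop
  have e1 : ∫ α : ℝ, min |α| 1 * B α = ∫ α in (b - η)..(c + η), min |α| 1 * B α := by
    refine (intervalIntegral.integral_eq_integral_of_support_subset ?_).symm
    intro α hα
    by_contra hcon
    apply hα
    rw [mem_Ioc, not_and_or] at hcon
    show min |α| 1 * B α = 0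
    rcases hcon with h1 | h1
    · rw [hBz α (Or.inl (not_lt.1 h1)), mul_zero]
    · rw [hBz α (Or.inr (not_le.1 h1).le), mul_zero]
  rw [e1, ← intervalIntegral.integral_add_adjacent_intervals (b := c)
    (hc.intervalIntegrable _ _) (hc.intervalIntegrable _ _),
    ← intervalIntegral.integral_add_adjacent_intervals (b := b)
    (hc.intervalIntegrable _ _) (hc.intervalIntegrable _ _)]
  have hle1 : ∀ x : ℝ, min |x| 1 * B x ≤ 1 := by
    intro x
    have h1 : min |x| 1 ≤ 1 := min_le_right _ _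
    have h2 : B x ≤ 1 := B.le_one
    have h3 := hB0 x
    calc min |x| 1 * B x ≤ 1 * B x := by gcongr
      _ ≤ 1 := by linarith
  have t1 : ∫ α in (b - η)..b, min |α| 1 * B α ≤ η := by
    have h1 := intervalIntegral.integral_mono_on (show b - η ≤ b by linarith)
      (hc.intervalIntegrable (μ := volume) _ _) (intervalIntegrable_const (c := (1 : ℝ)))
      fun x _ => hle1 x
    rw [intervalIntegral.integral_const, smul_eq_mul] at h1
    linarith
  have t2 : ∫ α in c..(c + η), min |α| 1 * B α ≤ η := by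
    have h1 := intervalIntegral.integral_mono_on (show c ≤ c + η by linarith)
      (hc.intervalIntegrable (μ := volume) _ _) (intervalIntegrable_const (c := (1 : ℝ)))
      fun x _ => hle1 x
    rw [intervalIntegral.integral_const, smul_eq_mul] at h1
    linarith
  have t3 : ∫ α in b..c, min |α| 1 * B α = ∫ α in b..c, min |α| 1 := by
    refine intervalIntegral.integral_congr fun x hx => ?_
    rw [uIcc_of_le (by linarith)] at hx
    show min |x| 1 * B x = min |x| 1
    rw [hB1 x hx, mul_one]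
  rw [t3]
  linarith

/-- lower bumps -/
lemma bump_low {b c : ℝ} (hb : 0 < b) (hbc : b < c) {ε : ℝ} (hε : 0 < ε) : ∃ r : ℝ → ℝ, SC r ∧
    (∀ x, 0 ≤ r x) ∧ (∀ x, r x ≤ 1) ∧ (∀ x, x ≤ b → r x = 0) ∧ (∀ x, c ≤ x → r x = 0) ∧
    (∫ α in b..c, min |α| 1) - ε ≤ mg r := by
  obtain ⟨η, hη0, hη1, hη3⟩ : ∃ η : ℝ, 0 < η ∧ η < (c - b) / 2 ∧ 2 * η < ε := by
    refine ⟨min ((c - b) / 4) (ε / 4), lt_min (by linarith) (by positivity), ?_, ?_⟩
    · have := min_le_left ((c - b) / 4) (ε / 4)
      linarith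
    · have := min_le_right ((c - b) / 4) (ε / 4)
      linarith
  set B : ContDiffBump ((b + c) / 2) := ⟨(c - b) / 2 - η, (c - b) / 2, by linarith, by linarith⟩ with hB
  have HB : SC B := ⟨B.contDiff, B.hasCompactSupport⟩
  have hB0 : ∀ x, 0 ≤ B x := fun x => B.nonneg
  have hB1 : ∀ x ∈ Icc (b + η) (c - η), B x = 1 := by
    intro x hx
    refine B.one_of_mem_closedBall ?_
    rw [Metric.mem_closedBall, Real.dist_eq, abs_le]
    simp only [hB]
    constructor <;> linarith [hx.1, hx.2]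
  have hBz : ∀ x, (x ≤ b ∨ c ≤ x) → B x = 0 := by
    intro x hx
    refine B.zero_of_le_dist ?_
    rw [Real.dist_eq]
    simp only [hB]
    rcases hx with h | h
    · refine le_trans ?_ (neg_le_abs _)
      linarith
    · refine le_trans ?_ (le_abs_self _)
      linarith
  refine ⟨B, HB, hB0, fun x => B.le_one, fun x hx => hBz x (Or.inl hx), fun x hx => hBz x (Or.inr hx), ?_⟩
  unfold mg
  rw [hBz 0 (Or.inl (by linarith)), zero_add]
  have hBc := HB.cont
  have hc : Continuous fun α : ℝ => min |α| 1 * B α := by fun_prop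
  have e1 : ∫ α : ℝ, min |α| 1 * B α = ∫ α in b..c, min |α| 1 * B α := by
    refine (intervalIntegral.integral_eq_integral_of_support_subset ?_).symm
    intro α hα
    by_contra hcon
    apply hα
    rw [mem_Ioc, not_and_or] at hcon
    show min |α| 1 * B α = 0
    rcases hcon with h1 | h1
    · rw [hBz α (Or.inl (not_lt.1 h1)), mul_zero]
    · rw [hBz α (Or.inr (not_le.1 h1).le), mul_zero]
  rw [e1, ← intervalIntegral.integral_add_adjacent_intervals (b := c - η) (c := c)
    (hc.intervalIntegrable _ _) (hc.intervalIntegrable _ _),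
    ← intervalIntegral.integral_add_adjacent_intervals (b := b + η) (c := c - η)
    (hc.intervalIntegrable _ _) (hc.intervalIntegrable _ _),
    ← intervalIntegral.integral_add_adjacent_intervals (b := c - η) (c := c)
    (min_ii _ _) (min_ii _ _),
    ← intervalIntegral.integral_add_adjacent_intervals (b := b + η) (c := c - η)
    (min_ii _ _) (min_ii _ _)]
  have h0 : ∀ x : ℝ, 0 ≤ min |x| 1 * B x := fun x =>
    mul_nonneg (le_min (abs_nonneg _) zero_le_one) (hB0 x)
  have t1 : 0 ≤ ∫ α in b..(b + η), min |α| 1 * B α :=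
    intervalIntegral.integral_nonneg (by linarith) fun x _ => h0 x
  have t2 : 0 ≤ ∫ α in (c - η)..c, min |α| 1 * B α :=
    intervalIntegral.integral_nonneg (by linarith) fun x _ => h0 x
  have t3 : ∫ α in (b + η)..(c - η), min |α| 1 * B α = ∫ α in (b + η)..(c - η), min |α| 1 := by
    refine intervalIntegral.integral_congr fun x hx => ?_
    rw [uIcc_of_le (by linarith)] at hx
    show min |x| 1 * B x = min |x| 1
    rw [hB1 x hx, mul_one]
  have u1 : ∫ α in b..(b + η), min |α| 1 ≤ η := by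
    have h1 := intervalIntegral.integral_mono_on (show b ≤ b + η by linarith)
      (min_ii b (b + η)) (intervalIntegrable_const (c := (1 : ℝ)))
      fun x _ => min_le_right |x| 1
    rw [intervalIntegral.integral_const, smul_eq_mul] at h1
    linarith
  have u2 : ∫ α in (c - η)..c, min |α| 1 ≤ η := by
    have h1 := intervalIntegral.integral_mono_on (show c - η ≤ c by linarith)
      (min_ii (c - η) c) (intervalIntegrable_const (c := (1 : ℝ)))
      fun x _ => min_le_right |x| 1
    rw [intervalIntegral.integral_const, smul_eq_mul] at h1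
    linarith
  rw [t3]
  linarith

/-- **from the conjecture to the windows of Montgomery's function** -/
theorem Q_to_F {l : Filter ℝ} [l.IsCountablyGenerated] (hl : l ≤ atTop)
    (h : ∀ a, 0 < a → Tendsto (fun T => CF T a) l (𝓝 (PP a))) (hB : Tendsto BF l (𝓝 0)) {b c : ℝ}
    (hb : 0 < b) (hbc : b < c) :
    Tendsto (fun T => ∫ α in b..c, FT T α) l (𝓝 (∫ α in b..c, min |α| 1)) := by
  refine tendsto_of_subseq_tendsto fun T hT => ?_
  have hTt : Tendsto T atTop atTop := hT.mono_right hl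
  obtain ⟨ψ, hψ, Φ, μ, ν, e, H, h1, h2, h3, h4⟩ := extract hTt
  have hT' : Tendsto (fun k => T (ψ k)) atTop l := hT.comp hψ.tendsto_atTop
  have hT'' : Tendsto (fun k => T (ψ k)) atTop atTop := hT'.mono_right hl
  have h5 : LD (fun k => T (ψ k)) Φ μ ν e := ⟨hT'', H, GP_ae H.mono h1, h2, h4⟩
  -- ν = 0
  have hν : ν = 0 := tendsto_nhds_unique h3 ((vt_of_BF' hl hB).comp hT')
  have hμ : μ = 1 := H.mu2 hν
  have hΦ : ∀ᵐ x : ℝ, 0 < x → Gd Φ μ x = 0 := by
    filter_upwards [h5.hg] with x gx hx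
    have h6 := CF_conv hT'' h5.hg hx gx
    have h7 := tendsto_nhds_unique h6 ((h x hx).comp hT')
    unfold Gd
    rw [h7, hμ]
    ring
  have hD : ∀ r : ℝ → ℝ, DD (Gd Φ μ) r = 0 := by
    intro r
    unfold DD
    have e0 : ∫ x in Ioi (0 : ℝ), tw r x * Gd Φ μ x = ∫ x in Ioi (0 : ℝ), (0 : ℝ) := by
      refine setIntegral_congr_ae measurableSet_Ioi ?_
      filter_upwards [hΦ] with x hx hx0
      rw [hx hx0, mul_zero]
    rw [e0, integral_zero]
  refine ⟨ψ, tendsto_order.2 ⟨fun y hy => ?_, fun y hy => ?_⟩⟩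
  · set ε : ℝ := (∫ α in b..c, min |α| 1) - y with hε
    obtain ⟨r, Hr, hr0, hr1, hrb, hrc, hmg⟩ := bump_low hb hbc (show 0 < ε / 2 by rw [hε]; linarith)
    have hp := h5.pair Hr
    rw [hD r, mul_zero, add_zero] at hp
    filter_upwards [hp.eventually (lt_mem_nhds (show y < mg r by linarith)),
      hT''.eventually_ge_atTop 2] with k hk hk2
    refine hk.trans_le ?_
    have e1 : ∫ α : ℝ, r α * FT (T (ψ k)) α = ∫ α in b..c, r α * FT (T (ψ k)) α := by
      refine (intervalIntegral.integral_eq_integral_of_support_subset ?_).symm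
      intro α hα
      by_contra hcon
      apply hα
      rw [mem_Ioc, not_and_or] at hcon
      show r α * FT (T (ψ k)) α = 0
      rcases hcon with h6 | h6
      · rw [hrb α (not_lt.1 h6), zero_mul]
      · rw [hrc α (not_le.1 h6).le, zero_mul]
    rw [e1]
    refine intervalIntegral.integral_mono_on hbc.le
      ((Hr.cont.mul (FT_cont _)).intervalIntegrable _ _) (FT_ii _ _ _) fun α _ => ?_
    have h7 := FT_nonneg (T := T (ψ k)) (by linarith) α
    exact mul_le_of_le_one_left h7 (hr1 α)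
  · set ε : ℝ := y - (∫ α in b..c, min |α| 1) with hε
    obtain ⟨r, Hr, hr0, hr1, hmg⟩ := bump_up hb hbc (show 0 < ε / 2 by rw [hε]; linarith)
    have hp := h5.pair Hr
    rw [hD r, mul_zero, add_zero] at hp
    filter_upwards [hp.eventually (gt_mem_nhds (show mg r < y by linarith)),
      hT''.eventually_ge_atTop 2] with k hk hk2
    exact (win_le (by linarith) Hr hr0 hbc.le hr1).trans_lt hk

end Pool.Agent.N804
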