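import Pool.Agent.N804.SCT
import Pool.Agent.N804.Cell

set_option autoImplicit false

/-! # Montgomery's function of the ordinates -/

namespace Pool.Agent.N804

open Filter Topology Set MeasureTheory
open H370 (Zf mult mem_Zf good_zeta zset NN NN_eq)

/-- the weight of Montgomery's function -/
noncomputable def mw (u : ℝ) : ℝ := 4 / (4 + u ^ 2)

lemma mw_pos (u : ℝ) : 0 < mw u := by unfold mw; positivity

lemma mw_le (u : ℝ) : mw u ≤ 1 := by
  unfold mw
  rw [div_le_one (by positivity)]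
  nlinarith [sq_nonneg u]

lemma mw_sub (u : ℝ) : |1 - mw u| ≤ u ^ 2 / 4 := by
  have h : 1 - mw u = u ^ 2 / (4 + u ^ 2) := by
    unfold mw
    field_simp
    ring
  rw [h, abs_of_nonneg (by positivity)]
  apply div_le_div_of_nonneg_left (by positivity) (by norm_num)
  nlinarith [sq_nonneg u]

lemma mw_int (u : ℝ) : mw u = 2 * ∫ s in Ioi (0 : ℝ), Real.exp (-(2 * s)) * Real.cos (s * u) := by
  have hre : ((-2 : ℂ) + u * Complex.I).re < 0 := by simp
  have h1 := integral_exp_mul_complex_Ioi hre 0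
  have h2 := congrArg Complex.re h1
  have hi := integrableOn_exp_mul_complex_Ioi hre 0
  have h3 : (∫ x : ℝ in Ioi 0, Complex.exp ((-2 + u * Complex.I) * x)).re =
      ∫ x : ℝ in Ioi 0, (Complex.exp ((-2 + u * Complex.I) * x)).re := by
    have := integral_re (𝕜 := ℂ) hi
    simpa using this.symm
  rw [h3] at h2
  have h4 : ∀ x : ℝ, (Complex.exp ((-2 + u * Complex.I) * x)).re =
      Real.exp (-(2 * x)) * Real.cos (x * u) := by
    intro x
    rw [Complex.exp_re]
    congr 2
    · simp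
    · simp; ring
  simp_rw [h4] at h2
  rw [h2]
  have h5 : (-2 + u * Complex.I : ℂ) ≠ 0 := by
    intro h
    have := congrArg Complex.re h
    simp at this
  have h6 : (-Complex.exp ((-2 + (u : ℂ) * Complex.I) * ((0 : ℝ) : ℂ)) / (-2 + u * Complex.I)).re =
      2 / (4 + u ^ 2) := by
    rw [Complex.ofReal_zero, mul_zero, Complex.exp_zero, Complex.div_re]
    simp [Complex.normSq_apply]
    field_simp
    ring
  rw [h6]
  unfold mw
  ring

lemma sq_form {ι : Type*} (A : Finset ι) (m g : ι → ℝ) (t : ℝ) :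
    0 ≤ ∑ s ∈ A, ∑ s' ∈ A, m s * m s' * Real.cos (t * (g s - g s')) := by
  have h : ∑ s ∈ A, ∑ s' ∈ A, m s * m s' * Real.cos (t * (g s - g s')) =
      (∑ s ∈ A, m s * Real.cos (t * g s)) ^ 2 + (∑ s ∈ A, m s * Real.sin (t * g s)) ^ 2 := by
    rw [sq, sq, Finset.sum_mul_sum, Finset.sum_mul_sum, ← Finset.sum_add_distrib]
    refine Finset.sum_congr rfl fun s _ => ?_
    rw [← Finset.sum_add_distrib]
    refine Finset.sum_congr rfl fun s' _ => ?_
    rw [mul_sub, Real.cos_sub]
    ring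
  rw [h]
  positivity

lemma mw_pd {ι : Type*} (A : Finset ι) (m g : ι → ℝ) (t : ℝ) :
    0 ≤ ∑ s ∈ A, ∑ s' ∈ A, m s * m s' * (Real.cos (t * (g s - g s')) * mw (g s - g s')) := by
  have hint : ∀ u : ℝ, IntegrableOn (fun s : ℝ => Real.exp (-(2 * s)) * Real.cos (s * u)) (Ioi 0) := by
    intro u
    have h1 : IntegrableOn (fun s : ℝ => Real.exp (-(2 * s))) (Ioi 0) := by
      have := integrableOn_exp_mul_Ioi (a := -2) (by norm_num) 0
      refine this.congr_fun (fun s _ => ?_) measurableSet_Ioi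
      simp only
      congr 1
      ring
    refine Integrable.mul_bdd (c := 1) h1 (by fun_prop) (ae_of_all _ fun s => ?_)
    rw [Real.norm_eq_abs]
    exact Real.abs_cos_le_one _
  have h : ∑ s ∈ A, ∑ s' ∈ A, m s * m s' * (Real.cos (t * (g s - g s')) * mw (g s - g s')) =
      ∫ x in Ioi (0 : ℝ), Real.exp (-(2 * x)) *
        ((∑ s ∈ A, ∑ s' ∈ A, m s * m s' * Real.cos ((t + x) * (g s - g s'))) +
          ∑ s ∈ A, ∑ s' ∈ A, m s * m s' * Real.cos ((t - x) * (g s - g s'))) := by
    have e : ∀ x : ℝ, Real.exp (-(2 * x)) *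
        ((∑ s ∈ A, ∑ s' ∈ A, m s * m s' * Real.cos ((t + x) * (g s - g s'))) +
          ∑ s ∈ A, ∑ s' ∈ A, m s * m s' * Real.cos ((t - x) * (g s - g s'))) =
        ∑ s ∈ A, ∑ s' ∈ A, (m s * m s' * Real.cos (t * (g s - g s')) * 2) *
          (Real.exp (-(2 * x)) * Real.cos (x * (g s - g s'))) := by
      intro x
      rw [← Finset.sum_add_distrib, Finset.mul_sum]
      refine Finset.sum_congr rfl fun s _ => ?_
      rw [← Finset.sum_add_distrib, Finset.mul_sum]
      refine Finset.sum_congr rfl fun s' _ => ?_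
      rw [add_mul, sub_mul, Real.cos_add, Real.cos_sub]
      ring
    simp_rw [e]
    rw [integral_finsetSum _ fun s _ => ?_]
    · refine Finset.sum_congr rfl fun s _ => ?_
      rw [integral_finsetSum _ fun s' _ => ?_]
      · refine Finset.sum_congr rfl fun s' _ => ?_
        rw [integral_const_mul, mw_int]
        ring
      · exact (hint _).const_mul _
    · exact integrable_finsetSum _ fun s' _ => (hint _).const_mul _
  rw [h]
  refine setIntegral_nonneg measurableSet_Ioi fun x _ => ?_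
  exact mul_nonneg (Real.exp_pos _).le (add_nonneg (sq_form A m g _) (sq_form A m g _))

/-- a double sum over the zeros up to `T` -/
noncomputable def dsum (T : ℝ) (f : ℝ → ℝ) : ℝ :=
  ∑ s ∈ Zf riemannZeta 0 T, ∑ s' ∈ Zf riemannZeta 0 T,
    (mult riemannZeta s : ℝ) * (mult riemannZeta s' : ℝ) * f (s.im - s'.im)

lemma dsum_mono {T : ℝ} {f g : ℝ → ℝ} (h : ∀ d, f d ≤ g d) : dsum T f ≤ dsum T g := by
  unfold dsum
  refine Finset.sum_le_sum fun s _ => Finset.sum_le_sum fun s' _ => ?_
  exact mul_le_mul_of_nonneg_left (h _) (by positivity)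

lemma dsum_abs (T : ℝ) (f : ℝ → ℝ) : |dsum T f| ≤ dsum T (fun d => |f d|) := by
  unfold dsum
  refine (Finset.abs_sum_le_sum_abs _ _).trans (Finset.sum_le_sum fun s _ => ?_)
  refine (Finset.abs_sum_le_sum_abs _ _).trans (Finset.sum_le_sum fun s' _ => ?_)
  rw [abs_mul, abs_of_nonneg (by positivity : (0 : ℝ) ≤ (mult riemannZeta s : ℝ) *
    (mult riemannZeta s' : ℝ))]

lemma dsum_cmul (T c : ℝ) (f : ℝ → ℝ) : dsum T (fun d => c * f d) = c * dsum T f := by
  unfold dsum
  rw [Finset.mul_sum]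
  refine Finset.sum_congr rfl fun s _ => ?_
  rw [Finset.mul_sum]
  exact Finset.sum_congr rfl fun s' _ => by ring

lemma dsum_sub (T : ℝ) (f g : ℝ → ℝ) : dsum T (fun d => f d - g d) = dsum T f - dsum T g := by
  unfold dsum
  rw [← Finset.sum_sub_distrib]
  refine Finset.sum_congr rfl fun s _ => ?_
  rw [← Finset.sum_sub_distrib]
  exact Finset.sum_congr rfl fun s' _ => by ring

lemma dsum_add (T : ℝ) (f g : ℝ → ℝ) : dsum T (fun d => f d + g d) = dsum T f + dsum T g := by
  unfold dsum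
  rw [← Finset.sum_add_distrib]
  refine Finset.sum_congr rfl fun s _ => ?_
  rw [← Finset.sum_add_distrib]
  exact Finset.sum_congr rfl fun s' _ => by ring

/-- Montgomery's function of the ordinates -/
noncomputable def FT (T α : ℝ) : ℝ :=
  dsum T (fun d => Real.cos (α * Real.log T * d) * mw d) / XX T

lemma FT_even (T α : ℝ) : FT T (-α) = FT T α := by
  unfold FT
  congr 2
  funext d
  rw [show -α * Real.log T * d = -(α * Real.log T * d) by ring, Real.cos_neg]

lemma FT_nonneg {T : ℝ} (hT : 1 < T) (α : ℝ) : 0 ≤ FT T α :=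
  div_nonneg (mw_pd (Zf riemannZeta 0 T) (fun s => (mult riemannZeta s : ℝ)) (fun s => s.im)
    (α * Real.log T)) (XX_pos hT).le

lemma FT_cont (T : ℝ) : Continuous (FT T) := by
  unfold FT dsum
  fun_prop

lemma FT_pair (T : ℝ) {r : ℝ → ℝ} (hc : Continuous r) (hs : HasCompactSupport r) :
    ∫ α : ℝ, r α * FT T α =
      dsum T (fun d => CT r (d * Real.log T / (2 * Real.pi)) * mw d) / XX T := by
  have hpi := Real.pi_pos
  have e : ∀ α : ℝ, r α * FT T α = ∑ s ∈ Zf riemannZeta 0 T, ∑ s' ∈ Zf riemannZeta 0 T,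
      ((mult riemannZeta s : ℝ) * (mult riemannZeta s' : ℝ) * mw (s.im - s'.im) / XX T) *
        (r α * Real.cos (2 * Real.pi * α * ((s.im - s'.im) * Real.log T / (2 * Real.pi)))) := by
    intro α
    unfold FT dsum
    rw [Finset.sum_div, Finset.mul_sum]
    refine Finset.sum_congr rfl fun s _ => ?_
    rw [Finset.sum_div, Finset.mul_sum]
    refine Finset.sum_congr rfl fun s' _ => ?_
    have : 2 * Real.pi * α * ((s.im - s'.im) * Real.log T / (2 * Real.pi)) =
        α * Real.log T * (s.im - s'.im) := by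
      field_simp
    rw [this]
    ring
  have hi : ∀ y : ℝ, Integrable fun α : ℝ => r α * Real.cos (2 * Real.pi * α * y) := fun y =>
    (hc.mul (by fun_prop)).integrable_of_hasCompactSupport hs.mul_right
  simp_rw [e]
  rw [integral_finsetSum _ fun s _ => integrable_finsetSum _ fun s' _ => (hi _).const_mul _]
  unfold dsum
  rw [Finset.sum_div]
  refine Finset.sum_congr rfl fun s _ => ?_
  rw [integral_finsetSum _ fun s' _ => (hi _).const_mul _, Finset.sum_div]
  refine Finset.sum_congr rfl fun s' _ => ?_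
  rw [integral_const_mul]
  unfold CT
  ring

/-! ## sums over pairs and the counting function -/

lemma one_pairG {w g : ℝ → ℝ} (i0 : IntegrableOn w (Ioi 0)) (heq : ∀ u, g u = ∫ x in Ioi |u|, w x)
    {L : ℝ} (hL : 0 < L) (d m : ℝ) :
    IntegrableOn (fun x => w x * (if 0 < d ∧ d ≤ 2 * Real.pi * x / L then m else 0)) (Ioi 0) ∧
    ∫ x in Ioi (0 : ℝ), w x * (if 0 < d ∧ d ≤ 2 * Real.pi * x / L then m else 0) =
      if 0 < d then m * g (d * L / (2 * Real.pi)) else 0 := by
  have hpi := Real.pi_pos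
  by_cases hd : 0 < d
  · set y : ℝ := d * L / (2 * Real.pi) with hy
    have hy0 : 0 < y := by positivity
    have e : ∀ x ∈ Ioi (0 : ℝ), w x * (if 0 < d ∧ d ≤ 2 * Real.pi * x / L then m else 0) =
        (Ici y).indicator (fun x => m * w x) x := by
      intro x _
      by_cases h : y ≤ x
      · rw [indicator_of_mem (mem_Ici.2 h), if_pos]
        · ring
        · refine ⟨hd, ?_⟩
          rw [le_div_iff₀ hL]
          rw [hy, div_le_iff₀ (by positivity)] at h
          linarith
      · rw [indicator_of_notMem (by simpa using h), if_neg]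
        · ring
        · rintro ⟨_, h2⟩
          apply h
          rw [le_div_iff₀ hL] at h2
          rw [hy, div_le_iff₀ (by positivity)]
          linarith
    have hsub : Ici y ⊆ Ioi (0 : ℝ) := fun x hx => lt_of_lt_of_le hy0 hx
    have i1 : IntegrableOn (fun x => m * w x) (Ici y) := (i0.mono_set hsub).const_mul m
    constructor
    · refine IntegrableOn.congr_fun (f := (Ici y).indicator (fun x => m * w x)) ?_
        (fun x hx => (e x hx).symm) measurableSet_Ioi
      exact ((integrable_indicator_iff measurableSet_Ici).2 i1).integrableOn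
    · rw [setIntegral_congr_fun measurableSet_Ioi e, setIntegral_indicator measurableSet_Ici,
        inter_eq_self_of_subset_right hsub, integral_Ici_eq_integral_Ioi, if_pos hd,
        integral_const_mul, heq, abs_of_pos hy0]
  · have e : ∀ x, w x * (if 0 < d ∧ d ≤ 2 * Real.pi * x / L then m else 0) = 0 := by
      intro x
      rw [if_neg (fun h => hd h.1), mul_zero]
    simp only [e, if_neg hd]
    simp

theorem pair_intG {w g : ℝ → ℝ} (i0 : IntegrableOn w (Ioi 0)) (heq : ∀ u, g u = ∫ x in Ioi |u|, w x)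
    {L : ℝ} (hL : 0 < L) (S : Finset ℂ) :
    IntegrableOn (fun x => w x * Pc S (2 * Real.pi * x / L)) (Ioi 0) ∧
    ∑ s ∈ S, ∑ s' ∈ S, (mult riemannZeta s : ℝ) * (mult riemannZeta s' : ℝ) *
      g ((s.im - s'.im) * L / (2 * Real.pi)) =
    Pe S * g 0 + 2 * ∫ x in Ioi (0 : ℝ), w x * Pc S (2 * Real.pi * x / L) := by
  classical
  have hgev : ∀ u, g |u| = g u := fun u => by rw [heq, heq, abs_abs]
  set m : ℂ → ℝ := fun s => (mult riemannZeta s : ℝ) with hm
  have hexp : ∀ x : ℝ, w x * Pc S (2 * Real.pi * x / L) = ∑ s ∈ S, ∑ s' ∈ S,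
      w x * (if 0 < s.im - s'.im ∧ s.im - s'.im ≤ 2 * Real.pi * x / L then m s * m s' else 0) := by
    intro x
    unfold Pc
    rw [Finset.mul_sum]
    refine Finset.sum_congr rfl fun s _ => ?_
    rw [Finset.mul_sum]
  have hI : ∫ x in Ioi (0 : ℝ), w x * Pc S (2 * Real.pi * x / L) = ∑ s ∈ S, ∑ s' ∈ S,
      (if 0 < s.im - s'.im then m s * m s' * g ((s.im - s'.im) * L / (2 * Real.pi)) else 0) := by
    simp_rw [hexp]
    rw [integral_finsetSum _ fun s _ => integrable_finsetSum _ fun s' _ =>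
      (one_pairG i0 heq hL (s.im - s'.im) (m s * m s')).1]
    refine Finset.sum_congr rfl fun s _ => ?_
    rw [integral_finsetSum _ fun s' _ => (one_pairG i0 heq hL (s.im - s'.im) (m s * m s')).1]
    exact Finset.sum_congr rfl fun s' _ => (one_pairG i0 heq hL (s.im - s'.im) (m s * m s')).2
  refine ⟨?_, ?_⟩
  · simp_rw [hexp]
    exact integrable_finsetSum _ fun s _ => integrable_finsetSum _ fun s' _ =>
      (one_pairG i0 heq hL (s.im - s'.im) (m s * m s')).1
  · have hsymm : ∑ s ∈ S, ∑ s' ∈ S,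
        (if s.im - s'.im < 0 then m s * m s' * g ((s.im - s'.im) * L / (2 * Real.pi)) else 0) =
        ∑ s ∈ S, ∑ s' ∈ S,
        (if 0 < s.im - s'.im then m s * m s' * g ((s.im - s'.im) * L / (2 * Real.pi))
          else 0) := by
      rw [Finset.sum_comm]
      refine Finset.sum_congr rfl fun s _ => Finset.sum_congr rfl fun s' _ => ?_
      have e1 : g ((s'.im - s.im) * L / (2 * Real.pi)) =
          g ((s.im - s'.im) * L / (2 * Real.pi)) := by
        rw [← hgev, ← hgev ((s.im - s'.im) * L / (2 * Real.pi))]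
        congr 1
        rw [← abs_neg]
        congr 1
        ring
      rw [e1, mul_comm (m s') (m s)]
      by_cases h : 0 < s.im - s'.im
      · rw [if_pos h, if_pos (by linarith)]
      · rw [if_neg h, if_neg (by linarith)]
    have hall : ∀ s s' : ℂ, m s * m s' * g ((s.im - s'.im) * L / (2 * Real.pi)) =
        (if s.im = s'.im then m s * m s' else 0) * g 0 +
        ((if 0 < s.im - s'.im then m s * m s' * g ((s.im - s'.im) * L / (2 * Real.pi)) else 0) +
        (if s.im - s'.im < 0 then m s * m s' * g ((s.im - s'.im) * L / (2 * Real.pi))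
          else 0)) := by
      intro s s'
      rcases lt_trichotomy (s.im - s'.im) 0 with h | h | h
      · have hne : s.im ≠ s'.im := fun h2 => by linarith
        rw [if_neg hne, if_neg (by linarith), if_pos h]
        ring
      · have h2 : s.im = s'.im := by linarith
        rw [if_pos h2, if_neg (by linarith), if_neg (by linarith), h, zero_mul, zero_div]
        ring
      · have hne : s.im ≠ s'.im := fun h2 => by linarith
        rw [if_neg hne, if_pos h, if_neg (by linarith)]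
        ring
    rw [Finset.sum_congr rfl fun s _ => Finset.sum_congr rfl fun s' _ => hall s s']
    simp_rw [Finset.sum_add_distrib]
    rw [hsymm, ← hI]
    have e2 : Pe S * g 0 = ∑ s ∈ S, ∑ s' ∈ S,
        (if s.im = s'.im then m s * m s' else 0) * g 0 := by
      unfold Pe
      rw [Finset.sum_mul]
      refine Finset.sum_congr rfl fun s _ => ?_
      rw [Finset.sum_mul]
    rw [e2]
    ring

/-- the normalised number of pairs of equal ordinates up to `T` -/
noncomputable def MF' (T : ℝ) : ℝ := Pe (Zf riemannZeta 0 T) / XX T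

lemma dsum_eq {w g : ℝ → ℝ} (i0 : IntegrableOn w (Ioi 0)) (heq : ∀ u, g u = ∫ x in Ioi |u|, w x)
    {T : ℝ} (hT : 1 < T) :
    IntegrableOn (fun x => w x * CF T x) (Ioi 0) ∧
    dsum T (fun d => g (d * Real.log T / (2 * Real.pi))) / XX T =
      MF' T * g 0 + 2 * ∫ x in Ioi (0 : ℝ), w x * CF T x := by
  have hX := XX_pos hT
  obtain ⟨h1, h2⟩ := pair_intG i0 heq (Real.log_pos hT) (Zf riemannZeta 0 T)
  constructor
  · refine (h1.div_const (XX T)).congr (ae_of_all _ fun x => ?_)
    simp only [CF]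
    ring
  · have e : dsum T (fun d => g (d * Real.log T / (2 * Real.pi))) =
        Pe (Zf riemannZeta 0 T) * g 0 + 2 * ∫ x in Ioi (0 : ℝ),
          w x * Pc (Zf riemannZeta 0 T) (2 * Real.pi * x / Real.log T) := h2
    have e2 : ∫ x in Ioi (0 : ℝ), w x * CF T x = (∫ x in Ioi (0 : ℝ),
        w x * Pc (Zf riemannZeta 0 T) (2 * Real.pi * x / Real.log T)) / XX T := by
      rw [← integral_div]
      congr 1
      funext x
      simp only [CF]
      ring
    rw [e, e2]
    unfold MF'
    ring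

/-- bounds for the counting function up to `T`, uniform in the distance -/
theorem CF_bd : ∃ B T0 : ℝ, 0 < B ∧ 10 ≤ T0 ∧ ∀ T : ℝ, T0 ≤ T →
    MF' T ≤ B ∧ ∀ x : ℝ, 0 ≤ x → 0 ≤ CF T x ∧ CF T x ≤ B * (1 + x) := by
  obtain ⟨B, T1, hB, hT1, hp⟩ := ct_props
  obtain ⟨T2, hT2, h2⟩ := CF_le (a := 1) zero_le_one (ε := 1) one_pos
  obtain ⟨T3, hT3, h3⟩ := m_cmp (ε := 1) one_pos
  refine ⟨15 * (B + 1), max T1 (max T2 T3), by positivity, le_max_of_le_left hT1, fun T hT => ?_⟩
  have g1 : T1 ≤ T := (le_max_left _ _).trans hT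
  have g2 : T2 ≤ T := (le_max_left _ _).trans ((le_max_right _ _).trans hT)
  have g3 : T3 ≤ T := (le_max_right _ _).trans ((le_max_right _ _).trans hT)
  have hT10 : 10 ≤ T := hT1.trans g1
  have hX := XX_pos (show 1 < T by linarith)
  have hL : 0 < Real.log T := Real.log_pos (by linarith)
  have hpi := Real.pi_pos
  obtain ⟨-, p2, -, p4, -⟩ := hp T g1
  have h4 := h2 T g2
  have h5 := (p2 1 zero_le_one).2
  have h6 := abs_le.1 (h3 T g3)
  have hM : MF' T ≤ B + 1 := by
    unfold MF'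
    linarith [h6.2]
  have hC1 : CF T 1 ≤ 2 * B + 1 := by linarith
  have hstep : ∀ x : ℝ, CF T (x + 1) - CF T x ≤ 15 * (B + 1) := by
    intro x
    have h7 := Pc_loc (Zf riemannZeta 0 T) (h := 2 * Real.pi * 1 / Real.log T) (by positivity)
      (2 * Real.pi * x / Real.log T)
    have e2 : 2 * Real.pi * x / Real.log T + 2 * Real.pi * 1 / Real.log T =
        2 * Real.pi * (x + 1) / Real.log T := by ring
    rw [e2] at h7
    have h8 := div_le_div_of_nonneg_right h7 hX.le
    have h9 : CF T (x + 1) - CF T x ≤ 3 * (MF' T + 2 * CF T 1) := by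
      unfold CF MF'
      rw [← sub_div]
      refine h8.trans (le_of_eq ?_)
      ring
    linarith
  have hmono : ∀ x y : ℝ, x ≤ y → CF T x ≤ CF T y := by
    intro x y hxy
    unfold CF
    refine div_le_div_of_nonneg_right (Pc_mono _ ?_) hX.le
    gcongr
  have hCF0 : CF T 0 = 0 := by
    unfold CF
    rw [mul_zero, zero_div, Pc_neg _ le_rfl, zero_div]
  have hn : ∀ n : ℕ, CF T n ≤ n * (15 * (B + 1)) := by
    intro n
    induction n with
    | zero => simp [hCF0]
    | succ n ih =>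
      have h7 := hstep n
      push_cast
      linarith
  refine ⟨by linarith, fun x hx => ⟨?_, ?_⟩⟩
  · exact div_nonneg (Pc_nonneg _ _) hX.le
  · have h7 := hmono x ⌈x⌉₊ (Nat.le_ceil x)
    have h8 := hn ⌈x⌉₊
    have h9 : (⌈x⌉₊ : ℝ) ≤ 1 + x := by linarith [Nat.ceil_lt_add_one hx]
    calc CF T x ≤ ⌈x⌉₊ * (15 * (B + 1)) := h7.trans h8
      _ ≤ (1 + x) * (15 * (B + 1)) := by gcongr
      _ = _ := by ring

/-! ## the kernel `1 / (1 + y²)` -/

lemma ker_eq (u : ℝ) : 1 / (1 + u ^ 2) = ∫ x in Ioi |u|, 2 * x / (1 + x ^ 2) ^ 2 := by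
  have hder : ∀ x ∈ Ioi |u|, HasDerivAt (fun x : ℝ => -(1 / (1 + x ^ 2)))
      (2 * x / (1 + x ^ 2) ^ 2) x := by
    intro x _
    have h1 : HasDerivAt (fun x : ℝ => 1 + x ^ 2) (2 * x) x := by
      simpa using (hasDerivAt_pow 2 x).const_add 1
    have h2 := (h1.inv (by positivity)).neg
    simp only [one_div]
    refine h2.congr_deriv ?_
    ring
  have hlim : Tendsto (fun x : ℝ => -(1 / (1 + x ^ 2))) atTop (𝓝 0) := by
    have h1 : Tendsto (fun x : ℝ => 1 + x ^ 2) atTop atTop :=
      tendsto_atTop_add_const_left _ _ (tendsto_pow_atTop two_ne_zero)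
    have h2 := h1.inv_tendsto_atTop.neg
    simpa using h2
  have hcont : ContinuousWithinAt (fun x : ℝ => -(1 / (1 + x ^ 2))) (Ici |u|) |u| := by
    apply Continuous.continuousWithinAt
    exact (continuous_const.div (by fun_prop) fun x => by positivity).neg
  have e := integral_Ioi_of_hasDerivAt_of_nonneg hcont hder (fun x hx => by
    have : 0 < x := lt_of_le_of_lt (abs_nonneg u) hx
    positivity) hlim
  rw [e, sq_abs]
  ring

lemma ker_int (n : ℕ) (hn : n ≤ 1) :
    IntegrableOn (fun x : ℝ => x ^ n * (2 * x / (1 + x ^ 2) ^ 2)) (Ioi 0) := by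
  refine Integrable.mono' (integrable_inv_one_add_sq.const_mul 2).integrableOn ?_ ?_
  · apply Continuous.aestronglyMeasurable
    refine (continuous_pow n).mul ((continuous_const.mul continuous_id).div (by fun_prop)
      fun x => by positivity)
  · refine (ae_restrict_iff' measurableSet_Ioi).2 (ae_of_all _ fun x hx => ?_)
    have hx0 : (0 : ℝ) < x := hx
    rw [Real.norm_eq_abs, abs_of_nonneg (by positivity), ← div_eq_mul_inv, ← mul_div_assoc,
      div_le_div_iff₀ (by positivity) (by positivity)]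
    have h1 : x ^ n * (2 * x) ≤ 2 * (1 + x ^ 2) := by
      interval_cases n
      · rw [pow_zero, one_mul]
        nlinarith [sq_nonneg (x - 1)]
      · nlinarith [sq_nonneg x]
    calc x ^ n * (2 * x) * (1 + x ^ 2) ≤ 2 * (1 + x ^ 2) * (1 + x ^ 2) := by gcongr
      _ = _ := by ring

/-- the sum with the kernel is bounded -/
theorem ker_bd : ∃ B T0 : ℝ, 0 < B ∧ 10 ≤ T0 ∧ ∀ T : ℝ, T0 ≤ T →
    dsum T (fun d => 1 / (1 + (d * Real.log T / (2 * Real.pi)) ^ 2)) / XX T ≤ B := by
  obtain ⟨B, T0, hB, hT0, h⟩ := CF_bd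
  have i0 := ker_int 0 zero_le_one
  have i1 := ker_int 1 le_rfl
  simp only [pow_zero, one_mul, pow_one] at i0 i1
  set A : ℝ := ∫ x in Ioi (0 : ℝ), (2 * x / (1 + x ^ 2) ^ 2 + x * (2 * x / (1 + x ^ 2) ^ 2)) with hA
  have hA0 : 0 ≤ A := by
    refine setIntegral_nonneg measurableSet_Ioi fun x hx => ?_
    have : 0 < x := hx
    positivity
  refine ⟨B + 2 * (B * A), T0, by positivity, hT0, fun T hT => ?_⟩
  have hT10 : 10 ≤ T := hT0.trans hT
  obtain ⟨h1, h2⟩ := h T hT
  obtain ⟨j, e⟩ := dsum_eq (g := fun u => 1 / (1 + u ^ 2)) i0 ker_eq (show 1 < T by linarith)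
  rw [e]
  have h3 : ∫ x in Ioi (0 : ℝ), 2 * x / (1 + x ^ 2) ^ 2 * CF T x ≤ B * A := by
    rw [hA, ← integral_const_mul]
    refine setIntegral_mono_on j ((i0.add i1).const_mul B) measurableSet_Ioi fun x hx => ?_
    have hx0 : 0 < x := hx
    have h4 := (h2 x hx0.le).2
    calc 2 * x / (1 + x ^ 2) ^ 2 * CF T x ≤ 2 * x / (1 + x ^ 2) ^ 2 * (B * (1 + x)) := by gcongr
      _ = _ := by ring
  norm_num
  linarith

/-- removal of the weight -/
theorem FT_pair_close {r : ℝ → ℝ} (H : SC r) {ε : ℝ} (hε : 0 < ε) : ∃ T0 : ℝ, 10 ≤ T0 ∧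
    ∀ T : ℝ, T0 ≤ T → |(∫ α : ℝ, r α * FT T α) - (MF' T * CT r 0 +
      2 * ∫ x in Ioi (0 : ℝ), tw r x * CF T x)| ≤ ε := by
  have hpi := Real.pi_pos
  obtain ⟨B, T1, hB, hT1, hker⟩ := ker_bd
  obtain ⟨A, hA0, hA⟩ := CT_decp H 4
  obtain ⟨κ, hκ, hs⟩ := H.supp
  have W := tw_test H hκ hs
  set K : ℝ := Real.pi ^ 2 * A * B with hK
  have hK0 : 0 ≤ K := by positivity
  obtain ⟨T2, hT2⟩ := eventually_atTop.1
    (Real.tendsto_log_atTop.eventually_ge_atTop (max 1 (K / ε)))
  refine ⟨max T1 T2, le_max_of_le_left hT1, fun T hT => ?_⟩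
  have g1 : T1 ≤ T := (le_max_left _ _).trans hT
  have hL := hT2 T ((le_max_right _ _).trans hT)
  have hL1 : 1 ≤ Real.log T := (le_max_left _ _).trans hL
  have hLK : K / ε ≤ Real.log T := (le_max_right _ _).trans hL
  have hT10 : 10 ≤ T := hT1.trans g1
  have hX := XX_pos (show 1 < T by linarith)
  have hkT := hker T g1
  set L := Real.log T with hLd
  have hL0 : 0 < L := by linarith
  obtain ⟨-, e⟩ := dsum_eq (w := tw r) (g := CT r) (w_int W) W.eq (show 1 < T by linarith)
  rw [← e, FT_pair T H.cont H.cs, ← sub_div, ← dsum_sub, abs_div, abs_of_pos hX]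
  have hpt : ∀ d : ℝ, |CT r (d * L / (2 * Real.pi)) * mw d - CT r (d * L / (2 * Real.pi))| ≤
      Real.pi ^ 2 * A / L ^ 2 * (1 / (1 + (d * L / (2 * Real.pi)) ^ 2)) := by
    intro d
    set y := d * L / (2 * Real.pi) with hy
    have hd : d = 2 * Real.pi * y / L := by
      rw [hy]
      field_simp
    have e1 : CT r y * mw d - CT r y = -(CT r y * (1 - mw d)) := by ring
    rw [e1, abs_neg, abs_mul]
    have h1 := mw_sub d
    have h2 : d ^ 2 / 4 = Real.pi ^ 2 * y ^ 2 / L ^ 2 := by
      rw [hd]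
      field_simp
      ring
    rw [h2] at h1
    have h3 := hA y
    have h4 : y ^ 2 * (1 + y ^ 2) ≤ (1 + |y|) ^ 4 := by
      have ha := abs_nonneg y
      rw [← sq_abs y]
      nlinarith [mul_nonneg ha ha, mul_nonneg (mul_nonneg ha ha) ha,
        mul_nonneg (mul_nonneg ha ha) (mul_nonneg ha ha)]
    have h5 := abs_nonneg (CT r y)
    have h6 : |CT r y| * (y ^ 2 * (1 + y ^ 2)) ≤ A := by
      calc |CT r y| * (y ^ 2 * (1 + y ^ 2)) ≤ |CT r y| * (1 + |y|) ^ 4 := by gcongr
        _ = (1 + |y|) ^ 4 * |CT r y| := mul_comm _ _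
        _ ≤ A := h3
    calc |CT r y| * |1 - mw d| ≤ |CT r y| * (Real.pi ^ 2 * y ^ 2 / L ^ 2) := by gcongr
      _ = Real.pi ^ 2 / L ^ 2 * (|CT r y| * (y ^ 2 * (1 + y ^ 2))) * (1 / (1 + y ^ 2)) := by
          field_simp
      _ ≤ Real.pi ^ 2 / L ^ 2 * A * (1 / (1 + y ^ 2)) := by gcongr
      _ = _ := by ring
  have h1 : |dsum T (fun d => CT r (d * L / (2 * Real.pi)) * mw d -
      CT r (d * L / (2 * Real.pi)))| ≤ Real.pi ^ 2 * A / L ^ 2 *
        dsum T (fun d => 1 / (1 + (d * L / (2 * Real.pi)) ^ 2)) := by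
    refine (dsum_abs _ _).trans ?_
    rw [← dsum_cmul]
    exact dsum_mono hpt
  rw [div_le_iff₀ hX] at hkT ⊢
  refine h1.trans ?_
  have h2 : Real.pi ^ 2 * A / L ^ 2 * dsum T (fun d => 1 / (1 + (d * L / (2 * Real.pi)) ^ 2)) ≤
      Real.pi ^ 2 * A / L ^ 2 * (B * XX T) := by gcongr
  refine h2.trans ?_
  have h3 : K / L ^ 2 ≤ ε := by
    rw [div_le_iff₀ (by positivity)]
    rw [div_le_iff₀ hε] at hLK
    nlinarith
  calc Real.pi ^ 2 * A / L ^ 2 * (B * XX T) = K / L ^ 2 * XX T := by rw [hK]; ring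
    _ ≤ ε * XX T := by gcongr

end Pool.Agent.N804
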