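import Pool.Agent.N804.FEnd
import Pool.Agent.N804.AvgF

set_option autoImplicit false

/-! # Montgomery's function: from sums over pairs of zeros to finite sums -/

namespace Pool.Agent.N804

open Filter Topology Set MeasureTheory
open H370 (Zf mult mem_Zf good_zeta zset NN NN_eq)

theorem ft_eq (α T : ℝ) :
    (∑ᶠ p ∈ {p : ℂ × ℂ | p.1 ∈ ZZ ∧ p.2 ∈ ZZ ∧ 0 < p.1.im ∧ p.1.im ≤ T ∧ 0 < p.2.im ∧ p.2.im ≤ T},
      (analyticOrderNatAt riemannZeta p.1 : ℝ) * (analyticOrderNatAt riemannZeta p.2 : ℝ) *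
        (Real.cos (α * (p.1.im - p.2.im) * Real.log T) * (4 / (4 + (p.1.im - p.2.im) ^ 2)))) /
      (T * Real.log T / (2 * Real.pi)) = FT T α := by
  classical
  set S := Zf riemannZeta 0 T with hS
  have hset : {p : ℂ × ℂ | p.1 ∈ ZZ ∧ p.2 ∈ ZZ ∧ 0 < p.1.im ∧ p.1.im ≤ T ∧ 0 < p.2.im ∧
      p.2.im ≤ T} = ↑(S ×ˢ S) := by
    ext p
    simp only [Set.mem_ofPred_eq, Finset.coe_product, Set.mem_prod, Finset.mem_coe]
    rw [hS, mem_ZT, mem_ZT]
    constructor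
    · rintro ⟨a1, a2, a3, a4, a5, a6⟩
      exact ⟨⟨a1, a3, a4⟩, a2, a5, a6⟩
    · rintro ⟨⟨a1, a3, a4⟩, a2, a5, a6⟩
      exact ⟨a1, a2, a3, a4, a5, a6⟩
  rw [hset, finsum_mem_coe_finset, Finset.sum_product]
  unfold FT dsum XX
  congr 1
  refine Finset.sum_congr rfl fun s _ => Finset.sum_congr rfl fun s' _ => ?_
  unfold mw mult
  show _ = _ * (Real.cos (α * Real.log T * (s.im - s'.im)) * (4 / (4 + (s.im - s'.im) ^ 2)))
  rw [show α * Real.log T * (s.im - s'.im) = α * (s.im - s'.im) * Real.log T by ring]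

end Pool.Agent.N804
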