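import Pool.Agent.N804.Up

set_option autoImplicit false

/-! # Limits of the pairings with Montgomery's function -/

namespace Pool.Agent.N804

open Filter Topology Set MeasureTheory
open H370 (Zf mult mem_Zf good_zeta zset NN NN_eq)

/-- the conjectured value of the pairing -/
noncomputable def mg (r : ℝ → ℝ) : ℝ := r 0 + ∫ α : ℝ, min |α| 1 * r α

lemma mg_add {r s : ℝ → ℝ} (H : SC r) (H' : SC s) : mg (fun α => r α + s α) = mg r + mg s := by
  unfold mg
  have e : ∀ α : ℝ, min |α| 1 * (r α + s α) = min |α| 1 * r α + min |α| 1 * s α := fun α => by ring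
  simp_rw [e]
  rw [integral_add (sc_min_int H) (sc_min_int H')]
  ring

lemma mg_mul (c : ℝ) (r : ℝ → ℝ) : mg (fun α => c * r α) = c * mg r := by
  unfold mg
  have e : ∀ α : ℝ, min |α| 1 * (c * r α) = c * (min |α| 1 * r α) := fun α => by ring
  simp_rw [e]
  rw [integral_const_mul]
  ring

lemma mg_sub {r s : ℝ → ℝ} (H : SC r) (H' : SC s) : mg (fun α => r α - s α) = mg r - mg s := by
  have h := mg_add H (H'.cmul (-1))
  rw [mg_mul] at h
  have e : (fun α => r α + -1 * s α) = fun α => r α - s α := by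
    funext α
    ring
  rw [e] at h
  rw [h]
  ring

lemma mg_nonneg {r : ℝ → ℝ} (hr : ∀ α, 0 ≤ r α) : 0 ≤ mg r := by
  unfold mg
  refine add_nonneg (hr 0) (integral_nonneg fun α => ?_)
  have : 0 ≤ min |α| 1 := le_min (abs_nonneg _) zero_le_one
  exact mul_nonneg this (hr α)

/-- the limits of the pairings -/
theorem LD.pair {T : ℕ → ℝ} {Φ : ℝ → ℝ} {μ ν e : ℝ} (h : LD T Φ μ ν e) {r : ℝ → ℝ} (Hr : SC r) :
    Tendsto (fun k => ∫ α : ℝ, r α * FT (T k) α) atTop (𝓝 (mg r + 2 * DD (Gd Φ μ) r)) := by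
  obtain ⟨κ, hκ, hs⟩ := Hr.supp
  have W := tw_test Hr hκ hs
  obtain ⟨B, T0, hB, hT0, hbd⟩ := CF_bd
  have hint : Tendsto (fun k => ∫ x in Ioi (0 : ℝ), tw r x * CF (T k) x) atTop
      (𝓝 (∫ x in Ioi (0 : ℝ), tw r x * Φ x)) := by
    refine tendsto_integral_filter_of_dominated_convergence
      (fun x => B * (x ^ 1 * |tw r x|) + B * (x ^ 0 * |tw r x|)) ?_ ?_ ?_ ?_
    · filter_upwards [h.hT.eventually_ge_atTop 2] with k hk
      have hm : Monotone (CF (T k)) := fun x y hxy => CF_mono (by linarith) hxy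
      exact ((tw_cont Hr).measurable.mul hm.measurable).aestronglyMeasurable
    · filter_upwards [h.hT.eventually_ge_atTop T0] with k hk
      refine (ae_restrict_iff' measurableSet_Ioi).2 (ae_of_all _ fun x hx => ?_)
      have hx0 : 0 ≤ x := le_of_lt hx
      obtain ⟨c1, c2⟩ := (hbd (T k) hk).2 x hx0
      rw [Real.norm_eq_abs, abs_mul, abs_of_nonneg c1]
      calc |tw r x| * CF (T k) x ≤ |tw r x| * (B * (1 + x)) := by gcongr
        _ = _ := by ring
    · exact ((W.inta 1 le_rfl).const_mul _).add ((W.inta 0 le_rfl).const_mul _)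
    · refine (ae_restrict_iff' measurableSet_Ioi).2 ?_
      filter_upwards [h.hg] with x gx hx
      exact (CF_conv h.hT h.hg hx gx).const_mul _
  have h1 : Tendsto (fun k => MF' (T k) * CT r 0 + 2 * ∫ x in Ioi (0 : ℝ), tw r x * CF (T k) x)
      atTop (𝓝 (μ * CT r 0 + 2 * ∫ x in Ioi (0 : ℝ), tw r x * Φ x)) :=
    (h.mf.mul_const _).add (hint.const_mul 2)
  have h2 : Tendsto (fun k => (∫ α : ℝ, r α * FT (T k) α) -
      (MF' (T k) * CT r 0 + 2 * ∫ x in Ioi (0 : ℝ), tw r x * CF (T k) x)) atTop (𝓝 0) := by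
    rw [Metric.tendsto_nhds]
    intro ε hε
    obtain ⟨T1, hT1, hc⟩ := FT_pair_close Hr (show 0 < ε / 2 by positivity)
    filter_upwards [h.hT.eventually_ge_atTop T1] with k hk
    rw [Real.dist_eq, sub_zero]
    exact (hc _ hk).trans_lt (by linarith)
  have h3 := h2.add h1
  rw [zero_add] at h3
  have e1 : μ * CT r 0 + 2 * ∫ x in Ioi (0 : ℝ), tw r x * Φ x = mg r + 2 * DD (Gd Φ μ) r := by
    obtain ⟨B', hB', hΦ⟩ := h.H.bd
    have i0 := w_int W
    have iP := wP_int W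
    have iΦ : IntegrableOn (fun x => tw r x * Φ x) (Ioi 0) := by
      refine tw_int ⟨h.H.mono.measurable, B', hB'.le, fun x hx => ?_⟩ Hr
      rw [abs_of_nonneg (hΦ x hx).1]
      exact (hΦ x hx).2
    have hc0 : CT r 0 = ∫ x in Ioi (0 : ℝ), tw r x := by
      have := W.eq 0
      rwa [abs_zero] at this
    have hm := main_gen Hr
    have e2 : ∫ x in Ioi (0 : ℝ), tw r x * (1 + 2 * PP x) =
        (∫ x in Ioi (0 : ℝ), tw r x) + 2 * ∫ x in Ioi (0 : ℝ), tw r x * PP x := by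
      rw [← integral_const_mul, ← integral_add i0 (iP.const_mul 2)]
      congr 1
      funext x
      ring
    have e3 : DD (Gd Φ μ) r = (∫ x in Ioi (0 : ℝ), tw r x * Φ x) -
        (∫ x in Ioi (0 : ℝ), tw r x * PP x) + (μ - 1) / 2 * ∫ x in Ioi (0 : ℝ), tw r x := by
      unfold DD
      have i2 : IntegrableOn (fun x => tw r x * Φ x - tw r x * PP x) (Ioi 0) := iΦ.sub iP
      rw [← integral_const_mul, ← integral_sub iΦ iP, ← integral_add i2 (i0.const_mul _)]
      congr 1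
      funext x
      unfold Gd
      ring
    have e4 : mg r = (∫ x in Ioi (0 : ℝ), tw r x) + 2 * ∫ x in Ioi (0 : ℝ), tw r x * PP x := by
      rw [← e2, hm]
      rfl
    rw [e3, e4, hc0]
    ring
  rw [← e1]
  refine h3.congr fun k => ?_
  ring

/-- positivity of the limits -/
lemma LD.nonneg {T : ℕ → ℝ} {Φ : ℝ → ℝ} {μ ν e : ℝ} (h : LD T Φ μ ν e) {r : ℝ → ℝ} (Hr : SC r)
    (hr : ∀ α, 0 ≤ r α) : 0 ≤ mg r + 2 * DD (Gd Φ μ) r := by
  refine ge_of_tendsto (h.pair Hr) ?_
  filter_upwards [h.hT.eventually_ge_atTop 2] with k hk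
  exact integral_nonneg fun α => mul_nonneg (hr α) (FT_nonneg (by linarith) α)

lemma dsum_ge {T : ℝ} {f : ℝ → ℝ} (hf : ∀ d, 0 ≤ f d) :
    Pe (Zf riemannZeta 0 T) * f 0 ≤ dsum T f := by
  classical
  unfold Pe dsum
  rw [Finset.sum_mul]
  refine Finset.sum_le_sum fun s _ => ?_
  rw [Finset.sum_mul]
  refine Finset.sum_le_sum fun s' _ => ?_
  by_cases h : s.im = s'.im
  · rw [if_pos h, h, sub_self]
  · rw [if_neg h, zero_mul]
    exact mul_nonneg (by positivity) (hf _)

/-- the diagonal pairs give a lower bound -/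
theorem lim_lower : ∃ B : ℝ, 0 < B ∧ ∀ (T : ℕ → ℝ) (Φ : ℝ → ℝ) (μ ν e : ℝ), LD T Φ μ ν e →
    ∀ (R : ℝ → ℝ), SC R → ∀ a : ℝ, 0 ≤ a → (∀ y, -(a / (1 + y ^ 2)) ≤ CT R y) →
      μ * CT R 0 - a * B ≤ mg R + 2 * DD (Gd Φ μ) R := by
  obtain ⟨B, T0, hB, hT0, hk⟩ := ker_bd
  refine ⟨B, hB, fun T Φ μ ν e h R HR a ha hlow => ?_⟩
  obtain ⟨κ, hκ, hs⟩ := HR.supp
  have W := tw_test HR hκ hs
  -- the limit of the unweighted pairings
  have h1 : Tendsto (fun k => MF' (T k) * CT R 0 + 2 * ∫ x in Ioi (0 : ℝ), tw R x * CF (T k) x)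
      atTop (𝓝 (mg R + 2 * DD (Gd Φ μ) R)) := by
    have h2 : Tendsto (fun k => (∫ α : ℝ, R α * FT (T k) α) -
        (MF' (T k) * CT R 0 + 2 * ∫ x in Ioi (0 : ℝ), tw R x * CF (T k) x)) atTop (𝓝 0) := by
      rw [Metric.tendsto_nhds]
      intro ε hε
      obtain ⟨T1, hT1, hc⟩ := FT_pair_close HR (show 0 < ε / 2 by positivity)
      filter_upwards [h.hT.eventually_ge_atTop T1] with k hk
      rw [Real.dist_eq, sub_zero]
      exact (hc _ hk).trans_lt (by linarith)
    have h3 := (h.pair HR).sub h2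
    rw [sub_zero] at h3
    refine h3.congr fun k => ?_
    ring
  have h2 : Tendsto (fun k => MF' (T k) * CT R 0 - a * B) atTop (𝓝 (μ * CT R 0 - a * B)) :=
    (h.mf.mul_const _).sub_const _
  refine le_of_tendsto_of_tendsto h2 h1 ?_
  filter_upwards [h.hT.eventually_ge_atTop T0] with k hk2
  have hT10 : 10 ≤ T k := hT0.trans hk2
  have hX := XX_pos (show 1 < T k by linarith)
  have hkk := hk (T k) hk2
  obtain ⟨-, e⟩ := dsum_eq (w := tw R) (g := CT R) (w_int W) W.eq (show 1 < T k by linarith)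
  rw [← e]
  set L := Real.log (T k)
  have hf : ∀ d : ℝ, 0 ≤ CT R (d * L / (2 * Real.pi)) +
      a * (1 / (1 + (d * L / (2 * Real.pi)) ^ 2)) := by
    intro d
    have := hlow (d * L / (2 * Real.pi))
    rw [mul_one_div]
    linarith
  have h3 := dsum_ge (T := T k) hf
  rw [dsum_add, dsum_cmul] at h3
  have h4 : 0 ≤ Pe (Zf riemannZeta 0 (T k)) := Pe_nonneg _
  have e2 : CT R (0 * L / (2 * Real.pi)) + a * (1 / (1 + (0 * L / (2 * Real.pi)) ^ 2)) =
      CT R 0 + a := by
    rw [zero_mul, zero_div]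
    norm_num
  rw [e2] at h3
  have h5 : Pe (Zf riemannZeta 0 (T k)) * CT R 0 ≤ dsum (T k) (fun d => CT R (d * L / (2 * Real.pi))) +
      a * dsum (T k) (fun d => 1 / (1 + (d * L / (2 * Real.pi)) ^ 2)) := by
    have : 0 ≤ Pe (Zf riemannZeta 0 (T k)) * a := mul_nonneg h4 ha
    linarith
  rw [div_le_iff₀ hX] at hkk
  have h6 : a * dsum (T k) (fun d => 1 / (1 + (d * L / (2 * Real.pi)) ^ 2)) ≤
      a * (B * XX (T k)) := by gcongr
  rw [le_div_iff₀ hX]
  unfold MF'
  have e3 : (Pe (Zf riemannZeta 0 (T k)) / XX (T k) * CT R 0 - a * B) * XX (T k) =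
      Pe (Zf riemannZeta 0 (T k)) * CT R 0 - a * (B * XX (T k)) := by
    field_simp
  rw [e3]
  linarith

/-! ## the long averages -/

lemma pp_quad (u : ℝ) : |1 - Real.sinc (Real.pi * u) ^ 2| ≤ Real.pi ^ 2 / 3 * |u| ^ 2 := by
  have h0 : 0 ≤ 1 - Real.sinc (Real.pi * u) ^ 2 := pp_nonneg u
  rw [abs_of_nonneg h0]
  rcases lt_trichotomy u 0 with h | h | h
  · have h1 := pp_cubic (u := -u) (by linarith)
    have e : 1 - Real.sinc (Real.pi * -u) ^ 2 = 1 - Real.sinc (Real.pi * u) ^ 2 := by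
      have := pp_even u
      have h2 := pp_even (-u)
      rw [abs_neg] at h2
      exact h2.symm.trans this
    rw [e] at h1
    rw [sq_abs]
    linarith
  · rw [h]
    simp
  · have h1 := pp_cubic h
    rw [sq_abs]
    linarith

lemma CT_cmul (c : ℝ) (f : ℝ → ℝ) (u : ℝ) : CT (fun x => c * f x) u = c * CT f u := by
  unfold CT
  rw [← integral_const_mul]
  congr 1
  funext x
  ring

/-- the transform of the long averages -/
lemma CT_RL {g : ℝ → ℝ} (Hg : SC g) (δ : ℝ) {L : ℝ} (hL : 0 < L) (u : ℝ) :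
    CT (RL g δ L) u = (1 / δ) * (∫ t in (-(δ / 2))..(δ / 2), Real.cos (2 * Real.pi * t * u)) *
      (L * CT g (L * u)) := by
  have e : RL g δ L = fun x => (1 / δ) * Wn (-(δ / 2)) (δ / 2) (fun s => g (s / L)) x := rfl
  rw [e, CT_cmul, CT_Wn (scale_SC Hg hL), CT_scale hL]
  ring

lemma cos_win {δ : ℝ} (hδ : 0 < δ) (u : ℝ) :
    |(1 / δ) * ∫ t in (-(δ / 2))..(δ / 2), Real.cos (2 * Real.pi * t * u)| ≤ 1 ∧
    (|u| ≤ 1 / (2 * δ) → 0 ≤ (1 / δ) * ∫ t in (-(δ / 2))..(δ / 2), Real.cos (2 * Real.pi * t * u)) := by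
  have hpi := Real.pi_pos
  constructor
  · have h := intervalIntegral.norm_integral_le_of_norm_le_const (a := -(δ / 2)) (b := δ / 2)
      (f := fun t => Real.cos (2 * Real.pi * t * u)) (C := 1)
      (fun t _ => by rw [Real.norm_eq_abs]; exact Real.abs_cos_le_one _)
    rw [Real.norm_eq_abs, one_mul, sub_neg_eq_add, add_halves, abs_of_pos hδ] at h
    rw [abs_mul, abs_of_pos (by positivity : 0 < 1 / δ)]
    calc 1 / δ * |∫ t in (-(δ / 2))..(δ / 2), Real.cos (2 * Real.pi * t * u)| ≤ 1 / δ * δ := by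
          gcongr
      _ = 1 := by field_simp
  · intro hu
    refine mul_nonneg (by positivity) (intervalIntegral.integral_nonneg (by linarith) fun t ht => ?_)
    apply Real.cos_nonneg_of_mem_Icc
    have h1 : |2 * Real.pi * t * u| ≤ Real.pi / 2 := by
      rw [abs_mul, abs_mul, abs_of_pos (by positivity : 0 < 2 * Real.pi)]
      have ht' : |t| ≤ δ / 2 := abs_le.2 ⟨by linarith [ht.1], ht.2⟩
      calc 2 * Real.pi * |t| * |u| ≤ 2 * Real.pi * (δ / 2) * (1 / (2 * δ)) := by gcongr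
        _ = Real.pi / 2 := by field_simp
    exact ⟨by linarith [(abs_le.1 h1).1], (abs_le.1 h1).2⟩

/-- **the lower bound for the long averages** -/
theorem RL_lower {g : ℝ → ℝ} (Hg : SC g) (hg : ∀ u, 0 ≤ CT g u) {δ : ℝ} (hδ : 0 < δ) (hδ1 : δ < 1) :
    ∃ C : ℝ, 0 < C ∧ ∀ (T : ℕ → ℝ) (Φ : ℝ → ℝ) (μ ν e : ℝ), LD T Φ μ ν e → ∀ L : ℝ, 1 ≤ L →
      (μ - 1) * L * CT g 0 - C / L ≤ 2 * DD (Gd Φ μ) (RL g δ L) := by
  have hpi := Real.pi_pos
  obtain ⟨B, hB, hlow⟩ := lim_lower
  obtain ⟨A, hA0, hA⟩ := CT_decp Hg 4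
  have hI := CT_intp Hg 2
  set I : ℝ := ∫ v : ℝ, |v| ^ 2 * |CT g v| with hId
  have hI0 : 0 ≤ I := integral_nonneg fun v => by positivity
  refine ⟨20 * A * B + Real.pi ^ 2 / 3 * I + 1, by positivity, fun T Φ μ ν e h L hL => ?_⟩
  have hL0 : 0 < L := by linarith
  have HR := RL_SC Hg δ hL0
  have hCT := CT_RL Hg δ hL0
  have h0 : CT (RL g δ L) 0 = L * CT g 0 := by
    rw [hCT]
    simp only [mul_zero, Real.cos_zero]
    rw [intervalIntegral.integral_const, sub_neg_eq_add, add_halves, smul_eq_mul, mul_one]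
    field_simp
  have hbd : ∀ y, |CT (RL g δ L) y| ≤ L * |CT g (L * y)| := by
    intro y
    rw [hCT, abs_mul, abs_mul L, abs_of_pos hL0]
    have := (cos_win hδ y).1
    have h2 : 0 ≤ L * |CT g (L * y)| := by positivity
    calc _ ≤ 1 * (L * |CT g (L * y)|) := by gcongr
      _ = _ := one_mul _
  -- the lower bound for the transform
  have hlow1 : ∀ y, -(20 * A / L / (1 + y ^ 2)) ≤ CT (RL g δ L) y := by
    intro y
    by_cases hy : |y| ≤ 1 / (2 * δ)
    · have h1 := (cos_win hδ y).2 hy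
      have h2 : 0 ≤ CT (RL g δ L) y := by
        rw [hCT]
        exact mul_nonneg h1 (mul_nonneg hL0.le (hg _))
      have h3 : 0 ≤ 20 * A / L / (1 + y ^ 2) := by positivity
      linarith
    · push Not at hy
      have hy2 : 1 / 2 < |y| := by
        refine lt_of_le_of_lt ?_ hy
        rw [div_le_div_iff₀ (by norm_num) (by positivity)]
        linarith
      have h1 := hA (L * y)
      rw [abs_mul, abs_of_pos hL0] at h1
      have h2 : (L * |y|) ^ 4 * |CT g (L * y)| ≤ A := by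
        refine le_trans ?_ h1
        gcongr
        linarith
      have h3 : L * |CT g (L * y)| ≤ 20 * A / L / (1 + y ^ 2) := by
        rw [div_div, le_div_iff₀ (by positivity)]
        have hy0 : 0 < |y| := by linarith
        have h4 : (1 : ℝ) + y ^ 2 ≤ 20 * |y| ^ 4 := by
          rw [← sq_abs y]
          nlinarith [sq_nonneg (|y| - 1 / 2), mul_pos hy0 hy0, mul_pos (mul_pos hy0 hy0) hy0]
        have h5 : L ^ 2 ≤ L ^ 4 := pow_le_pow_right₀ hL (by norm_num)
        calc L * |CT g (L * y)| * (L * (1 + y ^ 2)) = L ^ 2 * (1 + y ^ 2) * |CT g (L * y)| := by ring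
          _ ≤ L ^ 4 * (20 * |y| ^ 4) * |CT g (L * y)| := by gcongr
          _ = 20 * ((L * |y|) ^ 4 * |CT g (L * y)|) := by ring
          _ ≤ 20 * A := by gcongr
      have h6 := (abs_le.1 ((hbd y).trans h3)).1
      exact h6
  have h1 := hlow T Φ μ ν e h _ HR (20 * A / L) (by positivity) hlow1
  -- the upper bound for the main term
  obtain ⟨κ, hκ, hs⟩ := HR.supp
  have W := tw_test HR hκ hs
  have hmg : mg (RL g δ L) ≤ L * CT g 0 + Real.pi ^ 2 / 3 * I / L := by
    have e1 : mg (RL g δ L) = CT (RL g δ L) 0 +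
        ∫ u : ℝ, CT (RL g δ L) u * (1 - Real.sinc (Real.pi * u) ^ 2) := by
      rw [main_int W, main_gen HR]
      rfl
    rw [e1, h0]
    have hint : Integrable fun u : ℝ => L * |CT g (L * u)| * (Real.pi ^ 2 / 3 * |u| ^ 2) := by
      have h2 := (hI.comp_mul_left' hL0.ne').const_mul (Real.pi ^ 2 / 3 / L)
      refine h2.congr (ae_of_all _ fun u => ?_)
      simp only []
      rw [abs_mul, abs_of_pos hL0]
      field_simp
    have h2 : ∫ u : ℝ, CT (RL g δ L) u * (1 - Real.sinc (Real.pi * u) ^ 2) ≤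
        ∫ u : ℝ, L * |CT g (L * u)| * (Real.pi ^ 2 / 3 * |u| ^ 2) := by
      have hcc := CT_cont HR
      have hm : Integrable fun u : ℝ => CT (RL g δ L) u * (1 - Real.sinc (Real.pi * u) ^ 2) := by
        refine Integrable.mono' hint (hcc.mul pp_cont).aestronglyMeasurable
          (ae_of_all _ fun u => ?_)
        rw [Real.norm_eq_abs, abs_mul]
        have := hbd u
        have := pp_quad u
        gcongr
      refine integral_mono hm hint fun u => ?_
      refine (le_abs_self _).trans ?_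
      rw [abs_mul]
      have := hbd u
      have := pp_quad u
      gcongr
    have e2 : ∫ u : ℝ, L * |CT g (L * u)| * (Real.pi ^ 2 / 3 * |u| ^ 2) =
        Real.pi ^ 2 / 3 * I / L / L := by
      have e3 := Measure.integral_comp_mul_left (fun v : ℝ => |v| ^ 2 * |CT g v|) L
      rw [abs_of_pos (inv_pos.2 hL0), smul_eq_mul, ← hId] at e3
      have e4 : ∀ u : ℝ, L * |CT g (L * u)| * (Real.pi ^ 2 / 3 * |u| ^ 2) =
          Real.pi ^ 2 / 3 / L * (|L * u| ^ 2 * |CT g (L * u)|) := by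
        intro u
        rw [abs_mul, abs_of_pos hL0]
        field_simp
      simp_rw [e4]
      rw [integral_const_mul, e3]
      field_simp
    rw [e2] at h2
    have h3 : Real.pi ^ 2 / 3 * I / L / L ≤ Real.pi ^ 2 / 3 * I / L :=
      div_le_self (by positivity) hL
    linarith
  rw [h0] at h1
  have e5 : (20 * A * B + Real.pi ^ 2 / 3 * I + 1) / L =
      20 * A / L * B + Real.pi ^ 2 / 3 * I / L + 1 / L := by
    field_simp
  have h7 : 0 < 1 / L := by positivity
  rw [e5]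
  linarith

end Pool.Agent.N804
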