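import Pool.Agent.N804.FLim

set_option autoImplicit false

/-! # Windows of Montgomery's function -/

namespace Pool.Agent.N804

open Filter Topology Set MeasureTheory

/-- the upper half for the window `[s, s + δ]` -/
def UW (T : ℕ → ℝ) (δ s : ℝ) : Prop := ∀ ε : ℝ, 0 < ε → ∀ᶠ k in atTop,
  ∫ α in s..(s + δ), FT (T k) α ≤ (∫ α in s..(s + δ), min |α| 1) + ε

lemma FT_ii (T a b : ℝ) : IntervalIntegrable (FT T) volume a b := (FT_cont T).intervalIntegrable _ _

lemma min_ii (a b : ℝ) : IntervalIntegrable (fun α : ℝ => min |α| 1) volume a b :=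
  (by fun_prop : Continuous fun α : ℝ => min |α| 1).intervalIntegrable _ _

/-- a window is bounded by a bump -/
lemma win_le {T : ℝ} (hT : 1 < T) {r : ℝ → ℝ} (Hr : SC r) (hr : ∀ α, 0 ≤ r α) {a b : ℝ} (hab : a ≤ b)
    (h1 : ∀ α ∈ Icc a b, 1 ≤ r α) : ∫ α in a..b, FT T α ≤ ∫ α : ℝ, r α * FT T α := by
  have hc := FT_cont T
  have hrc := Hr.cont
  have i1 : Integrable fun α => r α * FT T α :=
    (hrc.mul hc).integrable_of_hasCompactSupport Hr.cs.mul_right
  have h2 : ∫ α in a..b, FT T α ≤ ∫ α in a..b, r α * FT T α := by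
    refine intervalIntegral.integral_mono_on hab (FT_ii T a b)
      ((hrc.mul hc).intervalIntegrable _ _) fun α hα => ?_
    have h3 := h1 α hα
    have h4 := FT_nonneg hT α
    calc FT T α = 1 * FT T α := (one_mul _).symm
      _ ≤ r α * FT T α := by gcongr
  refine h2.trans ?_
  rw [intervalIntegral.integral_of_le hab]
  exact setIntegral_le_integral i1 (ae_of_all _ fun α => mul_nonneg (hr α) (FT_nonneg hT α))

/-- the cone generated by the windows -/
theorem win_cone {T : ℕ → ℝ} {Φ : ℝ → ℝ} {μ ν e : ℝ} (h : LD T Φ μ ν e) {δ s₀ : ℝ} (hδ : 0 < δ)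
    (hs₀ : 0 ≤ s₀) (hW : ∀ᵐ s, s₀ < s → UW T δ s) {ρ : ℝ → ℝ} (Hρ : SC ρ) (hρ : ∀ s, 0 ≤ ρ s)
    {a : ℝ} (ha : s₀ < a) (hz : ∀ s, s < a → ρ s = 0) : DD (Gd Φ μ) (Wn (-δ) 0 ρ) ≤ 0 := by
  have HW := Wn_SC Hρ (-δ) 0
  have hρc := Hρ.cont
  set WG : ℝ → ℝ := fun s => ∫ α in s..(s + δ), min |α| 1 with hWG
  have hWG0 : ∀ s, 0 ≤ WG s := fun s =>
    intervalIntegral.integral_nonneg (by linarith) fun α _ => le_min (abs_nonneg _) zero_le_one
  have hcW : ∀ f : ℝ → ℝ, Continuous f → Continuous fun s => ∫ α in s..(s + δ), f α := by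
    intro f hf
    have e : (fun s => ∫ α in s..(s + δ), f α) = Wn 0 δ f := by
      funext s
      unfold Wn
      rw [add_zero]
    rw [e]
    exact continuous_iff_continuousAt.2 fun x => (Wn_deriv hf 0 δ x).continuousAt
  have hWGc : Continuous WG := hcW _ (by fun_prop)
  -- formulas
  have f1 : ∀ k, ∫ α : ℝ, Wn (-δ) 0 ρ α * FT (T k) α =
      ∫ s : ℝ, ρ s * ∫ α in s..(s + δ), FT (T k) α := by
    intro k
    have h1 := Wn_fub Hρ (FT_cont (T k)) (-δ) 0
    have e1 : ∀ α : ℝ, Wn (-δ) 0 ρ α * FT (T k) α = FT (T k) α * Wn (-δ) 0 ρ α := fun α => by ring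
    simp_rw [e1]
    rw [h1]
    simp only [sub_zero, sub_neg_eq_add]
  have f2 : mg (Wn (-δ) 0 ρ) = ∫ s : ℝ, ρ s * WG s := by
    unfold mg
    have h1 := Wn_fub Hρ (h := fun α : ℝ => min |α| 1) (by fun_prop) (-δ) 0
    rw [h1]
    have h2 : Wn (-δ) 0 ρ 0 = 0 := by
      unfold Wn
      rw [intervalIntegral.integral_congr (g := fun _ => 0)]
      · simp
      · intro s hs
        rw [uIcc_of_le (by linarith)] at hs
        exact hz s (by linarith [hs.2])
    rw [h2, zero_add]
    simp only [sub_zero, sub_neg_eq_add]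
    rfl
  -- the limit
  have hlim := (h.pair HW).sub_const (mg (Wn (-δ) 0 ρ))
  rw [add_sub_cancel_left] at hlim
  -- the bound
  obtain ⟨A, hA, hAs⟩ := Hρ.supp
  set η : ℝ → ℝ := fun x => big (A + δ) (by linarith) x with hη
  have Hη : SC η := big_SC _
  have hη0 : ∀ x, 0 ≤ η x := fun x => (big (A + δ) (by linarith)).nonneg
  have hηlim := h.pair Hη
  set M : ℝ := mg η + 2 * DD (Gd Φ μ) η + 1 with hM
  have hbd : ∀ᶠ k in atTop, ∀ s : ℝ, ρ s ≠ 0 → ∫ α in s..(s + δ), FT (T k) α ≤ M := by
    filter_upwards [h.hT.eventually_ge_atTop 2,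
      hηlim.eventually (gt_mem_nhds (show mg η + 2 * DD (Gd Φ μ) η < M by rw [hM]; linarith))]
      with k hk h2 s hs
    refine le_trans ?_ h2.le
    refine win_le (by linarith) Hη hη0 (by linarith) fun α hα => ?_
    have h3 : |s| ≤ A := by
      by_contra hcon
      exact hs (hAs s (not_le.1 hcon))
    have h4 := abs_le.1 h3
    simp only [hη]
    rw [big_one]
    rw [abs_le]
    constructor
    · linarith [hα.1]
    · linarith [hα.2]
  -- positive parts
  have hpos : Tendsto (fun k => ∫ s : ℝ, ρ s * max ((∫ α in s..(s + δ), FT (T k) α) - WG s) 0)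
      atTop (𝓝 (∫ s : ℝ, (0 : ℝ))) := by
    refine tendsto_integral_filter_of_dominated_convergence (fun s => M * ρ s) ?_ ?_ ?_ ?_
    · refine Eventually.of_forall fun k => ?_
      have h1 := hcW _ (FT_cont (T k))
      exact (by fun_prop : Continuous fun s => ρ s * max ((∫ α in s..(s + δ), FT (T k) α) - WG s) 0).aestronglyMeasurable
    · filter_upwards [hbd, h.hT.eventually_ge_atTop 2] with k hk hk2
      refine ae_of_all _ fun s => ?_
      rw [Real.norm_eq_abs, abs_mul, abs_of_nonneg (hρ s), abs_of_nonneg (le_max_right _ _)]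
      by_cases h0 : ρ s = 0
      · rw [h0]
        simp
      · have h1 := hk s h0
        have h2 := hWG0 s
        have h4 : 0 ≤ ∫ α in s..(s + δ), FT (T k) α :=
          intervalIntegral.integral_nonneg (by linarith) fun α _ => FT_nonneg (by linarith) α
        have h3 : max ((∫ α in s..(s + δ), FT (T k) α) - WG s) 0 ≤ M :=
          max_le (by linarith) (by linarith)
        calc ρ s * max ((∫ α in s..(s + δ), FT (T k) α) - WG s) 0 ≤ ρ s * M := by
              have := hρ s
              gcongr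
          _ = M * ρ s := mul_comm _ _
    · exact (hρc.integrable_of_hasCompactSupport Hρ.cs).const_mul M
    · filter_upwards [hW] with s hs
      by_cases h0 : s < a
      · simp only [hz s h0, zero_mul]
        exact tendsto_const_nhds
      · push Not at h0
        have h1 := hs (lt_of_lt_of_le ha h0)
        have h2 : Tendsto (fun k => max ((∫ α in s..(s + δ), FT (T k) α) - WG s) 0) atTop (𝓝 0) := by
          rw [Metric.tendsto_nhds]
          intro ε hε
          filter_upwards [h1 (ε / 2) (by positivity)] with k hk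
          rw [Real.dist_eq, sub_zero, abs_of_nonneg (le_max_right _ _)]
          refine max_lt ?_ hε
          linarith
        have h3 := h2.const_mul (ρ s)
        rwa [mul_zero] at h3
  rw [integral_zero] at hpos
  have hle : ∀ᶠ k in atTop, (∫ α : ℝ, Wn (-δ) 0 ρ α * FT (T k) α) - mg (Wn (-δ) 0 ρ) ≤
      ∫ s : ℝ, ρ s * max ((∫ α in s..(s + δ), FT (T k) α) - WG s) 0 := by
    refine Eventually.of_forall fun k => ?_
    have h1 := hcW _ (FT_cont (T k))
    rw [f1, f2, ← integral_sub]
    · refine integral_mono ?_ ?_ fun s => ?_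
      · exact ((hρc.mul h1).integrable_of_hasCompactSupport Hρ.cs.mul_right).sub
          ((hρc.mul hWGc).integrable_of_hasCompactSupport Hρ.cs.mul_right)
      · exact (by fun_prop : Continuous fun s => ρ s * max ((∫ α in s..(s + δ), FT (T k) α) - WG s) 0).integrable_of_hasCompactSupport
          Hρ.cs.mul_right
      · show ρ s * (∫ α in s..(s + δ), FT (T k) α) - ρ s * WG s ≤ _
        rw [← mul_sub]
        have := hρ s
        have := le_max_left ((∫ α in s..(s + δ), FT (T k) α) - WG s) 0
        gcongr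
    · exact (hρc.mul h1).integrable_of_hasCompactSupport Hρ.cs.mul_right
    · exact (hρc.mul hWGc).integrable_of_hasCompactSupport Hρ.cs.mul_right
  have h5 := le_of_tendsto_of_tendsto hlim hpos hle
  linarith

/-- windows inside the band -/
theorem win_in {T : ℕ → ℝ} {Φ : ℝ → ℝ} {μ ν e : ℝ} (h : LD T Φ μ ν e) (he : e = 0) {δ b : ℝ}
    (hδ : 0 < δ) (hb : 0 < b) (hb1 : b + δ < 1) : UW T δ b := by
  intro ε hε
  obtain ⟨η, hη0, hη1, hη2, hη3⟩ : ∃ η : ℝ, 0 < η ∧ η < b / 2 ∧ b + δ + η < 1 ∧ 4 * η < ε := by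
    refine ⟨min (b / 4) (min ((1 - (b + δ)) / 2) (ε / 8)), ?_, ?_, ?_, ?_⟩
    · refine lt_min (by positivity) (lt_min (by linarith) (by positivity))
    · have := min_le_left (b / 4) (min ((1 - (b + δ)) / 2) (ε / 8))
      linarith
    · have := (min_le_right (b / 4) (min ((1 - (b + δ)) / 2) (ε / 8))).trans (min_le_left _ _)
      linarith
    · have := (min_le_right (b / 4) (min ((1 - (b + δ)) / 2) (ε / 8))).trans (min_le_right _ _)
      linarith
  set B : ContDiffBump (b + δ / 2) := ⟨δ / 2, δ / 2 + η, by linarith, by linarith⟩ with hB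
  have HB : SC B := ⟨B.contDiff, B.hasCompactSupport⟩
  have hB0 : ∀ x, 0 ≤ B x := fun x => B.nonneg
  have hB1 : ∀ x ∈ Icc b (b + δ), B x = 1 := by
    intro x hx
    refine B.one_of_mem_closedBall ?_
    rw [Metric.mem_closedBall, Real.dist_eq, abs_le]
    simp only [hB]
    constructor <;> linarith [hx.1, hx.2]
  have hBz : ∀ x, (x ≤ b - η ∨ b + δ + η ≤ x) → B x = 0 := by
    intro x hx
    refine B.zero_of_le_dist ?_
    rw [Real.dist_eq]
    simp only [hB]
    rcases hx with h | h
    · refine le_trans ?_ (neg_le_abs _)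
      linarith
    · refine le_trans ?_ (le_abs_self _)
      linarith
  have hup := h.up he (κ0 := min (b / 2) (1 / 2)) (κ1 := b + δ + η)
    (lt_min (by positivity) (by norm_num)) (lt_of_le_of_lt (min_le_right _ _) (by norm_num)) hη2 HB
    (fun α hα => by
      rcases lt_abs.1 hα with h1 | h1
      · exact hBz α (Or.inr h1.le)
      · exact hBz α (Or.inl (by linarith))) (fun α _ => hB0 α)
  have hmg : mg B ≤ (∫ α in b..(b + δ), min |α| 1) + 2 * η := by
    unfold mg
    rw [hBz 0 (Or.inl (by linarith)), zero_add]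
    have hBc := HB.cont
    have hc : Continuous fun α : ℝ => min |α| 1 * B α := by fun_prop
    have e1 : ∫ α : ℝ, min |α| 1 * B α = ∫ α in (b - η)..(b + δ + η), min |α| 1 * B α := by
      refine (intervalIntegral.integral_eq_integral_of_support_subset ?_).symm
      intro α hα
      by_contra hcon
      apply hα
      rw [mem_Ioc, not_and_or] at hcon
      show min |α| 1 * B α = 0
      rcases hcon with h1 | h1
      · rw [hBz α (Or.inl (not_lt.1 h1)), mul_zero]
      · rw [hBz α (Or.inr (not_le.1 h1).le), mul_zero]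
    rw [e1, ← intervalIntegral.integral_add_adjacent_intervals (b := b + δ)
      (hc.intervalIntegrable _ _) (hc.intervalIntegrable _ _),
      ← intervalIntegral.integral_add_adjacent_intervals (b := b)
      (hc.intervalIntegrable _ _) (hc.intervalIntegrable _ _)]
    have hle1 : ∀ x : ℝ, min |x| 1 * B x ≤ 1 := by
      intro x
      have h1 : min |x| 1 ≤ 1 := min_le_right _ _
      have h2 : B x ≤ 1 := B.le_one
      have h3 := hB0 x
      calc min |x| 1 * B x ≤ 1 * B x := by gcongr
        _ ≤ 1 := by linarith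
    have t1 : ∫ α in (b - η)..b, min |α| 1 * B α ≤ η := by
      have h1 := intervalIntegral.integral_mono_on (show b - η ≤ b by linarith)
        (hc.intervalIntegrable (μ := volume) _ _) (intervalIntegrable_const (c := (1 : ℝ)))
        fun x _ => hle1 x
      rw [intervalIntegral.integral_const, smul_eq_mul] at h1
      linarith
    have t2 : ∫ α in (b + δ)..(b + δ + η), min |α| 1 * B α ≤ η := by
      have h1 := intervalIntegral.integral_mono_on (show b + δ ≤ b + δ + η by linarith)
        (hc.intervalIntegrable (μ := volume) _ _) (intervalIntegrable_const (c := (1 : ℝ)))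
        fun x _ => hle1 x
      rw [intervalIntegral.integral_const, smul_eq_mul] at h1
      linarith
    have t3 : ∫ α in b..(b + δ), min |α| 1 * B α = ∫ α in b..(b + δ), min |α| 1 := by
      refine intervalIntegral.integral_congr fun x hx => ?_
      rw [uIcc_of_le (by linarith)] at hx
      show min |x| 1 * B x = min |x| 1
      rw [hB1 x hx, mul_one]
    rw [t3]
    linarith
  filter_upwards [h.hT.eventually_ge_atTop 2, (h.pair HB).eventually (gt_mem_nhds
    (show mg B + 2 * DD (Gd Φ μ) B < (∫ α in b..(b + δ), min |α| 1) + ε by linarith))] with k hk h2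
  exact (win_le (by linarith) HB hB0 (by linarith) fun α hα => (hB1 α hα).ge).trans h2.le

end Pool.Agent.N804
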