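import Pool.Agent.N804.Ann

set_option autoImplicit false

/-! # The sine product with displaced zeros -/

namespace Pool.Agent.N804

open Filter Topology Set MeasureTheory

/-- the product with displaced zeros -/
noncomputable def Qn (lam : ℕ → ℝ) (n : ℕ) (x : ℝ) : ℝ :=
  ∏ j ∈ Finset.range n, (1 - x ^ 2 / lam j ^ 2)

/-- the sine product -/
noncomputable def Pn (n : ℕ) (x : ℝ) : ℝ := Qn (fun j => (j : ℝ) + 1) n x

lemma Qn_succ (lam : ℕ → ℝ) (n : ℕ) (x : ℝ) :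
    Qn lam (n + 1) x = Qn lam n x * (1 - x ^ 2 / lam n ^ 2) := by
  unfold Qn
  rw [Finset.prod_range_succ]

lemma Pn_ne {x : ℝ} (hx : 0 < x) (hx2 : ∀ j : ℕ, x ≠ (j : ℝ) + 1) (n : ℕ) : Pn n x ≠ 0 := by
  unfold Pn Qn
  rw [Finset.prod_ne_zero_iff]
  intro j _ h
  have h1 : (0 : ℝ) < (j : ℝ) + 1 := by positivity
  have h2 : x ^ 2 = ((j : ℝ) + 1) ^ 2 := by
    field_simp at h
    linarith
  exact hx2 j ((pow_left_inj₀ hx.le h1.le (by norm_num)).1 h2)

/-- expansion in simple fractions -/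
lemma frac (lam : ℕ → ℝ) (hl : ∀ j, lam j ≠ 0) (n : ℕ) : ∃ (b0 : ℝ) (b : ℕ → ℝ), ∀ x : ℝ,
    0 < x → (∀ j : ℕ, x ≠ (j : ℝ) + 1) → Qn lam n x / Pn n x =
      b0 + ∑ j ∈ Finset.range n, b j * (x ^ 2 / (x ^ 2 - ((j : ℝ) + 1) ^ 2)) := by
  induction n with
  | zero =>
    refine ⟨1, fun _ => 0, fun x _ _ => ?_⟩
    simp [Qn, Pn]
  | succ n ih =>
    obtain ⟨b0, b, hb⟩ := ih
    set q : ℝ := (n : ℝ) + 1 with hq
    have hq0 : 0 < q := by positivity
    set γ : ℝ := 1 - q ^ 2 / lam n ^ 2 with hγ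
    set c : ℕ → ℝ := fun j => b j * γ * q ^ 2 / (((j : ℝ) + 1) ^ 2 - q ^ 2) with hc
    refine ⟨b0, fun j => if j = n then -(b0 * γ) + ∑ i ∈ Finset.range n, c i else
      b j - b j * γ * ((j : ℝ) + 1) ^ 2 / (((j : ℝ) + 1) ^ 2 - q ^ 2), fun x hx hx2 => ?_⟩
    have hne : ∀ j : ℕ, x ^ 2 - ((j : ℝ) + 1) ^ 2 ≠ 0 := by
      intro j h
      have h1 : (0 : ℝ) < (j : ℝ) + 1 := by positivity
      have h2 : x ^ 2 = ((j : ℝ) + 1) ^ 2 := by linarith
      exact hx2 j ((pow_left_inj₀ hx.le h1.le (by norm_num)).1 h2)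
    have hnq := hne n
    have hrec : Qn lam (n + 1) x / Pn (n + 1) x =
        Qn lam n x / Pn n x * (1 - γ * (x ^ 2 / (x ^ 2 - q ^ 2))) := by
      have hP := Pn_ne hx hx2 n
      have e1 : Qn lam (n + 1) x = Qn lam n x * (1 - x ^ 2 / lam n ^ 2) := Qn_succ _ _ _
      have e2 : Pn (n + 1) x = Pn n x * (1 - x ^ 2 / q ^ 2) := Qn_succ _ _ _
      have hl' := hl n
      have h3 : 1 - x ^ 2 / q ^ 2 ≠ 0 := by
        intro h
        apply hnq
        field_simp at h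
        linarith
      rw [e1, e2, hγ, mul_div_mul_comm]
      congr 1
      rw [div_eq_iff h3]
      have hq' := hq0.ne'
      have hnq' : x ^ 2 - q ^ 2 ≠ 0 := hnq
      field_simp
      ring
    rw [hrec, hb x hx hx2, Finset.sum_range_succ]
    simp only [if_true]
    have e3 : ∑ j ∈ Finset.range n, (if j = n then -(b0 * γ) + ∑ i ∈ Finset.range n, c i else
        b j - b j * γ * ((j : ℝ) + 1) ^ 2 / (((j : ℝ) + 1) ^ 2 - q ^ 2)) *
        (x ^ 2 / (x ^ 2 - ((j : ℝ) + 1) ^ 2)) =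
        ∑ j ∈ Finset.range n, (b j - b j * γ * ((j : ℝ) + 1) ^ 2 /
          (((j : ℝ) + 1) ^ 2 - q ^ 2)) * (x ^ 2 / (x ^ 2 - ((j : ℝ) + 1) ^ 2)) :=
      Finset.sum_congr rfl fun j hj => by rw [if_neg (Finset.mem_range.1 hj).ne]
    rw [e3]
    have e4 : ∀ j ∈ Finset.range n, b j * (x ^ 2 / (x ^ 2 - ((j : ℝ) + 1) ^ 2)) *
        (1 - γ * (x ^ 2 / (x ^ 2 - q ^ 2))) =
        (b j - b j * γ * ((j : ℝ) + 1) ^ 2 /
          (((j : ℝ) + 1) ^ 2 - q ^ 2)) * (x ^ 2 / (x ^ 2 - ((j : ℝ) + 1) ^ 2)) +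
          c j * (x ^ 2 / (x ^ 2 - q ^ 2)) := by
      intro j hj
      have hjn := Finset.mem_range.1 hj
      have hjq : ((j : ℝ) + 1) ^ 2 - q ^ 2 ≠ 0 := by
        have h1 : (j : ℝ) + 1 < q := by
          rw [hq]
          have : (j : ℝ) < n := by exact_mod_cast hjn
          linarith
        have h2 : (0 : ℝ) < (j : ℝ) + 1 := by positivity
        nlinarith
      have hj' := hne j
      have hnq' : x ^ 2 - q ^ 2 ≠ 0 := hnq
      simp only [hc]
      field_simp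
      ring
    rw [add_mul, Finset.sum_mul, Finset.sum_congr rfl e4, Finset.sum_add_distrib,
      ← Finset.sum_mul]
    ring

lemma int_cos' {c : ℝ} (hc : c ≠ 0) :
    ∫ ξ in (-1 / 2 : ℝ)..(1 / 2), Real.cos (2 * Real.pi * ξ * c) =
      Real.sin (Real.pi * c) / (Real.pi * c) := by
  have hpi := Real.pi_pos
  have hd : ∀ ξ ∈ uIcc (-1 / 2 : ℝ) (1 / 2), HasDerivAt
      (fun ξ => Real.sin (2 * Real.pi * ξ * c) / (2 * Real.pi * c))
      (Real.cos (2 * Real.pi * ξ * c)) ξ := by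
    intro ξ _
    have h1 : HasDerivAt (fun ξ : ℝ => 2 * Real.pi * ξ * c) (2 * Real.pi * c) ξ := by
      simpa using ((hasDerivAt_id ξ).const_mul (2 * Real.pi)).mul_const c
    have h2 := h1.sin.div_const (2 * Real.pi * c)
    rwa [mul_div_cancel_right₀ _ (by positivity)] at h2
  rw [intervalIntegral.integral_eq_sub_of_hasDerivAt hd
    ((by fun_prop : Continuous fun ξ : ℝ => Real.cos (2 * Real.pi * ξ * c)).intervalIntegrable _ _)]
  have e1 : 2 * Real.pi * (1 / 2) * c = Real.pi * c := by ring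
  have e2 : 2 * Real.pi * (-1 / 2) * c = -(Real.pi * c) := by ring
  rw [e1, e2, Real.sin_neg]
  field_simp
  ring

/-- the kernel -/
noncomputable def kk (b0 : ℝ) (b : ℕ → ℝ) (n : ℕ) (ξ : ℝ) : ℝ :=
  b0 + ∑ j ∈ Finset.range n, b j * (-1) ^ (j + 1) * Real.cos (2 * Real.pi * ((j : ℝ) + 1) * ξ)

lemma kk_cont (b0 : ℝ) (b : ℕ → ℝ) (n : ℕ) : Continuous (kk b0 b n) := by
  unfold kk
  fun_prop

lemma EX_kk (b0 : ℝ) (b : ℕ → ℝ) (n : ℕ) {x : ℝ} (hx : 0 < x)
    (hx2 : ∀ j : ℕ, x ≠ (j : ℝ) + 1) : EX (kk b0 b n) 1 x = Real.sin (Real.pi * x) / (Real.pi * x) *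
      (b0 + ∑ j ∈ Finset.range n, b j * (x ^ 2 / (x ^ 2 - ((j : ℝ) + 1) ^ 2))) := by
  have hpi := Real.pi_pos
  unfold EX kk
  simp only [div_one]
  have e1 : ∀ ξ : ℝ, (b0 + ∑ j ∈ Finset.range n, b j * (-1) ^ (j + 1) *
      Real.cos (2 * Real.pi * ((j : ℝ) + 1) * ξ)) * Real.cos (2 * Real.pi * ξ * x) =
      b0 * Real.cos (2 * Real.pi * ξ * x) + ∑ j ∈ Finset.range n, b j * (-1) ^ (j + 1) *
        ((1 / 2) * Real.cos (2 * Real.pi * ξ * (x + (j + 1))) +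
          (1 / 2) * Real.cos (2 * Real.pi * ξ * (x - (j + 1)))) := by
    intro ξ
    rw [add_mul, Finset.sum_mul]
    congr 1
    refine Finset.sum_congr rfl fun j _ => ?_
    have s1 : Real.cos (2 * Real.pi * ξ * (x + (j + 1))) =
        Real.cos (2 * Real.pi * ξ * x) * Real.cos (2 * Real.pi * ((j : ℝ) + 1) * ξ) -
        Real.sin (2 * Real.pi * ξ * x) * Real.sin (2 * Real.pi * ((j : ℝ) + 1) * ξ) := by
      rw [← Real.cos_add]
      congr 1
      ring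
    have s2 : Real.cos (2 * Real.pi * ξ * (x - (j + 1))) =
        Real.cos (2 * Real.pi * ξ * x) * Real.cos (2 * Real.pi * ((j : ℝ) + 1) * ξ) +
        Real.sin (2 * Real.pi * ξ * x) * Real.sin (2 * Real.pi * ((j : ℝ) + 1) * ξ) := by
      rw [← Real.cos_sub]
      congr 1
      ring
    rw [s1, s2]
    ring
  simp_rw [e1]
  have ic : ∀ c d : ℝ, IntervalIntegrable (fun ξ : ℝ => d * Real.cos (2 * Real.pi * ξ * c)) volume
      (-1 / 2) (1 / 2) := fun c d =>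
    (by fun_prop : Continuous fun ξ : ℝ => d * Real.cos (2 * Real.pi * ξ * c)).intervalIntegrable _ _
  rw [intervalIntegral.integral_add (ic x b0)
    ((by fun_prop : Continuous fun ξ : ℝ => ∑ j ∈ Finset.range n, b j * (-1) ^ (j + 1) *
        ((1 / 2) * Real.cos (2 * Real.pi * ξ * (x + (j + 1))) +
          (1 / 2) * Real.cos (2 * Real.pi * ξ * (x - (j + 1))))).intervalIntegrable _ _),
    intervalIntegral.integral_finsetSum fun j _ =>
      (by fun_prop : Continuous fun ξ : ℝ => b j * (-1) ^ (j + 1) *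
        ((1 / 2) * Real.cos (2 * Real.pi * ξ * (x + (j + 1))) +
          (1 / 2) * Real.cos (2 * Real.pi * ξ * (x - (j + 1))))).intervalIntegrable _ _,
    intervalIntegral.integral_const_mul, int_cos' hx.ne', mul_add, Finset.mul_sum]
  congr 1
  · ring
  refine Finset.sum_congr rfl fun j _ => ?_
  rw [intervalIntegral.integral_const_mul, intervalIntegral.integral_add (ic _ _) (ic _ _),
    intervalIntegral.integral_const_mul, intervalIntegral.integral_const_mul]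
  have h1 : x + ((j : ℝ) + 1) ≠ 0 := by positivity
  have h2 : x - ((j : ℝ) + 1) ≠ 0 := sub_ne_zero.2 (hx2 j)
  rw [int_cos' h1, int_cos' h2]
  have e3 : Real.sin (Real.pi * (x + ((j : ℝ) + 1))) = (-1) ^ (j + 1) * Real.sin (Real.pi * x) := by
    have := Real.sin_add_nat_mul_pi (Real.pi * x) (j + 1)
    rw [← this]
    congr 1
    push_cast
    ring
  have e4 : Real.sin (Real.pi * (x - ((j : ℝ) + 1))) = (-1) ^ (j + 1) * Real.sin (Real.pi * x) := by
    have := Real.sin_sub_nat_mul_pi (Real.pi * x) (j + 1)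
    rw [← this]
    congr 1
    push_cast
    ring
  rw [e3, e4]
  have h3 : x ^ 2 - ((j : ℝ) + 1) ^ 2 ≠ 0 := by
    have : x ^ 2 - ((j : ℝ) + 1) ^ 2 = (x + ((j : ℝ) + 1)) * (x - ((j : ℝ) + 1)) := by ring
    rw [this]
    exact mul_ne_zero h1 h2
  have h4 : ((-1 : ℝ) ^ (j + 1)) * (-1) ^ (j + 1) = 1 := by
    rw [← mul_pow]
    norm_num
  have e5 : b j * (-1) ^ (j + 1) * (1 / 2 * ((-1) ^ (j + 1) * Real.sin (Real.pi * x) /
      (Real.pi * (x + ((j : ℝ) + 1)))) + 1 / 2 * ((-1) ^ (j + 1) * Real.sin (Real.pi * x) /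
      (Real.pi * (x - ((j : ℝ) + 1))))) = ((-1) ^ (j + 1) * (-1) ^ (j + 1)) * (b j *
      (1 / 2 * (Real.sin (Real.pi * x) / (Real.pi * (x + ((j : ℝ) + 1)))) +
       1 / 2 * (Real.sin (Real.pi * x) / (Real.pi * (x - ((j : ℝ) + 1)))))) := by ring
  rw [e5, h4, one_mul]
  field_simp
  ring

end Pool.Agent.N804
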