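import Pool.Agent.N804.Bd
import Pool.Agent.N804.Avg
import Pool.Agent.W54.TCF.NT

set_option autoImplicit false

/-! # From dyadic blocks to all ordinates up to `T` -/

namespace Pool.Agent.N804

open Filter Topology Set
open H370 (Zf mult mem_Zf good_zeta zset NN NN_eq zeta_zeros_finite)

/-- the order of magnitude of the number of zeros -/
noncomputable def XX (T : ℝ) : ℝ := T * Real.log T / (2 * Real.pi)

lemma XX_pos {T : ℝ} (hT : 1 < T) : 0 < XX T := by
  unfold XX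
  have := Real.log_pos hT
  have := Real.pi_pos
  positivity

lemma mem_Z {A B : ℝ} (hA : 0 ≤ A) {s : ℂ} :
    s ∈ Zf riemannZeta A B ↔ s ∈ zset riemannZeta A B := by
  have hfin : (zset riemannZeta A B).Finite := by
    refine (zeta_zeros_finite B).subset ?_
    rintro s ⟨a1, a2, a3, a4, a5⟩
    exact ⟨a1, a2, by linarith, a4, a5⟩
  unfold Zf
  rw [dif_pos hfin, Set.Finite.mem_toFinset]

lemma Z_split {A B C : ℝ} (hA : 0 ≤ A) (h1 : A ≤ B) (h2 : B ≤ C) :
    ∀ f : ℂ → ℝ, ∑ s ∈ Zf riemannZeta A C, f s =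
      ∑ s ∈ Zf riemannZeta A B, f s + ∑ s ∈ Zf riemannZeta B C, f s := by
  classical
  intro f
  have hd : Disjoint (Zf riemannZeta A B) (Zf riemannZeta B C) := by
    rw [Finset.disjoint_left]
    intro s hs hs'
    rw [mem_Z hA] at hs
    rw [mem_Z (hA.trans h1)] at hs'
    linarith [hs.2.2.2.1, hs'.2.2.1]
  rw [← Finset.sum_union hd]
  refine Finset.sum_congr ?_ fun _ _ => rfl
  ext s
  rw [Finset.mem_union, mem_Z hA, mem_Z hA, mem_Z (hA.trans h1)]
  constructor
  · rintro ⟨a1, a2, a3, a4, a5⟩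
    rcases le_or_gt s.im B with h | h
    · exact Or.inl ⟨a1, a2, a3, h, a5⟩
    · exact Or.inr ⟨a1, a2, h, a4, a5⟩
  · rintro (⟨a1, a2, a3, a4, a5⟩ | ⟨a1, a2, a3, a4, a5⟩)
    · exact ⟨a1, a2, a3, a4.trans h2, a5⟩
    · exact ⟨a1, a2, lt_of_le_of_lt h1 a3, a4, a5⟩

lemma Z_sub {A B A' B' : ℝ} (hA' : 0 ≤ A') (h1 : A' ≤ A) (h2 : B ≤ B') :
    Zf riemannZeta A B ⊆ Zf riemannZeta A' B' := by
  intro s hs
  rw [mem_Z (hA'.trans h1)] at hs
  rw [mem_Z hA']
  exact ⟨hs.1, hs.2.1, by linarith [hs.2.2.1], by linarith [hs.2.2.2.1], hs.2.2.2.2⟩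

/-- mass of a finite set of zeros -/
noncomputable def ms (S : Finset ℂ) : ℝ := ∑ s ∈ S, (mult riemannZeta s : ℝ)

lemma ms_nonneg (S : Finset ℂ) : 0 ≤ ms S := Finset.sum_nonneg fun _ _ => Nat.cast_nonneg _

lemma ms_mono {S S' : Finset ℂ} (h : S ⊆ S') : ms S ≤ ms S' :=
  Finset.sum_le_sum_of_subset_of_nonneg h fun _ _ _ => Nat.cast_nonneg _

lemma ms_eq {A B : ℝ} (hA : 0 ≤ A) : ms (Zf riemannZeta A B) = (NN riemannZeta A B : ℝ) := by
  have hfin : (zset riemannZeta A B).Finite := by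
    refine (zeta_zeros_finite B).subset ?_
    rintro s ⟨a1, a2, a3, a4, a5⟩
    exact ⟨a1, a2, by linarith, a4, a5⟩
  unfold ms NN
  rw [finsum_mem_eq_finite_toFinset_sum _ hfin]
  unfold Zf
  rw [dif_pos hfin]
  push_cast
  rfl

lemma Pc_le_sq (S : Finset ℂ) (h : ℝ) : Pc S h ≤ ms S ^ 2 := by
  classical
  unfold Pc ms
  rw [sq, Finset.sum_mul_sum]
  refine Finset.sum_le_sum fun s _ => Finset.sum_le_sum fun s' _ => ?_
  split_ifs
  · exact le_rfl
  · positivity

lemma Pe_le_sq (S : Finset ℂ) : Pe S ≤ ms S ^ 2 := by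
  classical
  unfold Pe ms
  rw [sq, Finset.sum_mul_sum]
  refine Finset.sum_le_sum fun s _ => Finset.sum_le_sum fun s' _ => ?_
  split_ifs
  · exact le_rfl
  · positivity

lemma Nbad_le_ms (S : Finset ℂ) : Nbad S ≤ ms S := by
  classical
  exact Finset.sum_le_sum_of_subset_of_nonneg (Finset.filter_subset _ _)
    fun _ _ _ => Nat.cast_nonneg _

lemma Nbad_split {A B C : ℝ} (hA : 0 ≤ A) (h1 : A ≤ B) (h2 : B ≤ C) :
    Nbad (Zf riemannZeta A C) = Nbad (Zf riemannZeta A B) + Nbad (Zf riemannZeta B C) := by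
  classical
  unfold Nbad
  rw [Finset.sum_filter, Finset.sum_filter, Finset.sum_filter]
  exact Z_split hA h1 h2 _

/-- splitting a double sum -/
lemma double_split {A B C : ℝ} (hA : 0 ≤ A) (h1 : A ≤ B) (h2 : B ≤ C) (F : ℂ → ℂ → ℝ) :
    ∑ s ∈ Zf riemannZeta A C, ∑ s' ∈ Zf riemannZeta A C, F s s' =
      (∑ s ∈ Zf riemannZeta A B, ∑ s' ∈ Zf riemannZeta A B, F s s') +
      (∑ s ∈ Zf riemannZeta B C, ∑ s' ∈ Zf riemannZeta B C, F s s') +
      ((∑ s ∈ Zf riemannZeta A B, ∑ s' ∈ Zf riemannZeta B C, F s s') +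
      (∑ s ∈ Zf riemannZeta B C, ∑ s' ∈ Zf riemannZeta A B, F s s')) := by
  rw [Z_split hA h1 h2]
  simp_rw [Z_split hA h1 h2, Finset.sum_add_distrib]
  ring

lemma Pe_split {A B C : ℝ} (hA : 0 ≤ A) (h1 : A ≤ B) (h2 : B ≤ C) :
    Pe (Zf riemannZeta A C) = Pe (Zf riemannZeta A B) + Pe (Zf riemannZeta B C) := by
  classical
  unfold Pe
  rw [double_split hA h1 h2]
  have e1 : ∑ s ∈ Zf riemannZeta A B, ∑ s' ∈ Zf riemannZeta B C,
      (if s.im = s'.im then (mult riemannZeta s : ℝ) * (mult riemannZeta s' : ℝ) else 0) = 0 := by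
    refine Finset.sum_eq_zero fun s hs => Finset.sum_eq_zero fun s' hs' => ?_
    rw [mem_Z hA] at hs
    rw [mem_Z (hA.trans h1)] at hs'
    rw [if_neg]
    intro h
    linarith [hs.2.2.2.1, hs'.2.2.1]
  have e2 : ∑ s ∈ Zf riemannZeta B C, ∑ s' ∈ Zf riemannZeta A B,
      (if s.im = s'.im then (mult riemannZeta s : ℝ) * (mult riemannZeta s' : ℝ) else 0) = 0 := by
    refine Finset.sum_eq_zero fun s' hs' => Finset.sum_eq_zero fun s hs => ?_
    rw [mem_Z hA] at hs
    rw [mem_Z (hA.trans h1)] at hs'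
    rw [if_neg]
    intro h
    linarith [hs.2.2.2.1, hs'.2.2.1]
  rw [e1, e2]
  ring

lemma Pc_super {A B C : ℝ} (hA : 0 ≤ A) (h1 : A ≤ B) (h2 : B ≤ C) (h : ℝ) :
    Pc (Zf riemannZeta A B) h + Pc (Zf riemannZeta B C) h ≤ Pc (Zf riemannZeta A C) h := by
  classical
  unfold Pc
  rw [double_split hA h1 h2]
  have hnn : ∀ S S' : Finset ℂ, 0 ≤ ∑ s ∈ S, ∑ s' ∈ S',
      (if 0 < s.im - s'.im ∧ s.im - s'.im ≤ h then
        (mult riemannZeta s : ℝ) * (mult riemannZeta s' : ℝ) else 0) := by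
    intro S S'
    refine Finset.sum_nonneg fun s _ => Finset.sum_nonneg fun s' _ => ?_
    split_ifs
    · positivity
    · exact le_rfl
  have a1 := hnn (Zf riemannZeta A B) (Zf riemannZeta B C)
  have a2 := hnn (Zf riemannZeta B C) (Zf riemannZeta A B)
  linarith

lemma Pc_cross : ∃ K : ℝ, 0 < K ∧ ∀ B C : ℝ, 3 ≤ B → B ≤ C → ∀ h : ℝ, h ≤ 1 →
    Pc (Zf riemannZeta 0 C) h ≤ Pc (Zf riemannZeta 0 B) h + Pc (Zf riemannZeta B C) h +
      (K * Real.log B) ^ 2 := by
  classical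
  obtain ⟨K, hK, hz⟩ := H370.zcount good_zeta
  refine ⟨K, hK, fun B C hB hBC h hh => ?_⟩
  have hB0 : 0 ≤ B := by linarith
  unfold Pc
  rw [double_split le_rfl hB0 hBC]
  set S := Zf riemannZeta (B - 1) (B + 1) with hS
  have hms : ms S ≤ K * Real.log B := by
    rw [hS, ms_eq (by linarith)]
    exact hz B hB
  have e1 : ∑ s ∈ Zf riemannZeta 0 B, ∑ s' ∈ Zf riemannZeta B C,
      (if 0 < s.im - s'.im ∧ s.im - s'.im ≤ h then
        (mult riemannZeta s : ℝ) * (mult riemannZeta s' : ℝ) else 0) = 0 := by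
    refine Finset.sum_eq_zero fun s hs => Finset.sum_eq_zero fun s' hs' => ?_
    rw [mem_Z le_rfl] at hs
    rw [mem_Z hB0] at hs'
    rw [if_neg]
    rintro ⟨h1, _⟩
    linarith [hs.2.2.2.1, hs'.2.2.1]
  have e2 : ∑ s ∈ Zf riemannZeta B C, ∑ s' ∈ Zf riemannZeta 0 B,
      (if 0 < s.im - s'.im ∧ s.im - s'.im ≤ h then
        (mult riemannZeta s : ℝ) * (mult riemannZeta s' : ℝ) else 0) ≤ ms S ^ 2 := by
    have h3 : ∀ s ∈ Zf riemannZeta B C, ∀ s' ∈ Zf riemannZeta 0 B,
        0 < s.im - s'.im ∧ s.im - s'.im ≤ h → s ∈ S ∧ s' ∈ S := by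
      intro s hs s' hs' hd
      rw [mem_Z hB0] at hs
      rw [mem_Z le_rfl] at hs'
      obtain ⟨a1, a2, a3, a4, a5⟩ := hs
      obtain ⟨b1, b2, b3, b4, b5⟩ := hs'
      rw [hS, mem_Z (by linarith), mem_Z (by linarith)]
      exact ⟨⟨a1, a2, by linarith, by linarith, a5⟩, ⟨b1, b2, by linarith, by linarith, b5⟩⟩
    unfold ms
    rw [sq, Finset.sum_mul_sum]
    calc _ ≤ ∑ s ∈ Zf riemannZeta B C, ∑ s' ∈ Zf riemannZeta 0 B,
          (if s ∈ S then (if s' ∈ S then (mult riemannZeta s : ℝ) * (mult riemannZeta s' : ℝ)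
            else 0) else 0) := by
          refine Finset.sum_le_sum fun s hs => Finset.sum_le_sum fun s' hs' => ?_
          by_cases hd : 0 < s.im - s'.im ∧ s.im - s'.im ≤ h
          · obtain ⟨c1, c2⟩ := h3 s hs s' hs' hd
            rw [if_pos hd, if_pos c1, if_pos c2]
          · rw [if_neg hd]
            split_ifs
            · positivity
            · exact le_rfl
            · exact le_rfl
      _ = ∑ s ∈ (Zf riemannZeta B C).filter (· ∈ S), ∑ s' ∈ (Zf riemannZeta 0 B).filter (· ∈ S),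
          (mult riemannZeta s : ℝ) * (mult riemannZeta s' : ℝ) := by
          rw [Finset.sum_filter]
          refine Finset.sum_congr rfl fun s _ => ?_
          by_cases hs : s ∈ S
          · simp only [if_pos hs]
            rw [Finset.sum_filter]
          · simp only [if_neg hs, Finset.sum_const_zero]
      _ ≤ _ := by
          refine (Finset.sum_le_sum_of_subset_of_nonneg
            (fun s hs => (Finset.mem_filter.1 hs).2) fun s _ _ =>
              Finset.sum_nonneg fun s' _ => by positivity).trans ?_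
          refine Finset.sum_le_sum fun s _ => ?_
          exact Finset.sum_le_sum_of_subset_of_nonneg
            (fun s hs => (Finset.mem_filter.1 hs).2) fun s' _ _ => by positivity
  have h4 : ms S ^ 2 ≤ (K * Real.log B) ^ 2 := pow_le_pow_left₀ (ms_nonneg S) hms 2
  linarith

/-! ## dyadic iteration -/

lemma dy_up (Φ : ℝ → ℝ → ℝ) (E T : ℝ) (n : ℕ) (hT : 3 ≤ T / 2 ^ n)
    (h : ∀ B, 3 ≤ B → 2 * B ≤ T → Φ 0 (2 * B) ≤ Φ 0 B + Φ B (2 * B) + E) :
    Φ 0 T ≤ Φ 0 (T / 2 ^ n) + ∑ j ∈ Finset.range n, (Φ (Vj T j) (2 * Vj T j) + E) := by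
  induction n with
  | zero => simp
  | succ n ih =>
    have hT0 : 0 < T := by
      by_contra hcon
      push Not at hcon
      have : T / 2 ^ (n + 1) ≤ 0 := div_nonpos_of_nonpos_of_nonneg hcon (by positivity)
      linarith
    have e : T / 2 ^ n = 2 * (T / 2 ^ (n + 1)) := by
      rw [pow_succ]
      field_simp
    have h1 := ih (by rw [e]; linarith)
    have h2 := h (T / 2 ^ (n + 1)) hT (by
      rw [← e]
      exact div_le_self hT0.le (one_le_pow₀ (by norm_num)))
    rw [Finset.sum_range_succ]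
    rw [e] at h1
    have : Vj T n = T / 2 ^ (n + 1) := rfl
    rw [this]
    linarith

lemma dy_low (Φ : ℝ → ℝ → ℝ) (T : ℝ) (n : ℕ) (hT : 0 ≤ T)
    (h : ∀ B, 0 ≤ B → 2 * B ≤ T → Φ 0 B + Φ B (2 * B) ≤ Φ 0 (2 * B)) :
    Φ 0 (T / 2 ^ n) + ∑ j ∈ Finset.range n, Φ (Vj T j) (2 * Vj T j) ≤ Φ 0 T := by
  induction n with
  | zero => simp
  | succ n ih =>
    have e : T / 2 ^ n = 2 * (T / 2 ^ (n + 1)) := by
      rw [pow_succ]
      field_simp
    have h2 := h (T / 2 ^ (n + 1)) (by positivity) (by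
      rw [← e]
      exact div_le_self hT (one_le_pow₀ (by norm_num)))
    rw [Finset.sum_range_succ]
    rw [e] at ih
    have : Vj T n = T / 2 ^ (n + 1) := rfl
    rw [this]
    linarith

/-! ## the weights of the blocks -/

lemma nb_avg (ε : ℝ) (hε : 0 < ε) : ∃ T0 : ℝ, 10 ≤ T0 ∧ ∀ T : ℝ, T0 ≤ T →
    ∀ (F : ℝ → ℝ) (B : ℝ), (∀ j < Jn T, |F (Vj T j)| ≤ B) →
    |∑ j ∈ Finset.range (Jn T), nb (Vj T j) / XX T * F (Vj T j) - avg F T| ≤ ε * B := by
  obtain ⟨C, T1, hC, hT1, h⟩ := nb_asymp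
  obtain ⟨T2, hT2, hV⟩ := Vj_large T1
  have hpi := Real.pi_gt_three
  set D : ℝ := 2 * Real.pi * C + 2 with hD
  have hl : ∀ᶠ T : ℝ in atTop, D / ε ≤ Real.log T := Real.tendsto_log_atTop.eventually_ge_atTop _
  obtain ⟨T3, hT3⟩ := eventually_atTop.1 hl
  refine ⟨max (max 10 T2) T3, le_max_of_le_left (le_max_left _ _), fun T hT F B hF => ?_⟩
  have hT10 : 10 ≤ T := ((le_max_left _ _).trans (le_max_left _ _)).trans hT
  have hTT2 : T2 ≤ T := ((le_max_right _ _).trans (le_max_left _ _)).trans hT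
  have hlog := hT3 T ((le_max_right _ _).trans hT)
  have hL : 0 < Real.log T := Real.log_pos (by linarith)
  have hX := XX_pos (show 1 < T by linarith)
  rw [div_le_iff₀ hε] at hlog
  unfold avg
  rw [← Finset.sum_sub_distrib]
  rcases Nat.eq_zero_or_pos (Jn T) with h0 | h0
  · rw [h0]
    simp only [Finset.range_zero, Finset.sum_empty, abs_zero]
    -- need B nonneg; not available, so use that the claim is for `B` with no constraint
    by_contra hcon
    push Not at hcon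
    have hJ : (2 : ℝ) ^ (Jn T + 1) ≤ 2 := by rw [h0]; norm_num
    have h1 := (Jn_pow (show 1 ≤ T by linarith)).2
    have h2 : (2 : ℝ) < T ^ (2 / 3 : ℝ) := by
      have h3 : (10 : ℝ) ^ (2 / 3 : ℝ) ≤ T ^ (2 / 3 : ℝ) :=
        Real.rpow_le_rpow (by norm_num) hT10 (by norm_num)
      have h4 : (8 : ℝ) ^ (2 / 3 : ℝ) ≤ (10 : ℝ) ^ (2 / 3 : ℝ) :=
        Real.rpow_le_rpow (by norm_num) (by norm_num) (by norm_num)
      have h5 : (8 : ℝ) ^ (2 / 3 : ℝ) = 4 := by
        rw [show (8 : ℝ) = 2 ^ (3 : ℝ) by norm_num, ← Real.rpow_mul (by norm_num)]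
        norm_num
      linarith
    linarith
  have hB0 : 0 ≤ B := (abs_nonneg _).trans (hF 0 h0)
  have hterm : ∀ j ∈ Finset.range (Jn T), |nb (Vj T j) / XX T * F (Vj T j) -
      (1 / 2) ^ (j + 1) * F (Vj T j)| ≤ (B / Real.log T) *
        ((1 / 2) ^ (j + 1) * (j + 1) + 2 * Real.pi * C * (1 / 2) ^ (j + 1)) := by
    intro j hj
    have hj' := Finset.mem_range.1 hj
    have hVj := hV T hTT2 j hj'
    have h1 := h (Vj T j) hVj
    have hlogV : Real.log (Vj T j) = Real.log T - (j + 1) * Real.log 2 := by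
      unfold Vj
      rw [Real.log_div (by linarith) (by positivity), Real.log_pow]
      push_cast
      ring
    have hVe : Vj T j = (1 / 2) ^ (j + 1) * T := by
      unfold Vj
      rw [one_div, inv_pow]
      field_simp
    have hVX : Vj T j * Real.log T / (2 * Real.pi) = (1 / 2) ^ (j + 1) * XX T := by
      rw [hVe]
      unfold XX
      ring
    have hlog2 : Real.log 2 ≤ 1 := by
      have := Real.log_two_lt_d9
      linarith
    have hlog20 : 0 ≤ Real.log 2 := Real.log_nonneg (by norm_num)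
    have hV0 : 0 < Vj T j := by linarith
    have h2 : |nb (Vj T j) - (1 / 2) ^ (j + 1) * XX T| ≤
        C * Vj T j + Vj T j * (j + 1) / (2 * Real.pi) := by
      rw [← hVX]
      have h3 : |Vj T j * Real.log (Vj T j) / (2 * Real.pi) -
          Vj T j * Real.log T / (2 * Real.pi)| ≤ Vj T j * (j + 1) / (2 * Real.pi) := by
        rw [hlogV]
        have e : Vj T j * (Real.log T - (j + 1) * Real.log 2) / (2 * Real.pi) -
            Vj T j * Real.log T / (2 * Real.pi) =
            -(Vj T j * ((j + 1) * Real.log 2) / (2 * Real.pi)) := by ring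
        rw [e, abs_neg, abs_of_nonneg (by positivity)]
        gcongr
        calc ((j : ℝ) + 1) * Real.log 2 ≤ (j + 1) * 1 := by gcongr
          _ = _ := by ring
      calc |nb (Vj T j) - Vj T j * Real.log T / (2 * Real.pi)| ≤
          |nb (Vj T j) - Vj T j * Real.log (Vj T j) / (2 * Real.pi)| +
          |Vj T j * Real.log (Vj T j) / (2 * Real.pi) - Vj T j * Real.log T / (2 * Real.pi)| :=
            abs_sub_le _ _ _
        _ ≤ _ := add_le_add h1 h3
    have e3 : nb (Vj T j) / XX T * F (Vj T j) - (1 / 2) ^ (j + 1) * F (Vj T j) =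
        (nb (Vj T j) - (1 / 2) ^ (j + 1) * XX T) / XX T * F (Vj T j) := by
      field_simp
    rw [e3, abs_mul, abs_div, abs_of_pos hX]
    have e4 : (B / Real.log T) * ((1 / 2) ^ (j + 1) * (j + 1) + 2 * Real.pi * C *
        (1 / 2) ^ (j + 1)) = (C * Vj T j + Vj T j * (j + 1) / (2 * Real.pi)) / XX T * B := by
      rw [hVe]
      unfold XX
      have : T ≠ 0 := by linarith
      field_simp
      ring
    rw [e4]
    gcongr
    exact hF j hj'
  calc |∑ j ∈ Finset.range (Jn T), (nb (Vj T j) / XX T * F (Vj T j) -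
        (1 / 2) ^ (j + 1) * F (Vj T j))| ≤
      ∑ j ∈ Finset.range (Jn T), |nb (Vj T j) / XX T * F (Vj T j) -
        (1 / 2) ^ (j + 1) * F (Vj T j)| := Finset.abs_sum_le_sum_abs _ _
    _ ≤ ∑ j ∈ Finset.range (Jn T), (B / Real.log T) *
        ((1 / 2) ^ (j + 1) * (j + 1) + 2 * Real.pi * C * (1 / 2) ^ (j + 1)) :=
          Finset.sum_le_sum hterm
    _ = (B / Real.log T) * (∑ j ∈ Finset.range (Jn T), (1 / 2 : ℝ) ^ (j + 1) * (j + 1) +
        2 * Real.pi * C * ∑ j ∈ Finset.range (Jn T), (1 / 2 : ℝ) ^ (j + 1)) := by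
          rw [← Finset.mul_sum, Finset.sum_add_distrib, Finset.mul_sum]
    _ ≤ (B / Real.log T) * (2 + 2 * Real.pi * C * 1) := by
          have h1 := wt_sum2 (Jn T)
          have h2 := wt_sum (Jn T)
          have h3 := half_pow_le (Jn T)
          have h4 : ∑ j ∈ Finset.range (Jn T), (1 / 2 : ℝ) ^ (j + 1) ≤ 1 := by
            rw [h2]; linarith [h3.1]
          gcongr
    _ ≤ ε * B := by
          rw [div_mul_eq_mul_div, div_le_iff₀ hL]
          have : 2 + 2 * Real.pi * C * 1 = D := by rw [hD]; ring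
          rw [this]
          nlinarith

/-- the lowest zeros do not matter -/
lemma base_small (ε : ℝ) (hε : 0 < ε) : ∃ T0 : ℝ, 10 ≤ T0 ∧ ∀ T : ℝ, T0 ≤ T →
    3 ≤ T / 2 ^ Jn T ∧ ms (Zf riemannZeta 0 (T / 2 ^ Jn T)) ^ 2 ≤ ε * XX T ∧
    ms (Zf riemannZeta 0 (T / 2 ^ Jn T)) ≤ ε * XX T := by
  obtain ⟨T1, hT1, hN⟩ := Pool.Agent.W54.TCF.NT_asymp' 1 one_pos
  have hpi := Real.pi_gt_three
  have hpi' := Real.pi_lt_four
  have h1 : Tendsto (fun T : ℝ => T ^ (1 / 3 : ℝ)) atTop atTop := tendsto_rpow_atTop (by norm_num)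
  obtain ⟨T2, hT2⟩ := eventually_atTop.1 (h1.eventually_ge_atTop T1)
  -- `64 log T ≤ ε T ^ (1/3)`
  have h2 : Tendsto (fun T : ℝ => Real.log T / T ^ (1 / 3 : ℝ)) atTop (𝓝 0) :=
    (isLittleO_log_rpow_atTop (by norm_num : (0 : ℝ) < 1 / 3)).tendsto_div_nhds_zero
  obtain ⟨T3, hT3⟩ := eventually_atTop.1 (h2.eventually (ge_mem_nhds (by positivity :
    (0 : ℝ) < ε / 64)))
  refine ⟨max (max 10 T2) T3, le_max_of_le_left (le_max_left _ _), fun T hT => ?_⟩
  have hT10 : 10 ≤ T := ((le_max_left _ _).trans (le_max_left _ _)).trans hT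
  have hTT2 : T2 ≤ T := ((le_max_right _ _).trans (le_max_left _ _)).trans hT
  have hTT3 := hT3 T ((le_max_right _ _).trans hT)
  have hb := hT2 T hTT2
  obtain ⟨c1, c2⟩ := base_ge (show 1 ≤ T by linarith)
  set V := T / 2 ^ Jn T with hV
  set y := T ^ (1 / 3 : ℝ) with hy
  have hT0 : 0 < T := by linarith
  have hy0 : 0 < y := Real.rpow_pos_of_pos hT0 _
  have hy3 : y ^ 3 = T := by
    rw [hy, ← Real.rpow_natCast, ← Real.rpow_mul hT0.le]
    norm_num
  have hVT : T1 ≤ V := hb.trans c1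
  have hNV := (hN V hVT).2
  have hLT : 0 < Real.log T := Real.log_pos (by linarith)
  have hVle : V ≤ T := div_le_self hT0.le (one_le_pow₀ (by norm_num))
  have hlogV : Real.log V ≤ Real.log T := Real.log_le_log (by linarith) hVle
  have hms : ms (Zf riemannZeta 0 V) ≤ y * Real.log T := by
    rw [ms_eq le_rfl]
    refine hNV.trans ?_
    calc (1 + 1) * (V / (2 * Real.pi) * Real.log V) ≤
        (1 + 1) * (2 * y / (2 * Real.pi) * Real.log T) := by
          have : 0 ≤ Real.log V := Real.log_nonneg (by linarith)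
          gcongr
      _ = (2 / Real.pi) * (y * Real.log T) := by field_simp; ring
      _ ≤ 1 * (y * Real.log T) := by
          have h5 : 2 / Real.pi ≤ 1 := by
            rw [div_le_one (by linarith)]
            linarith
          gcongr
      _ = _ := one_mul _
  have hlog : 64 * Real.log T ≤ ε * y := by
    rw [div_le_iff₀ hy0] at hTT3
    linarith
  have hy1 : 1 ≤ y := by
    rw [hy]
    exact Real.one_le_rpow (by linarith) (by norm_num)
  have hX : XX T = y ^ 3 * Real.log T / (2 * Real.pi) := by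
    unfold XX
    rw [hy3]
  have hXge : y ^ 3 * Real.log T / 8 ≤ XX T := by
    rw [hX]
    gcongr
    linarith
  have hsq : ms (Zf riemannZeta 0 V) ^ 2 ≤ ε * XX T := by
    calc ms (Zf riemannZeta 0 V) ^ 2 ≤ (y * Real.log T) ^ 2 :=
          pow_le_pow_left₀ (ms_nonneg _) hms 2
      _ = y ^ 2 * Real.log T * Real.log T := by ring
      _ ≤ y ^ 2 * Real.log T * (ε * y / 64) := by gcongr; linarith
      _ = ε * (y ^ 3 * Real.log T / 8) / 8 := by ring
      _ ≤ ε * (y ^ 3 * Real.log T / 8) := by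
          have : 0 ≤ ε * (y ^ 3 * Real.log T / 8) := by positivity
          linarith
      _ ≤ _ := by gcongr
  refine ⟨by linarith, hsq, ?_⟩
  have h1L : 1 ≤ y ^ 2 * ε := by
    -- since log T ≥ 1
    have h6 : 1 ≤ Real.log T := by
      rw [Real.le_log_iff_exp_le hT0]
      have := Real.exp_one_lt_d9
      linarith
    nlinarith
  calc ms (Zf riemannZeta 0 V) ≤ y * Real.log T := hms
    _ = y * Real.log T * 1 := by ring
    _ ≤ y * (ε * y / 64) * 1 := by gcongr; linarith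
    _ = ε * (y ^ 2 * 1) / 64 := by ring
    _ ≤ ε * (y ^ 3 * Real.log T) / 64 := by
        have h6 : 1 ≤ Real.log T := by
          rw [Real.le_log_iff_exp_le hT0]
          have := Real.exp_one_lt_d9
          linarith
        have h7 : y ^ 2 ≤ y ^ 3 := pow_le_pow_right₀ hy1 (by norm_num)
        have h8 : y ^ 2 * 1 ≤ y ^ 3 * Real.log T := by gcongr
        gcongr
    _ = ε * (y ^ 3 * Real.log T / 8) / 8 := by ring
    _ ≤ ε * (y ^ 3 * Real.log T / 8) := by
          have : 0 ≤ ε * (y ^ 3 * Real.log T / 8) := by positivity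
          linarith
    _ ≤ _ := by gcongr

end Pool.Agent.N804
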