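import Mathlib

set_option autoImplicit false

/-! # Selection theorem for monotone functions -/

namespace Pool.Agent.N804

open Filter Topology Set MeasureTheory

lemma ae_Ioo {p : ℝ → Prop} (h : ∀ᵐ x, p x) {a b : ℝ} (hab : a < b) : ∃ y ∈ Ioo a b, p y := by
  by_contra hcon
  push Not at hcon
  have h1 : Ioo a b ⊆ {x | ¬p x} := fun y hy => hcon y hy
  have h2 : volume (Ioo a b) = 0 := measure_mono_null h1 (ae_iff.1 h)
  rw [Real.volume_Ioo, ENNReal.ofReal_eq_zero] at h2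
  linarith

theorem helly {f : ℕ → ℝ → ℝ} (hm : ∀ k, Monotone (f k)) (M : ℝ → ℝ)
    (hb : ∀ k x, |f k x| ≤ M x) : ∃ ψ : ℕ → ℕ, StrictMono ψ ∧ ∃ Φ : ℝ → ℝ, Monotone Φ ∧
      ∀ᵐ x, Tendsto (fun k => f (ψ k) x) atTop (𝓝 (Φ x)) := by
  set K : Set (ℚ → ℝ) := Set.pi univ fun q : ℚ => Icc (-(M q)) (M q) with hK
  have hKc : IsCompact K := isCompact_univ_pi fun q => isCompact_Icc
  have hmem : ∀ k, (fun q : ℚ => f k q) ∈ K := fun k q _ => abs_le.1 (hb k q)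
  obtain ⟨a, -, ψ, hψ, ht⟩ := hKc.tendsto_subseq hmem
  have ht' : ∀ q : ℚ, Tendsto (fun k => f (ψ k) q) atTop (𝓝 (a q)) := fun q =>
    (tendsto_pi_nhds.1 ht) q
  have ham : Monotone a := fun p q hpq =>
    le_of_tendsto_of_tendsto' (ht' p) (ht' q) fun k => hm (ψ k) (by exact_mod_cast hpq)
  set S : ℝ → Set ℝ := fun x => {y | ∃ q : ℚ, x < q ∧ y = a q} with hS
  have hSne : ∀ x, (S x).Nonempty := fun x => by
    obtain ⟨q, hq⟩ := exists_rat_gt x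
    exact ⟨a q, q, hq, rfl⟩
  have hSbd : ∀ x, ∀ p : ℚ, (p : ℝ) ≤ x → ∀ y ∈ S x, a p ≤ y := by
    rintro x p hp y ⟨q, hq, rfl⟩
    refine ham ?_
    have : (p : ℝ) < q := lt_of_le_of_lt hp hq
    exact le_of_lt (by exact_mod_cast this)
  have hSb : ∀ x, BddBelow (S x) := fun x => by
    obtain ⟨p, hp⟩ := exists_rat_lt x
    exact ⟨a p, fun y hy => hSbd x p hp.le y hy⟩
  set Φ : ℝ → ℝ := fun x => sInf (S x) with hΦ
  have hΦm : Monotone Φ := by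
    intro x y hxy
    refine csInf_le_csInf (hSb x) (hSne y) ?_
    rintro z ⟨q, hq, rfl⟩
    exact ⟨q, lt_of_le_of_lt hxy hq, rfl⟩
  have h1 : ∀ (y : ℝ) (q : ℚ), y < q → Φ y ≤ a q := fun y q h => csInf_le (hSb y) ⟨q, h, rfl⟩
  have h2 : ∀ (y : ℝ) (q : ℚ), (q : ℝ) ≤ y → a q ≤ Φ y := fun y q h =>
    le_csInf (hSne y) fun z hz => hSbd y q h z hz
  refine ⟨ψ, hψ, Φ, hΦm, ?_⟩
  have hc : ∀ᵐ x, ContinuousAt Φ x := by
    rw [ae_iff]
    exact hΦm.countable_not_continuousAt.measure_zero _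
  filter_upwards [hc] with x hx
  refine tendsto_order.2 ⟨fun b hbx => ?_, fun b hbx => ?_⟩
  · have h3 : ∀ᶠ y in 𝓝 x, b < Φ y := hx.eventually (lt_mem_nhds hbx)
    obtain ⟨δ, hδ, h4⟩ := Metric.eventually_nhds_iff.1 h3
    have h5 : b < Φ (x - δ / 2) := h4 (by rw [Real.dist_eq]; rw [abs_lt]; constructor <;> linarith)
    obtain ⟨q, hq1, hq2⟩ := exists_rat_btwn (show x - δ / 2 < x by linarith)
    have h6 : b < a q := lt_of_lt_of_le h5 (h1 _ q hq1)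
    filter_upwards [(ht' q).eventually (lt_mem_nhds h6)] with k hk
    exact lt_of_lt_of_le hk (hm (ψ k) hq2.le)
  · have h3 : ∀ᶠ y in 𝓝 x, Φ y < b := hx.eventually (gt_mem_nhds hbx)
    obtain ⟨δ, hδ, h4⟩ := Metric.eventually_nhds_iff.1 h3
    have h5 : Φ (x + δ / 2) < b := h4 (by rw [Real.dist_eq]; rw [abs_lt]; constructor <;> linarith)
    obtain ⟨q, hq1, hq2⟩ := exists_rat_btwn (show x < x + δ / 2 by linarith)
    have h6 : a q < b := lt_of_le_of_lt (h2 _ q hq2.le) h5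
    filter_upwards [(ht' q).eventually (gt_mem_nhds h6)] with k hk
    exact lt_of_le_of_lt (hm (ψ k) hq1.le) hk

end Pool.Agent.N804
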