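import Pool.Agent.N804.Agg

set_option autoImplicit false

/-! # Few bad zeros: the mean number of zeros at an ordinate is near one -/

namespace Pool.Agent.N804

open Filter Topology Set MeasureTheory
open H370 (Zf mult mem_Zf good_zeta zset NN NN_eq)
open Pool.Agent.Y750.OM (cell_moment cntmom)

/-- number of zeros of `S` at the ordinate of `s` -/
noncomputable def no (S : Finset ℂ) (s : ℂ) : ℝ := by
  classical
  exact ∑ s' ∈ S, if s.im = s'.im then (mult riemannZeta s' : ℝ) else 0

lemma no_nonneg (S : Finset ℂ) (s : ℂ) : 0 ≤ no S s := by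
  classical
  unfold no
  refine Finset.sum_nonneg fun s' _ => ?_
  split_ifs
  · positivity
  · exact le_rfl

lemma Pe_no (S : Finset ℂ) : Pe S = ∑ s ∈ S, (mult riemannZeta s : ℝ) * no S s := by
  classical
  unfold Pe no
  refine Finset.sum_congr rfl fun s _ => ?_
  rw [Finset.mul_sum]
  refine Finset.sum_congr rfl fun s' _ => ?_
  split_ifs <;> simp

/-- the mass of the shared or multiple ordinates is at most twice the mass of the bad zeros -/
lemma shared {A B : ℝ} (hA : 1 ≤ A) :
    ∑ s ∈ (Zf riemannZeta A B).filter (fun s => no (Zf riemannZeta A B) s ≠ 1),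
      (mult riemannZeta s : ℝ) ≤ 2 * Nbad (Zf riemannZeta A B) := by
  classical
  set S := Zf riemannZeta A B with hS
  have hmem : ∀ s ∈ S, s ∈ zset riemannZeta A B := fun s hs => (mem_Zf good_zeta hA).1 hs
  have h1m : ∀ s ∈ S, 1 ≤ (mult riemannZeta s : ℝ) := by
    intro s hs
    have h := hmem s hs
    have := H370.Loc.mult_pos' good_zeta (s := s) (by linarith [h.2.2.1]) h.2.2.2.2
    exact_mod_cast this
  set m : ℂ → ℝ := fun s => (mult riemannZeta s : ℝ) with hm
  have hm0 : ∀ s, 0 ≤ m s := fun s => Nat.cast_nonneg _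
  -- good zeros at shared ordinates
  have hgood : ∀ s ∈ S, ¬Bad s → no S s ≠ 1 →
      m s ≤ ∑ s' ∈ S.filter Bad, if s.im = s'.im then m s' else 0 := by
    intro s hs hb hne
    have hre : s.re = 1 / 2 := by
      by_contra h
      exact hb (Or.inl h)
    have hm1 : mult riemannZeta s = 1 := by
      by_contra h
      exact hb (Or.inr h)
    have hms : m s = 1 := by
      simp only [hm, hm1]
      norm_num
    rw [hms]
    -- some other zero at this ordinate
    have hex : ∃ s' ∈ S, s'.im = s.im ∧ s' ≠ s := by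
      by_contra hcon
      push Not at hcon
      apply hne
      unfold no
      have : ∀ s' ∈ S, (if s.im = s'.im then (mult riemannZeta s' : ℝ) else 0) =
          if s' = s then (mult riemannZeta s' : ℝ) else 0 := by
        intro s' hs'
        by_cases h : s' = s
        · rw [if_pos h, h, if_pos rfl]
        · rw [if_neg h, if_neg]
          intro h2
          exact h (hcon s' hs' h2.symm)
      rw [Finset.sum_congr rfl this, Finset.sum_ite_eq' S s, if_pos hs]
      exact hms
    obtain ⟨s', hs', him, hss⟩ := hex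
    have hb' : Bad s' := by
      left
      intro h
      apply hss
      apply Complex.ext
      · rw [h, hre]
      · exact him
    have := Finset.single_le_sum (f := fun s' => if s.im = s'.im then m s' else 0)
      (s := S.filter Bad) (fun i _ => by
        split_ifs
        · exact hm0 i
        · exact le_rfl) (Finset.mem_filter.2 ⟨hs', hb'⟩)
    refine le_trans ?_ this
    simp only [him, if_true]
    exact h1m s' hs'
  have hsplit : ∑ s ∈ S.filter (fun s => no S s ≠ 1), m s ≤
      ∑ s ∈ S, ((if Bad s then m s else 0) +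
        (if ¬Bad s then ∑ s' ∈ S.filter Bad, (if s.im = s'.im then m s' else 0) else 0)) := by
    rw [Finset.sum_filter]
    refine Finset.sum_le_sum fun s hs => ?_
    by_cases hb : Bad s
    · rw [if_pos hb, if_neg (not_not.2 hb), add_zero]
      split_ifs
      · exact le_rfl
      · exact hm0 s
    · rw [if_neg hb, if_pos hb, zero_add]
      split_ifs with h
      · exact hgood s hs hb h
      · refine Finset.sum_nonneg fun s' _ => ?_
        split_ifs
        · exact hm0 s'
        · exact le_rfl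
  refine hsplit.trans ?_
  rw [Finset.sum_add_distrib]
  have e1 : ∑ s ∈ S, (if Bad s then m s else 0) = Nbad S := by
    unfold Nbad
    rw [Finset.sum_filter]
  have e2 : ∑ s ∈ S, (if ¬Bad s then ∑ s' ∈ S.filter Bad,
      (if s.im = s'.im then m s' else 0) else 0) ≤ Nbad S := by
    have e3 : ∑ s ∈ S, (if ¬Bad s then ∑ s' ∈ S.filter Bad,
        (if s.im = s'.im then m s' else 0) else 0) =
        ∑ s' ∈ S.filter Bad, ∑ s ∈ S, (if ¬Bad s then (if s.im = s'.im then m s' else 0) else 0) := by
      rw [Finset.sum_comm]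
      refine Finset.sum_congr rfl fun s _ => ?_
      split_ifs
      · simp
      · rfl
    rw [e3]
    unfold Nbad
    refine Finset.sum_le_sum fun s' _ => ?_
    -- at most one good zero at the ordinate of `s'`
    have hone : ∑ s ∈ S, (if ¬Bad s then (if s.im = s'.im then m s' else 0) else 0) =
        ∑ s ∈ S.filter (fun s => ¬Bad s ∧ s.im = s'.im), m s' := by
      rw [Finset.sum_filter]
      refine Finset.sum_congr rfl fun s _ => ?_
      by_cases h1 : ¬Bad s
      · by_cases h2 : s.im = s'.im
        · rw [if_pos h1, if_pos h2, if_pos ⟨h1, h2⟩]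
        · rw [if_pos h1, if_neg h2, if_neg (fun h => h2 h.2)]
      · rw [if_neg h1, if_neg (fun h => h1 h.1)]
    rw [hone, Finset.sum_const, nsmul_eq_mul]
    have hcard : (S.filter (fun s => ¬Bad s ∧ s.im = s'.im)).card ≤ 1 := by
      rw [Finset.card_le_one]
      intro a ha b hb
      rw [Finset.mem_filter] at ha hb
      have ha1 : a.re = 1 / 2 := by
        by_contra h
        exact ha.2.1 (Or.inl h)
      have hb1 : b.re = 1 / 2 := by
        by_contra h
        exact hb.2.1 (Or.inl h)
      exact Complex.ext (by rw [ha1, hb1]) (by rw [ha.2.2, hb.2.2])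
    have : ((S.filter (fun s => ¬Bad s ∧ s.im = s'.im)).card : ℝ) ≤ 1 := by exact_mod_cast hcard
    calc _ ≤ 1 * m s' := mul_le_mul_of_nonneg_right this (hm0 s')
      _ = _ := one_mul _
  rw [e1]
  linarith

lemma mb_le {ε : ℝ} (hε : 0 < ε) : ∃ K T0 : ℝ, 0 ≤ K ∧ 10 ≤ T0 ∧ ∀ T : ℝ, T0 ≤ T →
    mb T ≤ 1 + K * vb T + ε := by
  classical
  obtain ⟨C, T1, hC, hT1, h⟩ := cntmom 3 (by norm_num)
  obtain ⟨T2, hT2, hnb⟩ := nb_lower
  obtain ⟨T3, hT3, hge⟩ := mb_ge
  have hpi := Real.pi_gt_three
  set D : ℝ := 2 * (9 * Real.pi) ^ 2 * C * (4 * Real.pi) with hD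
  have hD0 : 0 < D := by positivity
  set M : ℝ := D / ε with hM
  have hM0 : 0 < M := by positivity
  refine ⟨2 * M, max (max T1 T2) T3, by positivity, le_max_of_le_left (le_max_of_le_left hT1),
    fun T hT => ?_⟩
  have g1 : T1 ≤ T := (le_max_left _ _).trans ((le_max_left _ _).trans hT)
  have g2 : T2 ≤ T := (le_max_right _ _).trans ((le_max_left _ _).trans hT)
  have g3 : T3 ≤ T := (le_max_right _ _).trans hT
  have hT10 : 10 ≤ T := hT1.trans g1
  have hL : 0 < Real.log T := Real.log_pos (by linarith)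
  obtain ⟨hn1, -⟩ := hnb T g2
  obtain ⟨-, -, -, -, hn0⟩ := hge T g3
  set S := Zf riemannZeta T (2 * T) with hS
  set m : ℂ → ℝ := fun s => (mult riemannZeta s : ℝ) with hm
  have hm0 : ∀ s, 0 ≤ m s := fun s => Nat.cast_nonneg _
  have h1 := cell_moment 1 (Real.log T) 1 hL one_pos le_rfl S m hm0 (C * T) (by positivity)
    (h T g1)
  have hno : ∀ s, no S s ≤ 1 * ∑ s' ∈ S, m s' *
      (1 / (1 + (1 * (Real.log T * (s.im - s'.im))) ^ 2)) := by
    intro s
    unfold no
    rw [one_mul]
    refine Finset.sum_le_sum fun s' _ => ?_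
    split_ifs with h2
    · rw [h2]
      simp [hm]
    · exact mul_nonneg (hm0 s') (by positivity)
  have hcube : ∑ s ∈ S, m s * no S s ^ 2 ≤ 2 * (9 * Real.pi) ^ 2 * (Real.log T * (C * T)) := by
    refine le_trans (Finset.sum_le_sum fun s _ => ?_) h1
    exact mul_le_mul_of_nonneg_left (pow_le_pow_left₀ (no_nonneg S s) (hno s) 2) (hm0 s)
  have hcube2 : ∑ s ∈ S, m s * no S s ^ 2 ≤ D * nb T := by
    refine hcube.trans ?_
    rw [hD]
    calc 2 * (9 * Real.pi) ^ 2 * (Real.log T * (C * T)) =
        2 * (9 * Real.pi) ^ 2 * C * (T * Real.log T) := by ring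
      _ ≤ 2 * (9 * Real.pi) ^ 2 * C * (4 * Real.pi * nb T) := by gcongr
      _ = _ := by ring
  have hPe : Pe S ≤ ms S + (M * ∑ s ∈ S.filter (fun s => no S s ≠ 1), m s) +
      (∑ s ∈ S, m s * no S s ^ 2) / M := by
    rw [Pe_no]
    unfold ms
    rw [Finset.mul_sum, Finset.sum_filter, Finset.sum_div, ← Finset.sum_add_distrib,
      ← Finset.sum_add_distrib]
    refine Finset.sum_le_sum fun s _ => ?_
    have hn := no_nonneg S s
    have hms := hm0 s
    by_cases h2 : no S s = 1
    · rw [if_neg (not_not.2 h2), h2]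
      have : 0 ≤ m s * 1 ^ 2 / M := by positivity
      simp only [hm] at this ⊢
      linarith
    · rw [if_pos h2]
      have h3 : no S s ≤ M + no S s ^ 2 / M := by
        rcases le_total (no S s) M with h4 | h4
        · have : 0 ≤ no S s ^ 2 / M := by positivity
          linarith
        · have : no S s ≤ no S s ^ 2 / M := by
            rw [le_div_iff₀ hM0]
            nlinarith
          linarith
      have h4 : m s * no S s ≤ m s * (M + no S s ^ 2 / M) := mul_le_mul_of_nonneg_left h3 hms
      have h5 : m s * (M + no S s ^ 2 / M) = M * m s + m s * no S s ^ 2 / M := by ring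
      simp only [hm] at h4 h5 hms ⊢
      linarith
  have hsh := shared (A := T) (B := 2 * T) (by linarith)
  have hmsn : ms S = nb T := by
    rw [hS, ms_eq (by linarith)]
    rfl
  have hvb : Nbad S = vb T * nb T := by
    unfold vb
    field_simp
    rw [hS]
  unfold mb
  rw [div_le_iff₀ hn0]
  have h6 : (∑ s ∈ S, m s * no S s ^ 2) / M ≤ ε * nb T := by
    rw [div_le_iff₀ hM0]
    refine hcube2.trans (le_of_eq ?_)
    rw [hM]
    field_simp
  have h7 : M * ∑ s ∈ S.filter (fun s => no S s ≠ 1), m s ≤ M * (2 * Nbad S) :=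
    mul_le_mul_of_nonneg_left hsh hM0.le
  rw [hmsn] at hPe
  rw [hvb] at h7
  nlinarith

lemma mt_le {ε : ℝ} (hε : 0 < ε) : ∃ K T0 : ℝ, 0 ≤ K ∧ ∀ T : ℝ, T0 ≤ T →
    mt T ≤ 1 + K * vt T + ε := by
  obtain ⟨K, T1, hK, hT1, h⟩ := mb_le hε
  obtain ⟨T2, hT2, hV⟩ := Vj_large T1
  refine ⟨K, T2, hK, fun T hT => ?_⟩
  have h1 : mt T ≤ avg (fun V => (1 + K * vb V) + ε) T := avg_le fun j hj => h _ (hV T hT j hj)
  rw [avg_add, avg_add, avg_const, avg_const, avg_mul] at h1
  have h2 := half_pow_le (Jn T)
  have : (1 - (1 / 2 : ℝ) ^ Jn T) * ε ≤ 1 * ε := by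
    gcongr
    linarith [h2.1]
  unfold vt
  linarith [h2.1]

end Pool.Agent.N804
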