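import Pool.Agent.N804.AggI
import Pool.Agent.N804.Mult
import Pool.Agent.N804.Helly

set_option autoImplicit false

/-! # Limit objects -/

namespace Pool.Agent.N804

open Filter Topology Set MeasureTheory

/-- what is known about a limit `Φ` of the counting functions, the limits `μ`, `ν`, `e` of the mean
number of zeros at an ordinate and of the proportions of bad zeros and of zeros off the line -/
structure LO (Φ : ℝ → ℝ) (μ ν e : ℝ) : Prop where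
  mono : Monotone Φ
  bd : ∃ B : ℝ, 0 < B ∧ ∀ x, 0 ≤ x → 0 ≤ Φ x ∧ Φ x ≤ B * (1 + x)
  e0 : 0 ≤ e
  e1 : e ≤ ν
  mu : 1 + ν ≤ μ
  mu2 : ν = 0 → μ = 1
  id1 : ∃ C : ℝ, 0 < C ∧ ∀ δ : ℝ, 0 < δ → δ ≤ 1 / 2 → ∀ w r : ℝ → ℝ, Test w r δ →
    ∀ R : ℝ, (∀ α, |r α| ≤ R) →
      |∫ x in Ioi (0 : ℝ), w x * (Φ x - PP x + (μ - 1) / 2)| ≤ C * R * δ ^ 3
  id2 : e = 0 → ∀ δ : ℝ, 0 < δ → δ < 2 / 3 → ∀ w r : ℝ → ℝ, Test w r δ →
      ∫ x in Ioi (0 : ℝ), w x * (Φ x - PP x + (μ - 1) / 2) = 0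

/-- the same with explicit constants -/
structure LU (B C : ℝ) (Φ : ℝ → ℝ) (μ ν e : ℝ) : Prop where
  mono : Monotone Φ
  bd : ∀ x, 0 ≤ x → 0 ≤ Φ x ∧ Φ x ≤ B * (1 + x)
  e0 : 0 ≤ e
  e1 : e ≤ ν
  mu : 1 + ν ≤ μ
  muB : μ ≤ B
  mu2 : ν = 0 → μ = 1
  id1 : ∀ δ : ℝ, 0 < δ → δ ≤ 1 / 2 → ∀ w r : ℝ → ℝ, Test w r δ →
    ∀ R : ℝ, (∀ α, |r α| ≤ R) →
      |∫ x in Ioi (0 : ℝ), w x * (Φ x - PP x + (μ - 1) / 2)| ≤ C * R * δ ^ 3
  id2 : e = 0 → ∀ δ : ℝ, 0 < δ → δ < 2 / 3 → ∀ w r : ℝ → ℝ, Test w r δ →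
      ∫ x in Ioi (0 : ℝ), w x * (Φ x - PP x + (μ - 1) / 2) = 0

lemma LU.toLO {B C : ℝ} {Φ : ℝ → ℝ} {μ ν e : ℝ} (hB : 0 < B) (hC : 0 < C)
    (H : LU B C Φ μ ν e) : LO Φ μ ν e :=
  ⟨H.mono, ⟨B, hB, H.bd⟩, H.e0, H.e1, H.mu, H.mu2, ⟨C, hC, H.id1⟩, H.id2⟩

theorem extractU : ∃ B C : ℝ, 0 < B ∧ 0 < C ∧ ∀ T : ℕ → ℝ, Tendsto T atTop atTop →
    ∃ ψ : ℕ → ℕ, StrictMono ψ ∧
    ∃ (Φ : ℝ → ℝ) (μ ν e : ℝ), LU B C Φ μ ν e ∧
      (∀ᵐ x, Tendsto (fun k => ct (T (ψ k)) x) atTop (𝓝 (Φ x))) ∧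
      Tendsto (fun k => mt (T (ψ k))) atTop (𝓝 μ) ∧
      Tendsto (fun k => vt (T (ψ k))) atTop (𝓝 ν) ∧
      Tendsto (fun k => et (T (ψ k))) atTop (𝓝 e) := by
  obtain ⟨B, T0, hB, hT0, hp⟩ := ct_props
  obtain ⟨C, hC, hagg⟩ := agg1
  refine ⟨B, C, hB, hC, fun T hT => ?_⟩
  obtain ⟨T0', -, hV⟩ := Vj_large 10
  obtain ⟨N, hN⟩ := eventually_atTop.1 (hT.eventually_ge_atTop (max T0 T0'))
  set T1 : ℕ → ℝ := fun k => T (k + N) with hT1
  have hk0 : ∀ k, T0 ≤ T1 k := fun k => (le_max_left _ _).trans (hN (k + N) (by omega))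
  have hk0' : ∀ k, T0' ≤ T1 k := fun k => (le_max_right _ _).trans (hN (k + N) (by omega))
  have hP := fun k => hp (T1 k) (hk0 k)
  have hneg : ∀ k x, x ≤ 0 → ct (T1 k) x = 0 := by
    intro k x hx
    unfold ct avg
    refine Finset.sum_eq_zero fun j hj => ?_
    have h1 : cb (Vj (T1 k) j) x = 0 :=
      cb_neg (by linarith [hV _ (hk0' k) j (Finset.mem_range.1 hj)]) hx
    exact mul_eq_zero_of_right _ h1
  have hbd : ∀ k x, |ct (T1 k) x| ≤ B * (1 + |x|) := by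
    intro k x
    rcases le_total 0 x with h | h
    · obtain ⟨h1, h2⟩ := (hP k).2.1 x h
      rw [abs_of_nonneg h1, abs_of_nonneg h]
      exact h2
    · rw [hneg k x h, abs_zero]
      positivity
  obtain ⟨ψ1, hψ1, Φ, hΦm, hΦ⟩ := helly (f := fun k => ct (T1 k)) (fun k => (hP k).1) _ hbd
  have hmB : ∀ k, mt (T1 (ψ1 k)) ∈ Icc 0 B := fun k => ⟨(hP _).2.2.1, (hP _).2.2.2.1⟩
  obtain ⟨μ, hμ, ψ2, hψ2, hμt⟩ := isCompact_Icc.tendsto_subseq hmB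
  have hvB : ∀ k, vt (T1 (ψ1 (ψ2 k))) ∈ Icc 0 B := fun k =>
    ⟨(hP _).2.2.2.2.1.trans (hP _).2.2.2.2.2.1, (hP _).2.2.2.2.2.2.1⟩
  obtain ⟨ν, hν, ψ3, hψ3, hνt⟩ := isCompact_Icc.tendsto_subseq hvB
  have heB : ∀ k, et (T1 (ψ1 (ψ2 (ψ3 k)))) ∈ Icc 0 B := fun k =>
    ⟨(hP _).2.2.2.2.1, (hP _).2.2.2.2.2.1.trans (hP _).2.2.2.2.2.2.1⟩
  obtain ⟨e, he, ψ4, hψ4, het⟩ := isCompact_Icc.tendsto_subseq heB
  set χ : ℕ → ℕ := fun k => ψ1 (ψ2 (ψ3 (ψ4 k))) with hχ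
  have hχm : StrictMono χ := hψ1.comp (hψ2.comp (hψ3.comp hψ4))
  have tμ : Tendsto (fun k => mt (T1 (χ k))) atTop (𝓝 μ) :=
    hμt.comp (hψ3.comp hψ4).tendsto_atTop
  have tν : Tendsto (fun k => vt (T1 (χ k))) atTop (𝓝 ν) := hνt.comp hψ4.tendsto_atTop
  have te : Tendsto (fun k => et (T1 (χ k))) atTop (𝓝 e) := het
  have tΦ : ∀ᵐ x, Tendsto (fun k => ct (T1 (χ k)) x) atTop (𝓝 (Φ x)) := by
    filter_upwards [hΦ] with x hx
    exact hx.comp (hψ2.comp (hψ3.comp hψ4)).tendsto_atTop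
  have tT : Tendsto (fun k => T1 (χ k)) atTop atTop := by
    have h1 : Tendsto T1 atTop atTop := hT.comp (tendsto_add_atTop_nat N)
    exact h1.comp hχm.tendsto_atTop
  -- bounds for the limit
  have hΦB : ∀ x, 0 ≤ x → 0 ≤ Φ x ∧ Φ x ≤ B * (1 + x) := by
    -- almost everywhere
    have hae : ∀ᵐ x, 0 ≤ x → 0 ≤ Φ x ∧ Φ x ≤ B * (1 + x) := by
      filter_upwards [tΦ] with x hx h0
      exact ⟨ge_of_tendsto' hx fun k => ((hP _).2.1 x h0).1,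
        le_of_tendsto' hx fun k => ((hP _).2.1 x h0).2⟩
    have hae0 : ∀ᵐ x, x < 0 → 0 ≤ Φ x := by
      filter_upwards [tΦ] with x hx h0
      exact ge_of_tendsto' hx fun k => by rw [hneg _ x h0.le]
    intro x hx
    constructor
    · obtain ⟨y, hy, hy2⟩ : ∃ y ∈ Ioo (x - 1) x, (0 ≤ y → 0 ≤ Φ y ∧ Φ y ≤ B * (1 + y)) ∧
          (y < 0 → 0 ≤ Φ y) := ae_Ioo (hae.and hae0) (by linarith)
      refine le_trans ?_ (hΦm (le_of_lt hy.2))
      rcases le_or_gt 0 y with h | h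
      · exact (hy2.1 h).1
      · exact hy2.2 h
    · refine le_of_forall_pos_le_add fun ε hε => ?_
      have hεB : 0 < ε / B := by positivity
      obtain ⟨y, hy, hy2⟩ : ∃ y ∈ Ioo x (x + ε / B), (0 ≤ y → 0 ≤ Φ y ∧ Φ y ≤ B * (1 + y)) :=
        ae_Ioo hae (by linarith)
      refine (hΦm (le_of_lt hy.1)).trans ((hy2 (hx.trans (le_of_lt hy.1))).2.trans ?_)
      have h3 : B * (1 + y) ≤ B * (1 + (x + ε / B)) := by
        have := hy.2.le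
        gcongr
      refine h3.trans (le_of_eq ?_)
      field_simp
      ring
  -- dominated convergence
  have hint : ∀ δ : ℝ, ∀ w r : ℝ → ℝ, Test w r δ →
      Tendsto (fun k => ∫ x in Ioi (0 : ℝ), w x * (ct (T1 (χ k)) x - PP x +
        (mt (T1 (χ k)) - 1) / 2)) atTop
        (𝓝 (∫ x in Ioi (0 : ℝ), w x * (Φ x - PP x + (μ - 1) / 2))) := by
    intro δ w r H
    refine tendsto_integral_of_dominated_convergence
      (fun x => (B + 1) * (x ^ 1 * |w x|) + (2 * B + 1) * (x ^ 0 * |w x|)) (fun k => ?_) ?_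
      (fun k => ?_) ?_
    · have h1 := (hP (χ k)).1.measurable
      have h2 := H.cont.measurable
      have h3 := PP_cont.measurable
      exact (h2.mul ((h1.sub h3).add_const _)).aestronglyMeasurable
    · exact ((H.inta 1 le_rfl).const_mul _).add ((H.inta 0 le_rfl).const_mul _)
    · refine (ae_restrict_iff' measurableSet_Ioi).2 (ae_of_all _ fun x hx => ?_)
      have hx0 : 0 ≤ x := le_of_lt hx
      have hw := abs_nonneg (w x)
      obtain ⟨c1, c2⟩ := (hP (χ k)).2.1 x hx0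
      have c3 := PP_nonneg hx0
      have c4 := PP_le hx0
      have c5 := (hP (χ k)).2.2.1
      have c6 := (hP (χ k)).2.2.2.1
      rw [Real.norm_eq_abs, abs_mul]
      have h7 : |ct (T1 (χ k)) x - PP x + (mt (T1 (χ k)) - 1) / 2| ≤
          (B + 1) * x + (2 * B + 1) := by
        rw [abs_le]
        constructor <;> nlinarith
      calc |w x| * |ct (T1 (χ k)) x - PP x + (mt (T1 (χ k)) - 1) / 2| ≤
          |w x| * ((B + 1) * x + (2 * B + 1)) := by gcongr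
        _ = _ := by ring
    · refine ae_restrict_of_ae ?_
      filter_upwards [tΦ] with x hx
      exact ((hx.sub_const _).add ((tμ.sub_const 1).div_const 2)).const_mul _
  have hmu : 1 + ν ≤ μ := by
    have h1 : Tendsto (fun k => 1 - (1 / 2 : ℝ) ^ Jn (T1 (χ k)) + vt (T1 (χ k))) atTop
        (𝓝 (1 - 0 + ν)) := by
      refine Tendsto.add (Tendsto.const_sub 1 ?_) tν
      exact (tendsto_pow_atTop_nhds_zero_of_lt_one (by norm_num) (by norm_num)).comp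
        (Jn_tendsto.comp tT)
    rw [sub_zero] at h1
    exact le_of_tendsto_of_tendsto' h1 tμ fun k => (hP _).2.2.2.2.2.2.2.1
  refine ⟨fun k => χ k + N, fun a b hab => Nat.add_lt_add_right (hχm hab) N, Φ, μ, ν, e,
    ⟨hΦm, hΦB, ge_of_tendsto' te fun k => (hP _).2.2.2.2.1,
      le_of_tendsto_of_tendsto' te tν fun k => (hP _).2.2.2.2.2.1, hmu,
      le_of_tendsto' tμ fun k => (hP _).2.2.2.1, ?_, ?_, ?_⟩,
      tΦ, tμ, tν, te⟩
  · intro hν0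
    refine le_antisymm ?_ (by rw [hν0, add_zero] at hmu; exact hmu)
    refine le_of_forall_pos_le_add fun ε hε => ?_
    obtain ⟨K, T2, hK, hT2⟩ := mt_le hε
    have h1 : Tendsto (fun k => 1 + K * vt (T1 (χ k)) + ε) atTop (𝓝 (1 + K * ν + ε)) :=
      ((tν.const_mul K).const_add 1).add_const ε
    rw [hν0, mul_zero, add_zero] at h1
    refine le_of_tendsto_of_tendsto tμ h1 ?_
    filter_upwards [tT.eventually_ge_atTop T2] with k hk using hT2 _ hk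
  · intro δ hδ hδ1 w r H R hR
    refine le_of_forall_pos_le_add fun ε hε => ?_
    obtain ⟨T2, hT2⟩ := hagg δ hδ hδ1 w r H R hR ε hε
    refine le_of_tendsto (hint δ w r H).abs ?_
    filter_upwards [tT.eventually_ge_atTop T2] with k hk using hT2 _ hk
  · intro he0 δ hδ hδ1 w r H
    have hall : ∀ ε : ℝ, 0 < ε →
        |∫ x in Ioi (0 : ℝ), w x * (Φ x - PP x + (μ - 1) / 2)| ≤ ε := by
      intro ε hε
      obtain ⟨K, T2, hK, hT2⟩ := agg2 hδ hδ1 H hε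
      have h1 : Tendsto (fun k => K * et (T1 (χ k)) + ε) atTop (𝓝 (K * e + ε)) :=
        (te.const_mul K).add_const ε
      rw [he0, mul_zero, zero_add] at h1
      refine le_of_tendsto_of_tendsto (hint δ w r H).abs h1 ?_
      filter_upwards [tT.eventually_ge_atTop T2] with k hk using hT2 _ hk
    have h2 : |∫ x in Ioi (0 : ℝ), w x * (Φ x - PP x + (μ - 1) / 2)| ≤ 0 :=
      le_of_forall_pos_le_add fun ε hε => by rw [zero_add]; exact hall ε hε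
    exact abs_eq_zero.1 (le_antisymm h2 (abs_nonneg _))

theorem extract {T : ℕ → ℝ} (hT : Tendsto T atTop atTop) : ∃ ψ : ℕ → ℕ, StrictMono ψ ∧
    ∃ (Φ : ℝ → ℝ) (μ ν e : ℝ), LO Φ μ ν e ∧
      (∀ᵐ x, Tendsto (fun k => ct (T (ψ k)) x) atTop (𝓝 (Φ x))) ∧
      Tendsto (fun k => mt (T (ψ k))) atTop (𝓝 μ) ∧
      Tendsto (fun k => vt (T (ψ k))) atTop (𝓝 ν) ∧
      Tendsto (fun k => et (T (ψ k))) atTop (𝓝 e) := by
  obtain ⟨B, C, hB, hC, h⟩ := extractU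
  obtain ⟨ψ, hψ, Φ, μ, ν, e, H, h1⟩ := h T hT
  exact ⟨ψ, hψ, Φ, μ, ν, e, H.toLO hB hC, h1⟩

end Pool.Agent.N804
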