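import Pool.Agent.N804.LimThm

set_option autoImplicit false

/-! # One-sided conditions at large distances determine the limit object: conclusions -/

namespace Pool.Agent.N804

open Filter Topology Set MeasureTheory

/-- a dense set of zeros of the discrepancy -/
def DZ (G : ℝ → ℝ) : Prop := ∀ a b : ℝ, 0 ≤ a → a < b → ∃ y ∈ Ioo a b, G y = 0

lemma dz_of_ae {G : ℝ → ℝ} (h : ∀ᵐ x, 0 < x → gw (1 / 2) (by norm_num) x * G x = 0) : DZ G := by
  intro a b ha hab
  obtain ⟨y, hy, hne⟩ := gw_ne (show (0 : ℝ) < 1 / 2 by norm_num) hab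
  have hc := gw_cont (show (0 : ℝ) < 1 / 2 by norm_num)
  have h1 : ∀ᶠ z in 𝓝 y, gw (1 / 2) (by norm_num) z ≠ 0 := hc.continuousAt.eventually_ne hne
  have h2 : ∀ᶠ z in 𝓝 y, z ∈ Ioo a b := isOpen_Ioo.mem_nhds hy
  obtain ⟨δ, hδ, h3⟩ := Metric.eventually_nhds_iff.1 (h1.and h2)
  obtain ⟨z, hz, hz2⟩ := ae_Ioo h (show y - δ / 2 < y + δ / 2 by linarith)
  have h4 := h3 (y := z) (by
    rw [Real.dist_eq, abs_lt]
    constructor <;> linarith [hz.1, hz.2])
  have hz0 : 0 < z := lt_of_le_of_lt ha h4.2.1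
  exact ⟨z, h4.2, (mul_eq_zero.1 (hz2 hz0)).resolve_left h4.1⟩

/-- the discrepancy vanishes -/
theorem finish {Φ : ℝ → ℝ} {μ ν e : ℝ} (H : LO Φ μ ν e) (hG : DZ (Gd Φ μ)) :
    μ = 1 ∧ ν = 0 ∧ ∀ x, 0 < x → Φ x = PP x := by
  obtain ⟨B, hB, hbd⟩ := H.bd
  have hval : ∀ x, 0 < x → Φ x = PP x - (μ - 1) / 2 := by
    intro x hx
    refine le_antisymm ?_ ?_
    · refine le_of_forall_pos_le_add fun ε hε => ?_
      obtain ⟨y, hy, hy0⟩ := hG x (x + ε) hx.le (by linarith)
      have h1 := H.mono hy.1.le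
      have h2 := PP_lip hy.1.le
      have h3 := hy.2
      unfold Gd at hy0
      linarith
    · refine le_of_forall_pos_le_add fun ε hε => ?_
      obtain ⟨y, hy, hy0⟩ := hG (max 0 (x - ε)) x (le_max_left _ _)
        (max_lt hx (by linarith))
      have h1 := H.mono hy.2.le
      have h2 := PP_lip hy.2.le
      have h3 : x - ε < y := lt_of_le_of_lt (le_max_right _ _) hy.1
      unfold Gd at hy0
      linarith
  have hμ1 : 1 ≤ μ := by linarith [H.mu, H.e0, H.e1]
  have hμ : μ ≤ 1 := by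
    refine le_of_forall_pos_le_add fun ε hε => ?_
    have h1 := hval (ε / 2) (by positivity)
    have h2 := (hbd (ε / 2) (by positivity)).1
    have h3 := PP_le (show 0 ≤ ε / 2 by positivity)
    linarith
  have hμe : μ = 1 := le_antisymm hμ hμ1
  refine ⟨hμe, ?_, fun x hx => ?_⟩
  · linarith [H.mu, H.e0, H.e1]
  · rw [hval x hx, hμe]
    ring

/-- a one-sided bound at large distances gives one for all distances -/
lemma all_dist {Φ : ℝ → ℝ} {μ ν e : ℝ} (H : LO Φ μ ν e) (s : ℝ) (hs : s = 1 ∨ s = -1)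
    {K c R : ℝ} (hc : 0 < c) (hR : 0 ≤ R)
    (h : ∀ᵐ x, R ≤ x → -(K * Real.exp (-(c * x))) ≤ s * Gd Φ μ x) :
    ∃ K' : ℝ, 0 ≤ K' ∧ ∀ x, 0 ≤ x → -(K' * Real.exp (-(c * x))) ≤ s * Gd Φ μ x := by
  obtain ⟨B, hB, hbd⟩ := H.bd
  -- everywhere beyond `R + 1`
  have hall : ∀ x, R < x → -(|K| * Real.exp (c) * Real.exp (-(c * x))) ≤ s * Gd Φ μ x := by
    intro x hx
    refine le_of_forall_pos_le_add fun ε hε => ?_
    set ρ : ℝ := min ε (min 1 (x - R)) with hρ
    have hρ0 : 0 < ρ := lt_min hε (lt_min one_pos (by linarith))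
    have hρ1 : ρ ≤ ε := min_le_left _ _
    have hρ2 : ρ ≤ 1 := (min_le_right _ _).trans (min_le_left _ _)
    have hρ3 : ρ ≤ x - R := (min_le_right _ _).trans (min_le_right _ _)
    rcases hs with hs | hs
    · obtain ⟨y, hy, hy2⟩ := ae_Ioo h (show x - ρ < x by linarith)
      have h1 := hy2 (by linarith [hy.1])
      have h2 := H.mono hy.2.le
      have h3 := PP_lip hy.2.le
      have h4 : Real.exp (-(c * y)) ≤ Real.exp c * Real.exp (-(c * x)) := by
        rw [← Real.exp_add]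
        refine Real.exp_le_exp.2 ?_
        nlinarith [hy.1]
      have h5 : K * Real.exp (-(c * y)) ≤ |K| * (Real.exp c * Real.exp (-(c * x))) :=
        mul_le_mul (le_abs_self K) h4 (Real.exp_pos _).le (abs_nonneg _)
      rw [hs] at h1 ⊢
      unfold Gd at h1 ⊢
      linarith [hy.1]
    · obtain ⟨y, hy, hy2⟩ := ae_Ioo h (show x < x + ρ by linarith)
      have h1 := hy2 (by linarith [hy.1])
      have h2 := H.mono hy.1.le
      have h3 := PP_lip hy.1.le
      have h4 : Real.exp (-(c * y)) ≤ Real.exp c * Real.exp (-(c * x)) := by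
        rw [← Real.exp_add]
        refine Real.exp_le_exp.2 ?_
        nlinarith [hy.1]
      have h5 : K * Real.exp (-(c * y)) ≤ |K| * (Real.exp c * Real.exp (-(c * x))) :=
        mul_le_mul (le_abs_self K) h4 (Real.exp_pos _).le (abs_nonneg _)
      rw [hs] at h1 ⊢
      unfold Gd at h1 ⊢
      linarith [hy.2]
  set M : ℝ := (B + 1) * (1 + R) + |μ - 1| with hM
  have hM0 : 0 ≤ M := by positivity
  refine ⟨|K| * Real.exp c + M * Real.exp (c * R), by positivity, fun x hx => ?_⟩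
  have he := (Real.exp_pos (-(c * x))).le
  rcases lt_or_ge R x with hxR | hxR
  · refine le_trans ?_ (hall x hxR)
    have h6 : |K| * Real.exp c * Real.exp (-(c * x)) ≤
        (|K| * Real.exp c + M * Real.exp (c * R)) * Real.exp (-(c * x)) := by
      have : 0 ≤ M * Real.exp (c * R) := by positivity
      gcongr
      linarith
    linarith
  · have h1 : |Gd Φ μ x| ≤ M := by
      obtain ⟨c1, c2⟩ := hbd x hx
      have c3 := PP_nonneg hx
      have c4 := PP_le hx
      have c5 := neg_abs_le (μ - 1)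
      have c6 := le_abs_self (μ - 1)
      have c7 := abs_nonneg (μ - 1)
      unfold Gd
      rw [abs_le, hM]
      constructor <;> nlinarith
    have h2 : -M ≤ s * Gd Φ μ x := by
      have h3 : |s * Gd Φ μ x| ≤ M := by
        rw [abs_mul]
        rcases hs with hs | hs <;> rw [hs] <;> simpa using h1
      exact (abs_le.1 h3).1
    refine le_trans ?_ h2
    have h4 : M ≤ M * Real.exp (c * R) * Real.exp (-(c * x)) := by
      rw [mul_assoc, ← Real.exp_add]
      have : 1 ≤ Real.exp (c * R + -(c * x)) := Real.one_le_exp (by nlinarith)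
      nlinarith
    have h5 : 0 ≤ |K| * Real.exp c * Real.exp (-(c * x)) := by positivity
    nlinarith

/-- uniqueness when almost all zeros are on the line -/
theorem uniqG {Φ : ℝ → ℝ} {μ ν e : ℝ} (H : LO Φ μ ν e) (he : e = 0) (s : ℝ) (hs : s = 1 ∨ s = -1)
    {K c R : ℝ} (hc : 0 < c) (hR : 0 ≤ R)
    (h : ∀ᵐ x, R ≤ x → -(K * Real.exp (-(c * x))) ≤ s * Gd Φ μ x) : DZ (Gd Φ μ) := by
  obtain ⟨K', hK', hall⟩ := all_dist H s hs hc hR h
  obtain ⟨B, hB, hbd⟩ := H.bd
  have hmeas : Measurable fun x => s * Gd Φ μ x := by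
    have h1 := H.mono.measurable
    have h3 := PP_cont.measurable
    exact ((h1.sub h3).add_const _).const_mul s
  have hu := uniq (D := fun x => s * Gd Φ μ x) (g := gw (1 / 2) (by norm_num)) hmeas
    (gw_cont _) (gw_nonneg _) (B := B + 1 + |μ - 1| + B + 1) (K := K') (ε := c) hc ?_ hall
    (gw_dec _) ?_
  · refine dz_of_ae ?_
    filter_upwards [hu] with x hx h0
    have h1 := hx h0
    rcases hs with hs | hs
    · rw [hs, one_mul] at h1
      exact h1
    · rw [hs] at h1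
      linarith
  · intro x hx
    obtain ⟨c1, c2⟩ := hbd x hx
    have c3 := PP_nonneg hx
    have c4 := PP_le hx
    have c5 := neg_abs_le (μ - 1)
    have c6 := le_abs_self (μ - 1)
    have c7 := abs_nonneg (μ - 1)
    have h3 : |s * Gd Φ μ x| = |Gd Φ μ x| := by
      rw [abs_mul]
      rcases hs with hs | hs <;> rw [hs] <;> simp
    rw [h3]
    unfold Gd
    have hx2 : x ≤ 1 + x ^ 2 := by nlinarith [sq_nonneg (x - 1)]
    rw [abs_le]
    constructor <;> nlinarith [sq_nonneg x]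
  · intro n
    obtain ⟨r, W⟩ := tests (show (0 : ℝ) < 1 / 2 by norm_num) n
    have h1 := H.id2 he (1 / 2) (by norm_num) (by norm_num) _ r W
    have h2 : ∀ x : ℝ, x ^ (2 * n + 1) * gw (1 / 2) (by norm_num) x * (s * Gd Φ μ x) =
        s * (x ^ (2 * n + 1) * gw (1 / 2) (by norm_num) x * (Φ x - PP x + (μ - 1) / 2)) := by
      intro x
      unfold Gd
      ring
    simp_rw [h2]
    rw [integral_const_mul, h1, mul_zero]

/-- lower bound for the counts: everything follows -/
theorem limA {Φ : ℝ → ℝ} {μ ν e : ℝ} (H : LO Φ μ ν e) {K c : ℝ} (hc : 0 < c)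
    (h : ∀ᵐ x, 0 < x → PP x - K * Real.exp (-(c * x)) ≤ Φ x) :
    μ = 1 ∧ ν = 0 ∧ ∀ x, 0 < x → Φ x = PP x := by
  have hμ1 : 1 ≤ μ := by linarith [H.mu, H.e0, H.e1]
  have hstep : ∀ x, 0 < x → (μ - 1) / 2 ≤ |K| * Real.exp (-(c * x)) := by
    intro x hx
    have h1 := avg_lower H (x := x) (m := (μ - 1) / 2 - |K| * Real.exp (-(c * x))) hx.le (by
      filter_upwards [h] with y hy hxy
      have h2 := hy (hx.trans hxy)
      have h3 : Real.exp (-(c * y)) ≤ Real.exp (-(c * x)) := Real.exp_le_exp.2 (by nlinarith)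
      have h4 : K * Real.exp (-(c * y)) ≤ |K| * Real.exp (-(c * x)) :=
        mul_le_mul (le_abs_self K) h3 (Real.exp_pos _).le (abs_nonneg _)
      unfold Gd
      linarith)
    linarith
  have hlim : Tendsto (fun x : ℝ => |K| * Real.exp (-(c * x))) atTop (𝓝 (|K| * 0)) := by
    refine Tendsto.const_mul _ ?_
    refine Real.tendsto_exp_atBot.comp ?_
    exact tendsto_neg_atTop_atBot.comp (tendsto_id.const_mul_atTop hc)
  rw [mul_zero] at hlim
  have hμ2 : (μ - 1) / 2 ≤ 0 := by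
    refine ge_of_tendsto hlim ?_
    filter_upwards [eventually_gt_atTop 0] with x hx using hstep x hx
  have hμ : μ = 1 := by linarith
  have he : e = 0 := by linarith [H.mu, H.e0, H.e1]
  refine finish H (uniqG H he 1 (Or.inl rfl) (K := |K|) (R := 1) hc zero_le_one ?_)
  filter_upwards [h] with x hx h1
  have h2 := hx (by linarith)
  have h3 : K * Real.exp (-(c * x)) ≤ |K| * Real.exp (-(c * x)) :=
    mul_le_mul_of_nonneg_right (le_abs_self K) (Real.exp_pos _).le
  unfold Gd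
  rw [hμ]
  linarith

/-- almost all zeros simple and on the line, and upper bound for the counts -/
theorem limA' {Φ : ℝ → ℝ} {μ ν e : ℝ} (H : LO Φ μ ν e) (hμ : μ = 1) {K c : ℝ} (hc : 0 < c)
    (h : ∀ᵐ x, 0 < x → Φ x ≤ PP x + K * Real.exp (-(c * x))) :
    μ = 1 ∧ ν = 0 ∧ ∀ x, 0 < x → Φ x = PP x := by
  have he : e = 0 := by linarith [H.mu, H.e0, H.e1]
  refine finish H (uniqG H he (-1) (Or.inr rfl) (K := |K|) (R := 1) hc zero_le_one ?_)
  filter_upwards [h] with x hx h1
  have h2 := hx (by linarith)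
  have h3 : K * Real.exp (-(c * x)) ≤ |K| * Real.exp (-(c * x)) :=
    mul_le_mul_of_nonneg_right (le_abs_self K) (Real.exp_pos _).le
  unfold Gd
  rw [hμ]
  linarith

/-- from short steps to long ones -/
lemma chain {E : ℝ → ℝ} {S : Set ℝ} (hS : ∀ᵐ x, x ∈ S) {K c R ℓ : ℝ} (hc : 0 < c) (hℓ : 0 < ℓ)
    (hK : 0 ≤ K)
    (h : ∀ x ∈ S, ∀ y ∈ S, R ≤ x → x < y → y < x + ℓ → E y - E x ≤ K * Real.exp (-(c * x))) :
    ∃ K' : ℝ, 0 ≤ K' ∧ ∀ x ∈ S, ∀ y ∈ S, R ≤ x → x < y → E y - E x ≤ K' * Real.exp (-(c * x)) := by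
  set q : ℝ := Real.exp (-(c * (ℓ / 2))) with hq
  have hq0 : 0 < q := Real.exp_pos _
  have hq1 : q < 1 := by
    rw [hq, ← Real.exp_zero]
    exact Real.exp_lt_exp.2 (by have := mul_pos hc (half_pos hℓ); linarith)
  set K' : ℝ := K / (1 - q) with hK'
  have hK'0 : 0 ≤ K' := div_nonneg hK (by linarith)
  have hKK : K + K' * q = K' := by
    rw [hK']
    have : 1 - q ≠ 0 := by linarith
    field_simp
    ring
  have hind : ∀ n : ℕ, ∀ x ∈ S, ∀ y ∈ S, R ≤ x → x < y → y < x + ℓ + n * (ℓ / 2) →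
      E y - E x ≤ K' * Real.exp (-(c * x)) := by
    intro n
    induction n with
    | zero =>
      intro x hx y hy hR hxy hyl
      have h1 := h x hx y hy hR hxy (by simpa using hyl)
      have h2 : K * Real.exp (-(c * x)) ≤ K' * Real.exp (-(c * x)) := by
        have : K ≤ K' := by
          rw [← hKK]
          nlinarith
        have := (Real.exp_pos (-(c * x))).le
        gcongr
      linarith
    | succ n ih =>
      intro x hx y hy hR hxy hyl
      rcases lt_or_ge y (x + ℓ) with h1 | h1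
      · exact ih x hx y hy hR hxy (by
          have : (0 : ℝ) ≤ n * (ℓ / 2) := by positivity
          linarith)
      · obtain ⟨z, hz, hzS⟩ := ae_Ioo hS (show x + ℓ / 2 < x + ℓ by linarith)
        have h2 := h x hx z hzS hR (by linarith [hz.1]) hz.2
        have h3 := ih z hzS y hy (by linarith [hz.1]) (by linarith [hz.2]) (by
          push_cast at hyl
          linarith [hz.1])
        have h4 : Real.exp (-(c * z)) ≤ q * Real.exp (-(c * x)) := by
          rw [hq, ← Real.exp_add]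
          refine Real.exp_le_exp.2 ?_
          nlinarith [hz.1]
        have h5 : K' * Real.exp (-(c * z)) ≤ K' * (q * Real.exp (-(c * x))) := by gcongr
        have h6 : K * Real.exp (-(c * x)) + K' * (q * Real.exp (-(c * x))) =
            K' * Real.exp (-(c * x)) := by
          rw [← mul_assoc, ← add_mul, hKK]
        linarith
  refine ⟨K', hK'0, fun x hx y hy hR hxy => ?_⟩
  obtain ⟨n, hn⟩ := exists_nat_gt ((y - x) / (ℓ / 2))
  refine hind n x hx y hy hR hxy ?_
  rw [div_lt_iff₀ (by positivity)] at hn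
  linarith

/-- upper bounds for the windows at large distances -/
theorem limB {Φ : ℝ → ℝ} {μ ν e : ℝ} (H : LO Φ μ ν e) (he : e = 0) {K c R ℓ : ℝ} (hc : 0 < c)
    (hR : 0 ≤ R) (hℓ : 0 < ℓ) (S : Set ℝ) (hS : ∀ᵐ x, x ∈ S)
    (h : ∀ x ∈ S, ∀ y ∈ S, R ≤ x → x < y → y < x + ℓ →
      Φ y - Φ x ≤ PP y - PP x + K * Real.exp (-(c * x))) :
    μ = 1 ∧ ν = 0 ∧ ∀ x, 0 < x → Φ x = PP x := by
  obtain ⟨K', hK', h'⟩ := chain (E := Gd Φ μ) hS (K := |K|) (R := R) hc hℓ (abs_nonneg K)
    fun x hx y hy h1 h2 h3 => by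
      have h4 := h x hx y hy h1 h2 h3
      have h5 := mul_le_mul_of_nonneg_right (le_abs_self K) (Real.exp_pos (-(c * x))).le
      unfold Gd
      linarith
  refine finish H (uniqG H he 1 (Or.inl rfl) (K := K') (R := R) hc hR ?_)
  filter_upwards [hS] with x hxS hx
  have h1 := avg_upper H (x := x) (m := Gd Φ μ x + K' * Real.exp (-(c * x))) (hR.trans hx) (by
    filter_upwards [hS] with y hyS hxy
    have h2 := h' x hxS y hyS hx hxy
    linarith)
  linarith

/-- lower bounds for the windows at large distances -/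
theorem limC {Φ : ℝ → ℝ} {μ ν e : ℝ} (H : LO Φ μ ν e) (he : e = 0) {K c R ℓ : ℝ} (hc : 0 < c)
    (hR : 0 ≤ R) (hℓ : 0 < ℓ) (S : Set ℝ) (hS : ∀ᵐ x, x ∈ S)
    (h : ∀ x ∈ S, ∀ y ∈ S, R ≤ x → x < y → y < x + ℓ →
      PP y - PP x - K * Real.exp (-(c * x)) ≤ Φ y - Φ x) :
    μ = 1 ∧ ν = 0 ∧ ∀ x, 0 < x → Φ x = PP x := by
  obtain ⟨K', hK', h'⟩ := chain (E := fun x => -Gd Φ μ x) hS (K := |K|) (R := R) hc hℓ
    (abs_nonneg K) fun x hx y hy h1 h2 h3 => by
      have h4 := h x hx y hy h1 h2 h3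
      have h5 := mul_le_mul_of_nonneg_right (le_abs_self K) (Real.exp_pos (-(c * x))).le
      unfold Gd
      linarith
  refine finish H (uniqG H he (-1) (Or.inr rfl) (K := K') (R := R) hc hR ?_)
  filter_upwards [hS] with x hxS hx
  have h1 := avg_lower H (x := x) (m := Gd Φ μ x - K' * Real.exp (-(c * x))) (hR.trans hx) (by
    filter_upwards [hS] with y hyS hxy
    have h2 := h' x hxS y hyS hx hxy
    linarith)
  linarith

/-- the conjecture for all windows -/
theorem limD {Φ : ℝ → ℝ} {μ ν e : ℝ} (H : LO Φ μ ν e) (S : Set ℝ) (hS : ∀ᵐ x, x ∈ S)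
    (h : ∀ x ∈ S, ∀ y ∈ S, 0 < x → x < y → Φ y - Φ x = PP y - PP x) :
    μ = 1 ∧ ν = 0 ∧ ∀ x, 0 < x → Φ x = PP x := by
  refine finish H ?_
  intro a b ha hab
  obtain ⟨x, hx, hxS⟩ := ae_Ioo hS hab
  have hx0 : 0 < x := lt_of_le_of_lt ha hx.1
  refine ⟨x, hx, ?_⟩
  have h1 := avg_upper H (x := x) (m := Gd Φ μ x) hx0.le (by
    filter_upwards [hS] with y hyS hxy
    have h2 := h x hxS y hyS hx0 hxy
    unfold Gd
    linarith)
  have h2 := avg_lower H (x := x) (m := Gd Φ μ x) hx0.le (by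
    filter_upwards [hS] with y hyS hxy
    have h2 := h x hxS y hyS hx0 hxy
    unfold Gd
    linarith)
  linarith

end Pool.Agent.N804
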