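import Pool.Agent.N804.Cell

set_option autoImplicit false

/-! # Means of the discrepancy: test functions and convolutions -/

namespace Pool.Agent.N804

open Filter Topology Set MeasureTheory FourierTransform

lemma CT_decp {b : ℝ → ℝ} (H : SC b) (n : ℕ) : ∃ A : ℝ, 0 ≤ A ∧
    ∀ x : ℝ, (1 + |x|) ^ n * |CT b x| ≤ A := by
  obtain ⟨A0, hA0, h0⟩ := CT_dec' H 0
  obtain ⟨A1, hA1, h1⟩ := CT_dec' H n
  refine ⟨2 ^ n * (A0 + A1), by positivity, fun x => ?_⟩
  have e0 := h0 x
  have e1 := h1 x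
  rw [pow_zero, one_mul] at e0
  have hx := abs_nonneg x
  have e2 : (1 + |x|) ^ n ≤ 2 ^ n * (1 + |x| ^ n) := by
    rcases le_total |x| 1 with h | h
    · calc (1 + |x|) ^ n ≤ 2 ^ n := pow_le_pow_left₀ (by positivity) (by linarith) n
        _ = 2 ^ n * 1 := (mul_one _).symm
        _ ≤ 2 ^ n * (1 + |x| ^ n) := by
          have : 0 ≤ |x| ^ n := by positivity
          gcongr
          linarith
    · calc (1 + |x|) ^ n ≤ (2 * |x|) ^ n := pow_le_pow_left₀ (by positivity) (by linarith) n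
        _ = 2 ^ n * |x| ^ n := by rw [mul_pow]
        _ ≤ 2 ^ n * (1 + |x| ^ n) := by
          gcongr
          linarith
  calc (1 + |x|) ^ n * |CT b x| ≤ 2 ^ n * (1 + |x| ^ n) * |CT b x| := by gcongr
    _ = 2 ^ n * (|CT b x| + |x| ^ n * |CT b x|) := by ring
    _ ≤ _ := by gcongr

lemma CT_intp {b : ℝ → ℝ} (H : SC b) (n : ℕ) : Integrable fun x : ℝ => |x| ^ n * |CT b x| := by
  obtain ⟨A0, hA0, h0⟩ := CT_dec' H n
  obtain ⟨A1, hA1, h1⟩ := CT_dec' H (n + 2)
  have hC := CT_cont H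
  refine Integrable.mono' (integrable_inv_one_add_sq.const_mul (A0 + A1))
    (by fun_prop : Continuous fun x : ℝ => |x| ^ n * |CT b x|).aestronglyMeasurable
    (ae_of_all _ fun x => ?_)
  have e0 := h0 x
  have e1 := h1 x
  rw [Real.norm_eq_abs, abs_of_nonneg (by positivity), ← div_eq_mul_inv,
    le_div_iff₀ (by positivity)]
  calc |x| ^ n * |CT b x| * (1 + x ^ 2) = |x| ^ n * |CT b x| + |x| ^ (n + 2) * |CT b x| := by
        rw [← sq_abs x]
        ring
    _ ≤ _ := add_le_add e0 e1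

lemma CT_integrable {b : ℝ → ℝ} (H : SC b) : Integrable (CT b) := by
  have := CT_intp H 0
  simp only [pow_zero, one_mul] at this
  exact (integrable_norm_iff (CT_cont H).aestronglyMeasurable).1 this

/-- Fourier inversion at `0` -/
lemma CT_mass {b : ℝ → ℝ} (H : SC b) (he : ∀ x, b (-x) = b x) : ∫ x : ℝ, CT b x = b 0 := by
  have hF : ∀ x : ℝ, 𝓕 (fun α : ℝ => (b α : ℂ)) x = (CT b x : ℂ) := by
    intro x
    rw [Real.fourier_eq']
    have hi : Integrable fun v : ℝ => Complex.exp (↑(-2 * Real.pi * inner ℝ v x) * Complex.I) •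
        (b v : ℂ) := by
      have hbc := H.cont
      refine Continuous.integrable_of_hasCompactSupport (by fun_prop) ?_
      refine H.cs.mono ?_
      intro v hv
      simp only [Function.mem_support, smul_eq_mul, ne_eq, mul_eq_zero, not_or] at hv
      simpa using hv.2
    have hin : ∀ v : ℝ, -2 * Real.pi * inner ℝ v x = -(2 * Real.pi * v * x) := by
      intro v
      have : inner ℝ v x = v * x := by simp [mul_comm]
      rw [this]
      ring
    refine Complex.ext ?_ ?_
    · rw [← RCLike.re_eq_complex_re, ← integral_re hi, RCLike.re_eq_complex_re, Complex.ofReal_re]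
      unfold CT
      congr 1
      funext v
      rw [hin, smul_eq_mul, mul_comm, Complex.re_ofReal_mul,
        Complex.exp_ofReal_mul_I_re, Real.cos_neg]
    · rw [← RCLike.im_eq_complex_im, ← integral_im hi, RCLike.im_eq_complex_im, Complex.ofReal_im]
      have e1 : ∀ v : ℝ, (Complex.exp (↑(-2 * Real.pi * inner ℝ v x) * Complex.I) •
          (b v : ℂ)).im = -(b v * Real.sin (2 * Real.pi * v * x)) := by
        intro v
        rw [hin, smul_eq_mul, mul_comm, Complex.im_ofReal_mul,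
          Complex.exp_ofReal_mul_I_im, Real.sin_neg]
        ring
      simp_rw [e1]
      rw [integral_neg, neg_eq_zero]
      have e2 := integral_neg_eq_self (fun v : ℝ => b v * Real.sin (2 * Real.pi * v * x)) volume
      have e3 : ∀ v : ℝ, b (-v) * Real.sin (2 * Real.pi * (-v) * x) =
          -(b v * Real.sin (2 * Real.pi * v * x)) := by
        intro v
        rw [he, show 2 * Real.pi * (-v) * x = -(2 * Real.pi * v * x) by ring, Real.sin_neg]
        ring
      simp only [e3, integral_neg] at e2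
      linarith
  have hFf : 𝓕 (fun α : ℝ => (b α : ℂ)) = fun x => (CT b x : ℂ) := funext hF
  have hc : Continuous fun α : ℝ => (b α : ℂ) := by
    have hbc := H.cont
    fun_prop
  have hi : Integrable fun α : ℝ => (b α : ℂ) :=
    (H.cont.integrable_of_hasCompactSupport H.cs).ofReal
  have hi2 : Integrable (𝓕 (fun α : ℝ => (b α : ℂ))) := by
    rw [hFf]
    exact (CT_integrable H).ofReal
  have hinv := congrFun (hc.fourierInv_fourier_eq hi hi2) 0
  rw [Real.fourierInv_eq', hFf] at hinv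
  have e4 : ∀ v : ℝ, Complex.exp (↑(2 * Real.pi * inner ℝ v (0 : ℝ)) * Complex.I) •
      ((CT b v : ℝ) : ℂ) = ((CT b v : ℝ) : ℂ) := by
    intro v
    simp
  simp_rw [e4] at hinv
  have h5 : ∫ v : ℝ, ((CT b v : ℝ) : ℂ) = ((∫ v : ℝ, CT b v : ℝ) : ℂ) := integral_ofReal
  rw [h5] at hinv
  exact_mod_cast hinv

lemma CT_evenf (b : ℝ → ℝ) (u : ℝ) : CT b (-u) = CT b u := by
  rw [← CT_even b (-u), abs_neg, CT_even]

lemma CT_half {b : ℝ → ℝ} (H : SC b) (he : ∀ x, b (-x) = b x) :
    2 * ∫ x in Ioi (0 : ℝ), CT b x = b 0 := by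
  rw [← CT_mass H he, ← integral_comp_abs (f := CT b)]
  congr 1
  funext x
  exact CT_even b x

/-- bounds for the transforms -/
lemma r_bd {r k : ℝ → ℝ} {M : ℝ} (hr : ∀ α, α * r α = k α) (hk : ∀ α, |k α| ≤ M * |α|)
    (hl : ∃ K : ℝ, ∀ x y, |r x - r y| ≤ K * |x - y|) (α : ℝ) : |r α| ≤ M := by
  have hne : ∀ α : ℝ, α ≠ 0 → |r α| ≤ M := by
    intro α hα
    have h1 := hk α
    rw [← hr α, abs_mul, mul_comm] at h1
    exact le_of_mul_le_mul_right h1 (abs_pos.2 hα)
  by_cases hα : α = 0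
  · obtain ⟨K, hK⟩ := hl
    rw [hα]
    refine le_of_forall_pos_le_add fun ε hε => ?_
    set β : ℝ := ε / (|K| + 1) with hβ
    have hβ0 : 0 < β := by positivity
    have h1 := hne β hβ0.ne'
    have h2 := hK 0 β
    rw [zero_sub, abs_neg, abs_of_pos hβ0] at h2
    have h3 : |r 0| ≤ |r β| + |r 0 - r β| := by
      have := abs_sub_abs_le_abs_sub (r 0) (r β)
      linarith
    have h4 : K * β ≤ ε := by
      have h5 : K * β ≤ (|K| + 1) * β := by
        have := le_abs_self K
        gcongr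
        linarith
      have h6 : (|K| + 1) * β = ε := by rw [hβ]; field_simp
      linarith
    linarith
  · exact hne α hα

/-- averaged windows -/
noncomputable def ab (G b : ℝ → ℝ) (s : ℝ) : ℝ :=
  ∫ x in Ioi (0 : ℝ), (CT b (x - s) - CT b (x + s)) * G x

lemma ab_bd {B C : ℝ} {Φ : ℝ → ℝ} {μ ν e : ℝ} (H : LU B C Φ μ ν e) {b : ℝ → ℝ}
    (Hb : SC b) {κ : ℝ} (hκ : 0 < κ) (hκ1 : κ ≤ 1 / 2) (hs : ∀ α, κ < |α| → b α = 0) {M : ℝ}
    (hM : ∀ α, |b α| ≤ M) (s : ℝ) : |ab (Gd Φ μ) b s| ≤ C * (2 * |s| * M) * κ ^ 3 := by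
  obtain ⟨r, W, hr⟩ := testw hκ Hb hs s
  have hpi := Real.pi_pos
  have hM0 : 0 ≤ M := (abs_nonneg _).trans (hM 0)
  refine H.id1 κ hκ hκ1 _ r W (2 * |s| * M) (fun α => ?_)
  refine r_bd hr (fun β => ?_) W.lip α
  rw [abs_mul, abs_div, abs_of_pos hpi]
  have h1 : |Real.sin (2 * Real.pi * s * β)| ≤ 2 * Real.pi * |s| * |β| := by
    refine (Real.abs_sin_le_abs).trans (le_of_eq ?_)
    rw [abs_mul, abs_mul, abs_of_pos (by positivity : 0 < 2 * Real.pi)]
  calc |Real.sin (2 * Real.pi * s * β)| / Real.pi * |b β| ≤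
      (2 * Real.pi * |s| * |β|) / Real.pi * M := by
        have := hM β
        gcongr
    _ = 2 * |s| * M * |β| := by field_simp

end Pool.Agent.N804
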