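import Pool.Agent.N804.Mean

set_option autoImplicit false

/-! # Means of the discrepancy: integrated windows -/

namespace Pool.Agent.N804

open Filter Topology Set MeasureTheory

lemma ST_eq {k : ℝ → ℝ} (H : SC k) (x : ℝ) : CT (deriv k) x = 2 * Real.pi * x * ST k x :=
  CT_deriv H x

lemma ST_bd {h : ℝ → ℝ} (H : SC h) : ∃ A : ℝ, 0 ≤ A ∧ ∀ x : ℝ, |ST h x| ≤ A := by
  refine ⟨∫ α : ℝ, |h α|, integral_nonneg fun α => abs_nonneg _, fun x => ?_⟩
  unfold ST
  refine (abs_integral_le_integral_abs).trans (integral_mono_of_nonneg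
    (ae_of_all _ fun α => abs_nonneg _)
    (H.cont.integrable_of_hasCompactSupport H.cs).abs (ae_of_all _ fun α => ?_))
  simp only []
  rw [abs_mul]
  exact mul_le_of_le_one_right (abs_nonneg _) (Real.abs_sin_le_one _)

lemma ST_dec {h : ℝ → ℝ} (H : SC h) (n : ℕ) : ∃ A : ℝ, ∀ x : ℝ, 0 ≤ x → x ^ n * |ST h x| ≤ A := by
  have hpi := Real.pi_gt_three
  cases n with
  | zero =>
    obtain ⟨A, hA0, hA⟩ := ST_bd H
    exact ⟨A, fun x _ => by rw [pow_zero, one_mul]; exact hA x⟩
  | succ n =>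
    obtain ⟨A, hA0, hA⟩ := CT_dec' H.deriv n
    refine ⟨A, fun x hx => ?_⟩
    have h1 := hA x
    rw [CT_deriv H, abs_mul, abs_mul, abs_of_nonneg hx,
      abs_of_pos (by positivity : 0 < 2 * Real.pi)] at h1
    have h2 : 0 ≤ x ^ n * (x * |ST h x|) := by positivity
    calc x ^ (n + 1) * |ST h x| = 1 * (x ^ n * (x * |ST h x|)) := by ring
      _ ≤ (2 * Real.pi) * (x ^ n * (x * |ST h x|)) := by
        gcongr
        linarith
      _ = x ^ n * (2 * Real.pi * x * |ST h x|) := by ring
      _ ≤ A := h1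

lemma ST_cont {h : ℝ → ℝ} (H : SC h) : Continuous (ST h) := by
  unfold ST
  have hc := H.cont
  refine continuous_of_dominated (F := fun (x : ℝ) (α : ℝ) => h α * Real.sin (2 * Real.pi * α * x))
    (bound := fun α => |h α|) (fun x => ?_) (fun x => ae_of_all _ fun α => ?_)
    (H.cont.integrable_of_hasCompactSupport H.cs).abs (ae_of_all _ fun α => ?_)
  · exact (by fun_prop : Continuous fun α : ℝ => h α * Real.sin (2 * Real.pi * α * x)).aestronglyMeasurable
  · rw [Real.norm_eq_abs, abs_mul]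
    exact mul_le_of_le_one_right (abs_nonneg _) (Real.abs_sin_le_one _)
  · fun_prop

lemma sq_SC {c : ℝ → ℝ} (H : SC c) (y : ℝ) : SC (fun α => Real.sin (Real.pi * y * α) ^ 2 * c α) := by
  refine ⟨?_, H.cs.mul_left⟩
  have h1 : ContDiff ℝ (⊤ : ℕ∞) fun α : ℝ => Real.sin (Real.pi * y * α) :=
    Real.contDiff_sin.comp (contDiff_const.mul contDiff_id)
  exact (h1.pow 2).mul H.sm

/-- the tests for the means -/
theorem testm {c : ℝ → ℝ} {κ : ℝ} (hκ : 0 < κ) (H : SC c) (hs : ∀ α, κ < |α| → c α = 0) (y : ℝ) :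
    ∃ r, Test (fun x => 2 * Real.pi * ST (fun α => Real.sin (Real.pi * y * α) ^ 2 * c α) x) r κ ∧
      ∀ α, α * r α = Real.sin (Real.pi * y * α) ^ 2 * c α := by
  have hpi := Real.pi_pos
  have H2 := sq_SC H y
  have hc := ST_cont H2
  refine mk_test' H2 (by simp) (fun α hα => by rw [hs α hα, mul_zero]) hκ (fun x => rfl)
    (by fun_prop) (fun n => ?_)
  obtain ⟨A, hA⟩ := ST_dec H2 n
  refine ⟨2 * Real.pi * A, fun x hx => ?_⟩
  have h1 := hA x hx
  rw [abs_mul, abs_of_pos (by positivity : 0 < 2 * Real.pi)]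
  calc x ^ n * (2 * Real.pi * |ST (fun α => Real.sin (Real.pi * y * α) ^ 2 * c α) x|) =
      2 * Real.pi * (x ^ n * |ST (fun α => Real.sin (Real.pi * y * α) ^ 2 * c α) x|) := by ring
    _ ≤ _ := by gcongr

lemma win_ST {b : ℝ → ℝ} (H : SC b) (x s : ℝ) : CT b (x - s) - CT b (x + s) =
    ∫ α : ℝ, 2 * (b α * (Real.sin (2 * Real.pi * α * x) * Real.sin (2 * Real.pi * α * s))) := by
  unfold CT
  rw [← integral_sub (H.int_cos _) (H.int_cos _)]
  congr 1
  funext α
  have s1 : Real.cos (2 * Real.pi * α * (x - s)) =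
      Real.cos (2 * Real.pi * α * x) * Real.cos (2 * Real.pi * α * s) +
      Real.sin (2 * Real.pi * α * x) * Real.sin (2 * Real.pi * α * s) := by
    rw [← Real.cos_sub]
    congr 1
    ring
  have s2 : Real.cos (2 * Real.pi * α * (x + s)) =
      Real.cos (2 * Real.pi * α * x) * Real.cos (2 * Real.pi * α * s) -
      Real.sin (2 * Real.pi * α * x) * Real.sin (2 * Real.pi * α * s) := by
    rw [← Real.cos_add]
    congr 1
    ring
  rw [s1, s2]
  ring

lemma inner_eq {b c : ℝ → ℝ} (Hc : SC c) (Hb : SC b)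
    (hbc : ∀ α, b α = Real.pi ^ 2 * α * c α) (x y : ℝ) :
    ∫ s in (0 : ℝ)..y, (CT b (x - s) - CT b (x + s)) =
      2 * Real.pi * ST (fun α => Real.sin (Real.pi * y * α) ^ 2 * c α) x := by
  have hpi := Real.pi_pos
  have hcc := Hc.cont
  have hbb := Hb.cont
  have hder : ∀ s : ℝ, HasDerivAt
      (fun y => 2 * Real.pi * ST (fun α => Real.sin (Real.pi * y * α) ^ 2 * c α) x)
      (CT b (x - s) - CT b (x + s)) s := by
    intro s
    have h := hasDerivAt_integral_of_dominated_loc_of_deriv_le (μ := volume)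
      (F := fun y α => Real.sin (Real.pi * y * α) ^ 2 * c α * Real.sin (2 * Real.pi * α * x))
      (F' := fun y α => (Real.pi * α * Real.sin (2 * Real.pi * α * y)) * c α *
        Real.sin (2 * Real.pi * α * x))
      (x₀ := s) (s := univ) (bound := fun α => Real.pi * |α * c α|) univ_mem ?_ ?_ ?_ ?_ ?_ ?_
    · have h2 := h.2.const_mul (2 * Real.pi)
      have e : 2 * Real.pi * ∫ α : ℝ, (Real.pi * α * Real.sin (2 * Real.pi * α * s)) * c α *
          Real.sin (2 * Real.pi * α * x) = CT b (x - s) - CT b (x + s) := by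
        rw [win_ST Hb, ← integral_const_mul]
        congr 1
        funext α
        rw [hbc]
        ring
      rw [e] at h2
      exact h2
    · exact Eventually.of_forall fun y => (by fun_prop : Continuous fun α =>
        Real.sin (Real.pi * y * α) ^ 2 * c α * Real.sin (2 * Real.pi * α * x)).aestronglyMeasurable
    · exact (by fun_prop : Continuous fun α =>
        Real.sin (Real.pi * s * α) ^ 2 * c α *
          Real.sin (2 * Real.pi * α * x)).integrable_of_hasCompactSupport
        ((Hc.cs.mul_left).mul_right)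
    · exact (by fun_prop : Continuous fun α => (Real.pi * α * Real.sin (2 * Real.pi * α * s)) *
        c α * Real.sin (2 * Real.pi * α * x)).aestronglyMeasurable
    · refine ae_of_all _ fun α y _ => ?_
      rw [Real.norm_eq_abs]
      have h1 := Real.abs_sin_le_one (2 * Real.pi * α * y)
      have h2 := Real.abs_sin_le_one (2 * Real.pi * α * x)
      have e : (Real.pi * α * Real.sin (2 * Real.pi * α * y)) * c α *
          Real.sin (2 * Real.pi * α * x) = Real.pi * (α * c α) *
          (Real.sin (2 * Real.pi * α * y) * Real.sin (2 * Real.pi * α * x)) := by ring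
      rw [e, abs_mul, abs_mul, abs_of_pos hpi, abs_mul (Real.sin _)]
      refine mul_le_of_le_one_right (by positivity) ?_
      exact mul_le_one₀ h1 (abs_nonneg _) h2
    · have hi : Integrable fun α : ℝ => α * c α :=
        (by fun_prop : Continuous fun α : ℝ => α * c α).integrable_of_hasCompactSupport
          Hc.cs.mul_left
      exact hi.abs.const_mul _
    · refine ae_of_all _ fun α y _ => ?_
      have h1 : HasDerivAt (fun y : ℝ => Real.pi * y * α) (Real.pi * α) y := by
        simpa using ((hasDerivAt_id y).const_mul Real.pi).mul_const α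
      have h2 := ((h1.sin.pow 2).mul_const (c α)).mul_const (Real.sin (2 * Real.pi * α * x))
      refine HasDerivAt.congr_deriv h2 ?_
      have s1 : Real.sin (2 * Real.pi * α * y) =
          2 * Real.sin (Real.pi * y * α) * Real.cos (Real.pi * y * α) := by
        rw [← Real.sin_two_mul]
        congr 1
        ring
      rw [s1]
      push_cast
      ring
  have hcb := CT_cont Hb
  rw [intervalIntegral.integral_eq_sub_of_hasDerivAt (fun s _ => hder s)
    ((by fun_prop : Continuous fun s => CT b (x - s) - CT b (x + s)).intervalIntegrable _ _)]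
  have h0 : ST (fun α => Real.sin (Real.pi * 0 * α) ^ 2 * c α) x = 0 := by
    unfold ST
    simp
  rw [h0, mul_zero, sub_zero]

/-- Fubini for the windows -/
lemma ab_fub {G b : ℝ → ℝ} (hG : Measurable G) {B : ℝ} (hB : 0 ≤ B)
    (hGB : ∀ x, 0 ≤ x → |G x| ≤ B * (1 + x)) (H : SC b) {y : ℝ} (hy : 0 ≤ y) :
    IntervalIntegrable (ab G b) volume 0 y ∧
    ∫ s in (0 : ℝ)..y, ab G b s =
      ∫ x in Ioi (0 : ℝ), (∫ s in (0 : ℝ)..y, (CT b (x - s) - CT b (x + s))) * G x := by
  have hcb := CT_cont H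
  obtain ⟨A, hA0, hA⟩ := CT_decp H 3
  have hint : Integrable (Function.uncurry fun s x : ℝ => (CT b (x - s) - CT b (x + s)) * G x)
      ((volume.restrict (Ioc (0 : ℝ) y)).prod (volume.restrict (Ioi (0 : ℝ)))) := by
    have h1 : Integrable (fun p : ℝ × ℝ => (fun _ : ℝ => (1 : ℝ)) p.1 * (1 + p.2 ^ 2)⁻¹)
        ((volume.restrict (Ioc (0 : ℝ) y)).prod (volume.restrict (Ioi (0 : ℝ)))) :=
      Integrable.mul_prod (integrable_const 1) integrable_inv_one_add_sq.integrableOn
    refine Integrable.mono' (h1.const_mul (2 * (A * (1 + y) ^ 3) * B)) ?_ ?_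
    · refine Measurable.aestronglyMeasurable ?_
      have hm := hcb.measurable
      unfold Function.uncurry
      fun_prop
    · have hae1 : ∀ᵐ p ∂((volume.restrict (Ioc (0 : ℝ) y)).prod
          (volume.restrict (Ioi (0 : ℝ)))), p.2 ∈ Ioi (0 : ℝ) :=
        (Measure.quasiMeasurePreserving_snd (μ := volume.restrict (Ioc (0 : ℝ) y))
          (ν := volume.restrict (Ioi (0 : ℝ)))).ae (ae_restrict_mem measurableSet_Ioi)
      have hae2 : ∀ᵐ p ∂((volume.restrict (Ioc (0 : ℝ) y)).prod
          (volume.restrict (Ioi (0 : ℝ)))), p.1 ∈ Ioc (0 : ℝ) y :=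
        (Measure.quasiMeasurePreserving_fst (μ := volume.restrict (Ioc (0 : ℝ) y))
          (ν := volume.restrict (Ioi (0 : ℝ)))).ae (ae_restrict_mem measurableSet_Ioc)
      filter_upwards [hae1, hae2] with p hp1 hp2
      obtain ⟨s, x⟩ := p
      simp only [Function.uncurry] at hp1 hp2 ⊢
      have hx : 0 < x := hp1
      have key : ∀ u : ℝ, x ≤ |u| + y → (1 + x) ^ 3 * |CT b u| ≤ A * (1 + y) ^ 3 := by
        intro u hu
        have hu0 := abs_nonneg u
        have h2 : 1 + x ≤ (1 + |u|) * (1 + y) := by nlinarith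
        calc (1 + x) ^ 3 * |CT b u| ≤ ((1 + |u|) * (1 + y)) ^ 3 * |CT b u| := by gcongr
          _ = (1 + |u|) ^ 3 * |CT b u| * (1 + y) ^ 3 := by ring
          _ ≤ A * (1 + y) ^ 3 := by
            have := hA u
            gcongr
      have k1 := key (x - s) (by
        have := abs_sub_abs_le_abs_sub x s
        rw [abs_of_pos hx, abs_of_pos hp2.1] at this
        linarith [hp2.2])
      have k2 := key (x + s) (by
        rw [abs_of_pos (by linarith [hp2.1])]
        linarith [hp2.1])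
      have k3 := abs_sub (CT b (x - s)) (CT b (x + s))
      have k4 := hGB x hx.le
      rw [Real.norm_eq_abs, abs_mul, one_mul, ← div_eq_mul_inv, le_div_iff₀ (by positivity)]
      have k5 : 1 + x ^ 2 ≤ (1 + x) ^ 2 := by nlinarith
      calc |CT b (x - s) - CT b (x + s)| * |G x| * (1 + x ^ 2) ≤
          (|CT b (x - s)| + |CT b (x + s)|) * (B * (1 + x)) * (1 + x) ^ 2 := by gcongr
        _ = ((1 + x) ^ 3 * |CT b (x - s)| + (1 + x) ^ 3 * |CT b (x + s)|) * B := by ring
        _ ≤ (A * (1 + y) ^ 3 + A * (1 + y) ^ 3) * B := by gcongr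
        _ = _ := by ring
  constructor
  · rw [intervalIntegrable_iff_integrableOn_Ioc_of_le hy]
    exact hint.integral_prod_left
  · rw [intervalIntegral.integral_of_le hy]
    unfold ab
    rw [integral_integral_swap hint]
    refine integral_congr_ae (ae_of_all _ fun x => ?_)
    simp only []
    rw [intervalIntegral.integral_of_le hy, integral_mul_const]

/-- means over windows are small for weights divisible by the square of the frequency -/
lemma ab_mean {B C : ℝ} {Φ : ℝ → ℝ} {μ ν e : ℝ} (H : LU B C Φ μ ν e) (hB : 0 < B) (hC : 0 < C)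
    {b c : ℝ → ℝ} (Hb : SC b) (Hc : SC c) (hbc : ∀ α, b α = Real.pi ^ 2 * α * c α) {κ : ℝ}
    (hκ : 0 < κ) (hκ1 : κ ≤ 1 / 2) (hs : ∀ α, κ < |α| → c α = 0) {R : ℝ}
    (hR : ∀ α, |c α| ≤ R * |α|) {y : ℝ} (hy : 0 ≤ y) :
    |∫ s in (0 : ℝ)..y, ab (Gd Φ μ) b s| ≤ C * R * κ ^ 3 := by
  have HL := H.toLO hB hC
  obtain ⟨B', hB', hGB⟩ := Gd_bd HL
  obtain ⟨-, e1⟩ := ab_fub (Gd_meas HL) hB'.le hGB Hb hy
  obtain ⟨r, W, hr⟩ := testm hκ Hc hs y
  rw [e1]
  simp_rw [inner_eq Hc Hb hbc]
  refine H.id1 κ hκ hκ1 _ r W R (fun α => ?_)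
  refine r_bd hr (fun β => ?_) W.lip α
  rw [abs_mul, abs_of_nonneg (sq_nonneg (Real.sin (Real.pi * y * β)))]
  have h1 : Real.sin (Real.pi * y * β) ^ 2 ≤ 1 := Real.sin_sq_le_one _
  calc Real.sin (Real.pi * y * β) ^ 2 * |c β| ≤ 1 * |c β| := by gcongr
    _ ≤ R * |β| := by rw [one_mul]; exact hR β

end Pool.Agent.N804
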