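import Pool.Agent.N804.Mean2

set_option autoImplicit false

/-! # Means of the discrepancy: comparison with the means of the averaged windows -/

namespace Pool.Agent.N804

open Filter Topology Set MeasureTheory

/-- oscillation of the odd extension -/
lemma osc {B C : ℝ} {Φ : ℝ → ℝ} {μ ν e : ℝ} (H : LU B C Φ μ ν e) (hB : 0 < B) (hC : 0 < C)
    {B' : ℝ} (hB' : 0 < B') (hloc : ∀ x y : ℝ, x ≤ y → Φ y - Φ x ≤ B' * (1 + (y - x))) (x y : ℝ) :
    |od (Gd Φ μ) y - od (Gd Φ μ) x| ≤ (3 * B + 2 * B' + 1) * (1 + |y - x|) := by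
  have HL := H.toLO hB hC
  have hM := MM_mono HL
  have hμB := H.muB
  have hμ1 : 1 ≤ μ := by linarith [H.mu, H.e0, H.e1]
  have hΦ0 := (H.bd 0 le_rfl).2
  have hup : ∀ y, 0 ≤ y → MM Φ μ y ≤ B + B' * (1 + y) + B / 2 := by
    intro y hy
    rcases hy.lt_or_eq with h | h
    · rw [MM_pos h]
      have := hloc 0 y hy
      rw [sub_zero] at this
      linarith
    · rw [← h]
      have h0 : MM Φ μ 0 = 0 := by
        have := MM_odd Φ μ 0
        rw [neg_zero] at this
        linarith
      rw [h0]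
      positivity
  have key : ∀ x y : ℝ, x ≤ y → |od (Gd Φ μ) y - od (Gd Φ μ) x| ≤
      (3 * B + 2 * B' + 1) * (1 + (y - x)) := by
    intro x y hxy
    have h1 : MM Φ μ y - MM Φ μ x ≤ (3 * B + 2 * B') * (1 + (y - x)) := by
      have hd : 0 ≤ y - x := by linarith
      have hBd : 0 ≤ B * (y - x) := by positivity
      have hBd' : 0 ≤ B' * (y - x) := by positivity
      rcases lt_or_ge 0 x with h | h
      · rw [MM_pos h, MM_pos (lt_of_lt_of_le h hxy)]
        have := hloc x y hxy
        nlinarith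
      · rcases lt_or_ge y 0 with h2 | h2
        · have e1 : MM Φ μ y = -MM Φ μ (-y) := by rw [MM_odd, neg_neg]
          have e2 : MM Φ μ x = -MM Φ μ (-x) := by rw [MM_odd, neg_neg]
          rw [e1, e2, MM_pos (by linarith : 0 < -y), MM_pos (by linarith : 0 < -x)]
          have := hloc (-y) (-x) (by linarith)
          nlinarith
        · have e2 : MM Φ μ x = -MM Φ μ (-x) := by rw [MM_odd, neg_neg]
          rw [e2]
          have a1 := hup y h2
          have a2 := hup (-x) (by linarith)
          nlinarith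
    have h2 := hM hxy
    have h3 := PP_lip hxy
    have h4 := PP_mono hxy
    have e3 : od (Gd Φ μ) y - od (Gd Φ μ) x = (MM Φ μ y - MM Φ μ x) - (PP y - PP x) := by
      unfold MM
      ring
    rw [e3, abs_le]
    have hd : 0 ≤ y - x := by linarith
    constructor
    · nlinarith [mul_nonneg hB.le hd, mul_nonneg hB'.le hd]
    · nlinarith [mul_nonneg hB.le hd, mul_nonneg hB'.le hd]
  rcases le_total x y with h | h
  · rw [abs_of_nonneg (by linarith : 0 ≤ y - x)]
    exact key x y h
  · rw [abs_sub_comm, abs_sub_comm y x, abs_of_nonneg (by linarith : 0 ≤ x - y)]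
    exact key y x h

lemma od_ii {Φ : ℝ → ℝ} {μ ν e : ℝ} (H : LO Φ μ ν e) (a b : ℝ) :
    IntervalIntegrable (od (Gd Φ μ)) volume a b := by
  have e : od (Gd Φ μ) = fun x => MM Φ μ x - PP x := by
    funext x
    unfold MM
    ring
  rw [e]
  exact (MM_mono H).intervalIntegrable.sub (PP_cont.intervalIntegrable _ _)

/-- primitive of the odd extension -/
noncomputable def Hp (G : ℝ → ℝ) (u : ℝ) : ℝ := ∫ v in (0 : ℝ)..u, od G v

lemma Hp_even (G : ℝ → ℝ) (u : ℝ) : Hp G (-u) = Hp G u := by
  unfold Hp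
  have h := intervalIntegral.integral_comp_neg (a := (0 : ℝ)) (b := u) (fun v => od G v)
  rw [neg_zero] at h
  rw [intervalIntegral.integral_symm, ← h, ← intervalIntegral.integral_neg]
  congr 1
  funext v
  rw [od_odd, neg_neg]

lemma Hp_diff {G : ℝ → ℝ} (hi : ∀ a b, IntervalIntegrable (od G) volume a b) (a b : ℝ) :
    ∫ v in a..b, od G v = Hp G b - Hp G a := by
  unfold Hp
  rw [intervalIntegral.integral_interval_sub_left (hi _ _) (hi _ _)]

/-- means of windows -/
lemma Es_mean {G : ℝ → ℝ} (hi : ∀ a b, IntervalIntegrable (od G) volume a b) {B₂ : ℝ}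
    (ho : ∀ x y : ℝ, |od G y - od G x| ≤ B₂ * (1 + |y - x|)) (hB₂ : 0 ≤ B₂) {t : ℝ} (ht : 0 ≤ t)
    (y : ℝ) : |(∫ s in (0 : ℝ)..y, Es G s t) - 2 * Hp G y| ≤ B₂ * (3 * t + 4 * t ^ 2) := by
  have h0 : od G 0 = 0 := by
    have := od_odd G 0
    rw [neg_zero] at this
    linarith
  have i1 : ∀ c a b : ℝ, IntervalIntegrable (fun s => od G (c + s)) volume a b := by
    intro c a b
    have h := (hi (a + c) (b + c)).comp_add_right c
    simp only [add_sub_cancel_right] at h
    exact h.congr_ae (ae_of_all _ fun s => by simp only [add_comm])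
  have i2 : ∀ c a b : ℝ, IntervalIntegrable (fun s => od G (c - s)) volume a b := by
    intro c a b
    have h := (hi (c - a) (c - b)).comp_sub_left c
    simp only [sub_sub_cancel] at h
    exact h
  have e1 : ∫ s in (0 : ℝ)..y, Es G s t = Hp G (t + y) + Hp G (t - y) - 2 * Hp G t := by
    have a1 : ∫ s in (0 : ℝ)..y, Es G s t =
        (∫ s in (0 : ℝ)..y, od G (t + s)) - ∫ s in (0 : ℝ)..y, od G (t - s) := by
      rw [← intervalIntegral.integral_sub (i1 _ _ _) (i2 _ _ _)]
      rfl
    rw [a1, intervalIntegral.integral_comp_add_left (fun v => od G v),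
      intervalIntegral.integral_comp_sub_left (fun v => od G v), add_zero, sub_zero,
      Hp_diff hi, Hp_diff hi]
    ring
  have e2 : (∫ s in (0 : ℝ)..y, Es G s t) - 2 * Hp G y =
      ∫ s in (0 : ℝ)..t, (od G (y + s) - od G (y - s) - 2 * od G s) := by
    rw [intervalIntegral.integral_sub ((i1 _ _ _).sub (i2 _ _ _)) ((hi _ _).const_mul 2),
      intervalIntegral.integral_sub (i1 _ _ _) (i2 _ _ _), intervalIntegral.integral_const_mul,
      intervalIntegral.integral_comp_add_left (fun v => od G v),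
      intervalIntegral.integral_comp_sub_left (fun v => od G v), add_zero, sub_zero,
      Hp_diff hi, Hp_diff hi, Hp_diff hi, e1]
    have e3 : Hp G (t - y) = Hp G (y - t) := by
      rw [← Hp_even]
      congr 1
      ring
    have e4 : Hp G 0 = 0 := by
      unfold Hp
      simp
    rw [e3, e4, add_comm t y]
    ring
  rw [e2]
  have h5 := intervalIntegral.norm_integral_le_of_norm_le_const (a := (0 : ℝ)) (b := t)
    (f := fun s => od G (y + s) - od G (y - s) - 2 * od G s) (C := B₂ * (3 + 4 * t)) (by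
      intro s hs
      rw [uIoc_of_le ht] at hs
      rw [Real.norm_eq_abs]
      have k1 := ho (y - s) (y + s)
      have k2 := ho 0 s
      rw [h0, sub_zero, sub_zero, abs_of_pos hs.1] at k2
      have k3 : |y + s - (y - s)| = 2 * s := by
        rw [show y + s - (y - s) = 2 * s by ring, abs_of_pos (by linarith [hs.1])]
      rw [k3] at k1
      have k4 := abs_sub (od G (y + s) - od G (y - s)) (2 * od G s)
      rw [abs_mul, abs_two] at k4
      have : B₂ * s ≤ B₂ * t := mul_le_mul_of_nonneg_left hs.2 hB₂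
      nlinarith)
  rw [Real.norm_eq_abs, sub_zero, abs_of_nonneg ht] at h5
  refine h5.trans (le_of_eq ?_)
  ring

/-- comparison of the mean of the discrepancy and of the averaged windows -/
lemma ab_cmp {G b : ℝ → ℝ} (hG : Measurable G) {B : ℝ} (hB : 0 < B)
    (hGB : ∀ x, 0 ≤ x → |G x| ≤ B * (1 + x))
    (hi : ∀ a b, IntervalIntegrable (od G) volume a b) {B₂ : ℝ}
    (ho : ∀ x y : ℝ, |od G y - od G x| ≤ B₂ * (1 + |y - x|)) (hB₂ : 0 ≤ B₂) (H : SC b)
    (he : ∀ x, b (-x) = b x) {y : ℝ} (hy : 0 ≤ y) :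
    |(∫ s in (0 : ℝ)..y, ab G b s) - b 0 * Hp G y| ≤
      B₂ * ∫ t in Ioi (0 : ℝ), (3 * (|t| ^ 1 * |CT b t|) + 4 * (|t| ^ 2 * |CT b t|)) := by
  have hcb := CT_cont H
  have hab : ∀ s, ab G b s = ∫ t in Ioi (0 : ℝ), CT b t * Es G s t := by
    intro s
    unfold ab
    rw [Es_int hG hB hGB H s]
  have hom := od_meas hG
  have hint : Integrable (Function.uncurry fun s t : ℝ => CT b t * Es G s t)
      ((volume.restrict (Ioc (0 : ℝ) y)).prod (volume.restrict (Ioi (0 : ℝ)))) := by
    have h1 : Integrable (fun p : ℝ × ℝ => (fun _ : ℝ => (1 : ℝ)) p.1 * |CT b p.2|)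
        ((volume.restrict (Ioc (0 : ℝ) y)).prod (volume.restrict (Ioi (0 : ℝ)))) :=
      Integrable.mul_prod (integrable_const 1) (CT_integrable H).abs.integrableOn
    refine Integrable.mono' (h1.const_mul (B₂ * (1 + 2 * y))) ?_ ?_
    · refine Measurable.aestronglyMeasurable ?_
      have hm := hcb.measurable
      unfold Function.uncurry Es
      fun_prop
    · have hae2 : ∀ᵐ p ∂((volume.restrict (Ioc (0 : ℝ) y)).prod
          (volume.restrict (Ioi (0 : ℝ)))), p.1 ∈ Ioc (0 : ℝ) y :=
        (Measure.quasiMeasurePreserving_fst (μ := volume.restrict (Ioc (0 : ℝ) y))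
          (ν := volume.restrict (Ioi (0 : ℝ)))).ae (ae_restrict_mem measurableSet_Ioc)
      filter_upwards [hae2] with p hp2
      obtain ⟨s, t⟩ := p
      simp only [Function.uncurry] at hp2 ⊢
      rw [Real.norm_eq_abs, abs_mul, one_mul, mul_comm]
      refine mul_le_mul_of_nonneg_right ?_ (abs_nonneg _)
      unfold Es
      refine (ho (t - s) (t + s)).trans ?_
      rw [show t + s - (t - s) = 2 * s by ring, abs_of_pos (by linarith [hp2.1])]
      have := hp2.2
      gcongr
  have e1 : ∫ s in (0 : ℝ)..y, ab G b s =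
      ∫ t in Ioi (0 : ℝ), CT b t * ∫ s in (0 : ℝ)..y, Es G s t := by
    rw [intervalIntegral.integral_of_le hy]
    simp_rw [hab]
    rw [integral_integral_swap hint]
    refine integral_congr_ae (ae_of_all _ fun t => ?_)
    simp only []
    rw [intervalIntegral.integral_of_le hy, integral_const_mul]
  have hcI : IntegrableOn (CT b) (Ioi 0) := (CT_integrable H).integrableOn
  have i3 : IntegrableOn (fun t => CT b t * ∫ s in (0 : ℝ)..y, Es G s t) (Ioi 0) := by
    have h2 := hint.integral_prod_right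
    refine h2.congr (ae_of_all _ fun t => ?_)
    simp only [Function.uncurry]
    rw [intervalIntegral.integral_of_le hy, integral_const_mul]
  have e2 : (∫ s in (0 : ℝ)..y, ab G b s) - b 0 * Hp G y =
      ∫ t in Ioi (0 : ℝ), CT b t * ((∫ s in (0 : ℝ)..y, Es G s t) - 2 * Hp G y) := by
    rw [e1, ← CT_half H he]
    have e3 : 2 * (∫ x in Ioi (0 : ℝ), CT b x) * Hp G y =
        ∫ x in Ioi (0 : ℝ), CT b x * (2 * Hp G y) := by
      rw [integral_mul_const]
      ring
    rw [e3, ← integral_sub i3 (hcI.mul_const _)]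
    congr 1
    funext t
    ring
  rw [e2, ← integral_const_mul]
  refine abs_integral_le_integral_abs.trans (integral_mono_of_nonneg
    (ae_of_all _ fun t => abs_nonneg _) ?_ ?_)
  · exact ((((CT_intp H 1).const_mul 3).add ((CT_intp H 2).const_mul 4)).const_mul B₂).integrableOn
  · filter_upwards [ae_restrict_mem measurableSet_Ioi] with t ht
    have ht0 : 0 < t := ht
    rw [abs_mul, pow_one, abs_of_pos ht0]
    have h5 := Es_mean hi ho hB₂ ht0.le y
    calc |CT b t| * |(∫ s in (0 : ℝ)..y, Es G s t) - 2 * Hp G y| ≤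
        |CT b t| * (B₂ * (3 * t + 4 * t ^ 2)) := by gcongr
      _ = _ := by ring

end Pool.Agent.N804
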