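import Pool.Agent.N804.Mean3

set_option autoImplicit false

/-! # The mean of the discrepancy is bounded -/

namespace Pool.Agent.N804

open Filter Topology Set MeasureTheory

/-- the base weight -/
noncomputable def bb : ContDiffBump (0 : ℝ) := ⟨1 / 4, 1 / 2, by norm_num, by norm_num⟩

lemma bb_one {x : ℝ} (hx : |x| ≤ 1 / 4) : bb x = 1 := by
  refine bb.one_of_mem_closedBall ?_
  rw [Metric.mem_closedBall, Real.dist_eq, sub_zero]
  exact hx

lemma bb_zero {x : ℝ} (hx : 1 / 2 ≤ |x|) : bb x = 0 := by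
  refine bb.zero_of_le_dist ?_
  rw [Real.dist_eq, sub_zero]
  exact hx

lemma bb_abs (x : ℝ) : |bb x| ≤ 1 := by
  rw [abs_of_nonneg bb.nonneg]
  exact bb.le_one

/-- dilations -/
noncomputable def bn (n : ℕ) (α : ℝ) : ℝ := bb (2 ^ n * α)

lemma bn_zero (n : ℕ) {α : ℝ} (h : 1 / 2 / 2 ^ n < |α|) : bn n α = 0 := by
  refine bb_zero ?_
  rw [abs_mul, abs_of_pos (by positivity : (0 : ℝ) < 2 ^ n)]
  rw [div_lt_iff₀ (by positivity)] at h
  linarith

lemma sc_of {f : ℝ → ℝ} (h1 : ContDiff ℝ (⊤ : ℕ∞) f) {κ : ℝ} (h2 : ∀ α, κ < |α| → f α = 0) :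
    SC f := by
  refine ⟨h1, HasCompactSupport.intro (isCompact_Icc (a := -κ) (b := κ)) fun x hx => h2 x ?_⟩
  by_contra hcon
  push Not at hcon
  exact hx (abs_le.1 hcon)

lemma bn_SC (n : ℕ) : SC (bn n) :=
  sc_of (bb.contDiff.comp (contDiff_const.mul contDiff_id)) fun _ h => bn_zero n h

lemma bn_even (n : ℕ) (x : ℝ) : bn n (-x) = bn n x := by
  unfold bn
  rw [mul_neg]
  exact bb.neg _

/-- differences of dilations -/
noncomputable def dn (n : ℕ) (α : ℝ) : ℝ := bn n α - bn (n + 1) α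

lemma dn_SC (n : ℕ) : SC (dn n) :=
  sc_of (κ := 1 / 2 / 2 ^ n) ((bn_SC n).sm.sub (bn_SC (n + 1)).sm) fun α h => by
    have h2 : (1 : ℝ) / 2 / 2 ^ (n + 1) < |α| := by
      refine lt_of_le_of_lt ?_ h
      have : (2 : ℝ) ^ n ≤ 2 ^ (n + 1) := pow_le_pow_right₀ (by norm_num) (by omega)
      gcongr
    unfold dn
    rw [bn_zero n h, bn_zero (n + 1) h2, sub_zero]

/-- the difference divided by the frequency -/
noncomputable def cz (α : ℝ) : ℝ := (bb α - bb (2 * α)) / (Real.pi ^ 2 * α)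

lemma cz_near {α : ℝ} (h : |α| ≤ 1 / 8) : bb α - bb (2 * α) = 0 := by
  rw [bb_one (by linarith), bb_one (by rw [abs_mul, abs_two]; linarith), sub_self]

lemma cz_zero {α : ℝ} (h : 1 / 2 < |α|) : cz α = 0 := by
  unfold cz
  rw [bb_zero h.le, bb_zero (by rw [abs_mul, abs_two]; linarith), sub_self, zero_div]

lemma cz_SC : SC cz := by
  refine sc_of ?_ fun _ h => cz_zero h
  rw [contDiff_iff_contDiffAt]
  intro α
  by_cases h : |α| < 1 / 8
  · have he : cz =ᶠ[𝓝 α] fun _ => 0 := by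
      filter_upwards [(isOpen_lt continuous_abs continuous_const).mem_nhds h] with β hβ
      have hβ' : |β| < 1 / 8 := hβ
      unfold cz
      rw [cz_near hβ'.le, zero_div]
    exact contDiffAt_const.congr_of_eventuallyEq he
  · have hα : α ≠ 0 := by
      intro h0
      rw [h0, abs_zero] at h
      norm_num at h
    have hpi := Real.pi_pos
    have h1 : ContDiff ℝ (⊤ : ℕ∞) fun α : ℝ => bb α - bb (2 * α) :=
      bb.contDiff.sub (bb.contDiff.comp (contDiff_const.mul contDiff_id))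
    have h2 : ContDiff ℝ (⊤ : ℕ∞) fun α : ℝ => Real.pi ^ 2 * α := contDiff_const.mul contDiff_id
    exact h1.contDiffAt.div h2.contDiffAt (by positivity)

lemma cz_mul (α : ℝ) : bb α - bb (2 * α) = Real.pi ^ 2 * α * cz α := by
  have hpi := Real.pi_pos
  unfold cz
  by_cases h : α = 0
  · rw [h]
    simp
  · have : Real.pi ^ 2 * α ≠ 0 := by positivity
    field_simp

lemma cz_bd (α : ℝ) : |cz α| ≤ 8 * |α| := by
  have hpi := Real.pi_gt_three
  by_cases h : |α| ≤ 1 / 8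
  · unfold cz
    rw [cz_near h, zero_div, abs_zero]
    positivity
  · push Not at h
    have h0 : 0 < |α| := by linarith
    have h1 : |bb α - bb (2 * α)| ≤ 1 := by
      have a1 : 0 ≤ bb α := bb.nonneg
      have a2 : bb α ≤ 1 := bb.le_one
      have a3 : 0 ≤ bb (2 * α) := bb.nonneg
      have a4 : bb (2 * α) ≤ 1 := bb.le_one
      rw [abs_le]
      constructor <;> linarith
    unfold cz
    rw [abs_div, abs_mul, abs_of_pos (by positivity : 0 < Real.pi ^ 2), div_le_iff₀ (by positivity)]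
    have h2 : 1 / 64 ≤ |α| * |α| := by nlinarith
    have h3 : 9 ≤ Real.pi ^ 2 := by nlinarith
    calc |bb α - bb (2 * α)| ≤ 1 := h1
      _ ≤ 8 * (1 / 64) * 9 := by norm_num
      _ ≤ 8 * (|α| * |α|) * Real.pi ^ 2 := by gcongr
      _ = _ := by ring

/-- dilations of the quotient -/
noncomputable def czn (n : ℕ) (α : ℝ) : ℝ := 2 ^ n * cz (2 ^ n * α)

lemma czn_zero (n : ℕ) {α : ℝ} (h : 1 / 2 / 2 ^ n < |α|) : czn n α = 0 := by
  unfold czn
  rw [cz_zero, mul_zero]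
  rw [abs_mul, abs_of_pos (by positivity : (0 : ℝ) < 2 ^ n)]
  rw [div_lt_iff₀ (by positivity)] at h
  linarith

lemma czn_SC (n : ℕ) : SC (czn n) :=
  sc_of (contDiff_const.mul (cz_SC.sm.comp (contDiff_const.mul contDiff_id)))
    fun _ h => czn_zero n h

lemma czn_mul (n : ℕ) (α : ℝ) : dn n α = Real.pi ^ 2 * α * czn n α := by
  unfold dn bn czn
  rw [show (2 : ℝ) ^ (n + 1) * α = 2 * (2 ^ n * α) by ring, cz_mul]
  ring

lemma czn_bd (n : ℕ) (α : ℝ) : |czn n α| ≤ 8 * 4 ^ n * |α| := by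
  unfold czn
  have h := cz_bd (2 ^ n * α)
  rw [abs_mul (2 ^ n) α, abs_of_pos (by positivity : (0 : ℝ) < 2 ^ n)] at h
  rw [abs_mul, abs_of_pos (by positivity : (0 : ℝ) < 2 ^ n)]
  have e : (4 : ℝ) ^ n = 2 ^ n * 2 ^ n := by
    rw [← mul_pow]
    norm_num
  rw [e]
  calc (2 : ℝ) ^ n * |cz (2 ^ n * α)| ≤ 2 ^ n * (8 * (2 ^ n * |α|)) := by gcongr
    _ = _ := by ring

lemma ab_step {G : ℝ → ℝ} (hG : Measurable G) {B : ℝ} (hGB : ∀ x, 0 ≤ x → |G x| ≤ B * (1 + x))
    (n : ℕ) (s : ℝ) : ab G (bn n) s = ab G (dn n) s + ab G (bn (n + 1)) s := by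
  have hCT : ∀ x, CT (bn n) x = CT (dn n) x + CT (bn (n + 1)) x := by
    intro x
    unfold CT
    rw [← integral_add ((dn_SC n).int_cos x) ((bn_SC (n + 1)).int_cos x)]
    congr 1
    funext α
    unfold dn
    ring
  have hi : ∀ b : ℝ → ℝ, SC b → IntegrableOn
      (fun x => (CT b (x - s) - CT b (x + s)) * G x) (Ioi 0) := by
    intro b Hb
    have hc := CT_cont Hb
    refine lin_int hG hGB (by fun_prop) fun m => ?_
    obtain ⟨A, hA0, hA⟩ := CT_decp Hb m
    refine ⟨A * (1 + |s|) ^ m + A * (1 + |s|) ^ m, fun x hx => ?_⟩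
    have key : ∀ u : ℝ, x ≤ |u| + |s| → x ^ m * |CT b u| ≤ A * (1 + |s|) ^ m := by
      intro u hu
      have hu0 := abs_nonneg u
      have hs0 := abs_nonneg s
      have h2 : x ≤ (1 + |u|) * (1 + |s|) := by nlinarith
      calc x ^ m * |CT b u| ≤ ((1 + |u|) * (1 + |s|)) ^ m * |CT b u| := by gcongr
        _ = (1 + |u|) ^ m * |CT b u| * (1 + |s|) ^ m := by rw [mul_pow]; ring
        _ ≤ A * (1 + |s|) ^ m := by
          have := hA u
          gcongr
    have k1 := key (x - s) (by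
      have := abs_sub_abs_le_abs_sub x s
      rw [abs_of_nonneg hx] at this
      linarith)
    have k2 := key (x + s) (by
      have := abs_sub_abs_le_abs_sub x (-s)
      rw [abs_of_nonneg hx, abs_neg, sub_neg_eq_add] at this
      linarith)
    have k3 := abs_sub (CT b (x - s)) (CT b (x + s))
    calc x ^ m * |CT b (x - s) - CT b (x + s)| ≤
        x ^ m * (|CT b (x - s)| + |CT b (x + s)|) := by gcongr
      _ = x ^ m * |CT b (x - s)| + x ^ m * |CT b (x + s)| := by ring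
      _ ≤ _ := add_le_add k1 k2
  unfold ab
  rw [← integral_add (hi _ (dn_SC n)) (hi _ (bn_SC (n + 1)))]
  congr 1
  funext x
  rw [hCT, hCT]
  ring

/-- **the mean of the discrepancy is bounded** -/
theorem mean_bd {B C B' : ℝ} (hB : 0 < B) (hC : 0 < C) (hB' : 0 < B') : ∃ K : ℝ, 0 < K ∧
    ∀ (Φ : ℝ → ℝ) (μ ν e : ℝ), LU B C Φ μ ν e →
      (∀ x y : ℝ, x ≤ y → Φ y - Φ x ≤ B' * (1 + (y - x))) →
      ∀ y : ℝ, 0 ≤ y → |∫ v in (0 : ℝ)..y, Gd Φ μ v| ≤ K := by
  set M : ℝ := ∫ t in Ioi (0 : ℝ), (3 * (|t| ^ 1 * |CT (bn 0) t|) +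
    4 * (|t| ^ 2 * |CT (bn 0) t|)) with hM
  have hM0 : 0 ≤ M := setIntegral_nonneg measurableSet_Ioi fun t _ => by positivity
  set B₂ : ℝ := 3 * B + 2 * B' + 1 with hB₂
  refine ⟨2 * C + B₂ * M + 1, by positivity, fun Φ μ ν e H hloc y hy => ?_⟩
  have HL := H.toLO hB hC
  obtain ⟨B₁, hB₁, hGB⟩ := Gd_bd HL
  have hGm := Gd_meas HL
  have hcmp := ab_cmp hGm hB₁ hGB (od_ii HL) (B₂ := B₂) (osc H hB hC hB' hloc) (by positivity)
    (bn_SC 0) (bn_even 0) hy
  have hb0 : bn 0 0 = 1 := by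
    unfold bn
    rw [mul_zero]
    exact bb_one (by simp)
  rw [hb0, one_mul] at hcmp
  -- telescoping
  have hfub : ∀ n, IntervalIntegrable (ab (Gd Φ μ) (bn n)) volume 0 y := fun n =>
    (ab_fub hGm hB₁.le hGB (bn_SC n) hy).1
  have hfubd : ∀ n, IntervalIntegrable (ab (Gd Φ μ) (dn n)) volume 0 y := fun n =>
    (ab_fub hGm hB₁.le hGB (dn_SC n) hy).1
  have hstep : ∀ n, |∫ s in (0 : ℝ)..y, ab (Gd Φ μ) (dn n) s| ≤ C * (1 / 2) ^ n := by
    intro n
    have h := ab_mean H hB hC (dn_SC n) (czn_SC n) (czn_mul n) (κ := 1 / 2 / 2 ^ n)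
      (by positivity) (div_le_self (by norm_num) (one_le_pow₀ (by norm_num)))
      (fun α hα => czn_zero n hα) (czn_bd n) hy
    refine h.trans (le_of_eq ?_)
    have e4 : (4 : ℝ) ^ n = 2 ^ n * 2 ^ n := by
      rw [← mul_pow]
      norm_num
    rw [e4, one_div_pow]
    field_simp
    ring
  have htel : ∀ n, |∫ s in (0 : ℝ)..y, ab (Gd Φ μ) (bn 0) s| ≤
      C * ∑ k ∈ Finset.range n, (1 / 2 : ℝ) ^ k + |∫ s in (0 : ℝ)..y, ab (Gd Φ μ) (bn n) s| := by
    intro n
    induction n with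
    | zero => simp
    | succ n ih =>
      have e1 : ∫ s in (0 : ℝ)..y, ab (Gd Φ μ) (bn n) s =
          (∫ s in (0 : ℝ)..y, ab (Gd Φ μ) (dn n) s) +
            ∫ s in (0 : ℝ)..y, ab (Gd Φ μ) (bn (n + 1)) s := by
        rw [← intervalIntegral.integral_add (hfubd n) (hfub (n + 1))]
        congr 1
        funext s
        exact ab_step hGm hGB n s
      rw [e1] at ih
      have h1 := abs_add_le (∫ s in (0 : ℝ)..y, ab (Gd Φ μ) (dn n) s)
        (∫ s in (0 : ℝ)..y, ab (Gd Φ μ) (bn (n + 1)) s)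
      rw [Finset.sum_range_succ]
      have h2 := hstep n
      linarith
  have hsum : ∀ n : ℕ, ∑ k ∈ Finset.range n, (1 / 2 : ℝ) ^ k ≤ 2 := by
    intro n
    have := Summable.sum_le_tsum (Finset.range n) (fun k _ => by positivity)
      (summable_geometric_two)
    rw [tsum_geometric_two] at this
    exact this
  have hlast : ∀ n, |∫ s in (0 : ℝ)..y, ab (Gd Φ μ) (bn n) s| ≤
      C * (2 * y * 1) * (1 / 2) ^ n * y := by
    intro n
    have h := intervalIntegral.norm_integral_le_of_norm_le_const (a := (0 : ℝ)) (b := y)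
      (f := ab (Gd Φ μ) (bn n)) (C := C * (2 * y * 1) * (1 / 2) ^ n) (by
        intro s hs
        rw [uIoc_of_le hy] at hs
        rw [Real.norm_eq_abs]
        have h1 := ab_bd H (bn_SC n) (κ := 1 / 2 / 2 ^ n) (by positivity)
          (div_le_self (by norm_num) (one_le_pow₀ (by norm_num))) (fun α hα => bn_zero n hα)
          (M := 1) (fun α => bb_abs _) s
        refine h1.trans ?_
        rw [abs_of_pos hs.1]
        have h2 : ((1 : ℝ) / 2 / 2 ^ n) ^ 3 ≤ (1 / 2) ^ n := by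
          have h3 : ((1 : ℝ) / 2) ^ n ≤ 1 := pow_le_one₀ (by norm_num) (by norm_num)
          have h4 : (1 : ℝ) / 2 / 2 ^ n = 1 / 2 * (1 / 2) ^ n := by
            rw [one_div_pow]
            field_simp
          rw [h4]
          have h5 : (0 : ℝ) < (1 / 2) ^ n := by positivity
          have h6 : ((1 : ℝ) / 2 * (1 / 2) ^ n) ^ 3 = 1 / 8 * ((1 / 2) ^ n * ((1 / 2) ^ n *
            (1 / 2) ^ n)) := by ring
          rw [h6]
          have h7 : ((1 : ℝ) / 2) ^ n * (1 / 2) ^ n ≤ 1 := mul_le_one₀ h3 h5.le h3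
          nlinarith
        have := hs.2
        gcongr)
    rw [Real.norm_eq_abs, sub_zero, abs_of_nonneg hy] at h
    exact h
  have hmain : |∫ s in (0 : ℝ)..y, ab (Gd Φ μ) (bn 0) s| ≤ 2 * C := by
    have hlim : Tendsto (fun n : ℕ => 2 * C + C * (2 * y * 1) * (1 / 2 : ℝ) ^ n * y) atTop
        (𝓝 (2 * C + C * (2 * y * 1) * 0 * y)) :=
      (((tendsto_pow_atTop_nhds_zero_of_lt_one (by norm_num) (by norm_num)).const_mul
        _).mul_const y).const_add _
    rw [mul_zero, zero_mul, add_zero] at hlim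
    refine ge_of_tendsto' hlim fun n => ?_
    have h1 := htel n
    have h2 := hlast n
    have h3 : C * ∑ k ∈ Finset.range n, (1 / 2 : ℝ) ^ k ≤ C * 2 := by
      have := hsum n
      gcongr
    linarith
  have hHp : ∫ v in (0 : ℝ)..y, Gd Φ μ v = Hp (Gd Φ μ) y := by
    unfold Hp
    refine intervalIntegral.integral_congr_ae (ae_of_all _ fun v hv => ?_)
    rw [uIoc_of_le hy] at hv
    rw [od_pos hv.1]
  rw [hHp]
  have h8 : |Hp (Gd Φ μ) y| ≤ |∫ s in (0 : ℝ)..y, ab (Gd Φ μ) (bn 0) s| +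
      |(∫ s in (0 : ℝ)..y, ab (Gd Φ μ) (bn 0) s) - Hp (Gd Φ μ) y| := by
    have := abs_sub_abs_le_abs_sub (Hp (Gd Φ μ) y) (∫ s in (0 : ℝ)..y, ab (Gd Φ μ) (bn 0) s)
    rw [abs_sub_comm] at this
    linarith
  linarith

end Pool.Agent.N804
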