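import Pool.Agent.N804.Mean4

set_option autoImplicit false

/-! # The mean of the discrepancy up to height `T` -/

namespace Pool.Agent.N804

open Filter Topology Set MeasureTheory
open H370 (Zf mult)

/-- normalised number of pairs of zeros with equal ordinates, up to `T` -/
noncomputable def MF (T : ℝ) : ℝ := Pe (Zf riemannZeta 0 T) / XX T

lemma mf_lim : Tendsto (fun T => MF T - mt T) atTop (𝓝 0) := by
  rw [Metric.tendsto_atTop]
  intro ε hε
  obtain ⟨T1, hT1, hb⟩ := m_cmp (ε := ε / 3) (by positivity)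
  refine ⟨T1, fun T hT => ?_⟩
  have h2 := hb T hT
  rw [Real.dist_eq, sub_zero]
  have : |MF T - mt T| ≤ ε / 3 := h2
  linarith

/-- pointwise bound from the bound for the means -/
lemma pt_of_mean {Φ : ℝ → ℝ} {μ ν e : ℝ} (H : LO Φ μ ν e) {K : ℝ} (hK : 0 < K)
    (h : ∀ y : ℝ, 0 ≤ y → |∫ v in (0 : ℝ)..y, Gd Φ μ v| ≤ K) {x : ℝ} (hx : 0 < x) :
    |Gd Φ μ x| ≤ K + 1 := by
  have hμ1 : 1 ≤ μ := by linarith [H.mu, H.e0, H.e1]
  obtain ⟨B, hB, hbd⟩ := H.bd
  have hlip : ∀ u v : ℝ, u ≤ v → Gd Φ μ u - Gd Φ μ v ≤ v - u := by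
    intro u v huv
    have h1 := H.mono huv
    have h2 := PP_lip huv
    unfold Gd
    linarith
  have hii : ∀ a b : ℝ, IntervalIntegrable (Gd Φ μ) volume a b := by
    intro a b
    have : Gd Φ μ = fun x => Φ x - PP x + (μ - 1) / 2 := rfl
    rw [this]
    exact (H.mono.intervalIntegrable.sub (PP_cont.intervalIntegrable _ _)).add
      intervalIntegrable_const
  have hdiff : ∀ a b : ℝ, 0 ≤ a → 0 ≤ b → |∫ v in a..b, Gd Φ μ v| ≤ 2 * K := by
    intro a b ha hb
    have e : ∫ v in a..b, Gd Φ μ v =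
        (∫ v in (0 : ℝ)..b, Gd Φ μ v) - ∫ v in (0 : ℝ)..a, Gd Φ μ v := by
      rw [intervalIntegral.integral_interval_sub_left (hii _ _) (hii _ _)]
    rw [e]
    have h1 := abs_sub (∫ v in (0 : ℝ)..b, Gd Φ μ v) (∫ v in (0 : ℝ)..a, Gd Φ μ v)
    have h2 := h a ha
    have h3 := h b hb
    linarith
  have hsq : ∀ M : ℝ, 0 < M → M ^ 2 / 2 ≤ 2 * K → M ≤ K + 1 := by
    intro M hM h1
    have h2 : M ^ 2 ≤ (K + 1) ^ 2 := by nlinarith [sq_nonneg (K - 1)]
    exact le_of_sq_le_sq h2 (by linarith)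
  have hlin : ∀ M c : ℝ, ∫ v in c..(c + M), (M - (v - c)) = M ^ 2 / 2 := by
    intro M c
    have h1 : ∀ v ∈ uIcc c (c + M), HasDerivAt (fun v : ℝ => M * v - (v - c) ^ 2 / 2)
        (M - (v - c)) v := by
      intro v _
      have h2 : HasDerivAt (fun v : ℝ => (v - c) ^ 2 / 2) (v - c) v := by
        have := (((hasDerivAt_id v).sub_const c).pow 2).div_const 2
        refine this.congr_deriv ?_
        simp
      have h3 := ((hasDerivAt_id v).const_mul M).sub h2
      refine h3.congr_deriv ?_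
      simp
    rw [intervalIntegral.integral_eq_sub_of_hasDerivAt h1
      ((by fun_prop : Continuous fun v : ℝ => M - (v - c)).intervalIntegrable _ _)]
    ring
  rw [abs_le]
  constructor
  · by_contra hcon
    push Not at hcon
    set M : ℝ := -Gd Φ μ x with hM
    have hM0 : 0 < M := by linarith
    have hxM : M ≤ x := by
      have h1 := (hbd x hx.le).1
      have h2 := PP_le hx.le
      have h3 : -x ≤ Gd Φ μ x := by
        unfold Gd
        linarith
      linarith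
    have h1 : ∫ v in (x - M)..x, Gd Φ μ v ≤ -(M ^ 2 / 2) := by
      have h2 : ∫ v in (x - M)..x, Gd Φ μ v ≤ ∫ v in (x - M)..x, (-M + (x - v)) := by
        refine intervalIntegral.integral_mono_on (by linarith) (hii _ _)
          ((by fun_prop : Continuous fun v : ℝ => -M + (x - v)).intervalIntegrable _ _) ?_
        intro v hv
        have := hlip v x hv.2
        linarith
      have h3 : ∫ v in (x - M)..x, (-M + (x - v)) = -(M ^ 2 / 2) := by
        have h4 := hlin M (x - M)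
        rw [sub_add_cancel] at h4
        have e1 : ∀ v : ℝ, -M + (x - v) = M - (v - (x - M)) - M := by intro v; ring
        simp_rw [e1]
        rw [intervalIntegral.integral_sub
          ((by fun_prop : Continuous fun v : ℝ => M - (v - (x - M))).intervalIntegrable _ _)
          intervalIntegrable_const, h4, intervalIntegral.integral_const]
        simp only [smul_eq_mul]
        ring
      linarith
    have h5 := (abs_le.1 (hdiff (x - M) x (by linarith) hx.le)).1
    have := hsq M hM0 (by linarith)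
    linarith
  · by_contra hcon
    push Not at hcon
    set M : ℝ := Gd Φ μ x with hM
    have hM0 : 0 < M := by linarith
    have h1 : M ^ 2 / 2 ≤ ∫ v in x..(x + M), Gd Φ μ v := by
      rw [← hlin M x]
      refine intervalIntegral.integral_mono_on (by linarith)
        ((by fun_prop : Continuous fun v : ℝ => M - (v - x)).intervalIntegrable _ _) (hii _ _) ?_
      intro v hv
      have := hlip x v hv.1
      linarith
    have h5 := (abs_le.1 (hdiff x (x + M) hx.le (by linarith))).2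
    have := hsq M hM0 (by linarith)
    linarith

/-- limit objects with all bounds -/
theorem extractV : ∃ B K : ℝ, 0 < B ∧ 0 < K ∧ ∀ T : ℕ → ℝ, Tendsto T atTop atTop →
    ∃ ψ : ℕ → ℕ, StrictMono ψ ∧
    ∃ (Φ : ℝ → ℝ) (μ ν e : ℝ), LO Φ μ ν e ∧ (∀ x, 0 ≤ x → 0 ≤ Φ x ∧ Φ x ≤ B * (1 + x)) ∧ μ ≤ B ∧
      (∀ y : ℝ, 0 ≤ y → |∫ v in (0 : ℝ)..y, Gd Φ μ v| ≤ K) ∧
      (∀ᵐ x, x ∈ GP (fun k => T (ψ k)) Φ) ∧
      Tendsto (fun k => mt (T (ψ k))) atTop (𝓝 μ) ∧
      Tendsto (fun k => vt (T (ψ k))) atTop (𝓝 ν) ∧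
      Tendsto (fun k => et (T (ψ k))) atTop (𝓝 e) := by
  obtain ⟨B, C, hB, hC, hext⟩ := extractU
  obtain ⟨B', hB', hloc⟩ := loc_lim
  obtain ⟨K, hK, hmean⟩ := mean_bd hB hC hB'
  refine ⟨B, K, hB, hK, fun T hT => ?_⟩
  obtain ⟨ψ, hψ, Φ, μ, ν, e, H, h1, h2, h3, h4⟩ := hext T hT
  have hT' : Tendsto (fun k => T (ψ k)) atTop atTop := hT.comp hψ.tendsto_atTop
  exact ⟨ψ, hψ, Φ, μ, ν, e, H.toLO hB hC, H.bd, H.muB,
    hmean Φ μ ν e H (hloc _ hT' Φ H.mono h1), GP_ae H.mono h1, h2, h3, h4⟩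

/-- convergence of the true counts at good points -/
lemma CF_conv {T : ℕ → ℝ} (hT : Tendsto T atTop atTop) {Φ : ℝ → ℝ} (hg : ∀ᵐ x, x ∈ GP T Φ)
    {x : ℝ} (hx : 0 < x) (gx : x ∈ GP T Φ) :
    Tendsto (fun k => CF (T k) x) atTop (𝓝 (Φ x)) := by
  refine tendsto_order.2 ⟨fun c hc => ?_, fun c hc => ?_⟩
  · set ε : ℝ := (Φ x - c) / 4 with hε
    have hε0 : 0 < ε := by rw [hε]; linarith
    obtain ⟨z, η, gz, hz, hz0, hzx, hη0, hη1, hη⟩ := GP_left hg hx gx hε0
    have hu0 : 0 < (z + x) / 2 := by linarith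
    obtain ⟨T1, hT1, hge⟩ := CF_ge hu0.le hη0 hη1 hε0
    filter_upwards [hT.eventually_ge_atTop (max T1 2),
      gz.1.eventually (lt_mem_nhds (show Φ z - ε < Φ z by linarith))] with k hk h2
    have h3 := hge (T k) ((le_max_left _ _).trans hk)
    have h4 := CF_mono (T := T k) (by linarith [(le_max_right T1 2).trans hk])
      (show (z + x) / 2 ≤ x by linarith)
    rw [hη] at h3
    have := (abs_lt.1 hz).1
    linarith
  · set ε : ℝ := (c - Φ x) / 4 with hε
    have hε0 : 0 < ε := by rw [hε]; linarith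
    obtain ⟨T2, hT2, hle⟩ := CF_le hx.le hε0
    filter_upwards [hT.eventually_ge_atTop T2,
      gx.1.eventually (gt_mem_nhds (show Φ x < Φ x + ε by linarith))] with k hk h2
    have h3 := hle (T k) hk
    linarith

lemma CF_nonneg {T : ℝ} (hT : 1 < T) (x : ℝ) : 0 ≤ CF T x :=
  div_nonneg (Pc_nonneg _ _) (XX_pos hT).le

/-- convergence of the integrals -/
lemma CF_int_conv {T : ℕ → ℝ} (hT : Tendsto T atTop atTop) {Φ : ℝ → ℝ}
    (hg : ∀ᵐ x, x ∈ GP T Φ) {a : ℝ} (ha : 0 < a) :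
    Tendsto (fun k => ∫ x in (0 : ℝ)..a, (CF (T k) x - PP x)) atTop
      (𝓝 (∫ x in (0 : ℝ)..a, (Φ x - PP x))) := by
  obtain ⟨z, hz, gz⟩ := ae_Ioo hg (show a < a + 1 by linarith)
  have hz0 : 0 < z := ha.trans hz.1
  have hc := CF_conv hT hg hz0 gz
  have hbd : ∀ᶠ k in atTop, CF (T k) z ≤ Φ z + 1 :=
    (hc.eventually (gt_mem_nhds (show Φ z < Φ z + 1 by linarith))).mono fun k hk => hk.le
  refine intervalIntegral.tendsto_integral_filter_of_dominated_convergence
    (fun _ => |Φ z + 1| + a) ?_ ?_ intervalIntegrable_const ?_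
  · filter_upwards [hT.eventually_ge_atTop 2] with k hk
    have hm : Monotone (CF (T k)) := fun x y hxy => CF_mono (by linarith) hxy
    exact (hm.measurable.sub PP_cont.measurable).aestronglyMeasurable
  · filter_upwards [hT.eventually_ge_atTop 2, hbd] with k hk h2
    refine ae_of_all _ fun x hx => ?_
    rw [uIoc_of_le ha.le] at hx
    have h3 := CF_nonneg (T := T k) (by linarith) x
    have h4 := CF_mono (T := T k) (by linarith) (show x ≤ z by linarith [hx.2, hz.1])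
    have h5 := PP_nonneg hx.1.le
    have h6 := PP_le hx.1.le
    have h7 := le_abs_self (Φ z + 1)
    rw [Real.norm_eq_abs, abs_le]
    have h8 := hx.2
    constructor <;> linarith
  · filter_upwards [hg] with x gx hx
    rw [uIoc_of_le ha.le] at hx
    exact (CF_conv hT hg hx.1 gx).sub_const _

/-- from sequences to all large heights -/
lemma ev_of_seq {p : ℝ → Prop} (h : ∀ T : ℕ → ℝ, Tendsto T atTop atTop →
    ∃ ψ : ℕ → ℕ, ∀ᶠ k in atTop, p (T (ψ k))) : ∀ᶠ T in atTop, p T := by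
  by_contra hcon
  have h1 : ∃ᶠ T in atTop, ¬p T := Filter.not_eventually.1 hcon
  obtain ⟨T, hT, hp⟩ := exists_seq_forall_of_frequently h1
  obtain ⟨ψ, hψ⟩ := h T hT
  obtain ⟨k, hk⟩ := hψ.exists
  exact hp _ hk

/-- **mean formula** -/
theorem mean_T : ∃ K : ℝ, 0 < K ∧ ∀ a : ℝ, 0 < a → ∀ᶠ T in atTop,
    |(∫ x in (0 : ℝ)..a, (CF T x - PP x)) + (MF T - 1) * a / 2| ≤ K := by
  obtain ⟨B, K, hB, hK, hext⟩ := extractV
  refine ⟨K + 1, by positivity, fun a ha => ev_of_seq fun T hT => ?_⟩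
  obtain ⟨ψ, hψ, Φ, μ, ν, e, H, -, -, hmean, hg, h2, -, -⟩ := hext T hT
  have hT' : Tendsto (fun k => T (ψ k)) atTop atTop := hT.comp hψ.tendsto_atTop
  refine ⟨ψ, ?_⟩
  have c1 := CF_int_conv hT' hg ha
  have c2 : Tendsto (fun k => MF (T (ψ k))) atTop (𝓝 μ) := by
    have := (mf_lim.comp hT').add h2
    rw [zero_add] at this
    refine this.congr fun k => ?_
    simp only [Function.comp]
    ring
  have c3 := (c1.add (((c2.sub_const 1).mul_const a).div_const 2)).abs
  have e1 : (∫ x in (0 : ℝ)..a, (Φ x - PP x)) + (μ - 1) * a / 2 =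
      ∫ v in (0 : ℝ)..a, Gd Φ μ v := by
    have e2 : ∫ v in (0 : ℝ)..a, Gd Φ μ v =
        (∫ x in (0 : ℝ)..a, (Φ x - PP x)) + ∫ x in (0 : ℝ)..a, (μ - 1) / 2 := by
      rw [← intervalIntegral.integral_add (H.mono.intervalIntegrable.sub
        (PP_cont.intervalIntegrable _ _)) intervalIntegrable_const]
      rfl
    rw [e2, intervalIntegral.integral_const, smul_eq_mul]
    ring
  rw [e1] at c3
  have h5 := hmean a ha.le
  filter_upwards [c3.eventually (gt_mem_nhds (show |∫ v in (0 : ℝ)..a, Gd Φ μ v| < K + 1 by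
    linarith))] with k hk using hk.le

/-- **bounded discrepancy** -/
theorem pt_T : ∃ K : ℝ, 0 < K ∧ ∀ a : ℝ, 0 < a → ∀ᶠ T in atTop, |CF T a - PP a| ≤ K := by
  obtain ⟨B, K, hB, hK, hext⟩ := extractV
  refine ⟨K + 1 + B + 2, by positivity, fun a ha => ev_of_seq fun T hT => ?_⟩
  obtain ⟨ψ, hψ, Φ, μ, ν, e, H, -, hμ, hmean, hg, h2, -, -⟩ := hext T hT
  have hT' : Tendsto (fun k => T (ψ k)) atTop atTop := hT.comp hψ.tendsto_atTop
  refine ⟨ψ, ?_⟩
  have hμ1 : 1 ≤ μ := by linarith [H.mu, H.e0, H.e1]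
  obtain ⟨z, hz, gz⟩ := ae_Ioo hg (show a < a + 1 by linarith)
  obtain ⟨z', hz', gz'⟩ := ae_Ioo hg (show max 0 (a - 1) < a from max_lt ha (by linarith))
  have hz0 : 0 < z := ha.trans hz.1
  have hz0' : 0 < z' := lt_of_le_of_lt (le_max_left _ _) hz'.1
  have hz1' : a - 1 < z' := lt_of_le_of_lt (le_max_right _ _) hz'.1
  have c1 := CF_conv hT' hg hz0 gz
  have c2 := CF_conv hT' hg hz0' gz'
  have g1 := (abs_le.1 (pt_of_mean H hK hmean hz0)).2
  have g2 := (abs_le.1 (pt_of_mean H hK hmean hz0')).1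
  have p1 := PP_lip hz.1.le
  have p2 := PP_lip hz'.2.le
  unfold Gd at g1 g2
  filter_upwards [c1.eventually (gt_mem_nhds (show Φ z < Φ z + 1 by linarith)),
    c2.eventually (lt_mem_nhds (show Φ z' - 1 < Φ z' by linarith)),
    hT'.eventually_ge_atTop 2] with k k1 k2 k3
  have m1 := CF_mono (T := T (ψ k)) (by linarith) hz.1.le
  have m2 := CF_mono (T := T (ψ k)) (by linarith) hz'.2.le
  rw [abs_le]
  constructor
  · linarith [hz.2, hz'.1]
  · linarith [hz.2, hz'.1]

end Pool.Agent.N804
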