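import Mathlib

set_option autoImplicit false

/-! # Measures with exponential moments are determined by their moments -/

namespace Pool.Agent.N804

open Complex Filter Topology Set MeasureTheory ProbabilityTheory

theorem meas_eq {μ ν : Measure ℝ} [IsFiniteMeasure μ] [IsFiniteMeasure ν] {ε : ℝ} (hε : 0 < ε)
    (hμ : ∀ t : ℝ, |t| < ε → Integrable (fun x : ℝ => Real.exp (t * x)) μ)
    (hν : ∀ t : ℝ, |t| < ε → Integrable (fun x : ℝ => Real.exp (t * x)) ν)
    (hm : ∀ n : ℕ, ∫ x : ℝ, x ^ n ∂μ = ∫ x : ℝ, x ^ n ∂ν) : μ = ν := by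
  have hsub : ∀ {ρ : Measure ℝ}, (∀ t : ℝ, |t| < ε → Integrable (fun x : ℝ => Real.exp (t * x)) ρ) →
      ∀ z : ℂ, |z.re| < ε → z.re ∈ interior (integrableExpSet id ρ) := by
    intro ρ h z hz
    have h1 : Ioo (-ε) ε ⊆ integrableExpSet id ρ := fun t ht => h t (abs_lt.2 ht)
    exact interior_maximal h1 isOpen_Ioo (abs_lt.1 hz)
  set F : ℂ → ℂ := fun z => complexMGF id μ z - complexMGF id ν z with hF
  set S : Set ℂ := {z : ℂ | |z.re| < ε} with hS
  have hSo : IsOpen S := isOpen_lt (by fun_prop) continuous_const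
  have han : AnalyticOnNhd ℂ F S := fun z hz =>
    (analyticAt_complexMGF (hsub hμ z hz)).sub (analyticAt_complexMGF (hsub hν z hz))
  have h0S : (0 : ℂ) ∈ S := by simp [hS, hε]
  have hd : ∀ n : ℕ, iteratedDeriv n F 0 = 0 := by
    intro n
    have e1 := iteratedDeriv_complexMGF (hsub hμ 0 h0S) n
    have e2 := iteratedDeriv_complexMGF (hsub hν 0 h0S) n
    have c1 : ContDiffAt ℂ n (complexMGF id μ) 0 :=
      (analyticAt_complexMGF (hsub hμ 0 h0S)).contDiffAt
    have c2 : ContDiffAt ℂ n (complexMGF id ν) 0 :=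
      (analyticAt_complexMGF (hsub hν 0 h0S)).contDiffAt
    rw [hF, iteratedDeriv_fun_sub c1 c2, e1, e2]
    simp only [id, zero_mul, Complex.exp_zero, mul_one]
    have h1 : ∀ ρ : Measure ℝ, ∫ x : ℝ, (x : ℂ) ^ n ∂ρ = ((∫ x : ℝ, x ^ n ∂ρ : ℝ) : ℂ) := by
      intro ρ
      rw [← integral_complex_ofReal]
      congr 1
      funext x
      push_cast
      rfl
    rw [h1, h1, hm, sub_self]
  have hord : analyticOrderAt F 0 = ⊤ := by
    rw [ENat.eq_top_iff_forall_ge]
    intro n
    exact (natCast_le_analyticOrderAt_iff_iteratedDeriv_eq_zero (han 0 h0S)).2 fun i _ => hd i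
  have hev : ∀ᶠ z in 𝓝 (0 : ℂ), F z = 0 := analyticOrderAt_eq_top.1 hord
  have hconv : Convex ℝ S := by
    have : S = Complex.reLm ⁻¹' (Ioo (-ε) ε) := by
      ext z
      simp [hS, abs_lt]
    rw [this]
    exact (convex_Ioo (-ε) ε).linear_preimage reLm
  have hz : EqOn F 0 S := han.eqOn_zero_of_preconnected_of_eventuallyEq_zero
    hconv.isPreconnected h0S hev
  refine Measure.ext_of_charFun ?_
  funext t
  have hI : (t * I : ℂ) ∈ S := by simp [hS, hε]
  have h1 : complexMGF id μ (t * I) = complexMGF id ν (t * I) := sub_eq_zero.1 (hz hI)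
  have h2 : ∀ ρ : Measure ℝ, charFun ρ t = complexMGF id ρ (t * I) := by
    intro ρ
    rw [charFun_apply_real, complexMGF]
    congr 1
    funext x
    congr 1
    simp only [id]
    ring
  rw [h2, h2, h1]

end Pool.Agent.N804
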