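import Pool.Agent.N804.WinT

set_option autoImplicit false

/-! # Windows of one length -/

namespace Pool.Agent.N804

open Filter Topology Set MeasureTheory
open H370 (Zf mult)

/-- from sequences to a filter -/
lemma ev_of_seq' {l : Filter ℝ} [l.IsCountablyGenerated] {p : ℝ → Prop}
    (h : ∀ T : ℕ → ℝ, Tendsto T atTop l → ∃ ψ : ℕ → ℕ, ∀ᶠ k in atTop, p (T (ψ k))) :
    ∀ᶠ T in l, p T := by
  by_contra hcon
  have h1 : ∃ᶠ T in l, ¬p T := Filter.not_eventually.1 hcon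
  obtain ⟨T, hT, hp⟩ := exists_seq_forall_of_frequently h1
  obtain ⟨ψ, hψ⟩ := h T hT
  obtain ⟨k, hk⟩ := hψ.exists
  exact hp _ hk

/-- the windows at good points -/
lemma NW_conv {T : ℕ → ℝ} (hT : Tendsto T atTop atTop) {Φ : ℝ → ℝ} (hg : ∀ᵐ x, x ∈ GP T Φ)
    {x y : ℝ} (hx : 0 < x) (hxy : x < y) (gx : x ∈ GP T Φ) (gy : y ∈ GP T Φ) :
    Tendsto (fun k => NW (T k) x y / XX (T k)) atTop (𝓝 (Φ y - Φ x)) := by
  have cx := CF_conv hT hg hx gx
  have cy := CF_conv hT hg (hx.trans hxy) gy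
  refine tendsto_order.2 ⟨fun c hc => ?_, fun c hc => ?_⟩
  · filter_upwards [(cy.sub cx).eventually (lt_mem_nhds hc), hT.eventually_ge_atTop 2] with k h1 h2
    have := NW_ge (T := T k) (α := x) (β := y) (by linarith)
    linarith
  · set ε : ℝ := (c - (Φ y - Φ x)) / 3 with hε
    have hε0 : 0 < ε := by rw [hε]; linarith
    obtain ⟨z, η, gz, hz, hz0, hzx, -, -, -⟩ := GP_left hg hx gx hε0
    have cz := CF_conv hT hg hz0 gz
    have hzz := (abs_lt.1 hz).1
    filter_upwards [(cy.sub cz).eventually (gt_mem_nhds (show Φ y - Φ z < Φ y - Φ z + ε by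
      linarith)), hT.eventually_ge_atTop 2] with k h1 h2
    have := NW_le (T := T k) (α' := z) (α := x) (β := y) (by linarith) hz0.le hzx hxy.le
    linarith

/-- at good points the oscillation is that of the right limits -/
lemma good_Gd {Φ : ℝ → ℝ} {μ : ℝ} (hM : Monotone (MM Φ μ)) {x : ℝ} (hx : 0 < x)
    (hc : ContinuousAt Φ x) : Dr Φ μ x = Gd Φ μ x := by
  have hcM : ContinuousAt (MM Φ μ) x := by
    have h1 : ContinuousAt (fun y => Φ y + (μ - 1) / 2) x := hc.add continuousAt_const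
    refine h1.congr ?_
    filter_upwards [lt_mem_nhds hx] with y hy
    exact (MM_pos hy).symm
  have h2 : Function.rightLim (MM Φ μ) x = MM Φ μ x := (hcM.continuousWithinAt).rightLim_eq
  unfold Dr
  rw [h2, MM_pos hx]
  unfold Gd
  ring

/-- one-sided bounds in the mean, with a sign pattern, for the far windows of length `ℓ` -/
def WBm (l : Filter ℝ) (ℓ : ℝ) (Λ : Set ℝ) (K c R : ℝ) : Prop :=
  ∀ u v : ℝ, R ≤ u → 0 < u → u < v → cn Λ v = cn Λ u → ∀ ε : ℝ, 0 < ε → ∀ᶠ T in l,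
    -(K * Real.exp (-(c * u)) * (v - u)) - ε ≤
      (-1) ^ cn Λ u * ∫ x in u..v, (NW T x (x + ℓ) / XX T - (PP (x + ℓ) - PP x))

/-- convergence of the integrals of the windows -/
lemma NW_int_conv {T : ℕ → ℝ} (hT : Tendsto T atTop atTop) {Φ : ℝ → ℝ} (hg : ∀ᵐ x, x ∈ GP T Φ)
    {ℓ : ℝ} (hℓ : 0 < ℓ) {F : ℝ → ℝ → ℝ} (hF : Continuous (Function.uncurry F))
    (hF1 : ∀ x y, |F x y| ≤ |y|) {u v : ℝ} (hu : 0 ≤ u) (huv : u < v) :
    Tendsto (fun k => ∫ x in u..v, F x (NW (T k) x (x + ℓ) / XX (T k) - (PP (x + ℓ) - PP x)))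
      atTop (𝓝 (∫ x in u..v, F x (Φ (x + ℓ) - Φ x - (PP (x + ℓ) - PP x)))) := by
  obtain ⟨z, hz, gz⟩ := ae_Ioo hg (show v + ℓ < v + ℓ + 1 by linarith)
  have hz0 : 0 < z := by linarith [hz.1]
  have hcz := CF_conv hT hg hz0 gz
  have hbd : ∀ᶠ k in atTop, CF (T k) z ≤ Φ z + 1 :=
    (hcz.eventually (gt_mem_nhds (show Φ z < Φ z + 1 by linarith))).mono fun k hk => hk.le
  have hq := (measurePreserving_add_right volume ℓ).quasiMeasurePreserving.ae hg
  refine intervalIntegral.tendsto_integral_filter_of_dominated_convergence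
    (fun _ => |Φ z + 1| + ℓ) ?_ ?_ intervalIntegrable_const ?_
  · refine Eventually.of_forall fun k => Measurable.aestronglyMeasurable ?_
    have h1 := (NW_meas (T k) ℓ).div_const (XX (T k))
    have h2 := PP_cont.measurable
    have h3 := h1.sub ((h2.comp (measurable_id.add_const ℓ)).sub h2)
    exact hF.measurable.comp (measurable_id.prodMk h3)
  · filter_upwards [hT.eventually_ge_atTop 2, hbd] with k hk h2
    refine ae_of_all _ fun x hx => ?_
    rw [uIoc_of_le huv.le] at hx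
    have hx0 : 0 < x := lt_of_le_of_lt hu hx.1
    have hk1 : 1 < T k := by linarith
    have h3 := div_nonneg (NW_nonneg (T k) x (x + ℓ)) (XX_pos hk1).le
    have h4 := NW_le (T := T k) (α' := 0) (α := x) (β := x + ℓ) hk1 le_rfl hx0
      (by linarith)
    rw [CF_neg hk1 le_rfl, sub_zero] at h4
    have h5 := CF_mono hk1 (show x + ℓ ≤ z by linarith [hx.2, hz.1])
    have h6 := PP_lip (show x ≤ x + ℓ by linarith)
    have h7 := PP_mono (show x ≤ x + ℓ by linarith)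
    have h8 := le_abs_self (Φ z + 1)
    have h9 : 0 ≤ |Φ z + 1| := abs_nonneg _
    rw [Real.norm_eq_abs]
    refine (hF1 _ _).trans ?_
    rw [abs_le]
    constructor <;> linarith
  · filter_upwards [hg, hq] with x gx gy hx
    rw [uIoc_of_le huv.le] at hx
    have hx0 : 0 < x := lt_of_le_of_lt hu hx.1
    have h1 := NW_conv hT hg hx0 (show x < x + ℓ by linarith) gx gy
    have h2 := h1.sub_const (PP (x + ℓ) - PP x)
    have h3 : Continuous fun y => F x y := hF.comp (by fun_prop : Continuous fun y : ℝ => (x, y))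
    exact (h3.tendsto _).comp h2

lemma WBm_lim {l : Filter ℝ} (hl : l ≤ atTop) {ℓ : ℝ} (hℓ : 0 < ℓ) {Λ : Set ℝ} {d C : ℝ}
    (hΛ : Dens Λ d C) {K c R : ℝ} (hW : WBm l ℓ Λ K c R) {T : ℕ → ℝ} (hTl : Tendsto T atTop l)
    {Φ : ℝ → ℝ} {μ : ℝ} (hm : Monotone Φ) (hg : ∀ᵐ x, x ∈ GP T Φ) :
    ∀ᵐ x, max R 1 ≤ x → -(K * Real.exp (-(c * x))) ≤
      (-1) ^ cn Λ x * (Gd Φ μ (x + ℓ) - Gd Φ μ x) := by
  have hT : Tendsto T atTop atTop := hTl.mono_right hl
  have hq := (measurePreserving_add_right volume ℓ).quasiMeasurePreserving.ae hg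
  filter_upwards [hg, hq] with x gx gy hRx
  have hR1 : R ≤ x := (le_max_left _ _).trans hRx
  have hx0 : 0 < x := lt_of_lt_of_le one_pos ((le_max_right _ _).trans hRx)
  set g : ℝ → ℝ := fun x => Φ (x + ℓ) - Φ x - (PP (x + ℓ) - PP x) with hgd
  have eG : Gd Φ μ (x + ℓ) - Gd Φ μ x = g x := by
    simp only [hgd]
    unfold Gd
    ring
  rw [eG]
  have hgc : ContinuousAt g x := by
    have h1 : ContinuousAt (fun x => Φ (x + ℓ)) x :=
      ContinuousAt.comp (g := Φ) (f := fun x => x + ℓ) gy.2 (by fun_prop)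
    have h2 : ContinuousAt (fun x => PP (x + ℓ)) x := (PP_cont.comp (by fun_prop)).continuousAt
    exact (h1.sub gx.2).sub (h2.sub PP_cont.continuousAt)
  have hgi : ∀ a b : ℝ, IntervalIntegrable g volume a b := by
    intro a b
    have h1 : Monotone fun x => Φ (x + ℓ) := fun x y hxy => hm (by linarith)
    have h2 : Continuous fun x => PP (x + ℓ) := PP_cont.comp (by fun_prop)
    exact (h1.intervalIntegrable.sub hm.intervalIntegrable).sub
      ((h2.intervalIntegrable _ _).sub (PP_cont.intervalIntegrable _ _))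
  obtain ⟨ρ, hρ, hcn⟩ := cn_right hΛ hx0
  -- the bound for the integrals
  have hint : ∀ h : ℝ, 0 < h → h ≤ ρ → -(K * Real.exp (-(c * x)) * h) ≤
      (-1) ^ cn Λ x * ∫ y in x..(x + h), g y := by
    intro h hh hhρ
    have hconv := NW_int_conv hT hg hℓ (F := fun _ y => y) (by
      have : Function.uncurry (fun (_ : ℝ) (y : ℝ) => y) = Prod.snd := rfl
      rw [this]
      exact continuous_snd) (fun _ y => le_rfl) hx0.le (show x < x + h by linarith)
    have hconv2 := hconv.const_mul ((-1 : ℝ) ^ cn Λ x)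
    refine le_of_forall_pos_le_add fun ε hε => ?_
    have h2 : -(K * Real.exp (-(c * x)) * h) - ε ≤ (-1) ^ cn Λ x * ∫ y in x..(x + h), g y := by
      refine ge_of_tendsto hconv2 ?_
      have h3 := hW x (x + h) hR1 hx0 (by linarith) (hcn (x + h) (by linarith) (by linarith)) ε hε
      rw [show x + h - x = h by ring] at h3
      exact hTl.eventually h3
    linarith
  refine le_of_forall_pos_le_add fun ε hε => ?_
  obtain ⟨δ, hδ, hδ2⟩ := Metric.continuousAt_iff.1 hgc ε hε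
  set h : ℝ := min (δ / 2) ρ with hhd
  have hh : 0 < h := lt_min (by positivity) hρ
  have hh1 : h ≤ δ / 2 := min_le_left _ _
  have h1 := hint h hh (min_le_right _ _)
  -- the mean value is close to the value
  have h2 : |(∫ y in x..(x + h), g y) - h * g x| ≤ ε * h := by
    have e1 : (∫ y in x..(x + h), g y) - h * g x = ∫ y in x..(x + h), (g y - g x) := by
      rw [intervalIntegral.integral_sub (hgi _ _) intervalIntegrable_const,
        intervalIntegral.integral_const, smul_eq_mul]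
      ring
    rw [e1]
    have h3 := intervalIntegral.norm_integral_le_of_norm_le_const (a := x) (b := x + h)
      (f := fun y => g y - g x) (C := ε) (by
        intro y hy
        rw [uIoc_of_le (by linarith)] at hy
        have := hδ2 (x := y) (by
          rw [Real.dist_eq, abs_lt]
          constructor <;> linarith [hy.1, hy.2])
        rw [Real.dist_eq] at this
        rw [Real.norm_eq_abs]
        exact this.le)
    rw [Real.norm_eq_abs, show x + h - x = h by ring, abs_of_pos hh] at h3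
    exact h3
  have h4 : -(K * Real.exp (-(c * x)) * h) ≤ (-1) ^ cn Λ x * (h * g x) + ε * h := by
    rcases neg_one_pow_eq_or ℝ (cn Λ x) with hs | hs
    · rw [hs] at h1 ⊢
      linarith [(abs_le.1 h2).1, (abs_le.1 h2).2]
    · rw [hs] at h1 ⊢
      linarith [(abs_le.1 h2).1, (abs_le.1 h2).2]
  have h5 : (-(K * Real.exp (-(c * x)))) * h ≤ ((-1) ^ cn Λ x * g x + ε) * h := by
    linarith
  exact le_of_mul_le_mul_right h5 hh

/-- the consequences of bounds for one length, for sequences -/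
theorem one_seq {l : Filter ℝ} (hl : l ≤ atTop) {ℓ : ℝ} (hℓ : 0 < ℓ) (hO : Tendsto OF l (𝓝 0))
    {Λ : Set ℝ} {d C : ℝ} (hd : d < 4 / 3) (hΛ : Dens Λ d C) {K c R : ℝ} (hc : 0 < c)
    (hW : WBm l ℓ Λ K c R) {T : ℕ → ℝ} (hTl : Tendsto T atTop l) :
    ∃ ψ : ℕ → ℕ, StrictMono ψ ∧ ∃ (Φ : ℝ → ℝ) (μ ν : ℝ), LO Φ μ ν 0 ∧
      (∀ᵐ x, x ∈ GP (fun k => T (ψ k)) Φ) ∧
      Tendsto (fun k => vt (T (ψ k))) atTop (𝓝 ν) ∧
      (∀ x, 0 < x → |Gd Φ μ x| ≤ PP (ℓ / 2)) ∧ μ - 1 ≤ 2 * PP (ℓ / 2) ∧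
      ∀ x, 0 < x → x ∈ GP (fun k => T (ψ k)) Φ → x + ℓ ∈ GP (fun k => T (ψ k)) Φ →
        Φ (x + ℓ) - Φ x = PP (x + ℓ) - PP x := by
  have hT : Tendsto T atTop atTop := hTl.mono_right hl
  obtain ⟨ψ, hψ, Φ, μ, ν, e, H, h1, -, h3, h4⟩ := extract hT
  have hTl' : Tendsto (fun k => T (ψ k)) atTop l := hTl.comp hψ.tendsto_atTop
  have he : e = 0 := tendsto_nhds_unique h4 ((et_of_OF' hl hO).comp hTl')
  rw [he] at H
  have hg := GP_ae H.mono h1
  have hz := limW H rfl hℓ hd hΛ hc (WBm_lim hl hℓ hΛ hW hTl' (μ := μ) H.mono hg)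
  obtain ⟨b1, b2⟩ := one_bd H hℓ hz
  refine ⟨ψ, hψ, Φ, μ, ν, H, hg, h3, b1, b2, fun x hx gx gy => ?_⟩
  have hM := MM_mono H
  have e1 := good_Gd (μ := μ) hM hx gx.2
  have e2 := good_Gd (μ := μ) hM (by linarith : 0 < x + ℓ) gy.2
  have e3 := Dr_per H hz x
  rw [e1, e2] at e3
  unfold Gd at e3
  linarith

/-- all windows, from bounds for one length -/
theorem one_win {l : Filter ℝ} [l.IsCountablyGenerated] (hl : l ≤ atTop) {ℓ : ℝ} (hℓ : 0 < ℓ)
    (hO : Tendsto OF l (𝓝 0)) {Λ : Set ℝ} {d C : ℝ} (hd : d < 4 / 3) (hΛ : Dens Λ d C)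
    {K c R : ℝ} (hc : 0 < c) (hW : WBm l ℓ Λ K c R) {α β : ℝ} (hα : 0 < α) (hβ : α < β) {ε : ℝ}
    (hε : 0 < ε) : ∀ᶠ T in l, |NW T α β / XX T - (PP β - PP α)| ≤ 2 * PP (ℓ / 2) + ε := by
  refine ev_of_seq' fun T hTl => ?_
  obtain ⟨ψ, hψ, Φ, μ, ν, H, hg, -, hG, -, -⟩ := one_seq hl hℓ hO hd hΛ hc hW hTl
  have hTl' : Tendsto (fun k => T (ψ k)) atTop l := hTl.comp hψ.tendsto_atTop
  have hT' : Tendsto (fun k => T (ψ k)) atTop atTop := hTl'.mono_right hl
  refine ⟨ψ, ?_⟩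
  set δ : ℝ := min (ε / 8) (min (α / 2) ((β - α) / 4)) with hδ
  have hδ0 : 0 < δ := lt_min (by positivity) (lt_min (by positivity) (by linarith))
  have hδ1 : δ ≤ ε / 8 := min_le_left _ _
  have hδ2 : δ ≤ α / 2 := (min_le_right _ _).trans (min_le_left _ _)
  have hδ3 : δ ≤ (β - α) / 4 := (min_le_right _ _).trans (min_le_right _ _)
  -- outer and inner good points
  obtain ⟨a1, ha1, ga1⟩ := ae_Ioo hg (show α - δ < α by linarith)
  obtain ⟨b1, hb1, gb1⟩ := ae_Ioo hg (show β < β + δ by linarith)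
  obtain ⟨a2, ha2, ga2⟩ := ae_Ioo hg (show α < α + δ by linarith)
  obtain ⟨b2, hb2, gb2⟩ := ae_Ioo hg (show β - δ < β by linarith)
  have pa1 : 0 < a1 := by linarith [ha1.1]
  have pb1 : 0 < b1 := by linarith [hb1.1]
  have pa2 : 0 < a2 := by linarith [ha2.1]
  have pb2 : 0 < b2 := by linarith [hb2.1]
  have ca1 := CF_conv hT' hg pa1 ga1
  have cb1 := CF_conv hT' hg pb1 gb1
  have ca2 := CF_conv hT' hg pa2 ga2
  have cb2 := CF_conv hT' hg pb2 gb2
  have h1 := abs_le.1 (hG a1 pa1)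
  have h2 := abs_le.1 (hG b1 pb1)
  have h3 := abs_le.1 (hG a2 pa2)
  have h4 := abs_le.1 (hG b2 pb2)
  unfold Gd at h1 h2 h3 h4
  have p1 := PP_lip ha1.2.le
  have p2 := PP_lip hb1.1.le
  have p3 := PP_lip ha2.1.le
  have p4 := PP_lip hb2.2.le
  filter_upwards [(cb1.sub ca1).eventually (gt_mem_nhds (show Φ b1 - Φ a1 < Φ b1 - Φ a1 + ε / 4 by
      linarith)),
    (cb2.sub ca2).eventually (lt_mem_nhds (show Φ b2 - Φ a2 - ε / 4 < Φ b2 - Φ a2 by linarith)),
    hT'.eventually_ge_atTop 2] with k k1 k2 k3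
  have hk : 1 < T (ψ k) := by linarith
  have m1 := NW_ge (α := α) (β := β) hk
  have m2 := NW_le (α' := a1) (α := α) (β := β) hk pa1.le ha1.2 hβ.le
  have m3 := CF_mono hk hb1.1.le
  have m4 := CF_mono hk ha2.1.le
  have m5 := CF_mono hk hb2.2.le
  rw [abs_le]
  constructor
  · linarith [h3.2, h4.1, ha2.2, hb2.1]
  · linarith [h1.1, h2.2, ha1.1, hb1.2]

/-- the proportion of bad zeros, from bounds for one length -/
theorem one_bad {l : Filter ℝ} [l.IsCountablyGenerated] (hl : l ≤ atTop) {ℓ : ℝ} (hℓ : 0 < ℓ)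
    (hO : Tendsto OF l (𝓝 0)) {Λ : Set ℝ} {d C : ℝ} (hd : d < 4 / 3) (hΛ : Dens Λ d C)
    {K c R : ℝ} (hc : 0 < c) (hW : WBm l ℓ Λ K c R) {ε : ℝ} (hε : 0 < ε) :
    ∀ᶠ T in l, BF T ≤ 2 * PP (ℓ / 2) + ε := by
  refine ev_of_seq' fun T hTl => ?_
  obtain ⟨ψ, hψ, Φ, μ, ν, H, hg, h3, -, hμ, -⟩ := one_seq hl hℓ hO hd hΛ hc hW hTl
  have hTl' : Tendsto (fun k => T (ψ k)) atTop l := hTl.comp hψ.tendsto_atTop
  have hT' : Tendsto (fun k => T (ψ k)) atTop atTop := hTl'.mono_right hl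
  refine ⟨ψ, ?_⟩
  have hν : ν ≤ 2 * PP (ℓ / 2) := by linarith [H.mu]
  have h5 : Tendsto (fun k => BF (T (ψ k))) atTop (𝓝 ν) := by
    have := (bv_lim.comp hT').add h3
    rw [zero_add] at this
    refine this.congr fun k => ?_
    simp only [Function.comp]
    ring
  filter_upwards [h5.eventually (gt_mem_nhds (show ν < ν + ε by linarith))] with k hk
  linarith

/-- the windows of this length, in the mean -/
theorem one_mean {l : Filter ℝ} [l.IsCountablyGenerated] (hl : l ≤ atTop) {ℓ : ℝ} (hℓ : 0 < ℓ)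
    (hO : Tendsto OF l (𝓝 0)) {Λ : Set ℝ} {d C : ℝ} (hd : d < 4 / 3) (hΛ : Dens Λ d C)
    {K c R : ℝ} (hc : 0 < c) (hW : WBm l ℓ Λ K c R) {A : ℝ} (hA : 0 < A) :
    Tendsto (fun T => ∫ x in (0 : ℝ)..A, |NW T x (x + ℓ) / XX T - (PP (x + ℓ) - PP x)|) l
      (𝓝 0) := by
  refine tendsto_of_subseq_tendsto fun T hTl => ?_
  obtain ⟨ψ, hψ, Φ, μ, ν, H, hg, h3, -, hμ, hex⟩ := one_seq hl hℓ hO hd hΛ hc hW hTl
  have hTl' : Tendsto (fun k => T (ψ k)) atTop l := hTl.comp hψ.tendsto_atTop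
  have hT' : Tendsto (fun k => T (ψ k)) atTop atTop := hTl'.mono_right hl
  refine ⟨ψ, ?_⟩
  have hconv := NW_int_conv hT' hg hℓ (F := fun _ y => |y|) (by
    have : Function.uncurry (fun (_ : ℝ) (y : ℝ) => |y|) = fun p : ℝ × ℝ => |p.2| := rfl
    rw [this]
    fun_prop) (fun _ y => by rw [abs_abs]) le_rfl hA
  have hq := (measurePreserving_add_right volume ℓ).quasiMeasurePreserving.ae hg
  have e0 : ∫ x in (0 : ℝ)..A, |Φ (x + ℓ) - Φ x - (PP (x + ℓ) - PP x)| = 0 := by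
    have : ∫ x in (0 : ℝ)..A, |Φ (x + ℓ) - Φ x - (PP (x + ℓ) - PP x)| =
        ∫ x in (0 : ℝ)..A, (0 : ℝ) := by
      refine intervalIntegral.integral_congr_ae ?_
      filter_upwards [hg, hq] with x gx gy hx
      rw [uIoc_of_le hA.le] at hx
      rw [hex x hx.1 gx gy, sub_self, abs_zero]
    rw [this]
    simp
  rw [e0] at hconv
  exact hconv

/-- the converse -/
theorem WBm_of_mean {l : Filter ℝ} (hl : l ≤ atTop) {ℓ : ℝ} (hℓ : 0 < ℓ) (Λ : Set ℝ)
    (h : ∀ A : ℝ, 0 < A → Tendsto (fun T =>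
      ∫ x in (0 : ℝ)..A, |NW T x (x + ℓ) / XX T - (PP (x + ℓ) - PP x)|) l (𝓝 0)) :
    WBm l ℓ Λ 0 1 1 := by
  intro u v _ hu huv _ ε hε
  filter_upwards [(h v (hu.trans huv)).eventually (gt_mem_nhds hε), hl (eventually_ge_atTop 2)]
    with T h1 h2
  have hT : 1 < T := by linarith
  set f : ℝ → ℝ := fun x => NW T x (x + ℓ) / XX T - (PP (x + ℓ) - PP x) with hf
  have hfi : IntervalIntegrable f volume 0 v := by
    have i1 : IntervalIntegrable (fun x => NW T x (x + ℓ) / XX T) volume 0 v := by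
      rw [intervalIntegrable_iff_integrableOn_Ioc_of_le (hu.trans huv).le]
      refine Integrable.mono' (g := fun _ => CF T (v + ℓ)) (by
        rw [← IntegrableOn]
        exact integrableOn_const (by simp)) ((NW_meas T ℓ).div_const _).aestronglyMeasurable ?_
      filter_upwards [ae_restrict_mem measurableSet_Ioc] with x hx
      rw [Real.norm_eq_abs, abs_of_nonneg (div_nonneg (NW_nonneg _ _ _) (XX_pos hT).le)]
      have h3 := NW_le (T := T) (α' := 0) (α := x) (β := x + ℓ) hT le_rfl hx.1 (by linarith)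
      rw [CF_neg hT le_rfl, sub_zero] at h3
      exact h3.trans (CF_mono hT (by linarith [hx.2]))
    have h2 : Continuous fun x => PP (x + ℓ) := PP_cont.comp (by fun_prop)
    exact i1.sub ((h2.intervalIntegrable _ _).sub (PP_cont.intervalIntegrable _ _))
  have e1 : |∫ x in u..v, f x| ≤ ∫ x in (0 : ℝ)..v, |f x| := by
    have a1 := intervalIntegral.abs_integral_le_integral_abs (f := f) (μ := volume) huv.le
    have a2 : ∫ x in u..v, |f x| ≤ ∫ x in (0 : ℝ)..v, |f x| := by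
      have a3 : IntervalIntegrable (fun x => |f x|) volume 0 u :=
        (hfi.mono_set (by rw [uIcc_of_le hu.le, uIcc_of_le (hu.trans huv).le]; exact
          Icc_subset_Icc_right huv.le)).abs
      have a4 : IntervalIntegrable (fun x => |f x|) volume u v :=
        (hfi.mono_set (by rw [uIcc_of_le huv.le, uIcc_of_le (hu.trans huv).le]; exact
          Icc_subset_Icc_left hu.le)).abs
      rw [← intervalIntegral.integral_add_adjacent_intervals a3 a4]
      have : 0 ≤ ∫ x in (0 : ℝ)..u, |f x| :=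
        intervalIntegral.integral_nonneg hu.le fun x _ => abs_nonneg _
      linarith
    exact a1.trans a2
  have e2 : |(-1 : ℝ) ^ cn Λ u * ∫ x in u..v, f x| = |∫ x in u..v, f x| := by
    rw [abs_mul, abs_pow, abs_neg, abs_one, one_pow, one_mul]
  have e3 := neg_abs_le ((-1 : ℝ) ^ cn Λ u * ∫ x in u..v, f x)
  rw [e2] at e3
  rw [zero_mul, zero_mul, neg_zero]
  linarith

end Pool.Agent.N804

namespace Pool.Agent.N804

open Filter Topology Set MeasureTheory

lemma pp_cubic {u : ℝ} (hu : 0 < u) : 1 - Real.sinc (Real.pi * u) ^ 2 ≤ Real.pi ^ 2 * u ^ 2 / 3 := by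
  have hpi := Real.pi_pos
  set x : ℝ := Real.pi * u with hx
  have hx0 : 0 < x := by positivity
  have e : Real.pi ^ 2 * u ^ 2 / 3 = x ^ 2 / 3 := by rw [hx]; ring
  rw [e]
  rcases le_or_gt (x ^ 2) 6 with h | h
  · have h1 : 1 - x ^ 2 / 6 ≤ Real.sinc x := by
      rw [Real.sinc_of_ne_zero hx0.ne', le_div_iff₀ hx0]
      have := (Real.sin_gt_sub_cube hx0).le
      nlinarith
    have h2 : 0 ≤ 1 - x ^ 2 / 6 := by linarith
    have h3 : (1 - x ^ 2 / 6) ^ 2 ≤ Real.sinc x ^ 2 := pow_le_pow_left₀ h2 h1 2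
    nlinarith [sq_nonneg (x ^ 2)]
  · have := sq_nonneg (Real.sinc x)
    linarith

lemma PP_cubic {a : ℝ} (ha : 0 ≤ a) : PP a ≤ Real.pi ^ 2 * a ^ 3 / 9 := by
  have h1 : PP a ≤ ∫ u in (0 : ℝ)..a, Real.pi ^ 2 * u ^ 2 / 3 := by
    refine intervalIntegral.integral_mono_on_of_le_Ioo ha (pp_ii 0 a)
      ((by fun_prop : Continuous fun u : ℝ => Real.pi ^ 2 * u ^ 2 / 3).intervalIntegrable _ _) ?_
    intro u hu
    exact pp_cubic hu.1
  refine h1.trans (le_of_eq ?_)
  rw [intervalIntegral.integral_div, intervalIntegral.integral_const_mul, integral_pow]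
  norm_num
  ring

end Pool.Agent.N804
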