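import Pool.Agent.N804.WinT
import Pool.Agent.N804.AvgF

set_option autoImplicit false

/-! # The conjecture with closed windows and the diagonal -/

namespace Pool.Agent.N804

open Filter Topology Set MeasureTheory
open H370 (Zf mult mem_Zf good_zeta zset NN NN_eq)

/-- the count in the statement -/
theorem npair_eq {T : ℝ} (hT : 1 < T) (α β : ℝ) :
    ((∑ᶠ p ∈ {p : ℂ × ℂ | p.1 ∈ ZZ ∧ p.2 ∈ ZZ ∧ 0 < p.1.im ∧ p.1.im ≤ T ∧
      0 < p.2.im ∧ p.2.im ≤ T ∧ 2 * Real.pi * α / Real.log T ≤ p.1.im - p.2.im ∧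
      p.1.im - p.2.im ≤ 2 * Real.pi * β / Real.log T},
      analyticOrderNatAt riemannZeta p.1 * analyticOrderNatAt riemannZeta p.2 : ℕ) : ℝ) =
    NW T α β := by
  classical
  have hL : 0 < Real.log T := Real.log_pos hT
  have hpi := Real.pi_pos
  set S := Zf riemannZeta 0 T with hS
  have hset : {p : ℂ × ℂ | p.1 ∈ ZZ ∧ p.2 ∈ ZZ ∧ 0 < p.1.im ∧ p.1.im ≤ T ∧
      0 < p.2.im ∧ p.2.im ≤ T ∧ 2 * Real.pi * α / Real.log T ≤ p.1.im - p.2.im ∧
      p.1.im - p.2.im ≤ 2 * Real.pi * β / Real.log T} =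
      ↑((S ×ˢ S).filter (fun p : ℂ × ℂ => α ≤ (p.1.im - p.2.im) * Real.log T / (2 * Real.pi) ∧
      (p.1.im - p.2.im) * Real.log T / (2 * Real.pi) ≤ β)) := by
    ext p
    simp only [Set.mem_ofPred_eq, Finset.coe_filter, Finset.mem_product]
    rw [hS, mem_ZT, mem_ZT]
    have e1 : 2 * Real.pi * α / Real.log T ≤ p.1.im - p.2.im ↔
        α ≤ (p.1.im - p.2.im) * Real.log T / (2 * Real.pi) := by
      rw [div_le_iff₀ hL, le_div_iff₀ (by positivity)]
      constructor <;> intro h <;> linarith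
    have e2 : p.1.im - p.2.im ≤ 2 * Real.pi * β / Real.log T ↔
        (p.1.im - p.2.im) * Real.log T / (2 * Real.pi) ≤ β := by
      rw [le_div_iff₀ hL, div_le_iff₀ (by positivity)]
      constructor <;> intro h <;> linarith
    rw [e1, e2]
    constructor
    · rintro ⟨a1, a2, a3, a4, a5, a6, a7, a8⟩
      exact ⟨⟨⟨a1, a3, a4⟩, a2, a5, a6⟩, a7, a8⟩
    · rintro ⟨⟨⟨a1, a3, a4⟩, a2, a5, a6⟩, a7, a8⟩
      exact ⟨a1, a2, a3, a4, a5, a6, a7, a8⟩
  rw [hset, finsum_mem_coe_finset, Finset.sum_filter, Finset.sum_product]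
  unfold NW
  push_cast
  refine Finset.sum_congr rfl fun s _ => Finset.sum_congr rfl fun s' _ => ?_
  split_ifs <;> simp [mult]

lemma NW_symm (T α β : ℝ) : NW T α β = NW T (-β) (-α) := by
  classical
  unfold NW
  rw [Finset.sum_comm]
  refine Finset.sum_congr rfl fun s _ => Finset.sum_congr rfl fun s' _ => ?_
  have e : (s'.im - s.im) * Real.log T / (2 * Real.pi) =
      -((s.im - s'.im) * Real.log T / (2 * Real.pi)) := by ring
  rw [e]
  set x := (s.im - s'.im) * Real.log T / (2 * Real.pi)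
  have h1 : (α ≤ -x ∧ -x ≤ β) ↔ (-β ≤ x ∧ x ≤ -α) := by
    constructor
    · rintro ⟨h1, h2⟩
      constructor <;> linarith
    · rintro ⟨h1, h2⟩
      constructor <;> linarith
  by_cases h : -β ≤ x ∧ x ≤ -α
  · rw [if_pos h, if_pos (h1.2 h), mul_comm]
  · rw [if_neg h, if_neg (fun h2 => h (h1.1 h2))]

lemma NW_zero {T α β : ℝ} (hT : 1 < T) (hα : α ≤ 0) (hβ : 0 ≤ β) :
    NW T α β = (CF T β + MF T + CF T (-α)) * XX T := by
  classical
  have hX := XX_pos hT
  have hL : 0 < Real.log T := Real.log_pos hT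
  have hpi := Real.pi_pos
  have e3 : CF T (-α) * XX T = ∑ s ∈ Zf riemannZeta 0 T, ∑ s' ∈ Zf riemannZeta 0 T,
      if 0 < s'.im - s.im ∧ s'.im - s.im ≤ 2 * Real.pi * (-α) / Real.log T then
        (mult riemannZeta s : ℝ) * (mult riemannZeta s' : ℝ) else 0 := by
    unfold CF
    rw [div_mul_cancel₀ _ hX.ne']
    unfold Pc
    rw [Finset.sum_comm]
    refine Finset.sum_congr rfl fun s _ => Finset.sum_congr rfl fun s' _ => ?_
    rw [mul_comm (mult riemannZeta s' : ℝ)]
  rw [add_mul, add_mul, e3]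
  unfold CF MF
  rw [div_mul_cancel₀ _ hX.ne', div_mul_cancel₀ _ hX.ne']
  unfold NW Pc Pe
  rw [← Finset.sum_add_distrib, ← Finset.sum_add_distrib]
  refine Finset.sum_congr rfl fun s _ => ?_
  rw [← Finset.sum_add_distrib, ← Finset.sum_add_distrib]
  refine Finset.sum_congr rfl fun s' _ => ?_
  set m := (mult riemannZeta s : ℝ) * (mult riemannZeta s' : ℝ)
  have k1 : α ≤ (s.im - s'.im) * Real.log T / (2 * Real.pi) ↔
      s'.im - s.im ≤ 2 * Real.pi * (-α) / Real.log T := by
    rw [le_div_iff₀ (by positivity), le_div_iff₀ hL]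
    constructor <;> intro h <;> nlinarith
  have k2 : (s.im - s'.im) * Real.log T / (2 * Real.pi) ≤ β ↔
      s.im - s'.im ≤ 2 * Real.pi * β / Real.log T := by
    rw [div_le_iff₀ (by positivity), le_div_iff₀ hL]
    constructor <;> intro h <;> nlinarith
  simp only [k1, k2]
  have b1 : 0 ≤ 2 * Real.pi * (-α) / Real.log T := by
    have : 0 ≤ -α := by linarith
    positivity
  have b2 : 0 ≤ 2 * Real.pi * β / Real.log T := by positivity
  rcases lt_trichotomy s.im s'.im with h | h | h
  · have n1 : ¬ (0 < s.im - s'.im ∧ s.im - s'.im ≤ 2 * Real.pi * β / Real.log T) := by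
      rintro ⟨h1, -⟩
      linarith
    have n2 : ¬ (s.im = s'.im) := h.ne
    rw [if_neg n1, if_neg n2]
    by_cases h3 : s'.im - s.im ≤ 2 * Real.pi * (-α) / Real.log T
    · rw [if_pos ⟨h3, by linarith⟩, if_pos ⟨by linarith, h3⟩]
      ring
    · rw [if_neg (fun h4 => h3 h4.1), if_neg (fun h4 => h3 h4.2)]
      ring
  · rw [if_pos h, if_pos ⟨by linarith, by linarith⟩, if_neg (fun h4 => by linarith [h4.1]),
      if_neg (fun h4 => by linarith [h4.1])]
    ring
  · have n1 : ¬ (0 < s'.im - s.im ∧ s'.im - s.im ≤ 2 * Real.pi * (-α) / Real.log T) := by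
      rintro ⟨h1, -⟩
      linarith
    have n2 : ¬ (s.im = s'.im) := h.ne'
    rw [if_neg n1, if_neg n2]
    by_cases h3 : s.im - s'.im ≤ 2 * Real.pi * β / Real.log T
    · rw [if_pos ⟨by linarith, h3⟩, if_pos ⟨by linarith, h3⟩]
      ring
    · rw [if_neg (fun h4 => h3 h4.2), if_neg (fun h4 => h3 h4.2)]
      ring

lemma PP_neg (x : ℝ) : PP (-x) = -PP x := by
  have h := PP_sub 0 (-x)
  rw [PP_zero, sub_zero] at h
  have h2 := intervalIntegral.integral_comp_neg (a := 0) (b := x) pp
  rw [neg_zero] at h2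
  have h3 : (∫ u in (0 : ℝ)..x, pp (-u)) = PP x := by
    have h4 := PP_sub 0 x
    rw [PP_zero, sub_zero] at h4
    rw [h4]
    refine intervalIntegral.integral_congr fun u _ => ?_
    show pp (-u) = pp u
    rw [← pp_even (-u), abs_neg, pp_even]
  rw [h, intervalIntegral.integral_symm, ← h2, h3]

/-- the constant of the conjecture -/
noncomputable def PV' (α β : ℝ) : ℝ :=
  (∫ u in α..β, (1 - (Real.sin (Real.pi * u) / (Real.pi * u)) ^ 2)) +
    if α ≤ 0 ∧ 0 ≤ β then 1 else 0

lemma PV'_pos {α β : ℝ} (h : α < β) : 0 < PV' α β := by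
  unfold PV'
  rw [val_win]
  split_ifs with h1
  · have := PP_mono h.le
    linarith
  · rw [not_and_or] at h1
    rcases h1 with h1 | h1
    · have := PP_strict (le_of_lt (not_le.1 h1)) h
      linarith
    · have h2 := PP_strict (show 0 ≤ -β by linarith [not_le.1 h1]) (neg_lt_neg h)
      rw [PP_neg, PP_neg] at h2
      linarith

/-- the two forms of the conjecture -/
theorem pc_iff {l : Filter ℝ} [l.IsCountablyGenerated] (hl : l ≤ atTop) :
    (∀ α β : ℝ, α < β → Asymptotics.IsEquivalent l (fun T => NW T α β)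
      (fun T => PV' α β * XX T)) ↔
    ∀ a : ℝ, 0 < a → Tendsto (fun T => CF T a) l (𝓝 (PP a)) := by
  have hT1 : ∀ᶠ T : ℝ in l, 1 < T := hl (eventually_gt_atTop 1)
  have hiff : ∀ α β : ℝ, α < β → (Asymptotics.IsEquivalent l (fun T => NW T α β)
      (fun T => PV' α β * XX T) ↔ Tendsto (fun T => NW T α β / XX T) l (𝓝 (PV' α β))) := by
    intro α β hαβ
    have hp := PV'_pos hαβ
    have hne : ∀ᶠ T : ℝ in l, PV' α β * XX T ≠ 0 := by
      filter_upwards [hT1] with T hT
      exact (mul_pos hp (XX_pos hT)).ne'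
    rw [Asymptotics.isEquivalent_iff_tendsto_one hne]
    constructor
    · intro h
      have h1 := h.mul_const (PV' α β)
      rw [one_mul] at h1
      refine h1.congr' ?_
      filter_upwards [hT1] with T hT
      have := (XX_pos hT).ne'
      simp only [Pi.div_apply]
      field_simp
    · intro h
      have h1 := h.div_const (PV' α β)
      rw [div_self hp.ne'] at h1
      refine h1.congr' ?_
      filter_upwards [hT1] with T hT
      have := (XX_pos hT).ne'
      simp only [Pi.div_apply]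
      field_simp
  constructor
  · intro h a ha
    have h1 := (hiff (-a) a (by linarith)).1 (h (-a) a (by linarith))
    have h2 := (hiff 0 a ha).1 (h 0 a ha)
    have h3 := h1.sub h2
    have e : PV' (-a) a - PV' 0 a = PP a := by
      unfold PV'
      rw [val_win, val_win, if_pos ⟨by linarith, ha.le⟩, if_pos ⟨le_rfl, ha.le⟩, PP_neg, PP_zero]
      ring
    rw [e] at h3
    refine h3.congr' ?_
    filter_upwards [hT1] with T hT
    have hX := (XX_pos hT).ne'
    rw [NW_zero hT (by linarith) ha.le, NW_zero hT le_rfl ha.le, mul_div_cancel_right₀ _ hX,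
      mul_div_cancel_right₀ _ hX, neg_neg, neg_zero]
    have h0 : CF T 0 = 0 := CF_neg hT le_rfl
    rw [h0]
    ring
  · intro h
    have hB := lower_half' hl (K := 0) (R := 1) (c := 1) one_pos fun a ha ε hε => by
      have h3 := (tendsto_order.1 (h a (by linarith))).1 (PP a - ε) (by linarith)
      filter_upwards [h3] with T hT
      rw [zero_mul, sub_zero]
      exact hT.le
    have hM : Tendsto MF l (𝓝 1) := MF_of_BF hl hB.2
    have h' : ∀ a : ℝ, 0 ≤ a → Tendsto (fun T => CF T a) l (𝓝 (PP a)) := by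
      intro a ha
      rcases ha.eq_or_lt with rfl | ha
      · rw [PP_zero]
        refine tendsto_const_nhds.congr' ?_
        filter_upwards [hT1] with T hT
        exact (CF_neg hT le_rfl).symm
      · exact h a ha
    intro α β hαβ
    rw [hiff α β hαβ]
    rcases lt_or_ge 0 α with hα | hα
    · have e : PV' α β = PP β - PP α := by
        unfold PV'
        rw [val_win, if_neg (fun h4 => not_le.2 hα h4.1), add_zero]
      rw [e]
      exact NW_tendsto' hl h hα hαβ
    · rcases lt_or_ge β 0 with hβ | hβ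
      · have e : PV' α β = PP (-α) - PP (-β) := by
          unfold PV'
          rw [val_win, if_neg (fun h4 => not_le.2 hβ h4.2), add_zero, PP_neg, PP_neg]
          ring
        rw [e]
        refine (NW_tendsto' hl h (neg_pos.2 hβ) (neg_lt_neg hαβ)).congr fun T => ?_
        rw [← NW_symm]
      · have e : PV' α β = PP β + 1 + PP (-α) := by
          unfold PV'
          rw [val_win, if_pos ⟨hα, hβ⟩, PP_neg]
          ring
        rw [e]
        refine (((h' β hβ).add hM).add (h' (-α) (by linarith))).congr' ?_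
        filter_upwards [hT1] with T hT
        rw [NW_zero hT hα hβ, mul_div_cancel_right₀ _ (XX_pos hT).ne']

end Pool.Agent.N804
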