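import Pool.Agent.N804.Test

set_option autoImplicit false

/-! # The conjectured distribution function, and the main term -/

namespace Pool.Agent.N804

open Filter Topology Set MeasureTheory

/-- the density -/
noncomputable def pp (u : ℝ) : ℝ := 1 - Real.sinc (Real.pi * u) ^ 2

/-- the conjectured distribution function -/
noncomputable def PP (a : ℝ) : ℝ := ∫ u in (0 : ℝ)..a, (1 - Real.sinc (Real.pi * u) ^ 2)

lemma pp_cont : Continuous pp := by
  unfold pp
  have := Real.continuous_sinc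
  fun_prop

lemma pp_nonneg (u : ℝ) : 0 ≤ pp u := by
  unfold pp
  have h := Real.abs_sinc_le_one (Real.pi * u)
  have : Real.sinc (Real.pi * u) ^ 2 ≤ 1 := by
    rw [← sq_abs]
    exact pow_le_one₀ (abs_nonneg _) h
  linarith

lemma pp_le_one (u : ℝ) : pp u ≤ 1 := by
  unfold pp
  have := sq_nonneg (Real.sinc (Real.pi * u))
  linarith

lemma pp_even (u : ℝ) : pp |u| = pp u := by
  rcases abs_choice u with h | h
  · rw [h]
  · rw [h]
    unfold pp
    rw [mul_neg, Real.sinc_neg]

lemma pp_ii (a b : ℝ) : IntervalIntegrable pp volume a b := pp_cont.intervalIntegrable _ _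

lemma PP_deriv (a : ℝ) : HasDerivAt PP (pp a) a :=
  intervalIntegral.integral_hasDerivAt_right (pp_ii 0 a)
    pp_cont.aestronglyMeasurable.stronglyMeasurableAtFilter pp_cont.continuousAt

lemma PP_cont : Continuous PP := continuous_iff_continuousAt.2 fun a => (PP_deriv a).continuousAt

lemma PP_zero : PP 0 = 0 := by simp [PP]

lemma PP_sub (a b : ℝ) : PP b - PP a = ∫ u in a..b, pp u := by
  have := intervalIntegral.integral_add_adjacent_intervals (pp_ii 0 a) (pp_ii a b)
  have h1 : PP a = ∫ u in (0 : ℝ)..a, pp u := rfl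
  have h2 : PP b = ∫ u in (0 : ℝ)..b, pp u := rfl
  linarith

lemma PP_mono {a b : ℝ} (h : a ≤ b) : PP a ≤ PP b := by
  have h1 := PP_sub a b
  have h2 := intervalIntegral.integral_nonneg (μ := volume) h fun u _ => pp_nonneg u
  linarith

lemma PP_lip {a b : ℝ} (h : a ≤ b) : PP b - PP a ≤ b - a := by
  rw [PP_sub]
  calc ∫ u in a..b, pp u ≤ ∫ _ in a..b, (1 : ℝ) :=
        intervalIntegral.integral_mono_on h (pp_ii a b) (by simp) fun u _ => pp_le_one u
    _ = b - a := by simp

lemma PP_nonneg {a : ℝ} (h : 0 ≤ a) : 0 ≤ PP a := by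
  rw [← PP_zero]
  exact PP_mono h

lemma PP_le {a : ℝ} (h : 0 ≤ a) : PP a ≤ a := by
  have := PP_lip h
  rw [PP_zero] at this
  linarith

lemma tail_deriv {w : ℝ → ℝ} (hw : Continuous w) (hi : IntegrableOn w (Ioi 0)) {u : ℝ}
    (hu : 0 < u) : HasDerivAt (fun u => ∫ x in Ioi u, w x) (-w u) u := by
  have h1 : HasDerivAt (fun u => ∫ x in (0 : ℝ)..u, w x) (w u) u :=
    intervalIntegral.integral_hasDerivAt_right (hw.intervalIntegrable _ _)
      hw.aestronglyMeasurable.stronglyMeasurableAtFilter hw.continuousAt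
  have h2 : HasDerivAt (fun u => (∫ x in Ioi (0 : ℝ), w x) - ∫ x in (0 : ℝ)..u, w x) (-w u) u := by
    simpa using h1.const_sub (∫ x in Ioi (0 : ℝ), w x)
  refine h2.congr_of_eventuallyEq ?_
  filter_upwards [lt_mem_nhds hu] with v hv
  have e := intervalIntegral.integral_interval_add_Ioi (a := (0 : ℝ)) (b := v) (f := w)
    hi (hi.mono_set (Ioi_subset_Ioi (le_of_lt hv)))
  linarith

theorem main_int {w r : ℝ → ℝ} {δ : ℝ} (H : Test w r δ) :
    CT r 0 + ∫ u : ℝ, CT r u * (1 - Real.sinc (Real.pi * u) ^ 2) =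
      ∫ x in Ioi (0 : ℝ), w x * (1 + 2 * PP x) := by
  have i0 := H.int 0 le_rfl
  have i1 := H.int 1 le_rfl
  simp only [pow_zero, one_mul] at i0
  have i1a := H.inta 1 le_rfl
  simp only [pow_one] at i1 i1a
  obtain ⟨A, hA⟩ := H.decay
  have hA0 : 0 ≤ A := le_trans (by positivity) (hA 0)
  set G : ℝ → ℝ := fun u => ∫ x in Ioi u, w x with hG
  have hGe : ∀ u, 0 ≤ u → CT r u = G u := fun u hu => by
    rw [H.eq, abs_of_nonneg hu]
  have hGA : ∀ u, 0 ≤ u → |G u| * (1 + u ^ 2) ≤ A := fun u hu => by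
    rw [← hGe u hu]
    exact hA u
  have hc : Continuous w := H.cont
  -- by parts
  have hwP : IntegrableOn (fun x => w x * PP x) (Ioi 0) := by
    refine Integrable.mono' i1a ((hc.mul PP_cont).aestronglyMeasurable) ?_
    refine (ae_restrict_iff' measurableSet_Ioi).2 (ae_of_all _ fun x hx => ?_)
    have hx0 : 0 ≤ x := le_of_lt hx
    rw [Real.norm_eq_abs, abs_mul, abs_of_nonneg (PP_nonneg hx0), mul_comm]
    exact mul_le_mul_of_nonneg_right (PP_le hx0) (abs_nonneg _)
  have hder : ∀ x ∈ Ioi (0 : ℝ), HasDerivAt G (-w x) x := fun x hx => tail_deriv hc i0 hx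
  have hGp : IntegrableOn (G * pp) (Ioi 0) := by
    have hGm : AEStronglyMeasurable G (volume.restrict (Ioi 0)) :=
      (ContinuousOn.aestronglyMeasurable (fun x hx =>
        (hder x hx).continuousAt.continuousWithinAt) measurableSet_Ioi)
    refine Integrable.mono' (integrable_inv_one_add_sq.const_mul A).integrableOn
      (hGm.mul pp_cont.aestronglyMeasurable) ?_
    refine (ae_restrict_iff' measurableSet_Ioi).2 (ae_of_all _ fun x hx => ?_)
    have hx0 : 0 ≤ x := le_of_lt hx
    have h1 := hGA x hx0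
    rw [Pi.mul_apply, Real.norm_eq_abs, abs_mul, abs_of_nonneg (pp_nonneg x), ← div_eq_mul_inv,
      le_div_iff₀ (by positivity)]
    have h2 := pp_le_one x
    have h3 := pp_nonneg x
    have h4 := abs_nonneg (G x)
    calc |G x| * pp x * (1 + x ^ 2) = (|G x| * (1 + x ^ 2)) * pp x := by ring
      _ ≤ A * 1 := by gcongr
      _ = A := mul_one A
  have hz : Tendsto (G * PP) (𝓝[>] 0) (𝓝 0) := by
    have h1 : Tendsto (fun x : ℝ => A * x) (𝓝[>] 0) (𝓝 0) := by
      have : Tendsto (fun x : ℝ => A * x) (𝓝 0) (𝓝 (A * 0)) :=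
        (continuous_const.mul continuous_id).tendsto 0
      rw [mul_zero] at this
      exact this.mono_left nhdsWithin_le_nhds
    refine squeeze_zero_norm' ?_ h1
    filter_upwards [self_mem_nhdsWithin] with x hx
    have hx0 : 0 ≤ x := le_of_lt hx
    have h2 := hGA x hx0
    rw [Pi.mul_apply, Real.norm_eq_abs, abs_mul, abs_of_nonneg (PP_nonneg hx0)]
    have h3 : |G x| ≤ A := by
      refine le_trans ?_ h2
      have := abs_nonneg (G x)
      nlinarith [sq_nonneg x]
    exact mul_le_mul h3 (PP_le hx0) (PP_nonneg hx0) hA0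
  have hinf : Tendsto (G * PP) atTop (𝓝 0) := by
    have h1 : Tendsto (fun x : ℝ => A * x⁻¹) atTop (𝓝 0) := by
      have := tendsto_inv_atTop_zero.const_mul A
      rwa [mul_zero] at this
    refine squeeze_zero_norm' ?_ h1
    filter_upwards [eventually_gt_atTop 0] with x hx
    have hx0 : 0 ≤ x := le_of_lt hx
    have h2 := hGA x hx0
    rw [Pi.mul_apply, Real.norm_eq_abs, abs_mul, abs_of_nonneg (PP_nonneg hx0), ← div_eq_mul_inv,
      le_div_iff₀ hx]
    have h3 := abs_nonneg (G x)
    calc |G x| * PP x * x ≤ |G x| * x * x := by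
          gcongr
          exact PP_le hx0
      _ ≤ |G x| * (1 + x ^ 2) := by nlinarith
      _ ≤ A := h2
  have hparts := integral_Ioi_mul_deriv_eq_deriv_mul (u := G) (v := PP) (u' := fun x => -w x)
    (v' := pp) hder (fun x _ => PP_deriv x) hGp
    (by
      have : (fun x => -w x) * PP = fun x => -(w x * PP x) := by
        funext x
        simp
      rw [this]
      exact hwP.neg) hz hinf
  have e1 : ∫ x in Ioi (0 : ℝ), -w x * PP x = -∫ x in Ioi (0 : ℝ), w x * PP x := by
    rw [← integral_neg]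
    congr 1
    funext x
    ring
  rw [e1] at hparts
  have e2 : ∫ u : ℝ, CT r u * (1 - Real.sinc (Real.pi * u) ^ 2) =
      2 * ∫ u in Ioi (0 : ℝ), CT r u * pp u := by
    rw [← integral_comp_abs (f := fun u => CT r u * pp u)]
    congr 1
    funext u
    rw [CT_even, pp_even]
    rfl
  have e3 : ∫ u in Ioi (0 : ℝ), CT r u * pp u = ∫ u in Ioi (0 : ℝ), G u * pp u :=
    setIntegral_congr_fun measurableSet_Ioi fun u hu => by
      rw [hGe u (le_of_lt hu)]
  have e4 : ∫ x in Ioi (0 : ℝ), w x * (1 + 2 * PP x) =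
      (∫ x in Ioi (0 : ℝ), w x) + 2 * ∫ x in Ioi (0 : ℝ), w x * PP x := by
    rw [← integral_const_mul, ← integral_add i0 (hwP.const_mul 2)]
    congr 1
    funext x
    ring
  rw [e2, e3, e4, hparts, hGe 0 le_rfl]
  simp only [hG]
  ring

end Pool.Agent.N804
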