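import Pool.Agent.N804.SCT

set_option autoImplicit false

/-! # Windows of smooth functions -/

namespace Pool.Agent.N804

open Filter Topology Set MeasureTheory

/-- the integral of `f` over `[x + a, x + b]` -/
noncomputable def Wn (a b : ℝ) (f : ℝ → ℝ) (x : ℝ) : ℝ := ∫ s in (x + a)..(x + b), f s

lemma Wn_deriv {f : ℝ → ℝ} (hf : Continuous f) (a b x : ℝ) :
    HasDerivAt (Wn a b f) (f (x + b) - f (x + a)) x := by
  have h1 : ∀ c : ℝ, HasDerivAt (fun x => ∫ s in (0 : ℝ)..(x + c), f s) (f (x + c)) x := by
    intro c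
    have h2 : HasDerivAt (fun y => ∫ s in (0 : ℝ)..y, f s) (f (x + c)) (x + c) :=
      intervalIntegral.integral_hasDerivAt_right (hf.intervalIntegrable _ _)
        hf.aestronglyMeasurable.stronglyMeasurableAtFilter hf.continuousAt
    have h3 : HasDerivAt (fun x : ℝ => x + c) 1 x := (hasDerivAt_id x).add_const c
    have := h2.comp x h3
    rw [mul_one] at this
    exact this
  have h4 := (h1 b).sub (h1 a)
  refine h4.congr_of_eventuallyEq (Eventually.of_forall fun y => ?_)
  unfold Wn
  have := intervalIntegral.integral_interval_sub_left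
    (hf.intervalIntegrable (μ := volume) 0 (y + b)) (hf.intervalIntegrable (μ := volume) 0 (y + a))
  simp only [Pi.sub_apply]
  linarith

lemma Wn_SC {f : ℝ → ℝ} (H : SC f) (a b : ℝ) : SC (Wn a b f) := by
  have hd : deriv (Wn a b f) = fun x => f (x + b) - f (x + a) :=
    funext fun x => (Wn_deriv H.cont a b x).deriv
  refine ⟨contDiff_infty_iff_deriv.2 ⟨fun x => (Wn_deriv H.cont a b x).differentiableAt, ?_⟩, ?_⟩
  · rw [hd]
    exact (H.sm.comp (contDiff_id.add contDiff_const)).sub
      (H.sm.comp (contDiff_id.add contDiff_const))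
  · obtain ⟨κ, hκ, hs⟩ := H.supp
    refine HasCompactSupport.intro (isCompact_Icc (a := -(κ + |a| + |b|)) (b := κ + |a| + |b|))
      fun x hx => ?_
    have hx2 : κ + |a| + |b| < |x| := by
      by_contra hcon
      push Not at hcon
      exact hx (abs_le.1 hcon)
    unfold Wn
    have ha := le_abs_self a
    have ha' := neg_abs_le a
    have hb := le_abs_self b
    have hb' := neg_abs_le b
    have ha0 := abs_nonneg a
    have hb0 := abs_nonneg b
    have hz : ∀ s ∈ uIcc (x + a) (x + b), f s = 0 := by
      intro s hs2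
      apply hs
      rw [mem_uIcc] at hs2
      rcases lt_abs.1 hx2 with h | h
      · refine lt_of_lt_of_le ?_ (le_abs_self s)
        rcases hs2 with h3 | h3 <;> linarith [h3.1]
      · refine lt_of_lt_of_le ?_ (neg_le_abs s)
        rcases hs2 with h3 | h3 <;> linarith [h3.2]
    rw [intervalIntegral.integral_congr (g := fun _ => 0) hz]
    simp

lemma Wn_add {f g : ℝ → ℝ} (hf : Continuous f) (hg : Continuous g) (a b x : ℝ) :
    Wn a b (fun s => f s + g s) x = Wn a b f x + Wn a b g x :=
  intervalIntegral.integral_add (hf.intervalIntegrable _ _) (hg.intervalIntegrable _ _)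

lemma Wn_cmul (c : ℝ) (f : ℝ → ℝ) (a b x : ℝ) :
    Wn a b (fun s => c * f s) x = c * Wn a b f x :=
  intervalIntegral.integral_const_mul _ _

lemma Wn_sub {f g : ℝ → ℝ} (hf : Continuous f) (hg : Continuous g) (a b x : ℝ) :
    Wn a b (fun s => f s - g s) x = Wn a b f x - Wn a b g x :=
  intervalIntegral.integral_sub (hf.intervalIntegrable _ _) (hg.intervalIntegrable _ _)

lemma Wn_nonneg {f : ℝ → ℝ} (hf : ∀ s, 0 ≤ f s) {a b : ℝ} (hab : a ≤ b) (x : ℝ) :
    0 ≤ Wn a b f x :=
  intervalIntegral.integral_nonneg (by linarith) fun s _ => hf s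

/-- Fubini for windows -/
lemma Wn_fub {f h : ℝ → ℝ} (H : SC f) (hh : Continuous h) (a b : ℝ) :
    ∫ x : ℝ, h x * Wn a b f x = ∫ s : ℝ, f s * ∫ x in (s - b)..(s - a), h x := by
  set P : ℝ → ℝ := fun x => ∫ t in (0 : ℝ)..x, h t with hP
  have hPd : ∀ x, HasDerivAt P (h x) x := fun x =>
    intervalIntegral.integral_hasDerivAt_right (hh.intervalIntegrable _ _)
      hh.aestronglyMeasurable.stronglyMeasurableAtFilter hh.continuousAt
  have hPc : Continuous P := continuous_iff_continuousAt.2 fun x => (hPd x).continuousAt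
  have hf := H.cont
  have HW := Wn_SC H a b
  have hWc := HW.cont
  have i1 : Integrable fun x => P x * (f (x + b) - f (x + a)) := by
    refine (by fun_prop : Continuous fun x => P x * (f (x + b) - f (x + a))).integrable_of_hasCompactSupport ?_
    exact ((H.cs.comp_homeomorph (Homeomorph.addRight b)).sub
      (H.cs.comp_homeomorph (Homeomorph.addRight a))).mul_left
  have i2 : Integrable fun x => h x * Wn a b f x :=
    (hh.mul hWc).integrable_of_hasCompactSupport HW.cs.mul_left
  have i3 : Integrable fun x => P x * Wn a b f x :=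
    (hPc.mul hWc).integrable_of_hasCompactSupport HW.cs.mul_left
  have e := integral_mul_deriv_eq_deriv_mul_of_integrable (u := P) (u' := h) (v := Wn a b f)
    (v' := fun x => f (x + b) - f (x + a)) (fun x _ => hPd x) (fun x _ => Wn_deriv hf a b x)
    i1 i2 i3
  have j : ∀ c : ℝ, Integrable fun x => P x * f (x + c) := fun c =>
    (by fun_prop : Continuous fun x => P x * f (x + c)).integrable_of_hasCompactSupport
      (H.cs.comp_homeomorph (Homeomorph.addRight c)).mul_left
  have j2 : ∀ c : ℝ, Integrable fun s => f s * P (s - c) := fun c =>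
    (by fun_prop : Continuous fun s => f s * P (s - c)).integrable_of_hasCompactSupport
      H.cs.mul_right
  have e2 : ∀ c : ℝ, ∫ x, P x * f (x + c) = ∫ s, f s * P (s - c) := by
    intro c
    rw [← integral_add_right_eq_self (fun s : ℝ => f s * P (s - c)) c]
    congr 1
    funext x
    rw [add_sub_cancel_right]
    ring
  have e3 : ∫ x, P x * (f (x + b) - f (x + a)) = (∫ s, f s * P (s - b)) - ∫ s, f s * P (s - a) := by
    rw [← e2, ← e2, ← integral_sub (j b) (j a)]
    congr 1
    funext x
    ring
  have e4 : ∀ s : ℝ, f s * ∫ x in (s - b)..(s - a), h x = f s * P (s - a) - f s * P (s - b) := by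
    intro s
    have := intervalIntegral.integral_interval_sub_left
      (hh.intervalIntegrable (μ := volume) 0 (s - a)) (hh.intervalIntegrable (μ := volume) 0 (s - b))
    rw [← this]
    simp only [hP]
    ring
  simp_rw [e4]
  rw [integral_sub (j2 a) (j2 b)]
  linarith

/-- the transform of a window -/
lemma CT_Wn {f : ℝ → ℝ} (H : SC f) (c u : ℝ) :
    CT (Wn (-c) c f) u = (∫ t in (-c)..c, Real.cos (2 * Real.pi * t * u)) * CT f u := by
  have h := Wn_fub H (h := fun x => Real.cos (2 * Real.pi * x * u)) (by fun_prop) (-c) c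
  have e1 : CT (Wn (-c) c f) u = ∫ x : ℝ, Real.cos (2 * Real.pi * x * u) * Wn (-c) c f x := by
    unfold CT
    congr 1
    funext x
    ring
  rw [e1, h]
  set S : ℝ := ∫ t in (-c)..c, Real.cos (2 * Real.pi * t * u) with hS
  have e2 : ∀ s : ℝ, ∫ x in (s - c)..(s - -c), Real.cos (2 * Real.pi * x * u) =
      S * Real.cos (2 * Real.pi * s * u) := by
    intro s
    have e3 : ∫ x in (s - c)..(s - -c), Real.cos (2 * Real.pi * x * u) =
        ∫ t in (-c)..c, Real.cos (2 * Real.pi * (s - t) * u) := by
      rw [intervalIntegral.integral_comp_sub_left (fun x => Real.cos (2 * Real.pi * x * u)) s]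
    have e4 : ∀ t : ℝ, Real.cos (2 * Real.pi * (s - t) * u) =
        Real.cos (2 * Real.pi * t * u) * Real.cos (2 * Real.pi * s * u) +
        Real.sin (2 * Real.pi * t * u) * Real.sin (2 * Real.pi * s * u) := by
      intro t
      have : 2 * Real.pi * (s - t) * u = 2 * Real.pi * s * u - 2 * Real.pi * t * u := by ring
      rw [this, Real.cos_sub]
      ring
    have e5 : ∫ t in (-c)..c, Real.sin (2 * Real.pi * t * u) = 0 := by
      have h1 := intervalIntegral.integral_comp_neg (a := -c) (b := c)
        (fun t => Real.sin (2 * Real.pi * t * u))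
      rw [neg_neg] at h1
      have h2 : ∀ t : ℝ, Real.sin (2 * Real.pi * -t * u) = -Real.sin (2 * Real.pi * t * u) := by
        intro t
        rw [show 2 * Real.pi * -t * u = -(2 * Real.pi * t * u) by ring, Real.sin_neg]
      simp_rw [h2] at h1
      rw [intervalIntegral.integral_neg] at h1
      linarith
    rw [e3]
    simp_rw [e4]
    rw [intervalIntegral.integral_add
      ((by fun_prop : Continuous fun t : ℝ => Real.cos (2 * Real.pi * t * u) *
        Real.cos (2 * Real.pi * s * u)).intervalIntegrable _ _)
      ((by fun_prop : Continuous fun t : ℝ => Real.sin (2 * Real.pi * t * u) *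
        Real.sin (2 * Real.pi * s * u)).intervalIntegrable _ _),
      intervalIntegral.integral_mul_const, intervalIntegral.integral_mul_const, e5]
    ring
  simp_rw [e2]
  unfold CT
  rw [← integral_const_mul]
  congr 1
  funext s
  ring

end Pool.Agent.N804
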