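import Pool.Agent.N804.Uniq

set_option autoImplicit false

/-! # A rapidly decreasing one-sided function with vanishing moments -/

namespace Pool.Agent.N804

open Filter Topology Set MeasureTheory
open scoped ENNReal

/-- An even function all of whose moments vanish, and which is bounded from below by a negative
exponential, vanishes almost everywhere. -/
theorem uniqV {U : ℝ → ℝ} (hUm : Measurable U) (hUe : ∀ x, U (-x) = U x) {K ε : ℝ} (hε : 0 < ε)
    (hint : ∀ n : ℕ, Integrable fun x : ℝ => x ^ n * U x)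
    (hz : ∀ n : ℕ, ∫ x : ℝ, x ^ (2 * n) * U x = 0)
    (hUneg : ∀ᵐ x : ℝ, -U x ≤ K * Real.exp (-(ε * |x|))) : U =ᵐ[volume] 0 := by
  set μ : Measure ℝ := volume.withDensity (fun x => ENNReal.ofReal (U x)) with hμ
  set ν : Measure ℝ := volume.withDensity (fun x => ENNReal.ofReal (-U x)) with hν
  have m1 : Measurable fun x => ENNReal.ofReal (U x) := hUm.ennreal_ofReal
  have m2 : Measurable fun x => ENNReal.ofReal (-U x) := hUm.neg.ennreal_ofReal
  have hlin : ∀ n : ℕ, ∫⁻ x, ENNReal.ofReal (x ^ (2 * n)) ∂μ =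
      ∫⁻ x, ENNReal.ofReal (x ^ (2 * n)) ∂ν := by
    intro n
    have mm : Measurable fun x : ℝ => ENNReal.ofReal (x ^ (2 * n)) := by fun_prop
    rw [hμ, hν, lintegral_withDensity_eq_lintegral_mul _ m1 mm,
      lintegral_withDensity_eq_lintegral_mul _ m2 mm]
    have h := lin_eq (hint (2 * n)) (hz n)
    have hnn : ∀ x : ℝ, 0 ≤ x ^ (2 * n) := fun x => (even_two_mul n).pow_nonneg x
    have e1 : ∀ x : ℝ, ((fun x => ENNReal.ofReal (U x)) * fun x => ENNReal.ofReal (x ^ (2 * n))) x =
        ENNReal.ofReal (x ^ (2 * n) * U x) := by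
      intro x
      simp only [Pi.mul_apply]
      rw [mul_comm, ← ENNReal.ofReal_mul (hnn x)]
    have e2 : ∀ x : ℝ, ((fun x => ENNReal.ofReal (-U x)) *
        fun x => ENNReal.ofReal (x ^ (2 * n))) x = ENNReal.ofReal (-(x ^ (2 * n) * U x)) := by
      intro x
      simp only [Pi.mul_apply]
      rw [mul_comm, ← ENNReal.ofReal_mul (hnn x), mul_neg]
    rw [lintegral_congr e1, lintegral_congr e2, h]
  have hcosh : ∀ t : ℝ, ∫⁻ x, ENNReal.ofReal (Real.cosh (t * x)) ∂μ =
      ∫⁻ x, ENNReal.ofReal (Real.cosh (t * x)) ∂ν := by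
    intro t
    simp_rw [cosh_sum]
    rw [lintegral_tsum (fun n => by fun_prop), lintegral_tsum (fun n => by fun_prop)]
    congr 1
    funext n
    rw [lintegral_const_mul _ (by fun_prop), lintegral_const_mul _ (by fun_prop), hlin]
  have hfin : ∀ t : ℝ, |t| < ε → ∫⁻ x, ENNReal.ofReal (Real.cosh (t * x)) ∂ν < ∞ := by
    intro t ht
    rw [hν, lintegral_withDensity_eq_lintegral_mul _ m2 (by fun_prop)]
    have hc : 0 < ε - |t| := by linarith
    have hI : Integrable fun x : ℝ => |K| * Real.exp (-(ε - |t|) * |x|) :=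
      Integrable.const_mul (int_exp_abs hc) _
    refine lt_of_le_of_lt (lintegral_mono_ae ?_) hI.lintegral_lt_top
    filter_upwards [hUneg] with x hx
    simp only [Pi.mul_apply]
    rw [mul_comm, ← ENNReal.ofReal_mul (Real.cosh_pos _).le]
    refine ENNReal.ofReal_le_ofReal ?_
    have h1 : Real.cosh (t * x) ≤ Real.exp (|t| * |x|) := by
      rw [← Real.cosh_abs, abs_mul]
      have := Real.exp_pos (-(|t| * |x|))
      have h5 : Real.exp (-(|t| * |x|)) ≤ Real.exp (|t| * |x|) :=
        Real.exp_le_exp.2 (by have := mul_nonneg (abs_nonneg t) (abs_nonneg x); linarith)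
      rw [Real.cosh_eq]
      linarith
    have h2 : -U x ≤ |K| * Real.exp (-(ε * |x|)) :=
      hx.trans (mul_le_mul_of_nonneg_right (le_abs_self K) (Real.exp_pos _).le)
    calc Real.cosh (t * x) * (-U x) ≤ Real.cosh (t * x) * (|K| * Real.exp (-(ε * |x|))) :=
          mul_le_mul_of_nonneg_left h2 (Real.cosh_pos _).le
      _ ≤ Real.exp (|t| * |x|) * (|K| * Real.exp (-(ε * |x|))) :=
          mul_le_mul_of_nonneg_right h1 (mul_nonneg (abs_nonneg K) (Real.exp_pos _).le)
      _ = |K| * Real.exp (-(ε - |t|) * |x|) := by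
          have : -(ε - |t|) * |x| = |t| * |x| + -(ε * |x|) := by ring
          rw [this, Real.exp_add]
          ring
  have hexp : ∀ {ρ : Measure ℝ}, (∀ t : ℝ, |t| < ε →
      ∫⁻ x, ENNReal.ofReal (Real.cosh (t * x)) ∂ρ < ∞) →
      ∀ t : ℝ, |t| < ε → Integrable (fun x : ℝ => Real.exp (t * x)) ρ := by
    intro ρ h t ht
    have h1 : Integrable (fun x : ℝ => Real.cosh (t * x)) ρ := by
      refine ⟨by fun_prop, ?_⟩
      rw [hasFiniteIntegral_iff_ofReal (ae_of_all _ fun x => (Real.cosh_pos _).le)]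
      exact h t ht
    refine Integrable.mono' (h1.const_mul 2) (by fun_prop) (ae_of_all _ fun x => ?_)
    rw [Real.norm_eq_abs, Real.abs_exp, Real.cosh_eq]
    have := Real.exp_pos (-(t * x))
    linarith
  have hμe := hexp (ρ := μ) (fun t ht => by rw [hcosh t]; exact hfin t ht)
  have hνe := hexp (ρ := ν) hfin
  have fin_of : ∀ {ρ : Measure ℝ}, (∀ t : ℝ, |t| < ε →
      Integrable (fun x : ℝ => Real.exp (t * x)) ρ) → IsFiniteMeasure ρ := by
    intro ρ h
    have h1 := h 0 (by simpa using hε)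
    simp only [zero_mul, Real.exp_zero] at h1
    have := integrable_const_iff.1 h1
    rcases this with h | h
    · norm_num at h
    · exact h
  have := fin_of hμe
  have := fin_of hνe
  have hmom : ∀ n : ℕ, ∫ x : ℝ, x ^ n ∂μ = ∫ x : ℝ, x ^ n ∂ν := by
    intro n
    rcases Nat.even_or_odd n with he | ho
    · obtain ⟨k, hk⟩ := he
      have hk2 : n = 2 * k := by omega
      subst hk2
      have hnn : ∀ x : ℝ, 0 ≤ x ^ (2 * k) := fun x => (even_two_mul k).pow_nonneg x
      rw [integral_eq_lintegral_of_nonneg_ae (ae_of_all _ hnn) (by fun_prop),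
        integral_eq_lintegral_of_nonneg_ae (ae_of_all _ hnn) (by fun_prop), hlin]
    · have hodd : ∀ {h : ℝ → ℝ≥0∞}, Measurable h → (∀ x, h x < ∞) → (∀ x, h (-x) = h x) →
          ∫ x : ℝ, x ^ n ∂(volume.withDensity h) = 0 := by
        intro h hm' hfin' hev
        rw [integral_withDensity_eq_integral_toReal_smul hm' (ae_of_all _ hfin')]
        have e := integral_neg_eq_self (fun x : ℝ => (h x).toReal • x ^ n) volume
        have e2 : ∀ x : ℝ, (h (-x)).toReal • (-x) ^ n = -((h x).toReal • x ^ n) := by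
          intro x
          rw [hev, ho.neg_pow]
          simp
        simp only [e2, integral_neg] at e
        linarith
      rw [hμ, hν, hodd m1 (fun x => ENNReal.ofReal_lt_top) (fun x => by rw [hUe]),
        hodd m2 (fun x => ENNReal.ofReal_lt_top) (fun x => by rw [hUe])]
  have heq : μ = ν := meas_eq hε hμe hνe hmom
  have hae : (fun x => ENNReal.ofReal (U x)) =ᵐ[volume] fun x => ENNReal.ofReal (-U x) := by
    refine (withDensity_eq_iff m1.aemeasurable m2.aemeasurable ?_).1 heq
    have h1 : IsFiniteMeasure μ := inferInstance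
    have h2 := h1.measure_univ_lt_top
    rw [hμ, withDensity_apply _ MeasurableSet.univ, Measure.restrict_univ] at h2
    exact h2.ne
  filter_upwards [hae] with x hx
  rcases lt_trichotomy (U x) 0 with h | h | h
  · rw [ENNReal.ofReal_of_nonpos h.le, eq_comm, ENNReal.ofReal_eq_zero] at hx
    linarith
  · exact h
  · rw [ENNReal.ofReal_of_nonpos (by linarith : -U x ≤ 0), ENNReal.ofReal_eq_zero] at hx
    linarith

/-- the version on the half-line -/
theorem uniqH {u : ℝ → ℝ} (hu : Measurable u) {K ε : ℝ} (hε : 0 < ε)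
    (hdec : ∀ n : ℕ, ∃ A : ℝ, ∀ᵐ x : ℝ, 0 < x → x ^ n * |u x| ≤ A)
    (hm : ∀ n : ℕ, ∫ x in Ioi (0 : ℝ), x ^ (2 * n) * u x = 0)
    (hneg : ∀ᵐ x : ℝ, 0 < x → -(K * Real.exp (-(ε * x))) ≤ u x) : ∀ᵐ x, 0 < x → u x = 0 := by
  set U : ℝ → ℝ := fun x => u |x| with hU
  have hUm : Measurable U := hu.comp (by fun_prop)
  have hUe : ∀ x, U (-x) = U x := fun x => by simp [hU]
  have hne : ∀ᵐ x : ℝ, x ≠ 0 := by
    rw [ae_iff]
    simp
  -- transfer of almost everywhere statements
  have htr : ∀ {p : ℝ → Prop}, (∀ᵐ x : ℝ, 0 < x → p x) → ∀ᵐ x : ℝ, p |x| := by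
    intro p hp
    have h1 : ∀ᵐ x : ℝ, 0 < -x → p (-x) := by
      have := (Measure.measurePreserving_neg (volume : Measure ℝ)).quasiMeasurePreserving.ae hp
      exact this
    filter_upwards [hp, h1, hne] with x h2 h3 h4
    rcases lt_or_gt_of_ne h4 with h | h
    · rw [abs_of_neg h]
      exact h3 (by linarith)
    · rw [abs_of_pos h]
      exact h2 h
  have hint : ∀ n : ℕ, Integrable fun x : ℝ => x ^ n * U x := by
    intro n
    obtain ⟨A1, hA1⟩ := hdec n
    obtain ⟨A2, hA2⟩ := hdec (n + 2)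
    refine Integrable.mono' (integrable_inv_one_add_sq.const_mul (A1 + A2))
      ((measurable_id.pow_const n).mul hUm).aestronglyMeasurable ?_
    filter_upwards [htr hA1, htr hA2] with x h1 h2
    rw [Real.norm_eq_abs, abs_mul, abs_pow, ← div_eq_mul_inv, le_div_iff₀ (by positivity)]
    have hx2 : x ^ 2 = |x| ^ 2 := (sq_abs x).symm
    rw [hx2]
    simp only [hU]
    calc |x| ^ n * |(u (|x|))| * (1 + |x| ^ 2) =
          |x| ^ n * |(u (|x|))| + |x| ^ (n + 2) * |(u (|x|))| := by ring
      _ ≤ _ := add_le_add h1 h2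
  have hz : ∀ n : ℕ, ∫ x : ℝ, x ^ (2 * n) * U x = 0 := by
    intro n
    have e : ∀ x : ℝ, x ^ (2 * n) * U x = (fun y : ℝ => y ^ (2 * n) * u y) |x| := by
      intro x
      simp only [hU]
      have : x ^ (2 * n) = |x| ^ (2 * n) := by rw [pow_mul, pow_mul, sq_abs]
      rw [this]
    rw [integral_congr_ae (ae_of_all _ e),
      integral_comp_abs (f := fun y : ℝ => y ^ (2 * n) * u y), hm n, mul_zero]
  have h := uniqV hUm hUe hε (K := K) hint hz (by
    filter_upwards [htr hneg] with x hx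
    simp only [hU]
    linarith)
  filter_upwards [h] with x hx hx0
  have : U x = 0 := hx
  simp only [hU, abs_of_pos hx0] at this
  exact this

end Pool.Agent.N804
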