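import Pool.Agent.N804.Disp
import Pool.Agent.N804.Uniq2

set_option autoImplicit false

/-! # Multipliers with a prescribed sign pattern -/

namespace Pool.Agent.N804

open Filter Topology Set MeasureTheory

/-- at most `d L + C` points in every interval of length `L` of the half-line -/
def Dens (Λ : Set ℝ) (d C : ℝ) : Prop := ∀ x L : ℝ, 0 ≤ x → 0 ≤ L →
  (Λ ∩ Icc x (x + L)).Finite ∧ ((Λ ∩ Icc x (x + L)).ncard : ℝ) ≤ d * L + C

/-- the number of points of `Λ` in `(0, a]` -/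
noncomputable def cn (Λ : Set ℝ) (a : ℝ) : ℕ := (Λ ∩ Ioc 0 a).ncard

lemma Dens.fin {Λ : Set ℝ} {d C : ℝ} (h : Dens Λ d C) {S : Set ℝ} {a : ℝ} (hS : S ⊆ Icc 0 a) :
    (Λ ∩ S).Finite := by
  rcases le_or_gt 0 a with ha | ha
  · refine (h 0 a le_rfl ha).1.subset ?_
    rw [zero_add]
    exact inter_subset_inter_right _ hS
  · have : S = ∅ := by
      apply eq_empty_of_subset_empty
      refine hS.trans ?_
      rw [Icc_eq_empty (by linarith)]
    rw [this, inter_empty]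
    exact finite_empty

/-- the block length and the number of zeros in a block -/
lemma choose_block {Λ : Set ℝ} {d C : ℝ} (hd : d < 4 / 3) (h : Dens Λ d C) :
    ∃ (ℓ : ℝ) (m : ℕ), 0 < ℓ ∧ 1 / (4 * ℓ) + m / (2 * ℓ) < 2 / 3 ∧
      ∀ x : ℝ, 0 ≤ x → (Λ ∩ Ico x (x + ℓ)).ncard + 1 ≤ m := by
  set d' : ℝ := max d 0 with hd'
  set C' : ℝ := max C 0 with hC'
  have h1 : d' < 4 / 3 := max_lt hd (by norm_num)
  have h2 : 0 ≤ d' := le_max_right _ _
  have h3 : 0 ≤ C' := le_max_right _ _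
  set ℓ : ℝ := (C' + 3) / (4 / 3 - d') with hℓ
  have hℓ0 : 0 < ℓ := div_pos (by linarith) (by linarith)
  have h4 : (4 / 3 - d') * ℓ = C' + 3 := by
    have : (4 / 3 - d') ≠ 0 := by linarith
    rw [hℓ, mul_div_cancel₀ _ this]
  refine ⟨ℓ, ⌈d' * ℓ + C'⌉₊ + 1, hℓ0, ?_, fun x hx => ?_⟩
  · have h5 : (⌈d' * ℓ + C'⌉₊ : ℝ) < d' * ℓ + C' + 1 := Nat.ceil_lt_add_one (by positivity)
    have h6 : 1 / (4 * ℓ) + ((⌈d' * ℓ + C'⌉₊ + 1 : ℕ) : ℝ) / (2 * ℓ) =
        (1 + 2 * ((⌈d' * ℓ + C'⌉₊ : ℝ) + 1)) / (4 * ℓ) := by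
      push_cast
      field_simp
      ring
    rw [h6, div_lt_iff₀ (by positivity)]
    nlinarith
  · obtain ⟨g1, g2⟩ := h x ℓ hx hℓ0.le
    have g3 : (Λ ∩ Ico x (x + ℓ)).ncard ≤ (Λ ∩ Icc x (x + ℓ)).ncard :=
      ncard_le_ncard (inter_subset_inter_right _ Ico_subset_Icc_self) g1
    have g4 : ((Λ ∩ Icc x (x + ℓ)).ncard : ℝ) ≤ d' * ℓ + C' := by
      refine g2.trans ?_
      have := le_max_left d 0
      have := le_max_left C 0
      have : d * ℓ ≤ d' * ℓ := by gcongr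
      linarith
    have g5 : (Λ ∩ Icc x (x + ℓ)).ncard ≤ ⌈d' * ℓ + C'⌉₊ := by
      have := g4.trans (Nat.le_ceil _)
      exact_mod_cast this
    omega

section Block

variable (F : ℕ → Finset ℝ) (ℓ : ℝ) (m : ℕ)

/-- parity corrections -/
def eps : ℕ → ℕ
  | 0 => 0
  | j + 1 => (m - (F j).card - eps j) % 2

lemma eps_le (j : ℕ) : eps F m j ≤ 1 := by
  cases j with
  | zero => simp [eps]
  | succ j =>
    unfold eps
    have := Nat.mod_lt (m - (F j).card - eps F m j) (by norm_num : 0 < 2)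
    omega

/-- parity of the corrections -/
lemma eps_parity (hm : ∀ j, (F j).card + 1 ≤ m) (N : ℕ) :
    (eps F m N) % 2 = (N * m + ∑ j ∈ Finset.range N, (F j).card) % 2 := by
  induction N with
  | zero => simp [eps]
  | succ N ih =>
    rw [Finset.sum_range_succ]
    unfold eps
    have h1 := hm N
    have h2 := eps_le F m N
    have h3 : (N + 1) * m = N * m + m := by ring
    rw [h3]
    set S := ∑ j ∈ Finset.range N, (F j).card
    set P := N * m
    omega

/-- the zeros: the `i`-th zero of the `j`-th block -/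
noncomputable def el (j i : ℕ) : ℝ :=
  if h : i < (F j).card then ((F j).equivFin.symm ⟨i, h⟩ : ℝ) / ℓ
  else if i < (F j).card + eps F m j then (j : ℝ) + 1 else (j : ℝ) + 2

lemma el_dis (hℓ : 0 < ℓ) (hF : ∀ j, ∀ y ∈ F j, ((j : ℝ) + 1) * ℓ ≤ y ∧ y < ((j : ℝ) + 2) * ℓ)
    (i : ℕ) : Dis (fun j => el F ℓ m j i) := by
  intro j
  simp only [el]
  split_ifs with h1 h2
  · obtain ⟨a1, a2⟩ := hF j _ ((F j).equivFin.symm ⟨i, h1⟩).2
    constructor
    · rw [le_div_iff₀ hℓ]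
      exact a1
    · rw [div_le_iff₀ hℓ]
      exact a2.le
  · constructor <;> linarith
  · constructor <;> linarith

/-- all zeros of a block are before `x` -/
lemma count_full (hℓ : 0 < ℓ)
    (hF : ∀ j, ∀ y ∈ F j, ((j : ℝ) + 1) * ℓ ≤ y ∧ y < ((j : ℝ) + 2) * ℓ) {j : ℕ} {x : ℝ}
    (hx : (j : ℝ) + 2 < x) :
    ((Finset.range m).filter (fun i => el F ℓ m j i < x)).card = m := by
  rw [Finset.filter_true_of_mem, Finset.card_range]
  intro i _
  exact ((el_dis F ℓ m hℓ hF i j).2).trans_lt hx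

/-- the zeros before `x` in the block of `x` -/
lemma count_block (hℓ : 0 < ℓ) (hm : ∀ j, (F j).card + 1 ≤ m) {j : ℕ} {x : ℝ}
    (hx1 : (j : ℝ) + 1 < x) (hx2 : x < (j : ℝ) + 2) :
    ((Finset.range m).filter (fun i => el F ℓ m j i < x)).card =
      ((F j).filter (fun y => y < x * ℓ)).card + eps F m j := by
  classical
  have h1 := hm j
  have h2 := eps_le F m j
  set n := (F j).card with hn
  set e := eps F m j with he
  have hmn : m = n + e + (m - n - e) := by omega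
  rw [Finset.card_filter, hmn, Finset.sum_range_add, Finset.sum_range_add]
  have s1 : ∑ i ∈ Finset.range n, (if el F ℓ m j i < x then 1 else 0) =
      ((F j).filter (fun y => y < x * ℓ)).card := by
    rw [Finset.card_filter]
    have e1 : ∑ y ∈ F j, (if y < x * ℓ then 1 else 0) =
        ∑ y : (F j), (if (y : ℝ) < x * ℓ then 1 else 0) :=
      (Finset.sum_coe_sort (F j) (fun y => if y < x * ℓ then 1 else 0)).symm
    rw [e1, ← (F j).equivFin.symm.sum_comp, Finset.sum_range]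
    refine Finset.sum_congr rfl fun i _ => ?_
    have h3 : (i : ℕ) < (F j).card := i.2
    have h4 : el F ℓ m j i = ((F j).equivFin.symm i : ℝ) / ℓ := by
      unfold el
      rw [dif_pos h3]
    rw [h4]
    congr 1
    rw [div_lt_iff₀ hℓ]
  have s2 : ∑ i ∈ Finset.range e, (if el F ℓ m j (n + i) < x then 1 else 0) = e := by
    rw [Finset.sum_congr rfl fun i hi => if_pos ?_]
    · simp
    · have h3 := Finset.mem_range.1 hi
      have h4 : el F ℓ m j (n + i) = (j : ℝ) + 1 := by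
        unfold el
        rw [dif_neg (by omega), if_pos (by omega)]
      rw [h4]
      exact hx1
  have s3 : ∑ i ∈ Finset.range (m - n - e), (if el F ℓ m j (n + e + i) < x then 1 else 0) = 0 := by
    refine Finset.sum_eq_zero fun i hi => if_neg ?_
    have h4 : el F ℓ m j (n + e + i) = (j : ℝ) + 2 := by
      unfold el
      rw [dif_neg (by omega), if_neg (by omega)]
    rw [h4]
    linarith
  rw [← hmn, s1, s2, s3, add_zero]

end Block

/-- integers and zeros form a null set -/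
lemma ae_good {ℓ : ℝ} (hℓ : 0 < ℓ) (lam : ℕ → ℕ → ℝ) : ∀ᵐ x : ℝ,
    (∀ j : ℕ, x / ℓ ≠ (j : ℝ) + 1) ∧ ∀ i j : ℕ, x / ℓ ≠ lam i j := by
  have h1 : ∀ c : ℝ, ∀ᵐ x : ℝ, x / ℓ ≠ c := by
    intro c
    have : ∀ᵐ x : ℝ, x ≠ c * ℓ := by
      rw [ae_iff]
      simp
    filter_upwards [this] with x hx h
    rw [div_eq_iff hℓ.ne'] at h
    exact hx h
  filter_upwards [ae_all_iff.2 fun j : ℕ => h1 ((j : ℝ) + 1),
    ae_all_iff.2 fun i : ℕ => ae_all_iff.2 fun j : ℕ => h1 (lam i j)] with x h2 h3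
  exact ⟨h2, h3⟩

/-- **multipliers with a prescribed sign pattern** -/
theorem multiplier {Λ : Set ℝ} {d C : ℝ} (hd : d < 4 / 3) (h : Dens Λ d C) :
    ∃ (κ β ℓ : ℝ) (m : ℕ) (W : ℝ → ℝ), 0 < κ ∧ κ + β < 2 / 3 ∧ 0 < ℓ ∧ 0 ≤ β - m / (2 * ℓ) ∧
      Measurable W ∧ (∀ᵐ x : ℝ, 0 < x → W x ≠ 0 ∧ |W x| ≤ (6 * (1 + x / ℓ)) ^ m) ∧
      (∀ᵐ x : ℝ, ℓ < x → 0 ≤ (-1) ^ cn Λ x * W x) ∧
      ∃ s : ℝ, (s = 1 ∨ s = -1) ∧
      ∃ k : ℕ → ℕ → ℝ → ℝ, (∀ n i, Continuous (k n i)) ∧ ∀ᵐ x : ℝ, 0 < x →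
        (∀ n, |∏ i ∈ Finset.range m, EX (k n i) ℓ x| ≤ (6 * (1 + x / ℓ)) ^ m) ∧
        Tendsto (fun n => ∏ i ∈ Finset.range m, EX (k n i) ℓ x) atTop (𝓝 (s * W x)) := by
  classical
  obtain ⟨ℓ, m, hℓ, hm, hcard⟩ := choose_block hd h
  have hfin : ∀ a b : ℝ, 0 ≤ a → (Λ ∩ Ico a b).Finite := fun a b ha =>
    h.fin (a := b) (fun y hy => ⟨ha.trans hy.1, hy.2.le⟩)
  have hnn : ∀ j : ℕ, 0 ≤ ((j : ℝ) + 1) * ℓ := fun j => by positivity
  set F : ℕ → Finset ℝ := fun j =>
    (hfin (((j : ℝ) + 1) * ℓ) (((j : ℝ) + 2) * ℓ) (hnn j)).toFinset with hFdef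
  have hFmem : ∀ j y, y ∈ F j ↔ y ∈ Λ ∧ ((j : ℝ) + 1) * ℓ ≤ y ∧ y < ((j : ℝ) + 2) * ℓ := by
    intro j y
    simp only [hFdef, Set.Finite.mem_toFinset, mem_inter_iff, mem_Ico]
  have hF : ∀ j, ∀ y ∈ F j, ((j : ℝ) + 1) * ℓ ≤ y ∧ y < ((j : ℝ) + 2) * ℓ :=
    fun j y hy => ((hFmem j y).1 hy).2
  have hFc : ∀ j, (F j).card + 1 ≤ m := by
    intro j
    have h1 := hcard (((j : ℝ) + 1) * ℓ) (hnn j)
    have h2 : ((j : ℝ) + 1) * ℓ + ℓ = ((j : ℝ) + 2) * ℓ := by ring
    rw [h2, ncard_eq_toFinset_card _ (hfin _ _ (hnn j))] at h1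
    exact h1
  set lam : ℕ → ℕ → ℝ := fun i j => el F ℓ m j i with hlam
  have hdis : ∀ i, Dis (lam i) := fun i => el_dis F ℓ m hℓ hF i
  set c0 : ℕ := (Λ ∩ Ioo 0 ℓ).ncard with hc0
  set W : ℝ → ℝ := fun x => (-1) ^ c0 * ∏ i ∈ Finset.range m, Ql (lam i) (x / ℓ) with hW
  choose k hkc hk using fun (n i : ℕ) => trunc (hdis i) n
  have hEX : ∀ (k : ℝ → ℝ) (x : ℝ), EX k ℓ x = EX k 1 (x / ℓ) := by
    intro k x
    unfold EX
    simp only [div_one]
  -- counting the points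
  have hcount : ∀ N : ℕ, (Λ ∩ Ioo 0 (((N : ℝ) + 1) * ℓ)).ncard =
      c0 + ∑ j ∈ Finset.range N, (F j).card := by
    intro N
    induction N with
    | zero => simp [hc0]
    | succ N ih =>
      have e1 : Λ ∩ Ioo 0 ((((N + 1 : ℕ) : ℝ) + 1) * ℓ) =
          (Λ ∩ Ioo 0 (((N : ℝ) + 1) * ℓ)) ∪ (Λ ∩ Ico (((N : ℝ) + 1) * ℓ) (((N : ℝ) + 2) * ℓ)) := by
        rw [← inter_union_distrib_left, Ioo_union_Ico_eq_Ioo]
        · push_cast
          congr 3
          ring
        · positivity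
        · nlinarith
      rw [e1, ncard_union_eq ?_ (h.fin (a := ((N : ℝ) + 1) * ℓ) fun y hy => ⟨hy.1.le, hy.2.le⟩)
        (hfin _ _ (hnn N)), ih, Finset.sum_range_succ, ← add_assoc,
        ncard_eq_toFinset_card _ (hfin _ _ (hnn N))]
      refine disjoint_left.2 fun y hy hy2 => ?_
      exact absurd hy.2.2 (not_lt.2 hy2.2.1)
  refine ⟨1 / (4 * ℓ), m / (2 * ℓ), ℓ, m, W, by positivity, hm, hℓ, by rw [sub_self], ?_, ?_, ?_,
    (-1) ^ c0, neg_one_pow_eq_or ℝ c0, fun n i => k n i, hkc, ?_⟩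
  · refine Measurable.const_mul ?_ _
    refine Finset.measurable_prod _ fun i _ => ?_
    exact (Ql_meas (hdis i)).comp (by fun_prop)
  · filter_upwards [ae_good hℓ lam] with x hx hx0
    have hy : 0 < x / ℓ := by positivity
    constructor
    · refine mul_ne_zero (pow_ne_zero _ (by norm_num)) ?_
      rw [Finset.prod_ne_zero_iff]
      intro i _
      exact Ql_ne (hdis i) hy hx.1 (hx.2 i)
    · simp only [hW]
      rw [abs_mul, abs_pow, abs_neg, abs_one, one_pow, one_mul, Finset.abs_prod]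
      calc ∏ i ∈ Finset.range m, |Ql (lam i) (x / ℓ)| ≤
            ∏ _i ∈ Finset.range m, (6 * (1 + x / ℓ)) :=
            Finset.prod_le_prod (fun i _ => abs_nonneg _) fun i _ =>
              lim_bd (hdis i) hy hx.1 (Ql_tendsto (hdis i) _)
        _ = _ := by rw [Finset.prod_const, Finset.card_range]
  · -- sign
    have hΛ0 : ∀ᵐ x : ℝ, ℓ < x → x ∉ Λ := by
      have h1 : (Λ ∩ Ioi 0).Countable := by
        have : Λ ∩ Ioi 0 ⊆ ⋃ n : ℕ, (Λ ∩ Icc 0 (0 + (n : ℝ))) := by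
          rintro y ⟨hy1, hy2⟩
          obtain ⟨n, hn⟩ := exists_nat_ge y
          rw [mem_iUnion]
          exact ⟨n, hy1, le_of_lt hy2, by rw [zero_add]; exact hn⟩
        refine Countable.mono this (countable_iUnion fun n => ?_)
        exact (h 0 n le_rfl (Nat.cast_nonneg n)).1.countable
      filter_upwards [h1.ae_notMem volume] with x hx hx0 hxΛ
      exact hx ⟨hxΛ, hℓ.trans hx0⟩
    filter_upwards [ae_good hℓ lam, hΛ0] with x hx hxΛ hx0
    have hxΛ := hxΛ hx0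
    have hxp : 0 < x := hℓ.trans hx0
    have hy : 0 < x / ℓ := by positivity
    have hy1 : 1 < x / ℓ := by rw [lt_div_iff₀ hℓ]; linarith
    obtain ⟨N, hN⟩ : ∃ N : ℕ, ⌊x / ℓ⌋₊ = N + 1 := by
      have : 1 ≤ ⌊x / ℓ⌋₊ := Nat.le_floor (by simpa using hy1.le)
      exact ⟨⌊x / ℓ⌋₊ - 1, by omega⟩
    have hN1 : (N : ℝ) + 1 ≤ x / ℓ := by
      have := Nat.floor_le hy.le
      rw [hN] at this
      push_cast at this
      exact this
    have hN2 : x / ℓ < (N : ℝ) + 2 := by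
      have := Nat.lt_floor_add_one (x / ℓ)
      rw [hN] at this
      push_cast at this
      linarith
    have hN1' : (N : ℝ) + 1 < x / ℓ := lt_of_le_of_ne hN1 (hx.1 N).symm
    have hsum : ∑ i ∈ Finset.range m, ((Finset.range (N + 1)).filter
        (fun j => lam i j < x / ℓ)).card =
        N * m + (((F N).filter (fun y => y < x)).card + eps F m N) := by
      have e1 : ∀ i ∈ Finset.range m, ((Finset.range (N + 1)).filter
          (fun j => lam i j < x / ℓ)).card = ∑ j ∈ Finset.range (N + 1),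
          (if lam i j < x / ℓ then 1 else 0) := fun i _ => Finset.card_filter _ _
      rw [Finset.sum_congr rfl e1, Finset.sum_comm, Finset.sum_range_succ]
      congr 1
      · rw [Finset.sum_congr rfl fun j hj => ?_, Finset.sum_const, Finset.card_range, smul_eq_mul]
        rw [← Finset.card_filter]
        refine count_full F ℓ m hℓ hF ?_
        have : (j : ℝ) + 1 ≤ N := by exact_mod_cast Finset.mem_range.1 hj
        linarith
      · rw [← Finset.card_filter]
        have := count_block F ℓ m hℓ hFc hN1' hN2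
        rw [div_mul_cancel₀ _ hℓ.ne'] at this
        exact this
    have hcn : cn Λ x = c0 + ∑ j ∈ Finset.range N, (F j).card +
        ((F N).filter (fun y => y < x)).card := by
      unfold cn
      have hNx : ((N : ℝ) + 1) * ℓ < x := by
        rw [lt_div_iff₀ hℓ] at hN1'
        exact hN1'
      have hNx2 : x < ((N : ℝ) + 2) * ℓ := by
        rw [div_lt_iff₀ hℓ] at hN2
        exact hN2
      have e1 : Λ ∩ Ioc 0 x = (Λ ∩ Ioo 0 (((N : ℝ) + 1) * ℓ)) ∪
          ↑((F N).filter (fun y => y < x)) := by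
        ext y
        simp only [mem_inter_iff, mem_Ioc, mem_union, mem_Ioo, Finset.coe_filter,
          Set.mem_ofPred_eq, hFmem]
        constructor
        · rintro ⟨a1, a2, a3⟩
          rcases lt_or_ge y (((N : ℝ) + 1) * ℓ) with h1 | h1
          · exact Or.inl ⟨a1, a2, h1⟩
          · refine Or.inr ⟨⟨a1, h1, by linarith⟩, lt_of_le_of_ne a3 ?_⟩
            intro h2
            rw [h2] at a1
            exact hxΛ a1
        · rintro (⟨a1, a2, a3⟩ | ⟨⟨a1, a2, a3⟩, a4⟩)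
          · exact ⟨a1, a2, by linarith⟩
          · exact ⟨a1, lt_of_lt_of_le (by positivity) a2, a4.le⟩
      rw [e1, ncard_union_eq ?_ (h.fin (a := ((N : ℝ) + 1) * ℓ) fun y hy => ⟨hy.1.le, hy.2.le⟩)
        (Finset.finite_toSet _), hcount N, ncard_coe_finset]
      refine disjoint_left.2 fun y hy hy2 => ?_
      rw [Finset.mem_coe, Finset.mem_filter, hFmem] at hy2
      exact absurd hy.2.2 (not_lt.2 hy2.1.2.1)
    have hpar := eps_parity F m hFc N
    have hprod : 0 ≤ (-1 : ℝ) ^ (N * m + (((F N).filter (fun y => y < x)).card + eps F m N)) *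
        ∏ i ∈ Finset.range m, Ql (lam i) (x / ℓ) := by
      rw [← hsum, ← Finset.prod_pow_eq_pow_sum, ← Finset.prod_mul_distrib]
      refine Finset.prod_nonneg fun i _ => ?_
      refine Ql_sign (hdis i) hy ?_
      push_cast
      linarith
    simp only [hW]
    rw [← mul_assoc, ← pow_add]
    have hpp : (-1 : ℝ) ^ (cn Λ x + c0) =
        (-1 : ℝ) ^ (N * m + (((F N).filter (fun y => y < x)).card + eps F m N)) := by
      refine neg_one_pow_congr ?_
      rw [Nat.even_iff, Nat.even_iff, hcn]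
      set S := ∑ j ∈ Finset.range N, (F j).card
      set P := N * m
      omega
    rw [hpp]
    exact hprod
  · filter_upwards [ae_good hℓ lam] with x hx hx0
    have hy : 0 < x / ℓ := by positivity
    refine ⟨fun n => ?_, ?_⟩
    · rw [Finset.abs_prod]
      calc ∏ i ∈ Finset.range m, |EX (k n i) ℓ x| ≤ ∏ _i ∈ Finset.range m, (6 * (1 + x / ℓ)) :=
            Finset.prod_le_prod (fun i _ => abs_nonneg _) fun i _ => by
              rw [hEX]
              exact (hk n i (x / ℓ) hy hx.1).2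
        _ = _ := by rw [Finset.prod_const, Finset.card_range]
    · simp only [hW]
      rw [← mul_assoc, ← pow_add, ← two_mul, pow_mul, neg_one_sq, one_pow, one_mul]
      refine tendsto_finsetProd _ fun i _ => ?_
      refine (trunc_tendsto (hdis i) hy hx.1).congr fun n => ?_
      rw [hEX]
      exact (hk n i (x / ℓ) hy hx.1).1.symm

end Pool.Agent.N804
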