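import Pool.Agent.N804.Glue

set_option autoImplicit false

/-! # Windows at large distances -/

namespace Pool.Agent.N804

open Filter Topology Set MeasureTheory
open H370 (Zf mult)

/-- zeros of a finite set off the line -/
noncomputable def Noff (S : Finset ℂ) : ℝ := by
  classical
  exact ∑ s ∈ S.filter (fun s => s.re ≠ 1 / 2), (mult riemannZeta s : ℝ)

lemma Noff_nonneg (S : Finset ℂ) : 0 ≤ Noff S := by
  classical
  exact Finset.sum_nonneg fun _ _ => Nat.cast_nonneg _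

lemma Noff_le_ms (S : Finset ℂ) : Noff S ≤ ms S := by
  classical
  exact Finset.sum_le_sum_of_subset_of_nonneg (Finset.filter_subset _ _)
    fun _ _ _ => Nat.cast_nonneg _

lemma Noff_split {A B C : ℝ} (hA : 0 ≤ A) (h1 : A ≤ B) (h2 : B ≤ C) :
    Noff (Zf riemannZeta A C) = Noff (Zf riemannZeta A B) + Noff (Zf riemannZeta B C) := by
  classical
  unfold Noff
  rw [Finset.sum_filter, Finset.sum_filter, Finset.sum_filter]
  exact Z_split hA h1 h2 _

lemma NO_Noff (A B : ℝ) : Pool.Agent.Y750.OM.NO A B = Noff (Zf riemannZeta A B) := by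
  unfold Pool.Agent.Y750.OM.NO Noff
  rfl

/-- normalised number of zeros off the line up to `T` -/
noncomputable def OF (T : ℝ) : ℝ := Noff (Zf riemannZeta 0 T) / XX T

theorem off_cmp {ε : ℝ} (hε : 0 < ε) : ∃ T0 : ℝ, 10 ≤ T0 ∧ ∀ T : ℝ, T0 ≤ T →
    |OF T - et T| ≤ ε := by
  obtain ⟨T1, hT1, h1⟩ := mb_ge
  refine add_cmp Noff eb 1 T1 one_pos (fun C hC => Noff_split le_rfl hC (by linarith)) ?_ ?_ hε
  · intro V hV
    obtain ⟨-, h2, -, h4, h5⟩ := h1 V hV
    constructor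
    · unfold eb
      rw [NO_Noff]
      field_simp
    · rw [abs_of_nonneg h2]
      exact h4
  · intro ε hε
    obtain ⟨T0, hT0, h⟩ := base_small ε hε
    refine ⟨T0, hT0, fun T hT => ?_⟩
    rw [abs_of_nonneg (Noff_nonneg _)]
    exact (Noff_le_ms _).trans (h T hT).2.2

lemma et_of_OF (h : Tendsto OF atTop (𝓝 0)) : Tendsto et atTop (𝓝 0) := by
  rw [Metric.tendsto_atTop] at h ⊢
  intro ε hε
  obtain ⟨T0, hT0⟩ := h (ε / 2) (by positivity)
  obtain ⟨T1, hT1, hb⟩ := off_cmp (ε := ε / 3) (by positivity)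
  refine ⟨max T0 T1, fun T hT => ?_⟩
  have h1 := hT0 T ((le_max_left _ _).trans hT)
  have h2 := hb T ((le_max_right _ _).trans hT)
  rw [Real.dist_eq, sub_zero] at h1 ⊢
  have h3 : et T = OF T - (OF T - et T) := by ring
  rw [h3]
  calc |OF T - (OF T - et T)| ≤ |OF T| + |OF T - et T| := abs_sub _ _
    _ < ε := by linarith

/-- the number of bad zeros dominates the number of zeros off the line -/
lemma OF_of_BF (h : Tendsto BF atTop (𝓝 0)) : Tendsto OF atTop (𝓝 0) := by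
  refine squeeze_zero' ?_ ?_ h
  · filter_upwards [eventually_gt_atTop 1] with T hT
    exact div_nonneg (Noff_nonneg _) (XX_pos hT).le
  · filter_upwards [eventually_gt_atTop 1] with T hT
    unfold OF BF
    refine div_le_div_of_nonneg_right ?_ (XX_pos hT).le
    classical
    unfold Noff Nbad
    refine Finset.sum_le_sum_of_subset_of_nonneg ?_ (fun _ _ _ => Nat.cast_nonneg _)
    intro s hs
    rw [Finset.mem_filter] at hs ⊢
    exact ⟨hs.1, Or.inl hs.2⟩

/-- number of pairs in a window -/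
noncomputable def NW (T α β : ℝ) : ℝ := by
  classical
  exact ∑ s ∈ Zf riemannZeta 0 T, ∑ s' ∈ Zf riemannZeta 0 T,
    if α ≤ (s.im - s'.im) * Real.log T / (2 * Real.pi) ∧
      (s.im - s'.im) * Real.log T / (2 * Real.pi) ≤ β then
    (mult riemannZeta s : ℝ) * (mult riemannZeta s' : ℝ) else 0

lemma NW_ge {T α β : ℝ} (hT : 1 < T) : CF T β - CF T α ≤ NW T α β / XX T := by
  classical
  have hL : 0 < Real.log T := Real.log_pos hT
  have hpi := Real.pi_pos
  unfold CF
  rw [← sub_div]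
  refine div_le_div_of_nonneg_right ?_ (XX_pos hT).le
  rw [sub_le_iff_le_add]
  unfold Pc NW
  rw [← Finset.sum_add_distrib]
  refine Finset.sum_le_sum fun s _ => ?_
  rw [← Finset.sum_add_distrib]
  refine Finset.sum_le_sum fun s' _ => ?_
  have hm : 0 ≤ (mult riemannZeta s : ℝ) * (mult riemannZeta s' : ℝ) := by positivity
  by_cases h1 : 0 < s.im - s'.im ∧ s.im - s'.im ≤ 2 * Real.pi * β / Real.log T
  · rw [if_pos h1]
    obtain ⟨h2, h3⟩ := h1
    by_cases h4 : s.im - s'.im ≤ 2 * Real.pi * α / Real.log T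
    · rw [if_pos (⟨h2, h4⟩ : 0 < s.im - s'.im ∧ s.im - s'.im ≤ 2 * Real.pi * α / Real.log T)]
      split_ifs <;> linarith
    · rw [if_pos]
      · split_ifs <;> linarith
      · push Not at h4
        rw [div_lt_iff₀ hL] at h4
        rw [le_div_iff₀ hL] at h3
        constructor
        · rw [le_div_iff₀ (by positivity)]
          linarith
        · rw [div_le_iff₀ (by positivity)]
          linarith
  · rw [if_neg h1]
    split_ifs <;> linarith

lemma NW_le {T α' α β : ℝ} (hT : 1 < T) (hα' : 0 ≤ α') (h : α' < α) (hβ : α ≤ β) :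
    NW T α β / XX T ≤ CF T β - CF T α' := by
  classical
  have hL : 0 < Real.log T := Real.log_pos hT
  have hpi := Real.pi_pos
  unfold CF
  rw [← sub_div]
  refine div_le_div_of_nonneg_right ?_ (XX_pos hT).le
  rw [le_sub_iff_add_le]
  unfold Pc NW
  rw [← Finset.sum_add_distrib]
  refine Finset.sum_le_sum fun s _ => ?_
  rw [← Finset.sum_add_distrib]
  refine Finset.sum_le_sum fun s' _ => ?_
  have hm : 0 ≤ (mult riemannZeta s : ℝ) * (mult riemannZeta s' : ℝ) := by positivity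
  by_cases h1 : α ≤ (s.im - s'.im) * Real.log T / (2 * Real.pi) ∧
      (s.im - s'.im) * Real.log T / (2 * Real.pi) ≤ β
  · obtain ⟨h2, h3⟩ := h1
    rw [le_div_iff₀ (by positivity)] at h2
    rw [div_le_iff₀ (by positivity)] at h3
    have hd : 0 < s.im - s'.im := by
      by_contra hcon
      push Not at hcon
      have : 0 < α * (2 * Real.pi) := mul_pos (by linarith) (by positivity)
      nlinarith
    have h5 : ¬(0 < s.im - s'.im ∧ s.im - s'.im ≤ 2 * Real.pi * α' / Real.log T) := by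
      rintro ⟨_, h6⟩
      rw [le_div_iff₀ hL] at h6
      nlinarith
    rw [if_neg h5, if_pos (⟨hd, by rw [le_div_iff₀ hL]; linarith⟩ : 0 < s.im - s'.im ∧
      s.im - s'.im ≤ 2 * Real.pi * β / Real.log T)]
    split_ifs <;> linarith
  · rw [if_neg h1, zero_add]
    by_cases h4 : 0 < s.im - s'.im ∧ s.im - s'.im ≤ 2 * Real.pi * α' / Real.log T
    · rw [if_pos h4, if_pos]
      refine ⟨h4.1, h4.2.trans ?_⟩
      have : α' ≤ β := by linarith
      gcongr
    · rw [if_neg h4]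
      split_ifs <;> linarith

/-- upper bounds for windows, in the limit -/
lemma win_upper {T : ℕ → ℝ} (hT : Tendsto T atTop atTop) {Φ : ℝ → ℝ} {x y E : ℝ} (hx : 0 < x)
    (hxy : x < y)
    (hcx : Tendsto (fun k => ct (T k) x) atTop (𝓝 (Φ x)))
    (hcy : Tendsto (fun k => ct (T k) y) atTop (𝓝 (Φ y)))
    {ρ : ℝ} (hρ : 0 < ρ)
    (h : ∀ z, y ≤ z → z < y + ρ → ∀ ε : ℝ, 0 < ε → ∃ T0 : ℝ, ∀ T : ℝ, T0 ≤ T →
      NW T x z / XX T ≤ PP z - PP x + E + ε) :
    Φ y - Φ x ≤ PP y - PP x + E := by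
  refine le_of_forall_pos_le_add fun ε hε => ?_
  set δ : ℝ := min (ε / 4) (ρ / 2) with hδ
  have hδ0 : 0 < δ := lt_min (by positivity) (by positivity)
  have hδ1 : δ ≤ ε / 4 := min_le_left _ _
  have hδ2 : δ ≤ ρ / 2 := min_le_right _ _
  have hy : 0 < y := hx.trans hxy
  set z : ℝ := y + δ with hz
  have hz0 : 0 < z := by rw [hz]; linarith
  set η : ℝ := δ / z with hη
  have hη0 : 0 < η := by positivity
  have hη1 : η < 1 := by
    rw [hη, div_lt_one hz0]
    linarith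
  have hxz : (1 - η) * z = y := by
    rw [hη, hz]
    field_simp
    ring
  obtain ⟨T0, hT0⟩ := h z (by linarith) (by linarith) δ hδ0
  obtain ⟨T1, hT1, hge⟩ := CF_ge hz0.le hη0 hη1 (ε := δ) hδ0
  obtain ⟨T2, hT2, hle⟩ := CF_le hx.le (ε := δ) hδ0
  have h4 := PP_lip (show y ≤ z by linarith)
  refine le_of_tendsto (hcy.sub hcx) ?_
  filter_upwards [hT.eventually_ge_atTop (max T0 (max T1 T2))] with k hk
  have g1 : T0 ≤ T k := (le_max_left _ _).trans hk
  have g2 : T1 ≤ T k := (le_max_left _ _).trans ((le_max_right _ _).trans hk)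
  have g3 : T2 ≤ T k := (le_max_right _ _).trans ((le_max_right _ _).trans hk)
  have h2 := hT0 (T k) g1
  have h3 := hge (T k) g2
  have h5 := hle (T k) g3
  have h6 := NW_ge (T := T k) (α := x) (β := z) (by linarith)
  rw [hxz] at h3
  linarith

/-- lower bounds for windows, in the limit -/
lemma win_lower {T : ℕ → ℝ} (hT : Tendsto T atTop atTop) {Φ : ℝ → ℝ} {x y : ℝ} {E : ℝ → ℝ}
    (hx : 0 < x) (hxy : x < y)
    (hcx : Tendsto (fun k => ct (T k) x) atTop (𝓝 (Φ x)))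
    (hcy : Tendsto (fun k => ct (T k) y) atTop (𝓝 (Φ y)))
    (hE : ∀ z, x ≤ z → E x ≤ E z)
    (h : ∀ z, x ≤ z → z < y → ∀ ε : ℝ, 0 < ε → ∃ T0 : ℝ, ∀ T : ℝ, T0 ≤ T →
      PP y - PP z + E z - ε ≤ NW T z y / XX T) :
    PP y - PP x + E x ≤ Φ y - Φ x := by
  refine le_of_forall_pos_le_add fun ε hε => ?_
  set δ : ℝ := min (ε / 4) ((y - x) / 2) with hδ
  have hδ0 : 0 < δ := lt_min (by positivity) (by linarith)
  have hδ1 : δ ≤ ε / 4 := min_le_left _ _
  have hδ2 : δ ≤ (y - x) / 2 := min_le_right _ _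
  set z : ℝ := x + δ with hz
  have hz0 : 0 < z := by rw [hz]; linarith
  -- a point between `x` and `z`
  set u : ℝ := x + δ / 2 with hu
  have hu0 : 0 < u := by rw [hu]; linarith
  set η : ℝ := δ / 2 / u with hη
  have hη0 : 0 < η := by positivity
  have hη1 : η < 1 := by
    rw [hη, div_lt_one hu0]
    linarith
  have hxu : (1 - η) * u = x := by
    rw [hη, hu]
    field_simp
    ring
  have hy0 : 0 < y := hx.trans hxy
  obtain ⟨T0, hT0⟩ := h z (by linarith) (by linarith) δ hδ0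
  obtain ⟨T1, hT1, hge⟩ := CF_ge hu0.le hη0 hη1 (ε := δ) hδ0
  obtain ⟨T2, hT2, hle⟩ := CF_le hy0.le (ε := δ) hδ0
  have h4 := PP_lip (show x ≤ z by linarith)
  have h7 := hE z (by linarith)
  have h8 : PP y - PP x + E x - ε ≤ Φ y - Φ x := by
    refine ge_of_tendsto (hcy.sub hcx) ?_
    filter_upwards [hT.eventually_ge_atTop (max T0 (max T1 T2))] with k hk
    have g1 : T0 ≤ T k := (le_max_left _ _).trans hk
    have g2 : T1 ≤ T k := (le_max_left _ _).trans ((le_max_right _ _).trans hk)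
    have g3 : T2 ≤ T k := (le_max_right _ _).trans ((le_max_right _ _).trans hk)
    have h2 := hT0 (T k) g1
    have h3 := hge (T k) g2
    have h5 := hle (T k) g3
    have h6 := NW_le (T := T k) (α' := u) (α := z) (β := y) (by linarith) hu0.le
      (by rw [hu, hz]; linarith) (by linarith)
    rw [hxu] at h3
    linarith
  linarith

/-- convergence for windows -/
lemma NW_tendsto (h : ∀ a, 0 < a → Tendsto (fun T => CF T a) atTop (𝓝 (PP a))) {α β : ℝ}
    (hα : 0 < α) (hβ : α < β) :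
    Tendsto (fun T => NW T α β / XX T) atTop (𝓝 (PP β - PP α)) := by
  rw [Metric.tendsto_atTop]
  intro ε hε
  set δ : ℝ := min (ε / 4) (α / 2) with hδ
  have hδ0 : 0 < δ := lt_min (by positivity) (by linarith)
  have hδ1 : δ ≤ ε / 4 := min_le_left _ _
  have hδ2 : δ ≤ α / 2 := min_le_right _ _
  obtain ⟨T0, hT0⟩ := Metric.tendsto_atTop.1 (h β (by linarith)) (ε / 4) (by positivity)
  obtain ⟨T1, hT1⟩ := Metric.tendsto_atTop.1 (h α hα) (ε / 4) (by positivity)
  obtain ⟨T2, hT2⟩ := Metric.tendsto_atTop.1 (h (α - δ) (by linarith)) (ε / 4) (by positivity)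
  refine ⟨max (max T0 T1) (max T2 2), fun T hT => ?_⟩
  have g0 := hT0 T ((le_max_left _ _).trans ((le_max_left _ _).trans hT))
  have g1 := hT1 T ((le_max_right _ _).trans ((le_max_left _ _).trans hT))
  have g2 := hT2 T ((le_max_left _ _).trans ((le_max_right _ _).trans hT))
  have g3 : 2 ≤ T := (le_max_right _ _).trans ((le_max_right _ _).trans hT)
  rw [Real.dist_eq] at g0 g1 g2 ⊢
  have k0 := abs_lt.1 g0
  have k1 := abs_lt.1 g1
  have k2 := abs_lt.1 g2
  have h1 := NW_ge (T := T) (α := α) (β := β) (by linarith)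
  have h2 := NW_le (T := T) (α' := α - δ) (α := α) (β := β) (by linarith) (by linarith)
    (by linarith) hβ.le
  have h3 := PP_lip (show α - δ ≤ α by linarith)
  rw [abs_lt]
  constructor <;> linarith [k0.1, k0.2, k1.1, k1.2, k2.1, k2.2]

/-- the conjecture for windows gives everything -/
theorem win_exact (h : ∀ α β : ℝ, 0 < α → α < β → ∀ ε : ℝ, 0 < ε → ∃ T0 : ℝ, ∀ T : ℝ, T0 ≤ T →
      |NW T α β / XX T - (PP β - PP α)| ≤ ε) :
    (∀ a, 0 < a → Tendsto (fun T => CF T a) atTop (𝓝 (PP a))) ∧ Tendsto BF atTop (𝓝 0) := by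
  refine of_limits fun T hT Φ μ ν e H h1 _ _ _ => ?_
  refine limD H {x | Tendsto (fun k => ct (T k) x) atTop (𝓝 (Φ x))} h1 ?_
  intro x hx y hy hx0 hxy
  refine le_antisymm ?_ ?_
  · have := win_upper hT (E := 0) hx0 hxy hx hy one_pos (fun z hz _ ε hε => by
      obtain ⟨T0, hT0⟩ := h x z hx0 (lt_of_lt_of_le hxy hz) ε hε
      exact ⟨T0, fun T hT => by linarith [(abs_le.1 (hT0 T hT)).2]⟩)
    linarith
  · have := win_lower hT (E := fun _ => 0) hx0 hxy hx hy (fun _ _ => le_rfl)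
      (fun z hz hzy ε hε => by
      obtain ⟨T0, hT0⟩ := h z y (lt_of_lt_of_le hx0 hz) hzy ε hε
      exact ⟨T0, fun T hT => by linarith [(abs_le.1 (hT0 T hT)).1]⟩)
    linarith

theorem win_upper_half {K c R ℓ : ℝ} (hc : 0 < c) (hℓ : 0 < ℓ) (hO : Tendsto OF atTop (𝓝 0))
    (h : ∀ α β : ℝ, R ≤ α → 0 < α → α < β → β < α + ℓ → ∀ ε : ℝ, 0 < ε →
      ∃ T0 : ℝ, ∀ T : ℝ, T0 ≤ T →
      NW T α β / XX T ≤ PP β - PP α + K * Real.exp (-(c * α)) + ε) :
    (∀ a, 0 < a → Tendsto (fun T => CF T a) atTop (𝓝 (PP a))) ∧ Tendsto BF atTop (𝓝 0) := by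
  refine of_limits fun T hT Φ μ ν e H h1 _ _ h4 => ?_
  have he : e = 0 := tendsto_nhds_unique h4 ((et_of_OF hO).comp hT)
  refine limB H he (K := K) (R := max R 1) hc (by positivity) hℓ
    {x | Tendsto (fun k => ct (T k) x) atTop (𝓝 (Φ x))} h1 ?_
  intro x hx y hy hRx hxy hyl
  have hx0 : 0 < x := lt_of_lt_of_le one_pos ((le_max_right _ _).trans hRx)
  have := win_upper hT (E := K * Real.exp (-(c * x))) hx0 hxy hx hy
    (ρ := x + ℓ - y) (by linarith) (fun z hz hz2 ε hε =>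
    h x z ((le_max_left _ _).trans hRx) hx0 (lt_of_lt_of_le hxy hz) (by linarith) ε hε)
  linarith

theorem win_lower_half {K c R ℓ : ℝ} (hc : 0 < c) (hℓ : 0 < ℓ) (hO : Tendsto OF atTop (𝓝 0))
    (h : ∀ α β : ℝ, R ≤ α → 0 < α → α < β → β < α + ℓ → ∀ ε : ℝ, 0 < ε →
      ∃ T0 : ℝ, ∀ T : ℝ, T0 ≤ T →
      PP β - PP α - K * Real.exp (-(c * α)) - ε ≤ NW T α β / XX T) :
    (∀ a, 0 < a → Tendsto (fun T => CF T a) atTop (𝓝 (PP a))) ∧ Tendsto BF atTop (𝓝 0) := by
  refine of_limits fun T hT Φ μ ν e H h1 _ _ h4 => ?_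
  have he : e = 0 := tendsto_nhds_unique h4 ((et_of_OF hO).comp hT)
  refine limC H he (K := |K|) (R := max R 1) hc (by positivity) hℓ
    {x | Tendsto (fun k => ct (T k) x) atTop (𝓝 (Φ x))} h1 ?_
  intro x hx y hy hRx hxy hyl
  have hx0 : 0 < x := lt_of_lt_of_le one_pos ((le_max_right _ _).trans hRx)
  have := win_lower hT (E := fun z => -(|K| * Real.exp (-(c * z)))) hx0 hxy hx hy
    (fun z hz => by
      have : Real.exp (-(c * z)) ≤ Real.exp (-(c * x)) := Real.exp_le_exp.2 (by nlinarith)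
      have := mul_le_mul_of_nonneg_left this (abs_nonneg K)
      linarith) (fun z hz hzy ε hε => by
      obtain ⟨T0, hT0⟩ := h z y (((le_max_left _ _).trans hRx).trans hz)
        (lt_of_lt_of_le hx0 hz) hzy (by linarith) ε hε
      refine ⟨T0, fun T hT => le_trans ?_ (hT0 T hT)⟩
      have := mul_le_mul_of_nonneg_right (le_abs_self K) (Real.exp_pos (-(c * z))).le
      linarith)
  linarith

/-- the count in the statement -/
theorem win_eq {α : ℝ} (hα : 0 < α) (β : ℝ) : ∃ T0 : ℝ, 10 ≤ T0 ∧ ∀ T : ℝ, T0 ≤ T →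
    ((∑ᶠ p ∈ {p : ℂ × ℂ | p.1 ∈ ZZ ∧ p.2 ∈ ZZ ∧ 0 ≤ p.1.im ∧ p.1.im ≤ T ∧
      0 ≤ p.2.im ∧ p.2.im ≤ T ∧ α ≤ (p.1.im - p.2.im) * Real.log T / (2 * Real.pi) ∧
      (p.1.im - p.2.im) * Real.log T / (2 * Real.pi) ≤ β},
      analyticOrderNatAt riemannZeta p.1 * analyticOrderNatAt riemannZeta p.2 : ℕ) : ℝ) =
    NW T α β := by
  classical
  obtain ⟨h0, hh0, hlow⟩ := low_zero
  obtain ⟨T3, hT3⟩ := eventually_atTop.1
    (Real.tendsto_log_atTop.eventually_ge_atTop (2 * Real.pi * β / h0))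
  refine ⟨max 10 T3, le_max_left _ _, fun T hT => ?_⟩
  have hT10 : 10 ≤ T := (le_max_left _ _).trans hT
  have hL : 0 < Real.log T := Real.log_pos (by linarith)
  have hpi := Real.pi_pos
  have hh : 2 * Real.pi * β ≤ h0 * Real.log T := by
    have := hT3 T ((le_max_right _ _).trans hT)
    rw [div_le_iff₀ hh0] at this
    linarith
  set S := Zf riemannZeta 0 T with hS
  have hset : {p : ℂ × ℂ | p.1 ∈ ZZ ∧ p.2 ∈ ZZ ∧ 0 ≤ p.1.im ∧ p.1.im ≤ T ∧
      0 ≤ p.2.im ∧ p.2.im ≤ T ∧ α ≤ (p.1.im - p.2.im) * Real.log T / (2 * Real.pi) ∧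
      (p.1.im - p.2.im) * Real.log T / (2 * Real.pi) ≤ β} =
      ↑((S ×ˢ S).filter (fun p : ℂ × ℂ => α ≤ (p.1.im - p.2.im) * Real.log T / (2 * Real.pi) ∧
      (p.1.im - p.2.im) * Real.log T / (2 * Real.pi) ≤ β)) := by
    ext p
    simp only [Set.mem_ofPred_eq, Finset.coe_filter, Finset.mem_product]
    rw [hS, mem_ZT, mem_ZT]
    constructor
    · rintro ⟨a1, a2, a3, a4, a5, a6, a7, a8⟩
      have b7 := a7
      have b8 := a8
      rw [le_div_iff₀ (by positivity)] at b7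
      rw [div_le_iff₀ (by positivity)] at b8
      have c1 : 0 < α * (2 * Real.pi) := by positivity
      have c2 : 0 < p.1.im - p.2.im := by
        by_contra hcon
        push Not at hcon
        nlinarith
      have c3 : 0 < p.1.im := by linarith
      have c4 := hlow p.1 a1 c3
      refine ⟨⟨⟨a1, c3, a4⟩, a2, ?_, a6⟩, a7, a8⟩
      rcases a5.lt_or_eq with h | h
      · exact h
      · rw [← h] at b8
        nlinarith
    · rintro ⟨⟨⟨a1, a3, a4⟩, a2, a5, a6⟩, a7, a8⟩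
      exact ⟨a1, a2, a3.le, a4, a5.le, a6, a7, a8⟩
  rw [hset, finsum_mem_coe_finset, Finset.sum_filter, Finset.sum_product]
  unfold NW
  push_cast
  refine Finset.sum_congr rfl fun s _ => Finset.sum_congr rfl fun s' _ => ?_
  split_ifs <;> simp [mult]

theorem noff_eq {T : ℝ} (hT : 1 < T) :
    ((∑ᶠ s ∈ {s : ℂ | s ∈ ZZ ∧ 0 < s.im ∧ s.im ≤ T ∧ s.re ≠ 1 / 2},
      analyticOrderNatAt riemannZeta s : ℕ) : ℝ) = OF T * XX T := by
  classical
  have hX := XX_pos hT
  set S := Zf riemannZeta 0 T with hS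
  have hset : {s : ℂ | s ∈ ZZ ∧ 0 < s.im ∧ s.im ≤ T ∧ s.re ≠ 1 / 2} =
      ↑(S.filter (fun s => s.re ≠ 1 / 2)) := by
    ext s
    simp only [Set.mem_ofPred_eq, Finset.coe_filter]
    rw [hS, mem_ZT]
    constructor
    · rintro ⟨a1, a2, a3, a4⟩
      exact ⟨⟨a1, a2, a3⟩, a4⟩
    · rintro ⟨⟨a1, a2, a3⟩, a4⟩
      exact ⟨a1, a2, a3, a4⟩
  rw [hset, finsum_mem_coe_finset]
  unfold OF
  rw [div_mul_cancel₀ _ hX.ne']
  unfold Noff
  push_cast
  rfl

/-- the value in the conjecture for windows -/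
theorem val_win (α β : ℝ) : ∫ u in α..β, (1 - (Real.sin (Real.pi * u) / (Real.pi * u)) ^ 2) =
    PP β - PP α := by
  rw [PP_sub]
  refine intervalIntegral.integral_congr_ae ?_
  have h0 : ∀ᵐ u : ℝ, u ≠ 0 := by
    rw [ae_iff]
    simp
  filter_upwards [h0] with u hu _
  unfold pp
  rw [Real.sinc_of_ne_zero (by have := Real.pi_pos; positivity)]

/-- the value is positive -/
lemma PP_strict {α β : ℝ} (hα : 0 ≤ α) (h : α < β) : 0 < PP β - PP α := by
  rw [PP_sub]
  refine intervalIntegral.intervalIntegral_pos_of_pos_on (pp_ii α β) (fun u hu => ?_) h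
  have hpi := Real.pi_gt_three
  have hu0 : 0 < u := lt_of_le_of_lt hα hu.1
  have hx : 0 < Real.pi * u := by positivity
  have h1 : Real.sin (Real.pi * u) < Real.pi * u := Real.sin_lt hx
  have h2 : -(Real.pi * u) < Real.sin (Real.pi * u) := by
    rcases lt_or_ge (Real.pi * u) Real.pi with h3 | h3
    · have := Real.sin_pos_of_pos_of_lt_pi hx h3
      linarith
    · have := Real.neg_one_le_sin (Real.pi * u)
      linarith
  unfold pp
  rw [Real.sinc_of_ne_zero hx.ne', div_pow, sub_pos, div_lt_one (by positivity)]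
  exact sq_lt_sq' h2 h1

end Pool.Agent.N804
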