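import Pool.Agent.N804.Patt
import Pool.Agent.N804.Thm2

set_option autoImplicit false

/-! # One-sided conditions with a prescribed sign pattern -/

namespace Pool.Agent.N804

open Filter Topology Set MeasureTheory
open H370 (Zf mult)

lemma dz_of_ae' {G : ℝ → ℝ} {κ : ℝ} (hκ : 0 < κ) (h : ∀ᵐ x, 0 < x → gw κ hκ x * G x = 0) :
    DZ G := by
  intro a b ha hab
  obtain ⟨y, hy, hne⟩ := gw_ne hκ hab
  have hc := gw_cont hκ
  have h1 : ∀ᶠ z in 𝓝 y, gw κ hκ z ≠ 0 := hc.continuousAt.eventually_ne hne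
  have h2 : ∀ᶠ z in 𝓝 y, z ∈ Ioo a b := isOpen_Ioo.mem_nhds hy
  obtain ⟨δ, hδ, h3⟩ := Metric.eventually_nhds_iff.1 (h1.and h2)
  obtain ⟨z, hz, hz2⟩ := ae_Ioo h (show y - δ / 2 < y + δ / 2 by linarith)
  have h4 := h3 (y := z) (by
    rw [Real.dist_eq, abs_lt]
    constructor <;> linarith [hz.1, hz.2])
  have hz0 : 0 < z := lt_of_le_of_lt ha h4.2.1
  exact ⟨z, h4.2, (mul_eq_zero.1 (hz2 hz0)).resolve_left h4.1⟩

lemma poly_gw {κ : ℝ} (hκ : 0 < κ) (M n : ℕ) : ∃ A : ℝ, 0 ≤ A ∧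
    ∀ x, 0 ≤ x → x ^ n * (1 + x) ^ M * gw κ hκ x ≤ A := by
  induction M generalizing n with
  | zero =>
    obtain ⟨A, hA⟩ := gw_dec hκ n
    refine ⟨|A|, abs_nonneg _, fun x hx => ?_⟩
    rw [pow_zero, mul_one]
    exact (hA x hx).trans (le_abs_self A)
  | succ M ih =>
    obtain ⟨A1, hA1, h1⟩ := ih n
    obtain ⟨A2, hA2, h2⟩ := ih (n + 1)
    refine ⟨A1 + A2, by positivity, fun x hx => ?_⟩
    calc x ^ n * (1 + x) ^ (M + 1) * gw κ hκ x = x ^ n * (1 + x) ^ M * gw κ hκ x +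
          x ^ (n + 1) * (1 + x) ^ M * gw κ hκ x := by ring
      _ ≤ _ := add_le_add (h1 x hx) (h2 x hx)

/-- **one-sided bounds with a prescribed sign pattern**, for functions orthogonal to the weights
`x ^ (2 n + p)` with all modulations below `2/3` -/
theorem patt_uniq {G : ℝ → ℝ} (hGm : Measurable G) {B : ℝ} (hB : 0 < B)
    (hGB : ∀ x, 0 ≤ x → |G x| ≤ B * (1 + x)) (p : ℕ)
    (hAnn : ∀ (κ β : ℝ) (hκ : 0 < κ), κ + β < 2 / 3 → ∀ n : ℕ,
      Ann G β (fun x => x ^ (2 * n + p) * gw κ hκ x)) {Λ : Set ℝ} {d C : ℝ}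
    (hd : d < 4 / 3) (hΛ : Dens Λ d C) {K c R : ℝ} (hc : 0 < c)
    (h : ∀ᵐ x, R ≤ x → -(K * Real.exp (-(c * x))) ≤ (-1) ^ cn Λ x * G x) :
    DZ G := by
  obtain ⟨κ, β, ℓ, m, W, hκ, hκβ, hℓ, hβ, hWm, hW1, hW2, s, hs, k, hkc, hk⟩ := multiplier hd hΛ
  set c1 : ℝ := max 1 (1 / ℓ) with hc1
  have hc1a : 1 ≤ c1 := le_max_left _ _
  have hc1b : 1 / ℓ ≤ c1 := le_max_right _ _
  have hlin : ∀ x : ℝ, 0 ≤ x → (6 * (1 + x / ℓ)) ^ m ≤ (6 * c1) ^ m * (1 + x) ^ m := by
    intro x hx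
    rw [← mul_pow]
    refine pow_le_pow_left₀ (by positivity) ?_ m
    have : x / ℓ ≤ c1 * x := by
      rw [div_eq_mul_one_div, mul_comm]
      exact mul_le_mul_of_nonneg_right hc1b hx
    nlinarith
  -- the function to which uniqueness is applied
  set u : ℝ → ℝ := fun x => x ^ p * gw κ hκ x * (W x * G x) with hu
  have hum : Measurable u := by
    have := (gw_cont hκ).measurable
    exact ((measurable_id.pow_const p).mul this).mul (hWm.mul hGm)
  -- bounds
  have hub : ∀ n : ℕ, ∃ A : ℝ, 0 ≤ A ∧ ∀ x : ℝ, 0 ≤ x →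
      x ^ n * (x ^ p * gw κ hκ x * ((6 * (1 + x / ℓ)) ^ m * (B * (1 + x)))) ≤ A := by
    intro n
    obtain ⟨A, hA0, hA⟩ := poly_gw hκ (m + 1) (n + p)
    refine ⟨(6 * c1) ^ m * B * A, by positivity, fun x hx => ?_⟩
    have h1 := hA x hx
    have h2 := hlin x hx
    have h3 := gw_nonneg hκ x
    calc x ^ n * (x ^ p * gw κ hκ x * ((6 * (1 + x / ℓ)) ^ m * (B * (1 + x)))) ≤
        x ^ n * (x ^ p * gw κ hκ x * (((6 * c1) ^ m * (1 + x) ^ m) * (B * (1 + x)))) := by gcongr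
      _ = (6 * c1) ^ m * B * (x ^ (n + p) * (1 + x) ^ (m + 1) * gw κ hκ x) := by ring
      _ ≤ _ := by gcongr
  have hGE : ∀ x : ℝ, 0 ≤ x → |u x| ≤ x ^ p * gw κ hκ x * (|W x| * (B * (1 + x))) := by
    intro x hx
    simp only [hu]
    rw [abs_mul, abs_mul, abs_mul, abs_of_nonneg (pow_nonneg hx p), abs_of_nonneg (gw_nonneg hκ x)]
    have := hGB x hx
    have := gw_nonneg hκ x
    gcongr
  have hdec : ∀ n : ℕ, ∃ A : ℝ, ∀ᵐ x : ℝ, 0 < x → x ^ n * |u x| ≤ A := by
    intro n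
    obtain ⟨A, hA0, hA⟩ := hub n
    refine ⟨A, ?_⟩
    filter_upwards [hW1] with x hx hx0
    refine le_trans ?_ (hA x hx0.le)
    have h1 := hGE x hx0.le
    have h2 := (hx hx0).2
    have h3 := gw_nonneg hκ x
    calc x ^ n * |u x| ≤ x ^ n * (x ^ p * gw κ hκ x * (|W x| * (B * (1 + x)))) := by gcongr
      _ ≤ _ := by gcongr
  -- moments
  have hs2 : s * s = 1 := by rcases hs with hs | hs <;> rw [hs] <;> norm_num
  have hmom : ∀ n : ℕ, ∫ x in Ioi (0 : ℝ), x ^ (2 * n) * u x = 0 := by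
    intro n
    have hz : ∀ j : ℕ, ∫ x in Ioi (0 : ℝ), x ^ (2 * n + p) * gw κ hκ x *
        (∏ i ∈ Finset.range m, EX (k j i) ℓ x) * G x = 0 := by
      intro j
      have := ((hAnn κ β hκ hκβ n).prod hGm hGB hℓ (k := k j) (hkc j) m).ann 0
        (by rw [abs_zero]; exact hβ)
      simpa using this
    obtain ⟨A0, hA0, hA0'⟩ := hub (2 * n)
    obtain ⟨A2, hA2, hA2'⟩ := hub (2 * n + 2)
    have hlim : Tendsto (fun j : ℕ => ∫ x in Ioi (0 : ℝ), x ^ (2 * n + p) * gw κ hκ x *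
        (∏ i ∈ Finset.range m, EX (k j i) ℓ x) * G x) atTop
        (𝓝 (∫ x in Ioi (0 : ℝ), s * (x ^ (2 * n) * u x))) := by
      refine tendsto_integral_of_dominated_convergence (fun x => (A0 + A2) * (1 + x ^ 2)⁻¹)
        (fun j => ?_) (integrable_inv_one_add_sq.const_mul _).integrableOn (fun j => ?_) ?_
      · have h1 := (gw_cont hκ).measurable
        have h2 : Measurable fun x => ∏ i ∈ Finset.range m, EX (k j i) ℓ x :=
          Finset.measurable_prod _ fun i _ => (EX_cont (hkc j i) ℓ).measurable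
        exact ((((measurable_id.pow_const _).mul h1).mul h2).mul hGm).aestronglyMeasurable
      · rw [ae_restrict_iff' measurableSet_Ioi]
        filter_upwards [hk] with x hx hx0
        have hx0' : 0 ≤ x := le_of_lt hx0
        obtain ⟨h1, -⟩ := hx hx0
        have h2 := h1 j
        have h3 := gw_nonneg hκ x
        have h4 := hGB x hx0'
        have e0 := hA0' x hx0'
        have e2 := hA2' x hx0'
        rw [Real.norm_eq_abs, abs_mul, abs_mul, abs_mul, abs_of_nonneg (pow_nonneg hx0' _),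
          abs_of_nonneg h3, ← div_eq_mul_inv, le_div_iff₀ (by positivity)]
        calc x ^ (2 * n + p) * gw κ hκ x * |∏ i ∈ Finset.range m, EX (k j i) ℓ x| * |G x| *
            (1 + x ^ 2) ≤ x ^ (2 * n + p) * gw κ hκ x * (6 * (1 + x / ℓ)) ^ m *
              (B * (1 + x)) * (1 + x ^ 2) := by gcongr
          _ = x ^ (2 * n) * (x ^ p * gw κ hκ x * ((6 * (1 + x / ℓ)) ^ m * (B * (1 + x)))) +
              x ^ (2 * n + 2) * (x ^ p * gw κ hκ x * ((6 * (1 + x / ℓ)) ^ m * (B * (1 + x)))) := by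
            ring
          _ ≤ _ := add_le_add e0 e2
      · rw [ae_restrict_iff' measurableSet_Ioi]
        filter_upwards [hk] with x hx hx0
        obtain ⟨-, ht⟩ := hx hx0
        have h1 := (ht.const_mul (x ^ (2 * n + p) * gw κ hκ x)).mul_const (G x)
        have e : x ^ (2 * n + p) * gw κ hκ x * (s * W x) * G x =
            s * (x ^ (2 * n) * u x) := by
          simp only [hu]
          ring
        rw [e] at h1
        exact h1
    simp_rw [hz] at hlim
    have h1 := tendsto_nhds_unique hlim tendsto_const_nhds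
    rw [integral_const_mul] at h1
    rcases mul_eq_zero.1 h1 with h2 | h2
    · rw [h2, mul_zero] at hs2
      norm_num at hs2
    · exact h2
  -- the lower bound
  obtain ⟨A, hA0, hA⟩ := hub 0
  obtain ⟨A', hA'0, hA'⟩ := poly_gw hκ m p
  set R' : ℝ := max (max R ℓ) 0 with hR'
  set K' : ℝ := |K| * ((6 * c1) ^ m * A') + A * Real.exp (c * R') with hK'
  have hneg : ∀ᵐ x : ℝ, 0 < x → -(K' * Real.exp (-(c * x))) ≤ u x := by
    filter_upwards [hW1, hW2, h] with x h1 h2 h3 hx0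
    have hx0' : 0 ≤ x := hx0.le
    obtain ⟨g1, g2⟩ := h1 hx0
    have g3 := gw_nonneg hκ x
    have hE := (Real.exp_pos (-(c * x))).le
    rcases lt_or_ge R' x with hx | hx
    · have r1 : R ≤ x := ((le_max_left _ _).trans (le_max_left _ _)).trans hx.le
      have r2 : ℓ < x := lt_of_le_of_lt ((le_max_right _ _).trans (le_max_left _ _)) hx
      have h4 := h2 r2
      have h5 := h3 r1
      have e1 : W x * G x = ((-1) ^ cn Λ x * W x) * ((-1) ^ cn Λ x * G x) := by
        have : ((-1 : ℝ) ^ cn Λ x) * (-1) ^ cn Λ x = 1 := by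
          rw [← mul_pow]
          norm_num
        linear_combination (-(W x * G x)) * this
      have e2 : (-1) ^ cn Λ x * W x = |W x| := by
        rw [← abs_of_nonneg h4, abs_mul, abs_pow, abs_neg, abs_one, one_pow, one_mul]
      have h6 : -(K * Real.exp (-(c * x))) * |W x| ≤ W x * G x := by
        rw [e1, e2, mul_comm]
        exact mul_le_mul_of_nonneg_left h5 (abs_nonneg _)
      have h7 : |W x| ≤ (6 * c1) ^ m * (1 + x) ^ m := g2.trans (hlin x hx0')
      have h8 : -(|K| * Real.exp (-(c * x))) * ((6 * c1) ^ m * (1 + x) ^ m) ≤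
          W x * G x := by
        refine le_trans ?_ h6
        have a1 : K * Real.exp (-(c * x)) * |W x| ≤
            |K| * Real.exp (-(c * x)) * ((6 * c1) ^ m * (1 + x) ^ m) := by
          have := le_abs_self K
          gcongr
        linarith
      have h9 := hA' x hx0'
      calc -(K' * Real.exp (-(c * x))) ≤ -(|K| * ((6 * c1) ^ m * A') * Real.exp (-(c * x))) := by
            have a2 : |K| * ((6 * c1) ^ m * A') * Real.exp (-(c * x)) ≤
                K' * Real.exp (-(c * x)) := by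
              rw [hK']
              have : 0 ≤ A * Real.exp (c * R') := by positivity
              gcongr
              linarith
            linarith
        _ ≤ -(|K| * ((6 * c1) ^ m * (x ^ p * (1 + x) ^ m * gw κ hκ x)) * Real.exp (-(c * x))) := by
            have a3 : |K| * ((6 * c1) ^ m * (x ^ p * (1 + x) ^ m * gw κ hκ x)) *
                Real.exp (-(c * x)) ≤ |K| * ((6 * c1) ^ m * A') * Real.exp (-(c * x)) := by
              gcongr
            linarith
        _ = x ^ p * gw κ hκ x * (-(|K| * Real.exp (-(c * x))) * ((6 * c1) ^ m * (1 + x) ^ m)) := by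
            ring
        _ ≤ u x := by
            simp only [hu]
            exact mul_le_mul_of_nonneg_left h8 (by positivity)
    · have h4 := hGE x hx0'
      have h5 := hA x hx0'
      rw [pow_zero, one_mul] at h5
      have h6 : |u x| ≤ A := by
        refine h4.trans (le_trans ?_ h5)
        gcongr
      have h7 : A ≤ K' * Real.exp (-(c * x)) := by
        have a1 : 1 ≤ Real.exp (c * R') * Real.exp (-(c * x)) := by
          rw [← Real.exp_add]
          exact Real.one_le_exp (by nlinarith)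
        have a2 : 0 ≤ |K| * ((6 * c1) ^ m * A') * Real.exp (-(c * x)) := by positivity
        calc A = A * 1 := (mul_one _).symm
          _ ≤ A * (Real.exp (c * R') * Real.exp (-(c * x))) := by gcongr
          _ ≤ K' * Real.exp (-(c * x)) := by rw [hK']; linarith
      have h8 := neg_abs_le (u x)
      linarith
  have hfin := uniqH hum hc hdec hmom hneg
  refine dz_of_ae' hκ ?_
  filter_upwards [hfin, hW1] with x h1 h2 hx0
  have h3 := h1 hx0
  obtain ⟨h4, -⟩ := h2 hx0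
  simp only [hu] at h3
  have h5 : x ^ p * W x * (gw κ hκ x * G x) = 0 := by
    rw [← h3]
    ring
  exact (mul_eq_zero.1 h5).resolve_left (mul_ne_zero (pow_ne_zero p hx0.ne') h4)


/-- **one-sided bounds with a prescribed sign pattern determine the limit object** -/
theorem limP {Φ : ℝ → ℝ} {μ ν e : ℝ} (H : LO Φ μ ν e) (he : e = 0) {Λ : Set ℝ} {d C : ℝ}
    (hd : d < 4 / 3) (hΛ : Dens Λ d C) {K c R : ℝ} (hc : 0 < c)
    (h : ∀ᵐ x, R ≤ x → -(K * Real.exp (-(c * x))) ≤ (-1) ^ cn Λ x * Gd Φ μ x) :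
    DZ (Gd Φ μ) := by
  obtain ⟨B, hB, hGB⟩ := Gd_bd H
  exact patt_uniq (Gd_meas H) hB hGB 1 (fun κ β hκ hκβ n => Gd_ann H he hκ hκβ n) hd hΛ hc h

/-- bounds for the limit from upper bounds for the counts, local version -/
lemma upp_limit' {T : ℕ → ℝ} (hT : Tendsto T atTop atTop) {Φ : ℝ → ℝ} {x : ℝ} (hx : 0 < x)
    (hc : Tendsto (fun k => ct (T k) x) atTop (𝓝 (Φ x))) {F : ℝ → ℝ}
    (hF : ∀ ε : ℝ, 0 < ε → ∃ δ : ℝ, 0 < δ ∧ ∀ y, x ≤ y → y ≤ x + δ → F y ≤ F x + ε)
    {ρ : ℝ} (hρ : 0 < ρ)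
    (h : ∀ y, x ≤ y → y ≤ x + ρ → ∀ ε : ℝ, 0 < ε → ∃ T0 : ℝ, ∀ T : ℝ, T0 ≤ T →
      CF T y ≤ F y + ε) :
    Φ x ≤ F x := by
  refine le_of_forall_pos_le_add fun ε hε => ?_
  obtain ⟨δ', hδ', hFδ⟩ := hF (ε / 3) (by positivity)
  set δ : ℝ := min δ' ρ with hδd
  have hδ : 0 < δ := lt_min hδ' hρ
  have hd1 : δ ≤ δ' := min_le_left _ _
  have hd2 : δ ≤ ρ := min_le_right _ _
  set y : ℝ := x + δ with hy
  have hy0 : 0 < y := by rw [hy]; linarith
  set η : ℝ := δ / y with hη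
  have hη0 : 0 < η := by positivity
  have hη1 : η < 1 := by
    rw [hη, div_lt_one hy0]
    linarith
  have hxy : (1 - η) * y = x := by
    rw [hη, hy]
    field_simp
    ring
  obtain ⟨T0, hT0⟩ := h y (by linarith) (by linarith) (ε / 3) (by positivity)
  obtain ⟨T1, hT1, hge⟩ := CF_ge hy0.le hη0 hη1 (ε := ε / 3) (by positivity)
  have h4 := hFδ y (by linarith) (by linarith)
  refine le_of_tendsto hc ?_
  filter_upwards [hT.eventually_ge_atTop (max T0 T1)] with k hk
  have h2 := hT0 (T k) ((le_max_left _ _).trans hk)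
  have h3 := hge (T k) ((le_max_right _ _).trans hk)
  rw [hxy] at h3
  linarith

/-- the sign is constant to the right of almost all points -/
lemma cn_right {Λ : Set ℝ} {d C : ℝ} (h : Dens Λ d C) {x : ℝ} (hx : 0 < x) :
    ∃ ρ : ℝ, 0 < ρ ∧ ∀ y, x ≤ y → y ≤ x + ρ → cn Λ y = cn Λ x := by
  have hfin : (Λ ∩ Ioc x (x + 1)).Finite :=
    h.fin (a := x + 1) fun y hy => ⟨(hx.trans hy.1).le, hy.2⟩
  obtain ⟨ρ, hρ, hρ1⟩ : ∃ ρ : ℝ, 0 < ρ ∧ ∀ y ∈ Λ ∩ Ioc x (x + 1), x + ρ < y := by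
    rcases (Λ ∩ Ioc x (x + 1)).eq_empty_or_nonempty with he | hne
    · exact ⟨1, one_pos, fun y hy => by rw [he] at hy; exact absurd hy (notMem_empty y)⟩
    · obtain ⟨z, hz, hmin⟩ := exists_min_image _ id hfin hne
      refine ⟨(z - x) / 2, by linarith [hz.2.1], fun y hy => ?_⟩
      have h1 := hmin y hy
      simp only [id] at h1
      linarith [hz.2.1]
  refine ⟨min ρ 1, lt_min hρ one_pos, fun y hy1 hy2 => ?_⟩
  unfold cn
  congr 1
  ext z
  simp only [mem_inter_iff, mem_Ioc]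
  have a1 : min ρ 1 ≤ ρ := min_le_left _ _
  have a2 : min ρ 1 ≤ 1 := min_le_right _ _
  constructor
  · rintro ⟨h1, h2, h3⟩
    refine ⟨h1, h2, ?_⟩
    by_contra hcon
    push Not at hcon
    have := hρ1 z ⟨h1, hcon, by linarith⟩
    linarith
  · rintro ⟨h1, h2, h3⟩
    exact ⟨h1, h2, h3.trans hy1⟩

/-- one of the two halves at each large distance, chosen by a sign pattern -/
theorem pattern_half {Λ : Set ℝ} {d C : ℝ} (hd : d < 4 / 3) (hΛ : Dens Λ d C) {K c R : ℝ}
    (hc : 0 < c) (hB : Tendsto BF atTop (𝓝 0))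
    (h : ∀ a, R ≤ a → ∀ ε : ℝ, 0 < ε → ∃ T0 : ℝ, ∀ T : ℝ, T0 ≤ T →
      -(K * Real.exp (-(c * a))) - ε ≤ (-1) ^ cn Λ a * (CF T a - PP a)) :
    (∀ a, 0 < a → Tendsto (fun T => CF T a) atTop (𝓝 (PP a))) ∧ Tendsto BF atTop (𝓝 0) := by
  refine of_limits fun T hT Φ μ ν e H h1 _ h3 _ => ?_
  have hν : ν = 0 := tendsto_nhds_unique h3 ((vt_of_BF hB).comp hT)
  have hμ := H.mu2 hν
  have he : e = 0 := by linarith [H.mu, H.e0, H.e1]
  refine finish H (limP H he hd hΛ (K := |K|) (R := max R 1) hc ?_)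
  filter_upwards [h1] with x hx hRx
  have hR1 : R ≤ x := (le_max_left _ _).trans hRx
  have hx0 : 0 < x := lt_of_lt_of_le one_pos ((le_max_right _ _).trans hRx)
  have hK : ∀ y : ℝ, K * Real.exp (-(c * y)) ≤ |K| * Real.exp (-(c * y)) := fun y =>
    mul_le_mul_of_nonneg_right (le_abs_self K) (Real.exp_pos _).le
  have hG : Gd Φ μ x = Φ x - PP x := by
    unfold Gd
    rw [hμ]
    ring
  rw [hG]
  rcases neg_one_pow_eq_or ℝ (cn Λ x) with hs | hs
  · rw [hs, one_mul]
    have h2 := low_limit hT hx0 hx (m := PP x - K * Real.exp (-(c * x))) (fun ε hε => by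
      obtain ⟨T0, hT0⟩ := h x hR1 ε hε
      refine ⟨T0, fun T hT => ?_⟩
      have := hT0 T hT
      rw [hs, one_mul] at this
      linarith)
    have := hK x
    linarith
  · rw [hs]
    obtain ⟨ρ, hρ, hcn⟩ := cn_right hΛ hx0
    have h2 := upp_limit' hT hx0 hx (F := fun y => PP y + |K| * Real.exp (-(c * y))) (by
      intro ε hε
      refine ⟨ε, hε, fun y hy1 hy2 => ?_⟩
      have h4 := PP_lip hy1
      have h5 : Real.exp (-(c * y)) ≤ Real.exp (-(c * x)) := Real.exp_le_exp.2 (by nlinarith)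
      have h6 : |K| * Real.exp (-(c * y)) ≤ |K| * Real.exp (-(c * x)) := by gcongr
      linarith) hρ (by
      intro y hy1 hy2 ε hε
      obtain ⟨T0, hT0⟩ := h y (hR1.trans hy1) ε hε
      refine ⟨T0, fun T hT => ?_⟩
      have h6 := hT0 T hT
      rw [hcn y hy1 hy2, hs] at h6
      have := hK y
      linarith)
    linarith

end Pool.Agent.N804
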