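import Pool.Agent.N804.Even

set_option autoImplicit false

/-! # Discrepancies with a period -/

namespace Pool.Agent.N804

open Filter Topology Set MeasureTheory

lemma PP_odd (x : ℝ) : PP (-x) = -PP x := by
  unfold PP
  have h := intervalIntegral.integral_comp_neg (a := (0 : ℝ)) (b := x)
    (fun u : ℝ => 1 - Real.sinc (Real.pi * u) ^ 2)
  rw [neg_zero] at h
  rw [intervalIntegral.integral_symm, ← h]
  congr 2
  funext u
  rw [mul_neg, Real.sinc_neg]

/-- the odd extension of the limit -/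
noncomputable def MM (Φ : ℝ → ℝ) (μ x : ℝ) : ℝ := od (Gd Φ μ) x + PP x

lemma MM_odd (Φ : ℝ → ℝ) (μ x : ℝ) : MM Φ μ (-x) = -MM Φ μ x := by
  unfold MM
  rw [od_odd, PP_odd]
  ring

lemma MM_pos {Φ : ℝ → ℝ} {μ x : ℝ} (hx : 0 < x) : MM Φ μ x = Φ x + (μ - 1) / 2 := by
  unfold MM
  rw [od_pos hx]
  unfold Gd
  ring

lemma MM_mono {Φ : ℝ → ℝ} {μ ν e : ℝ} (H : LO Φ μ ν e) : Monotone (MM Φ μ) := by
  obtain ⟨B, hB, hbd⟩ := H.bd
  have hμ1 : 1 ≤ μ := by linarith [H.mu, H.e0, H.e1]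
  have hnn : ∀ x, 0 ≤ x → 0 ≤ MM Φ μ x := by
    intro x hx
    rcases hx.lt_or_eq with h | h
    · rw [MM_pos h]
      have := (hbd x hx).1
      linarith
    · rw [← h]
      have := MM_odd Φ μ 0
      rw [neg_zero] at this
      linarith
  have hpos : ∀ x y, 0 < x → x ≤ y → MM Φ μ x ≤ MM Φ μ y := by
    intro x y hx hxy
    rw [MM_pos hx, MM_pos (lt_of_lt_of_le hx hxy)]
    have := H.mono hxy
    linarith
  intro x y hxy
  rcases lt_or_ge 0 x with h | h
  · exact hpos x y h hxy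
  · rcases le_or_gt 0 y with h2 | h2
    · have h3 := hnn y h2
      have h4 := hnn (-x) (by linarith)
      rw [MM_odd] at h4
      linarith
    · have h3 := hpos (-y) (-x) (by linarith) (by linarith)
      rw [MM_odd, MM_odd] at h3
      linarith

/-- right limits of the discrepancy -/
noncomputable def Dr (Φ : ℝ → ℝ) (μ x : ℝ) : ℝ := Function.rightLim (MM Φ μ) x - PP x

lemma freq_zero {G : ℝ → ℝ} (h : ℝ) (hz : DZ (Es G h)) (c : ℝ) :
    ∃ᶠ y in 𝓝[>] c, Es G h y = 0 := by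
  rw [(nhdsGT_basis c).frequently_iff]
  intro b hb
  rcases le_or_gt 0 c with h0 | h0
  · obtain ⟨y, hy, hy2⟩ := hz c b h0 hb
    exact ⟨y, hy, hy2⟩
  · obtain ⟨y, hy, hy2⟩ := hz (max 0 (-b)) (-c) (le_max_left _ _)
      (max_lt (by linarith) (by linarith))
    refine ⟨-y, ⟨by linarith [hy.2], ?_⟩, by rw [Es_even]; exact hy2⟩
    have := lt_of_le_of_lt (le_max_right 0 (-b)) hy.1
    linarith

lemma Dr_per {Φ : ℝ → ℝ} {μ ν e : ℝ} (H : LO Φ μ ν e) {ℓ : ℝ}
    (hz : DZ (Es (Gd Φ μ) (ℓ / 2))) (x : ℝ) : Dr Φ μ (x + ℓ) = Dr Φ μ x := by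
  have hM := MM_mono H
  set c : ℝ := x + ℓ / 2 with hc
  have ht : Tendsto (fun y => Es (Gd Φ μ) (ℓ / 2) y) (𝓝[>] c)
      (𝓝 (Dr Φ μ (x + ℓ) - Dr Φ μ x)) := by
    have h1 : Tendsto (fun y : ℝ => y + ℓ / 2) (𝓝[>] c) (𝓝[>] (x + ℓ)) := by
      refine tendsto_nhdsWithin_iff.2 ⟨?_, ?_⟩
      · have : Tendsto (fun y : ℝ => y + ℓ / 2) (𝓝 c) (𝓝 (c + ℓ / 2)) :=
          (continuous_id.add continuous_const).tendsto c
        have e1 : c + ℓ / 2 = x + ℓ := by rw [hc]; ring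
        rw [e1] at this
        exact this.mono_left nhdsWithin_le_nhds
      · filter_upwards [self_mem_nhdsWithin] with y hy
        have hy' : c < y := hy
        show x + ℓ < y + ℓ / 2
        linarith
    have h2 : Tendsto (fun y : ℝ => y - ℓ / 2) (𝓝[>] c) (𝓝[>] x) := by
      refine tendsto_nhdsWithin_iff.2 ⟨?_, ?_⟩
      · have : Tendsto (fun y : ℝ => y - ℓ / 2) (𝓝 c) (𝓝 (c - ℓ / 2)) :=
          (continuous_id.sub continuous_const).tendsto c
        have e1 : c - ℓ / 2 = x := by rw [hc]; ring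
        rw [e1] at this
        exact this.mono_left nhdsWithin_le_nhds
      · filter_upwards [self_mem_nhdsWithin] with y hy
        have hy' : c < y := hy
        show x < y - ℓ / 2
        linarith
    have h3 := (hM.tendsto_rightLim (x + ℓ)).comp h1
    have h4 := (hM.tendsto_rightLim x).comp h2
    have h5 := ((PP_cont.tendsto (x + ℓ)).mono_left (nhdsWithin_le_nhds (s := Ioi (x + ℓ)))).comp h1
    have h6 := ((PP_cont.tendsto x).mono_left (nhdsWithin_le_nhds (s := Ioi x))).comp h2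
    have h7 := (h3.sub h5).sub (h4.sub h6)
    refine h7.congr fun y => ?_
    simp only [Function.comp, Es, MM]
    ring
  by_contra hcon
  have hne : Dr Φ μ (x + ℓ) - Dr Φ μ x ≠ 0 := sub_ne_zero.2 hcon
  have h8 : ∀ᶠ y in 𝓝[>] c, Es (Gd Φ μ) (ℓ / 2) y ≠ 0 := ht.eventually_ne hne
  obtain ⟨y, hy1, hy2⟩ := ((freq_zero (ℓ / 2) hz c).and_eventually h8).exists
  exact hy2 hy1

lemma Dr_low {Φ : ℝ → ℝ} {μ ν e : ℝ} (H : LO Φ μ ν e) {x y : ℝ} (hxy : x ≤ y) :
    -(PP y - PP x) ≤ Dr Φ μ y - Dr Φ μ x := by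
  have := (MM_mono H).rightLim hxy
  unfold Dr
  linarith

/-- two incommensurable periods -/
theorem two_per {Φ : ℝ → ℝ} {μ ν e : ℝ} (H : LO Φ μ ν e) {ℓ₁ ℓ₂ : ℝ}
    (hirr : Irrational (ℓ₁ / ℓ₂)) (h1 : DZ (Es (Gd Φ μ) (ℓ₁ / 2)))
    (h2 : DZ (Es (Gd Φ μ) (ℓ₂ / 2))) : DZ (Gd Φ μ) := by
  have hM := MM_mono H
  let S : AddSubgroup ℝ :=
    { carrier := {t | ∀ x, Dr Φ μ (x + t) = Dr Φ μ x}
      add_mem' := by
        intro a b ha hb x
        rw [← add_assoc, hb, ha]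
      zero_mem' := by intro x; rw [add_zero]
      neg_mem' := by
        intro a ha x
        have := ha (x + -a)
        rw [neg_add_cancel_right] at this
        exact this.symm }
  have hS1 : ℓ₁ ∈ S := Dr_per H h1
  have hS2 : ℓ₂ ∈ S := Dr_per H h2
  have hle : AddSubgroup.closure {ℓ₁, ℓ₂} ≤ S := by
    rw [AddSubgroup.closure_le]
    intro t ht
    rcases ht with ht | ht
    · rw [ht]; exact hS1
    · rw [mem_singleton_iff] at ht
      rw [ht]; exact hS2
  have hd : Dense (S : Set ℝ) := (dense_addSubgroupClosure_pair_iff.2 hirr).mono hle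
  have hconst : ∀ x y, x < y → Dr Φ μ x = Dr Φ μ y := by
    intro x y hxy
    refine le_antisymm ?_ ?_
    · refine le_of_forall_pos_le_add fun ε hε => ?_
      obtain ⟨t, ht, htS⟩ := hd.exists_between (show y - x - ε < y - x by linarith)
      have e1 : Dr Φ μ (x + t) = Dr Φ μ x := ht x
      have e2 := Dr_low H (show x + t ≤ y by linarith [htS.2])
      have e3 := PP_lip (show x + t ≤ y by linarith [htS.2])
      linarith [htS.1]
    · refine le_of_forall_pos_le_add fun ε hε => ?_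
      obtain ⟨t, ht, htS⟩ := hd.exists_between (show y - x < y - x + ε by linarith)
      have e1 : Dr Φ μ (x + t) = Dr Φ μ x := ht x
      have e2 := Dr_low H (show y ≤ x + t by linarith [htS.1])
      have e3 := PP_lip (show y ≤ x + t by linarith [htS.1])
      linarith [htS.2]
  set c0 : ℝ := Dr Φ μ 0 with hc0
  have hc : ∀ x, Dr Φ μ x = c0 := by
    intro x
    rcases lt_trichotomy x 0 with h | h | h
    · exact hconst x 0 h
    · rw [h]
    · exact (hconst 0 x h).symm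
  have hMv : ∀ x, MM Φ μ x = PP x + c0 := by
    intro x
    refine le_antisymm ?_ ?_
    · have h3 := hM.le_rightLim (le_refl x)
      have h4 := hc x
      unfold Dr at h4
      linarith
    · refine le_of_forall_pos_le_add fun ε hε => ?_
      have h3 := hM.rightLim_le (show x - ε < x by linarith)
      have h4 := hc (x - ε)
      unfold Dr at h4
      have h5 := PP_lip (show x - ε ≤ x by linarith)
      linarith
  have hc00 : c0 = 0 := by
    have h3 := MM_odd Φ μ 1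
    rw [hMv, hMv, PP_odd] at h3
    linarith
  intro a b ha hab
  refine ⟨(a + b) / 2, ⟨by linarith, by linarith⟩, ?_⟩
  have h3 := hMv ((a + b) / 2)
  have h4 : 0 < (a + b) / 2 := by linarith
  rw [MM_pos h4, hc00] at h3
  unfold Gd
  linarith

/-- one period: bound for the oscillation -/
theorem one_per {Φ : ℝ → ℝ} {μ ν e : ℝ} (H : LO Φ μ ν e) {ℓ : ℝ} (hℓ : 0 < ℓ)
    (h1 : DZ (Es (Gd Φ μ) (ℓ / 2))) : ∀ x y, |Dr Φ μ y - Dr Φ μ x| ≤ 2 * PP (ℓ / 2) := by
  have hper : Function.Periodic (Dr Φ μ) ℓ := Dr_per H h1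
  have hodd := PP_odd (ℓ / 2)
  have hends : Dr Φ μ (ℓ / 2) = Dr Φ μ (-(ℓ / 2)) := by
    rw [← Dr_per H h1 (-(ℓ / 2))]
    congr 1
    ring
  have key : ∀ x y, -(ℓ / 2) ≤ x → x ≤ y → y ≤ ℓ / 2 → |Dr Φ μ y - Dr Φ μ x| ≤ 2 * PP (ℓ / 2) := by
    intro x y hx hxy hy
    have a1 := Dr_low H hxy
    have a2 := Dr_low H hx
    have a3 := Dr_low H hy
    have b1 := PP_mono hx
    have b2 := PP_mono hy
    have b3 := PP_mono hxy
    rw [hodd] at a2 b1
    rw [abs_le]
    constructor <;> linarith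
  have red : ∀ x, ∃ x', -(ℓ / 2) ≤ x' ∧ x' ≤ ℓ / 2 ∧ Dr Φ μ x' = Dr Φ μ x := by
    intro x
    refine ⟨x - ⌊x / ℓ + 1 / 2⌋ * ℓ, ?_, ?_, ?_⟩
    · have := Int.floor_le (x / ℓ + 1 / 2)
      have h2 : (⌊x / ℓ + 1 / 2⌋ : ℝ) * ℓ ≤ (x / ℓ + 1 / 2) * ℓ := by gcongr
      have h3 : (x / ℓ + 1 / 2) * ℓ = x + ℓ / 2 := by field_simp
      linarith
    · have := Int.lt_floor_add_one (x / ℓ + 1 / 2)
      have h2 : (x / ℓ + 1 / 2) * ℓ ≤ ((⌊x / ℓ + 1 / 2⌋ : ℝ) + 1) * ℓ := by gcongr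
      have h3 : (x / ℓ + 1 / 2) * ℓ = x + ℓ / 2 := by field_simp
      linarith
    · exact hper.sub_int_mul_eq _
  intro x y
  obtain ⟨x', hx1, hx2, hx3⟩ := red x
  obtain ⟨y', hy1, hy2, hy3⟩ := red y
  rw [← hx3, ← hy3]
  rcases le_total x' y' with h | h
  · exact key x' y' hx1 h hy2
  · rw [abs_sub_comm]
    exact key y' x' hy1 h hx2

/-- one period: bounds for the discrepancy -/
theorem one_bd {Φ : ℝ → ℝ} {μ ν e : ℝ} (H : LO Φ μ ν e) {ℓ : ℝ} (hℓ : 0 < ℓ)
    (h1 : DZ (Es (Gd Φ μ) (ℓ / 2))) :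
    (∀ x, 0 < x → |Gd Φ μ x| ≤ PP (ℓ / 2)) ∧ μ - 1 ≤ 2 * PP (ℓ / 2) := by
  have hM := MM_mono H
  obtain ⟨B, hB, hbd⟩ := H.bd
  have hosc := one_per H hℓ h1
  have hG : ∀ x, 0 < x → |Gd Φ μ x| ≤ PP (ℓ / 2) := by
    intro x hx
    have e1 : MM Φ μ x = Gd Φ μ x + PP x := by
      unfold MM
      rw [od_pos hx]
    have up : Gd Φ μ x ≤ PP (ℓ / 2) := by
      refine le_of_forall_pos_le_add fun ε hε => ?_
      -- `M x ≤ Mr x`, `M (-x) ≥ Mr (-x - ε)`
      have a1 := hM.le_rightLim (le_refl x)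
      have a2 := hM.rightLim_le (show -x - ε < -x by linarith)
      have a3 := (abs_le.1 (hosc (-x - ε) x)).2
      have a4 := PP_lip (show -x - ε ≤ -x by linarith)
      rw [MM_odd, e1] at a2
      rw [e1] at a1
      rw [PP_odd] at a4
      unfold Dr at a3
      linarith
    have lo : -PP (ℓ / 2) ≤ Gd Φ μ x := by
      refine le_of_forall_pos_le_add fun ε hε => ?_
      have a1 := hM.rightLim_le (show x - ε < x by linarith)
      have a2 := hM.le_rightLim (le_refl (-x))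
      have a3 := (abs_le.1 (hosc (-x) (x - ε))).1
      have a4 := PP_lip (show x - ε ≤ x by linarith)
      rw [MM_odd, e1] at a2
      rw [e1] at a1
      unfold Dr at a3
      rw [PP_odd] at a3
      linarith
    exact abs_le.2 ⟨lo, up⟩
  refine ⟨hG, ?_⟩
  refine le_of_forall_pos_le_add fun ε hε => ?_
  have h3 := (abs_le.1 (hG (ε / 2) (by positivity))).2
  have h4 := (hbd (ε / 2) (by positivity)).1
  have h5 := PP_le (show 0 ≤ ε / 2 by positivity)
  unfold Gd at h3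
  linarith

end Pool.Agent.N804
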