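import Pool.Agent.N804.Mean4

set_option autoImplicit false

/-! # The functional attached to a smooth function of compact support -/

namespace Pool.Agent.N804

open Filter Topology Set MeasureTheory
open H370.A2 (RR RR_inv RR_integrable RR_cont evp evp_even evp_cont evp_zero evp_integrable fejer)

lemma mul_id_SC {r : ℝ → ℝ} (H : SC r) : SC (fun α => α * r α) :=
  ⟨contDiff_id.mul H.sm, H.cs.mul_left⟩

/-- the weight attached to `r` -/
noncomputable def tw (r : ℝ → ℝ) (x : ℝ) : ℝ := 2 * Real.pi * ST (fun α => α * r α) x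

lemma tw_cont {r : ℝ → ℝ} (H : SC r) : Continuous (tw r) := by
  have := ST_cont (mul_id_SC H)
  unfold tw
  fun_prop

lemma tw_dec {r : ℝ → ℝ} (H : SC r) (n : ℕ) : ∃ A : ℝ, ∀ x : ℝ, 0 ≤ x → x ^ n * |tw r x| ≤ A := by
  have hpi := Real.pi_pos
  obtain ⟨A, hA⟩ := ST_dec (mul_id_SC H) n
  refine ⟨2 * Real.pi * A, fun x hx => ?_⟩
  have h1 := hA x hx
  unfold tw
  rw [abs_mul, abs_of_pos (by positivity : 0 < 2 * Real.pi)]
  calc x ^ n * (2 * Real.pi * |ST (fun α => α * r α) x|) =
      2 * Real.pi * (x ^ n * |ST (fun α => α * r α) x|) := by ring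
    _ ≤ _ := by gcongr

theorem tw_test {r : ℝ → ℝ} (H : SC r) {κ : ℝ} (hκ : 0 < κ) (hs : ∀ α, κ < |α| → r α = 0) :
    Test (tw r) r κ := by
  obtain ⟨r', W, hr'⟩ := mk_test' (mul_id_SC H) (by simp) (fun α hα => by rw [hs α hα, mul_zero]) hκ
    (w := tw r) (fun x => rfl) (tw_cont H) (tw_dec H)
  have hc' : Continuous r' := by
    obtain ⟨K, hK⟩ := W.lip
    exact Pool.Agent.Y750.OM.lip_cont hK
  have he : r' = r := by
    refine Continuous.ext_on (s := {0}ᶜ) (dense_compl_singleton 0) hc' H.cont fun α hα => ?_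
    exact mul_left_cancel₀ hα (hr' α)
  rwa [he] at W

lemma SC.supp {r : ℝ → ℝ} (H : SC r) : ∃ κ : ℝ, 0 < κ ∧ ∀ α, κ < |α| → r α = 0 := by
  obtain ⟨κ, hκ⟩ := H.cs.isCompact.isBounded.subset_closedBall 0
  refine ⟨max κ 1, by positivity, fun α hα => ?_⟩
  by_contra hne
  have h1 : α ∈ tsupport r := subset_tsupport r hne
  have h2 := hκ h1
  rw [mem_closedBall_zero_iff, Real.norm_eq_abs] at h2
  have := le_max_left κ 1
  linarith

lemma tw_add {r s : ℝ → ℝ} (H : SC r) (H' : SC s) (x : ℝ) :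
    tw (fun α => r α + s α) x = tw r x + tw s x := by
  unfold tw ST
  rw [← mul_add, ← integral_add ((mul_id_SC H).int_sin x) ((mul_id_SC H').int_sin x)]
  congr 2
  funext α
  ring

lemma tw_mul (c : ℝ) (r : ℝ → ℝ) (x : ℝ) : tw (fun α => c * r α) x = c * tw r x := by
  unfold tw ST
  have e : ∀ α : ℝ, α * (c * r α) * Real.sin (2 * Real.pi * α * x) =
      c * (α * r α * Real.sin (2 * Real.pi * α * x)) := fun α => by ring
  simp_rw [e]
  rw [integral_const_mul]
  ring

lemma tw_neg (r : ℝ → ℝ) (x : ℝ) : tw (fun α => r (-α)) x = tw r x := by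
  unfold tw ST
  rw [← integral_neg_eq_self (fun α : ℝ => α * r α * Real.sin (2 * Real.pi * α * x))]
  congr 2
  funext α
  rw [show 2 * Real.pi * -α * x = -(2 * Real.pi * α * x) by ring, Real.sin_neg]
  ring

lemma SC.add {r s : ℝ → ℝ} (H : SC r) (H' : SC s) : SC (fun α => r α + s α) :=
  ⟨H.sm.add H'.sm, H.cs.add H'.cs⟩

lemma SC.cmul (c : ℝ) {r : ℝ → ℝ} (H : SC r) : SC (fun α => c * r α) :=
  ⟨contDiff_const.mul H.sm, H.cs.mul_left⟩

lemma SC.refl {r : ℝ → ℝ} (H : SC r) : SC (fun α => r (-α)) :=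
  ⟨H.sm.comp contDiff_neg, H.cs.comp_homeomorph (Homeomorph.neg ℝ)⟩

lemma SC.mulS {r s : ℝ → ℝ} (H : SC r) (H' : ContDiff ℝ (⊤ : ℕ∞) s) : SC (fun α => r α * s α) :=
  ⟨H.sm.mul H', H.cs.mul_right⟩

lemma SC.sub {r s : ℝ → ℝ} (H : SC r) (H' : SC s) : SC (fun α => r α - s α) := by
  have := H.add (H'.cmul (-1))
  have e : (fun α => r α + -1 * s α) = fun α => r α - s α := by
    funext α
    ring
  rwa [e] at this

lemma SC.transl {r : ℝ → ℝ} (H : SC r) (t : ℝ) : SC (fun α => r (α - t)) :=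
  ⟨H.sm.comp (contDiff_id.sub contDiff_const),
    H.cs.comp_homeomorph (Homeomorph.subRight t)⟩

/-- the functional -/
noncomputable def DD (G : ℝ → ℝ) (r : ℝ → ℝ) : ℝ := ∫ x in Ioi (0 : ℝ), tw r x * G x

/-- functions of linear growth -/
structure LG (G : ℝ → ℝ) : Prop where
  meas : Measurable G
  bd : ∃ B : ℝ, 0 ≤ B ∧ ∀ x, 0 ≤ x → |G x| ≤ B * (1 + x)

lemma tw_int {G : ℝ → ℝ} (hG : LG G) {r : ℝ → ℝ} (H : SC r) :
    IntegrableOn (fun x => tw r x * G x) (Ioi 0) := by
  obtain ⟨B, hB, hGB⟩ := hG.bd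
  obtain ⟨κ, hκ, hs⟩ := H.supp
  have W := tw_test H hκ hs
  have i0 := W.inta 0 le_rfl
  have i1 := W.inta 1 le_rfl
  simp only [pow_zero, one_mul, pow_one] at i0 i1
  refine Integrable.mono' ((i0.add i1).const_mul B)
    ((tw_cont H).measurable.mul hG.meas).aestronglyMeasurable ?_
  refine (ae_restrict_iff' measurableSet_Ioi).2 (ae_of_all _ fun x hx => ?_)
  have hx0 : 0 ≤ x := le_of_lt hx
  have h1 := hGB x hx0
  rw [Real.norm_eq_abs, abs_mul]
  calc |tw r x| * |G x| ≤ |tw r x| * (B * (1 + x)) := by gcongr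
    _ = B * (|tw r x| + x * |tw r x|) := by ring

lemma DD_add {G : ℝ → ℝ} (hG : LG G) {r s : ℝ → ℝ} (H : SC r) (H' : SC s) :
    DD G (fun α => r α + s α) = DD G r + DD G s := by
  unfold DD
  rw [← integral_add (tw_int hG H) (tw_int hG H')]
  congr 1
  funext x
  rw [tw_add H H']
  ring

lemma DD_mul (G : ℝ → ℝ) (c : ℝ) (r : ℝ → ℝ) : DD G (fun α => c * r α) = c * DD G r := by
  unfold DD
  rw [← integral_const_mul]
  congr 1
  funext x
  rw [tw_mul]
  ring

lemma DD_neg (G : ℝ → ℝ) (r : ℝ → ℝ) : DD G (fun α => r (-α)) = DD G r := by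
  unfold DD
  congr 1
  funext x
  rw [tw_neg]

lemma DD_sub {G : ℝ → ℝ} (hG : LG G) {r s : ℝ → ℝ} (H : SC r) (H' : SC s) :
    DD G (fun α => r α - s α) = DD G r - DD G s := by
  have h := DD_add hG H (H'.cmul (-1))
  rw [DD_mul] at h
  have e : (fun α => r α + -1 * s α) = fun α => r α - s α := by
    funext α
    ring
  rw [e] at h
  rw [h]
  ring

/-! ## the main term -/

lemma CT_RR {r : ℝ → ℝ} {μ : ℝ} (hμ : 0 < μ) (hz : ∀ x, μ ≤ |x| → r x = 0) (u : ℝ) :
    CT r u = RR r μ u := by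
  unfold CT RR
  rw [intervalIntegral.integral_eq_integral_of_support_subset]
  intro α hα
  by_contra h
  apply hα
  have : μ ≤ |α| := by
    by_contra h2
    push Not at h2
    obtain ⟨h3, h4⟩ := abs_lt.1 h2
    exact h ⟨by linarith, by linarith⟩
  show r α * _ = 0
  rw [hz α this, zero_mul]

lemma sc_min_int {r : ℝ → ℝ} (H : SC r) : Integrable fun α : ℝ => min |α| 1 * r α := by
  have hc := H.cont
  exact (by fun_prop : Continuous fun α : ℝ => min |α| 1 * r α).integrable_of_hasCompactSupport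
    H.cs.mul_left

/-- the main term -/
theorem main_gen {r : ℝ → ℝ} (H : SC r) :
    ∫ x in Ioi (0 : ℝ), tw r x * (1 + 2 * PP x) = r 0 + ∫ α : ℝ, min |α| 1 * r α := by
  obtain ⟨κ, hκ, hs⟩ := H.supp
  have W := tw_test H hκ hs
  rw [← main_int W]
  set μ : ℝ := κ + 1 with hμ
  have hμ0 : 0 < μ := by linarith
  have hz : ∀ x, μ ≤ |x| → r x = 0 := fun x hx => hs x (by linarith)
  have hr := H.cont
  obtain ⟨A, hA⟩ := W.decay
  have hC : ∀ x, |RR r μ x| * x ^ 2 ≤ A := by
    intro x
    rw [← CT_RR hμ0 hz]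
    refine le_trans ?_ (hA x)
    apply mul_le_mul_of_nonneg_left _ (abs_nonneg _)
    linarith
  have hRi := RR_integrable hr hz hC
  have hRc := RR_cont (μ := μ) hr
  have hK : ∫ x, RR r μ x * (Real.sin (Real.pi * x) / (Real.pi * x)) ^ 2 =
      ∫ β in (-1 : ℝ)..1, (1 - |β|) * evp r β := by
    have h1 : ∫ x, RR r μ x * (Real.sin (Real.pi * x) / (Real.pi * x)) ^ 2 =
        ∫ x, ∫ β in Set.Ioc (-1 : ℝ) 1, RR r μ x * ((1 - |β|) * Real.cos (2 * Real.pi * x * β)) := by
      refine integral_congr_ae ?_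
      have h0 : ∀ᵐ x : ℝ, x ≠ 0 := by
        rw [ae_iff]
        simp
      filter_upwards [h0] with x hx
      rw [← fejer hx, intervalIntegral.integral_of_le (by norm_num), integral_const_mul]
    have hint : Integrable (Function.uncurry fun x β : ℝ =>
        RR r μ x * ((1 - |β|) * Real.cos (2 * Real.pi * x * β)))
        (volume.prod (volume.restrict (Set.Ioc (-1 : ℝ) 1))) := by
      have hc1 : Integrable (fun β : ℝ => 1 - |β|) (volume.restrict (Set.Ioc (-1 : ℝ) 1)) :=
        ((by fun_prop : Continuous fun β : ℝ => 1 - |β|).integrableOn_Icc).mono_set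
          Set.Ioc_subset_Icc_self
      refine (hRi.norm.mul_prod hc1.norm).mono' ?_ (Filter.Eventually.of_forall fun z => ?_)
      · apply Continuous.aestronglyMeasurable
        unfold Function.uncurry
        fun_prop
      · simp only [Function.uncurry]
        rw [norm_mul, norm_mul]
        have := Real.abs_cos_le_one (2 * Real.pi * z.1 * z.2)
        rw [← Real.norm_eq_abs] at this
        calc ‖RR r μ z.1‖ * (‖1 - |z.2|‖ * ‖Real.cos (2 * Real.pi * z.1 * z.2)‖) ≤
            ‖RR r μ z.1‖ * (‖1 - |z.2|‖ * 1) := by gcongr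
          _ = _ := by ring
    rw [h1, integral_integral_swap hint, intervalIntegral.integral_of_le (by norm_num)]
    refine integral_congr_ae (Filter.Eventually.of_forall fun β => ?_)
    show ∫ x, RR r μ x * ((1 - |β|) * Real.cos (2 * Real.pi * x * β)) = (1 - |β|) * evp r β
    rw [← RR_inv hr hz hC β, ← integral_const_mul]
    refine integral_congr_ae (Filter.Eventually.of_forall fun x => ?_)
    show RR r μ x * ((1 - |β|) * Real.cos (2 * Real.pi * x * β)) = _
    ring
  have h0 : ∫ x, RR r μ x = r 0 := by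
    have h1 := RR_inv hr hz hC 0
    simp only [mul_zero, Real.cos_zero, mul_one] at h1
    rw [h1]
    unfold evp
    simp
  have hsi : Integrable fun x => RR r μ x * (Real.sin (Real.pi * x) / (Real.pi * x)) ^ 2 := by
    refine hRi.norm.mono' ?_ (Filter.Eventually.of_forall fun x => ?_)
    · apply hRc.aestronglyMeasurable.mul
      apply Measurable.aestronglyMeasurable
      fun_prop
    · rw [norm_mul, norm_pow]
      have : ‖Real.sin (Real.pi * x) / (Real.pi * x)‖ ≤ 1 := by
        rw [norm_div, Real.norm_eq_abs, Real.norm_eq_abs]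
        exact div_le_one_of_le₀ Real.abs_sin_le_abs (abs_nonneg _)
      have h2 : ‖Real.sin (Real.pi * x) / (Real.pi * x)‖ ^ 2 ≤ 1 := pow_le_one₀ (norm_nonneg _) this
      exact mul_le_of_le_one_right (norm_nonneg _) h2
  have hsplit : ∫ u : ℝ, CT r u * (1 - Real.sinc (Real.pi * u) ^ 2) =
      r 0 - ∫ β in (-1 : ℝ)..1, (1 - |β|) * evp r β := by
    rw [← h0, ← hK, ← integral_sub hRi hsi]
    refine integral_congr_ae ?_
    have h0 : ∀ᵐ x : ℝ, x ≠ 0 := by
      rw [ae_iff]
      simp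
    filter_upwards [h0] with x hx
    have hpi := Real.pi_pos
    rw [CT_RR hμ0 hz, Real.sinc_of_ne_zero (by positivity)]
    ring
  have hcs : HasCompactSupport r := H.cs
  have hri : Integrable r := hr.integrable_of_hasCompactSupport hcs
  have hCT0 : CT r 0 = ∫ α : ℝ, r α := by
    unfold CT
    simp
  -- the even part
  have hev : ∫ β in (-1 : ℝ)..1, (1 - |β|) * evp r β = ∫ α : ℝ, (1 - min |α| 1) * r α := by
    have e1 : ∫ β in (-1 : ℝ)..1, (1 - |β|) * evp r β =
        ∫ β in (-1 : ℝ)..1, (1 - min |β| 1) * evp r β := by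
      refine intervalIntegral.integral_congr fun β hβ => ?_
      rw [uIcc_of_le (by norm_num)] at hβ
      show (1 - |β|) * evp r β = (1 - min |β| 1) * evp r β
      rw [min_eq_left (abs_le.2 ⟨by linarith [hβ.1], hβ.2⟩)]
    rw [e1, intervalIntegral.integral_eq_integral_of_support_subset]
    · have i1 : Integrable fun α : ℝ => (1 - min |α| 1) * r α :=
        (by fun_prop : Continuous fun α : ℝ => (1 - min |α| 1) * r α).integrable_of_hasCompactSupport
          hcs.mul_left
      have i2 : Integrable fun α : ℝ => (1 - min |α| 1) * r (-α) := by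
        have := i1.comp_neg
        refine this.congr (ae_of_all _ fun α => ?_)
        simp only [abs_neg]
      have e2 : ∫ α : ℝ, (1 - min |α| 1) * r (-α) = ∫ α : ℝ, (1 - min |α| 1) * r α := by
        rw [← integral_neg_eq_self (fun α : ℝ => (1 - min |α| 1) * r α)]
        simp only [abs_neg]
      have e3 : ∀ α : ℝ, (1 - min |α| 1) * evp r α =
          (1 / 2) * ((1 - min |α| 1) * r α + (1 - min |α| 1) * r (-α)) := by
        intro α
        unfold evp
        ring
      simp_rw [e3]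
      rw [integral_const_mul, integral_add i1 i2, e2]
      ring
    · intro α hα
      by_contra h
      apply hα
      have : 1 ≤ |α| := by
        by_contra h2
        push Not at h2
        obtain ⟨h3, h4⟩ := abs_lt.1 h2
        exact h ⟨by linarith, by linarith⟩
      show (1 - min |α| 1) * _ = 0
      rw [min_eq_right this]
      ring
  rw [hsplit, hev, hCT0]
  have e5 : ∀ α : ℝ, (1 - min |α| 1) * r α = r α - min |α| 1 * r α := fun α => by ring
  simp_rw [e5]
  rw [integral_sub hri (sc_min_int H)]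
  ring

end Pool.Agent.N804
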