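import Pool.Agent.N804.Bump

set_option autoImplicit false

/-! # Test functions -/

namespace Pool.Agent.N804

open Filter Topology Set MeasureTheory

/-- `w` is (minus) the derivative on `(0, ∞)` of an even function with transform `r` supported in
`[-δ, δ]` -/
structure Test (w r : ℝ → ℝ) (δ : ℝ) : Prop where
  cont : Continuous w
  dec : ∀ n : ℕ, ∃ A : ℝ, ∀ x, 0 ≤ x → x ^ n * |w x| ≤ A
  lip : ∃ K : ℝ, ∀ x y, |r x - r y| ≤ K * |x - y|
  supp : ∀ α, δ < |α| → r α = 0
  eq : ∀ u, CT r u = ∫ x in Ioi |u|, w x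

lemma dec_int {w : ℝ → ℝ} (hc : Continuous w)
    (hd : ∀ n : ℕ, ∃ A : ℝ, ∀ x, 0 ≤ x → x ^ n * |w x| ≤ A) (n : ℕ) {a : ℝ} (ha : 0 ≤ a) :
    IntegrableOn (fun x => x ^ n * w x) (Ioi a) := by
  obtain ⟨A1, h1⟩ := hd n
  obtain ⟨A2, h2⟩ := hd (n + 2)
  refine Integrable.mono' (integrable_inv_one_add_sq.const_mul (A1 + A2)).integrableOn
    ((by fun_prop : Continuous fun x => x ^ n * w x).aestronglyMeasurable) ?_
  refine (ae_restrict_iff' measurableSet_Ioi).2 (ae_of_all _ fun x hx => ?_)
  have hx0 : 0 ≤ x := ha.trans (le_of_lt hx)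
  have e1 := h1 x hx0
  have e2 := h2 x hx0
  rw [Real.norm_eq_abs, abs_mul, abs_of_nonneg (pow_nonneg hx0 n),
    ← div_eq_mul_inv, le_div_iff₀ (by positivity)]
  calc x ^ n * |w x| * (1 + x ^ 2) = x ^ n * |w x| + x ^ (n + 2) * |w x| := by ring
    _ ≤ _ := add_le_add e1 e2

lemma Test.int {w r : ℝ → ℝ} {δ : ℝ} (H : Test w r δ) (n : ℕ) {a : ℝ} (ha : 0 ≤ a) :
    IntegrableOn (fun x => x ^ n * w x) (Ioi a) := dec_int H.cont H.dec n ha

lemma Test.inta {w r : ℝ → ℝ} {δ : ℝ} (H : Test w r δ) (n : ℕ) {a : ℝ} (ha : 0 ≤ a) :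
    IntegrableOn (fun x => x ^ n * |w x|) (Ioi a) := by
  refine dec_int (w := fun x => |w x|) (H.cont.abs) (fun m => ?_) n ha
  obtain ⟨A, hA⟩ := H.dec m
  exact ⟨A, fun x hx => by rw [abs_abs]; exact hA x hx⟩

lemma Test.decay {w r : ℝ → ℝ} {δ : ℝ} (H : Test w r δ) :
    ∃ A : ℝ, ∀ u, |CT r u| * (1 + u ^ 2) ≤ A := by
  have i0 := H.inta 0 le_rfl
  have i2 := H.inta 2 le_rfl
  refine ⟨∫ x in Ioi (0 : ℝ), (x ^ 0 * |w x| + x ^ 2 * |w x|), fun u => ?_⟩
  have hu := abs_nonneg u
  have hsub : Ioi |u| ⊆ Ioi (0 : ℝ) := Ioi_subset_Ioi hu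
  have h0 : |∫ x in Ioi |u|, w x| ≤ ∫ x in Ioi |u|, |w x| := abs_integral_le_integral_abs
  rw [H.eq u]
  refine (mul_le_mul_of_nonneg_right h0 (by positivity)).trans ?_
  rw [← integral_mul_const]
  calc ∫ x in Ioi |u|, |w x| * (1 + u ^ 2) ≤
        ∫ x in Ioi |u|, (x ^ 0 * |w x| + x ^ 2 * |w x|) := by
        refine setIntegral_mono_on ?_ ((i0.add i2).mono_set hsub) measurableSet_Ioi
          fun x hx => ?_
        · have := (i0.mono_set hsub).mul_const (1 + u ^ 2)
          refine this.congr (ae_of_all _ fun x => ?_)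
          simp
        · have h1 := abs_nonneg (w x)
          have h2 : u ^ 2 ≤ x ^ 2 := by
            rw [← sq_abs u]
            exact pow_le_pow_left₀ hu (le_of_lt hx) 2
          nlinarith
    _ ≤ _ := by
        refine setIntegral_mono_set (i0.add i2) ?_ hsub.eventuallyLE
        refine (ae_restrict_iff' measurableSet_Ioi).2 (ae_of_all _ fun x hx => ?_)
        have hx0 : 0 ≤ x := le_of_lt hx
        simp only [Pi.zero_apply, pow_zero, one_mul]
        positivity

lemma Test.bdd {w r : ℝ → ℝ} {δ : ℝ} (H : Test w r δ) : ∃ R : ℝ, ∀ α, |r α| ≤ R := by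
  obtain ⟨K, hK⟩ := H.lip
  have hK0 : 0 ≤ K := by
    have h1 := hK 1 0
    have h2 := abs_nonneg (r 1 - r 0)
    simp at h1
    linarith
  refine ⟨|r 0| + K * |δ|, fun α => ?_⟩
  rcases lt_or_ge δ |α| with h | h
  · rw [H.supp α h, abs_zero]
    positivity
  · have h1 := hK α 0
    rw [sub_zero] at h1
    have h2 : |r α| ≤ |r 0| + |r α - r 0| := by
      have := abs_sub_abs_le_abs_sub (r α) (r 0)
      linarith
    have h3 : |α| ≤ |δ| := h.trans (le_abs_self δ)
    nlinarith

/-- scaling of a test function -/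
lemma Test.scale {w r : ℝ → ℝ} {δ : ℝ} (H : Test w r δ) {L : ℝ} (hL : 0 < L) :
    Test (fun x => w (x / L) / L) (fun α => L * r (L * α)) (δ / L) where
  cont := by
    have := H.cont
    fun_prop
  dec n := by
    obtain ⟨A, hA⟩ := H.dec n
    refine ⟨L ^ n * A / L, fun x hx => ?_⟩
    have h := hA (x / L) (by positivity)
    have e : x ^ n * |w (x / L) / L| = L ^ n * ((x / L) ^ n * |w (x / L)|) / L := by
      rw [div_pow, abs_div, abs_of_pos hL]
      field_simp
    rw [e]
    gcongr
  lip := by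
    obtain ⟨K, hK⟩ := H.lip
    refine ⟨L * (K * L), fun x y => ?_⟩
    have h := hK (L * x) (L * y)
    rw [← mul_sub, abs_mul, abs_of_pos hL]
    have e : |L * x - L * y| = L * |x - y| := by rw [← mul_sub, abs_mul, abs_of_pos hL]
    rw [e] at h
    calc L * |r (L * x) - r (L * y)| ≤ L * (K * (L * |x - y|)) := by gcongr
      _ = _ := by ring
  supp α hα := by
    rw [H.supp (L * α), mul_zero]
    rw [abs_mul, abs_of_pos hL]
    rw [div_lt_iff₀ hL] at hα
    linarith
  eq u := by
    have e1 : CT (fun α => L * r (L * α)) u = CT r (u / L) := by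
      unfold CT
      have e := Measure.integral_comp_mul_left (fun β : ℝ => r β *
        Real.cos (2 * Real.pi * β * (u / L))) L
      have e2 : ∀ α : ℝ, L * r (L * α) * Real.cos (2 * Real.pi * α * u) =
          L * (r (L * α) * Real.cos (2 * Real.pi * (L * α) * (u / L))) := by
        intro α
        have : 2 * Real.pi * (L * α) * (u / L) = 2 * Real.pi * α * u := by field_simp
        rw [this]
        ring
      simp_rw [e2]
      rw [integral_const_mul, e, abs_of_pos (inv_pos.2 hL), smul_eq_mul, ← mul_assoc,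
        mul_inv_cancel₀ hL.ne', one_mul]
    rw [e1, H.eq]
    have e3 : |u / L| = L⁻¹ * |u| := by
      rw [abs_div, abs_of_pos hL]
      ring
    rw [e3]
    have e4 := integral_comp_mul_left_Ioi w |u| (inv_pos.2 hL)
    rw [inv_inv, smul_eq_mul] at e4
    have e5 : ∀ x : ℝ, w (x / L) / L = L⁻¹ * w (L⁻¹ * x) := by
      intro x
      rw [div_eq_mul_inv, mul_comm, div_eq_mul_inv x, mul_comm x]
    simp_rw [e5]
    rw [integral_const_mul, e4, ← mul_assoc, inv_mul_cancel₀ hL.ne', one_mul]

/-- multiplication by a constant -/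
lemma Test.cmul {w r : ℝ → ℝ} {δ : ℝ} (H : Test w r δ) (c : ℝ) :
    Test (fun x => c * w x) (fun α => c * r α) δ where
  cont := by
    have := H.cont
    fun_prop
  dec n := by
    obtain ⟨A, hA⟩ := H.dec n
    refine ⟨|c| * A, fun x hx => ?_⟩
    have h := hA x hx
    calc x ^ n * |c * w x| = |c| * (x ^ n * |w x|) := by rw [abs_mul]; ring
      _ ≤ _ := by gcongr
  lip := by
    obtain ⟨K, hK⟩ := H.lip
    refine ⟨|c| * K, fun x y => ?_⟩
    rw [← mul_sub, abs_mul, mul_assoc]
    exact mul_le_mul_of_nonneg_left (hK x y) (abs_nonneg c)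
  supp α hα := by rw [H.supp α hα, mul_zero]
  eq u := by
    rw [integral_const_mul, ← H.eq u]
    unfold CT
    rw [← integral_const_mul]
    congr 1
    funext α
    ring

/-- parity of derivatives -/
lemma deriv_even {h : ℝ → ℝ} (he : ∀ x, h (-x) = h x) (x : ℝ) : deriv h (-x) = -deriv h x := by
  have e : (fun y => h (-y)) = h := funext he
  have h1 := deriv_comp_neg h x
  rw [e] at h1
  linarith

lemma deriv_odd {h : ℝ → ℝ} (he : ∀ x, h (-x) = -h x) (x : ℝ) : deriv h (-x) = deriv h x := by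
  have e : (fun y => h (-y)) = fun y => -h y := funext he
  have h1 := deriv_comp_neg h x
  rw [e, deriv.fun_neg] at h1
  linarith

lemma iter_odd {h : ℝ → ℝ} (he : ∀ x, h (-x) = h x) (n : ℕ) (x : ℝ) :
    deriv^[2 * n + 1] h (-x) = -deriv^[2 * n + 1] h x := by
  induction n generalizing h with
  | zero => simpa using deriv_even he x
  | succ n ih =>
    rw [show 2 * (n + 1) + 1 = 2 * n + 1 + 1 + 1 by ring, Function.iterate_succ_apply,
      Function.iterate_succ_apply]
    exact ih (fun y => deriv_odd (fun z => deriv_even he z) y)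

lemma deriv_supp {h : ℝ → ℝ} {κ : ℝ} (hz : ∀ x, κ < |x| → h x = 0) (x : ℝ) (hx : κ < |x|) :
    deriv h x = 0 := by
  have : h =ᶠ[𝓝 x] fun _ => 0 := by
    filter_upwards [(isOpen_lt continuous_const continuous_abs).mem_nhds hx] with y hy
    exact hz y hy
  rw [this.deriv_eq, deriv_const]

lemma iter_supp {h : ℝ → ℝ} {κ : ℝ} (hz : ∀ x, κ < |x| → h x = 0) (n : ℕ) :
    ∀ x, κ < |x| → deriv^[n] h x = 0 := by
  induction n generalizing h with
  | zero => simpa using hz
  | succ n ih =>
    intro x hx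
    rw [Function.iterate_succ_apply]
    exact ih (fun y hy => deriv_supp hz y hy) x hx

/-- division by `α` -/
lemma hadamard {k : ℝ → ℝ} (H : SC k) (h0 : k 0 = 0) : ∃ r : ℝ → ℝ,
    (∃ K : ℝ, ∀ x y, |r x - r y| ≤ K * |x - y|) ∧ ∀ α, α * r α = k α := by
  refine ⟨fun α => ∫ t in (0 : ℝ)..1, deriv k (t * α), ?_, fun α => ?_⟩
  · obtain ⟨C, hC⟩ := H.deriv.deriv.cont.bounded_above_of_compact_support H.deriv.deriv.cs
    have hl : ∀ x y, |deriv k x - deriv k y| ≤ C * |x - y| := by
      intro x y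
      have := Convex.norm_image_sub_le_of_norm_deriv_le (f := deriv k) (C := C)
        (fun z _ => H.deriv.diff z) (fun z _ => hC z) convex_univ (mem_univ y) (mem_univ x)
      simpa [Real.norm_eq_abs] using this
    have hC0 : 0 ≤ C := (norm_nonneg _).trans (hC 0)
    refine ⟨C, fun x y => ?_⟩
    have hi : ∀ z : ℝ, IntervalIntegrable (fun t => deriv k (t * z)) volume 0 1 := fun z =>
      (H.deriv.cont.comp (by fun_prop)).intervalIntegrable _ _
    rw [← intervalIntegral.integral_sub (hi x) (hi y)]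
    have := intervalIntegral.norm_integral_le_of_norm_le_const (a := (0 : ℝ)) (b := 1)
      (f := fun t => deriv k (t * x) - deriv k (t * y)) (C := C * |x - y|) ?_
    · simpa [Real.norm_eq_abs] using this
    · intro t ht
      rw [uIoc_of_le zero_le_one] at ht
      rw [Real.norm_eq_abs]
      refine (hl _ _).trans ?_
      rw [← mul_sub, abs_mul, abs_of_pos ht.1]
      have := abs_nonneg (x - y)
      have h2 := ht.2
      have : t * |x - y| ≤ 1 * |x - y| := by gcongr
      calc C * (t * |x - y|) ≤ C * (1 * |x - y|) := by gcongr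
        _ = _ := by ring
  · rw [← intervalIntegral.integral_const_mul]
    have hd : ∀ t ∈ uIcc (0 : ℝ) 1, HasDerivAt (fun t => k (t * α)) (α * deriv k (t * α)) t := by
      intro t _
      have h1 : HasDerivAt (fun t : ℝ => t * α) α t := by
        simpa using (hasDerivAt_id t).mul_const α
      have h2 := (H.diff (t * α)).hasDerivAt.comp t h1
      rw [mul_comm] at h2
      exact h2
    rw [intervalIntegral.integral_eq_sub_of_hasDerivAt hd]
    · simp [h0]
    · exact ((H.deriv.cont.comp (by fun_prop)).const_mul α |>.intervalIntegrable _ _)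

lemma CT_even (r : ℝ → ℝ) (u : ℝ) : CT r |u| = CT r u := by
  rcases abs_choice u with h | h
  · rw [h]
  · rw [h]
    unfold CT
    congr 1
    funext α
    rw [show 2 * Real.pi * α * -u = -(2 * Real.pi * α * u) by ring, Real.cos_neg]

lemma CT_tendsto {r : ℝ → ℝ} (hc : Continuous r) (hs : HasCompactSupport r) :
    Tendsto (CT r) atTop (𝓝 0) := by
  have h := Real.zero_at_infty_fourier (fun α : ℝ => (r α : ℂ))
  have h2 := h.mono_left atTop_le_cocompact
  have h3 := (Complex.continuous_re.tendsto 0).comp h2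
  refine h3.congr fun x => ?_
  simp only [Function.comp]
  rw [Real.fourier_eq']
  have hi : Integrable fun v : ℝ => Complex.exp (↑(-2 * Real.pi * inner ℝ v x) * Complex.I) •
      (r v : ℂ) := by
    refine Continuous.integrable_of_hasCompactSupport ?_ ?_
    · fun_prop
    · refine hs.mono ?_
      intro v hv
      simp only [Function.mem_support, smul_eq_mul, ne_eq, mul_eq_zero, not_or] at hv
      simpa using hv.2
  rw [← RCLike.re_eq_complex_re, ← integral_re hi]
  unfold CT
  congr 1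
  funext v
  have e : -2 * Real.pi * inner ℝ v x = -(2 * Real.pi * v * x) := by
    have : inner ℝ v x = v * x := by
      simp [mul_comm]
    rw [this]
    ring
  rw [e, RCLike.re_eq_complex_re, smul_eq_mul, mul_comm, Complex.re_ofReal_mul,
    Complex.exp_ofReal_mul_I_re, Real.cos_neg]

theorem mk_test' {k w : ℝ → ℝ} {κ : ℝ} (H : SC k) (h0 : k 0 = 0) (hz : ∀ α, κ < |α| → k α = 0)
    (hκ : 0 < κ) (hw : ∀ x, w x = 2 * Real.pi * ST k x) (hc : Continuous w)
    (hd : ∀ n : ℕ, ∃ A : ℝ, ∀ x, 0 ≤ x → x ^ n * |w x| ≤ A) :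
    ∃ r, Test w r κ ∧ ∀ α, α * r α = k α := by
  obtain ⟨r, ⟨K, hK⟩, hr⟩ := hadamard H h0
  have hsupp : ∀ α, κ < |α| → r α = 0 := by
    intro α hα
    have h1 := hr α
    rw [hz α hα] at h1
    have h2 : α ≠ 0 := by
      intro h
      rw [h, abs_zero] at hα
      linarith
    exact (mul_eq_zero.1 h1).resolve_left h2
  have hK0 : 0 ≤ K := by
    have h1 := hK 1 0
    have h2 := abs_nonneg (r 1 - r 0)
    simp at h1
    linarith
  have hrc : Continuous r := by
    have : LipschitzWith K.toNNReal r := by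
      refine LipschitzWith.of_dist_le_mul fun x y => ?_
      rw [Real.dist_eq, Real.dist_eq, Real.coe_toNNReal _ hK0]
      exact hK x y
    exact this.continuous
  have hcs : HasCompactSupport r := by
    refine HasCompactSupport.intro (isCompact_Icc (a := -κ) (b := κ)) fun x hx => hsupp x ?_
    by_contra hcon
    push Not at hcon
    exact hx (abs_le.1 hcon)
  have hder : ∀ x : ℝ, HasDerivAt (CT r) (-w x) x := by
    intro x
    have h := hasDerivAt_integral_of_dominated_loc_of_deriv_le (μ := volume)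
      (F := fun x α => r α * Real.cos (2 * Real.pi * α * x))
      (F' := fun x α => -(2 * Real.pi) * (k α * Real.sin (2 * Real.pi * α * x)))
      (x₀ := x) (s := univ) (bound := fun α => 2 * Real.pi * |k α|) univ_mem ?_ ?_ ?_ ?_ ?_ ?_
    · have h2 := h.2
      have e : ∫ α : ℝ, -(2 * Real.pi) * (k α * Real.sin (2 * Real.pi * α * x)) = -w x := by
        rw [integral_const_mul, hw]
        unfold ST
        ring
      rw [e] at h2
      exact h2
    · exact Eventually.of_forall fun y => (by fun_prop : Continuous fun α =>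
        r α * Real.cos (2 * Real.pi * α * y)).aestronglyMeasurable
    · exact (hrc.mul (by fun_prop)).integrable_of_hasCompactSupport hcs.mul_right
    · have := H.cont
      exact (by fun_prop : Continuous fun α =>
        -(2 * Real.pi) * (k α * Real.sin (2 * Real.pi * α * x))).aestronglyMeasurable
    · refine ae_of_all _ fun α y _ => ?_
      have hpi := Real.pi_pos
      rw [Real.norm_eq_abs, abs_mul, abs_neg, abs_of_pos (by positivity : 0 < 2 * Real.pi), abs_mul]
      have := Real.abs_sin_le_one (2 * Real.pi * α * y)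
      have h3 := abs_nonneg (k α)
      have : |k α| * |Real.sin (2 * Real.pi * α * y)| ≤ |k α| * 1 := by gcongr
      rw [mul_one] at this
      gcongr
    · exact ((H.cont.integrable_of_hasCompactSupport H.cs).abs).const_mul _
    · refine ae_of_all _ fun α y _ => ?_
      have h1 : HasDerivAt (fun y : ℝ => 2 * Real.pi * α * y) (2 * Real.pi * α) y := by
        simpa using (hasDerivAt_id y).const_mul (2 * Real.pi * α)
      have h2 := h1.cos.const_mul (r α)
      have e : r α * (-Real.sin (2 * Real.pi * α * y) * (2 * Real.pi * α)) =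
          -(2 * Real.pi) * (k α * Real.sin (2 * Real.pi * α * y)) := by
        rw [← hr α]
        ring
      rw [e] at h2
      exact h2
  refine ⟨r, ⟨hc, hd, ⟨K, hK⟩, hsupp, fun u => ?_⟩, hr⟩
  have hu := abs_nonneg u
  have hint : IntegrableOn (fun x => -w x) (Ioi |u|) := by
    have := dec_int hc hd 0 hu
    simp only [pow_zero, one_mul] at this
    exact this.neg
  have e := integral_Ioi_of_hasDerivAt_of_tendsto (f := CT r) (f' := fun x => -w x) (a := |u|)
    (m := 0) ((hder |u|).continuousAt.continuousWithinAt) (fun x _ => hder x) hint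
    (CT_tendsto hrc hcs)
  rw [integral_neg] at e
  rw [← CT_even]
  linarith

theorem mk_test {k w : ℝ → ℝ} {κ : ℝ} (H : SC k) (h0 : k 0 = 0) (hz : ∀ α, κ < |α| → k α = 0)
    (hκ : 0 < κ) (hw : ∀ x, w x = 2 * Real.pi * ST k x) (hc : Continuous w)
    (hd : ∀ n : ℕ, ∃ A : ℝ, ∀ x, 0 ≤ x → x ^ n * |w x| ≤ A) : ∃ r, Test w r κ := by
  obtain ⟨r, hr, -⟩ := mk_test' H h0 hz hκ hw hc hd
  exact ⟨r, hr⟩

/-- the transforms of the basic weights -/
lemma basic {κ : ℝ} (hκ : 0 < κ) (n : ℕ) : ∃ k : ℝ → ℝ, SC k ∧ (∀ x, k (-x) = -k x) ∧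
    (∀ α, κ < |α| → k α = 0) ∧ ∀ x, 2 * Real.pi * ST k x = x ^ (2 * n + 1) * gw κ hκ x := by
  have hpi := Real.pi_pos
  obtain ⟨h1, h2⟩ := ST_iter (B2_SC hκ) n
  set c : ℝ := (-1) ^ (n + 1) / (2 * Real.pi) ^ (2 * n + 2) with hc
  refine ⟨fun x => c * deriv^[2 * n + 1] (B2 κ hκ) x, ⟨contDiff_const.mul h1.sm, h1.cs.mul_left⟩,
    fun x => ?_, fun α hα => ?_, fun x => ?_⟩
  · simp only []
    rw [iter_odd (B2_even hκ) n x]
    ring
  · simp only []
    rw [iter_supp (fun x hx => B2_zero hκ hx) _ α hα, mul_zero]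
  · have e : ST (fun x => c * deriv^[2 * n + 1] (B2 κ hκ) x) x =
        c * ST (deriv^[2 * n + 1] (B2 κ hκ)) x := by
      unfold ST
      rw [← integral_const_mul]
      congr 1
      funext α
      ring
    rw [e, h2 x, hc]
    unfold gw
    have h3 : ((-1 : ℝ) ^ (n + 1)) * (-1) ^ (n + 1) = 1 := by
      rw [← mul_pow]
      norm_num
    rw [mul_pow (2 * Real.pi) x]
    have h4 : (2 * Real.pi) ^ (2 * n + 2) = (2 * Real.pi) ^ (2 * n + 1) * (2 * Real.pi) := by ring
    rw [h4]
    have h5 : (2 * Real.pi) ^ (2 * n + 1) ≠ 0 := by positivity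
    field_simp
    linear_combination (x ^ (2 * n + 1) * CT (B2 κ hκ) x) * h3

/-- the transforms of the weights multiplied by a cosine -/
lemma ST_shift {k : ℝ → ℝ} (H : SC k) (ξ x : ℝ) :
    ST (fun α => (k (α - ξ) + k (α + ξ)) / 2) x = ST k x * Real.cos (2 * Real.pi * ξ * x) := by
  have i1 : ∀ η : ℝ, Integrable fun α : ℝ => k α * Real.sin (2 * Real.pi * (α + η) * x) := by
    intro η
    exact (H.cont.mul (by fun_prop)).integrable_of_hasCompactSupport H.cs.mul_right
  have e1 : ∀ η : ℝ, ∫ α : ℝ, k (α - η) * Real.sin (2 * Real.pi * α * x) =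
      ∫ α : ℝ, k α * Real.sin (2 * Real.pi * (α + η) * x) := by
    intro η
    have := integral_sub_right_eq_self (μ := volume)
      (fun α : ℝ => k α * Real.sin (2 * Real.pi * (α + η) * x)) η
    rw [← this]
    congr 1
    funext α
    rw [sub_add_cancel]
  have e2 : ∫ α : ℝ, k (α + ξ) * Real.sin (2 * Real.pi * α * x) =
      ∫ α : ℝ, k α * Real.sin (2 * Real.pi * (α + -ξ) * x) := by
    rw [← e1 (-ξ)]
    simp only [sub_neg_eq_add]
  have i3 : ∀ η : ℝ, Integrable fun α : ℝ => k (α - η) * Real.sin (2 * Real.pi * α * x) := by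
    intro η
    have := (i1 η).comp_sub_right η
    refine this.congr (ae_of_all _ fun α => ?_)
    simp
  have i4 : Integrable fun α : ℝ => k (α + ξ) * Real.sin (2 * Real.pi * α * x) := by
    have := i3 (-ξ)
    simpa only [sub_neg_eq_add] using this
  unfold ST
  have e3 : ∀ α : ℝ, (k (α - ξ) + k (α + ξ)) / 2 * Real.sin (2 * Real.pi * α * x) =
      (1 / 2) * (k (α - ξ) * Real.sin (2 * Real.pi * α * x) +
        k (α + ξ) * Real.sin (2 * Real.pi * α * x)) := fun α => by ring
  simp_rw [e3]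
  rw [integral_const_mul, integral_add (i3 ξ) i4, e1 ξ, e2, ← integral_add (i1 ξ) (i1 (-ξ)),
    ← integral_mul_const, ← integral_const_mul]
  congr 1
  funext α
  have s1 : Real.sin (2 * Real.pi * (α + ξ) * x) =
      Real.sin (2 * Real.pi * α * x) * Real.cos (2 * Real.pi * ξ * x) +
      Real.cos (2 * Real.pi * α * x) * Real.sin (2 * Real.pi * ξ * x) := by
    rw [← Real.sin_add]
    congr 1
    ring
  have s2 : Real.sin (2 * Real.pi * (α + -ξ) * x) =
      Real.sin (2 * Real.pi * α * x) * Real.cos (2 * Real.pi * ξ * x) -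
      Real.cos (2 * Real.pi * α * x) * Real.sin (2 * Real.pi * ξ * x) := by
    rw [← Real.sin_sub]
    congr 1
    ring
  rw [s1, s2]
  ring

/-- the basic tests, multiplied by a cosine -/
theorem testc {κ : ℝ} (hκ : 0 < κ) (n : ℕ) (ξ : ℝ) :
    ∃ r, Test (fun x => x ^ (2 * n + 1) * gw κ hκ x * Real.cos (2 * Real.pi * ξ * x)) r
      (κ + |ξ|) := by
  obtain ⟨k, hk, ho, hs, hST⟩ := basic hκ n
  refine mk_test (k := fun α => (k (α - ξ) + k (α + ξ)) / 2) ⟨?_, ?_⟩ ?_ ?_
    (by positivity) (fun x => ?_) ?_ ?_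
  · have h1 : ContDiff ℝ (⊤ : ℕ∞) fun α : ℝ => k (α - ξ) :=
      hk.sm.comp (contDiff_id.sub contDiff_const)
    have h2 : ContDiff ℝ (⊤ : ℕ∞) fun α : ℝ => k (α + ξ) :=
      hk.sm.comp (contDiff_id.add contDiff_const)
    exact (h1.add h2).div_const 2
  · refine HasCompactSupport.intro (isCompact_Icc (a := -(κ + |ξ|)) (b := κ + |ξ|)) fun x hx => ?_
    have hx2 : κ + |ξ| < |x| := by
      by_contra hcon
      push Not at hcon
      exact hx (abs_le.1 hcon)
    have h1 : κ < |x - ξ| := by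
      have := abs_sub_abs_le_abs_sub x ξ
      linarith
    have h2 : κ < |x + ξ| := by
      have := abs_sub_abs_le_abs_sub x (-ξ)
      rw [abs_neg, sub_neg_eq_add] at this
      linarith
    rw [hs _ h1, hs _ h2]
    simp
  · have h1 := ho ξ
    simp only [zero_sub, zero_add]
    rw [h1]
    ring
  · intro x hx2
    have h1 : κ < |x - ξ| := by
      have := abs_sub_abs_le_abs_sub x ξ
      linarith
    have h2 : κ < |x + ξ| := by
      have := abs_sub_abs_le_abs_sub x (-ξ)
      rw [abs_neg, sub_neg_eq_add] at this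
      linarith
    rw [hs _ h1, hs _ h2]
    simp
  · rw [ST_shift hk, ← mul_assoc, hST]
  · have := gw_cont hκ
    fun_prop
  · intro m
    obtain ⟨A, hA⟩ := gw_dec hκ (m + (2 * n + 1))
    refine ⟨A, fun x hx => le_trans ?_ (hA x hx)⟩
    have hg := gw_nonneg hκ x
    rw [abs_mul, abs_of_nonneg (mul_nonneg (pow_nonneg hx _) hg)]
    have h1 := Real.abs_cos_le_one (2 * Real.pi * ξ * x)
    have h2 : 0 ≤ x ^ m * (x ^ (2 * n + 1) * gw κ hκ x) := by positivity
    have h3 : x ^ (m + (2 * n + 1)) * gw κ hκ x = x ^ m * (x ^ (2 * n + 1) * gw κ hκ x) := by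
      rw [pow_add]
      ring
    rw [h3, ← mul_assoc]
    exact mul_le_of_le_one_right h2 h1

/-- the family of test functions used below -/
theorem tests {κ : ℝ} (hκ : 0 < κ) (n : ℕ) :
    ∃ r, Test (fun x => x ^ (2 * n + 1) * gw κ hκ x) r κ := by
  obtain ⟨r, H⟩ := testc hκ n 0
  simp only [mul_zero, zero_mul, Real.cos_zero, mul_one, abs_zero, add_zero] at H
  exact ⟨r, H⟩

end Pool.Agent.N804
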