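import Pool.Agent.N804.LimEnd

set_option autoImplicit false

/-! # The lower half of the conjecture at large distances -/

namespace Pool.Agent.N804

open Filter Topology Set MeasureTheory
open H370 (Zf)

/-- normalised number of bad zeros up to `T` -/
noncomputable def BF (T : ℝ) : ℝ := Nbad (Zf riemannZeta 0 T) / XX T

lemma CF_mono {T : ℝ} (hT : 1 < T) {x y : ℝ} (h : x ≤ y) : CF T x ≤ CF T y := by
  unfold CF
  have hL : 0 < Real.log T := Real.log_pos hT
  have hpi := Real.pi_pos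
  refine div_le_div_of_nonneg_right (Pc_mono _ ?_) (XX_pos hT).le
  gcongr

/-- convergence of the true counts from convergence of the averaged ones -/
lemma conv_CF {T : ℕ → ℝ} (hT : Tendsto T atTop atTop) {Φ : ℝ → ℝ}
    (hΦ : ∀ x, 0 < x → Φ x = PP x)
    (hc : ∀ᵐ x, Tendsto (fun k => ct (T k) x) atTop (𝓝 (Φ x))) {a : ℝ} (ha : 0 < a) :
    Tendsto (fun k => CF (T k) a) atTop (𝓝 (PP a)) := by
  obtain ⟨B, Tp, hB, hTp, hp⟩ := ct_props
  refine tendsto_order.2 ⟨fun b hb => ?_, fun b hb => ?_⟩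
  · set ε : ℝ := (PP a - b) / 3 with hε
    have hε0 : 0 < ε := by rw [hε]; linarith
    set η : ℝ := min (1 / 2) (ε / a / 2) with hη
    have hη0 : 0 < η := lt_min (by norm_num) (by positivity)
    have hη1 : η < 1 := lt_of_le_of_lt (min_le_left _ _) (by norm_num)
    have hηa : η * a ≤ ε / 2 := by
      calc η * a ≤ (ε / a / 2) * a := by
            have := min_le_right (1 / 2 : ℝ) (ε / a / 2)
            gcongr
        _ = ε / 2 := by field_simp
    have hz0 : 0 < (1 - η) * a := mul_pos (by linarith) ha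
    obtain ⟨y, hy, hyc⟩ := ae_Ioo hc (show max 0 ((1 - η) * a - ε / 2) < (1 - η) * a from
      max_lt hz0 (by linarith))
    have hy0 : 0 < y := lt_of_le_of_lt (le_max_left _ _) hy.1
    have hy1 : (1 - η) * a - ε / 2 < y := lt_of_le_of_lt (le_max_right _ _) hy.1
    obtain ⟨T0, hT0, hge⟩ := CF_ge ha.le hη0 hη1 (ε := ε) hε0
    have h1 : PP a - ε ≤ Φ y := by
      rw [hΦ y hy0]
      have hya : y ≤ a := by nlinarith [hy.2]
      have := PP_lip hya
      nlinarith
    have h2 : Φ y - ε < Φ y := by linarith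
    filter_upwards [hyc.eventually (lt_mem_nhds h2), hT.eventually_ge_atTop (max T0 Tp)] with k hk hkT
    have h3 := hge (T k) ((le_max_left _ _).trans hkT)
    have h4 := (hp (T k) ((le_max_right _ _).trans hkT)).1 hy.2.le
    have h5 : PP a - b = 3 * ε := by rw [hε]; ring
    linarith
  · set ε : ℝ := (b - PP a) / 3 with hε
    have hε0 : 0 < ε := by rw [hε]; linarith
    obtain ⟨y, hy, hyc⟩ := ae_Ioo hc (show a < a + ε by linarith)
    have hy0 : 0 < y := ha.trans hy.1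
    obtain ⟨T0, hT0, hle⟩ := CF_le ha.le (ε := ε / 2) (by positivity)
    have h1 : Φ y ≤ PP a + ε := by
      rw [hΦ y hy0]
      have := PP_lip hy.1.le
      linarith [hy.2]
    have h2 : Φ y < Φ y + ε := by linarith
    filter_upwards [hyc.eventually (gt_mem_nhds h2), hT.eventually_ge_atTop (max T0 Tp)] with k hk hkT
    have h3 := hle (T k) ((le_max_left _ _).trans hkT)
    have h4 := (hp (T k) ((le_max_right _ _).trans hkT)).1 hy.1.le
    have h5 : b - PP a = 3 * ε := by rw [hε]; ring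
    linarith

/-- bounds for the limit from lower bounds for the counts -/
lemma low_limit {T : ℕ → ℝ} (hT : Tendsto T atTop atTop) {Φ : ℝ → ℝ} {x m : ℝ} (hx : 0 < x)
    (hc : Tendsto (fun k => ct (T k) x) atTop (𝓝 (Φ x)))
    (h : ∀ ε : ℝ, 0 < ε → ∃ T0 : ℝ, ∀ T : ℝ, T0 ≤ T → m - ε ≤ CF T x) : m ≤ Φ x := by
  refine le_of_forall_pos_le_add fun ε hε => ?_
  obtain ⟨T0, hT0⟩ := h (ε / 2) (by positivity)
  obtain ⟨T1, hT1, hle⟩ := CF_le hx.le (ε := ε / 2) (by positivity)
  have h1 : m - ε ≤ Φ x := by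
    refine ge_of_tendsto hc ?_
    filter_upwards [hT.eventually_ge_atTop (max T0 T1)] with k hk
    have h2 := hT0 (T k) ((le_max_left _ _).trans hk)
    have h3 := hle (T k) ((le_max_right _ _).trans hk)
    linarith
  linarith

/-- bounds for the limit from upper bounds for the counts -/
lemma upp_limit {T : ℕ → ℝ} (hT : Tendsto T atTop atTop) {Φ : ℝ → ℝ} {x : ℝ} (hx : 0 < x)
    (hc : Tendsto (fun k => ct (T k) x) atTop (𝓝 (Φ x))) {F : ℝ → ℝ}
    (hF : ∀ ε : ℝ, 0 < ε → ∃ δ : ℝ, 0 < δ ∧ ∀ y, x ≤ y → y ≤ x + δ → F y ≤ F x + ε)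
    (h : ∀ y, x ≤ y → ∀ ε : ℝ, 0 < ε → ∃ T0 : ℝ, ∀ T : ℝ, T0 ≤ T → CF T y ≤ F y + ε) :
    Φ x ≤ F x := by
  refine le_of_forall_pos_le_add fun ε hε => ?_
  obtain ⟨δ, hδ, hFδ⟩ := hF (ε / 3) (by positivity)
  set y : ℝ := x + δ with hy
  have hy0 : 0 < y := by rw [hy]; linarith
  set η : ℝ := δ / y with hη
  have hη0 : 0 < η := by positivity
  have hη1 : η < 1 := by
    rw [hη, div_lt_one hy0]
    linarith
  have hxy : (1 - η) * y = x := by
    rw [hη, hy]
    field_simp
    ring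
  obtain ⟨T0, hT0⟩ := h y (by linarith) (ε / 3) (by positivity)
  obtain ⟨T1, hT1, hge⟩ := CF_ge hy0.le hη0 hη1 (ε := ε / 3) (by positivity)
  have h4 := hFδ y (by linarith) (by linarith)
  refine le_of_tendsto hc ?_
  filter_upwards [hT.eventually_ge_atTop (max T0 T1)] with k hk
  have h2 := hT0 (T k) ((le_max_left _ _).trans hk)
  have h3 := hge (T k) ((le_max_right _ _).trans hk)
  rw [hxy] at h3
  linarith

lemma vt_of_BF (h : Tendsto BF atTop (𝓝 0)) : Tendsto vt atTop (𝓝 0) := by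
  rw [Metric.tendsto_atTop] at h ⊢
  intro ε hε
  obtain ⟨T0, hT0⟩ := h (ε / 2) (by positivity)
  obtain ⟨T1, hT1, hb⟩ := bad_cmp (ε := ε / 3) (by positivity)
  refine ⟨max T0 T1, fun T hT => ?_⟩
  have h1 := hT0 T ((le_max_left _ _).trans hT)
  have h2 := hb T ((le_max_right _ _).trans hT)
  rw [Real.dist_eq, sub_zero] at h1 ⊢
  have h3 : vt T = BF T - (BF T - vt T) := by ring
  rw [h3]
  calc |BF T - (BF T - vt T)| ≤ |BF T| + |BF T - vt T| := abs_sub _ _
    _ < ε := by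
      have : |BF T - vt T| ≤ ε / 3 := h2
      linarith

lemma BF_of_vt (h : Tendsto vt atTop (𝓝 0)) : Tendsto BF atTop (𝓝 0) := by
  rw [Metric.tendsto_atTop] at h ⊢
  intro ε hε
  obtain ⟨T0, hT0⟩ := h (ε / 2) (by positivity)
  obtain ⟨T1, hT1, hb⟩ := bad_cmp (ε := ε / 3) (by positivity)
  refine ⟨max T0 T1, fun T hT => ?_⟩
  have h1 := hT0 T ((le_max_left _ _).trans hT)
  have h2 := hb T ((le_max_right _ _).trans hT)
  rw [Real.dist_eq, sub_zero] at h1 ⊢
  have h3 : BF T = vt T + (BF T - vt T) := by ring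
  rw [h3]
  calc |vt T + (BF T - vt T)| ≤ |vt T| + |BF T - vt T| := abs_add_le _ _
    _ < ε := by
      have : |BF T - vt T| ≤ ε / 3 := h2
      linarith

/-- the conclusion from a property of all limit objects -/
theorem of_limits
    (h : ∀ T : ℕ → ℝ, Tendsto T atTop atTop → ∀ (Φ : ℝ → ℝ) (μ ν e : ℝ), LO Φ μ ν e →
      (∀ᵐ x, Tendsto (fun k => ct (T k) x) atTop (𝓝 (Φ x))) →
      Tendsto (fun k => mt (T k)) atTop (𝓝 μ) → Tendsto (fun k => vt (T k)) atTop (𝓝 ν) →
      Tendsto (fun k => et (T k)) atTop (𝓝 e) →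
      μ = 1 ∧ ν = 0 ∧ ∀ x, 0 < x → Φ x = PP x) :
    (∀ a, 0 < a → Tendsto (fun T => CF T a) atTop (𝓝 (PP a))) ∧ Tendsto BF atTop (𝓝 0) := by
  constructor
  · intro a ha
    refine tendsto_of_subseq_tendsto fun T hT => ?_
    obtain ⟨ψ, hψ, Φ, μ, ν, e, H, h1, h2, h3, h4⟩ := extract hT
    have hT' : Tendsto (fun k => T (ψ k)) atTop atTop := hT.comp hψ.tendsto_atTop
    obtain ⟨-, -, h7⟩ := h (fun k => T (ψ k)) hT' Φ μ ν e H h1 h2 h3 h4
    exact ⟨ψ, conv_CF hT' h7 h1 ha⟩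
  · refine BF_of_vt (tendsto_of_subseq_tendsto fun T hT => ?_)
    obtain ⟨ψ, hψ, Φ, μ, ν, e, H, h1, h2, h3, h4⟩ := extract hT
    have hT' : Tendsto (fun k => T (ψ k)) atTop atTop := hT.comp hψ.tendsto_atTop
    obtain ⟨-, h6, -⟩ := h (fun k => T (ψ k)) hT' Φ μ ν e H h1 h2 h3 h4
    rw [h6] at h3
    exact ⟨ψ, h3⟩

/-- lower half at large distances -/
theorem lower_half {K c R : ℝ} (hc : 0 < c)
    (h : ∀ a, R ≤ a → ∀ ε : ℝ, 0 < ε → ∃ T0 : ℝ, ∀ T : ℝ, T0 ≤ T →
      PP a - K * Real.exp (-(c * a)) - ε ≤ CF T a) :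
    (∀ a, 0 < a → Tendsto (fun T => CF T a) atTop (𝓝 (PP a))) ∧ Tendsto BF atTop (𝓝 0) := by
  refine of_limits fun T hT Φ μ ν e H h1 _ _ _ => ?_
  set K' : ℝ := |K| + |R| * Real.exp (c * |R|) with hK'
  refine limA H (K := K') hc ?_
  obtain ⟨B, hB, hbd⟩ := H.bd
  filter_upwards [h1] with x hx hx0
  have he := (Real.exp_pos (-(c * x))).le
  have hR1 : 0 ≤ |R| * Real.exp (c * |R|) := by positivity
  rcases le_or_gt R x with hRx | hRx
  · have h2 := low_limit hT hx0 hx (m := PP x - K * Real.exp (-(c * x))) (h x hRx)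
    have h3 : K * Real.exp (-(c * x)) ≤ K' * Real.exp (-(c * x)) := by
      have := le_abs_self K
      gcongr
      linarith
    linarith
  · have h2 := (hbd x hx0.le).1
    have h3 := PP_le hx0.le
    have h4 : |R| ≤ K' * Real.exp (-(c * x)) := by
      have h5 : 1 ≤ Real.exp (c * |R|) * Real.exp (-(c * x)) := by
        rw [← Real.exp_add]
        refine Real.one_le_exp ?_
        have := le_abs_self R
        nlinarith
      have h6 : 0 ≤ |K| * Real.exp (-(c * x)) := by positivity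
      calc |R| = |R| * 1 := (mul_one _).symm
        _ ≤ |R| * (Real.exp (c * |R|) * Real.exp (-(c * x))) := by gcongr
        _ ≤ K' * Real.exp (-(c * x)) := by rw [hK']; nlinarith
    have h7 := le_abs_self R
    linarith

/-- upper half at large distances, for few bad zeros -/
theorem upper_half {K c R : ℝ} (hc : 0 < c) (hB : Tendsto BF atTop (𝓝 0))
    (h : ∀ a, R ≤ a → ∀ ε : ℝ, 0 < ε → ∃ T0 : ℝ, ∀ T : ℝ, T0 ≤ T →
      CF T a ≤ PP a + K * Real.exp (-(c * a)) + ε) :
    (∀ a, 0 < a → Tendsto (fun T => CF T a) atTop (𝓝 (PP a))) ∧ Tendsto BF atTop (𝓝 0) := by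
  refine of_limits fun T hT Φ μ ν e H h1 _ h3 _ => ?_
  have hν : ν = 0 := tendsto_nhds_unique h3 ((vt_of_BF hB).comp hT)
  have hμ := H.mu2 hν
  obtain ⟨B, hB0, hbd⟩ := H.bd
  set M : ℝ := B * (1 + |R|) with hM
  set K' : ℝ := |K| + M * Real.exp (c * |R|) with hK'
  refine limA' H hμ (K := K') hc ?_
  filter_upwards [h1] with x hx hx0
  have he := (Real.exp_pos (-(c * x))).le
  have hM0 : 0 ≤ M := by positivity
  have hR1 : 0 ≤ M * Real.exp (c * |R|) := by positivity
  rcases le_or_gt R x with hRx | hRx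
  · have h2 := upp_limit hT hx0 hx (F := fun y => PP y + |K| * Real.exp (-(c * y))) (by
      intro ε hε
      refine ⟨ε, hε, fun y hy1 hy2 => ?_⟩
      have h4 := PP_lip hy1
      have h5 : Real.exp (-(c * y)) ≤ Real.exp (-(c * x)) := Real.exp_le_exp.2 (by nlinarith)
      have h6 : |K| * Real.exp (-(c * y)) ≤ |K| * Real.exp (-(c * x)) := by gcongr
      linarith) (by
      intro y hy ε hε
      obtain ⟨T0, hT0⟩ := h y (hRx.trans hy) ε hε
      refine ⟨T0, fun T hT => (hT0 T hT).trans ?_⟩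
      have h5 : K * Real.exp (-(c * y)) ≤ |K| * Real.exp (-(c * y)) :=
        mul_le_mul_of_nonneg_right (le_abs_self K) (Real.exp_pos _).le
      linarith)
    have h3 : |K| * Real.exp (-(c * x)) ≤ K' * Real.exp (-(c * x)) := by
      gcongr
      linarith
    linarith
  · have h2 := (hbd x hx0.le).2
    have h3 := PP_nonneg hx0.le
    have h7 : x ≤ |R| := hRx.le.trans (le_abs_self R)
    have h8 : Φ x ≤ M := h2.trans (by rw [hM]; gcongr)
    have h4 : M ≤ K' * Real.exp (-(c * x)) := by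
      have h5 : 1 ≤ Real.exp (c * |R|) * Real.exp (-(c * x)) := by
        rw [← Real.exp_add]
        refine Real.one_le_exp ?_
        nlinarith
      have h6 : 0 ≤ |K| * Real.exp (-(c * x)) := by positivity
      calc M = M * 1 := (mul_one _).symm
        _ ≤ M * (Real.exp (c * |R|) * Real.exp (-(c * x))) := by gcongr
        _ ≤ K' * Real.exp (-(c * x)) := by rw [hK']; nlinarith
    linarith

end Pool.Agent.N804
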