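import Pool.Agent.N804.Abs2

set_option autoImplicit false

/-! # If the functional vanishes then the function vanishes -/

namespace Pool.Agent.N804

open Filter Topology Set MeasureTheory

lemma sinc_smooth : ContDiff ℝ (⊤ : ℕ∞) Real.sinc := by
  have h1 : Differentiable ℂ (dslope Complex.sin 0) := by
    have := (Complex.differentiableOn_dslope (f := Complex.sin) (s := univ) (c := 0)
      univ_mem).2 Complex.differentiable_sin.differentiableOn
    exact differentiableOn_univ.1 this
  have h2 : ContDiff ℂ (⊤ : ℕ∞) (dslope Complex.sin 0) := h1.contDiff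
  have h3 : ContDiff ℝ (⊤ : ℕ∞) fun x : ℝ => (dslope Complex.sin 0 (x : ℂ)).re :=
    Complex.reCLM.contDiff.comp ((h2.restrict_scalars ℝ).comp Complex.ofRealCLM.contDiff)
  have e : Real.sinc = fun x : ℝ => (dslope Complex.sin 0 (x : ℂ)).re := by
    funext x
    by_cases hx : x = 0
    · rw [hx, Real.sinc_zero, Complex.ofReal_zero, dslope_same, Complex.deriv_sin, Complex.cos_zero,
        Complex.one_re]
    · rw [Real.sinc_of_ne_zero hx, dslope_of_ne _ (by exact_mod_cast hx), slope_def_field,
        Complex.sin_zero, sub_zero, sub_zero, ← Complex.ofReal_sin, ← Complex.ofReal_div,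
        Complex.ofReal_re]
  rw [e]
  exact h3

/-- the transform of an interval -/
noncomputable def sk (h α : ℝ) : ℝ := 2 * h * Real.sinc (2 * Real.pi * h * α)

lemma sk_smooth (h : ℝ) : ContDiff ℝ (⊤ : ℕ∞) (sk h) := by
  unfold sk
  exact contDiff_const.mul (sinc_smooth.comp (contDiff_const.mul contDiff_id))

lemma sk_mul (h α : ℝ) : α * sk h α = Real.sin (2 * Real.pi * h * α) / Real.pi := by
  have hpi := Real.pi_pos
  unfold sk
  by_cases hz : 2 * Real.pi * h * α = 0
  · rw [hz, Real.sin_zero, zero_div]
    have : h * α = 0 := by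
      have h2 : 2 * Real.pi ≠ 0 := by positivity
      have h3 : 2 * Real.pi * (h * α) = 0 := by rw [← hz]; ring
      exact (mul_eq_zero.1 h3).resolve_left h2
    rw [Real.sinc_zero]
    linear_combination 2 * this
  · rw [Real.sinc_of_ne_zero hz]
    have hh : h ≠ 0 := by
      rintro rfl
      simp at hz
    have hα : α ≠ 0 := by
      rintro rfl
      simp at hz
    field_simp

lemma tw_sk {b : ℝ → ℝ} (H : SC b) (h x : ℝ) :
    tw (fun α => b α * sk h α) x = CT b (x - h) - CT b (x + h) := by
  have hpi := Real.pi_pos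
  rw [win_ST H]
  unfold tw ST
  rw [← integral_const_mul]
  congr 1
  funext α
  simp only []
  have e : α * (b α * sk h α) = b α * (α * sk h α) := by ring
  rw [e, sk_mul]
  have e2 : 2 * Real.pi * h * α = 2 * Real.pi * α * h := by ring
  rw [e2]
  field_simp

lemma CT_scale {g : ℝ → ℝ} {L : ℝ} (hL : 0 < L) (u : ℝ) :
    CT (fun s => g (s / L)) u = L * CT g (L * u) := by
  unfold CT
  have e := Measure.integral_comp_div (fun β : ℝ => g β * Real.cos (2 * Real.pi * β * (L * u))) L
  have e2 : ∀ α : ℝ, g (α / L) * Real.cos (2 * Real.pi * α * u) =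
      g (α / L) * Real.cos (2 * Real.pi * (α / L) * (L * u)) := by
    intro α
    have : 2 * Real.pi * (α / L) * (L * u) = 2 * Real.pi * α * u := by field_simp
    rw [this]
  simp_rw [e2]
  rw [e, abs_of_pos hL, smul_eq_mul]

/-- if the functional vanishes then `G` vanishes at the points of continuity -/
theorem van {G : ℝ → ℝ} (hG : LG G) (hD : ∀ r : ℝ → ℝ, SC r → DD G r = 0) {h : ℝ} (hh : 0 < h)
    (hc : ContinuousAt G h) : G h = 0 := by
  obtain ⟨B, hB, hGB⟩ := hG.bd
  -- a bump
  obtain ⟨g, hgd⟩ : ∃ g : ℝ → ℝ, g = fun x => big 1 one_pos x := ⟨_, rfl⟩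
  have Hg : SC g := by rw [hgd]; exact big_SC one_pos
  have hge : ∀ x, g (-x) = g x := by rw [hgd]; exact (big 1 one_pos).neg
  have hg0 : g 0 = 1 := by rw [hgd]; exact big_one one_pos (by simp)
  have hmass : ∫ x : ℝ, CT g x = 1 := by rw [CT_mass Hg hge, hg0]
  have hCc := CT_cont Hg
  -- the odd extension
  have hodB : ∀ x, |od G x| ≤ B * (1 + |x|) := fun x => od_bd hB hGB x
  have hodm : Measurable (od G) := od_meas hG.meas
  have hodc : ContinuousAt (od G) h := by
    refine hc.congr ?_
    filter_upwards [lt_mem_nhds hh] with x hx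
    exact (od_pos hx).symm
  -- the identity for every L
  have key : ∀ L : ℝ, 0 < L → ∫ y : ℝ, CT g y * od G (h + y / L) = 0 := by
    intro L hL
    have Hb := scale_SC Hg hL
    have h1 := hD _ (Hb.mulS (sk_smooth h))
    unfold DD at h1
    simp_rw [tw_sk Hb] at h1
    -- integrability
    obtain ⟨A, hA0, hA⟩ := CT_decp Hb 3
    have hbc := CT_cont Hb
    have hint : Integrable fun x : ℝ => CT (fun s => g (s / L)) (x - h) * od G x := by
      refine Integrable.mono' ((integrable_inv_one_add_sq.comp_sub_right h).const_mul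
        (A * (B * (1 + h)))) ((hbc.comp (by fun_prop)).measurable.mul hodm).aestronglyMeasurable
        (ae_of_all _ fun x => ?_)
      have k1 := hA (x - h)
      have k2 := hodB x
      have hu := abs_nonneg (x - h)
      rw [Real.norm_eq_abs, abs_mul, ← div_eq_mul_inv, le_div_iff₀ (by positivity)]
      have k3 : 1 + |x| ≤ (1 + h) * (1 + |x - h|) := by
        have : |x| ≤ |x - h| + h := by
          have := abs_add_le (x - h) h
          rw [sub_add_cancel, abs_of_pos hh] at this
          exact this
        nlinarith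
      have k4 : 1 + (x - h) ^ 2 ≤ (1 + |x - h|) ^ 2 := by
        rw [← sq_abs (x - h)]
        nlinarith
      calc |CT (fun s => g (s / L)) (x - h)| * |od G x| * (1 + (x - h) ^ 2) ≤
          |CT (fun s => g (s / L)) (x - h)| * (B * ((1 + h) * (1 + |x - h|))) *
            (1 + |x - h|) ^ 2 := by
            gcongr
            exact k2.trans (by gcongr)
        _ = ((1 + |x - h|) ^ 3 * |CT (fun s => g (s / L)) (x - h)|) * (B * (1 + h)) := by ring
        _ ≤ A * (B * (1 + h)) := by gcongr
    have e1 : ∫ x in Ioi (0 : ℝ), (CT (fun s => g (s / L)) (x - h) -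
        CT (fun s => g (s / L)) (x + h)) * G x =
        ∫ x : ℝ, CT (fun s => g (s / L)) (x - h) * od G x := by
      have e2 := integral_add_compl (measurableSet_Iic (a := (0 : ℝ))) hint
      rw [compl_Iic] at e2
      have e3 : ∫ x in Iic (0 : ℝ), CT (fun s => g (s / L)) (x - h) * od G x =
          ∫ x in Ioi (0 : ℝ), -(CT (fun s => g (s / L)) (x + h) * od G x) := by
        have e4 := integral_comp_neg_Ioi (0 : ℝ) (fun x =>
          CT (fun s => g (s / L)) (x - h) * od G x)
        rw [neg_zero] at e4
        rw [← e4]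
        refine setIntegral_congr_fun measurableSet_Ioi fun x _ => ?_
        show CT (fun s => g (s / L)) (-x - h) * od G (-x) = -(CT (fun s => g (s / L)) (x + h) * od G x)
        rw [od_odd, show -x - h = -(x + h) by ring, CT_evenf]
        ring
      rw [← e2, e3, ← integral_add]
      · refine setIntegral_congr_fun measurableSet_Ioi fun x hx => ?_
        show (CT (fun s => g (s / L)) (x - h) - CT (fun s => g (s / L)) (x + h)) * G x =
          -(CT (fun s => g (s / L)) (x + h) * od G x) + CT (fun s => g (s / L)) (x - h) * od G x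
        rw [od_pos hx]
        ring
      · have hn := hint.comp_neg.integrableOn (s := Ioi (0 : ℝ))
        refine hn.congr_fun (fun x _ => ?_) measurableSet_Ioi
        show CT (fun s => g (s / L)) (-x - h) * od G (-x) = -(CT (fun s => g (s / L)) (x + h) * od G x)
        rw [od_odd, show -x - h = -(x + h) by ring, CT_evenf]
        ring
      · exact hint.integrableOn
    rw [e1] at h1
    -- substitution
    have e5 : ∫ x : ℝ, CT (fun s => g (s / L)) (x - h) * od G x =
        ∫ y : ℝ, CT (fun s => g (s / L)) y * od G (y + h) := by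
      rw [← integral_sub_right_eq_self (fun y : ℝ => CT (fun s => g (s / L)) y * od G (y + h)) h]
      simp only [sub_add_cancel]
    rw [e5] at h1
    simp_rw [CT_scale hL] at h1
    have e6 := Measure.integral_comp_mul_left (fun y : ℝ => CT g y * od G (h + y / L)) L
    have e7 : ∀ y : ℝ, L * CT g (L * y) * od G (y + h) =
        L * (CT g (L * y) * od G (h + L * y / L)) := by
      intro y
      rw [mul_div_cancel_left₀ _ hL.ne', add_comm h y]
      ring
    simp_rw [e7] at h1
    rw [integral_const_mul, e6, abs_of_pos (inv_pos.2 hL), smul_eq_mul, ← mul_assoc,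
      mul_inv_cancel₀ hL.ne', one_mul] at h1
    exact h1
  -- the limit
  obtain ⟨A, hA0, hA⟩ := CT_decp Hg 3
  have hlim : Tendsto (fun n : ℕ => ∫ y : ℝ, CT g y * od G (h + y / ((n : ℝ) + 1))) atTop
      (𝓝 (∫ y : ℝ, CT g y * od G h)) := by
    refine tendsto_integral_of_dominated_convergence
      (fun y => A * (B * (1 + h)) * (1 + y ^ 2)⁻¹) (fun n => ?_)
      (integrable_inv_one_add_sq.const_mul _) (fun n => ae_of_all _ fun y => ?_)
      (ae_of_all _ fun y => ?_)
    · exact (hCc.measurable.mul (hodm.comp (by fun_prop))).aestronglyMeasurable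
    · have k1 := hA y
      have k2 := hodB (h + y / ((n : ℝ) + 1))
      have hy := abs_nonneg y
      rw [Real.norm_eq_abs, abs_mul, ← div_eq_mul_inv, le_div_iff₀ (by positivity)]
      have k3 : 1 + |h + y / ((n : ℝ) + 1)| ≤ (1 + h) * (1 + |y|) := by
        have h5 := abs_add_le h (y / ((n : ℝ) + 1))
        have h6 : |y / ((n : ℝ) + 1)| ≤ |y| := by
          rw [abs_div, abs_of_pos (show (0 : ℝ) < (n : ℝ) + 1 by positivity)]
          exact div_le_self hy (by
            have : (0 : ℝ) ≤ n := Nat.cast_nonneg n
            linarith)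
        rw [abs_of_pos hh] at h5
        nlinarith
      have k4 : 1 + y ^ 2 ≤ (1 + |y|) ^ 2 := by
        rw [← sq_abs y]
        nlinarith
      calc |CT g y| * |od G (h + y / ((n : ℝ) + 1))| * (1 + y ^ 2) ≤
          |CT g y| * (B * ((1 + h) * (1 + |y|))) * (1 + |y|) ^ 2 := by
            gcongr
            exact k2.trans (by gcongr)
        _ = ((1 + |y|) ^ 3 * |CT g y|) * (B * (1 + h)) := by ring
        _ ≤ A * (B * (1 + h)) := by gcongr
    · have h5 : Tendsto (fun n : ℕ => h + y / ((n : ℝ) + 1)) atTop (𝓝 h) := by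
        have h6 : Tendsto (fun n : ℕ => (n : ℝ) + 1) atTop atTop :=
          tendsto_natCast_atTop_atTop.atTop_add tendsto_const_nhds
        have h7 := (tendsto_const_nhds (x := y)).div_atTop h6
        simpa using h7.const_add h
      exact (hodc.tendsto.comp h5).const_mul _
  have hz : ∀ n : ℕ, ∫ y : ℝ, CT g y * od G (h + y / ((n : ℝ) + 1)) = 0 := fun n =>
    key _ (by positivity)
  simp_rw [hz] at hlim
  have h8 := tendsto_nhds_unique hlim tendsto_const_nhds
  rw [integral_mul_const, hmass, one_mul, od_pos hh] at h8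
  exact h8

end Pool.Agent.N804
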