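import Pool.Agent.N804.MeanT
import Pool.Agent.N804.Van
import Pool.Agent.N804.FF
import Pool.Agent.N804.One
import Pool.Agent.Y750.OM.Main5

set_option autoImplicit false

/-! # One-sided Montgomery theorem up to the band `1` for the averaged counting functions -/

namespace Pool.Agent.N804

open Filter Topology Set MeasureTheory
open H370 (Zf mult mem_Zf good_zeta zset NN NN_eq)
open Pool.Agent.Y750.OM (NO PO rh bl bl_eq mixed_up main_eq lip_cont NO_nonneg rh_of_bl)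

/-- one-sided theorem in a block -/
theorem block_up {κ0 κ1 : ℝ} (h0 : 0 < κ0) (h1 : κ0 < 2 / 3) (h2 : κ0 < κ1) (h3 : κ1 < 1) :
    ∃ θ : ℝ, 0 < θ ∧ ∀ w r : ℝ → ℝ, Test w r κ1 → (∀ α, κ0 < |α| → 0 ≤ r α) →
    ∀ ε : ℝ, 0 < ε → ∃ C T0 : ℝ, 0 < C ∧ 10 ≤ T0 ∧ ∀ T : ℝ, T0 ≤ T →
      ∫ x in Ioi (0 : ℝ), w x * (cb T x - PP x + (mb T - 1) / 2) ≤ C * (eb T) ^ θ + ε := by
  obtain ⟨θ, hθ, h⟩ := mixed_up h0 h1 h2 h3
  obtain ⟨T1, hT1, hnb⟩ := nb_large
  refine ⟨θ, hθ, fun w r H hpos ε hε => ?_⟩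
  obtain ⟨K, hK⟩ := H.lip
  obtain ⟨A, hA⟩ := H.decay
  have hA' : ∀ u, |bl r u| * (1 + u ^ 2) ≤ A := hA
  obtain ⟨C, T0, hC, hT0, h⟩ := h r K hK H.supp hpos _ (rh_of_bl hA') ε hε
  refine ⟨C, max T0 T1, hC, le_max_of_le_left hT0, fun T hT => ?_⟩
  have hT0' : T0 ≤ T := (le_max_left _ _).trans hT
  have hn1 := hnb T ((le_max_right _ _).trans hT)
  have hn0 : 0 < nb T := by linarith
  have hT10 : 10 ≤ T := hT0.trans hT0'
  have hL : 0 < Real.log T := Real.log_pos (by linarith)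
  have hh := h T hT0'
  have hmain := main_int H
  have hme := main_eq (lip_cont hK) hA' (fun x hx => H.supp x (by linarith))
  have hbl : ∀ u, bl r u = CT r u := fun _ => rfl
  simp_rw [hbl] at hme
  rw [← hme, hmain] at hh
  obtain ⟨hpI, hpS⟩ := pair_int H hL (Zf riemannZeta T (2 * T))
  have hPO : PO (rh r) T (2 * T) (Real.log T) =
      Pe (Zf riemannZeta T (2 * T)) * CT r 0 + 2 * ∫ x in Ioi (0 : ℝ),
        w x * Pc (Zf riemannZeta T (2 * T)) (2 * Real.pi * x / Real.log T) := by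
    rw [← hpS]
    unfold PO
    refine Finset.sum_congr rfl fun s _ => Finset.sum_congr rfl fun s' _ => ?_
    rw [← bl_eq]
    rfl
  rw [hPO] at hh
  have i0 := H.int 0 le_rfl
  simp only [pow_zero, one_mul] at i0
  have hc0 : CT r 0 = ∫ x in Ioi (0 : ℝ), w x := by
    have := H.eq 0
    rwa [abs_zero] at this
  have hwP := wP_int H
  have hcI := cb_int H (T := T) (by linarith)
  have hcc : ∫ x in Ioi (0 : ℝ), w x * Pc (Zf riemannZeta T (2 * T))
      (2 * Real.pi * x / Real.log T) = nb T * ∫ x in Ioi (0 : ℝ), w x * cb T x := by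
    rw [← integral_const_mul]
    congr 1
    funext x
    simp only [cb]
    field_simp
  have e1 : ∫ x in Ioi (0 : ℝ), w x * (1 + 2 * PP x) =
      (∫ x in Ioi (0 : ℝ), w x) + 2 * ∫ x in Ioi (0 : ℝ), w x * PP x := by
    rw [← integral_const_mul, ← integral_add i0 (hwP.const_mul 2)]
    congr 1
    funext x
    ring
  have e2 : ∫ x in Ioi (0 : ℝ), w x * (cb T x - PP x + (mb T - 1) / 2) =
      (∫ x in Ioi (0 : ℝ), w x * cb T x) - (∫ x in Ioi (0 : ℝ), w x * PP x) +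
        (mb T - 1) / 2 * ∫ x in Ioi (0 : ℝ), w x := by
    have i2 : IntegrableOn (fun x => w x * cb T x - w x * PP x) (Ioi 0) := hcI.sub hwP
    rw [← integral_const_mul, ← integral_sub hcI hwP, ← integral_add i2 (i0.const_mul _)]
    congr 1
    funext x
    ring
  have hmb : Pe (Zf riemannZeta T (2 * T)) = nb T * mb T := by
    unfold mb
    field_simp
  rw [hcc, hc0, hmb, e1] at hh
  have hnb' : (NN riemannZeta T (2 * T) : ℝ) = nb T := rfl
  rw [hnb'] at hh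
  have heb : NO T (2 * T) / nb T = eb T := rfl
  rw [heb] at hh
  rw [e2]
  set X := ∫ x in Ioi (0 : ℝ), w x * cb T x
  set Y := ∫ x in Ioi (0 : ℝ), w x * PP x
  set W := ∫ x in Ioi (0 : ℝ), w x
  have heb0 : 0 ≤ eb T := div_nonneg (NO_nonneg _ _) hn0.le
  have hep : 0 ≤ C * (eb T) ^ θ := mul_nonneg hC.le (Real.rpow_nonneg heb0 θ)
  have h5 : 2 * (X - Y + (mb T - 1) / 2 * W) ≤ C * (eb T) ^ θ + ε := by
    refine le_of_mul_le_mul_left ?_ hn0
    linarith
  linarith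

/-- the averaged version -/
theorem agg_up {κ0 κ1 : ℝ} (h0 : 0 < κ0) (h1 : κ0 < 2 / 3) (h2 : κ0 < κ1) (h3 : κ1 < 1)
    {w r : ℝ → ℝ} (H : Test w r κ1) (hpos : ∀ α, κ0 < |α| → 0 ≤ r α) {ε : ℝ} (hε : 0 < ε) :
    ∃ K T0 : ℝ, 0 ≤ K ∧ ∀ T : ℝ, T0 ≤ T →
      ∫ x in Ioi (0 : ℝ), w x * (ct T x - PP x + (mt T - 1) / 2) ≤ K * et T + ε := by
  obtain ⟨θ, hθ, h⟩ := block_up h0 h1 h2 h3
  obtain ⟨C, T1, hC, hT1, hb⟩ := h w r H hpos (ε / 3) (by positivity)
  obtain ⟨T2, hV2⟩ := ct_int H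
  obtain ⟨T5, hT5, hge⟩ := mb_ge
  obtain ⟨T3, hT3, hV⟩ := Vj_large (max T1 T5)
  obtain ⟨K, hK, hsp⟩ := rpow_split hθ (show 0 < ε / 3 / C by positivity)
  set Cw : ℝ := ∫ x in Ioi (0 : ℝ), w x * (PP x + 1 / 2) with hCw
  have iw := w_int H
  have iwP := wP_int H
  obtain ⟨T4, hT4⟩ := half_small (show 0 < ε / 3 / (|Cw| + 1) by positivity)
  refine ⟨C * K, max (max T2 T3) T4, by positivity, fun T hT => ?_⟩
  have g1 : T2 ≤ T := (le_max_left _ _).trans ((le_max_left _ _).trans hT)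
  have g2 : T3 ≤ T := (le_max_right _ _).trans ((le_max_left _ _).trans hT)
  have g3 := hT4 T ((le_max_right _ _).trans hT)
  obtain ⟨ict, ect⟩ := hV2 T g1
  have hVj : ∀ j < Jn T, T1 ≤ Vj T j ∧ T5 ≤ Vj T j := fun j hj =>
    ⟨(le_max_left _ _).trans (hV T g2 j hj), (le_max_right _ _).trans (hV T g2 j hj)⟩
  have hterm : ∀ j < Jn T, ∫ x in Ioi (0 : ℝ), w x * (cb (Vj T j) x - PP x +
      (mb (Vj T j) - 1) / 2) ≤ C * K * eb (Vj T j) + (ε / 3 + ε / 3) := by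
    intro j hj
    refine (hb _ (hVj j hj).1).trans ?_
    obtain ⟨-, h2, -, h3, -⟩ := hge _ (hVj j hj).2
    have h4 := hsp _ h2 h3
    have h5 : C * (eb (Vj T j)) ^ θ ≤ C * (ε / 3 / C + K * eb (Vj T j)) := by gcongr
    have h6 : C * (ε / 3 / C + K * eb (Vj T j)) = ε / 3 + C * K * eb (Vj T j) := by
      field_simp
    linarith
  have hblk : ∀ j < Jn T, ∫ x in Ioi (0 : ℝ), w x * (cb (Vj T j) x - PP x +
      (mb (Vj T j) - 1) / 2) = (∫ x in Ioi (0 : ℝ), w x * cb (Vj T j) x) -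
        (∫ x in Ioi (0 : ℝ), w x * PP x) + (mb (Vj T j) - 1) / 2 * ∫ x in Ioi (0 : ℝ), w x := by
    intro j hj
    have hcI := cb_int H (T := Vj T j) (by linarith [(hVj j hj).1])
    have i2 : IntegrableOn (fun x => w x * cb (Vj T j) x - w x * PP x) (Ioi 0) := hcI.sub iwP
    rw [← integral_const_mul, ← integral_sub hcI iwP, ← integral_add i2 (iw.const_mul _)]
    congr 1
    funext x
    ring
  have havg : avg (fun V => ∫ x in Ioi (0 : ℝ), w x * (cb V x - PP x + (mb V - 1) / 2)) T ≤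
      C * K * et T + (ε / 3 + ε / 3) := by
    refine (avg_le (G := fun V => C * K * eb V + (ε / 3 + ε / 3)) hterm).trans ?_
    rw [avg_add, avg_mul, avg_const]
    have := half_pow_le (Jn T)
    unfold et
    nlinarith
  have e1 : avg (fun V => ∫ x in Ioi (0 : ℝ), w x * (cb V x - PP x + (mb V - 1) / 2)) T =
      (∫ x in Ioi (0 : ℝ), w x * ct T x) -
        (1 - (1 / 2) ^ Jn T) * (∫ x in Ioi (0 : ℝ), w x * PP x) +
        (mt T - (1 - (1 / 2) ^ Jn T)) / 2 * ∫ x in Ioi (0 : ℝ), w x := by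
    have e2 : avg (fun V => ∫ x in Ioi (0 : ℝ), w x * (cb V x - PP x + (mb V - 1) / 2)) T =
        avg (fun V => ((∫ x in Ioi (0 : ℝ), w x * cb V x) -
        (∫ x in Ioi (0 : ℝ), w x * PP x)) + (mb V - 1) / 2 * ∫ x in Ioi (0 : ℝ), w x) T := by
      unfold avg
      refine Finset.sum_congr rfl fun j hj => ?_
      have e := hblk j (Finset.mem_range.1 hj)
      exact congrArg (fun z => (1 / 2 : ℝ) ^ (j + 1) * z) e
    rw [e2, avg_add, avg_sub, avg_const, ← ect]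
    have e3 : avg (fun V => (mb V - 1) / 2 * ∫ x in Ioi (0 : ℝ), w x) T =
        (mt T - (1 - (1 / 2) ^ Jn T)) / 2 * ∫ x in Ioi (0 : ℝ), w x := by
      have : (fun V => (mb V - 1) / 2 * ∫ x in Ioi (0 : ℝ), w x) =
          fun V => ((∫ x in Ioi (0 : ℝ), w x) / 2) * (mb V - 1) := by
        funext V
        ring
      rw [this, avg_mul, avg_sub, avg_const]
      unfold mt
      ring
    rw [e3]
  have e4 : ∫ x in Ioi (0 : ℝ), w x * (ct T x - PP x + (mt T - 1) / 2) =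
      (∫ x in Ioi (0 : ℝ), w x * ct T x) - (∫ x in Ioi (0 : ℝ), w x * PP x) +
        (mt T - 1) / 2 * ∫ x in Ioi (0 : ℝ), w x := by
    have i2 : IntegrableOn (fun x => w x * ct T x - w x * PP x) (Ioi 0) := ict.sub iwP
    rw [← integral_const_mul, ← integral_sub ict iwP, ← integral_add i2 (iw.const_mul _)]
    congr 1
    funext x
    ring
  have e5 : Cw = (∫ x in Ioi (0 : ℝ), w x * PP x) + (1 / 2) * ∫ x in Ioi (0 : ℝ), w x := by
    rw [hCw, ← integral_const_mul, ← integral_add iwP (iw.const_mul _)]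
    congr 1
    funext x
    ring
  rw [e4]
  rw [e1] at havg
  set X := ∫ x in Ioi (0 : ℝ), w x * ct T x
  set Y := ∫ x in Ioi (0 : ℝ), w x * PP x
  set W := ∫ x in Ioi (0 : ℝ), w x
  have e6 : X - Y + (mt T - 1) / 2 * W = (X - (1 - (1 / 2) ^ Jn T) * Y +
      (mt T - (1 - (1 / 2) ^ Jn T)) / 2 * W) - (1 / 2) ^ Jn T * Cw := by
    rw [e5]
    ring
  rw [e6]
  have h5 : |(1 / 2 : ℝ) ^ Jn T * Cw| ≤ ε / 3 := by
    rw [abs_mul, abs_of_nonneg (half_pow_le _).1]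
    calc (1 / 2 : ℝ) ^ Jn T * |Cw| ≤ ε / 3 / (|Cw| + 1) * |Cw| := by gcongr
      _ ≤ ε / 3 / (|Cw| + 1) * (|Cw| + 1) := by gcongr; linarith
      _ = ε / 3 := by field_simp
  have h6 := (abs_le.1 h5).1
  linarith

/-! ## limit data -/

/-- limit data along a sequence of heights -/
structure LD (T : ℕ → ℝ) (Φ : ℝ → ℝ) (μ ν e : ℝ) : Prop where
  hT : Tendsto T atTop atTop
  H : LO Φ μ ν e
  hg : ∀ᵐ x, x ∈ GP T Φ
  hm : Tendsto (fun k => mt (T k)) atTop (𝓝 μ)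
  he : Tendsto (fun k => et (T k)) atTop (𝓝 e)

lemma LD.lg {T : ℕ → ℝ} {Φ : ℝ → ℝ} {μ ν e : ℝ} (h : LD T Φ μ ν e) : LG (Gd Φ μ) := by
  obtain ⟨B, hB, hbd⟩ := Gd_bd h.H
  exact ⟨Gd_meas h.H, B, hB.le, hbd⟩

lemma LD.mf {T : ℕ → ℝ} {Φ : ℝ → ℝ} {μ ν e : ℝ} (h : LD T Φ μ ν e) :
    Tendsto (fun k => MF' (T k)) atTop (𝓝 μ) := by
  have := (mf_lim.comp h.hT).add h.hm
  rw [zero_add] at this
  refine this.congr fun k => ?_
  simp only [Function.comp, MF, MF']
  ring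

/-- the one-sided theorem in the limit -/
theorem LD.up {T : ℕ → ℝ} {Φ : ℝ → ℝ} {μ ν e : ℝ} (h : LD T Φ μ ν e) (he : e = 0) {κ0 κ1 : ℝ}
    (h0 : 0 < κ0) (h1 : κ0 < 2 / 3) (h3 : κ1 < 1) {r : ℝ → ℝ}
    (Hr : SC r) (hs : ∀ α, κ1 < |α| → r α = 0) (hpos : ∀ α, κ0 < |α| → 0 ≤ r α) :
    DD (Gd Φ μ) r ≤ 0 := by
  set κ : ℝ := max κ1 ((κ0 + 1) / 2) with hκ
  have k1 : κ0 < κ := lt_of_lt_of_le (by linarith) (le_max_right _ _)
  have k2 : κ < 1 := max_lt h3 (by linarith)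
  have hs' : ∀ α, κ < |α| → r α = 0 := fun α hα => hs α (lt_of_le_of_lt (le_max_left _ _) hα)
  have W := tw_test Hr (h0.trans k1) hs'
  obtain ⟨B, T0, hB, hT0, hp⟩ := ct_props
  -- dominated convergence
  have hint : Tendsto (fun k => ∫ x in Ioi (0 : ℝ), tw r x * (ct (T k) x - PP x +
      (mt (T k) - 1) / 2)) atTop (𝓝 (DD (Gd Φ μ) r)) := by
    unfold DD
    refine tendsto_integral_filter_of_dominated_convergence
      (fun x => (B + 1) * (x ^ 1 * |tw r x|) + (2 * B + 1) * (x ^ 0 * |tw r x|)) ?_ ?_ ?_ ?_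
    · filter_upwards [h.hT.eventually_ge_atTop T0] with k hk
      have h1 := (hp (T k) hk).1.measurable
      have h2 := (tw_cont Hr).measurable
      have h3 := PP_cont.measurable
      exact (h2.mul ((h1.sub h3).add_const _)).aestronglyMeasurable
    · filter_upwards [h.hT.eventually_ge_atTop T0] with k hk
      refine (ae_restrict_iff' measurableSet_Ioi).2 (ae_of_all _ fun x hx => ?_)
      have hx0 : 0 ≤ x := le_of_lt hx
      have hw := abs_nonneg (tw r x)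
      obtain ⟨c1, c2⟩ := (hp (T k) hk).2.1 x hx0
      have c3 := PP_nonneg hx0
      have c4 := PP_le hx0
      have c5 := (hp (T k) hk).2.2.1
      have c6 := (hp (T k) hk).2.2.2.1
      rw [Real.norm_eq_abs, abs_mul]
      have h7 : |ct (T k) x - PP x + (mt (T k) - 1) / 2| ≤
          (B + 1) * x + (2 * B + 1) := by
        rw [abs_le]
        constructor <;> nlinarith
      calc |tw r x| * |ct (T k) x - PP x + (mt (T k) - 1) / 2| ≤
          |tw r x| * ((B + 1) * x + (2 * B + 1)) := by gcongr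
        _ = _ := by ring
    · exact ((W.inta 1 le_rfl).const_mul _).add ((W.inta 0 le_rfl).const_mul _)
    · refine ae_restrict_of_ae ?_
      filter_upwards [h.hg] with x hx
      exact ((hx.1.sub_const _).add ((h.hm.sub_const 1).div_const 2)).const_mul _
  refine le_of_forall_pos_le_add fun ε hε => ?_
  obtain ⟨K, T2, hK, hT2⟩ := agg_up h0 h1 k1 k2 W hpos hε
  have h4 : Tendsto (fun k => K * et (T k) + ε) atTop (𝓝 (K * e + ε)) :=
    (h.he.const_mul K).add_const ε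
  rw [he, mul_zero] at h4
  refine le_of_tendsto_of_tendsto hint h4 ?_
  filter_upwards [h.hT.eventually_ge_atTop T2] with k hk using hT2 _ hk

end Pool.Agent.N804
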