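import Pool.Agent.N804.Per

set_option autoImplicit false

/-! # Windows of a fixed length, along a filter of heights -/

namespace Pool.Agent.N804

open Filter Topology Set MeasureTheory
open H370 (Zf mult)

/-- good points of a limit -/
def GP (T : ℕ → ℝ) (Φ : ℝ → ℝ) : Set ℝ :=
  {x | Tendsto (fun k => ct (T k) x) atTop (𝓝 (Φ x)) ∧ ContinuousAt Φ x}

lemma GP_ae {T : ℕ → ℝ} {Φ : ℝ → ℝ} (hm : Monotone Φ)
    (h : ∀ᵐ x, Tendsto (fun k => ct (T k) x) atTop (𝓝 (Φ x))) : ∀ᵐ x, x ∈ GP T Φ := by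
  have h2 : ∀ᵐ x : ℝ, ContinuousAt Φ x := by
    rw [ae_iff]
    exact (hm.countable_not_continuousAt).measure_zero _
  filter_upwards [h, h2] with x h3 h4 using ⟨h3, h4⟩

/-- a good point to the left -/
lemma GP_left {T : ℕ → ℝ} {Φ : ℝ → ℝ} (hg : ∀ᵐ x, x ∈ GP T Φ) {x ε : ℝ} (hx : 0 < x)
    (gx : x ∈ GP T Φ) (hε : 0 < ε) : ∃ z η : ℝ, z ∈ GP T Φ ∧ |Φ z - Φ x| < ε ∧ 0 < z ∧ z < x ∧
      0 < η ∧ η < 1 ∧ (1 - η) * ((z + x) / 2) = z := by
  obtain ⟨δ, hδ, hδ2⟩ := Metric.continuousAt_iff.1 gx.2 ε hε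
  obtain ⟨z, hz, hzg⟩ := ae_Ioo hg (show max (x / 2) (x - δ) < x from
    max_lt (by linarith) (by linarith))
  have hz1 : x / 2 < z := lt_of_le_of_lt (le_max_left _ _) hz.1
  have hz2 : x - δ < z := lt_of_le_of_lt (le_max_right _ _) hz.1
  have hz0 : 0 < z := by linarith
  have hzx := hz.2
  have hs : 0 < z + x := by linarith
  refine ⟨z, (x - z) / (z + x), hzg, ?_, hz0, hzx, div_pos (by linarith) hs, ?_, ?_⟩
  · have := hδ2 (x := z) (by
      rw [Real.dist_eq, abs_lt]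
      constructor <;> linarith)
    rwa [Real.dist_eq] at this
  · rw [div_lt_one hs]
    linarith
  · field_simp
    ring

/-- lower bounds for windows, in the limit -/
lemma wlow {T : ℕ → ℝ} (hT : Tendsto T atTop atTop) {Φ : ℝ → ℝ} (hg : ∀ᵐ x, x ∈ GP T Φ)
    {x y m : ℝ} (hx : 0 < x) (hxy : x < y) (gx : x ∈ GP T Φ) (gy : y ∈ GP T Φ)
    (h : ∀ ε : ℝ, 0 < ε → ∀ᶠ k in atTop, m - ε ≤ NW (T k) x y / XX (T k)) :
    m ≤ Φ y - Φ x := by
  refine le_of_forall_pos_le_add fun ε hε => ?_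
  obtain ⟨z, η, gz, hz, hz0, hzx, hη0, hη1, hη⟩ := GP_left hg hx gx (ε := ε / 4) (by positivity)
  have hu0 : 0 < (z + x) / 2 := by linarith
  have hy0 : 0 < y := hx.trans hxy
  obtain ⟨T1, hT1, hge⟩ := CF_ge hu0.le hη0 hη1 (ε := ε / 4) (by positivity)
  obtain ⟨T2, hT2, hle⟩ := CF_le hy0.le (ε := ε / 4) (by positivity)
  have h8 : m - 3 * (ε / 4) ≤ Φ y - Φ z := by
    refine ge_of_tendsto (gy.1.sub gz.1) ?_
    filter_upwards [hT.eventually_ge_atTop (max T1 (max T2 2)), h (ε / 4) (by positivity)]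
      with k hk h2
    have g1 : T1 ≤ T k := (le_max_left _ _).trans hk
    have g2 : T2 ≤ T k := (le_max_left _ _).trans ((le_max_right _ _).trans hk)
    have g3 : 2 ≤ T k := (le_max_right _ _).trans ((le_max_right _ _).trans hk)
    have h3 := hge (T k) g1
    have h5 := hle (T k) g2
    have h6 := NW_le (T := T k) (α' := (z + x) / 2) (α := x) (β := y) (by linarith) hu0.le
      (by linarith) hxy.le
    rw [hη] at h3
    linarith
  have := (abs_lt.1 hz).1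
  linarith

/-- upper bounds for windows, in the limit -/
lemma wupp {T : ℕ → ℝ} (hT : Tendsto T atTop atTop) {Φ : ℝ → ℝ} (hg : ∀ᵐ x, x ∈ GP T Φ)
    {x y m : ℝ} (hx : 0 < x) (hxy : x < y) (gx : x ∈ GP T Φ) (gy : y ∈ GP T Φ)
    (h : ∀ ε : ℝ, 0 < ε → ∀ᶠ k in atTop, NW (T k) x y / XX (T k) ≤ m + ε) :
    Φ y - Φ x ≤ m := by
  refine le_of_forall_pos_le_add fun ε hε => ?_
  have hy0 : 0 < y := hx.trans hxy
  obtain ⟨z, η, gz, hz, hz0, hzx, hη0, hη1, hη⟩ := GP_left hg hy0 gy (ε := ε / 4) (by positivity)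
  have hu0 : 0 < (z + y) / 2 := by linarith
  obtain ⟨T1, hT1, hge⟩ := CF_ge hu0.le hη0 hη1 (ε := ε / 4) (by positivity)
  obtain ⟨T2, hT2, hle⟩ := CF_le hx.le (ε := ε / 4) (by positivity)
  have h8 : Φ z - Φ x ≤ m + 3 * (ε / 4) := by
    refine le_of_tendsto (gz.1.sub gx.1) ?_
    filter_upwards [hT.eventually_ge_atTop (max T1 (max T2 2)), h (ε / 4) (by positivity)]
      with k hk h2
    have g1 : T1 ≤ T k := (le_max_left _ _).trans hk
    have g2 : T2 ≤ T k := (le_max_left _ _).trans ((le_max_right _ _).trans hk)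
    have g3 : 2 ≤ T k := (le_max_right _ _).trans ((le_max_right _ _).trans hk)
    have h3 := hge (T k) g1
    have h5 := hle (T k) g2
    have h6 := NW_ge (T := T k) (α := x) (β := y) (by linarith)
    have h7 := CF_mono (T := T k) (by linarith) (show (z + y) / 2 ≤ y by linarith)
    rw [hη] at h3
    linarith
  have := (abs_lt.1 hz).1
  linarith

/-- convergence for windows -/
lemma NW_tendsto' {l : Filter ℝ} (hl : l ≤ atTop)
    (h : ∀ a, 0 < a → Tendsto (fun T => CF T a) l (𝓝 (PP a))) {α β : ℝ}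
    (hα : 0 < α) (hβ : α < β) :
    Tendsto (fun T => NW T α β / XX T) l (𝓝 (PP β - PP α)) := by
  rw [Metric.tendsto_nhds]
  intro ε hε
  set δ : ℝ := min (ε / 4) (α / 2) with hδ
  have hδ0 : 0 < δ := lt_min (by positivity) (by linarith)
  have hδ1 : δ ≤ ε / 4 := min_le_left _ _
  have hδ2 : δ ≤ α / 2 := min_le_right _ _
  filter_upwards [Metric.tendsto_nhds.1 (h β (by linarith)) (ε / 4) (by positivity),
    Metric.tendsto_nhds.1 (h α hα) (ε / 4) (by positivity),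
    Metric.tendsto_nhds.1 (h (α - δ) (by linarith)) (ε / 4) (by positivity),
    hl (eventually_ge_atTop 2)] with T g0 g1 g2 g3
  rw [Real.dist_eq] at g0 g1 g2 ⊢
  have k0 := abs_lt.1 g0
  have k1 := abs_lt.1 g1
  have k2 := abs_lt.1 g2
  have h1 := NW_ge (T := T) (α := α) (β := β) (by linarith)
  have h2 := NW_le (T := T) (α' := α - δ) (α := α) (β := β) (by linarith) (by linarith)
    (by linarith) hβ.le
  have h3 := PP_lip (show α - δ ≤ α by linarith)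
  rw [abs_lt]
  constructor <;> linarith [k0.1, k0.2, k1.1, k1.2, k2.1, k2.2]

/-- the conjecture for windows gives everything -/
theorem win_exact' {l : Filter ℝ} [l.IsCountablyGenerated] (hl : l ≤ atTop)
    (h : ∀ α β : ℝ, 0 < α → α < β → Tendsto (fun T => NW T α β / XX T) l (𝓝 (PP β - PP α))) :
    (∀ a, 0 < a → Tendsto (fun T => CF T a) l (𝓝 (PP a))) ∧ Tendsto BF l (𝓝 0) := by
  refine of_limits' hl fun T hTl Φ μ ν e H h1 _ _ _ => ?_
  have hT : Tendsto T atTop atTop := hTl.mono_right hl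
  have hg := GP_ae H.mono h1
  refine limD H (GP T Φ) hg ?_
  intro x hx y hy hx0 hxy
  have h2 := (h x y hx0 hxy).comp hTl
  refine le_antisymm ?_ ?_
  · refine wupp hT hg hx0 hxy hx hy fun ε hε => ?_
    filter_upwards [h2.eventually (gt_mem_nhds (show PP y - PP x < PP y - PP x + ε by linarith))]
      with k hk using hk.le
  · refine wlow hT hg hx0 hxy hx hy fun ε hε => ?_
    filter_upwards [h2.eventually (lt_mem_nhds (show PP y - PP x - ε < PP y - PP x by linarith))]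
      with k hk using hk.le

/-- translate of a pattern -/
def shp (Λ : Set ℝ) (h : ℝ) : Set ℝ := {y | y - h ∈ Λ ∧ 0 < y - h}

lemma shp_image (Λ S : Set ℝ) (h : ℝ) :
    shp Λ h ∩ S = (fun y => y + h) '' (Λ ∩ {y | 0 < y ∧ y + h ∈ S}) := by
  ext z
  simp only [shp, mem_inter_iff, mem_image]
  constructor
  · rintro ⟨⟨h1, h2⟩, h3⟩
    exact ⟨z - h, ⟨h1, h2, by rw [sub_add_cancel]; exact h3⟩, by rw [sub_add_cancel]⟩
  · rintro ⟨y, ⟨h1, h2, h3⟩, rfl⟩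
    refine ⟨⟨?_, ?_⟩, h3⟩ <;> rw [add_sub_cancel_right]
    · exact h1
    · exact h2

lemma cn_shp (Λ : Set ℝ) {h : ℝ} (hh : 0 ≤ h) (y : ℝ) : cn (shp Λ h) y = cn Λ (y - h) := by
  unfold cn
  rw [shp_image, ncard_image_of_injective _ (add_left_injective h)]
  congr 1
  ext z
  simp only [mem_inter_iff, mem_Ioc, mem_ofPred_eq]
  constructor
  · rintro ⟨h1, h2, h3, h4⟩
    exact ⟨h1, h2, by linarith⟩
  · rintro ⟨h1, h2, h3⟩
    exact ⟨h1, h2, by linarith, by linarith⟩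

lemma Dens_shp {Λ : Set ℝ} {d C : ℝ} (H : Dens Λ d C) {h : ℝ} (hh : 0 ≤ h) :
    Dens (shp Λ h) (max d 0) (max C 0) := by
  intro x L hx hL
  rw [shp_image]
  have hd := le_max_left d 0
  have hC := le_max_left C 0
  have hd0 := le_max_right d 0
  have hC0 := le_max_right C 0
  have h1 : (Λ ∩ Icc (max 0 (x - h)) (max 0 (x - h) + L)).Finite ∧
      ((Λ ∩ Icc (max 0 (x - h)) (max 0 (x - h) + L)).ncard : ℝ) ≤ d * L + C :=
    H (max 0 (x - h)) L (le_max_left _ _) hL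
  have hsub : Λ ∩ {y | 0 < y ∧ y + h ∈ Icc x (x + L)} ⊆
      Λ ∩ Icc (max 0 (x - h)) (max 0 (x - h) + L) := by
    rintro y ⟨h2, h3, h4, h5⟩
    refine ⟨h2, max_le h3.le (by linarith), ?_⟩
    have := le_max_right 0 (x - h)
    linarith
  refine ⟨(h1.1.subset hsub).image _, ?_⟩
  rw [ncard_image_of_injective _ (add_left_injective h)]
  have h2 : ((Λ ∩ {y | 0 < y ∧ y + h ∈ Icc x (x + L)}).ncard : ℝ) ≤ d * L + C :=
    le_trans (by exact_mod_cast ncard_le_ncard hsub h1.1) h1.2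
  refine h2.trans ?_
  have : d * L ≤ max d 0 * L := mul_le_mul_of_nonneg_right hd hL
  linarith

/-- patterned bounds for windows of one length, in the limit -/
theorem limW {Φ : ℝ → ℝ} {μ ν e : ℝ} (H : LO Φ μ ν e) (he : e = 0) {ℓ : ℝ} (hℓ : 0 < ℓ)
    {Λ : Set ℝ} {d C : ℝ} (hd : d < 4 / 3) (hΛ : Dens Λ d C) {K c R : ℝ} (hc : 0 < c)
    (h : ∀ᵐ x, R ≤ x → -(K * Real.exp (-(c * x))) ≤
      (-1) ^ cn Λ x * (Gd Φ μ (x + ℓ) - Gd Φ μ x)) :
    DZ (Es (Gd Φ μ) (ℓ / 2)) := by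
  obtain ⟨B, hB, hGB⟩ := Gd_bd H
  obtain ⟨B', hB', hEB⟩ := Es_bd hB hGB (ℓ / 2)
  have hh : 0 ≤ ℓ / 2 := by positivity
  refine patt_uniq (Es_meas (Gd_meas H) (ℓ / 2)) hB' hEB 0
    (fun κ β hκ hκβ n => Es_ann H he (ℓ / 2) hκ hκβ n) (Λ := shp Λ (ℓ / 2))
    (d := max d 0) (C := max C 0) (max_lt hd (by norm_num)) (Dens_shp hΛ hh)
    (K := |K| * Real.exp (c * (ℓ / 2))) (c := c) (R := max (R + ℓ / 2) (ℓ / 2 + 1)) hc ?_
  have hq := (measurePreserving_sub_right volume (ℓ / 2)).quasiMeasurePreserving.ae h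
  filter_upwards [hq] with y hy hRy
  have r1 : R ≤ y - ℓ / 2 := by linarith [(le_max_left (R + ℓ / 2) (ℓ / 2 + 1)).trans hRy]
  have r2 : ℓ / 2 + 1 ≤ y := (le_max_right _ _).trans hRy
  have h1 := hy r1
  have e1 : y - ℓ / 2 + ℓ = y + ℓ / 2 := by ring
  rw [e1] at h1
  rw [cn_shp Λ hh]
  have e2 : Es (Gd Φ μ) (ℓ / 2) y = Gd Φ μ (y + ℓ / 2) - Gd Φ μ (y - ℓ / 2) := by
    unfold Es
    rw [od_pos (by linarith), od_pos (by linarith)]
  rw [e2]
  refine le_trans ?_ h1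
  have e3 : Real.exp (-(c * (y - ℓ / 2))) = Real.exp (c * (ℓ / 2)) * Real.exp (-(c * y)) := by
    rw [← Real.exp_add]
    congr 1
    ring
  rw [e3]
  have h2 : K * (Real.exp (c * (ℓ / 2)) * Real.exp (-(c * y))) ≤
      |K| * (Real.exp (c * (ℓ / 2)) * Real.exp (-(c * y))) :=
    mul_le_mul_of_nonneg_right (le_abs_self K) (by positivity)
  linarith

/-- one-sided bounds, with a sign pattern, for the far windows of length `ℓ` -/
def WB (l : Filter ℝ) (ℓ : ℝ) (Λ : Set ℝ) (K c R : ℝ) : Prop :=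
  ∀ α : ℝ, R ≤ α → 0 < α → ∀ ε : ℝ, 0 < ε → ∀ᶠ T in l,
    -(K * Real.exp (-(c * α))) - ε ≤
      (-1) ^ cn Λ α * (NW T α (α + ℓ) / XX T - (PP (α + ℓ) - PP α))

lemma WB_lim {l : Filter ℝ} (hl : l ≤ atTop) {ℓ : ℝ} (hℓ : 0 < ℓ) {Λ : Set ℝ} {K c R : ℝ}
    (hW : WB l ℓ Λ K c R) {T : ℕ → ℝ} (hTl : Tendsto T atTop l) {Φ : ℝ → ℝ} {μ : ℝ}
    (hg : ∀ᵐ x, x ∈ GP T Φ) :
    ∀ᵐ x, max R 1 ≤ x → -(K * Real.exp (-(c * x))) ≤
      (-1) ^ cn Λ x * (Gd Φ μ (x + ℓ) - Gd Φ μ x) := by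
  have hT : Tendsto T atTop atTop := hTl.mono_right hl
  have hq := (measurePreserving_add_right volume ℓ).quasiMeasurePreserving.ae hg
  filter_upwards [hg, hq] with x gx gy hRx
  have hR1 : R ≤ x := (le_max_left _ _).trans hRx
  have hx0 : 0 < x := lt_of_lt_of_le one_pos ((le_max_right _ _).trans hRx)
  have eG : Gd Φ μ (x + ℓ) - Gd Φ μ x = Φ (x + ℓ) - Φ x - (PP (x + ℓ) - PP x) := by
    unfold Gd
    ring
  rw [eG]
  rcases neg_one_pow_eq_or ℝ (cn Λ x) with hs | hs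
  · have h2 := wlow hT hg (m := PP (x + ℓ) - PP x - K * Real.exp (-(c * x))) hx0
      (show x < x + ℓ by linarith) gx gy (fun ε hε => by
        filter_upwards [hTl.eventually (hW x hR1 hx0 ε hε)] with k hk
        rw [hs, one_mul] at hk
        linarith)
    rw [hs, one_mul]
    linarith
  · have h2 := wupp hT hg (m := PP (x + ℓ) - PP x + K * Real.exp (-(c * x))) hx0
      (show x < x + ℓ by linarith) gx gy (fun ε hε => by
        filter_upwards [hTl.eventually (hW x hR1 hx0 ε hε)] with k hk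
        rw [hs] at hk
        linarith)
    rw [hs]
    linarith

/-- two window lengths with irrational ratio -/
theorem two_lengths {l : Filter ℝ} [l.IsCountablyGenerated] (hl : l ≤ atTop) {ℓ₁ ℓ₂ : ℝ}
    (h1 : 0 < ℓ₁) (h2 : 0 < ℓ₂) (hirr : Irrational (ℓ₁ / ℓ₂)) (hO : Tendsto OF l (𝓝 0))
    {Λ₁ Λ₂ : Set ℝ} {d₁ C₁ d₂ C₂ : ℝ} (hd1 : d₁ < 4 / 3) (hΛ1 : Dens Λ₁ d₁ C₁)
    (hd2 : d₂ < 4 / 3) (hΛ2 : Dens Λ₂ d₂ C₂) {K₁ c₁ R₁ K₂ c₂ R₂ : ℝ} (hc1 : 0 < c₁)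
    (hc2 : 0 < c₂) (hW1 : WB l ℓ₁ Λ₁ K₁ c₁ R₁) (hW2 : WB l ℓ₂ Λ₂ K₂ c₂ R₂) :
    (∀ a, 0 < a → Tendsto (fun T => CF T a) l (𝓝 (PP a))) ∧ Tendsto BF l (𝓝 0) := by
  refine of_limits' hl fun T hTl Φ μ ν e H h3 _ _ h4 => ?_
  have he : e = 0 := tendsto_nhds_unique h4 ((et_of_OF' hl hO).comp hTl)
  have hg := GP_ae H.mono h3
  exact finish H (two_per H hirr
    (limW H he h1 hd1 hΛ1 hc1 (WB_lim hl h1 hW1 hTl hg))
    (limW H he h2 hd2 hΛ2 hc2 (WB_lim hl h2 hW2 hTl hg)))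

end Pool.Agent.N804
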