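import Pool.Agent.N804.AvgF

set_option autoImplicit false

/-! # Bounded discrepancy for the windows -/

namespace Pool.Agent.N804

open Filter Topology Set MeasureTheory
open H370 (Zf mult)

/-- all windows have bounded discrepancy -/
theorem win_pt : ∃ K : ℝ, 0 < K ∧ ∀ α β : ℝ, 0 < α → α < β → ∀ᶠ T in atTop,
    |NW T α β / XX T - (PP β - PP α)| ≤ K := by
  obtain ⟨K, hK, h⟩ := pt_T
  refine ⟨2 * K + 1, by positivity, fun α β hα hβ => ?_⟩
  set α' : ℝ := max (α - 1) (α / 2) with hα'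
  have h0 : 0 < α' := lt_of_lt_of_le (by positivity) (le_max_right _ _)
  have h1 : α' < α := max_lt (by linarith) (by linarith)
  have h2 : α - 1 ≤ α' := le_max_left _ _
  have h3 := PP_lip h1.le
  filter_upwards [h α hα, h β (hα.trans hβ), h α' h0, eventually_ge_atTop 2] with T g1 g2 g3 g4
  have k1 := abs_le.1 g1
  have k2 := abs_le.1 g2
  have k3 := abs_le.1 g3
  have m1 := NW_ge (T := T) (α := α) (β := β) (by linarith)
  have m2 := NW_le (T := T) (α' := α') (α := α) (β := β) (by linarith) h0.le h1 hβ.le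
  rw [abs_le]
  constructor <;> linarith [k1.1, k1.2, k2.1, k2.2, k3.1, k3.2]

lemma CF_neg {T : ℝ} (hT : 1 < T) {x : ℝ} (hx : x ≤ 0) : CF T x = 0 := by
  unfold CF
  have hL : 0 < Real.log T := Real.log_pos hT
  have hpi := Real.pi_pos
  rw [Pc_neg, zero_div]
  exact div_nonpos_of_nonpos_of_nonneg (by nlinarith) hL.le

lemma CF_ii {T : ℝ} (hT : 1 < T) (a b : ℝ) : IntervalIntegrable (CF T) volume a b := by
  have hm : Monotone (CF T) := fun x y hxy => CF_mono hT hxy
  exact hm.intervalIntegrable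

lemma NW_meas (T ℓ : ℝ) : Measurable fun x : ℝ => NW T x (x + ℓ) := by
  classical
  unfold NW
  refine Finset.measurable_sum _ fun s _ => Finset.measurable_sum _ fun s' _ => ?_
  refine Measurable.ite ?_ measurable_const measurable_const
  exact (measurableSet_le measurable_id measurable_const).inter
    (measurableSet_le measurable_const (measurable_id.add_const ℓ))

lemma NW_nonneg (T α β : ℝ) : 0 ≤ NW T α β := by
  classical
  unfold NW
  refine Finset.sum_nonneg fun s _ => Finset.sum_nonneg fun s' _ => ?_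
  split_ifs
  · positivity
  · exact le_rfl

/-- the integrals over the translates are bounded -/
theorem win_mean : ∃ K : ℝ, 0 < K ∧ ∀ ℓ a : ℝ, 0 < ℓ → 0 < a → ∀ᶠ T in atTop,
    |∫ x in (0 : ℝ)..a, (NW T x (x + ℓ) / XX T - (PP (x + ℓ) - PP x))| ≤ K := by
  obtain ⟨K, hK, h⟩ := mean_T
  obtain ⟨K', hK', hpt⟩ := pt_T
  refine ⟨3 * K + 1, by positivity, fun ℓ a hℓ ha => ?_⟩
  filter_upwards [h a ha, h ℓ hℓ, h (a + ℓ) (by linarith), hpt a ha, eventually_ge_atTop 2]
    with T g1 g2 g3 g4 g5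
  have hT : 1 < T := by linarith
  have hX := XX_pos hT
  set C := CF T with hC
  have hCm : ∀ x y : ℝ, x ≤ y → C x ≤ C y := fun x y hxy => CF_mono hT hxy
  have hCi : ∀ u v : ℝ, IntervalIntegrable C volume u v := CF_ii hT
  have hPi : ∀ u v : ℝ, IntervalIntegrable PP volume u v := fun u v =>
    PP_cont.intervalIntegrable _ _
  have iC : ∀ c u v : ℝ, IntervalIntegrable (fun x => C (x + c)) volume u v := by
    intro c u v
    have h := (hCi (u + c) (v + c)).comp_add_right c
    simp only [add_sub_cancel_right] at h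
    exact h
  have iP : ∀ c u v : ℝ, IntervalIntegrable (fun x => PP (x + c)) volume u v := by
    intro c u v
    exact (PP_cont.comp (by fun_prop)).intervalIntegrable _ _
  -- the window function is integrable
  have iN : IntervalIntegrable (fun x => NW T x (x + ℓ) / XX T) volume 0 a := by
    rw [intervalIntegrable_iff_integrableOn_Ioc_of_le ha.le]
    refine Integrable.mono' (g := fun _ => C (a + ℓ)) (by
        rw [← IntegrableOn]
        exact integrableOn_const (by simp)) ((NW_meas T ℓ).div_const _).aestronglyMeasurable ?_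
    filter_upwards [ae_restrict_mem measurableSet_Ioc] with x hx
    rw [Real.norm_eq_abs, abs_of_nonneg (div_nonneg (NW_nonneg _ _ _) hX.le)]
    have h1 := NW_le (T := T) (α' := 0) (α := x) (β := x + ℓ) hT le_rfl hx.1 (by linarith)
    rw [CF_neg hT le_rfl, sub_zero] at h1
    exact h1.trans (hCm _ _ (by linarith [hx.2]))
  set η : ℝ := 1 / (a + K' + 1) with hη
  have hη0 : 0 < η := by positivity
  -- bounds for the window
  have hlow : ∀ x ∈ Icc (0 : ℝ) a, C (x + ℓ) - C x ≤ NW T x (x + ℓ) / XX T := fun x _ =>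
    NW_ge hT
  have hupp : ∀ x ∈ Ioo (0 : ℝ) a, NW T x (x + ℓ) / XX T ≤ C (x + ℓ) - C (x + -η) := by
    intro x hx
    rcases le_or_gt x η with h1 | h1
    · have h2 := NW_le (T := T) (α' := 0) (α := x) (β := x + ℓ) hT le_rfl hx.1 (by linarith)
      rw [CF_neg hT le_rfl] at h2
      have h3 : C (x + -η) = 0 := CF_neg hT (by linarith)
      rw [h3]
      exact h2
    · exact NW_le (T := T) (α' := x + -η) (α := x) (β := x + ℓ) hT (by linarith) (by linarith)
        (by linarith)
  set I : ℝ := ∫ x in (0 : ℝ)..a, NW T x (x + ℓ) / XX T with hI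
  have hI1 : ∫ x in (0 : ℝ)..a, (C (x + ℓ) - C x) ≤ I :=
    intervalIntegral.integral_mono_on ha.le ((iC _ _ _).sub (hCi _ _)) iN hlow
  have hI2 : I ≤ ∫ x in (0 : ℝ)..a, (C (x + ℓ) - C (x + -η)) :=
    intervalIntegral.integral_mono_on_of_le_Ioo ha.le iN ((iC _ _ _).sub (iC _ _ _)) hupp
  -- the shifted integral
  have hsh : (∫ x in (0 : ℝ)..a, C x) - 1 ≤ ∫ x in (0 : ℝ)..a, C (x + -η) := by
    rw [intervalIntegral.integral_comp_add_right (fun v => C v), zero_add]
    have e1 : ∫ x in (-η)..(a + -η), C x =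
        (∫ x in (-η)..0, C x) + ((∫ x in (0 : ℝ)..a, C x) - ∫ x in (a + -η)..a, C x) := by
      rw [← intervalIntegral.integral_add_adjacent_intervals (hCi (-η) 0) (hCi 0 (a + -η)),
        ← intervalIntegral.integral_add_adjacent_intervals (hCi 0 (a + -η)) (hCi (a + -η) a)]
      ring
    have e2 : ∫ x in (-η)..0, C x = 0 := by
      have : ∫ x in (-η)..0, C x = ∫ x in (-η)..0, (0 : ℝ) := by
        refine intervalIntegral.integral_congr fun x hx => ?_
        rw [uIcc_of_le (by linarith)] at hx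
        exact CF_neg hT hx.2
      rw [this]
      simp
    have e3 : ∫ x in (a + -η)..a, C x ≤ 1 := by
      have h2 : ∫ x in (a + -η)..a, C x ≤ ∫ x in (a + -η)..a, C a :=
        intervalIntegral.integral_mono_on (by linarith) (hCi _ _) intervalIntegrable_const
          fun x hx => hCm _ _ hx.2
      rw [intervalIntegral.integral_const, smul_eq_mul] at h2
      have h3 : C a ≤ a + K' + 1 := by
        have := (abs_le.1 g4).2
        have h5 := PP_le ha.le
        linarith
      have h4 : (a - (a + -η)) * C a ≤ 1 := by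
        have : a - (a + -η) = η := by ring
        rw [this, hη, one_div_mul_eq_div, div_le_one (by positivity)]
        exact h3
      linarith
    rw [e1, e2]
    linarith
  -- evaluation
  have hE : ∀ y : ℝ, ∫ x in (0 : ℝ)..y, (C x - PP x) =
      (∫ x in (0 : ℝ)..y, C x) - ∫ x in (0 : ℝ)..y, PP x := fun y =>
    intervalIntegral.integral_sub (hCi _ _) (hPi _ _)
  rw [hE] at g1 g2 g3
  have hCsh : ∫ x in (0 : ℝ)..a, C (x + ℓ) =
      (∫ x in (0 : ℝ)..(a + ℓ), C x) - ∫ x in (0 : ℝ)..ℓ, C x := by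
    rw [intervalIntegral.integral_comp_add_right (fun v => C v), zero_add,
      intervalIntegral.integral_interval_sub_left (hCi _ _) (hCi _ _)]
  have hPsh : ∫ x in (0 : ℝ)..a, PP (x + ℓ) =
      (∫ x in (0 : ℝ)..(a + ℓ), PP x) - ∫ x in (0 : ℝ)..ℓ, PP x := by
    rw [intervalIntegral.integral_comp_add_right (fun v => PP v), zero_add,
      intervalIntegral.integral_interval_sub_left (hPi _ _) (hPi _ _)]
  rw [intervalIntegral.integral_sub (iC _ _ _) (hCi _ _), hCsh] at hI1
  rw [intervalIntegral.integral_sub (iC _ _ _) (iC _ _ _), hCsh] at hI2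
  rw [intervalIntegral.integral_sub iN ((iP _ _ _).sub (hPi _ _)),
    intervalIntegral.integral_sub (iP _ _ _) (hPi _ _), hPsh]
  have k1 := abs_le.1 g1
  have k2 := abs_le.1 g2
  have k3 := abs_le.1 g3
  have eM : (MF T - 1) * (a + ℓ) / 2 = (MF T - 1) * a / 2 + (MF T - 1) * ℓ / 2 := by ring
  rw [eM] at k3
  rw [abs_le]
  constructor
  · linarith [k1.1, k1.2, k2.1, k2.2, k3.1, k3.2]
  · linarith [k1.1, k1.2, k2.1, k2.2, k3.1, k3.2]

/-- the count in the statement, uniformly -/
theorem win_eq' (b : ℝ) : ∃ T0 : ℝ, 10 ≤ T0 ∧ ∀ T : ℝ, T0 ≤ T → ∀ α β : ℝ, 0 < α → β ≤ b →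
    ((∑ᶠ p ∈ {p : ℂ × ℂ | p.1 ∈ ZZ ∧ p.2 ∈ ZZ ∧ 0 ≤ p.1.im ∧ p.1.im ≤ T ∧
      0 ≤ p.2.im ∧ p.2.im ≤ T ∧ α ≤ (p.1.im - p.2.im) * Real.log T / (2 * Real.pi) ∧
      (p.1.im - p.2.im) * Real.log T / (2 * Real.pi) ≤ β},
      analyticOrderNatAt riemannZeta p.1 * analyticOrderNatAt riemannZeta p.2 : ℕ) : ℝ) =
    NW T α β := by
  classical
  obtain ⟨h0, hh0, hlow⟩ := low_zero
  obtain ⟨T3, hT3⟩ := eventually_atTop.1
    (Real.tendsto_log_atTop.eventually_ge_atTop (2 * Real.pi * b / h0))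
  refine ⟨max 10 T3, le_max_left _ _, fun T hT α β hα hβ => ?_⟩
  have hT10 : 10 ≤ T := (le_max_left _ _).trans hT
  have hL : 0 < Real.log T := Real.log_pos (by linarith)
  have hpi := Real.pi_pos
  have hh : 2 * Real.pi * β ≤ h0 * Real.log T := by
    have := hT3 T ((le_max_right _ _).trans hT)
    rw [div_le_iff₀ hh0] at this
    have h2 : 2 * Real.pi * β ≤ 2 * Real.pi * b := by gcongr
    linarith
  set S := Zf riemannZeta 0 T with hS
  have hset : {p : ℂ × ℂ | p.1 ∈ ZZ ∧ p.2 ∈ ZZ ∧ 0 ≤ p.1.im ∧ p.1.im ≤ T ∧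
      0 ≤ p.2.im ∧ p.2.im ≤ T ∧ α ≤ (p.1.im - p.2.im) * Real.log T / (2 * Real.pi) ∧
      (p.1.im - p.2.im) * Real.log T / (2 * Real.pi) ≤ β} =
      ↑((S ×ˢ S).filter (fun p : ℂ × ℂ => α ≤ (p.1.im - p.2.im) * Real.log T / (2 * Real.pi) ∧
      (p.1.im - p.2.im) * Real.log T / (2 * Real.pi) ≤ β)) := by
    ext p
    simp only [Set.mem_ofPred_eq, Finset.coe_filter, Finset.mem_product]
    rw [hS, mem_ZT, mem_ZT]
    constructor
    · rintro ⟨a1, a2, a3, a4, a5, a6, a7, a8⟩
      have b7 := a7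
      have b8 := a8
      rw [le_div_iff₀ (by positivity)] at b7
      rw [div_le_iff₀ (by positivity)] at b8
      have c1 : 0 < α * (2 * Real.pi) := by positivity
      have c2 : 0 < p.1.im - p.2.im := by
        by_contra hcon
        push Not at hcon
        nlinarith
      have c3 : 0 < p.1.im := by linarith
      have c4 := hlow p.1 a1 c3
      refine ⟨⟨⟨a1, c3, a4⟩, a2, ?_, a6⟩, a7, a8⟩
      rcases a5.lt_or_eq with h | h
      · exact h
      · rw [← h] at b8
        nlinarith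
    · rintro ⟨⟨⟨a1, a3, a4⟩, a2, a5, a6⟩, a7, a8⟩
      exact ⟨a1, a2, a3.le, a4, a5.le, a6, a7, a8⟩
  rw [hset, finsum_mem_coe_finset, Finset.sum_filter, Finset.sum_product]
  unfold NW
  push_cast
  refine Finset.sum_congr rfl fun s _ => Finset.sum_congr rfl fun s' _ => ?_
  split_ifs <;> simp [mult]

end Pool.Agent.N804
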